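import Pool.Agent.EX.Spec2

/-! Project EX (MP_68260e), module A1: deterministic and invariance properties of arms. -/

set_option autoImplicit false

open MeasureTheory

namespace TriX

theorem a1_ball_mono (c : V) {r R : ℤ} (h : r ≤ R) : Ball c r ⊆ Ball c R :=
  fun _ hv => ⟨hv.1.trans h, hv.2.trans h⟩

theorem a1_via_mono {S S' : Set V} (h : S ⊆ S') {u v : V} (hv : Via S u v) : Via S' u v := by
  obtain ⟨w, hw, ha⟩ := hv
  exact ⟨w, Relation.ReflTransGen.mono (fun _ _ h' => ⟨h'.1, h h'.2⟩) _ _ hw, ha⟩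

theorem a1_incr (c : V) (r R : ℤ) : Incr (Arm c r R) := by
  rintro B B' h ⟨u, hu, v, hv, hvia⟩
  exact ⟨u, hu, v, hv, a1_via_mono (Set.inter_subset_inter_left _ h) hvia⟩

theorem a1_dep (c : V) (r R : ℤ) : DepOn (Arm c r R) (Ann c r R) := by
  intro B B' h
  unfold Arm
  rw [h]

theorem a1_ball_finite (c : V) (r : ℤ) : (Ball c r).Finite := by
  refine Set.Finite.subset ((Set.finite_Icc (c.1 - r) (c.1 + r)).prod
    (Set.finite_Icc (c.2 - r) (c.2 + r))) ?_
  rintro v ⟨h1, h2⟩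
  rw [abs_le] at h1 h2
  refine ⟨⟨?_, ?_⟩, ⟨?_, ?_⟩⟩ <;> linarith [h1.1, h1.2, h2.1, h2.2]

theorem a1_ann_finite (c : V) (r R : ℤ) : (Ann c r R).Finite :=
  (a1_ball_finite c R).subset Set.sdiff_subset

theorem a1_loc (c : V) (r R : ℤ) : Loc (Arm c r R) := by
  refine ⟨(a1_ann_finite c r R).toFinset, ?_⟩
  rw [Set.Finite.coe_toFinset]
  exact a1_dep c r R

/-- A path from the inner ball: either the arm was found, or the end is joined to the ball. -/
theorem a1_key (c : V) (r R : ℤ) (S : Set V) {u w : V} (hu : u ∈ Ball c r)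
    (h : Relation.ReflTransGen (fun a b => Adj a b ∧ b ∈ S) u w) :
    Arm c r R S ∨ ∃ a ∈ Ball c r,
      Relation.ReflTransGen (fun a b => Adj a b ∧ b ∈ S ∩ Ann c r R) a w := by
  induction h with
  | refl => exact Or.inr ⟨u, hu, Relation.ReflTransGen.refl⟩
  | @tail x y _ hxy ih =>
    rcases ih with ih | ⟨a, ha, hax⟩
    · exact Or.inl ih
    · by_cases hr : y ∈ Ball c r
      · exact Or.inr ⟨y, hr, Relation.ReflTransGen.refl⟩
      · by_cases hR : y ∈ Ball c R
        · exact Or.inr ⟨a, ha, hax.tail ⟨hxy.1, hxy.2, hR, hr⟩⟩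
        · exact Or.inl ⟨a, ha, y, hR, x, hax, hxy.1⟩

theorem a1_of_via (c : V) (r R : ℤ) (S : Set V) {u v : V} (hu : u ∈ Ball c r)
    (hv : v ∉ Ball c R) (h : Via S u v) : Arm c r R S := by
  obtain ⟨w, hw, hwv⟩ := h
  rcases a1_key c r R S hu hw with h1 | ⟨a, ha, haw⟩
  · exact h1
  · exact ⟨a, ha, v, hv, w, haw, hwv⟩

theorem a1_of_conn (c : V) (r R : ℤ) (hrR : r ≤ R) (S : Set V) {u v : V} (hu : u ∈ Ball c r)
    (hv : v ∉ Ball c R) (h : Conn S u v) : Arm c r R S := by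
  obtain ⟨_, h⟩ := h
  rcases h.cases_tail with h1 | ⟨w, hw, hwv⟩
  · exact absurd (a1_ball_mono c hrR hu) (by rw [← h1]; exact hv)
  · exact a1_of_via c r R S hu hv ⟨w, hw, hwv.1⟩

theorem a1_mono (c : V) (r R r' R' : ℤ) (B : Set V) (h1 : r ≤ r') (h3 : R' ≤ R)
    (h : Arm c r R B) : Arm c r' R' B := by
  obtain ⟨u, hu, v, hv, hvia⟩ := h
  refine a1_incr c r' R' _ _ Set.inter_subset_left
    (a1_of_via c r' R' (B ∩ Ann c r R) (a1_ball_mono c h1 hu) ?_ hvia)
  exact fun h' => hv (a1_ball_mono c h3 h')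

theorem a1_self (c : V) (r : ℤ) (B : Set V) (hr : 0 ≤ r) : Arm c r r B := by
  refine ⟨(c.1 + r, c.2), ⟨?_, ?_⟩, (c.1 + r + 1, c.2), ?_, (c.1 + r, c.2),
    Relation.ReflTransGen.refl, ?_⟩
  · simp [abs_of_nonneg hr]
  · simpa using hr
  · rintro ⟨h1, _⟩
    have h2 := (abs_le.1 h1).2
    simp only at h2
    omega
  · left
    exact ⟨rfl, rfl⟩

/-- Arms under an automorphism of the lattice. -/
theorem a1_map (φ : V ≃ V) (c c' : V) (hadj : ∀ u v, Adj u v → Adj (φ u) (φ v))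
    (hball : ∀ r u, u ∈ Ball c r ↔ φ u ∈ Ball c' r) (r R : ℤ) (B : Set V) (h : Arm c r R B) :
    Arm c' r R (φ '' B) := by
  obtain ⟨u, hu, v, hv, w, hw, hwv⟩ := h
  refine ⟨φ u, (hball r u).1 hu, φ v, fun h' => hv ((hball R v).2 h'), φ w, ?_, hadj _ _ hwv⟩
  refine Relation.ReflTransGen.lift φ ?_ _ _ hw
  rintro a b ⟨h1, h2, h3, h4⟩
  exact ⟨hadj _ _ h1, ⟨b, h2, rfl⟩, (hball R b).1 h3, fun h' => h4 ((hball r b).2 h')⟩

theorem a1_swap_adj (u v : V) (h : Adj u v) : Adj (Equiv.prodComm ℤ ℤ u) (Equiv.prodComm ℤ ℤ v) := by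
  obtain ⟨u1, u2⟩ := u
  obtain ⟨v1, v2⟩ := v
  simp only [Adj, Equiv.prodComm_apply, Prod.swap] at h ⊢
  omega

theorem a1_swap_ball (r : ℤ) (u : V) : u ∈ Ball 0 r ↔ Equiv.prodComm ℤ ℤ u ∈ Ball 0 r := by
  obtain ⟨u1, u2⟩ := u
  simp only [Ball, Equiv.prodComm_apply, Prod.swap, Set.mem_ofPred_eq, Prod.fst_zero, Prod.snd_zero]
  exact and_comm

theorem a1_swap (r R : ℤ) (B : Set V) : Arm 0 r R (Prod.swap '' B) ↔ Arm 0 r R B := by
  have key : ∀ B : Set V, Arm 0 r R B → Arm 0 r R (Prod.swap '' B) := by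
    intro B h
    have := a1_map (Equiv.prodComm ℤ ℤ) 0 0 a1_swap_adj a1_swap_ball r R B h
    simpa using this
  refine ⟨fun h => ?_, key B⟩
  have := key _ h
  rwa [Set.image_image, show (fun x : ℤ × ℤ => Prod.swap (Prod.swap x)) = id from by
    funext x; simp, Set.image_id] at this

theorem a1_add_adj (c : V) (u v : V) : Adj u v → Adj (u + c) (v + c) := by
  obtain ⟨u1, u2⟩ := u
  obtain ⟨v1, v2⟩ := v
  obtain ⟨c1, c2⟩ := c
  simp only [Adj, Prod.mk_add_mk]
  omega

theorem a1_add_ball (c d : V) (r : ℤ) (u : V) : u ∈ Ball d r ↔ u + c ∈ Ball (d + c) r := by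
  simp only [Ball, Set.mem_ofPred_eq, Prod.fst_add, Prod.snd_add, add_sub_add_right_eq_sub]

theorem a1_trans (c : V) (r R : ℤ) (B : Set V) :
    Arm c r R ((Equiv.addRight c : V ≃ V) '' B) ↔ Arm 0 r R B := by
  constructor
  · intro h
    have h1 := a1_map (Equiv.addRight (-c)) c 0 (fun u v h => by
        simpa using a1_add_adj (-c) u v h)
      (fun r u => by
        have := a1_add_ball (-c) c r u
        simpa using this) r R _ h
    rw [Set.image_image] at h1
    simpa using h1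
  · intro h
    exact a1_map (Equiv.addRight c) 0 c (fun u v h => by simpa using a1_add_adj c u v h)
      (fun r u => by
        have := a1_add_ball c 0 r u
        simpa using this) r R _ h

theorem a_armBasic (he : S_PrEquiv) (hf : S_PrFlip) : S_armBasic := by
  have hal : ∀ (c : V) (r R : ℤ), Pr (Arm c r R) = al r R := by
    intro c r R
    rw [← he V V (Equiv.addRight c) (Arm c r R)]
    unfold al
    congr 1
    funext B
    exact propext (a1_trans c r R B)
  refine ⟨fun c r R => ⟨a1_incr c r R, a1_dep c r R, a1_ann_finite c r R, a1_loc c r R⟩, ?_, ?_,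
    ?_, a1_swap, a1_self⟩
  · intro c r R r' R' B h1 _ h3 _ h
    exact a1_mono c r R r' R' B h1 h3 h
  · rintro c r R S u v hrR hu hv (h | h)
    · exact a1_of_conn c r R hrR S hu hv h
    · exact a1_of_via c r R S hu hv h
  · intro c r R
    refine ⟨hal c r R, ?_, ?_⟩
    · rw [← hal c r R, ← hf V Set.univ (Arm c r R)]
      congr 1
      funext B
      congr 1
      ext v
      simp [Set.mem_symmDiff]
    · rw [← he V V (Equiv.addRight c) (Arm2 c r R)]
      unfold wb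
      congr 1
      funext B
      refine propext (and_congr (a1_trans c r R B) ?_)
      rw [← Set.image_compl_eq (Equiv.bijective _)]
      exact a1_trans c r R Bᶜ

end TriX
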