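import Pool.Agent.EX.Spec1

/-! Project EX (MP_68260e), module T5: four-arc duality (helper82). -/

namespace TriX

theorem t5_adj_symm {u v : V} (h : Adj u v) : Adj v u := by
  unfold Adj at h ⊢
  omega

theorem t5_conn_trans {S : Set V} {u v w : V} (h : Conn S u v) (h' : Conn S v w) : Conn S u w :=
  ⟨h.1, h.2.trans h'.2⟩

theorem t5_conn_mem {S : Set V} {u v : V} (h : Conn S u v) : v ∈ S := by
  obtain ⟨hu, h⟩ := h
  induction h with
  | refl => exact hu
  | tail _ h _ => exact h.2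

theorem t5_conn_symm {S : Set V} {u v : V} (h : Conn S u v) : Conn S v u := by
  obtain ⟨hu, h⟩ := h
  induction h with
  | refl => exact ⟨hu, Relation.ReflTransGen.refl⟩
  | @tail b c hb hbc ih =>
    refine ⟨hbc.2, ?_⟩
    exact Relation.ReflTransGen.head ⟨t5_adj_symm hbc.1, t5_conn_mem ⟨hu, hb⟩⟩ ih.2

theorem t5_conn_mono {S S' : Set V} (hS : S ⊆ S') {u v : V} (h : Conn S u v) : Conn S' u v :=
  ⟨hS h.1, Relation.ReflTransGen.mono (fun _ _ h => ⟨h.1, hS h.2⟩) _ _ h.2⟩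

/-- A path inside `S` from a point joined to `o` stays inside the component of `o`. -/
theorem t5_conn_comp {S : Set V} {o x y : V} (hx : Conn S x o) (h : Conn S x y) :
    Conn {v | Conn S v o} x y := by
  obtain ⟨hu, h⟩ := h
  refine ⟨hx, ?_⟩
  induction h with
  | refl => exact Relation.ReflTransGen.refl
  | @tail b c hb hbc ih =>
    refine ih.tail ⟨hbc.1, ?_⟩
    have h1 : Conn S x c := ⟨hu, hb.tail hbc⟩
    exact t5_conn_trans (t5_conn_symm h1) hx

theorem t_fourArc (h : S_bdry) : S_fourArc := by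
  intro D O1 O2 O3 O4 C B hcov h12 h13 h14 h1D hD2 hD3 hD4 h23 h24 h34 hO1 hC hO2C hO3C hCsub
    he1 he2 hO3
  by_cases hvia : ∃ u ∈ O1, ∃ v ∈ O3, Via (D ∩ B) u v
  · exact Or.inl hvia
  refine Or.inr ?_
  -- the black cluster of `O1`
  set A : Set V := {v | ∃ u ∈ O1,
    Relation.ReflTransGen (fun a b => Adj a b ∧ b ∈ D ∩ B) u v} with hA
  have hO1A : O1 ⊆ A := fun u hu => ⟨u, hu, Relation.ReflTransGen.refl⟩
  have hAsub : ∀ v ∈ A, v ∈ O1 ∨ v ∈ D ∩ B := by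
    rintro v ⟨u, hu, hr⟩
    rcases hr.cases_tail with h | ⟨w, _, hw⟩
    · left; rw [h]; exact hu
    · exact Or.inr hw.2
  have hAtail : ∀ v ∈ A, ∀ w, Adj v w → w ∈ D ∩ B → w ∈ A := by
    rintro v ⟨u, hu, hr⟩ w hvw hw
    exact ⟨u, hu, hr.tail ⟨hvw, hw⟩⟩
  have hAconn : ∀ u ∈ O1, ∀ v, Relation.ReflTransGen (fun a b => Adj a b ∧ b ∈ D ∩ B) u v →
      Conn A u v := by
    intro u hu v hr
    refine ⟨hO1A hu, ?_⟩
    induction hr with
    | refl => exact Relation.ReflTransGen.refl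
    | @tail b c hb hbc ih => exact ih.tail ⟨hbc.1, ⟨u, hu, hb.tail hbc⟩⟩
  have hApre : PreConn A := by
    rintro x ⟨u, hu, hux⟩ y ⟨u', hu', huy⟩
    have h1 := t5_conn_symm (hAconn u hu x hux)
    have h2 := t5_conn_mono hO1A (hO1 u hu u' hu')
    have h3 := hAconn u' hu' y huy
    exact t5_conn_trans (t5_conn_trans h1 h2) h3
  have hdisjA : ∀ v ∈ A, v ∉ O2 ∧ v ∉ O3 ∧ v ∉ O4 := by
    intro v hv
    rcases hAsub v hv with h1 | h1
    · exact ⟨fun h2 => Set.disjoint_left.1 h12 h1 h2, fun h2 => Set.disjoint_left.1 h13 h1 h2,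
        fun h2 => Set.disjoint_left.1 h14 h1 h2⟩
    · exact ⟨fun h2 => Set.disjoint_left.1 hD2 h1.1 h2, fun h2 => Set.disjoint_left.1 hD3 h1.1 h2,
        fun h2 => Set.disjoint_left.1 hD4 h1.1 h2⟩
  have hCA : C ⊆ Aᶜ := by
    intro v hv hvA
    obtain ⟨h2, h3, h4⟩ := hdisjA v hvA
    rcases hCsub hv with (h | h) | h
    · exact h2 h
    · exact h3 h
    · exact h4 h
  obtain ⟨o, ho⟩ := hO3
  set A' : Set V := {v | Conn Aᶜ v o} with hA'
  have hCA' : C ⊆ A' := fun v hv => t5_conn_mono hCA (hC v hv o (hO3C ho))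
  have hA'pre : PreConn A' := by
    intro x hx y hy
    exact t5_conn_comp hx (t5_conn_trans hx (t5_conn_symm hy))
  have hAA' : Disjoint A A' := Set.disjoint_left.2 fun v hv hv' => hv'.1 hv
  have hclosed : ∀ u ∈ A', ∀ v, Adj u v → v ∈ A ∨ v ∈ A' := by
    intro u hu v huv
    by_cases hv : v ∈ A
    · exact Or.inl hv
    · refine Or.inr ?_
      have h1 : Conn Aᶜ v u :=
        ⟨hv, Relation.ReflTransGen.single ⟨t5_adj_symm huv, hu.1⟩⟩
      exact t5_conn_trans h1 hu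
  obtain ⟨u, hu, v, hv, huv⟩ := he1
  obtain ⟨u', hu', v', hv', huv'⟩ := he2
  have hchain := h A A' hApre hA'pre hAA' hclosed u (hO1A hu) v (hCA' (hO2C hv)) u' (hO1A hu') v'
    (hCA' hv'.2) huv huv'
  -- the ends of the cut edges
  have hend : ∀ f : V × V, f.1 ∈ A → f.2 ∈ A' → Adj f.1 f.2 →
      f.2 ∈ D \ B ∨ f.2 ∈ O2 ∨ f.2 ∈ O4 := by
    intro f hf1 hf2 hf
    have hf2A : f.2 ∉ A := hf2.1
    have h3 : f.2 ∉ O3 := by
      intro h3
      obtain ⟨s, hs, hsr⟩ := hf1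
      exact hvia ⟨s, hs, f.2, h3, f.1, hsr, hf⟩
    have h1 : f.2 ∉ O1 := fun h1 => hf2A (hO1A h1)
    have hDB : f.2 ∉ D ∩ B := fun h2 => hf2A (hAtail _ hf1 _ hf h2)
    rcases hcov f.2 with h | h | h | h | h
    · left
      exact ⟨h, fun hB => hDB ⟨h, hB⟩⟩
    · exact absurd h h1
    · exact Or.inr (Or.inl h)
    · exact absurd h h3
    · exact Or.inr (Or.inr h)
  have key : ∀ e : V × V, Relation.ReflTransGen (CutStep A A') (u, v) e →
      (∃ u ∈ O2, ∃ v ∈ O4, Via (D \ B) u v) ∨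
      (∃ s ∈ O2, Relation.ReflTransGen (fun a b => Adj a b ∧ b ∈ D \ B) s e.2) := by
    intro e he
    induction he with
    | refl => exact Or.inr ⟨v, hv, Relation.ReflTransGen.refl⟩
    | @tail e f _ hef ih =>
      rcases ih with ih | ⟨s, hs, hr⟩
      · exact Or.inl ih
      obtain ⟨⟨hf1, hf2, hf⟩, hst⟩ := hef
      rcases hst with ⟨_, hadj⟩ | ⟨heq, _⟩
      · rcases hend f hf1 hf2 hf with h1 | h1 | h1
        · exact Or.inr ⟨s, hs, hr.tail ⟨hadj, h1⟩⟩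
        · exact Or.inr ⟨f.2, h1, Relation.ReflTransGen.refl⟩
        · exact Or.inl ⟨s, hs, f.2, h1, e.2, hr, hadj⟩
      · right
        rw [← heq]
        exact ⟨s, hs, hr⟩
  rcases key _ hchain with h1 | ⟨s, hs, hr⟩
  · exact h1
  · exfalso
    rcases hr.cases_tail with h2 | ⟨w, _, hw⟩
    · rw [← h2] at hs
      exact Set.disjoint_left.1 h24 hs hv'.1
    · exact Set.disjoint_left.1 hD4 hw.2.1 hv'.1

end TriX
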