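import Pool.Agent.EX.A1
import Pool.Agent.EX.T5

/-! A2: lower bounds for arms and rings at one scale. -/

set_option autoImplicit false

open MeasureTheory

namespace TriX

theorem a2_box (x1 x2 y1 y2 : ℤ) : Box x1 x2 y1 y2 =
    ((Finset.Icc (x1, y1) (x2, y2) : Finset V) : Set V) := by
  ext w
  rw [Finset.coe_Icc, Set.mem_Icc, Prod.le_def, Prod.le_def]
  constructor
  · rintro ⟨a, b, c, d⟩
    exact ⟨⟨a, c⟩, ⟨b, d⟩⟩
  · rintro ⟨⟨a, c⟩, ⟨b, d⟩⟩
    exact ⟨a, b, c, d⟩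

theorem a2_incr_LR (x1 x2 y1 y2 : ℤ) : Incr (LR x1 x2 y1 y2) := by
  rintro B B' h ⟨u, v, hu, hv, hc⟩
  exact ⟨u, v, hu, hv, t5_conn_mono (Set.inter_subset_inter_left _ h) hc⟩

theorem a2_incr_TB (x1 x2 y1 y2 : ℤ) : Incr (TB x1 x2 y1 y2) := by
  rintro B B' h ⟨u, v, hu, hv, hc⟩
  exact ⟨u, v, hu, hv, t5_conn_mono (Set.inter_subset_inter_left _ h) hc⟩

theorem a2_dep_LR (x1 x2 y1 y2 : ℤ) :
    DepOn (LR x1 x2 y1 y2) ((Finset.Icc (x1, y1) (x2, y2) : Finset V) : Set V) := by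
  intro B B' h
  rw [← a2_box] at h
  simp only [LR, h]

theorem a2_dep_TB (x1 x2 y1 y2 : ℤ) :
    DepOn (TB x1 x2 y1 y2) ((Finset.Icc (x1, y1) (x2, y2) : Finset V) : Set V) := by
  intro B B' h
  rw [← a2_box] at h
  simp only [TB, h]

theorem a2_loc_LR (x1 x2 y1 y2 : ℤ) : Loc (LR x1 x2 y1 y2) := ⟨_, a2_dep_LR _ _ _ _⟩

theorem a2_loc_TB (x1 x2 y1 y2 : ℤ) : Loc (TB x1 x2 y1 y2) := ⟨_, a2_dep_TB _ _ _ _⟩

theorem a2_loc_and {f g : Set V → Prop} (hf : Loc f) (hg : Loc g) : Loc (fun B => f B ∧ g B) := by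
  classical
  obtain ⟨S, hS⟩ := hf
  obtain ⟨T, hT⟩ := hg
  refine ⟨S ∪ T, fun B B' h => ?_⟩
  have h1 : B ∩ S = B' ∩ S := by
    ext w
    have h3 := Set.ext_iff.1 h w
    simp only [Set.mem_inter_iff, Finset.coe_union, Set.mem_union] at h3 ⊢
    tauto
  have h2 : B ∩ T = B' ∩ T := by
    ext w
    have h3 := Set.ext_iff.1 h w
    simp only [Set.mem_inter_iff, Finset.coe_union, Set.mem_union] at h3 ⊢
    tauto
  simp only [hS _ _ h1, hT _ _ h2]

/-- an increasing local event of probability at least `c` -/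
def a2_Up (c : ℝ) (f : Set V → Prop) : Prop := 0 < c ∧ Loc f ∧ Incr f ∧ c ≤ Pr f

theorem a2_Up.and (hh : S_PrHarris) {c d : ℝ} {f g : Set V → Prop} (hf : a2_Up c f)
    (hg : a2_Up d g) : a2_Up (c * d) (fun B => f B ∧ g B) := by
  obtain ⟨hc, hf1, hf2, hf3⟩ := hf
  obtain ⟨hd, hg1, hg2, hg3⟩ := hg
  refine ⟨mul_pos hc hd, a2_loc_and hf1 hg1, fun B B' h hB => ⟨hf2 B B' h hB.1, hg2 B B' h hB.2⟩, ?_⟩
  obtain ⟨U, hU⟩ := hg1
  refine le_trans (mul_le_mul hf3 hg3 hd.le (hc.le.trans hf3)) ?_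
  exact (hh V f g U hf1 hU).1 (fun B B' _ h => hf2 B B' h) hg2

/-- if a box has few sites then it is black with positive probability -/
theorem a2_small (ha : S_PrAvg) (f : Set V → Prop) (S : Finset V) (hS : DepOn f (S : Set V))
    (hf : f (S : Set V)) (k : ℕ) (hk : S.card ≤ k) : (1 : ℝ) / 2 ^ k ≤ Pr f := by
  classical
  rw [ha V f S hS]
  refine div_le_div₀ (by positivity) ?_ (by positivity)
    (pow_le_pow_right₀ (by norm_num) hk)
  have h1 : 0 < (S.powerset.filter (fun A : Finset V => f (A : Set V))).card := by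
    apply Finset.card_pos.2
    exact ⟨S, by simp [hf]⟩
  exact_mod_cast h1

theorem a2_row (x1 x2 y : ℤ) (h : x1 ≤ x2) :
    LR x1 x2 y y ((Finset.Icc (x1, y) (x2, y) : Finset V) : Set V) := by
  rw [← a2_box]
  have key : ∀ k : ℕ, x1 + k ≤ x2 →
      Conn (Box x1 x2 y y ∩ Box x1 x2 y y) (x1, y) (x1 + k, y) := by
    intro k
    induction k with
    | zero =>
      intro _
      rw [Nat.cast_zero, add_zero]
      exact ⟨⟨⟨le_rfl, h, le_rfl, le_rfl⟩, ⟨le_rfl, h, le_rfl, le_rfl⟩⟩,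
        Relation.ReflTransGen.refl⟩
    | succ k ih =>
      intro hk
      have h1 := ih (by push_cast at hk; omega)
      refine ⟨h1.1, h1.2.tail ⟨Or.inl ⟨?_, rfl⟩, ?_⟩⟩
      · push_cast; ring
      · have h2 : (x1 + ((k + 1 : ℕ) : ℤ), y) ∈ Box x1 x2 y y :=
          ⟨by simp only; omega, hk, le_rfl, le_rfl⟩
        exact ⟨h2, h2⟩
  refine ⟨(x1, y), (x2, y), rfl, rfl, ?_⟩
  have h1 := key (x2 - x1).toNat (by omega)
  rwa [show x1 + ((x2 - x1).toNat : ℤ) = x2 by omega] at h1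

theorem a2_arm_of_LR (h1 : S_armBasic) {r R : ℤ} (hr : 0 ≤ r) (hrR : r ≤ R) {B : Set V}
    (h : LR 0 R 0 r B) : Arm 0 r R B := by
  obtain ⟨u, v, hu, hv, hc⟩ := h
  have hv2 := t5_conn_mem hc
  have huB : u ∈ Box 0 R 0 r := hc.1.2
  refine h1.2.2.1 0 r R B u (v.1 + 1, v.2) hrR ?_ ?_ (Or.inr ⟨v, ?_, ?_⟩)
  · obtain ⟨_, _, a3, a4⟩ := huB
    refine ⟨?_, ?_⟩
    · rw [hu]; simpa using hr
    · rw [abs_le]
      constructor <;> simp <;> omega
  · rintro ⟨a, -⟩
    rw [abs_le] at a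
    simp at a
    omega
  · exact (t5_conn_mono Set.inter_subset_left hc).2
  · exact Or.inl ⟨rfl, rfl⟩

theorem a_alLow (hr : S_RSW) (hb : S_PrBasic) (ha : S_PrAvg) (h1 : S_armBasic) : S_alLow := by
  intro k
  obtain ⟨c, hc, H⟩ := hr (2 * k)
  refine ⟨min c (1 / 2 ^ (k + 1)), lt_min hc (by positivity), ?_⟩
  intro r R h0 hrR hR
  have hmono : Pr (LR 0 R 0 r) ≤ al r R :=
    (hb V _ _).2.2.1 fun B hB => a2_arm_of_LR h1 h0 hrR hB
  refine le_trans ?_ hmono
  rcases h0.eq_or_lt with h0' | h0'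
  · subst h0'
    refine (min_le_right _ _).trans ?_
    refine a2_small ha _ _ (a2_dep_LR 0 R 0 0) (a2_row 0 R 0 hrR) (k + 1) ?_
    rw [show (Finset.Icc ((0, 0) : ℤ × ℤ) (R, 0)) = Finset.Icc (0 : ℤ) R ×ˢ Finset.Icc (0 : ℤ) 0
      from rfl, Finset.card_product, Int.card_Icc, Int.card_Icc]
    simp at hR ⊢
    omega
  · refine (min_le_left _ _).trans ?_
    obtain ⟨n, rfl⟩ := Int.eq_ofNat_of_zero_le h0
    obtain ⟨l, rfl⟩ := Int.eq_ofNat_of_zero_le (h0.trans hrR)
    have h2 := (H n l (by omega) (by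
      have h3 : (l : ℤ) ≤ 2 * k * n := by
        have h4 : (1 : ℤ) ≤ n := by omega
        have h5 : (0 : ℤ) ≤ k := by positivity
        nlinarith
      exact_mod_cast h3) 0 0).1
    simpa using h2

/-- Last exit from a half plane. -/
theorem a2_exit {S : Set V} (f : V → ℤ) (hf : ∀ a b, Adj a b → f b ≤ f a + 1) (t : ℤ) {u w : V}
    (hu : f u ≤ t) (h : Relation.ReflTransGen (fun a b => Adj a b ∧ b ∈ S) u w) :
    f w ≤ t ∨ ∃ w', f w' = t + 1 ∧ Conn (S ∩ {x | t + 1 ≤ f x}) w' w := by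
  induction h with
  | refl => exact Or.inl hu
  | @tail a b _ hab ih =>
    by_cases hb : f b ≤ t
    · exact Or.inl hb
    · right
      have hb' : t + 1 ≤ f b := by omega
      rcases ih with ih | ⟨w', hw', hc⟩
      · have h3 := hf a b hab.1
        exact ⟨b, by omega, ⟨hab.2, hb'⟩, Relation.ReflTransGen.refl⟩
      · exact ⟨w', hw', hc.1, hc.2.tail ⟨hab.1, hab.2, hb'⟩⟩

theorem a2_ring (hc : S_crossConn) (p q r R : ℤ) (hrR : r < R) (B : Set V)
    (e1 : LR (p - R) (p + R) (q + r + 1) (q + R) B)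
    (e2 : LR (p - R) (p + R) (q - R) (q - r - 1) B)
    (e3 : TB (p - R) (p - r - 1) (q - R) (q + R) B)
    (e4 : TB (p + r + 1) (p + R) (q - R) (q + R) B) : ¬ Arm (p, q) r R Bᶜ := by
  rintro ⟨u, hu, v, hv, w, hw, hwv⟩
  have hun := hu
  obtain ⟨hu1, hu2⟩ := hu
  rw [abs_le] at hu1 hu2
  simp only at hu1 hu2
  have hwR : w ∈ Ball (p, q) R := by
    rcases Relation.ReflTransGen.cases_tail hw with h | ⟨x, -, hx⟩
    · rw [h]
      exact a1_ball_mono _ hrR.le hun
    · exact hx.2.2.1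
  have hw1 := hwR.1
  have hw2 := hwR.2
  rw [abs_le] at hw1 hw2
  simp only at hw1 hw2
  have hball : ∀ x ∈ Bᶜ ∩ Ann (p, q) r R, x ∉ B ∧ p - R ≤ x.1 ∧ x.1 ≤ p + R ∧ q - R ≤ x.2 ∧
      x.2 ≤ q + R := by
    rintro x ⟨hx1, hx2, -⟩
    obtain ⟨h3, h4⟩ := hx2
    rw [abs_le] at h3 h4
    simp only at h3 h4
    exact ⟨hx1, by omega, by omega, by omega, by omega⟩
  have hv' : R + 1 ≤ v.2 - q ∨ R + 1 ≤ -(v.2 - q) ∨ R + 1 ≤ v.1 - p ∨ R + 1 ≤ -(v.1 - p) := by
    by_contra hcon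
    push Not at hcon
    obtain ⟨a1, a2, a3, a4⟩ := hcon
    exact hv ⟨by rw [abs_le]; simp only; omega, by rw [abs_le]; simp only; omega⟩
  rcases hv' with h | h | h | h
  · -- top
    obtain ⟨a, b, ha, hb, hab⟩ := e1
    rcases a2_exit (fun x : V => x.2 - q) (fun x y hxy => by
      unfold Adj at hxy; omega) r (by omega) hw with h2 | ⟨w', hw', hc'⟩
    · unfold Adj at hwv
      omega
    · obtain ⟨x, hx1, hx2⟩ := hc 1 0 one_pos _ _ a b w' w hab hc'
        (fun x hx => by have := hball x hx.1; simp only [lin]; omega)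
        (fun x hx => by have := hball x hx.1; simp only [lin]; omega)
        (fun x hx => by have := hx.2.2.2.1; omega)
        (fun x hx => by have := hx.2.2.2.2; unfold Adj at hwv; omega)
      exact (hball x hx2.1).1 hx1.1
  · -- bottom
    obtain ⟨a, b, ha, hb, hab⟩ := e2
    rcases a2_exit (fun x : V => -(x.2 - q)) (fun x y hxy => by
      unfold Adj at hxy; omega) r (by omega) hw with h2 | ⟨w', hw', hc'⟩
    · unfold Adj at hwv
      omega
    · obtain ⟨x, hx1, hx2⟩ := hc 1 0 one_pos _ _ a b w w' hab (t5_conn_symm hc')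
        (fun x hx => by have := hball x hx.1; simp only [lin]; omega)
        (fun x hx => by have := hball x hx.1; simp only [lin]; omega)
        (fun x hx => by have := hx.2.2.2.1; unfold Adj at hwv; omega)
        (fun x hx => by have := hx.2.2.2.2; omega)
      exact (hball x hx2.1).1 hx1.1
  · -- right
    obtain ⟨a, b, ha, hb, hab⟩ := e4
    rcases a2_exit (fun x : V => x.1 - p) (fun x y hxy => by
      unfold Adj at hxy; omega) r (by omega) hw with h2 | ⟨w', hw', hc'⟩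
    · unfold Adj at hwv
      omega
    · obtain ⟨x, hx1, hx2⟩ := hc 1 0 one_pos _ _ w' w a b hc' hab
        (fun x hx => by have := hx.2.1; simp only [lin]; omega)
        (fun x hx => by have := hx.2.2.1; simp only [lin]; unfold Adj at hwv; omega)
        (fun x hx => by have := hball x hx.1; omega)
        (fun x hx => by have := hball x hx.1; omega)
      exact (hball x hx1.1).1 hx2.1
  · -- left
    obtain ⟨a, b, ha, hb, hab⟩ := e3
    rcases a2_exit (fun x : V => -(x.1 - p)) (fun x y hxy => by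
      unfold Adj at hxy; omega) r (by omega) hw with h2 | ⟨w', hw', hc'⟩
    · unfold Adj at hwv
      omega
    · obtain ⟨x, hx1, hx2⟩ := hc 1 0 one_pos _ _ w w' a b (t5_conn_symm hc') hab
        (fun x hx => by have := hx.2.1; simp only [lin]; unfold Adj at hwv; omega)
        (fun x hx => by have := hx.2.2.1; simp only [lin]; omega)
        (fun x hx => by have := hball x hx.1; omega)
        (fun x hx => by have := hball x hx.1; omega)
      exact (hball x hx1.1).1 hx2.1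

theorem a_ringProb (hr : S_RSW) (hh : S_PrHarris) (hc : S_crossConn) (_ : S_PrEquiv)
    (hb : S_PrBasic) (ha : S_PrAvg) (_ : S_armBasic) : S_ringProb := by
  obtain ⟨c, hc0, H⟩ := hr 8
  refine ⟨min (c * c * (c * c)) (1 / 2 ^ 49), lt_min (by positivity) (by positivity), ?_⟩
  rintro ⟨p, q⟩ r R h0 hR1 hrR
  by_cases hR : 4 ≤ R
  · refine (min_le_left _ _).trans ?_
    obtain ⟨m, hm⟩ := Int.eq_ofNat_of_zero_le (show 0 ≤ R - r - 1 by omega)
    obtain ⟨l, hl⟩ := Int.eq_ofNat_of_zero_le (show 0 ≤ 2 * R by omega)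
    have hm1 : 1 ≤ m := by omega
    have hlm : l ≤ 8 * m := by omega
    have f1 : a2_Up c (LR (p - R) (p + R) (q + r + 1) (q + R)) := by
      have := (H m l hm1 hlm (p - R) (q + r + 1)).1
      rw [show p - R + (l : ℤ) = p + R by omega, show q + r + 1 + (m : ℤ) = q + R by omega] at this
      exact ⟨hc0, a2_loc_LR _ _ _ _, a2_incr_LR _ _ _ _, this⟩
    have f2 : a2_Up c (LR (p - R) (p + R) (q - R) (q - r - 1)) := by
      have := (H m l hm1 hlm (p - R) (q - R)).1
      rw [show p - R + (l : ℤ) = p + R by omega, show q - R + (m : ℤ) = q - r - 1 by omega] at this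
      exact ⟨hc0, a2_loc_LR _ _ _ _, a2_incr_LR _ _ _ _, this⟩
    have f3 : a2_Up c (TB (p - R) (p - r - 1) (q - R) (q + R)) := by
      have := (H m l hm1 hlm (p - R) (q - R)).2
      rw [show q - R + (l : ℤ) = q + R by omega, show p - R + (m : ℤ) = p - r - 1 by omega] at this
      exact ⟨hc0, a2_loc_TB _ _ _ _, a2_incr_TB _ _ _ _, this⟩
    have f4 : a2_Up c (TB (p + r + 1) (p + R) (q - R) (q + R)) := by
      have := (H m l hm1 hlm (p + r + 1) (q - R)).2
      rw [show q - R + (l : ℤ) = q + R by omega, show p + r + 1 + (m : ℤ) = p + R by omega] at this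
      exact ⟨hc0, a2_loc_TB _ _ _ _, a2_incr_TB _ _ _ _, this⟩
    have f5 := (f1.and hh f2).and hh (f3.and hh f4)
    refine f5.2.2.2.trans ((hb V _ _).2.2.1 fun B hB => ?_)
    exact a2_ring hc p q r R (by omega) B hB.1.1 hB.1.2 hB.2.1 hB.2.2
  · refine (min_le_right _ _).trans ?_
    have hball : ∀ x : V, x ∈ Ball (p, q) R → x ∈ Box (p - 3) (p + 3) (q - 3) (q + 3) := by
      rintro x ⟨hx1, hx2⟩
      rw [abs_le] at hx1 hx2
      simp only at hx1 hx2
      exact ⟨by omega, by omega, by omega, by omega⟩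
    refine a2_small ha _ (Finset.Icc (p - 3, q - 3) (p + 3, q + 3)) ?_ ?_ 49 ?_
    · intro B B' h
      have h2 : Arm (p, q) r R Bᶜ = Arm (p, q) r R B'ᶜ := by
        refine a1_dep (p, q) r R _ _ ?_
        ext x
        have h3 := Set.ext_iff.1 h x
        rw [← a2_box] at h3
        simp only [Set.mem_inter_iff, Set.mem_compl_iff] at h3 ⊢
        constructor
        · rintro ⟨a1, a2⟩
          exact ⟨fun hx => a1 (h3.2 ⟨hx, hball x a2.1⟩).1, a2⟩
        · rintro ⟨a1, a2⟩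
          exact ⟨fun hx => a1 (h3.1 ⟨hx, hball x a2.1⟩).1, a2⟩
      simp only [h2]
    · rintro ⟨u, hu, v, hv, w, hw, hwv⟩
      rcases Relation.ReflTransGen.cases_tail hw with h | ⟨x, -, hx⟩
      · subst h
        apply hv
        obtain ⟨h3, h4⟩ := hu
        rw [abs_le] at h3 h4
        simp only at h3 h4
        unfold Adj at hwv
        exact ⟨by rw [abs_le]; simp only; omega, by rw [abs_le]; simp only; omega⟩
      · rw [← a2_box] at hx
        exact hx.2.1 (hball w hx.2.2.1)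
    · rw [show (Finset.Icc ((p - 3, q - 3) : ℤ × ℤ) (p + 3, q + 3)) =
        Finset.Icc (p - 3) (p + 3) ×ˢ Finset.Icc (q - 3) (q + 3) from rfl, Finset.card_product,
        Int.card_Icc, Int.card_Icc]
      have e1 : (p + 3 + 1 - (p - 3)).toNat = 7 := by omega
      have e2 : (q + 3 + 1 - (q - 3)).toNat = 7 := by omega
      rw [e1, e2]

end TriX
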