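import Pool.Agent.EX.Spec2

/-! Project EX (MP_68260e), module A3: gluing of arms and quasi-multiplicativity. -/

set_option autoImplicit false

open MeasureTheory

namespace TriX

theorem a3_ball_mono (c : V) {r R : ℤ} (h : r ≤ R) : Ball c r ⊆ Ball c R :=
  fun _ hv => ⟨hv.1.trans h, hv.2.trans h⟩

theorem a_glue (hr : S_ring) (h1 : S_armBasic) : S_glue := by
  intro B c r r2 R2 R h0 hr2 hR2 hR harm1 hring harm2
  obtain ⟨C, hCB, hC, hCcut⟩ := hr B c r2 R2 (h0.trans hr2) hR2 hring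
  obtain ⟨u, hu, v, hv, w, hw, hwv⟩ := harm1
  obtain ⟨u', hu', v', hv', w', hw', hwv'⟩ := harm2
  -- the first arm meets `C`
  have hx : ∃ x ∈ C, Relation.ReflTransGen (fun a b => Adj a b ∧ b ∈ B ∩ Ann c r R2) u x := by
    set S1 : Set V := {z | Relation.ReflTransGen (fun a b => Adj a b ∧ b ∈ B ∩ Ann c r R2) u z} ∪
      {v} with hS1
    have hconn : Conn S1 u v := by
      refine ⟨Or.inl Relation.ReflTransGen.refl, ?_⟩
      have hpath : ∀ z, Relation.ReflTransGen (fun a b => Adj a b ∧ b ∈ B ∩ Ann c r R2) u z →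
          Relation.ReflTransGen (fun a b => Adj a b ∧ b ∈ S1) u z := by
        intro z hz
        induction hz with
        | refl => exact Relation.ReflTransGen.refl
        | @tail a b ha hab ih => exact ih.tail ⟨hab.1, Or.inl (ha.tail hab)⟩
      exact (hpath w hw).tail ⟨hwv, Or.inr rfl⟩
    obtain ⟨x, hxC, hxS⟩ := hCcut S1 u v (a3_ball_mono c hr2 hu) hv hconn
    rcases hxS with hxS | hxS
    · exact ⟨x, hxC, hxS⟩
    · have hxv : x = v := hxS
      exact absurd (hCB hxC).2.1 (by rw [hxv]; exact hv)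
  -- the second arm meets `C`
  have hy : ∃ y ∈ C, Relation.ReflTransGen (fun a b => Adj a b ∧ b ∈ B ∩ Ann c r2 R) y w' := by
    set S2 : Set V := {z | Relation.ReflTransGen (fun a b => Adj a b ∧ b ∈ B ∩ Ann c r2 R) z w'} ∪
      {v'} with hS2
    have hconn : Conn S2 u' v' := by
      refine ⟨Or.inl hw', ?_⟩
      have hpath : ∀ z, Relation.ReflTransGen (fun a b => Adj a b ∧ b ∈ B ∩ Ann c r2 R) z w' →
          Relation.ReflTransGen (fun a b => Adj a b ∧ b ∈ S2) z w' := by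
        intro z hz
        induction hz using Relation.ReflTransGen.head_induction_on with
        | refl => exact Relation.ReflTransGen.refl
        | head hab hb ih => exact Relation.ReflTransGen.head ⟨hab.1, Or.inl hb⟩ ih
      exact (hpath u' hw').tail ⟨hwv', Or.inr rfl⟩
    obtain ⟨y, hyC, hyS⟩ := hCcut S2 u' v' hu' (fun h => hv' (a3_ball_mono c hR h)) hconn
    rcases hyS with hyS | hyS
    · exact ⟨y, hyC, hyS⟩
    · have hyv : y = v' := hyS
      exact absurd (a3_ball_mono c hR (hCB hyC).2.1) (by rw [hyv]; exact hv')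
  obtain ⟨x, hxC, hux⟩ := hx
  obtain ⟨y, hyC, hyw⟩ := hy
  have hxy := (hC x hxC y hyC).2
  have huB : Relation.ReflTransGen (fun a b => Adj a b ∧ b ∈ B) u x :=
    Relation.ReflTransGen.mono (fun _ _ h => ⟨h.1, h.2.1⟩) _ _ hux
  have hxyB : Relation.ReflTransGen (fun a b => Adj a b ∧ b ∈ B) x y :=
    Relation.ReflTransGen.mono (fun _ _ h => ⟨h.1, (hCB h.2).1⟩) _ _ hxy
  have hywB : Relation.ReflTransGen (fun a b => Adj a b ∧ b ∈ B) y w' :=
    Relation.ReflTransGen.mono (fun _ _ h => ⟨h.1, h.2.1⟩) _ _ hyw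
  exact h1.2.2.1 c r R B u v' (hr2.trans (hR2.le.trans hR)) hu hv'
    (Or.inr ⟨w', (huB.trans hxyB).trans hywB, hwv'⟩)

theorem a3_and_incr {W : Type} {f g : Set W → Prop} (hf : Incr f) (hg : Incr g) :
    Incr (fun B => f B ∧ g B) := fun B B' h hB => ⟨hf B B' h hB.1, hg B B' h hB.2⟩

theorem a3_dep_mono {W α : Type} {f : Set W → α} {S S' : Set W} (h : S ⊆ S') (hf : DepOn f S) :
    DepOn f S' := by
  intro B B' hB
  refine hf B B' ?_
  have h2 : B ∩ S = (B ∩ S') ∩ S := by rw [Set.inter_assoc, Set.inter_eq_right.2 h]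
  have h3 : B' ∩ S = (B' ∩ S') ∩ S := by rw [Set.inter_assoc, Set.inter_eq_right.2 h]
  rw [h2, h3, hB]

theorem a3_and_loc {W : Type} {f g : Set W → Prop} (hf : Loc f) (hg : Loc g) :
    Loc (fun B => f B ∧ g B) := by
  classical
  obtain ⟨S, hS⟩ := hf
  obtain ⟨S', hS'⟩ := hg
  refine ⟨S ∪ S', ?_⟩
  rw [Finset.coe_union]
  intro B B' hB
  have e1 := a3_dep_mono Set.subset_union_left hS B B' hB
  have e2 := a3_dep_mono Set.subset_union_right hS' B B' hB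
  simp only [e1, e2]

theorem a3_ring_incr (c : V) (r R : ℤ) (h : Incr (Arm c r R)) :
    Incr (fun B => ¬ Arm c r R Bᶜ) := by
  intro B B' hB hn hA
  exact hn (h _ _ (Set.compl_subset_compl.2 hB) hA)

theorem a3_ring_loc (c : V) (r R : ℤ) (h : Loc (Arm c r R)) :
    Loc (fun B => ¬ Arm c r R Bᶜ) := by
  obtain ⟨S, hS⟩ := h
  refine ⟨S, ?_⟩
  intro B B' hB
  have : Bᶜ ∩ (S : Set V) = B'ᶜ ∩ (S : Set V) := by
    ext x
    have hx : x ∈ B ∩ (S : Set V) ↔ x ∈ B' ∩ (S : Set V) := by rw [hB]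
    simp only [Set.mem_inter_iff, Set.mem_compl_iff] at hx ⊢
    tauto
  have e := hS _ _ this
  simp only [e]

/-- FKG for increasing local events. -/
theorem a3_fkg (hh : S_PrHarris) {f g : Set V → Prop} (hf : Loc f) (hg : Loc g) (hfi : Incr f)
    (hgi : Incr g) : Pr f * Pr g ≤ Pr (fun B => f B ∧ g B) := by
  obtain ⟨S, hS⟩ := hg
  exact (hh V f g S hf hS).1 (fun B B' _ h => hfi B B' h) hgi

/-- Three arms and rings at once. -/
theorem a3_three (hg : S_glue) (hh : S_PrHarris) (hb : S_PrBasic) (h1 : S_armBasic)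
    {r r2 R2 R : ℤ} (h0 : 0 ≤ r) (hr2 : r ≤ r2) (hR2 : r2 < R2) (hR : R2 ≤ R) :
    al r R2 * Pr (fun B => ¬ Arm 0 r2 R2 Bᶜ) * al r2 R ≤ al r R := by
  have hA := fun (r R : ℤ) => h1.1 0 r R
  have e1 : al r R2 * Pr (fun B => ¬ Arm 0 r2 R2 Bᶜ) ≤
      Pr (fun B => Arm 0 r R2 B ∧ ¬ Arm 0 r2 R2 Bᶜ) :=
    a3_fkg hh (hA r R2).2.2.2 (a3_ring_loc 0 r2 R2 (hA r2 R2).2.2.2) (hA r R2).1
      (a3_ring_incr 0 r2 R2 (hA r2 R2).1)
  have e2 : Pr (fun B => Arm 0 r R2 B ∧ ¬ Arm 0 r2 R2 Bᶜ) * al r2 R ≤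
      Pr (fun B => (Arm 0 r R2 B ∧ ¬ Arm 0 r2 R2 Bᶜ) ∧ Arm 0 r2 R B) :=
    a3_fkg hh (a3_and_loc (hA r R2).2.2.2 (a3_ring_loc 0 r2 R2 (hA r2 R2).2.2.2))
      (hA r2 R).2.2.2 (a3_and_incr (hA r R2).1 (a3_ring_incr 0 r2 R2 (hA r2 R2).1)) (hA r2 R).1
  have e3 : Pr (fun B => (Arm 0 r R2 B ∧ ¬ Arm 0 r2 R2 Bᶜ) ∧ Arm 0 r2 R B) ≤ al r R :=
    (hb V _ _).2.2.1 fun B h => hg B 0 r r2 R2 R h0 hr2 hR2 hR h.1.1 h.1.2 h.2
  have e4 : 0 ≤ al r2 R := (hb V (Arm 0 r2 R) (Arm 0 r2 R)).1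
  calc al r R2 * Pr (fun B => ¬ Arm 0 r2 R2 Bᶜ) * al r2 R
      ≤ Pr (fun B => Arm 0 r R2 B ∧ ¬ Arm 0 r2 R2 Bᶜ) * al r2 R :=
        mul_le_mul_of_nonneg_right e1 e4
    _ ≤ _ := e2
    _ ≤ _ := e3

theorem a_QM (hg : S_glue) (hl : S_alLow) (hp : S_ringProb) (hh : S_PrHarris) (hi : S_PrIndep)
    (hb : S_PrBasic) (h1 : S_armBasic) : S_QM := by
  classical
  have hnn : ∀ r R : ℤ, 0 ≤ al r R := fun r R => (hb V (Arm 0 r R) (Arm 0 r R)).1
  have hle1 : ∀ r R : ℤ, al r R ≤ 1 := fun r R => (hb V (Arm 0 r R) (Arm 0 r R)).2.1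
  have hmono : ∀ r R r' R' : ℤ, r ≤ r' → r' ≤ R' → R' ≤ R → 0 ≤ r → al r R ≤ al r' R' := by
    intro r R r' R' ha hb' hc hd
    exact (hb V (Arm 0 r R) (Arm 0 r' R')).2.2.1 fun B h => h1.2.1 0 r R r' R' B ha hb' hc hd h
  refine ⟨?_, ?_, ?_⟩
  · intro r R h0 hrR
    refine ⟨?_, hle1 r R⟩
    obtain ⟨c, hc, hlow⟩ := hl R.toNat
    refine hc.trans_le (hlow r R h0 hrR ?_)
    have hR : ((R.toNat : ℕ) : ℤ) = R := Int.toNat_of_nonneg (h0.trans hrR)
    rw [hR]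
    nlinarith [h0.trans hrR]
  · intro r1 r2 r3 h0 h12 h23
    have hdep1 : DepOn (Arm 0 r1 r2) (((h1.1 0 r1 r2).2.2.1.toFinset : Finset V) : Set V) := by
      rw [Set.Finite.coe_toFinset]
      exact (h1.1 0 r1 r2).2.1
    have hdep2 : DepOn (Arm 0 r2 r3) (((h1.1 0 r2 r3).2.2.1.toFinset : Finset V) : Set V) := by
      rw [Set.Finite.coe_toFinset]
      exact (h1.1 0 r2 r3).2.1
    have hdisj : Disjoint (h1.1 0 r1 r2).2.2.1.toFinset (h1.1 0 r2 r3).2.2.1.toFinset := by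
      rw [Finset.disjoint_left]
      intro x hx hx'
      rw [Set.Finite.mem_toFinset] at hx hx'
      exact hx'.2 hx.1
    have := hi V (Arm 0 r1 r2) (Arm 0 r2 r3) _ _ hdep1 hdep2 hdisj
    unfold al
    rw [← this]
    exact (hb V _ _).2.2.1 fun B h =>
      ⟨h1.2.1 0 r1 r3 r1 r2 B le_rfl h12 h23 h0 h, h1.2.1 0 r1 r3 r2 r3 B h12 h23 le_rfl h0 h⟩
  · obtain ⟨cl, hcl, hlow⟩ := hl 4
    obtain ⟨cr, hcr, hring⟩ := hp
    have hcr1 : cr ≤ 1 := (hring 0 0 1 le_rfl le_rfl (by norm_num)).trans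
      (hb V (fun B => ¬ Arm 0 0 1 Bᶜ) (fun _ => True)).2.1
    have hcl1 : cl ≤ 1 := (hlow 0 0 le_rfl le_rfl (by norm_num)).trans (hle1 0 0)
    have hdouble : ∀ r p : ℤ, 0 ≤ r → r ≤ p → cr * cl * al r p ≤ al r (2 * p) := by
      intro r p h0 hrp
      by_cases hcase : 2 * (r + 1) ≤ p
      · have hq : r ≤ p / 2 ∧ p / 2 < p ∧ 2 * (p / 2) ≤ p ∧ 2 * p ≤ 4 * (p / 2 + 1) := by omega
        have e1 := a3_three hg hh hb h1 h0 hq.1 hq.2.1 (show p ≤ 2 * p by omega)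
        have e2 : cr ≤ Pr (fun B => ¬ Arm 0 (p / 2) p Bᶜ) :=
          hring 0 (p / 2) p (by omega) (by omega) hq.2.2.1
        have e3 : cl ≤ al (p / 2) (2 * p) :=
          hlow (p / 2) (2 * p) (by omega) (by omega) (by push_cast; linarith [hq.2.2.2])
        have e4 : al r p * cr * cl ≤
            al r p * Pr (fun B => ¬ Arm 0 (p / 2) p Bᶜ) * al (p / 2) (2 * p) := by
          have e5 : al r p * cr ≤ al r p * Pr (fun B => ¬ Arm 0 (p / 2) p Bᶜ) :=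
            mul_le_mul_of_nonneg_left e2 (hnn r p)
          exact mul_le_mul e5 e3 hcl.le ((mul_nonneg (hnn r p) hcr.le).trans e5)
        nlinarith [e4, e1]
      · have e3 : cl ≤ al r (2 * p) :=
          hlow r (2 * p) h0 (by omega) (by push_cast; linarith)
        have e6 : cr * cl * al r p ≤ 1 * cl * 1 :=
          mul_le_mul (mul_le_mul_of_nonneg_right hcr1 hcl.le) (hle1 r p) (hnn r p)
            (by nlinarith)
        linarith
    refine ⟨cr * (cr * cl), mul_pos hcr (mul_pos hcr hcl), ?_⟩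
    intro r1 r2 r3 h0 h12 h23
    have hcc : cr * (cr * cl) ≤ cr * cl := by nlinarith [mul_pos hcr hcl]
    have hcc1 : cr * cl ≤ 1 := by nlinarith
    rcases le_or_gt 1 r2 with hr2 | hr2
    · rcases le_or_gt r3 (2 * r2) with hr3 | hr3
      · have e1 : al r1 (2 * r2) ≤ al r1 r3 := hmono r1 (2 * r2) r1 r3 le_rfl (h12.trans h23) hr3 h0
        have e2 := hdouble r1 r2 h0 h12
        have e3 : al r1 r2 * al r2 r3 ≤ al r1 r2 := by nlinarith [hnn r1 r2, hle1 r2 r3]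
        have e4 : cr * (cr * cl) * (al r1 r2 * al r2 r3) ≤ cr * cl * al r1 r2 :=
          mul_le_mul hcc e3 (mul_nonneg (hnn _ _) (hnn _ _)) (mul_pos hcr hcl).le
        linarith
      · have e1 := a3_three hg hh hb h1 h0 h12 (show r2 < 2 * r2 by omega) hr3.le
        have e2 : cr ≤ Pr (fun B => ¬ Arm 0 r2 (2 * r2) Bᶜ) :=
          hring 0 r2 (2 * r2) (by omega) (by omega) le_rfl
        have e3 := hdouble r1 r2 h0 h12
        have e4 : cr * cl * al r1 r2 * cr ≤ al r1 (2 * r2) * Pr (fun B => ¬ Arm 0 r2 (2 * r2) Bᶜ) :=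
          mul_le_mul e3 e2 hcr.le (hnn _ _)
        have e5 := mul_le_mul_of_nonneg_right e4 (hnn r2 r3)
        calc cr * (cr * cl) * (al r1 r2 * al r2 r3) = cr * cl * al r1 r2 * cr * al r2 r3 := by ring
          _ ≤ _ := e5
          _ ≤ _ := e1
    · have hr20 : r2 = 0 := by omega
      have hr10 : r1 = 0 := by omega
      subst hr20 hr10
      have e1 : al 0 0 * al 0 r3 ≤ al 0 r3 := by nlinarith [hnn 0 r3, hle1 0 0]
      have e2 : cr * (cr * cl) * (al 0 0 * al 0 r3) ≤ 1 * al 0 r3 :=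
        mul_le_mul (hcc.trans hcc1) e1 (mul_nonneg (hnn _ _) (hnn _ _)) zero_le_one
      linarith

end TriX
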