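import Pool.Agent.EX.Spec1

/-! Module K1: finite formulas for local events and functions. -/

set_option autoImplicit false

open MeasureTheory

namespace TriX

/-- the configuration on `S` as a set of sites -/
def cfgS {W : Type} (S : Finset W) (η : S → Bool) : Set W := {w | ∃ h : w ∈ S, η ⟨w, h⟩ = true}

theorem depOn_cfg {W : Type} {α : Type} (f : Set W → α) (S : Finset W) (hf : DepOn f (S : Set W))
    (ω : W → Bool) : f (bl ω) = f (cfgS S (S.restrict ω)) := by
  apply hf
  ext w
  constructor
  · rintro ⟨h1, h2⟩
    exact ⟨⟨h2, h1⟩, h2⟩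
  · rintro ⟨⟨_, h1⟩, h2⟩
    exact ⟨h1, h2⟩

theorem coin_singleton (b : Bool) : ((PMF.uniformOfFintype Bool).toMeasure {b}) = 2⁻¹ := by
  rw [PMF.toMeasure_apply_singleton _ _ (measurableSet_singleton b)]
  simp

theorem pi_real_singleton {W : Type} (S : Finset W) (η : S → Bool) :
    (Measure.pi (fun _ : S => (PMF.uniformOfFintype Bool).toMeasure)).real {η} = 1 / 2 ^ S.card := by
  rw [measureReal_def, Measure.pi_singleton]
  simp only [coin_singleton, Finset.prod_const, Finset.card_univ, Fintype.card_coe]
  simp

theorem cfg_sum {W : Type} [DecidableEq W] (S : Finset W) (f : Set W → ℝ) :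
    ∑ η : S → Bool, f (cfgS S η) = ∑ A ∈ S.powerset, f (A : Set W) := by
  symm
  refine Finset.sum_bij (fun (A : Finset W) _ => fun w : S => decide (w.1 ∈ A)) ?_ ?_ ?_ ?_
  · intro A _; exact Finset.mem_univ _
  · intro A hA B hB h
    ext w
    constructor
    · intro hw
      have hS := Finset.mem_powerset.mp hA hw
      have := congrFun h ⟨w, hS⟩
      simpa [hw] using this
    · intro hw
      have hS := Finset.mem_powerset.mp hB hw
      have := congrFun h ⟨w, hS⟩
      simpa [hw] using this
  · intro η _
    refine ⟨S.filter (fun w => ∃ h : w ∈ S, η ⟨w, h⟩ = true), ?_, ?_⟩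
    · exact Finset.mem_powerset.mpr (Finset.filter_subset _ _)
    · funext w
      by_cases h : η w = true
      · simp [h]
      · simp [h]
  · intro A hA
    congr 1
    ext w
    constructor
    · intro hw
      exact ⟨Finset.mem_powerset.mp hA hw, by simpa using hw⟩
    · rintro ⟨_, h⟩
      simpa using h

theorem t_ExAvg : S_ExAvg := by
  intro W _ _ f S hf
  unfold Ex
  have h1 : ∀ ω : W → Bool, f (bl ω) = (fun η : S → Bool => f (cfgS S η)) (S.restrict ω) :=
    fun ω => depOn_cfg f S hf ω
  simp only [h1]
  unfold fair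
  rw [integral_restrict_infinitePi (X := fun _ : W => Bool)
    (μ := fun _ : W => (PMF.uniformOfFintype Bool).toMeasure) (s := S)
    (f := fun η : S → Bool => f (cfgS S η)) (by
      exact (measurable_of_finite _).aestronglyMeasurable)]
  rw [integral_fintype (Integrable.of_finite)]
  simp only [pi_real_singleton, smul_eq_mul]
  rw [← Finset.mul_sum, cfg_sum]
  ring

theorem measurableSet_loc {W : Type} (f : Set W → Prop) (S : Finset W) (hf : DepOn f (S : Set W)) :
    MeasurableSet {ω : W → Bool | f (bl ω)} := by
  have h1 : {ω : W → Bool | f (bl ω)} = S.restrict ⁻¹' {η : S → Bool | f (cfgS S η)} := by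
    ext ω
    change f (bl ω) ↔ f (cfgS S (S.restrict ω))
    rw [depOn_cfg f S hf ω]
  rw [h1]
  exact (Set.toFinite _).measurableSet.preimage (Finset.measurable_restrict S)

open Classical in
theorem Pr_eq_Ex {W : Type} (f : Set W → Prop) (hf : Loc f) :
    Pr f = Ex (fun B => if f B then (1 : ℝ) else 0) := by
  obtain ⟨S, hS⟩ := hf
  unfold Pr Ex
  rw [← integral_indicator_one (measurableSet_loc f S hS)]
  refine integral_congr_ae (Filter.Eventually.of_forall fun ω => ?_)
  simp [Set.indicator_apply]

theorem t_PrAvg : S_PrAvg := by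
  classical
  intro W _ _ f S _ hf
  rw [Pr_eq_Ex f ⟨S, hf⟩, t_ExAvg W _ S]
  · congr 1
    rw [Finset.card_filter]
    push_cast
    refine Finset.sum_congr rfl fun A _ => ?_
    split <;> rfl
  · intro B B' h
    simp only [hf B B' h]

end TriX
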