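import Pool.Agent.EX.Spec3
import Pool.Agent.EX.K1

/-! Project EX (MP_68260e), module C1: block configurations and the product measure. -/

set_option autoImplicit false

open MeasureTheory

namespace TriX

theorem site_inj (N : ℕ) (v v' : Ix N) (c c' : Cell) (h : site N v c = site N v' c') :
    v = v' ∧ c = c' := by
  obtain ⟨v1, v2⟩ := v
  obtain ⟨v1', v2'⟩ := v'
  obtain ⟨c1, c2⟩ := c
  obtain ⟨c1', c2'⟩ := c'
  unfold site posC at h
  have h1 := congrArg Prod.fst h
  have h2 := congrArg Prod.snd h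
  simp only at h1 h2
  refine ⟨Prod.ext (Fin.ext ?_) (Fin.ext ?_), Prod.ext (Fin.ext ?_) (Fin.ext ?_)⟩ <;> simp only
  all_goals omega

theorem site_mem (N : ℕ) (v : Ix N) (c : Cell) : site N v c ∈ Ball 0 (5 * N + 2) := by
  obtain ⟨v1, v2⟩ := v
  obtain ⟨c1, c2⟩ := c
  unfold site posC Ball
  simp only [Set.mem_ofPred_eq, Prod.fst_zero, Prod.snd_zero, sub_zero, abs_le]
  omega

theorem site_surj (N : ℕ) (x : V) (hx : x ∈ Ball 0 (5 * N + 2)) : ∃ v c, x = site N v c := by
  obtain ⟨x1, x2⟩ := x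
  unfold Ball at hx
  simp only [Set.mem_ofPred_eq, Prod.fst_zero, Prod.snd_zero, sub_zero, abs_le] at hx
  refine ⟨(⟨((x1 + (5 * N + 2)) / 5).toNat, by omega⟩, ⟨((x2 + (5 * N + 2)) / 5).toNat, by omega⟩),
    (⟨((x1 + (5 * N + 2)) % 5).toNat, by omega⟩, ⟨((x2 + (5 * N + 2)) % 5).toNat, by omega⟩), ?_⟩
  unfold site posC
  refine Prod.ext ?_ ?_ <;> simp only
  all_goals omega

/-- The map from pairs (block, cell) to sites. -/
def siteP (N : ℕ) (p : Ix N × Cell) : V := site N p.1 p.2

theorem siteP_inj (N : ℕ) : Function.Injective (siteP N) := by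
  rintro ⟨v, c⟩ ⟨v', c'⟩ h
  obtain ⟨h1, h2⟩ := site_inj N v v' c c' h
  rw [h1, h2]

theorem siteP_range (N : ℕ) : Set.range (siteP N) = Ball 0 (5 * N + 2) := by
  ext x
  constructor
  · rintro ⟨p, rfl⟩
    exact site_mem N p.1 p.2
  · intro hx
    obtain ⟨v, c, h⟩ := site_surj N x hx
    exact ⟨(v, c), h.symm⟩

/-- The sites of the big box are in bijection with the pairs (block, cell). -/
theorem site_bij (N : ℕ) :
    Set.BijOn (siteP N) Set.univ (Ball 0 (5 * N + 2)) := by
  refine ⟨fun p _ => site_mem N p.1 p.2, (siteP_inj N).injOn, ?_⟩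
  intro x hx
  obtain ⟨v, c, h⟩ := site_surj N x hx
  exact ⟨(v, c), Set.mem_univ _, h.symm⟩

/-- The big box as a finite set. -/
noncomputable def bigB (N : ℕ) : Finset V :=
  (Finset.univ : Finset (Ix N × Cell)).map ⟨siteP N, siteP_inj N⟩

theorem coe_bigB (N : ℕ) : (bigB N : Set V) = Ball 0 (5 * N + 2) := by
  unfold bigB
  rw [Finset.coe_map, Finset.coe_univ, Set.image_univ]
  exact siteP_range N

theorem card_bigB (N : ℕ) : (bigB N).card = Fintype.card (Ix N × Cell) := by
  unfold bigB
  rw [Finset.card_map, Finset.card_univ]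

/-- The set of black sites of a family of cell colours. -/
def cfgP (N : ℕ) (η : Ix N × Cell → Bool) : Set V := {x | ∃ p, x = siteP N p ∧ η p = true}

theorem cfgP_sum (N : ℕ) (F : Set V → ℝ) :
    ∑ η : Ix N × Cell → Bool, F (cfgP N η) = ∑ A ∈ (bigB N).powerset, F (A : Set V) := by
  classical
  symm
  refine Finset.sum_bij (fun (A : Finset V) _ => fun p => decide (siteP N p ∈ A)) ?_ ?_ ?_ ?_
  · intro A _; exact Finset.mem_univ _
  · intro A hA B hB h
    have key : ∀ A ∈ (bigB N).powerset, ∀ w : V, w ∈ A ↔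
        ∃ p, siteP N p = w ∧ decide (siteP N p ∈ A) = true := by
      intro A hA w
      constructor
      · intro hw
        have h1 := Finset.mem_powerset.mp hA hw
        unfold bigB at h1
        rw [Finset.mem_map] at h1
        obtain ⟨p, _, hp⟩ := h1
        exact ⟨p, hp, by simp only [decide_eq_true_eq]; rw [← hp] at hw; exact hw⟩
      · rintro ⟨p, hp, h1⟩
        rw [← hp]
        simpa using h1
    ext w
    rw [key A hA, key B hB]
    have h' : ∀ p, decide (siteP N p ∈ A) = decide (siteP N p ∈ B) := fun p => congrFun h p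
    simp only [h']
  · intro η _
    refine ⟨((Finset.univ : Finset (Ix N × Cell)).filter (fun p => η p = true)).map
      ⟨siteP N, siteP_inj N⟩, ?_, ?_⟩
    · rw [Finset.mem_powerset]
      exact Finset.map_subset_map.mpr (Finset.filter_subset _ _)
    · funext p
      by_cases h : η p = true
      · rw [h, decide_eq_true_eq, Finset.mem_map]
        exact ⟨p, by simp [h], rfl⟩
      · have h2 : η p = false := by simpa using h
        rw [h2, decide_eq_false_iff_not, Finset.mem_map]
        rintro ⟨q, hq, hqp⟩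
        have := siteP_inj N hqp
        subst this
        simp [h] at hq
  · intro A hA
    congr 1
    ext w
    constructor
    · intro hw
      have h1 := Finset.mem_powerset.mp hA hw
      unfold bigB at h1
      rw [Finset.mem_map] at h1
      obtain ⟨p, _, hp⟩ := h1
      change siteP N p = w at hp
      subst hp
      exact ⟨p, rfl, by simpa using hw⟩
    · rintro ⟨p, hp, h⟩
      rw [hp]
      simpa using h

/-- Separating the colours of the cells and the labels. -/
def splitE (N : ℕ) : (Ix N → BX) ≃ (Ix N × Cell → Bool) × (Ix N → Cell) where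
  toFun ω := (fun p => (ω p.1).1 p.2, fun v => (ω v).2)
  invFun q := fun v => (fun c => q.1 (v, c), q.2 v)
  left_inv _ := rfl
  right_inv _ := rfl

theorem cfg_eq (N : ℕ) (ω : Ix N → BX) : cfg N ω = cfgP N (splitE N ω).1 := by
  ext x
  constructor
  · rintro ⟨v, c, h1, h2⟩
    exact ⟨(v, c), h1, h2⟩
  · rintro ⟨p, h1, h2⟩
    exact ⟨p.1, p.2, h1, h2⟩

theorem E_cfg (N : ℕ) (F : Set V → ℝ) :
    Noise.E (fun ω : Ix N → BX => F (cfg N ω)) =
      (∑ A ∈ (bigB N).powerset, F (A : Set V)) / 2 ^ (bigB N).card := by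
  unfold Noise.E
  have h1 : ∑ ω : Ix N → BX, F (cfg N ω) =
      (Fintype.card (Ix N → Cell) : ℝ) * ∑ η : Ix N × Cell → Bool, F (cfgP N η) := by
    rw [← (splitE N).symm.sum_comp (fun ω => F (cfg N ω)), Fintype.sum_prod_type]
    rw [Finset.mul_sum]
    refine Finset.sum_congr rfl fun η _ => ?_
    have : ∀ l : Ix N → Cell, F (cfg N ((splitE N).symm (η, l))) = F (cfgP N η) := by
      intro l
      rw [cfg_eq, Equiv.apply_symm_apply]
    simp only [this]
    rw [Finset.sum_const, Finset.card_univ, nsmul_eq_mul]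
  have h2 : (Fintype.card (Ix N → BX) : ℝ) =
      (Fintype.card (Ix N → Cell) : ℝ) * 2 ^ (bigB N).card := by
    rw [Fintype.card_congr (splitE N), Fintype.card_prod, card_bigB]
    have : Fintype.card (Ix N × Cell → Bool) = 2 ^ Fintype.card (Ix N × Cell) := by
      rw [Fintype.card_fun, Fintype.card_bool]
    rw [this]
    push_cast
    ring
  have h3 : (Fintype.card (Ix N → Cell) : ℝ) ≠ 0 := by
    exact_mod_cast Fintype.card_ne_zero
  rw [h1, h2, cfgP_sum, mul_div_mul_left _ _ h3]

theorem transfer_E (hE : S_ExAvg) (N : ℕ) (F : Set V → ℝ) (hF : DepOn F (Ball 0 (5 * N + 2))) :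
    Noise.E (fun ω : Ix N → BX => F (cfg N ω)) = Ex F := by
  classical
  rw [E_cfg, hE V F (bigB N) (by rw [coe_bigB]; exact hF)]

theorem c_transfer (hE : S_ExAvg) (_hA : S_PrAvg) (_h1 : S_armBasic) : S_transfer := by
  classical
  refine ⟨transfer_E hE, ?_⟩
  intro N r R h0 hr hR
  have hdep : DepOn (Arm 0 r R) (Ball 0 (5 * N + 2)) := by
    intro B B' h
    have hsub : Ann 0 r R ⊆ Ball 0 (5 * N + 2) := by
      rintro v ⟨⟨h1, h2⟩, _⟩
      exact ⟨h1.trans hR, h2.trans hR⟩
    have h2 : B ∩ Ann 0 r R = B' ∩ Ann 0 r R := by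
      have h3 : ∀ B : Set V, B ∩ Ann 0 r R = (B ∩ Ball 0 (5 * N + 2)) ∩ Ann 0 r R := by
        intro B
        rw [Set.inter_assoc, Set.inter_eq_self_of_subset_right hsub]
      rw [h3 B, h3 B', h]
    unfold Arm
    rw [h2]
  have hloc : Loc (Arm 0 r R) := ⟨bigB N, by rw [coe_bigB]; exact hdep⟩
  have h1 : Noise.E (armI N r R) =
      Noise.E (fun ω : Ix N → BX => (fun B : Set V => if Arm 0 r R B then (1 : ℝ) else 0)
        (cfg N ω)) := rfl
  have h2 : DepOn (fun B : Set V => if Arm 0 r R B then (1 : ℝ) else 0)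
      (Ball 0 (5 * N + 2)) := by
    intro B B' h
    simp only [hdep B B' h]
  rw [h1]
  refine (transfer_E hE N _ h2).trans ?_
  unfold al
  rw [Pr_eq_Ex _ hloc]

end TriX
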