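import Pool.Agent.EX.Spec3
import Pool.Agent.EX.K1

/-! Project EX (MP_68260e), module C2: the noise estimate for arm events. -/

set_option autoImplicit false

open MeasureTheory

namespace TriX

theorem c2_sum_shift (J : ℕ) (g : ℕ → ℝ) :
    ∑ i ∈ Finset.Ioc J (2 * J), g i = ∑ i : Fin J, g (J + 1 + i) := by
  rw [← Finset.sum_range (fun i => g (J + 1 + i))]
  symm
  refine Finset.sum_nbij (fun i => J + 1 + i) ?_ ?_ ?_ ?_
  · intro i hi
    rw [Finset.mem_range] at hi
    rw [Finset.mem_Ioc]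
    omega
  · intro a _ b _ h
    simp only at h
    omega
  · intro b hb
    rw [Finset.coe_Ioc, Set.mem_Ioc] at hb
    refine ⟨b - (J + 1), ?_, ?_⟩
    · rw [Finset.coe_range, Set.mem_Iio]
      omega
    · simp only
      omega
  · intro i _
    rfl

theorem c2_E_mono {I X : Type} [Fintype I] [DecidableEq I] [Fintype X] {f g : (I → X) → ℝ}
    (h : ∀ ω, f ω ≤ g ω) : Noise.E f ≤ Noise.E g :=
  div_le_div_of_nonneg_right (Finset.sum_le_sum fun ω _ => h ω) (Nat.cast_nonneg _)

theorem c2_E_nonneg {I X : Type} [Fintype I] [DecidableEq I] [Fintype X] {f : (I → X) → ℝ}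
    (h : ∀ ω, 0 ≤ f ω) : 0 ≤ Noise.E f :=
  div_nonneg (Finset.sum_nonneg fun ω _ => h ω) (Nat.cast_nonneg _)

theorem c2_E_sum {I X K : Type} [Fintype I] [DecidableEq I] [Fintype X] (s : Finset K)
    (f : K → (I → X) → ℝ) : Noise.E (fun ω => ∑ k ∈ s, f k ω) = ∑ k ∈ s, Noise.E (f k) := by
  unfold Noise.E
  rw [Finset.sum_comm, Finset.sum_div]

theorem c2_E_div {I X : Type} [Fintype I] [DecidableEq I] [Fintype X] (f : (I → X) → ℝ) (c : ℝ) :
    Noise.E (fun ω => f ω / c) = Noise.E f / c := by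
  unfold Noise.E
  rw [← Finset.sum_div, div_div, div_div, mul_comm]

open Classical in
theorem c_corr (hn : Noise.S_noise) (hg : S_gadget) (hr : S_reveal) (hs : S_QQstop)
    (ht : S_transfer) (hq : S_QM) (h1 : S_armBasic) (hb : S_PrBasic) : S_corr := by
  obtain ⟨Cn, hCn, hnoise⟩ := hn
  obtain ⟨c, hcι, hcχ, hgood⟩ := hg
  obtain ⟨Cr, ε, hCr, hε, hrev⟩ := hr
  obtain ⟨htr, htA⟩ := ht
  obtain ⟨hq1, _, _⟩ := hq
  obtain ⟨h11, h12, _⟩ := h1
  set K0 : ℝ := (1 : ℝ) * Fintype.card BX with hK0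
  refine ⟨Cn K0 * (25 * Cr), ε, mul_pos (hCn _) (by positivity), hε, ?_⟩
  intro N j J hjJ hJN t ht0 ht1
  have hJ1 : 1 ≤ J := by omega
  have : NeZero J := ⟨by omega⟩
  have : NeZero (20 * J) := ⟨by omega⟩
  -- the index of the radius
  set ri : Fin J × Fin (20 * J) → ℕ := fun p => J + 1 + p.1 with hri
  have hri1 : ∀ p, J + 1 ≤ ri p := fun p => by simp only [hri]; omega
  have hri2 : ∀ p, ri p ≤ 2 * J := fun p => by
    have := p.1.2
    simp only [hri]; omega
  set f : Fin J × Fin (20 * J) → (Ix N → BX) → ℝ :=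
    fun p => armI N (5 * j + 2) (5 * (ri p : ℤ) + 2) with hf
  set QS : Fin J × Fin (20 * J) → Set V → Set V :=
    fun p B => QQ p.2 (20 * J) (5 * j + 2) (5 * (ri p : ℤ) + 2) B with hQS
  set Jp : Fin J × Fin (20 * J) → (Ix N → BX) → Finset (Ix N) :=
    fun p ω => Finset.univ.filter (fun v => ∃ c, site N v c ∈ QS p (cfg N ω)) with hJp
  have hstop0 : ∀ (p : Fin J × Fin (20 * J)) (B B' : Set V),
      QS p B ⊆ Ann 0 (5 * j + 2) (5 * (ri p : ℤ) + 2) ∧
      (B ∩ QS p B = B' ∩ QS p B → QS p B' = QS p B ∧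
        (Arm 0 (5 * j + 2) (5 * (ri p : ℤ) + 2) B ↔ Arm 0 (5 * j + 2) (5 * (ri p : ℤ) + 2) B')) := by
    intro p B B'
    refine hs p.2 (20 * J) (5 * j + 2) (5 * (ri p : ℤ) + 2) B B' p.2.2 (by positivity) ?_
    have := hri1 p
    have h2 : (j : ℤ) < ri p := by exact_mod_cast (by omega : j < ri p)
    linarith
  -- average
  have hAv : ∀ ω, (∑ p, f p ω) / (Fintype.card (Fin J × Fin (20 * J)) : ℝ) = hAv N j J ω := by
    intro ω
    unfold hAv
    rw [c2_sum_shift J (fun i => armI N (5 * j + 2) (5 * (i : ℤ) + 2) ω)]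
    rw [Fintype.sum_prod_type]
    simp only [hf, hri, Finset.sum_const, Finset.card_univ, Fintype.card_fin, nsmul_eq_mul,
      Fintype.card_prod]
    rw [← Finset.mul_sum]
    push_cast
    have hJ0 : (J : ℝ) ≠ 0 := by
      have : (0 : ℝ) < J := by exact_mod_cast hJ1
      exact this.ne'
    field_simp
  have hfun : (fun ω => (∑ p, f p ω) / (Fintype.card (Fin J × Fin (20 * J)) : ℝ)) =
      TriX.hAv N j J := by
    funext ω
    exact hAv ω
  set M := al (5 * j + 2) (5 * J + 2) with hM
  have hMpos : 0 < M := (hq1 _ _ (by positivity) (by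
    have : (j : ℤ) ≤ J := by exact_mod_cast hjJ.le
    linarith)).1
  set δ : ℝ := 25 * (Cr * ((5 * j + 2 : ℝ)) ^ (-ε) * al 0 (5 * j + 2) ^ 2 * M) with hδ
  have hal0 : 0 < al 0 (5 * j + 2) := (hq1 _ _ (le_refl _) (by positivity)).1
  have hδpos : 0 < δ := by
    have : 0 < ((5 * j + 2 : ℝ)) ^ (-ε) := Real.rpow_pos_of_pos (by positivity) _
    positivity
  have hEf : ∀ p, Noise.E (f p) = al (5 * j + 2) (5 * (ri p : ℤ) + 2) := by
    intro p
    have h2 := hri1 p
    have h3 := hri2 p
    have h4 : (j : ℤ) ≤ ri p := by exact_mod_cast (by omega : j ≤ ri p)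
    have h5 : (ri p : ℤ) ≤ N := by exact_mod_cast (by omega : ri p ≤ N)
    exact htA N (5 * j + 2) (5 * (ri p : ℤ) + 2) (by positivity) (by linarith) (by linarith)
  have halM : ∀ p, al (5 * j + 2) (5 * (ri p : ℤ) + 2) ≤ M := by
    intro p
    have h2 : (J : ℤ) ≤ ri p := by
      have := hri1 p
      exact_mod_cast (by omega : J ≤ ri p)
    have h4 : (j : ℤ) ≤ J := by exact_mod_cast hjJ.le
    refine (hb V _ _).2.2.1 ?_
    intro B hB
    exact h12 0 _ _ _ _ B (le_refl _) (by linarith) (by linarith) (by positivity) hB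
  have hfsq : ∀ p, Noise.sq (f p) = Noise.E (f p) := by
    intro p
    unfold Noise.sq
    congr 1
    funext ω
    simp only [hf, armI]
    split_ifs <;> norm_num
  have hcardpos : (0 : ℝ) < (Fintype.card (Fin J × Fin (20 * J)) : ℝ) := by
    exact_mod_cast Fintype.card_pos
  have havg : (∑ p, Noise.E (f p)) / (Fintype.card (Fin J × Fin (20 * J)) : ℝ) ≤ M := by
    rw [div_le_iff₀ hcardpos]
    calc ∑ p, Noise.E (f p) ≤ ∑ _p : Fin J × Fin (20 * J), M :=
          Finset.sum_le_sum fun p _ => (hEf p).trans_le (halM p)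
      _ = M * (Fintype.card (Fin J × Fin (20 * J)) : ℝ) := by
          rw [Finset.sum_const, Finset.card_univ, nsmul_eq_mul, mul_comm]
  have main := hnoise (Ix N) BX (Fin J × Fin (20 * J)) c 1 f Jp δ M one_pos hδpos hMpos
    (by
      intro p
      exact hgood N j (ri p) (by have := hri1 p; omega) (by have := hri2 p; omega))
    (by
      intro p ω ω' hω
      have hcap : cfg N ω ∩ QS p (cfg N ω) = cfg N ω' ∩ QS p (cfg N ω) := by
        ext x
        constructor
        · rintro ⟨⟨v, c', hx, hc⟩, hxQ⟩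
          refine ⟨⟨v, c', hx, ?_⟩, hxQ⟩
          have hv : v ∈ Jp p ω := by
            simp only [hJp, Finset.mem_filter, Finset.mem_univ, true_and]
            exact ⟨c', hx ▸ hxQ⟩
          rw [← hω v hv]
          exact hc
        · rintro ⟨⟨v, c', hx, hc⟩, hxQ⟩
          refine ⟨⟨v, c', hx, ?_⟩, hxQ⟩
          have hv : v ∈ Jp p ω := by
            simp only [hJp, Finset.mem_filter, Finset.mem_univ, true_and]
            exact ⟨c', hx ▸ hxQ⟩
          rw [hω v hv]
          exact hc
      obtain ⟨hQ, hA⟩ := (hstop0 p (cfg N ω) (cfg N ω')).2 hcap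
      constructor
      · simp only [hJp]
        rw [hQ]
      · simp only [hf, armI]
        simp only [hA])
    (by
      intro v
      have hind : ∀ (p : Fin J × Fin (20 * J)) (x : V),
          Noise.E (fun ω : Ix N → BX => if x ∈ QS p (cfg N ω) then (1 : ℝ) else 0) =
            Pr (fun B => x ∈ QS p B) := by
        intro p x
        have hsub : Ann 0 (5 * j + 2) (5 * (ri p : ℤ) + 2) ⊆ Ball 0 (5 * N + 2) := by
          intro y hy
          have h5 : (ri p : ℤ) ≤ N := by
            have := hri2 p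
            exact_mod_cast (by omega : ri p ≤ N)
          exact ⟨hy.1.1.trans (by linarith), hy.1.2.trans (by linarith)⟩
        have hdep : ∀ B B' : Set V, B ∩ Ball 0 (5 * N + 2) = B' ∩ Ball 0 (5 * N + 2) →
            QS p B' = QS p B := by
          intro B B' hBB
          have h2 := hstop0 p B B'
          refine (h2.2 ?_).1
          have h3 : QS p B ⊆ Ball 0 (5 * N + 2) := h2.1.trans hsub
          rw [← Set.inter_eq_right.2 h3, ← Set.inter_assoc, ← Set.inter_assoc, hBB]
        have hdep1 : DepOn (fun B => x ∈ QS p B) (Ball 0 (5 * N + 2)) := by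
          intro B B' hBB
          simp only [hdep B B' hBB]
        have hloc : Loc (fun B => x ∈ QS p B) := by
          have hfin : (Ball (0 : V) (5 * N + 2)).Finite := by
            refine Set.Finite.subset ((Set.finite_Icc (-(5 * (N : ℤ) + 2)) (5 * N + 2)).prod
              (Set.finite_Icc (-(5 * (N : ℤ) + 2)) (5 * N + 2))) ?_
            rintro y ⟨hy1, hy2⟩
            rw [abs_le] at hy1 hy2
            simp only [Prod.fst_zero, Prod.snd_zero, sub_zero] at hy1 hy2
            exact ⟨⟨hy1.1, hy1.2⟩, ⟨hy2.1, hy2.2⟩⟩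
          refine ⟨hfin.toFinset, ?_⟩
          rw [Set.Finite.coe_toFinset]
          exact hdep1
        rw [Pr_eq_Ex _ hloc]
        rw [← htr N (fun B => if x ∈ QS p B then (1 : ℝ) else 0)]
        intro B B' hBB
        simp only [hdep B B' hBB]
      have hone : ∀ p, Noise.E (fun ω : Ix N → BX => if v ∈ Jp p ω then (1 : ℝ) else 0) ≤
          ∑ c' : Cell, Pr (fun B => site N v c' ∈ QS p B) := by
        intro p
        rw [← Finset.sum_congr rfl (fun c' _ => hind p (site N v c')), ← c2_E_sum]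
        apply c2_E_mono
        intro ω
        by_cases hv : v ∈ Jp p ω
        · rw [if_pos hv]
          simp only [hJp, Finset.mem_filter, Finset.mem_univ, true_and] at hv
          obtain ⟨c', hc'⟩ := hv
          calc (1 : ℝ) = if site N v c' ∈ QS p (cfg N ω) then (1 : ℝ) else 0 := by rw [if_pos hc']
            _ ≤ _ := Finset.single_le_sum (f := fun c' : Cell =>
                if site N v c' ∈ QS p (cfg N ω) then (1 : ℝ) else 0)
                (fun c' _ => by split_ifs <;> norm_num) (Finset.mem_univ c')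
        · rw [if_neg hv]
          exact Finset.sum_nonneg fun c' _ => by split_ifs <;> norm_num
      have hsumx : ∀ x : V, (∑ p, Pr (fun B => x ∈ QS p B)) /
          (Fintype.card (Fin J × Fin (20 * J)) : ℝ) ≤
          Cr * ((5 * j + 2 : ℝ)) ^ (-ε) * al 0 (5 * j + 2) ^ 2 * M := by
        intro x
        have h2 := hrev j J hjJ x
        rw [c2_sum_shift J (fun i => ∑ s ∈ Finset.range (20 * J),
          Pr (fun B => x ∈ QQ s (20 * J) (5 * j + 2) (5 * (i : ℤ) + 2) B))] at h2
        simp only [Finset.sum_range] at h2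
        rw [Fintype.sum_prod_type]
        have h3 : (Fintype.card (Fin J × Fin (20 * J)) : ℝ) = (J : ℝ) * (20 * J) := by
          rw [Fintype.card_prod, Fintype.card_fin, Fintype.card_fin]
          push_cast
          ring
        rw [h3]
        exact h2
      calc (∑ p, Noise.E (fun ω : Ix N → BX => if v ∈ Jp p ω then (1 : ℝ) else 0)) /
            (Fintype.card (Fin J × Fin (20 * J)) : ℝ)
          ≤ (∑ p, ∑ c' : Cell, Pr (fun B => site N v c' ∈ QS p B)) /
            (Fintype.card (Fin J × Fin (20 * J)) : ℝ) :=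
            div_le_div_of_nonneg_right (Finset.sum_le_sum fun p _ => hone p) hcardpos.le
        _ = ∑ c' : Cell, (∑ p, Pr (fun B => site N v c' ∈ QS p B)) /
            (Fintype.card (Fin J × Fin (20 * J)) : ℝ) := by
            rw [Finset.sum_comm, Finset.sum_div]
        _ ≤ ∑ _c' : Cell, Cr * ((5 * j + 2 : ℝ)) ^ (-ε) * al 0 (5 * j + 2) ^ 2 * M :=
            Finset.sum_le_sum fun c' _ => hsumx _
        _ = δ := by
            rw [Finset.sum_const, Finset.card_univ, hδ, nsmul_eq_mul]
            norm_num)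
    (by
      rw [Finset.sum_congr rfl fun p _ => hfsq p]
      exact havg)
    t ht0 ht1
  rw [hcι] at main
  have main2 : Noise.E (fun ω => TriX.hAv N j J ω * Noise.T iotaG (1 - t) (TriX.hAv N j J) ω) ≤
      Noise.E (TriX.hAv N j J) ^ 2 + Cn K0 * δ * M / t ^ 2 := by
    simp only [hAv] at main
    exact main
  have hEh : Noise.E (TriX.hAv N j J) = (∑ p, Noise.E (f p)) /
      (Fintype.card (Fin J × Fin (20 * J)) : ℝ) := by
    rw [← hfun, c2_E_div, c2_E_sum]
  have hE0 : 0 ≤ Noise.E (TriX.hAv N j J) := by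
    apply c2_E_nonneg
    intro ω
    unfold TriX.hAv
    refine div_nonneg (Finset.sum_nonneg ?_) (Nat.cast_nonneg _)
    intro i _
    unfold armI
    split_ifs
    · exact zero_le_one
    · exact le_refl _
  have hEM : Noise.E (TriX.hAv N j J) ≤ M := by
    rw [hEh]
    exact havg
  have hE2 : Noise.E (TriX.hAv N j J) ^ 2 ≤ M ^ 2 := pow_le_pow_left₀ hE0 hEM 2
  refine main2.trans ?_
  have hfin : M ^ 2 * (1 + Cn K0 * (25 * Cr) * ((5 * j + 2 : ℝ)) ^ (-ε) * al 0 (5 * j + 2) ^ 2 / t ^ 2)
      = M ^ 2 + Cn K0 * δ * M / t ^ 2 := by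
    rw [hδ]
    ring
  rw [hfin]
  linarith

end TriX

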