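import Pool.Agent.EX.Spec3

/-! Module EX-C3: the one-arm event is dominated by a product (S_prodBound). -/

open MeasureTheory

namespace TriX

namespace C3

/-- `f` only depends on the coordinates satisfying `p`. -/
def DepC {I X : Type} (p : I → Prop) (f : (I → X) → ℝ) : Prop :=
  ∀ ω ω' : I → X, (∀ v, p v → ω v = ω' v) → f ω = f ω'

open Classical in
/-- Coordinates in `p` from the first, the other ones from the second configuration. -/
noncomputable def mix {I X : Type} (p : I → Prop) (a b : I → X) : I → X :=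
  fun v => if p v then a v else b v

theorem E_mul {I X : Type} [Fintype I] [DecidableEq I] [Fintype X] [Nonempty X] (p : I → Prop)
    (f g : (I → X) → ℝ) (hf : DepC p f) (hg : DepC (fun v => ¬ p v) g) :
    Noise.E (fun ω => f ω * g ω) = Noise.E f * Noise.E g := by
  classical
  have hc : (0 : ℝ) < (Fintype.card (I → X) : ℝ) := by
    have : 0 < Fintype.card (I → X) := Fintype.card_pos
    exact_mod_cast this
  let e : ((I → X) × (I → X)) ≃ ((I → X) × (I → X)) :=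
    { toFun := fun q => (mix p q.1 q.2, mix p q.2 q.1)
      invFun := fun q => (mix p q.1 q.2, mix p q.2 q.1)
      left_inv := by
        rintro ⟨a, b⟩
        ext v <;> by_cases h : p v <;> simp [mix, h]
      right_inv := by
        rintro ⟨a, b⟩
        ext v <;> by_cases h : p v <;> simp [mix, h] }
  have h1 : ∑ q : (I → X) × (I → X), f q.1 * g q.2 = ∑ q : (I → X) × (I → X), f q.1 * g q.1 := by
    rw [← Equiv.sum_comp e (fun q => f q.1 * g q.1)]
    refine Finset.sum_congr rfl (fun q _ => ?_)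
    have ha : f (e q).1 = f q.1 := hf _ _ (fun v hv => by simp [e, mix, hv])
    have hb : g (e q).1 = g q.2 := hg _ _ (fun v hv => by
      have hv' : ¬ p v := hv
      simp [e, mix, hv'])
    rw [ha, hb]
  have h2 : ∑ q : (I → X) × (I → X), f q.1 * g q.2 = (∑ ω, f ω) * ∑ ω, g ω := by
    rw [Fintype.sum_prod_type, Finset.sum_mul_sum]
  have h3 : ∑ q : (I → X) × (I → X), f q.1 * g q.1 =
      (Fintype.card (I → X) : ℝ) * ∑ ω, f ω * g ω := by
    rw [Fintype.sum_prod_type_right]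
    simp only [Finset.sum_const, Finset.card_univ, nsmul_eq_mul]
  have h4 : (∑ ω, f ω) * ∑ ω, g ω = (Fintype.card (I → X) : ℝ) * ∑ ω, f ω * g ω := by
    rw [← h2, h1, h3]
  unfold Noise.E
  rw [div_mul_div_comm, h4, mul_div_mul_left _ _ hc.ne']

theorem T_mono {I X : Type} [Fintype I] [DecidableEq I] [Fintype X] (ι : X → X) (u : ℝ)
    (h0 : 0 ≤ u) (h1 : u ≤ 1) (f g : (I → X) → ℝ) (h : ∀ ω, f ω ≤ g ω) (ω : I → X) :
    Noise.T ι u f ω ≤ Noise.T ι u g ω := by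
  unfold Noise.T
  refine Finset.sum_le_sum (fun U _ => ?_)
  have ha : 0 ≤ (1 - u) / 2 := by linarith
  have hb : 0 ≤ (1 + u) / 2 := by linarith
  exact mul_le_mul_of_nonneg_left (h _) (mul_nonneg (pow_nonneg ha _) (pow_nonneg hb _))

theorem T_nonneg {I X : Type} [Fintype I] [DecidableEq I] [Fintype X] (ι : X → X) (u : ℝ)
    (h0 : 0 ≤ u) (h1 : u ≤ 1) (f : (I → X) → ℝ) (h : ∀ ω, 0 ≤ f ω) (ω : I → X) :
    0 ≤ Noise.T ι u f ω := by
  unfold Noise.T
  refine Finset.sum_nonneg (fun U _ => ?_)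
  have ha : 0 ≤ (1 - u) / 2 := by linarith
  have hb : 0 ≤ (1 + u) / 2 := by linarith
  exact mul_nonneg (mul_nonneg (pow_nonneg ha _) (pow_nonneg hb _)) (h _)

theorem T_dep {I X : Type} [Fintype I] [DecidableEq I] [Fintype X] (ι : X → X) (u : ℝ)
    (p : I → Prop) (f : (I → X) → ℝ) (h : DepC p f) : DepC p (Noise.T ι u f) := by
  intro ω ω' hw
  unfold Noise.T
  refine Finset.sum_congr rfl (fun U _ => ?_)
  have : f (Noise.flipS ι U ω) = f (Noise.flipS ι U ω') := by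
    refine h _ _ (fun v hv => ?_)
    unfold Noise.flipS
    rw [hw v hv]
  rw [this]

theorem E_mono {I X : Type} [Fintype I] [DecidableEq I] [Fintype X]
    (f g : (I → X) → ℝ) (h : ∀ ω, f ω ≤ g ω) : Noise.E f ≤ Noise.E g := by
  unfold Noise.E
  exact div_le_div_of_nonneg_right (Finset.sum_le_sum (fun ω _ => h ω)) (by positivity)

/-- The blocks of the inner ball. -/
def inn (N j : ℕ) (v : Ix N) : Prop :=
  |((v.1 : ℕ) : ℤ) - N| ≤ j ∧ |((v.2 : ℕ) : ℤ) - N| ≤ j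

theorem site_in {N j : ℕ} {v : Ix N} {c : Cell} :
    site N v c ∈ Ball 0 (5 * j + 2) ↔ inn N j v := by
  obtain ⟨c1, c2⟩ := c
  have h1 := c1.isLt
  have h2 := c2.isLt
  simp only [Ball, site, posC, inn, Set.mem_ofPred_eq, Prod.fst_zero, Prod.snd_zero, abs_le]
  constructor
  · rintro ⟨⟨a, b⟩, c, d⟩
    refine ⟨⟨?_, ?_⟩, ?_, ?_⟩ <;> omega
  · rintro ⟨⟨a, b⟩, c, d⟩
    refine ⟨⟨?_, ?_⟩, ?_, ?_⟩ <;> omega

theorem armI_nonneg (N : ℕ) (r R : ℤ) (ω : Ix N → BX) : 0 ≤ armI N r R ω := by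
  unfold armI
  split_ifs <;> norm_num

theorem armI_le_one (N : ℕ) (r R : ℤ) (ω : Ix N → BX) : armI N r R ω ≤ 1 := by
  unfold armI
  split_ifs <;> norm_num

theorem armI_inner (h1 : S_armBasic) (N j : ℕ) :
    DepC (inn N j) (armI N 0 (5 * j + 2)) := by
  intro ω ω' hw
  have hd := (h1.1 0 0 (5 * (j : ℤ) + 2)).2.1
  have key : cfg N ω ∩ Ann 0 0 (5 * (j : ℤ) + 2) = cfg N ω' ∩ Ann 0 0 (5 * (j : ℤ) + 2) := by
    ext x
    constructor
    · rintro ⟨⟨v, c, rfl, hc⟩, hx⟩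
      refine ⟨⟨v, c, rfl, ?_⟩, hx⟩
      rw [← hw v (site_in.1 hx.1)]
      exact hc
    · rintro ⟨⟨v, c, rfl, hc⟩, hx⟩
      refine ⟨⟨v, c, rfl, ?_⟩, hx⟩
      rw [hw v (site_in.1 hx.1)]
      exact hc
  have hk : Arm 0 0 (5 * (j : ℤ) + 2) (cfg N ω) ↔ Arm 0 0 (5 * (j : ℤ) + 2) (cfg N ω') :=
    iff_of_eq (hd _ _ key)
  unfold armI
  by_cases h : Arm 0 0 (5 * (j : ℤ) + 2) (cfg N ω)
  · rw [if_pos h, if_pos (hk.1 h)]
  · rw [if_neg h, if_neg (fun h' => h (hk.2 h'))]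

theorem armI_outer (h1 : S_armBasic) (N j : ℕ) (R : ℤ) :
    DepC (fun v => ¬ inn N j v) (armI N (5 * j + 2) R) := by
  intro ω ω' hw
  have hd := (h1.1 0 (5 * (j : ℤ) + 2) R).2.1
  have key : cfg N ω ∩ Ann 0 (5 * (j : ℤ) + 2) R = cfg N ω' ∩ Ann 0 (5 * (j : ℤ) + 2) R := by
    ext x
    constructor
    · rintro ⟨⟨v, c, rfl, hc⟩, hx⟩
      refine ⟨⟨v, c, rfl, ?_⟩, hx⟩
      rw [← hw v (fun h => hx.2 (site_in.2 h))]
      exact hc
    · rintro ⟨⟨v, c, rfl, hc⟩, hx⟩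
      refine ⟨⟨v, c, rfl, ?_⟩, hx⟩
      rw [hw v (fun h => hx.2 (site_in.2 h))]
      exact hc
  have hk : Arm 0 (5 * (j : ℤ) + 2) R (cfg N ω) ↔ Arm 0 (5 * (j : ℤ) + 2) R (cfg N ω') :=
    iff_of_eq (hd _ _ key)
  unfold armI
  by_cases h : Arm 0 (5 * (j : ℤ) + 2) R (cfg N ω)
  · rw [if_pos h, if_pos (hk.1 h)]
  · rw [if_neg h, if_neg (fun h' => h (hk.2 h'))]

theorem hAv_dep (h1 : S_armBasic) (N j J : ℕ) :
    DepC (fun v => ¬ inn N j v) (hAv N j J) := by
  intro ω ω' hw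
  unfold hAv
  congr 1
  exact Finset.sum_congr rfl (fun i _ => armI_outer h1 N j _ ω ω' hw)

theorem hAv_nonneg (N j J : ℕ) (ω : Ix N → BX) : 0 ≤ hAv N j J ω := by
  unfold hAv
  exact div_nonneg (Finset.sum_nonneg (fun i _ => armI_nonneg _ _ _ _)) (by positivity)

theorem F_le (h1 : S_armBasic) (N j J : ℕ) (hj : j < J) (ω : Ix N → BX) :
    armI N 0 (10 * J + 2) ω ≤ armI N 0 (5 * j + 2) ω * hAv N j J ω := by
  by_cases h : Arm 0 0 (10 * (J : ℤ) + 2) (cfg N ω)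
  · have ha : Arm 0 0 (5 * (j : ℤ) + 2) (cfg N ω) :=
      h1.2.1 0 0 (10 * (J : ℤ) + 2) 0 (5 * (j : ℤ) + 2) _ le_rfl (by omega) (by omega) le_rfl h
    have hb : ∀ i ∈ Finset.Ioc J (2 * J), armI N (5 * j + 2) (5 * i + 2) ω = 1 := by
      intro i hi
      rw [Finset.mem_Ioc] at hi
      have : Arm 0 (5 * (j : ℤ) + 2) (5 * (i : ℤ) + 2) (cfg N ω) :=
        h1.2.1 0 0 (10 * (J : ℤ) + 2) (5 * (j : ℤ) + 2) (5 * (i : ℤ) + 2) _ (by omega) (by omega)
          (by omega) le_rfl h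
      unfold armI
      rw [if_pos this]
    have hJ : (0 : ℝ) < J := by exact_mod_cast (by omega : 0 < J)
    have hc : hAv N j J ω = 1 := by
      unfold hAv
      rw [Finset.sum_congr rfl hb]
      simp only [Finset.sum_const, Nat.card_Ioc, nsmul_eq_mul, mul_one]
      rw [show 2 * J - J = J by omega]
      exact div_self hJ.ne'
    rw [hc, mul_one]
    unfold armI
    rw [if_pos h, if_pos ha]
  · have : armI N 0 (10 * J + 2) ω = 0 := by
      unfold armI
      rw [if_neg h]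
    rw [this]
    exact mul_nonneg (armI_nonneg _ _ _ _) (hAv_nonneg _ _ _ _)

end C3

open C3 in
theorem c_prodBound (ht : S_transfer) (h1 : S_armBasic) (hg : S_gadget) : S_prodBound := by
  have _ := hg
  intro N j J hj hJ u hu0 hu1
  have hF : ∀ ω, armI N 0 (10 * J + 2) ω ≤ hAv N j J ω := by
    intro ω
    refine (F_le h1 N j J hj ω).trans ?_
    calc armI N 0 (5 * j + 2) ω * hAv N j J ω ≤ 1 * hAv N j J ω :=
          mul_le_mul_of_nonneg_right (armI_le_one _ _ _ _) (hAv_nonneg _ _ _ _)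
      _ = hAv N j J ω := one_mul _
  have h2 : Noise.E (fun ω => armI N 0 (10 * J + 2) ω *
      Noise.T iotaG u (armI N 0 (10 * J + 2)) ω) ≤
      Noise.E (fun ω => armI N 0 (5 * j + 2) ω *
        (hAv N j J ω * Noise.T iotaG u (hAv N j J) ω)) := by
    refine E_mono _ _ (fun ω => ?_)
    have a := F_le h1 N j J hj ω
    have b := T_mono iotaG u hu0 hu1 _ _ hF ω
    have c := T_nonneg iotaG u hu0 hu1 (armI N 0 (10 * J + 2)) (fun ω => armI_nonneg _ _ _ ω) ω
    calc armI N 0 (10 * J + 2) ω * Noise.T iotaG u (armI N 0 (10 * J + 2)) ω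
        ≤ (armI N 0 (5 * j + 2) ω * hAv N j J ω) * Noise.T iotaG u (hAv N j J) ω :=
          mul_le_mul a b c (mul_nonneg (armI_nonneg _ _ _ _) (hAv_nonneg _ _ _ _))
      _ = _ := by ring
  refine h2.trans (le_of_eq ?_)
  have hdep : DepC (fun v => ¬ inn N j v)
      (fun ω => hAv N j J ω * Noise.T iotaG u (hAv N j J) ω) := by
    intro ω ω' hw
    have a := hAv_dep h1 N j J ω ω' hw
    have b := T_dep iotaG u _ _ (hAv_dep h1 N j J) ω ω' hw
    show hAv N j J ω * _ = hAv N j J ω' * _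
    rw [a, b]
  have h3 := E_mul (inn N j) (armI N 0 (5 * j + 2)) _ (armI_inner h1 N j) hdep
  rw [h3, ht.2 N 0 (5 * j + 2) le_rfl (by positivity) (by omega)]

end TriX
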