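import Pool.Agent.EX.Spec3

/-! Project EX (MP_68260e), module C4: the integrated correlation. -/

set_option autoImplicit false

open MeasureTheory

namespace TriX

/-- The scales. -/
def c4j : ℕ → ℕ
  | 0 => 0
  | (k + 1) => 2 ^ k

theorem c4j_mono : Monotone c4j := by
  apply monotone_nat_of_le_succ
  intro n
  cases n with
  | zero => exact Nat.zero_le _
  | succ n =>
    change 2 ^ n ≤ 2 ^ (n + 1)
    exact Nat.pow_le_pow_right (by norm_num) (Nat.le_succ n)

theorem c4j_ge (k : ℕ) : 2 ^ k ≤ 5 * c4j k + 2 := by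
  cases k with
  | zero => norm_num [c4j]
  | succ k =>
    change 2 ^ (k + 1) ≤ 5 * 2 ^ k + 2
    rw [pow_succ]
    have := Nat.zero_le (2 ^ k)
    omega

theorem c4j_succ (k : ℕ) : 5 * c4j (k + 1) + 2 ≤ 4 * (5 * c4j k + 2 + 1) := by
  cases k with
  | zero => norm_num [c4j]
  | succ k =>
    change 5 * 2 ^ (k + 1) + 2 ≤ 4 * (5 * 2 ^ k + 2 + 1)
    rw [pow_succ]
    have := Nat.zero_le (2 ^ k)
    omega

theorem c4j_last (J : ℕ) (hJ : 1 ≤ J) :
    ∃ n, c4j n < J ∧ 10 * J + 2 ≤ 4 * (5 * c4j n + 2 + 1) := by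
  have hex : ∃ n, J ≤ 2 ^ n := ⟨J, Nat.lt_two_pow_self.le⟩
  classical
  have h1 := Nat.find_spec hex
  have h2 := fun m (hm : m < Nat.find hex) => Nat.find_min hex hm
  set n := Nat.find hex
  refine ⟨n, ?_, ?_⟩
  · rcases n with _ | n
    · exact hJ
    · exact not_le.1 (h2 n (Nat.lt_succ_self n))
  · rcases n with _ | n
    · change 10 * J + 2 ≤ 4 * (5 * 0 + 2 + 1)
      rw [pow_zero] at h1
      omega
    · change 10 * J + 2 ≤ 4 * (5 * 2 ^ n + 2 + 1)
      rw [pow_succ] at h1
      omega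

section

variable {I X : Type} [Fintype I] [DecidableEq I] [Fintype X]

omit [Fintype X] in
theorem c4_T_le (ι : X → X) (u : ℝ) (h0 : 0 ≤ u) (h1 : u ≤ 1) (f : (I → X) → ℝ)
    (hf : ∀ ω, f ω ≤ 1) (ω : I → X) : Noise.T ι u f ω ≤ 1 := by
  unfold Noise.T
  have h2 := Fintype.sum_pow_mul_eq_add_pow I ((1 - u) / 2) ((1 + u) / 2)
  have h3 : (1 - u) / 2 + (1 + u) / 2 = 1 := by ring
  rw [h3, one_pow] at h2
  refine (Finset.sum_le_sum (g := fun U : Finset I =>
    ((1 - u) / 2) ^ U.card * ((1 + u) / 2) ^ (Fintype.card I - U.card))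
    fun U _ => ?_).trans h2.le
  have h4 : 0 ≤ ((1 - u) / 2) ^ U.card * ((1 + u) / 2) ^ (Fintype.card I - U.card) :=
    mul_nonneg (pow_nonneg (by linarith) _) (pow_nonneg (by linarith) _)
  calc _ ≤ ((1 - u) / 2) ^ U.card * ((1 + u) / 2) ^ (Fintype.card I - U.card) * 1 :=
        mul_le_mul_of_nonneg_left (hf _) h4
    _ = _ := mul_one _

theorem c4_E_mono {f g : (I → X) → ℝ} (h : ∀ ω, f ω ≤ g ω) : Noise.E f ≤ Noise.E g := by
  unfold Noise.E
  exact div_le_div_of_nonneg_right (Finset.sum_le_sum fun ω _ => h ω) (Nat.cast_nonneg _)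

theorem c4_cont (ι : X → X) (f : (I → X) → ℝ) :
    Continuous fun u : ℝ => Noise.E (fun ω => f ω * Noise.T ι u f ω) := by
  unfold Noise.E Noise.T
  fun_prop

end

/-- The integral over a piece. -/
theorem c4_piece {Φ : ℝ → ℝ} (hΦ : Continuous Φ) {p q M : ℝ} (hpq : p ≤ q)
    (h : ∀ u ∈ Set.Ioo p q, Φ u ≤ M) : ∫ u in p..q, Φ u ≤ (q - p) * M := by
  have h1 : ∫ _ in p..q, M = (q - p) * M := by
    rw [intervalIntegral.integral_const, smul_eq_mul]
  rw [← h1]
  exact intervalIntegral.integral_mono_on_of_le_Ioo hpq (hΦ.intervalIntegrable _ _)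
    (continuous_const.intervalIntegrable _ _) h

theorem c_intBound (hc : S_corr) (hp : S_prodBound) (hq : S_QM) (hl : S_alLow)
    (ht : S_transfer) (h1 : S_armBasic) : S_intBound := by
  classical
  obtain ⟨C1, ε, hC1, hε, hc⟩ := hc
  obtain ⟨hq1, -, c, hcpos, hq3⟩ := hq
  obtain ⟨cl, hcl, hl⟩ := hl 4
  set q : ℝ := (2 : ℝ) ^ (-(ε / 2)) with hqdef
  have hqpos : 0 < q := Real.rpow_pos_of_pos (by norm_num) _
  have hqlt : q < 1 := Real.rpow_lt_one_of_one_lt_of_neg (by norm_num) (by linarith)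
  set d : ℝ := c * cl with hd
  have hdpos : 0 < d := mul_pos hcpos hcl
  set K : ℝ := 1 / (c * d) ^ 2 with hK
  have hKpos : 0 < K := by positivity
  set a0 : ℝ := al 0 2 with ha0
  have ha0pos : 0 < a0 := (hq1 0 2 le_rfl (by norm_num)).1
  refine ⟨2 * K / a0 + 2 * K * Real.sqrt C1 / (d * (1 - q)) + Real.sqrt C1 / d, ?_, ?_⟩
  · have : 0 < 1 - q := by linarith
    positivity
  intro N J hJ hN
  set A : ℝ := al 0 (10 * (J : ℤ) + 2) with hA
  have hApos : 0 < A := (hq1 0 (10 * (J : ℤ) + 2) le_rfl (by positivity)).1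
  set Φ : ℝ → ℝ := fun u => Noise.E (fun ω => armI N 0 (10 * (J : ℤ) + 2) ω *
    Noise.T iotaG u (armI N 0 (10 * (J : ℤ) + 2)) ω) with hΦ
  have hΦc : Continuous Φ := c4_cont iotaG (armI N 0 (10 * (J : ℤ) + 2))
  -- the radii and the arm probabilities of the scales
  set r : ℕ → ℤ := fun k => 5 * (c4j k : ℤ) + 2 with hr
  set a : ℕ → ℝ := fun k => al 0 (r k) with ha
  have hr0 : ∀ k, 0 ≤ r k := fun k => by
    simp only [hr]
    positivity
  have hapos : ∀ k, 0 < a k := fun k => (hq1 0 (r k) le_rfl (hr0 k)).1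
  have hale : ∀ k, a k ≤ 1 := fun k => (hq1 0 (r k) le_rfl (hr0 k)).2
  have hstep : ∀ k, d * a k ≤ a (k + 1) := by
    intro k
    have hmono : r k ≤ r (k + 1) := by
      have := c4j_mono (Nat.le_succ k)
      simp only [hr]
      have h2 : (c4j k : ℤ) ≤ c4j (k + 1) := by exact_mod_cast this
      linarith
    have h2 := hq3 0 (r k) (r (k + 1)) le_rfl (hr0 k) hmono
    have h3 : cl ≤ al (r k) (r (k + 1)) := by
      refine hl (r k) (r (k + 1)) (hr0 k) hmono ?_
      have := c4j_succ k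
      simp only [hr]
      exact_mod_cast this
    have h4 : c * (a k * cl) ≤ c * (al 0 (r k) * al (r k) (r (k + 1))) :=
      mul_le_mul_of_nonneg_left (mul_le_mul_of_nonneg_left h3 (hapos k).le) hcpos.le
    calc d * a k = c * (a k * cl) := by rw [hd]; ring
      _ ≤ _ := h4
      _ ≤ _ := h2
  obtain ⟨n, hn1, hn2⟩ := c4j_last J hJ
  -- the last scale
  have hlast : d * a n ≤ A := by
    have hmono : r n ≤ 10 * (J : ℤ) + 2 := by
      simp only [hr]
      have h2 : (c4j n : ℤ) < J := by exact_mod_cast hn1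
      linarith
    have h2 := hq3 0 (r n) (10 * (J : ℤ) + 2) le_rfl (hr0 n) hmono
    have h3 : cl ≤ al (r n) (10 * (J : ℤ) + 2) := by
      refine hl (r n) (10 * (J : ℤ) + 2) (hr0 n) hmono ?_
      simp only [hr]
      exact_mod_cast hn2
    calc d * a n = c * (a n * cl) := by rw [hd]; ring
      _ ≤ c * (al 0 (r n) * al (r n) (10 * (J : ℤ) + 2)) :=
        mul_le_mul_of_nonneg_left (mul_le_mul_of_nonneg_left h3 (hapos n).le) hcpos.le
      _ ≤ _ := h2
  -- the radius `5 J + 2`
  set R : ℤ := 5 * (J : ℤ) + 2 with hR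
  have hR0 : 0 ≤ R := by simp only [hR]; positivity
  have hRA : d * al 0 R ≤ A := by
    have hmono : R ≤ 10 * (J : ℤ) + 2 := by
      simp only [hR]
      have : (0 : ℤ) ≤ J := Nat.cast_nonneg J
      linarith
    have h2 := hq3 0 R (10 * (J : ℤ) + 2) le_rfl hR0 hmono
    have h3 : cl ≤ al R (10 * (J : ℤ) + 2) := by
      refine hl R (10 * (J : ℤ) + 2) hR0 hmono ?_
      simp only [hR]
      have : (0 : ℤ) ≤ J := Nat.cast_nonneg J
      push_cast
      linarith
    have h4 : 0 < al 0 R := (hq1 0 R le_rfl hR0).1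
    calc d * al 0 R = c * (al 0 R * cl) := by rw [hd]; ring
      _ ≤ c * (al 0 R * al R (10 * (J : ℤ) + 2)) :=
        mul_le_mul_of_nonneg_left (mul_le_mul_of_nonneg_left h3 h4.le) hcpos.le
      _ ≤ _ := h2
  -- the bound at scale `k`
  set b : ℕ → ℝ := fun k => C1 * ((5 * (c4j k : ℝ) + 2)) ^ (-ε) * a k ^ 2 with hb
  have hbpos : ∀ k, 0 < b k := fun k => by
    simp only [hb]
    have h2 : (0 : ℝ) < 5 * (c4j k : ℝ) + 2 := by positivity
    have h3 := hapos k
    have h4 := Real.rpow_pos_of_pos h2 (-ε)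
    positivity
  have hscale : ∀ k, k ≤ n → ∀ t : ℝ, 0 < t → t ≤ 1 → b k ≤ t ^ 2 →
      Φ (1 - t) ≤ 2 * K * A ^ 2 / a k := by
    intro k hk t ht0 ht1 hbt
    have hjk : c4j k < J := (c4j_mono hk).trans_lt hn1
    have h2 := hp N (c4j k) J hjk hN (1 - t) (by linarith) (by linarith)
    have h3 := hc N (c4j k) J hjk hN t ht0 ht1
    have h4 : Φ (1 - t) ≤ a k * (al (r k) R ^ 2 * (1 + b k / t ^ 2)) := by
      refine h2.trans ?_
      have h5 : a k * _ ≤ a k * _ := mul_le_mul_of_nonneg_left h3 (hapos k).le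
      exact h5
    have hkR : r k ≤ R := by
      simp only [hr, hR]
      have : (c4j k : ℤ) < J := by exact_mod_cast hjk
      linarith
    have h5 : a k * al (r k) R ≤ A / (c * d) := by
      have h6 := hq3 0 (r k) R le_rfl (hr0 k) hkR
      rw [le_div_iff₀ (by positivity)]
      calc a k * al (r k) R * (c * d) = d * (c * (al 0 (r k) * al (r k) R)) := by
            simp only [ha]; ring
        _ ≤ d * al 0 R := mul_le_mul_of_nonneg_left h6 hdpos.le
        _ ≤ A := hRA
    have h6 : 0 < al (r k) R := (hq1 (r k) R (hr0 k) hkR).1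
    have h7 : (a k * al (r k) R) ^ 2 ≤ (A / (c * d)) ^ 2 :=
      pow_le_pow_left₀ (mul_nonneg (hapos k).le h6.le) h5 2
    have h8 : 1 + b k / t ^ 2 ≤ 2 := by
      have : b k / t ^ 2 ≤ 1 := by
        rw [div_le_one (by positivity)]
        exact hbt
      linarith
    have h9 : a k * (al (r k) R ^ 2 * (1 + b k / t ^ 2)) =
        (a k * al (r k) R) ^ 2 * (1 + b k / t ^ 2) / a k := by
      have := (hapos k).ne'
      field_simp
    rw [h9] at h4
    refine h4.trans ?_
    have h10 : 2 * K * A ^ 2 = (A / (c * d)) ^ 2 * 2 := by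
      rw [hK]
      field_simp
    rw [h10]
    refine div_le_div_of_nonneg_right ?_ (hapos k).le
    exact mul_le_mul h7 h8 (by have := hbpos k; positivity) (by positivity)
  -- the trivial bound
  have htriv : ∀ u, 0 ≤ u → u ≤ 1 → Φ u ≤ A := by
    intro u hu0 hu1
    have h2 : Noise.E (armI N 0 (10 * (J : ℤ) + 2)) = A := by
      refine ht.2 N 0 (10 * (J : ℤ) + 2) le_rfl (by positivity) ?_
      have : (2 * J : ℤ) ≤ N := by exact_mod_cast hN
      linarith
    rw [← h2]
    refine c4_E_mono fun ω => ?_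
    have h3 : 0 ≤ armI N 0 (10 * (J : ℤ) + 2) ω := by
      unfold armI
      split <;> norm_num
    have h4 : Noise.T iotaG u (armI N 0 (10 * (J : ℤ) + 2)) ω ≤ 1 :=
      c4_T_le iotaG u hu0 hu1 _ (fun ω => by unfold armI; split <;> norm_num) ω
    calc _ ≤ armI N 0 (10 * (J : ℤ) + 2) ω * 1 := mul_le_mul_of_nonneg_left h4 h3
      _ = _ := mul_one _
  -- the break points
  set x : ℕ → ℝ := fun k => min 1 (Real.sqrt (b k)) with hx
  have hx0 : ∀ k, 0 ≤ x k := fun k => le_min zero_le_one (Real.sqrt_nonneg _)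
  have hx1 : ∀ k, x k ≤ 1 := fun k => min_le_left _ _
  have hxb : ∀ k t, x k < t → t < 1 → b k ≤ t ^ 2 := by
    intro k t h2 h3
    have h4 : Real.sqrt (b k) < t := by
      rcases min_lt_iff.1 h2 with h5 | h5
      · linarith
      · exact h5
    exact (Real.sqrt_le_left ((Real.sqrt_nonneg _).trans h4.le)).1 h4.le
  -- estimate of the square roots
  have hsq : ∀ k, x k ≤ Real.sqrt C1 * q ^ k * a k := by
    intro k
    refine (min_le_right _ _).trans ?_
    rw [Real.sqrt_le_left (by have := hapos k; positivity)]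
    have h2 : ((5 * (c4j k : ℝ) + 2)) ^ (-ε) ≤ (q ^ k) ^ 2 := by
      have h3 : (q ^ k) ^ 2 = ((2 : ℝ) ^ k) ^ (-ε) := by
        have e1 : (q ^ k) ^ 2 = (2 : ℝ) ^ ((-(ε / 2)) * ((k * 2 : ℕ) : ℝ)) := by
          rw [← pow_mul, hqdef, Real.rpow_mul (by norm_num), Real.rpow_natCast]
        have e2 : ((2 : ℝ) ^ k) ^ (-ε) = (2 : ℝ) ^ ((k : ℝ) * (-ε)) := by
          rw [Real.rpow_mul (by norm_num), Real.rpow_natCast]
        rw [e1, e2]
        congr 1
        push_cast
        ring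
      rw [h3]
      apply Real.rpow_le_rpow_of_nonpos (by positivity) ?_ (by linarith)
      have := c4j_ge k
      exact_mod_cast this
    calc b k = C1 * ((5 * (c4j k : ℝ) + 2)) ^ (-ε) * a k ^ 2 := rfl
      _ ≤ C1 * (q ^ k) ^ 2 * a k ^ 2 := by
        refine mul_le_mul_of_nonneg_right (mul_le_mul_of_nonneg_left h2 hC1.le) (sq_nonneg _)
      _ = (Real.sqrt C1 * q ^ k * a k) ^ 2 := by
        rw [mul_pow, mul_pow, Real.sq_sqrt hC1.le]
  -- the integral up to the break points
  have hmain : ∀ k, k ≤ n → ∃ y : ℝ, 0 ≤ y ∧ y ≤ 1 ∧ 1 - x k ≤ y ∧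
      ∫ u in (0 : ℝ)..y, Φ u ≤ 2 * K * A ^ 2 / a0 +
        2 * K * A ^ 2 * (Real.sqrt C1 / d) * ∑ i ∈ Finset.range k, q ^ i := by
    intro k
    induction k with
    | zero =>
      intro _
      refine ⟨1 - x 0, by linarith [hx1 0], by linarith [hx0 0], le_rfl, ?_⟩
      have h2 : ∫ u in (0 : ℝ)..(1 - x 0), Φ u ≤ (1 - x 0 - 0) * (2 * K * A ^ 2 / a 0) := by
        refine c4_piece hΦc (by linarith [hx1 0]) fun u hu => ?_
        have h3 := hscale 0 (Nat.zero_le n) (1 - u) (by linarith [hu.2, hx0 0]) (by linarith [hu.1])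
          (hxb 0 (1 - u) (by linarith [hu.2]) (by linarith [hu.1]))
        rwa [sub_sub_cancel] at h3
      refine h2.trans ?_
      have h3 : a 0 = a0 := by
        simp only [ha, hr, ha0, c4j]
        norm_num
      rw [h3, Finset.range_zero, Finset.sum_empty, mul_zero, add_zero, sub_zero]
      have h4 : 0 ≤ 2 * K * A ^ 2 / a0 := by positivity
      have h5 : 1 - x 0 ≤ 1 := by linarith [hx0 0]
      calc _ ≤ 1 * (2 * K * A ^ 2 / a0) := mul_le_mul_of_nonneg_right h5 h4
        _ = _ := one_mul _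
    | succ k ih =>
      intro hk
      obtain ⟨y, hy0, hy1, hyx, hy⟩ := ih (by omega)
      have h6 : ∀ y' : ℝ, y ≤ y' → y' ≤ 1 → y' ≤ max y (1 - x (k + 1)) →
          ∫ u in (0 : ℝ)..y', Φ u ≤ 2 * K * A ^ 2 / a0 +
            2 * K * A ^ 2 * (Real.sqrt C1 / d) * ∑ i ∈ Finset.range (k + 1), q ^ i := by
        intro y' hyy' hy'1 hy'2
        rw [← intervalIntegral.integral_add_adjacent_intervals
          (hΦc.intervalIntegrable 0 y) (hΦc.intervalIntegrable y y')]
        have h7 : ∫ u in y..y', Φ u ≤ (y' - y) * (2 * K * A ^ 2 / a (k + 1)) := by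
          refine c4_piece hΦc hyy' fun u hu => ?_
          have h8 : u < 1 - x (k + 1) := by
            have h9 := hu.2.trans_le hy'2
            rcases lt_max_iff.1 h9 with h10 | h10
            · exact absurd h10 (not_lt.2 hu.1.le)
            · exact h10
          have h3 := hscale (k + 1) hk (1 - u) (by linarith [hu.2, hx0 (k + 1)])
            (by linarith [hu.1])
            (hxb (k + 1) (1 - u) (by linarith) (by
              rcases eq_or_lt_of_le hy0 with h0 | h0
              · linarith [hu.1]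
              · linarith [hu.1]))
          rwa [sub_sub_cancel] at h3
        have h8 : (y' - y) * (2 * K * A ^ 2 / a (k + 1)) ≤
            2 * K * A ^ 2 * (Real.sqrt C1 / d) * q ^ k := by
          have h9 : y' - y ≤ Real.sqrt C1 * q ^ k * a k := by
            have := hsq k
            linarith
          have h10 : a k ≤ a (k + 1) / d := by
            rw [le_div_iff₀ hdpos]
            linarith [hstep k]
          have h11 : y' - y ≤ Real.sqrt C1 * q ^ k * (a (k + 1) / d) :=
            h9.trans (mul_le_mul_of_nonneg_left h10 (by positivity))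
          have h12 := hapos (k + 1)
          calc (y' - y) * (2 * K * A ^ 2 / a (k + 1)) ≤
              (Real.sqrt C1 * q ^ k * (a (k + 1) / d)) * (2 * K * A ^ 2 / a (k + 1)) :=
                mul_le_mul_of_nonneg_right h11 (by positivity)
            _ = _ := by
              field_simp
        rw [Finset.sum_range_succ, mul_add]
        linarith
      refine ⟨max y (1 - x (k + 1)), hy0.trans (le_max_left _ _),
        max_le hy1 (by linarith [hx0 (k + 1)]), le_max_right _ _, ?_⟩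
      exact h6 _ (le_max_left _ _) (max_le hy1 (by linarith [hx0 (k + 1)])) le_rfl
  obtain ⟨y, hy0, hy1, hyx, hy⟩ := hmain n le_rfl
  rw [← intervalIntegral.integral_add_adjacent_intervals
    (hΦc.intervalIntegrable 0 y) (hΦc.intervalIntegrable y 1)]
  have hend : ∫ u in y..1, Φ u ≤ (1 - y) * A :=
    c4_piece hΦc hy1 fun u hu => htriv u (by linarith [hu.1]) hu.2.le
  have hend2 : (1 - y) * A ≤ Real.sqrt C1 / d * A ^ 2 := by
    have h2 : 1 - y ≤ Real.sqrt C1 * q ^ n * a n := by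
      have := hsq n
      linarith
    have h3 : q ^ n ≤ 1 := pow_le_one₀ hqpos.le hqlt.le
    have h4 : a n ≤ A / d := by
      rw [le_div_iff₀ hdpos]
      linarith
    have h5 : 1 - y ≤ Real.sqrt C1 * 1 * (A / d) := by
      refine h2.trans ?_
      exact mul_le_mul (mul_le_mul_of_nonneg_left h3 (Real.sqrt_nonneg _)) h4 (hapos n).le
        (by positivity)
    calc (1 - y) * A ≤ (Real.sqrt C1 * 1 * (A / d)) * A :=
          mul_le_mul_of_nonneg_right h5 hApos.le
      _ = _ := by ring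
  have hgeom : ∑ i ∈ Finset.range n, q ^ i ≤ 1 / (1 - q) := by
    rw [geom_sum_eq hqlt.ne, ← neg_div_neg_eq, neg_sub, neg_sub]
    refine div_le_div_of_nonneg_right ?_ (by linarith)
    have : 0 < q ^ n := by positivity
    linarith
  have h2 : 2 * K * A ^ 2 * (Real.sqrt C1 / d) * ∑ i ∈ Finset.range n, q ^ i ≤
      2 * K * A ^ 2 * (Real.sqrt C1 / d) * (1 / (1 - q)) :=
    mul_le_mul_of_nonneg_left hgeom (by positivity)
  have h3 : (2 * K / a0 + 2 * K * Real.sqrt C1 / (d * (1 - q)) + Real.sqrt C1 / d) * A ^ 2 =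
      2 * K * A ^ 2 / a0 + 2 * K * A ^ 2 * (Real.sqrt C1 / d) * (1 / (1 - q)) +
        Real.sqrt C1 / d * A ^ 2 := by
    have : 1 - q ≠ 0 := by linarith
    field_simp
  rw [h3]
  linarith

end TriX
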