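import Pool.Agent.EX.Spec3
import Pool.Agent.EX.A1

/-! EX-C5: the chain on sets, centred anywhere. -/

set_option autoImplicit false

open MeasureTheory

namespace TriX

namespace C5

/-! ### block configurations -/

def st (N : ℕ) (s : Ix N × Cell) : V := site N s.1 s.2

lemma st_inj (N : ℕ) : Function.Injective (st N) := by
  rintro ⟨⟨v1, v2⟩, ⟨c1, c2⟩⟩ ⟨⟨w1, w2⟩, ⟨d1, d2⟩⟩ h
  unfold st site posC at h
  have h1 := congrArg Prod.fst h
  have h2 := congrArg Prod.snd h
  simp only at h1 h2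
  have a1 := v1.isLt
  have a2 := v2.isLt
  have a3 := w1.isLt
  have a4 := w2.isLt
  have a5 := c1.isLt
  have a6 := c2.isLt
  have a7 := d1.isLt
  have a8 := d2.isLt
  have e1 : v1 = w1 := Fin.ext (by omega)
  have e2 : v2 = w2 := Fin.ext (by omega)
  have e3 : c1 = d1 := Fin.ext (by omega)
  have e4 : c2 = d2 := Fin.ext (by omega)
  rw [e1, e2, e3, e4]

lemma mem_ball {r : ℤ} {x v : V} : v ∈ Ball x r ↔
    x.1 - r ≤ v.1 ∧ v.1 ≤ x.1 + r ∧ x.2 - r ≤ v.2 ∧ v.2 ≤ x.2 + r := by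
  unfold Ball
  simp only [Set.mem_ofPred_eq, abs_le]
  omega

lemma st_mem (N : ℕ) (s : Ix N × Cell) : st N s ∈ Ball 0 (5 * N + 2) := by
  obtain ⟨⟨v1, v2⟩, ⟨c1, c2⟩⟩ := s
  rw [mem_ball]
  unfold st site posC
  simp only [Prod.fst_zero, Prod.snd_zero]
  have a1 := v1.isLt
  have a2 := v2.isLt
  have a5 := c1.isLt
  have a6 := c2.isLt
  omega

lemma st_surj (N : ℕ) {x : V} (hx : x ∈ Ball 0 (5 * N + 2)) : ∃ s, st N s = x := by
  rw [mem_ball] at hx
  simp only [Prod.fst_zero, Prod.snd_zero] at hx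
  have b1 : ((x.1 + 5 * N + 2) / 5).toNat < 2 * N + 1 := by omega
  have b2 : ((x.2 + 5 * N + 2) / 5).toNat < 2 * N + 1 := by omega
  have b3 : ((x.1 + 5 * N + 2) % 5).toNat < 5 := by omega
  have b4 : ((x.2 + 5 * N + 2) % 5).toNat < 5 := by omega
  refine ⟨((⟨_, b1⟩, ⟨_, b2⟩), (⟨_, b3⟩, ⟨_, b4⟩)), ?_⟩
  unfold st site posC
  ext
  · simp only
    omega
  · simp only
    omega

lemma mem_cfg {N : ℕ} {ω : Ix N → BX} {x : V} :
    x ∈ cfg N ω ↔ ∃ s : Ix N × Cell, x = st N s ∧ (ω s.1).1 s.2 = true := by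
  constructor
  · rintro ⟨v, c, h1, h2⟩
    exact ⟨(v, c), h1, h2⟩
  · rintro ⟨⟨v, c⟩, h1, h2⟩
    exact ⟨v, c, h1, h2⟩

lemma mem_cfg_st {N : ℕ} {ω : Ix N → BX} {s : Ix N × Cell} :
    st N s ∈ cfg N ω ↔ (ω s.1).1 s.2 = true := by
  rw [mem_cfg]
  constructor
  · rintro ⟨t, h1, h2⟩
    have := st_inj N h1
    rw [this]
    exact h2
  · intro h
    exact ⟨s, rfl, h⟩

lemma swapω_apply {N : ℕ} (s s' t : Ix N × Cell) (ω : Ix N → BX) :
    (swapω N s s' ω t.1).1 t.2 = (ω (Equiv.swap s s' t).1).1 (Equiv.swap s s' t).2 := rfl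

lemma cfg_swap (N : ℕ) (s s' : Ix N × Cell) (ω : Ix N → BX) :
    cfg N (swapω N s s' ω) = {x | Equiv.swap (st N s) (st N s') x ∈ cfg N ω} := by
  ext x
  rw [Set.mem_ofPred_eq]
  by_cases hx : x ∈ Ball 0 (5 * N + 2)
  · obtain ⟨t, rfl⟩ := st_surj N hx
    rw [mem_cfg_st, (st_inj N).swap_apply, mem_cfg_st, swapω_apply]
  · have h1 : x ∉ cfg N (swapω N s s' ω) := by
      intro h
      rw [mem_cfg] at h
      obtain ⟨t, rfl, _⟩ := h
      exact hx (st_mem N t)
    have h2 : Equiv.swap (st N s) (st N s') x = x := by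
      refine Equiv.swap_apply_of_ne_of_ne ?_ ?_
      · rintro rfl
        exact hx (st_mem N s)
      · rintro rfl
        exact hx (st_mem N s')
    rw [h2]
    constructor
    · intro h
      exact absurd h h1
    · intro h
      rw [mem_cfg] at h
      obtain ⟨t, rfl, _⟩ := h
      exact absurd (st_mem N t) hx

/-! ### edges -/

lemma dir_inj : Function.Injective dir := by
  intro i j h
  fin_cases i <;> fin_cases j <;> simp [dir] at h ⊢

lemma dir_add_ne (i j : Fin 3) : dir i + dir j ≠ 0 := by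
  fin_cases i <;> fin_cases j <;> simp [dir]

lemma adj_iff {u v : V} : Adj u v ↔ (∃ i, v = u + dir i) ∨ (∃ i, u = v + dir i) := by
  constructor
  · intro h
    unfold Adj at h
    rcases h with h | h | h | h | h | h
    · left; refine ⟨0, ?_⟩; ext <;> simp [dir, h.1, h.2]
    · right; refine ⟨0, ?_⟩; ext <;> simp [dir, h.1, h.2]
    · left; refine ⟨1, ?_⟩; ext <;> simp [dir, h.1, h.2]
    · right; refine ⟨1, ?_⟩; ext <;> simp [dir, h.1, h.2]
    · left; refine ⟨2, ?_⟩; ext <;> simp [dir, h.1, h.2, sub_eq_add_neg]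
    · right; refine ⟨2, ?_⟩; ext <;> simp [dir, h.1, h.2]
  · rintro (⟨i, rfl⟩ | ⟨i, rfl⟩)
    · unfold Adj
      fin_cases i <;> simp [dir, sub_eq_add_neg]
    · unfold Adj
      fin_cases i <;> simp [dir, sub_eq_add_neg]

lemma mem_edgesIn {x : V} {N : ℕ} {e : Edge} :
    e ∈ edgesIn x N ↔ e.1 ∈ Ball x (5 * N + 2) ∧ tgt e ∈ Ball x (5 * N + 2) := by
  classical
  unfold edgesIn
  have h0 : e.1 ∈ Ball x (5 * N + 2) ↔ x.1 - (5 * N + 2) ≤ e.1.1 ∧ e.1.1 ≤ x.1 + (5 * N + 2) ∧
    x.2 - (5 * N + 2) ≤ e.1.2 ∧ e.1.2 ≤ x.2 + (5 * N + 2) := mem_ball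
  simp only [Finset.mem_filter, Finset.mem_product, Finset.mem_Icc, Finset.mem_univ, and_true]
  rw [h0]
  tauto

/-- ordered pairs and edges -/
lemma sum_adj (N : ℕ) (φ : V → V → ℝ) :
    ∑ q ∈ adjPairs N, φ (st N q.1) (st N q.2) =
      ∑ e ∈ edgesIn 0 N, (φ e.1 (tgt e) + φ (tgt e) e.1) := by
  classical
  set A : Finset (V × V) := (edgesIn 0 N).image (fun e => (e.1, tgt e)) with hA
  set A' : Finset (V × V) := (edgesIn 0 N).image (fun e => (tgt e, e.1)) with hA'
  have hinj : Function.Injective (fun q : (Ix N × Cell) × (Ix N × Cell) => (st N q.1, st N q.2)) := by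
    rintro ⟨a, b⟩ ⟨c, d⟩ h
    simp only [Prod.mk.injEq] at h
    rw [st_inj N h.1, st_inj N h.2]
  have hP : (adjPairs N).image (fun q => (st N q.1, st N q.2)) = A ∪ A' := by
    ext ⟨u, v⟩
    simp only [Finset.mem_image, Finset.mem_union, hA, hA', Prod.mk.injEq]
    constructor
    · rintro ⟨q, hq, rfl, rfl⟩
      have hq' : Adj (st N q.1) (st N q.2) := (Finset.mem_filter.1 hq).2
      rcases adj_iff.1 hq' with ⟨i, hi⟩ | ⟨i, hi⟩
      · left
        refine ⟨(st N q.1, i), ?_, rfl, hi.symm⟩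
        rw [mem_edgesIn]
        refine ⟨st_mem N _, ?_⟩
        show st N q.1 + dir i ∈ _
        rw [← hi]
        exact st_mem N _
      · right
        refine ⟨(st N q.2, i), ?_, hi.symm, rfl⟩
        rw [mem_edgesIn]
        refine ⟨st_mem N _, ?_⟩
        show st N q.2 + dir i ∈ _
        rw [← hi]
        exact st_mem N _
    · rintro (⟨e, he, rfl, rfl⟩ | ⟨e, he, rfl, rfl⟩)
      · rw [mem_edgesIn] at he
        obtain ⟨s, hs⟩ := st_surj N he.1
        obtain ⟨t, ht⟩ := st_surj N he.2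
        refine ⟨(s, t), ?_, hs, ht⟩
        unfold adjPairs
        rw [Finset.mem_filter]
        refine ⟨Finset.mem_univ _, ?_⟩
        show Adj (st N s) (st N t)
        rw [hs, ht]
        exact adj_iff.2 (Or.inl ⟨e.2, rfl⟩)
      · rw [mem_edgesIn] at he
        obtain ⟨s, hs⟩ := st_surj N he.1
        obtain ⟨t, ht⟩ := st_surj N he.2
        refine ⟨(t, s), ?_, ht, hs⟩
        unfold adjPairs
        rw [Finset.mem_filter]
        refine ⟨Finset.mem_univ _, ?_⟩
        show Adj (st N t) (st N s)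
        rw [hs, ht]
        exact adj_iff.2 (Or.inr ⟨e.2, rfl⟩)
  have hdisj : Disjoint A A' := by
    rw [Finset.disjoint_left]
    intro p hp hp'
    rw [hA, Finset.mem_image] at hp
    rw [hA', Finset.mem_image] at hp'
    obtain ⟨e, _, rfl⟩ := hp
    obtain ⟨e', _, he'⟩ := hp'
    simp only [Prod.mk.injEq] at he'
    obtain ⟨h1, h2⟩ := he'
    unfold tgt at h1 h2
    apply dir_add_ne e.2 e'.2
    have h3 : e.1 + (dir e.2 + dir e'.2) = e.1 + 0 := by
      rw [← add_assoc, ← h2, h1, add_zero]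
    exact add_left_cancel h3
  have hi1 : Set.InjOn (fun e : Edge => (e.1, tgt e)) (edgesIn 0 N : Set Edge) := by
    rintro ⟨a, i⟩ _ ⟨b, j⟩ _ h
    simp only [Prod.mk.injEq, tgt] at h
    obtain ⟨h1, h2⟩ := h
    subst h1
    rw [dir_inj (add_left_cancel h2)]
  have hi2 : Set.InjOn (fun e : Edge => (tgt e, e.1)) (edgesIn 0 N : Set Edge) := by
    rintro ⟨a, i⟩ _ ⟨b, j⟩ _ h
    simp only [Prod.mk.injEq, tgt] at h
    obtain ⟨h2, h1⟩ := h
    subst h1
    rw [dir_inj (add_left_cancel h2)]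
  calc ∑ q ∈ adjPairs N, φ (st N q.1) (st N q.2)
      = ∑ p ∈ (adjPairs N).image (fun q => (st N q.1, st N q.2)), φ p.1 p.2 := by
        rw [Finset.sum_image fun a _ b _ h => hinj h]
    _ = ∑ p ∈ A, φ p.1 p.2 + ∑ p ∈ A', φ p.1 p.2 := by rw [hP, Finset.sum_union hdisj]
    _ = _ := by
        rw [hA, hA', Finset.sum_image hi1, Finset.sum_image hi2, ← Finset.sum_add_distrib]

lemma card_adj (N : ℕ) : ((adjPairs N).card : ℝ) = 2 * (edgesIn 0 N).card := by
  have h := sum_adj N (fun _ _ => 1)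
  simp only [Finset.sum_const, nsmul_eq_mul, mul_one] at h
  rw [h]
  ring

lemma step_cfg (N : ℕ) (p : ℝ) (F : Set V → ℝ) (ω : Ix N → BX) :
    stepω N p (fun ω => F (cfg N ω)) ω = stepV (edgesIn 0 N) p F (cfg N ω) := by
  unfold stepω stepV
  congr 2
  have h := sum_adj N (fun u v => F {x | Equiv.swap u v x ∈ cfg N ω} - F (cfg N ω))
  simp only [cfg_swap]
  rw [h, Finset.mul_sum]
  refine Finset.sum_congr rfl fun e _ => ?_
  rw [Equiv.swap_comm (tgt e) e.1]
  unfold swapSet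
  ring

lemma iter_cfg (N : ℕ) (p : ℝ) (F : Set V → ℝ) (k : ℕ) :
    (stepω N p)^[k] (fun ω => F (cfg N ω)) = fun ω => ((stepV (edgesIn 0 N) p)^[k] F) (cfg N ω) := by
  induction k with
  | zero => rfl
  | succ k ih =>
    rw [Function.iterate_succ_apply', Function.iterate_succ_apply', ih]
    funext ω
    exact step_cfg N p _ ω

/-! ### finite dependence -/

lemma dep_step {x : V} {N : ℕ} {p : ℝ} {F : Set V → ℝ} (h : DepOn F (Ball x (5 * N + 2))) :
    DepOn (stepV (edgesIn x N) p F) (Ball x (5 * N + 2)) := by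
  intro B B' hB
  have hm : ∀ v ∈ Ball x (5 * N + 2), (v ∈ B ↔ v ∈ B') := by
    intro v hv
    have := Set.ext_iff.1 hB v
    simp only [Set.mem_inter_iff] at this
    tauto
  unfold stepV
  rw [h B B' hB]
  congr 2
  refine Finset.sum_congr rfl fun e he => ?_
  rw [mem_edgesIn] at he
  congr 1
  refine h _ _ ?_
  ext v
  unfold swapSet
  simp only [Set.mem_inter_iff, Set.mem_ofPred_eq]
  refine and_congr_left fun hv => ?_
  refine hm _ ?_
  by_cases h1 : v = e.1
  · rw [h1, Equiv.swap_apply_left]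
    exact he.2
  · by_cases h2 : v = tgt e
    · rw [h2, Equiv.swap_apply_right]
      exact he.1
    · rw [Equiv.swap_apply_of_ne_of_ne h1 h2]
      exact hv

lemma dep_iter {x : V} {N : ℕ} {p : ℝ} {F : Set V → ℝ} (h : DepOn F (Ball x (5 * N + 2))) (k : ℕ) :
    DepOn ((stepV (edgesIn x N) p)^[k] F) (Ball x (5 * N + 2)) := by
  induction k with
  | zero => exact h
  | succ k ih =>
    rw [Function.iterate_succ_apply']
    exact dep_step ih

lemma dep_armV (h1 : S_armBasic) {x : V} {N J : ℕ} (hJ : 2 * J ≤ N) :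
    DepOn (armV x J) (Ball x (5 * N + 2)) := by
  classical
  intro B B' hB
  have h2 := (h1.1 x 0 (10 * J + 2)).2.1
  have h3 : B ∩ Ann x 0 (10 * J + 2) = B' ∩ Ann x 0 (10 * J + 2) := by
    have hsub : Ann x 0 (10 * J + 2) ⊆ Ball x (5 * N + 2) := by
      intro v hv
      have := hv.1
      rw [mem_ball] at this ⊢
      omega
    ext v
    have := Set.ext_iff.1 hB v
    simp only [Set.mem_inter_iff] at this ⊢
    constructor
    · rintro ⟨a, b⟩
      exact ⟨(this.1 ⟨a, hsub b⟩).1, b⟩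
    · rintro ⟨a, b⟩
      exact ⟨(this.2 ⟨a, hsub b⟩).1, b⟩
  have h4 := h2 B B' h3
  unfold armV
  simp only [h4]

/-! ### translation -/

noncomputable def ta (x : V) : V ≃ V := Equiv.addRight x

lemma mem_sh {x v : V} {B : Set V} : v + x ∈ ta x '' B ↔ v ∈ B := by
  constructor
  · rintro ⟨w, hw, h⟩
    have : w = v := add_right_cancel h
    rw [← this]
    exact hw
  · intro h
    exact ⟨v, h, rfl⟩

lemma tgt_sh (x : V) (e : Edge) : tgt (e.1 + x, e.2) = tgt e + x := by
  unfold tgt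
  simp only
  abel

lemma swapSet_sh (x : V) (e : Edge) (B : Set V) :
    swapSet (e.1 + x, e.2) (ta x '' B) = ta x '' (swapSet e B) := by
  ext v
  obtain ⟨w, rfl⟩ : ∃ w, v = w + x := ⟨v - x, by abel⟩
  rw [mem_sh]
  unfold swapSet
  simp only [Set.mem_ofPred_eq]
  rw [tgt_sh]
  have h : Equiv.swap (e.1 + x) (tgt e + x) (w + x) = Equiv.swap e.1 (tgt e) w + x :=
    (add_left_injective x).swap_apply e.1 (tgt e) w
  rw [h, mem_sh]

lemma ball_sh {x v : V} {r : ℤ} : v + x ∈ Ball x r ↔ v ∈ Ball 0 r := by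
  rw [mem_ball, mem_ball]
  simp only [Prod.fst_add, Prod.snd_add, Prod.fst_zero, Prod.snd_zero]
  constructor <;> intro h <;> omega

lemma sum_edges_sh (x : V) (N : ℕ) (g : Edge → ℝ) :
    ∑ e ∈ edgesIn x N, g e = ∑ e ∈ edgesIn 0 N, g (e.1 + x, e.2) := by
  refine Finset.sum_nbij' (fun e => (e.1 - x, e.2)) (fun e => (e.1 + x, e.2)) ?_ ?_ ?_ ?_ ?_
  · intro e he
    rw [mem_edgesIn] at he ⊢
    have h1 : e = ((e.1 - x) + x, e.2) := by
      ext <;> simp
    rw [h1] at he
    have h2 := tgt_sh x (e.1 - x, e.2)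
    simp only at h2
    rw [h2] at he
    exact ⟨ball_sh.1 he.1, ball_sh.1 he.2⟩
  · intro e he
    rw [mem_edgesIn] at he ⊢
    rw [tgt_sh]
    exact ⟨ball_sh.2 he.1, ball_sh.2 he.2⟩
  · intro e _
    ext <;> simp
  · intro e _
    ext <;> simp
  · intro e _
    congr 1
    ext <;> simp

lemma card_edges_sh (x : V) (N : ℕ) : (edgesIn x N).card = (edgesIn 0 N).card := by
  have h := sum_edges_sh x N (fun _ => 1)
  simp only [Finset.sum_const, nsmul_eq_mul, mul_one] at h
  exact_mod_cast h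

lemma step_sh (x : V) (N : ℕ) (p : ℝ) (F : Set V → ℝ) (B : Set V) :
    stepV (edgesIn x N) p F (ta x '' B) = stepV (edgesIn 0 N) p (fun B => F (ta x '' B)) B := by
  unfold stepV
  rw [sum_edges_sh]
  simp only [swapSet_sh]

lemma iter_sh (x : V) (N : ℕ) (p : ℝ) (F : Set V → ℝ) (k : ℕ) :
    (fun B => ((stepV (edgesIn x N) p)^[k] F) (ta x '' B)) =
      (stepV (edgesIn 0 N) p)^[k] (fun B => F (ta x '' B)) := by
  induction k with
  | zero => rfl
  | succ k ih =>
    rw [Function.iterate_succ_apply', Function.iterate_succ_apply', ← ih]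
    funext B
    exact step_sh x N p _ B

lemma Ex_sh (hE : S_ExAvg) (x : V) (r : ℤ) (F : Set V → ℝ) (hF : DepOn F (Ball x r)) :
    Ex F = Ex (fun B => F (ta x '' B)) := by
  classical
  have hfin : (Ball (0 : V) r).Finite := a1_ball_finite 0 r
  set S0 : Finset V := hfin.toFinset with hS0
  set Sx : Finset V := S0.map (ta x).toEmbedding with hSx
  have c0 : (S0 : Set V) = Ball 0 r := by rw [hS0]; exact hfin.coe_toFinset
  have cx : (Sx : Set V) = Ball x r := by
    rw [hSx, Finset.coe_map, c0]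
    ext v
    obtain ⟨w, rfl⟩ : ∃ w, v = w + x := ⟨v - x, by abel⟩
    rw [ball_sh]
    exact mem_sh
  have d0 : DepOn (fun B => F (ta x '' B)) (S0 : Set V) := by
    intro B B' hB
    rw [c0] at hB
    refine hF _ _ ?_
    ext v
    obtain ⟨w, rfl⟩ : ∃ w, v = w + x := ⟨v - x, by abel⟩
    simp only [Set.mem_inter_iff, mem_sh, ball_sh]
    have := Set.ext_iff.1 hB w
    simpa only [Set.mem_inter_iff] using this
  rw [hE V F Sx (by rw [cx]; exact hF), hE V _ S0 d0]
  have hcard : Sx.card = S0.card := by rw [hSx, Finset.card_map]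
  rw [hcard]
  congr 1
  symm
  refine Finset.sum_nbij' (fun A => A.map (ta x).toEmbedding) (fun A => A.map (ta x).symm.toEmbedding)
    ?_ ?_ ?_ ?_ ?_
  · intro A hA
    rw [Finset.mem_powerset] at hA ⊢
    exact Finset.map_subset_map.2 hA
  · intro A hA
    rw [Finset.mem_powerset] at hA ⊢
    intro v hv
    rw [Finset.mem_map] at hv
    obtain ⟨w, hw, rfl⟩ := hv
    have h1 := hA hw
    rw [hSx, Finset.mem_map] at h1
    obtain ⟨u, hu, rfl⟩ := h1
    simpa using hu
  · intro A _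
    ext v
    simp
  · intro A _
    ext v
    simp
  · intro A _
    rw [Finset.coe_map]
    rfl

lemma arith1 {M m : ℝ} (hM : 0 ≤ M) (hm : 2 * (M + 1) ≤ m) :
    Real.exp (-(M / m)) / m * (2 * M) ≤ 1 := by
  have cm0 : 0 < m := by linarith
  have hexp1 : Real.exp (-(M / m)) ≤ 1 := by
    rw [Real.exp_le_one_iff]
    have : 0 ≤ M / m := by positivity
    linarith
  calc Real.exp (-(M / m)) / m * (2 * M) ≤ 1 / m * (2 * M) := by
        gcongr
    _ = 2 * M / m := by ring
    _ ≤ 1 := by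
        rw [div_le_one cm0]
        linarith

lemma arith2 {M m : ℝ} (hM : 0 ≤ M) (hm : 2 * (M + 1) ≤ m) :
    1 / 2 ≤ (m - 1) * (Real.exp (-(M / m)) / m) := by
  have cm0 : 0 < m := by linarith
  have hexp2 : 1 - M / m ≤ Real.exp (-(M / m)) := by
    have := Real.add_one_le_exp (-(M / m))
    linarith
  have hmp : (m - 1) * (Real.exp (-(M / m)) / m) = (1 - 1 / m) * Real.exp (-(M / m)) := by
    field_simp
  rw [hmp]
  have h5 : 1 / m ≤ 1 / 2 := by
    rw [div_le_div_iff₀ cm0 (by norm_num)]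
    linarith
  have h6 : (1 - 1 / m) * (1 - M / m) ≤ (1 - 1 / m) * Real.exp (-(M / m)) :=
    mul_le_mul_of_nonneg_left hexp2 (by linarith)
  refine le_trans ?_ h6
  have h7 : (1 + M) / m ≤ 1 / 2 := by
    rw [div_le_div_iff₀ cm0 (by norm_num)]
    linarith
  have h8 : 0 ≤ 1 / m * (M / m) := by positivity
  have h9 : (1 + M) / m = 1 / m + M / m := by ring
  rw [h9] at h7
  nlinarith

lemma arith3 {M m : ℝ} (hM : 0 ≤ M) (hm : 2 * (M + 1) ≤ m) :
    (m - 1) * (Real.exp (-(M / m)) / m) ≤ 1 := by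
  have cm0 : 0 < m := by linarith
  have hexp1 : Real.exp (-(M / m)) ≤ 1 := by
    rw [Real.exp_le_one_iff]
    have : 0 ≤ M / m := by positivity
    linarith
  have hmp : (m - 1) * (Real.exp (-(M / m)) / m) = (1 - 1 / m) * Real.exp (-(M / m)) := by
    field_simp
  rw [hmp]
  have h5 : 0 ≤ 1 / m := by positivity
  have h6 : 1 / m ≤ 1 := by
    rw [div_le_one cm0]
    linarith
  have h7 := Real.exp_pos (-(M / m))
  nlinarith

end C5

open C5

theorem c_chainSet (hc : S_chain) (hi : S_intBound) (ht : S_transfer) (_he : S_PrEquiv)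
    (hE : S_ExAvg) (h1 : S_armBasic) : S_chainSet := by
  classical
  obtain ⟨C, hC, hb⟩ := hi
  refine ⟨294 * C, by positivity, fun x N J hJ1 hJ2 => ?_⟩
  set M : ℕ := (edgesIn x N).card with hM
  have hM0 : (edgesIn 0 N).card = M := (card_edges_sh x N).symm
  refine ⟨2 * (M + 1), fun m hm => ?_⟩
  have hm2 : 2 ≤ m := by omega
  have cm0 : (0 : ℝ) < m := by exact_mod_cast (by omega : 0 < m)
  have cm : 2 * ((M : ℝ) + 1) ≤ m := by exact_mod_cast hm
  set p : ℝ := Real.exp (-((M : ℝ) / m)) / m with hp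
  have hp0 : 0 ≤ p := by positivity
  -- translate
  have hF : (fun B => armV x J (ta x '' B)) = armV 0 J := by
    funext B
    unfold armV
    have := a1_trans x 0 (10 * J + 2) B
    have h2 : (ta x '' B) = ((Equiv.addRight x : V ≃ V) '' B) := rfl
    simp only [h2, this]
  have hterm : ∀ k : ℕ, Ex (fun B => armV x J B * ((stepV (edgesIn x N) p)^[k] (armV x J)) B) =
      Ex (fun B => armV 0 J B * ((stepV (edgesIn 0 N) p)^[k] (armV 0 J)) B) := by
    intro k
    have hd : DepOn (fun B => armV x J B * ((stepV (edgesIn x N) p)^[k] (armV x J)) B)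
        (Ball x (5 * N + 2)) := by
      intro B B' hB
      have e1 := dep_armV h1 hJ2 B B' hB
      have e2 := dep_iter (p := p) (dep_armV h1 hJ2 (x := x)) k B B' hB
      simp only [e1, e2]
    rw [Ex_sh hE x _ _ hd]
    congr 1
    funext B
    have e3 : ((stepV (edgesIn x N) p)^[k] (armV x J)) (ta x '' B) =
        ((stepV (edgesIn 0 N) p)^[k] (armV 0 J)) B := by
      have := congrFun (iter_sh x N p (armV x J) k) B
      rw [hF] at this
      exact this
    have e4 : armV x J (ta x '' B) = armV 0 J B := congrFun hF B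
    rw [e3, e4]
  -- block configurations
  have hfun : (fun ω : Ix N → BX => armV 0 J (cfg N ω)) = armI N 0 (10 * J + 2) := by
    funext ω
    rfl
  have hterm2 : ∀ k : ℕ, Ex (fun B => armV 0 J B * ((stepV (edgesIn 0 N) p)^[k] (armV 0 J)) B) =
      Noise.E (fun ω : Ix N → BX => armI N 0 (10 * J + 2) ω *
        ((stepω N p)^[k] (armI N 0 (10 * J + 2))) ω) := by
    intro k
    have hd : DepOn (fun B => armV 0 J B * ((stepV (edgesIn 0 N) p)^[k] (armV 0 J)) B)
        (Ball 0 (5 * N + 2)) := by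
      intro B B' hB
      have e1 := dep_armV h1 hJ2 B B' hB
      have e2 := dep_iter (p := p) (dep_armV h1 hJ2 (x := 0)) k B B' hB
      simp only [e1, e2]
    rw [← ht.1 N _ hd]
    congr 1
    funext ω
    rw [← hfun, iter_cfg]
  have hpe : Real.exp (-(((edgesIn x N).card : ℝ) / m)) / m = p := by rw [hp, hM]
  have hgoal : (∑ k ∈ Finset.range m, Ex (fun B => armV x J B *
      ((stepV (edgesIn x N) (Real.exp (-((edgesIn x N).card / m : ℝ)) / m))^[k] (armV x J)) B)) /
      (m : ℝ) = (∑ k ∈ Finset.range m, Noise.E (fun ω : Ix N → BX => armI N 0 (10 * J + 2) ω *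
        ((stepω N p)^[k] (armI N 0 (10 * J + 2))) ω)) / m := by
    congr 1
    refine Finset.sum_congr rfl fun k _ => ?_
    rw [hpe, hterm k, hterm2 k]
  rw [hgoal]
  have hnn : ∀ ω : Ix N → BX, 0 ≤ armI N 0 (10 * J + 2) ω := by
    intro ω
    unfold armI
    split_ifs <;> norm_num
  have cM : (0 : ℝ) ≤ M := Nat.cast_nonneg M
  have h3 := hc N m p (armI N 0 (10 * J + 2)) hm2 hp0 ?_ ?_ ?_ hnn
  · refine h3.trans ?_
    have h4 := hb N J hJ1 hJ2
    calc 294 * ∫ u in (0 : ℝ)..1, Noise.E (fun ω : Ix N → BX => armI N 0 (10 * J + 2) ω *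
          Noise.T iotaG u (armI N 0 (10 * J + 2)) ω) ≤ 294 * (C * al 0 (10 * J + 2) ^ 2) :=
          mul_le_mul_of_nonneg_left h4 (by norm_num)
      _ = _ := by ring
  · rw [card_adj, hM0]
    exact arith1 cM cm
  · exact arith2 cM cm
  · exact arith3 cM cm

end TriX
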