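import Pool.Agent.EX.Spec1

/-! EX-E1: general properties of explored sets. -/

set_option autoImplicit false

namespace TriX

theorem expl_subset {D S0 Kb Kw B T : Set V} (h : ClosedE D S0 Kb Kw B T) :
    Expl D S0 Kb Kw B ⊆ T := fun _ hv => hv T h

theorem expl_closed (D S0 Kb Kw B : Set V) : ClosedE D S0 Kb Kw B (Expl D S0 Kb Kw B) := by
  refine ⟨fun v hv T hT => hT.1 hv, fun v hv z w hz hw h1 h2 T hT => ?_⟩
  refine hT.2 v hv z w hz hw ?_ ?_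
  · rcases h1 with h1 | h1
    · exact Or.inl h1
    · exact Or.inr ⟨h1.1 T hT, h1.2⟩
  · rcases h2 with h2 | h2
    · exact Or.inl h2
    · exact Or.inr ⟨h2.1 T hT, h2.2⟩

theorem conn_head {S : Set V} {u v w : V} (hu : u ∈ S) (h : Adj u v) (hc : Conn S v w) : Conn S u w :=
  ⟨hu, Relation.ReflTransGen.head ⟨h, hc.1⟩ hc.2⟩

theorem t_expl : S_expl := by
  intro D S0 Kb Kw B
  have hcl := expl_closed D S0 Kb Kw B
  set E := Expl D S0 Kb Kw B with hE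
  refine ⟨hcl, ?_, ?_, ?_, ?_, ?_, ?_⟩
  · exact expl_subset ⟨fun v hv => Or.inr hv, fun v hv _ _ _ _ _ _ => Or.inl hv⟩
  · intro B' hB
    have hiff : ∀ z ∈ E, (z ∈ B ↔ z ∈ B') := by
      intro z hz
      have : z ∈ B ∩ E ↔ z ∈ B' ∩ E := by rw [hB]
      simpa [hz] using this
    have h1 : Expl D S0 Kb Kw B' ⊆ E := by
      refine expl_subset ⟨hcl.1, fun v hv z w hz hw h1 h2 => hcl.2 v hv z w hz hw ?_ ?_⟩
      · rcases h1 with h1 | h1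
        · exact Or.inl h1
        · exact Or.inr ⟨h1.1, (hiff z h1.1).2 h1.2⟩
      · rcases h2 with h2 | h2
        · exact Or.inl h2
        · exact Or.inr ⟨h2.1, fun h => h2.2 ((hiff w h2.1).1 h)⟩
    refine Set.Subset.antisymm h1 ?_
    have hcl' := expl_closed D S0 Kb Kw B'
    refine expl_subset ⟨hcl'.1, fun v hv z w hz hw h3 h4 => hcl'.2 v hv z w hz hw ?_ ?_⟩
    · rcases h3 with h3 | h3
      · exact Or.inl h3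
      · exact Or.inr ⟨h3.1, (hiff z (h1 h3.1)).1 h3.2⟩
    · rcases h4 with h4 | h4
      · exact Or.inl h4
      · exact Or.inr ⟨h4.1, fun h => h4.2 ((hiff w (h1 h4.1)).2 h)⟩
  · intro S1 hS
    have hcl' := expl_closed D S1 Kb Kw B
    exact expl_subset ⟨hS.trans hcl'.1, hcl'.2⟩
  · intro v hv
    have h : E ⊆ {v | v ∈ E ∧ (v ∈ S0 ∨ (v ∈ D ∧
        (∃ z, Adj v z ∧ (z ∈ Kb ∨ z ∈ E ∩ B)) ∧ (∃ w, Adj v w ∧ (w ∈ Kw ∨ w ∈ E \ B))))} := by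
      refine expl_subset ⟨fun v hv => ⟨hcl.1 hv, Or.inl hv⟩, fun v hv z w hz hw h1 h2 => ?_⟩
      have h1' : z ∈ Kb ∨ z ∈ E ∩ B := h1.imp_right fun h => ⟨h.1.1, h.2⟩
      have h2' : w ∈ Kw ∨ w ∈ E \ B := h2.imp_right fun h => ⟨h.1.1, h.2⟩
      exact ⟨hcl.2 v hv z w hz hw h1' h2', Or.inr ⟨hv, ⟨z, hz, h1'⟩, ⟨w, hw, h2'⟩⟩⟩
    exact (h hv).2
  · intro v hv
    have h : E ⊆ {v | v ∈ E ∧ (v ∈ B → ∃ s, Conn (E ∩ B) v s ∧ (s ∈ S0 ∨ ∃ k ∈ Kb, Adj s k))} := by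
      refine expl_subset ⟨fun v hv => ⟨hcl.1 hv, fun hB => ⟨v, ⟨⟨hcl.1 hv, hB⟩, .refl⟩, Or.inl hv⟩⟩,
        fun v hv z w hz hw h1 h2 => ?_⟩
      have h1' : z ∈ Kb ∨ z ∈ E ∩ B := h1.imp_right fun h => ⟨h.1.1, h.2⟩
      have h2' : w ∈ Kw ∨ w ∈ E \ B := h2.imp_right fun h => ⟨h.1.1, h.2⟩
      have hvE := hcl.2 v hv z w hz hw h1' h2'
      refine ⟨hvE, fun hB => ?_⟩
      rcases h1 with h1 | h1
      · exact ⟨v, ⟨⟨hvE, hB⟩, .refl⟩, Or.inr ⟨z, h1, hz⟩⟩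
      · obtain ⟨s, hs, hs'⟩ := h1.1.2 h1.2
        exact ⟨s, conn_head ⟨hvE, hB⟩ hz hs, hs'⟩
    exact (h hv.1).2 hv.2
  · intro v hv
    have h : E ⊆ {v | v ∈ E ∧ (v ∉ B → ∃ s, Conn (E \ B) v s ∧ (s ∈ S0 ∨ ∃ k ∈ Kw, Adj s k))} := by
      refine expl_subset ⟨fun v hv => ⟨hcl.1 hv, fun hB => ⟨v, ⟨⟨hcl.1 hv, hB⟩, .refl⟩, Or.inl hv⟩⟩,
        fun v hv z w hz hw h1 h2 => ?_⟩
      have h1' : z ∈ Kb ∨ z ∈ E ∩ B := h1.imp_right fun h => ⟨h.1.1, h.2⟩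
      have h2' : w ∈ Kw ∨ w ∈ E \ B := h2.imp_right fun h => ⟨h.1.1, h.2⟩
      have hvE := hcl.2 v hv z w hz hw h1' h2'
      refine ⟨hvE, fun hB => ?_⟩
      rcases h2 with h2 | h2
      · exact ⟨v, ⟨⟨hvE, hB⟩, .refl⟩, Or.inr ⟨w, h2, hw⟩⟩
      · obtain ⟨s, hs, hs'⟩ := h2.1.2 h2.2
        exact ⟨s, conn_head ⟨hvE, hB⟩ hw hs, hs'⟩
    exact (h hv.1).2 hv.2

end TriX
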