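import Pool.Agent.EX.Spec3

/-! G1: the block gadgets are coins with finite energy. -/

set_option autoImplicit false

open MeasureTheory

namespace TriX

namespace G1

theorem adj_symm {u v : V} (h : Adj u v) : Adj v u := by
  unfold Adj at h ⊢
  omega

theorem conn_mem {S : Set V} {u v : V} (h : Conn S u v) : v ∈ S := by
  obtain ⟨hu, h⟩ := h
  induction h with
  | refl => exact hu
  | tail _ h _ => exact h.2

theorem conn_trans {S : Set V} {u v w : V} (h : Conn S u v) (h' : Conn S v w) : Conn S u w :=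
  ⟨h.1, h.2.trans h'.2⟩

theorem conn_symm {S : Set V} {u v : V} (h : Conn S u v) : Conn S v u := by
  obtain ⟨hu, h⟩ := h
  induction h with
  | refl => exact ⟨hu, Relation.ReflTransGen.refl⟩
  | @tail b c hb hbc ih =>
    exact ⟨hbc.2, Relation.ReflTransGen.head ⟨adj_symm hbc.1, conn_mem ⟨hu, hb⟩⟩ ih.2⟩

theorem line_h {S : Set V} (x y : ℤ) (n : ℕ) (h : ∀ k : ℕ, k ≤ n → (x + k, y) ∈ S) :
    Conn S (x, y) (x + n, y) := by
  induction n with
  | zero =>
    have := h 0 le_rfl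
    rw [Nat.cast_zero, add_zero] at this ⊢
    exact ⟨this, Relation.ReflTransGen.refl⟩
  | succ n ih =>
    have h1 := ih fun k hk => h k (by omega)
    exact ⟨h1.1, h1.2.tail ⟨Or.inl ⟨by push_cast; ring, rfl⟩, h (n + 1) le_rfl⟩⟩

theorem line_v {S : Set V} (x y : ℤ) (n : ℕ) (h : ∀ k : ℕ, k ≤ n → (x, y + k) ∈ S) :
    Conn S (x, y) (x, y + n) := by
  induction n with
  | zero =>
    have := h 0 le_rfl
    rw [Nat.cast_zero, add_zero] at this ⊢
    exact ⟨this, Relation.ReflTransGen.refl⟩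
  | succ n ih =>
    have h1 := ih fun k hk => h k (by omega)
    exact ⟨h1.1, h1.2.tail ⟨Or.inr (Or.inr (Or.inl ⟨rfl, by push_cast; ring⟩)), h (n + 1) le_rfl⟩⟩

/-- A block. -/
def blk (X Y : ℤ) : Set V :=
  {w | 5 * X - 2 ≤ w.1 ∧ w.1 ≤ 5 * X + 2 ∧ 5 * Y - 2 ≤ w.2 ∧ w.2 ≤ 5 * Y + 2}

/-- Its interior. -/
def inn (X Y : ℤ) : Set V :=
  {w | 5 * X - 1 ≤ w.1 ∧ w.1 ≤ 5 * X + 1 ∧ 5 * Y - 1 ≤ w.2 ∧ w.2 ≤ 5 * Y + 1}

/-- Its boundary ring. -/
def rng (X Y : ℤ) : Set V := blk X Y \ inn X Y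

theorem rng_conn0 {X Y : ℤ} {w : V} (hw : w ∈ rng X Y) :
    Conn (rng X Y) (5 * X - 2, 5 * Y - 2) w := by
  obtain ⟨⟨h1, h2, h3, h4⟩, h5⟩ := hw
  have h5' : ¬ (5 * X - 1 ≤ w.1 ∧ w.1 ≤ 5 * X + 1 ∧ 5 * Y - 1 ≤ w.2 ∧ w.2 ≤ 5 * Y + 1) := h5
  obtain ⟨x, y⟩ := w
  simp only at h1 h2 h3 h4 h5'
  have memr : ∀ a b : ℤ, 5 * X - 2 ≤ a → a ≤ 5 * X + 2 → 5 * Y - 2 ≤ b → b ≤ 5 * Y + 2 →
      (a = 5 * X - 2 ∨ a = 5 * X + 2 ∨ b = 5 * Y - 2 ∨ b = 5 * Y + 2) → ((a, b) : V) ∈ rng X Y := by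
    intro a b a1 a2 a3 a4 a5
    refine ⟨⟨a1, a2, a3, a4⟩, ?_⟩
    rintro ⟨b1, b2, b3, b4⟩
    simp only at b1 b2 b3 b4
    omega
  have bottom : ∀ a : ℤ, 5 * X - 2 ≤ a → a ≤ 5 * X + 2 →
      Conn (rng X Y) (5 * X - 2, 5 * Y - 2) (a, 5 * Y - 2) := by
    intro a a1 a2
    have := line_h (S := rng X Y) (5 * X - 2) (5 * Y - 2) (a - (5 * X - 2)).toNat
      (fun k hk => memr _ _ (by omega) (by omega) (by omega) (by omega) (by omega))
    rwa [show 5 * X - 2 + ((a - (5 * X - 2)).toNat : ℤ) = a by omega] at this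
  have left : ∀ b : ℤ, 5 * Y - 2 ≤ b → b ≤ 5 * Y + 2 →
      Conn (rng X Y) (5 * X - 2, 5 * Y - 2) (5 * X - 2, b) := by
    intro b a1 a2
    have := line_v (S := rng X Y) (5 * X - 2) (5 * Y - 2) (b - (5 * Y - 2)).toNat
      (fun k hk => memr _ _ (by omega) (by omega) (by omega) (by omega) (by omega))
    rwa [show 5 * Y - 2 + ((b - (5 * Y - 2)).toNat : ℤ) = b by omega] at this
  have right : ∀ b : ℤ, 5 * Y - 2 ≤ b → b ≤ 5 * Y + 2 →
      Conn (rng X Y) (5 * X - 2, 5 * Y - 2) (5 * X + 2, b) := by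
    intro b a1 a2
    refine conn_trans (bottom (5 * X + 2) (by omega) (by omega)) ?_
    have := line_v (S := rng X Y) (5 * X + 2) (5 * Y - 2) (b - (5 * Y - 2)).toNat
      (fun k hk => memr _ _ (by omega) (by omega) (by omega) (by omega) (by omega))
    rwa [show 5 * Y - 2 + ((b - (5 * Y - 2)).toNat : ℤ) = b by omega] at this
  have top : ∀ a : ℤ, 5 * X - 2 ≤ a → a ≤ 5 * X + 2 →
      Conn (rng X Y) (5 * X - 2, 5 * Y - 2) (a, 5 * Y + 2) := by
    intro a a1 a2
    refine conn_trans (left (5 * Y + 2) (by omega) (by omega)) ?_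
    have := line_h (S := rng X Y) (5 * X - 2) (5 * Y + 2) (a - (5 * X - 2)).toNat
      (fun k hk => memr _ _ (by omega) (by omega) (by omega) (by omega) (by omega))
    rwa [show 5 * X - 2 + ((a - (5 * X - 2)).toNat : ℤ) = a by omega] at this
  have hcase : x = 5 * X - 2 ∨ x = 5 * X + 2 ∨ y = 5 * Y - 2 ∨ y = 5 * Y + 2 := by omega
  rcases hcase with rfl | rfl | rfl | rfl
  · exact left y h3 h4
  · exact right y h3 h4
  · exact bottom x h1 h2
  · exact top x h1 h2

theorem rng_conn {X Y : ℤ} {w w' : V} (hw : w ∈ rng X Y) (hw' : w' ∈ rng X Y) :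
    Conn (rng X Y) w w' := conn_trans (conn_symm (rng_conn0 hw)) (rng_conn0 hw')

theorem ball_iff {X Y : ℤ} {w : V} (hw : w ∈ blk X Y) (i : ℤ) :
    w ∈ Ball 0 (5 * i + 2) ↔ (-i ≤ X ∧ X ≤ i) ∧ (-i ≤ Y ∧ Y ≤ i) := by
  obtain ⟨h1, h2, h3, h4⟩ := hw
  constructor
  · rintro ⟨h5, h6⟩
    rw [abs_le] at h5 h6
    simp only [Prod.fst_zero, Prod.snd_zero, sub_zero] at h5 h6
    omega
  · intro h
    refine ⟨?_, ?_⟩ <;> rw [abs_le] <;> simp only [Prod.fst_zero, Prod.snd_zero, sub_zero] <;> omega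

theorem ann_blk {X Y : ℤ} {w w' : V} (hw : w ∈ blk X Y) (hw' : w' ∈ blk X Y) {j i : ℤ}
    (h : w ∈ Ann 0 (5 * j + 2) (5 * i + 2)) : w' ∈ Ann 0 (5 * j + 2) (5 * i + 2) := by
  obtain ⟨h1, h2⟩ := h
  rw [ball_iff hw] at h1 h2
  refine ⟨?_, ?_⟩
  · rwa [ball_iff hw']
  · rwa [ball_iff hw']

theorem blk_of_adj {X Y : ℤ} {w w' : V} (hw : w ∈ inn X Y) (h : Adj w w') : w' ∈ blk X Y := by
  obtain ⟨h1, h2, h3, h4⟩ := hw
  unfold Adj at h
  refine ⟨?_, ?_, ?_, ?_⟩ <;> omega

theorem inn_blk {X Y : ℤ} {w : V} (hw : w ∈ inn X Y) : w ∈ blk X Y := by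
  obtain ⟨h1, h2, h3, h4⟩ := hw
  refine ⟨?_, ?_, ?_, ?_⟩ <;> omega

/-- An isolated black centre is useless. -/
theorem arm_isolated {X Y j i : ℤ} {S : Set V} (hS : ∀ w, Adj (5 * X, 5 * Y) w → w ∉ S)
    (h : Arm 0 (5 * j + 2) (5 * i + 2) S) : Arm 0 (5 * j + 2) (5 * i + 2) (S \ {(5 * X, 5 * Y)}) := by
  obtain ⟨u, hu, v, hv, w, hw, hwv⟩ := h
  have hz : ((5 * X, 5 * Y) : V) ∈ inn X Y := ⟨by simp only; omega, by simp only; omega,
    by simp only; omega, by simp only; omega⟩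
  refine ⟨u, hu, v, hv, w, ?_, hwv⟩
  have key : ∀ w, Relation.ReflTransGen
      (fun a b => Adj a b ∧ b ∈ S ∩ Ann 0 (5 * j + 2) (5 * i + 2)) u w →
      (w = u ∨ w ∈ S) ∧ Relation.ReflTransGen (fun a b => Adj a b ∧
        b ∈ (S \ {((5 * X, 5 * Y) : V)}) ∩ Ann 0 (5 * j + 2) (5 * i + 2)) u w := by
    intro w hw
    induction hw with
    | refl => exact ⟨Or.inl rfl, Relation.ReflTransGen.refl⟩
    | @tail b c _ hbc ih =>
      refine ⟨Or.inr hbc.2.1, ih.2.tail ⟨hbc.1, ⟨hbc.2.1, ?_⟩, hbc.2.2⟩⟩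
      rintro rfl
      rcases ih.1 with rfl | h1
      · have h2 : b ∈ blk X Y := blk_of_adj hz (adj_symm hbc.1)
        exact (ann_blk (inn_blk hz) h2 hbc.2.2).2 hu
      · exact hS b (adj_symm hbc.1) h1
  exact (key w hw).2

/-- A black block can be replaced by its boundary ring. -/
theorem arm_ring {X Y j i : ℤ} {O : Set V}
    (h : Arm 0 (5 * j + 2) (5 * i + 2) (O ∪ blk X Y)) :
    Arm 0 (5 * j + 2) (5 * i + 2) (O ∪ rng X Y) := by
  obtain ⟨u, hu, v, hv, w, hw, hwv⟩ := h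
  refine ⟨u, hu, v, hv, w, ?_, hwv⟩
  set P : V → V → Prop := fun a b => Adj a b ∧ b ∈ (O ∪ rng X Y) ∩ Ann 0 (5 * j + 2) (5 * i + 2)
    with hP
  have key : ∀ w, Relation.ReflTransGen
      (fun a b => Adj a b ∧ b ∈ (O ∪ blk X Y) ∩ Ann 0 (5 * j + 2) (5 * i + 2)) u w →
      w = u ∨ (w ∈ Ann 0 (5 * j + 2) (5 * i + 2) ∧ ((w ∉ inn X Y ∧ Relation.ReflTransGen P u w) ∨
      (w ∈ inn X Y ∧ ∃ w' ∈ rng X Y, Relation.ReflTransGen P u w'))) := by
    intro w hw
    induction hw with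
    | refl => exact Or.inl rfl
    | @tail b c _ hbc ih =>
      obtain ⟨hadj, hc, hcA⟩ := hbc
      refine Or.inr ⟨hcA, ?_⟩
      rcases ih with rfl | ⟨hbA, ⟨hb1, hb2⟩ | ⟨hb1, w', hw', hb2⟩⟩
      · by_cases hci : c ∈ inn X Y
        · exfalso
          have h2 : b ∈ blk X Y := blk_of_adj hci (adj_symm hadj)
          exact (ann_blk (inn_blk hci) h2 hcA).2 hu
        · refine Or.inl ⟨hci, Relation.ReflTransGen.single ⟨hadj, ?_, hcA⟩⟩
          rcases hc with hc | hc
          · exact Or.inl hc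
          · exact Or.inr ⟨hc, hci⟩
      · by_cases hci : c ∈ inn X Y
        · exact Or.inr ⟨hci, b, ⟨blk_of_adj hci (adj_symm hadj), hb1⟩, hb2⟩
        · refine Or.inl ⟨hci, hb2.tail ⟨hadj, ?_, hcA⟩⟩
          rcases hc with hc | hc
          · exact Or.inl hc
          · exact Or.inr ⟨hc, hci⟩
      · by_cases hci : c ∈ inn X Y
        · exact Or.inr ⟨hci, w', hw', hb2⟩
        · refine Or.inl ⟨hci, hb2.trans ?_⟩
          have hcr : c ∈ rng X Y := ⟨blk_of_adj hb1 hadj, hci⟩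
          refine Relation.ReflTransGen.mono ?_ _ _ (rng_conn hw' hcr).2
          rintro a a' ⟨h3, h4⟩
          exact ⟨h3, Or.inr h4, ann_blk (inn_blk hb1) h4.1 hbA⟩
  rcases key w hw with rfl | ⟨hwA, ⟨_, h2⟩ | ⟨h3, -⟩⟩
  · exact Relation.ReflTransGen.refl
  · exact h2
  · exfalso
    exact hv (ann_blk (inn_blk h3) (blk_of_adj h3 hwv) hwA).1

/-! ### Cells -/

theorem posC_cen : posC cen = 0 := rfl

theorem posC_bd (c : Cell) : -2 ≤ (posC c).1 ∧ (posC c).1 ≤ 2 ∧ -2 ≤ (posC c).2 ∧ (posC c).2 ≤ 2 := by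
  obtain ⟨a, b⟩ := c
  have ha := a.2
  have hb := b.2
  simp only [posC]
  omega

theorem site_blk (N : ℕ) (v : Ix N) (c : Cell) :
    site N v c ∈ blk ((v.1 : ℤ) - N) ((v.2 : ℤ) - N) := by
  have h := posC_bd c
  refine ⟨?_, ?_, ?_, ?_⟩ <;> simp only [site] <;> omega

theorem exists_cell (N : ℕ) (v : Ix N) {w : V} (hw : w ∈ blk ((v.1 : ℤ) - N) ((v.2 : ℤ) - N)) :
    ∃ c : Cell, w = site N v c := by
  obtain ⟨h1, h2, h3, h4⟩ := hw
  refine ⟨(⟨(w.1 - 5 * ((v.1 : ℤ) - N) + 2).toNat, by omega⟩,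
    ⟨(w.2 - 5 * ((v.2 : ℤ) - N) + 2).toNat, by omega⟩), ?_⟩
  apply Prod.ext
  · simp only [site, posC]
    omega
  · simp only [site, posC]
    omega

theorem site_inj (N : ℕ) {v v' : Ix N} {c c' : Cell} (h : site N v c = site N v' c') :
    v = v' ∧ c = c' := by
  have h1 := congrArg Prod.fst h
  have h2 := congrArg Prod.snd h
  obtain ⟨⟨a, ha⟩, ⟨b, hb⟩⟩ := v
  obtain ⟨⟨a', ha'⟩, ⟨b', hb'⟩⟩ := v'
  obtain ⟨⟨x, hx⟩, ⟨y, hy⟩⟩ := c
  obtain ⟨⟨x', hx'⟩, ⟨y', hy'⟩⟩ := c'
  simp only [site, posC] at h1 h2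
  simp only [Prod.mk.injEq, Fin.mk.injEq]
  omega

theorem site_cen (N : ℕ) (v : Ix N) :
    site N v cen = (5 * ((v.1 : ℤ) - N), 5 * ((v.2 : ℤ) - N)) := by
  simp [site, posC_cen]

theorem site_adj (N : ℕ) (v : Ix N) (c c' : Cell) :
    Adj (site N v c) (site N v c') ↔ Adj (posC c) (posC c') := by
  unfold Adj
  simp only [site]
  omega

/-! ### The involution -/

theorem lab_ne_cen {c : Cell} (h : c.1 = 0 ∨ c.1 = 4 ∨ c.2 = 0 ∨ c.2 = 4) : c ≠ cen := by
  rintro rfl
  revert h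
  decide

theorem lab_not_adj {c : Cell} (h : c.1 = 0 ∨ c.1 = 4 ∨ c.2 = 0 ∨ c.2 = 4) :
    ¬ Adj (posC c) (posC cen) := by
  obtain ⟨⟨x, hx⟩, ⟨y, hy⟩⟩ := c
  rw [posC_cen]
  unfold Adj
  simp only [posC, Prod.fst_zero, Prod.snd_zero]
  have h' : x = 0 ∨ x = 4 ∨ y = 0 ∨ y = 4 := by
    rcases h with h | h | h | h
    · exact Or.inl (congrArg Fin.val h)
    · exact Or.inr (Or.inl (congrArg Fin.val h))
    · exact Or.inr (Or.inr (Or.inl (congrArg Fin.val h)))
    · exact Or.inr (Or.inr (Or.inr (congrArg Fin.val h)))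
  omega

theorem not_adj_self (v : V) : ¬ Adj v v := by
  unfold Adj
  omega

theorem iota_of {x : BX} (h : Active x) :
    iotaG x = (fun c => x.1 (Equiv.swap x.2 cen c), x.2) := if_pos h

theorem iota_not {x : BX} (h : ¬ Active x) : iotaG x = x := if_neg h

theorem iota_lab {x : BX} (h : Active x) : (iotaG x).1 x.2 = x.1 cen := by
  rw [iota_of h]
  simp

theorem iota_cen {x : BX} (h : Active x) : (iotaG x).1 cen = x.1 x.2 := by
  rw [iota_of h]
  simp

theorem iota_other {x : BX} (h : Active x) {c : Cell} (h1 : c ≠ x.2) (h2 : c ≠ cen) :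
    (iotaG x).1 c = x.1 c := by
  rw [iota_of h]
  simp only
  rw [Equiv.swap_apply_of_ne_of_ne h1 h2]

theorem iota_snd (x : BX) : (iotaG x).2 = x.2 := by
  by_cases h : Active x
  · rw [iota_of h]
  · rw [iota_not h]

theorem iota_nbr {x : BX} (h : Active x) {c : Cell} (hc : Adj (posC c) (posC cen)) :
    (iotaG x).1 c = false := by
  rw [iota_other h]
  · exact h.2.1 c hc
  · rintro rfl
    exact lab_not_adj h.1 hc
  · rintro rfl
    exact not_adj_self _ hc

theorem iota_active {x : BX} (h : Active x) : Active (iotaG x) := by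
  refine ⟨?_, fun c hc => iota_nbr h hc, ?_⟩
  · rw [iota_snd]; exact h.1
  · rw [iota_snd, iota_lab h, iota_cen h]
    exact h.2.2.symm

theorem iota_iota (x : BX) : iotaG (iotaG x) = x := by
  by_cases h : Active x
  · have h' := iota_active h
    rw [iota_of h']
    refine Prod.ext ?_ (iota_snd x)
    funext c
    simp only
    rw [iota_snd, iota_of h]
    simp
  · rw [iota_not h, iota_not h]

theorem chi_iota (x : BX) : chiG (iotaG x) = -chiG x := by
  by_cases h : Active x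
  · have h' := iota_active h
    unfold chiG
    rw [if_pos h, if_pos h', iota_snd, iota_lab h]
    have h1 := h.2.2
    cases hl : x.1 x.2 <;> cases hc : x.1 cen <;> simp_all
  · rw [iota_not h]
    unfold chiG
    rw [if_neg h, neg_zero]

/-- The coin. -/
noncomputable def coin : Noise.Coin BX where
  ι := iotaG
  χ := chiG
  invol := iota_iota
  val x := by
    unfold chiG
    split_ifs <;> simp
  anti := chi_iota
  fix x hx := by
    apply iota_not
    intro h
    unfold chiG at hx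
    rw [if_pos h] at hx
    split_ifs at hx <;> norm_num at hx

/-! ### Configurations -/

/-- Black sites outside of the block. -/
def out (N : ℕ) (ω : Ix N → BX) (B : Ix N) : Set V :=
  {x | ∃ v c, v ≠ B ∧ x = site N v c ∧ (ω v).1 c = true}

/-- Black sites of the block. -/
def kk (N : ℕ) (B : Ix N) (x : BX) : Set V := {w | ∃ c, w = site N B c ∧ x.1 c = true}

theorem cfg_update (N : ℕ) (ω : Ix N → BX) (B : Ix N) (x : BX) :
    cfg N (Function.update ω B x) = out N ω B ∪ kk N B x := by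
  ext w
  constructor
  · rintro ⟨v, c, rfl, h⟩
    by_cases hv : v = B
    · subst hv
      rw [Function.update_self] at h
      exact Or.inr ⟨c, rfl, h⟩
    · rw [Function.update_of_ne hv] at h
      exact Or.inl ⟨v, c, hv, rfl, h⟩
  · rintro (⟨v, c, hv, rfl, h⟩ | ⟨c, rfl, h⟩)
    · exact ⟨v, c, rfl, by rwa [Function.update_of_ne hv]⟩
    · exact ⟨B, c, rfl, by rwa [Function.update_self]⟩

theorem flip_update (N : ℕ) (ω : Ix N → BX) (B : Ix N) (x : BX) :
    Noise.flipS iotaG {B} (Function.update ω B x) = Function.update ω B (iotaG x) := by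
  funext v
  unfold Noise.flipS
  by_cases hv : v = B
  · subst hv
    simp
  · simp [hv]

theorem mono_gen (h1 : S_armBasic) (N : ℕ) (ω : Ix N → BX) (B : Ix N) (y y' : BX) (j i : ℤ)
    (hn : ∀ c, Adj (posC c) (posC cen) → y.1 c = false)
    (hy : ∀ c, c ≠ cen → y.1 c = true → y'.1 c = true)
    (h : Arm 0 (5 * j + 2) (5 * i + 2) (out N ω B ∪ kk N B y)) :
    Arm 0 (5 * j + 2) (5 * i + 2) (out N ω B ∪ kk N B y') := by
  have hz : ((5 * ((B.1 : ℤ) - N), 5 * ((B.2 : ℤ) - N)) : V) ∈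
      inn ((B.1 : ℤ) - N) ((B.2 : ℤ) - N) :=
    ⟨by simp only; omega, by simp only; omega, by simp only; omega, by simp only; omega⟩
  have h2 := arm_isolated (X := (B.1 : ℤ) - N) (Y := (B.2 : ℤ) - N) ?_ h
  · refine (h1.1 _ _ _).1 _ _ ?_ h2
    rintro w ⟨hw | ⟨c, rfl, hc⟩, hw2⟩
    · exact Or.inl hw
    · refine Or.inr ⟨c, rfl, hy c ?_ hc⟩
      rintro rfl
      exact hw2 (site_cen N B)
  · intro w hw hwS
    obtain ⟨c, rfl⟩ := exists_cell N B (blk_of_adj hz hw)
    rw [← site_cen, site_adj] at hw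
    have hc := hn c (adj_symm hw)
    rcases hwS with ⟨v, c', hv, he, -⟩ | ⟨c', he, hc'⟩
    · exact hv (site_inj N he).1.symm
    · obtain ⟨-, rfl⟩ := site_inj N he
      rw [hc] at hc'
      exact absurd hc' (by decide)

theorem term_nonneg (h1 : S_armBasic) (N : ℕ) (j i : ℤ) (ω : Ix N → BX) (B : Ix N) (z : BX) :
    0 ≤ chiG z * (armI N (5 * j + 2) (5 * i + 2) (Function.update ω B z) -
      armI N (5 * j + 2) (5 * i + 2) (Function.update ω B (iotaG z))) := by
  by_cases h : Active z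
  · unfold chiG armI
    rw [if_pos h, cfg_update, cfg_update]
    by_cases hl : z.1 z.2 = true
    · rw [if_pos hl]
      have hc : z.1 cen = false := by
        have := h.2.2
        cases hc : z.1 cen
        · rfl
        · rw [hc] at this; exact absurd hl this
      have h3 := mono_gen h1 N ω B (iotaG z) z j i (fun c hc => iota_nbr h hc) (by
        intro c hc1 hc2
        by_cases hcl : c = z.2
        · subst hcl
          exact hl
        · rwa [iota_other h hcl hc1] at hc2)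
      split_ifs with a b b
      · simp
      · simp
      · exact absurd (h3 b) a
      · simp
    · rw [if_neg hl]
      have h3 := mono_gen h1 N ω B z (iotaG z) j i (fun c hc => h.2.1 c hc) (by
        intro c hc1 hc2
        by_cases hcl : c = z.2
        · subst hcl
          exact absurd hc2 hl
        · rwa [iota_other h hcl hc1])
      split_ifs with a b b
      · simp
      · exact absurd (h3 a) b
      · simp
      · simp
  · unfold chiG
    rw [if_neg h, zero_mul]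

/-- The set of sites of some cells. -/
def sites (N : ℕ) (B : Ix N) (P : Finset Cell) : Set V := {w | ∃ c ∈ P, w = site N B c}

/-- Boundary cells. -/
def ringC : Finset Cell :=
  Finset.univ.filter (fun c : Cell => c.1 = 0 ∨ c.1 = 4 ∨ c.2 = 0 ∨ c.2 = 4)

theorem rng_sites (N : ℕ) (B : Ix N) :
    rng ((B.1 : ℤ) - N) ((B.2 : ℤ) - N) ⊆ sites N B ringC := by
  rintro w ⟨hw, hw'⟩
  obtain ⟨c, rfl⟩ := exists_cell N B hw
  refine ⟨c, ?_, rfl⟩
  rw [ringC, Finset.mem_filter]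
  refine ⟨Finset.mem_univ _, ?_⟩
  by_contra hcon
  push Not at hcon
  obtain ⟨⟨x, hx⟩, ⟨y, hy⟩⟩ := c
  obtain ⟨c1, c2, c3, c4⟩ := hcon
  have d1 : x ≠ 0 := fun h => c1 (Fin.ext h)
  have d2 : x ≠ 4 := fun h => c2 (Fin.ext h)
  have d3 : y ≠ 0 := fun h => c3 (Fin.ext h)
  have d4 : y ≠ 4 := fun h => c4 (Fin.ext h)
  apply hw'
  refine ⟨?_, ?_, ?_, ?_⟩ <;> simp only [site, posC] <;> omega

theorem kk_blk (N : ℕ) (B : Ix N) (x : BX) :
    kk N B x ⊆ blk ((B.1 : ℤ) - N) ((B.2 : ℤ) - N) := by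
  rintro w ⟨c, rfl, -⟩
  exact site_blk N B c

theorem exists_pivot (h1 : S_armBasic) (N : ℕ) (j i : ℤ) (ω : Ix N → BX) (B : Ix N) (x y : BX)
    (hx : Arm 0 (5 * j + 2) (5 * i + 2) (out N ω B ∪ kk N B x))
    (hy : ¬ Arm 0 (5 * j + 2) (5 * i + 2) (out N ω B ∪ kk N B y)) :
    ∃ z : BX, Active z ∧ z.1 z.2 = true ∧
      Arm 0 (5 * j + 2) (5 * i + 2) (out N ω B ∪ kk N B z) ∧
      ¬ Arm 0 (5 * j + 2) (5 * i + 2) (out N ω B ∪ kk N B (iotaG z)) := by
  classical
  have hmono := (h1.1 0 (5 * j + 2) (5 * i + 2)).1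
  have hO : ¬ Arm 0 (5 * j + 2) (5 * i + 2) (out N ω B) :=
    fun h => hy (hmono _ _ Set.subset_union_left h)
  have hring : Arm 0 (5 * j + 2) (5 * i + 2) (out N ω B ∪ sites N B ringC) :=
    hmono _ _ (Set.union_subset_union_right _ (rng_sites N B)) (arm_ring
      (hmono _ _ (Set.union_subset_union_right _ (kk_blk N B x)) hx))
  set Cs : Finset (Finset Cell) := ringC.powerset.filter
    (fun P => Arm 0 (5 * j + 2) (5 * i + 2) (out N ω B ∪ sites N B P)) with hCs
  have hne : Cs.Nonempty := ⟨ringC, by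
    rw [hCs, Finset.mem_filter]
    exact ⟨Finset.mem_powerset_self _, hring⟩⟩
  obtain ⟨P, hP, hmin⟩ := Finset.exists_min_image Cs Finset.card hne
  rw [hCs, Finset.mem_filter, Finset.mem_powerset] at hP
  obtain ⟨hPr, hPa⟩ := hP
  obtain ⟨a, ha⟩ : P.Nonempty := by
    rw [Finset.nonempty_iff_ne_empty]
    rintro rfl
    apply hO
    refine hmono _ _ ?_ hPa
    rintro w (hw | ⟨c, hc, -⟩)
    · exact hw
    · exact absurd hc (Finset.notMem_empty c)
  have hbd : ∀ c ∈ P, c.1 = 0 ∨ c.1 = 4 ∨ c.2 = 0 ∨ c.2 = 4 := by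
    intro c hc
    have := hPr hc
    rw [ringC, Finset.mem_filter] at this
    exact this.2
  set z : BX := (fun c => decide (c ∈ P), a) with hz
  have hact : Active z := by
    refine ⟨hbd a ha, ?_, ?_⟩
    · intro c hc
      have : c ∉ P := fun h => lab_not_adj (hbd c h) hc
      simp [hz, this]
    · have : cen ∉ P := fun h => lab_ne_cen (hbd _ h) rfl
      simp [hz, this, ha]
  have hkk : ∀ Q : Finset Cell, ∀ b : Cell, kk N B ((fun c => decide (c ∈ Q), b) : BX) =
      sites N B Q := by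
    intro Q b
    ext w
    constructor
    · rintro ⟨c, rfl, hc⟩
      exact ⟨c, by simpa using hc, rfl⟩
    · rintro ⟨c, hc, rfl⟩
      exact ⟨c, rfl, by simpa using hc⟩
  refine ⟨z, hact, by simp [hz, ha], ?_, ?_⟩
  · rw [hz, hkk]
    exact hPa
  · intro hcon
    have h2 := mono_gen h1 N ω B (iotaG z) ((fun c => decide (c ∈ P.erase a), a) : BX) j i
      (fun c hc => iota_nbr hact hc) (by
        intro c hc1 hc2
        by_cases hcl : c = a
        · subst hcl
          have h3 := iota_lab hact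
          have h4 : z.1 cen = false := by
            have : cen ∉ P := fun h => lab_ne_cen (hbd _ h) rfl
            simp [hz, this]
          rw [h4] at h3
          rw [show z.2 = c from rfl] at h3
          rw [h3] at hc2
          exact absurd hc2 (by decide)
        · rw [iota_other hact hcl hc1] at hc2
          have h5 : c ∈ P := by simpa [hz] using hc2
          simp [hcl, h5]) hcon
    rw [hkk] at h2
    have h3 : P.erase a ∈ Cs := by
      rw [hCs, Finset.mem_filter, Finset.mem_powerset]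
      exact ⟨(Finset.erase_subset _ _).trans hPr, h2⟩
    have h4 := hmin _ h3
    have h5 := Finset.card_erase_lt_of_mem ha
    omega

theorem single_le {α : Type} [Fintype α] (f : α → ℝ) (hf : ∀ z, 0 ≤ f z) (z : α) :
    f z ≤ ∑ z, f z :=
  Finset.single_le_sum (f := f) (fun z _ => hf z) (Finset.mem_univ z)

end G1

open G1 in
/-- G1. -/
theorem g_gadget (h1 : S_armBasic) : S_gadget := by
  refine ⟨coin, rfl, rfl, ?_⟩
  intro N j i _ _
  refine ⟨?_, ?_⟩
  · intro ω B
    have h := term_nonneg h1 N j i ω B (ω B)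
    rw [← flip_update, Function.update_eq_self] at h
    exact h
  · intro ω B x y
    have hnn : ∀ z : BX, 0 ≤ coin.χ z * (armI N (5 * j + 2) (5 * i + 2) (Function.update ω B z) -
        armI N (5 * j + 2) (5 * i + 2) (Noise.flipS coin.ι {B} (Function.update ω B z))) := by
      intro z
      have h := term_nonneg h1 N j i ω B z
      rw [← flip_update] at h
      exact h
    rw [one_mul]
    by_cases hx : Arm 0 (5 * j + 2) (5 * i + 2) (out N ω B ∪ kk N B x)
    · by_cases hy : Arm 0 (5 * j + 2) (5 * i + 2) (out N ω B ∪ kk N B y)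
      · have : armI N (5 * j + 2) (5 * i + 2) (Function.update ω B x) -
            armI N (5 * j + 2) (5 * i + 2) (Function.update ω B y) = 0 := by
          unfold armI
          rw [cfg_update, cfg_update, if_pos hx, if_pos hy, sub_self]
        rw [this]
        exact Finset.sum_nonneg fun z _ => hnn z
      · obtain ⟨z, hz1, hz2, hz3, hz4⟩ := exists_pivot h1 N j i ω B x y hx hy
        refine le_trans ?_ (single_le _ hnn z)
        have e1 : coin.χ z = 1 := by
          change chiG z = 1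
          unfold chiG
          rw [if_pos hz1, if_pos hz2]
        rw [e1]
        change _ ≤ 1 * (_ - armI N (5 * j + 2) (5 * i + 2)
          (Noise.flipS iotaG {B} (Function.update ω B z)))
        rw [flip_update]
        unfold armI
        rw [cfg_update, cfg_update, cfg_update, cfg_update, if_pos hx, if_neg hy, if_pos hz3,
          if_neg hz4]
        norm_num
    · refine le_trans ?_ (Finset.sum_nonneg fun z _ => hnn z)
      unfold armI
      rw [cfg_update, cfg_update, if_neg hx]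
      split_ifs <;> norm_num

end TriX
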