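import Pool.Agent.EX.Spec3

/-! EX-G2 (MP_68260e): comparison of the Dirichlet forms. -/

set_option autoImplicit false

namespace TriX

/-- Adjacency is decidable (kept local to this file). -/
@[reducible] def g2_decAdj (u v : V) : Decidable (Adj u v) := by
  unfold Adj; infer_instance

/-- Permute the cells of the block `B`. -/
def g2_act (N : ℕ) (B : Ix N) (σ : Equiv.Perm Cell) (ω : Ix N → BX) : Ix N → BX :=
  fun v => if v = B then (fun c => (ω v).1 (σ c), (ω v).2) else ω v

theorem g2_act_one (N : ℕ) (B : Ix N) (ω : Ix N → BX) : g2_act N B 1 ω = ω := by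
  funext v
  unfold g2_act
  split_ifs <;> simp

theorem g2_act_mul (N : ℕ) (B : Ix N) (σ τ : Equiv.Perm Cell) (ω : Ix N → BX) :
    g2_act N B σ (g2_act N B τ ω) = g2_act N B (τ * σ) ω := by
  funext v
  unfold g2_act
  split_ifs <;> simp

theorem g2_act_label (N : ℕ) (B : Ix N) (σ : Equiv.Perm Cell) (ω : Ix N → BX) (v : Ix N) :
    (g2_act N B σ ω v).2 = (ω v).2 := by
  unfold g2_act
  split_ifs <;> simp

/-- The action as a permutation of configurations. -/
def g2_equiv (N : ℕ) (B : Ix N) (σ : Equiv.Perm Cell) : (Ix N → BX) ≃ (Ix N → BX) where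
  toFun := g2_act N B σ
  invFun := g2_act N B σ⁻¹
  left_inv ω := by rw [g2_act_mul, mul_inv_cancel, g2_act_one]
  right_inv ω := by rw [g2_act_mul, inv_mul_cancel, g2_act_one]

theorem g2_swap (N : ℕ) (B : Ix N) (c c' : Cell) (ω : Ix N → BX) :
    swapω N (B, c) (B, c') ω = g2_act N B (Equiv.swap c c') ω := by
  funext v
  unfold swapω g2_act
  by_cases hv : v = B
  · subst hv
    rw [if_pos rfl]
    refine Prod.ext ?_ rfl
    funext d
    show (ω (Equiv.swap (v, c) (v, c') (v, d)).1).1 (Equiv.swap (v, c) (v, c') (v, d)).2 =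
      (ω v).1 (Equiv.swap c c' d)
    rw [Equiv.swap_apply_def, Equiv.swap_apply_def]
    by_cases h1 : d = c
    · subst h1; simp
    · by_cases h2 : d = c'
      · subst h2; simp [h1]
      · simp [h1, h2]
  · rw [if_neg hv]
    refine Prod.ext ?_ rfl
    funext d
    show (ω (Equiv.swap (B, c) (B, c') (v, d)).1).1 (Equiv.swap (B, c) (B, c') (v, d)).2 =
      (ω v).1 d
    rw [Equiv.swap_apply_of_ne_of_ne]
    · intro h; exact hv (congrArg Prod.fst h)
    · intro h; exact hv (congrArg Prod.fst h)

open Classical in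
/-- The Dirichlet form of one permutation, restricted to the configurations with label `a` in
the block `B`. -/
noncomputable def g2_D (N : ℕ) (h : (Ix N → BX) → ℝ) (B : Ix N) (a : Cell) (σ : Equiv.Perm Cell) : ℝ :=
  ∑ ω, if (ω B).2 = a then (h (g2_act N B σ ω) - h ω) ^ 2 else 0

theorem g2_D_nonneg (N : ℕ) (h : (Ix N → BX) → ℝ) (B : Ix N) (a : Cell) (σ : Equiv.Perm Cell) :
    0 ≤ g2_D N h B a σ := by
  unfold g2_D
  refine Finset.sum_nonneg (fun ω _ => ?_)
  split_ifs
  · positivity
  · exact le_rfl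

theorem g2_D_shift (N : ℕ) (h : (Ix N → BX) → ℝ) (B : Ix N) (a : Cell) (σ τ : Equiv.Perm Cell) :
    (∑ ω, if (ω B).2 = a then (h (g2_act N B σ (g2_act N B τ ω)) - h (g2_act N B τ ω)) ^ 2 else 0) =
      g2_D N h B a σ := by
  unfold g2_D
  rw [← Equiv.sum_comp (g2_equiv N B τ) (fun ω => if (ω B).2 = a then (h (g2_act N B σ ω) - h ω) ^ 2 else 0)]
  refine Finset.sum_congr rfl (fun ω _ => ?_)
  show _ = if (g2_act N B τ ω B).2 = a then _ else _
  rw [g2_act_label]
  rfl

theorem g2_list (N : ℕ) (h : (Ix N → BX) → ℝ) (B : Ix N) (a : Cell) (l : List (Equiv.Perm Cell)) :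
    g2_D N h B a l.prod ≤ l.length * (l.map (g2_D N h B a)).sum := by
  induction l with
  | nil =>
    simp only [List.prod_nil, List.length_nil, Nat.cast_zero, zero_mul]
    unfold g2_D
    refine le_of_eq (Finset.sum_eq_zero (fun ω _ => ?_))
    rw [g2_act_one]
    simp
  | cons σ l ih =>
    rw [List.prod_cons, List.map_cons, List.sum_cons, List.length_cons]
    set n : ℝ := (l.length : ℝ) with hn
    have hn0 : 0 ≤ n := by positivity
    set S : ℝ := (l.map (g2_D N h B a)).sum with hS
    push_cast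
    rw [← hn]
    -- the first step
    have key : (∀ ε : ℝ, 0 < ε → g2_D N h B a (σ * l.prod) ≤
        (1 + ε) * g2_D N h B a σ + (1 + ε⁻¹) * g2_D N h B a l.prod) := by
      intro ε hε
      rw [← g2_D_shift N h B a l.prod σ]
      unfold g2_D
      rw [Finset.mul_sum, Finset.mul_sum, ← Finset.sum_add_distrib]
      refine Finset.sum_le_sum (fun ω _ => ?_)
      rw [← g2_act_mul]
      split_ifs with hl
      · set x := h (g2_act N B σ ω) - h ω with hx
        set y := h (g2_act N B l.prod (g2_act N B σ ω)) - h (g2_act N B σ ω) with hy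
        have e1 : h (g2_act N B l.prod (g2_act N B σ ω)) - h ω = x + y := by rw [hx, hy]; ring
        rw [e1]
        have e2 : (1 + ε) * x ^ 2 + (1 + ε⁻¹) * y ^ 2 - (x + y) ^ 2 = ε⁻¹ * (ε * x - y) ^ 2 := by
          field_simp
          ring
        have e3 : 0 ≤ ε⁻¹ * (ε * x - y) ^ 2 := by positivity
        linarith
      · simp
    by_cases hl : l = []
    · subst hl
      simp only [List.map_nil, List.sum_nil, List.length_nil, Nat.cast_zero] at hS hn
      rw [hS, hn]
      simp
    · have hpos : 0 < n := by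
        rw [hn]
        exact_mod_cast List.length_pos_of_ne_nil hl
      have h1 := key n hpos
      have h2 : (1 + n⁻¹) * g2_D N h B a l.prod ≤ (1 + n⁻¹) * (n * S) :=
        mul_le_mul_of_nonneg_left ih (by positivity)
      have h3 : (1 + n⁻¹) * (n * S) = (n + 1) * S := by
        field_simp
      linarith

/-- A list of adjacent transpositions with product the transposition of the label and the
centre. -/
def g2_path (a : Cell) : List (Cell × Cell) :=
  let X : List Cell := if a.1 = 0 then [(1, 2), (0, 2)] else if a.1 = 1 then [(1, 2)] else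
    if a.1 = 2 then [] else if a.1 = 3 then [(3, 2)] else [(3, 2), (4, 2)]
  let Y : List Cell := if a.2 = 0 then [(a.1, 1), (a.1, 0)] else if a.2 = 1 then [(a.1, 1)] else
    if a.2 = 2 then [] else if a.2 = 3 then [(a.1, 3)] else [(a.1, 3), (a.1, 4)]
  let P : List Cell := cen :: (X ++ Y)
  let E : List (Cell × Cell) := P.zip P.tail
  E ++ E.dropLast.reverse

theorem g2_path_length : ∀ a : Cell, (g2_path a).length ≤ 7 := by decide +kernel

section
attribute [local instance] g2_decAdj

theorem g2_path_adj : ∀ a : Cell, ∀ p ∈ g2_path a, Adj (posC p.1) (posC p.2) := by decide +kernel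

end

theorem g2_path_prod : ∀ a : Cell,
    ((g2_path a).map (fun p => Equiv.swap p.1 p.2)).prod = Equiv.swap a cen := by decide +kernel

open Classical in
/-- Sum over the adjacent pairs of cells of the block `B`. -/
noncomputable def g2_T (N : ℕ) (h : (Ix N → BX) → ℝ) (B : Ix N) (a : Cell) : ℝ :=
  ∑ p : Cell × Cell, if Adj (posC p.1) (posC p.2) then g2_D N h B a (Equiv.swap p.1 p.2) else 0

open Classical in
theorem g2_label (N : ℕ) (h : (Ix N → BX) → ℝ) (B : Ix N) (a : Cell) :
    g2_D N h B a (Equiv.swap a cen) ≤ 49 * g2_T N h B a := by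
  have h1 := g2_list N h B a ((g2_path a).map (fun p => Equiv.swap p.1 p.2))
  rw [g2_path_prod, List.length_map, List.map_map] at h1
  have hT : 0 ≤ g2_T N h B a := by
    unfold g2_T
    refine Finset.sum_nonneg (fun p _ => ?_)
    split_ifs
    · exact g2_D_nonneg _ _ _ _ _
    · exact le_rfl
  have h2 : ((g2_path a).map ((g2_D N h B a) ∘ (fun p => Equiv.swap p.1 p.2))).sum ≤
      (g2_path a).length * g2_T N h B a := by
    have h3 : ∀ p ∈ g2_path a, g2_D N h B a (Equiv.swap p.1 p.2) ≤ g2_T N h B a := by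
      intro p hp
      have hadj := g2_path_adj a p hp
      unfold g2_T
      refine le_trans (le_of_eq ?_) (Finset.single_le_sum (f := fun p : Cell × Cell =>
        if Adj (posC p.1) (posC p.2) then g2_D N h B a (Equiv.swap p.1 p.2) else 0) (fun q _ => ?_)
        (Finset.mem_univ p))
      · show _ = if Adj (posC p.1) (posC p.2) then g2_D N h B a (Equiv.swap p.1 p.2) else 0
        rw [if_pos hadj]
      · show 0 ≤ if Adj (posC q.1) (posC q.2) then g2_D N h B a (Equiv.swap q.1 q.2) else 0
        split_ifs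
        · exact g2_D_nonneg _ _ _ _ _
        · exact le_rfl
    have h4 := List.sum_le_card_nsmul ((g2_path a).map ((g2_D N h B a) ∘ (fun p => Equiv.swap p.1 p.2)))
      (g2_T N h B a) (by
        intro x hx
        rw [List.mem_map] at hx
        obtain ⟨p, hp, rfl⟩ := hx
        exact h3 p hp)
    rw [List.length_map, nsmul_eq_mul] at h4
    exact h4
  have hlen : ((g2_path a).length : ℝ) ≤ 7 := by exact_mod_cast g2_path_length a
  have hlen0 : 0 ≤ ((g2_path a).length : ℝ) := by positivity
  calc g2_D N h B a (Equiv.swap a cen) ≤ (g2_path a).length *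
        ((g2_path a).map ((g2_D N h B a) ∘ (fun p => Equiv.swap p.1 p.2))).sum := h1
    _ ≤ (g2_path a).length * ((g2_path a).length * g2_T N h B a) :=
        mul_le_mul_of_nonneg_left h2 hlen0
    _ ≤ 7 * (7 * g2_T N h B a) := by
        have : ((g2_path a).length : ℝ) * g2_T N h B a ≤ 7 * g2_T N h B a :=
          mul_le_mul_of_nonneg_right hlen hT
        exact mul_le_mul hlen this (by positivity) (by norm_num)
    _ = 49 * g2_T N h B a := by ring

/-- One block. -/
theorem g2_block (N : ℕ) (h : (Ix N → BX) → ℝ) (B : Ix N) :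
    ∑ ω, (h (Noise.flipS iotaG {B} ω) - h ω) ^ 2 ≤ 49 * ∑ a : Cell, g2_T N h B a := by
  classical
  have h1 : ∀ ω : Ix N → BX, (h (Noise.flipS iotaG {B} ω) - h ω) ^ 2 ≤
      ∑ a : Cell, if (ω B).2 = a then (h (g2_act N B (Equiv.swap a cen) ω) - h ω) ^ 2 else 0 := by
    intro ω
    rw [Finset.sum_ite_eq Finset.univ (ω B).2
      (fun a => (h (g2_act N B (Equiv.swap a cen) ω) - h ω) ^ 2)]
    rw [if_pos (Finset.mem_univ _)]
    by_cases hA : Active (ω B)
    · have : Noise.flipS iotaG {B} ω = g2_act N B (Equiv.swap (ω B).2 cen) ω := by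
        funext v
        unfold Noise.flipS g2_act
        by_cases hv : v = B
        · subst hv
          rw [if_pos (Finset.mem_singleton_self _), if_pos rfl]
          unfold iotaG
          rw [if_pos hA]
        · rw [if_neg (by simpa using hv), if_neg hv]
      rw [this]
    · have : Noise.flipS iotaG {B} ω = ω := by
        funext v
        unfold Noise.flipS
        by_cases hv : v = B
        · subst hv
          rw [if_pos (Finset.mem_singleton_self _)]
          unfold iotaG
          rw [if_neg hA]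
        · rw [if_neg (by simpa using hv)]
      rw [this, sub_self, zero_pow (by norm_num)]
      exact sq_nonneg _
  calc ∑ ω, (h (Noise.flipS iotaG {B} ω) - h ω) ^ 2
      ≤ ∑ ω : Ix N → BX, ∑ a : Cell, (if (ω B).2 = a then
          (h (g2_act N B (Equiv.swap a cen) ω) - h ω) ^ 2 else 0) :=
        Finset.sum_le_sum (fun ω _ => h1 ω)
    _ = ∑ a : Cell, g2_D N h B a (Equiv.swap a cen) := by
        rw [Finset.sum_comm]
        rfl
    _ ≤ ∑ a : Cell, 49 * g2_T N h B a := Finset.sum_le_sum (fun a _ => g2_label N h B a)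
    _ = 49 * ∑ a : Cell, g2_T N h B a := by rw [Finset.mul_sum]

open Classical in
theorem g2_sumT (N : ℕ) (h : (Ix N → BX) → ℝ) (B : Ix N) :
    ∑ a : Cell, g2_T N h B a = ∑ p : Cell × Cell, if Adj (posC p.1) (posC p.2) then
      ∑ ω, (h (swapω N (B, p.1) (B, p.2) ω) - h ω) ^ 2 else 0 := by
  unfold g2_T
  rw [Finset.sum_comm]
  refine Finset.sum_congr rfl (fun p _ => ?_)
  split_ifs with hp
  · unfold g2_D
    rw [Finset.sum_comm]
    refine Finset.sum_congr rfl (fun ω _ => ?_)
    rw [Finset.sum_ite_eq, if_pos (Finset.mem_univ _), g2_swap]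
  · simp

theorem g2_site_adj (N : ℕ) (B : Ix N) (c c' : Cell) (h : Adj (posC c) (posC c')) :
    Adj (site N B c) (site N B c') := by
  unfold Adj at *
  unfold site
  simp only
  omega

theorem g_dirichlet : S_dirichlet := by
  classical
  intro N h
  set G : (Ix N × Cell) × (Ix N × Cell) → ℝ := fun p =>
    ∑ ω, (h (swapω N p.1 p.2 ω) - h ω) ^ 2 with hG
  have hG0 : ∀ p, 0 ≤ G p := fun p => Finset.sum_nonneg (fun ω _ => by positivity)
  have step1 : ∑ B : Ix N, ∑ ω, (h (Noise.flipS iotaG {B} ω) - h ω) ^ 2 ≤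
      49 * ∑ B : Ix N, ∑ p : Cell × Cell, if Adj (posC p.1) (posC p.2) then
        G ((B, p.1), (B, p.2)) else 0 := by
    rw [Finset.mul_sum]
    refine Finset.sum_le_sum (fun B _ => ?_)
    have := g2_block N h B
    rw [g2_sumT] at this
    exact this
  refine le_trans step1 (mul_le_mul_of_nonneg_left ?_ (by norm_num))
  -- injection of the pairs
  have e1 : ∑ B : Ix N, ∑ p : Cell × Cell, (if Adj (posC p.1) (posC p.2) then
        G ((B, p.1), (B, p.2)) else 0) =
      ∑ q ∈ (Finset.univ : Finset (Ix N × (Cell × Cell))).filter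
        (fun q => Adj (posC q.2.1) (posC q.2.2)), G ((q.1, q.2.1), (q.1, q.2.2)) := by
    rw [Finset.sum_filter]
    exact (Fintype.sum_prod_type (f := fun q : Ix N × (Cell × Cell) =>
      if Adj (posC q.2.1) (posC q.2.2) then G ((q.1, q.2.1), (q.1, q.2.2)) else 0)).symm
  rw [e1]
  have hinj : Function.Injective (fun q : Ix N × (Cell × Cell) =>
      (((q.1, q.2.1), (q.1, q.2.2)) : (Ix N × Cell) × (Ix N × Cell))) := by
    rintro ⟨B, c, c'⟩ ⟨B', d, d'⟩ he
    simp only [Prod.mk.injEq] at he
    obtain ⟨⟨rfl, rfl⟩, _, rfl⟩ := he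
    rfl
  have e2 := Finset.sum_map ((Finset.univ : Finset (Ix N × (Cell × Cell))).filter
        (fun q => Adj (posC q.2.1) (posC q.2.2))) ⟨_, hinj⟩ G
  refine le_trans (le_of_eq e2.symm) ?_
  refine Finset.sum_le_sum_of_subset_of_nonneg ?_ (fun p _ _ => hG0 p)
  intro p hp
  rw [Finset.mem_map] at hp
  obtain ⟨q, hq, rfl⟩ := hp
  rw [Finset.mem_filter] at hq
  unfold adjPairs
  rw [Finset.mem_filter]
  exact ⟨Finset.mem_univ _, g2_site_adj N q.1 q.2.1 q.2.2 hq.2⟩

end TriX
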