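import Pool.Agent.EX.Spec3

/-! Module G3 of project EX: resolvent comparison. -/

open Finset

namespace TriX

section G3

variable {N : ℕ}

theorem g3_swap_swap (s s' : Ix N × Cell) (ω : Ix N → BX) :
    swapω N s s' (swapω N s s' ω) = ω := by
  funext v
  refine Prod.ext ?_ rfl
  funext c
  show (ω (Equiv.swap s s' ((Equiv.swap s s' (v, c)).1, (Equiv.swap s s' (v, c)).2)).1).1
    (Equiv.swap s s' ((Equiv.swap s s' (v, c)).1, (Equiv.swap s s' (v, c)).2)).2 = (ω v).1 c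
  rw [Prod.mk.eta, Equiv.swap_apply_self]

/-- For a measure preserving involution `φ`: `<h, h - h φ> = 1/2 sum (h φ - h)^2`. -/
theorem g3_invol {Ω : Type} [Fintype Ω] (φ : Ω → Ω) (hφ : ∀ x, φ (φ x) = x) (h : Ω → ℝ) :
    ∑ ω, h ω * (h ω - h (φ ω)) = 1 / 2 * ∑ ω, (h (φ ω) - h ω) ^ 2 := by
  have e : ∑ ω, h (φ ω) ^ 2 = ∑ ω, h ω ^ 2 :=
    Equiv.sum_comp (Function.Involutive.toPerm φ hφ) (fun ω => h ω ^ 2)
  have e2 : ∑ ω, (h (φ ω) - h ω) ^ 2 = ∑ ω, h (φ ω) ^ 2 - 2 * ∑ ω, h ω * h (φ ω) + ∑ ω, h ω ^ 2 := by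
    rw [Finset.mul_sum, ← Finset.sum_sub_distrib, ← Finset.sum_add_distrib]
    refine Finset.sum_congr rfl fun ω _ => ?_
    ring
  have e3 : ∑ ω, h ω * (h ω - h (φ ω)) = ∑ ω, h ω ^ 2 - ∑ ω, h ω * h (φ ω) := by
    rw [← Finset.sum_sub_distrib]
    refine Finset.sum_congr rfl fun ω _ => ?_
    ring
  rw [e2, e3, e]
  ring

/-- The generator of the exclusion process. -/
noncomputable def gA (N : ℕ) (h : (Ix N → BX) → ℝ) : (Ix N → BX) → ℝ :=
  fun ω => 1 / 2 * ∑ p ∈ adjPairs N, (h ω - h (swapω N p.1 p.2 ω))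

theorem g3_A (h : (Ix N → BX) → ℝ) : ∑ ω, h ω * gA N h ω =
    1 / 4 * ∑ p ∈ adjPairs N, ∑ ω, (h (swapω N p.1 p.2 ω) - h ω) ^ 2 := by
  have e1 : ∀ ω, h ω * gA N h ω = 1 / 2 * ∑ p ∈ adjPairs N, h ω * (h ω - h (swapω N p.1 p.2 ω)) := by
    intro ω
    rw [gA, Finset.mul_sum, Finset.mul_sum, Finset.mul_sum]
    refine Finset.sum_congr rfl fun p _ => ?_
    ring
  rw [Finset.sum_congr rfl (fun ω _ => e1 ω), ← Finset.mul_sum, Finset.sum_comm,
    Finset.sum_congr rfl (fun p _ => g3_invol (swapω N p.1 p.2) (g3_swap_swap p.1 p.2) h),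
    ← Finset.mul_sum]
  ring

variable {I X : Type} [Fintype I] [DecidableEq I] [Fintype X]

omit [Fintype I] [Fintype X] in
theorem g3_flip_flip (ι : X → X) (hι : ∀ x, ι (ι x) = x) (U : Finset I) (ω : I → X) :
    Noise.flipS ι U (Noise.flipS ι U ω) = ω := by
  funext B
  unfold Noise.flipS
  by_cases hB : B ∈ U
  · simp only [if_pos hB, hι]
  · simp only [if_neg hB]

/-- The generator of the coin flips. -/
noncomputable def gG (ι : X → X) : Module.End ℝ ((I → X) → ℝ) :=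
  ∑ B : I, (1 - Noise.coinAvg ι B)

omit [Fintype X] in
theorem gG_apply (ι : X → X) (h : (I → X) → ℝ) (ω : I → X) :
    gG ι h ω = ∑ B : I, (h ω - Noise.coinAvg ι B h ω) := by
  rw [gG, LinearMap.sum_apply, Finset.sum_apply]
  rfl

theorem g3_G (ι : X → X) (hι : ∀ x, ι (ι x) = x) (h : (I → X) → ℝ) : ∑ ω, h ω * gG ι h ω =
    1 / 4 * ∑ B : I, ∑ ω, (h (Noise.flipS ι {B} ω) - h ω) ^ 2 := by
  have e1 : ∀ ω, h ω * gG ι h ω =
      1 / 2 * ∑ B : I, h ω * (h ω - h (Noise.flipS ι {B} ω)) := by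
    intro ω
    rw [gG_apply, Finset.mul_sum, Finset.mul_sum]
    refine Finset.sum_congr rfl fun B _ => ?_
    show h ω * (h ω - (h ω + h (Noise.flipS ι {B} ω)) / 2) = _
    ring
  rw [Finset.sum_congr rfl (fun ω _ => e1 ω), ← Finset.mul_sum, Finset.sum_comm,
    Finset.sum_congr rfl (fun B _ => g3_invol (Noise.flipS ι {B}) (g3_flip_flip ι hι {B}) h),
    ← Finset.mul_sum]
  ring

theorem g3_G_symm (ι : X → X)
    (hs : ∀ (B : I) (f g : (I → X) → ℝ),
      ∑ ω, Noise.coinAvg ι B f ω * g ω = ∑ ω, f ω * Noise.coinAvg ι B g ω)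
    (f g : (I → X) → ℝ) : ∑ ω, gG ι f ω * g ω = ∑ ω, f ω * gG ι g ω := by
  simp only [gG_apply, Finset.sum_mul, Finset.mul_sum]
  rw [Finset.sum_comm, Finset.sum_comm (s := (Finset.univ : Finset (I → X)))]
  refine Finset.sum_congr rfl fun B _ => ?_
  simp only [sub_mul, mul_sub, Finset.sum_sub_distrib]
  rw [hs B f g]

theorem g3_algebra {Ω : Type} [Fintype Ω] (F v v' Gv Gv' : Ω → ℝ) (t : ℝ)
    (hF : ∀ ω, F ω = v' ω + t * Gv' ω) (hs : ∑ ω, Gv' ω * v ω = ∑ ω, v' ω * Gv ω) :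
    2 * ∑ ω, F ω * v ω - ∑ ω, v ω * v ω - t * ∑ ω, v ω * Gv ω =
      ∑ ω, F ω * v' ω - ∑ ω, (v ω - v' ω) * (v ω - v' ω) -
        t * ∑ ω, (v ω - v' ω) * (Gv ω - Gv' ω) := by
  have e1 : ∑ ω, F ω * v ω = ∑ ω, v' ω * v ω + t * ∑ ω, Gv' ω * v ω := by
    rw [Finset.mul_sum, ← Finset.sum_add_distrib]
    exact Finset.sum_congr rfl fun ω _ => by rw [hF]; ring
  have e2 : ∑ ω, F ω * v' ω = ∑ ω, v' ω * v' ω + t * ∑ ω, Gv' ω * v' ω := by
    rw [Finset.mul_sum, ← Finset.sum_add_distrib]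
    exact Finset.sum_congr rfl fun ω _ => by rw [hF]; ring
  have e3 : ∑ ω, (v ω - v' ω) * (v ω - v' ω) =
      ∑ ω, v ω * v ω - 2 * ∑ ω, v' ω * v ω + ∑ ω, v' ω * v' ω := by
    rw [Finset.mul_sum, ← Finset.sum_sub_distrib, ← Finset.sum_add_distrib]
    exact Finset.sum_congr rfl fun ω _ => by ring
  have e4 : ∑ ω, (v ω - v' ω) * (Gv ω - Gv' ω) =
      ∑ ω, v ω * Gv ω - ∑ ω, Gv' ω * v ω - ∑ ω, v' ω * Gv ω + ∑ ω, Gv' ω * v' ω := by
    rw [← Finset.sum_sub_distrib, ← Finset.sum_sub_distrib, ← Finset.sum_add_distrib]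
    exact Finset.sum_congr rfl fun ω _ => by ring
  rw [e1, e2, e3, e4, ← hs]
  ring

theorem g3_integral {J : Type} [Fintype J] [DecidableEq J] (a : Finset J → ℝ) :
    ∫ u in (0 : ℝ)..1, ∑ S : Finset J, u ^ S.card * a S = ∑ S : Finset J, a S / (S.card + 1) := by
  rw [intervalIntegral.integral_finsetSum]
  · refine Finset.sum_congr rfl fun S _ => ?_
    rw [intervalIntegral.integral_mul_const, integral_pow]
    simp only [one_pow, zero_pow (Nat.succ_ne_zero _), sub_zero]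
    ring
  · intro S _
    exact ((continuous_id.pow _).mul continuous_const).intervalIntegrable _ _

end G3

theorem g_resolvent (hn : Noise.S_N1) (hb : Noise.S_N1b) (h2 : Noise.S_N2) (hd : S_dirichlet)
    (hg : S_gadget) : S_resolvent := by
  obtain ⟨c, hcι, _, _⟩ := hg
  have hι : ∀ x, iotaG (iotaG x) = x := by
    intro x
    rw [← hcι]
    exact c.invol x
  intro N κ F v hκ hκ1 hv
  obtain ⟨b1, b2, b3, _⟩ := hb (Ix N) BX iotaG hι
  obtain ⟨n1, n2, n3, n4, n5⟩ := hn (Ix N → BX) (Ix N) (Noise.coinAvg iotaG) b1 b2 b3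
  have h2' := h2 (Ix N) BX iotaG hι
  set cS : Finset (Ix N) → ((Ix N → BX) → ℝ) := fun S => Noise.comp (Noise.coinAvg iotaG) S F
    with hcS
  have hGc : ∀ S, gG iotaG (cS S) = (S.card : ℝ) • cS S := by
    intro S
    funext ω
    rw [gG_apply]
    have e : ∀ B : Ix N, cS S ω - Noise.coinAvg iotaG B (cS S) ω =
        if B ∈ S then cS S ω else 0 := by
      intro B
      have h4 : Noise.coinAvg iotaG B (cS S) = if B ∈ S then 0 else cS S := n4 S B F
      rw [h4]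
      by_cases hB : B ∈ S
      · simp only [if_pos hB, Pi.zero_apply, sub_zero]
      · simp only [if_neg hB, sub_self]
    rw [Finset.sum_congr rfl (fun B _ => e B), Finset.sum_ite_mem, Finset.univ_inter,
      Finset.sum_const, nsmul_eq_mul]
    rfl
  set a : Finset (Ix N) → ℝ := fun S => (1 + κ / 49 * S.card)⁻¹ with ha
  have hapos : ∀ S : Finset (Ix N), 0 < 1 + κ / 49 * (S.card : ℝ) := fun S => by positivity
  set v' : (Ix N → BX) → ℝ := ∑ S, a S • cS S with hv'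
  have hGv' : gG iotaG v' = ∑ S, (a S * S.card) • cS S := by
    rw [hv', map_sum]
    refine Finset.sum_congr rfl fun S _ => ?_
    rw [map_smul, hGc, smul_smul]
  have hFsum : F = ∑ S, cS S := (n1 F).symm
  have hF : ∀ ω, F ω = v' ω + κ / 49 * gG iotaG v' ω := by
    intro ω
    rw [hGv', hv', Finset.sum_apply, Finset.sum_apply, Finset.mul_sum, ← Finset.sum_add_distrib]
    conv_lhs => rw [hFsum, Finset.sum_apply]
    refine Finset.sum_congr rfl fun S _ => ?_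
    simp only [Pi.smul_apply, smul_eq_mul]
    have h1 : a S * (1 + κ / 49 * S.card) = 1 := inv_mul_cancel₀ (hapos S).ne'
    have h3 : a S * cS S ω + κ / 49 * (a S * (S.card : ℝ) * cS S ω) =
        (a S * (1 + κ / 49 * S.card)) * cS S ω := by ring
    rw [h3, h1, one_mul]
  have hsymm := g3_G_symm (I := Ix N) iotaG b3
  have halg := g3_algebra F v v' (gG iotaG v) (gG iotaG v') (κ / 49) hF (hsymm v' v)
  -- the form of A
  have hA : ∑ ω, F ω * v ω = ∑ ω, v ω * v ω + κ * ∑ ω, v ω * gA N v ω := by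
    rw [Finset.mul_sum, ← Finset.sum_add_distrib]
    refine Finset.sum_congr rfl fun ω _ => ?_
    rw [← hv ω, gA]
    ring
  have hGA : ∑ ω, v ω * gG iotaG v ω ≤ 49 * ∑ ω, v ω * gA N v ω := by
    rw [g3_G iotaG hι, g3_A]
    have := hd N v
    linarith
  have hx6 : 0 ≤ ∑ ω, (v ω - v' ω) * (v ω - v' ω) :=
    Finset.sum_nonneg fun ω _ => mul_self_nonneg _
  have hx7 : 0 ≤ ∑ ω, (v ω - v' ω) * (gG iotaG v ω - gG iotaG v' ω) := by
    have h1 := g3_G iotaG hι (v - v')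
    rw [map_sub] at h1
    have h3 : ∑ ω, (v ω - v' ω) * (gG iotaG v ω - gG iotaG v' ω) =
        ∑ ω, (v - v') ω * (gG iotaG v - gG iotaG v') ω := rfl
    rw [h3, h1]
    refine mul_nonneg (by norm_num) ?_
    exact Finset.sum_nonneg fun B _ => Finset.sum_nonneg fun ω _ => sq_nonneg _
  have hmain : ∑ ω, F ω * v ω ≤ ∑ ω, F ω * v' ω := by
    have h1 : κ / 49 * ∑ ω, v ω * gG iotaG v ω ≤ κ * ∑ ω, v ω * gA N v ω := by
      have := mul_le_mul_of_nonneg_left hGA (show 0 ≤ κ / 49 by positivity)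
      calc κ / 49 * ∑ ω, v ω * gG iotaG v ω ≤ κ / 49 * (49 * ∑ ω, v ω * gA N v ω) := this
        _ = κ * ∑ ω, v ω * gA N v ω := by ring
    have h3 : 0 ≤ κ / 49 * ∑ ω, (v ω - v' ω) * (gG iotaG v ω - gG iotaG v' ω) :=
      mul_nonneg (by positivity) hx7
    linarith
  -- the value of <F, v'>
  have hcomp : ∀ S, ∑ ω, F ω * cS S ω = ∑ ω, cS S ω ^ 2 := by
    intro S
    have e1 : ∀ ω, F ω * cS S ω = ∑ S', cS S' ω * cS S ω := by
      intro ω
      conv_lhs => rw [hFsum, Finset.sum_apply]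
      rw [Finset.sum_mul]
    rw [Finset.sum_congr rfl (fun ω _ => e1 ω), Finset.sum_comm,
      Finset.sum_eq_single_of_mem S (Finset.mem_univ S)]
    · exact Finset.sum_congr rfl fun ω _ => by ring
    · intro S' _ hS'
      exact n2 S' S F F hS'
  have hval : ∑ ω, F ω * v' ω = ∑ S, a S * ∑ ω, cS S ω ^ 2 := by
    have e1 : ∀ ω, F ω * v' ω = ∑ S, a S * (F ω * cS S ω) := by
      intro ω
      rw [hv', Finset.sum_apply, Finset.mul_sum]
      refine Finset.sum_congr rfl fun S _ => ?_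
      simp only [Pi.smul_apply, smul_eq_mul]
      ring
    rw [Finset.sum_congr rfl (fun ω _ => e1 ω), Finset.sum_comm]
    refine Finset.sum_congr rfl fun S _ => ?_
    rw [← Finset.mul_sum, hcomp]
  have hale : ∀ S, a S ≤ 49 / κ * (1 / ((S.card : ℝ) + 1)) := by
    intro S
    have h1 : (0 : ℝ) < (S.card : ℝ) + 1 := Nat.cast_add_one_pos _
    rw [div_mul_div_comm, mul_one]
    show (1 + κ / 49 * (S.card : ℝ))⁻¹ ≤ _
    rw [inv_eq_one_div, div_le_div_iff₀ (hapos S) (mul_pos hκ h1)]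
    have h3 : (0:ℝ) ≤ S.card := Nat.cast_nonneg _
    nlinarith
  -- normalisation
  set n : ℝ := (Fintype.card (Ix N → BX) : ℝ) with hn'
  have hnpos : 0 ≤ n := Nat.cast_nonneg _
  have hint : ∫ u in (0 : ℝ)..1, Noise.E (fun ω => F ω * Noise.T iotaG u F ω) =
      ∑ S, (∑ ω, cS S ω ^ 2) / n / (S.card + 1) := by
    rw [← g3_integral]
    refine intervalIntegral.integral_congr fun u _ => ?_
    exact (h2' u F).2.1
  rw [hint, Finset.mul_sum]
  show (∑ ω, F ω * v ω) / n ≤ _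
  calc (∑ ω, F ω * v ω) / n ≤ (∑ S, a S * ∑ ω, cS S ω ^ 2) / n := by
        rw [← hval]
        exact div_le_div_of_nonneg_right hmain hnpos
    _ = ∑ S, a S * ((∑ ω, cS S ω ^ 2) / n) := by
        rw [Finset.sum_div]
        exact Finset.sum_congr rfl fun S _ => by ring
    _ ≤ ∑ S, 49 / κ * ((∑ ω, cS S ω ^ 2) / n / (S.card + 1)) := by
        refine Finset.sum_le_sum fun S _ => ?_
        have h1 : 0 ≤ (∑ ω, cS S ω ^ 2) / n :=
          div_nonneg (Finset.sum_nonneg fun ω _ => sq_nonneg _) hnpos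
        have h3 := mul_le_mul_of_nonneg_right (hale S) h1
        calc a S * ((∑ ω, cS S ω ^ 2) / n) ≤ _ := h3
          _ = _ := by ring

end TriX
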