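import Pool.Agent.EX.Spec3

/-! Project EX (MP_68260e), module G4: time average along the lazy chain (helper51). -/

open MeasureTheory

namespace TriX

namespace G4

variable {N : ℕ} {p : ℝ}

theorem step_eq (F : (Ix N → BX) → ℝ) (ω : Ix N → BX) :
    stepω N p F ω = (1 - p * (adjPairs N).card / 2) * F ω +
      p / 2 * ∑ q ∈ adjPairs N, F (swapω N q.1 q.2 ω) := by
  simp only [stepω, Finset.sum_sub_distrib, Finset.sum_const, nsmul_eq_mul]
  ring

theorem step_ge (hp : 0 ≤ p) (hc : p * (adjPairs N).card ≤ 1) {F : (Ix N → BX) → ℝ} {c : ℝ}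
    (h : ∀ ω, c ≤ F ω) (ω : Ix N → BX) : c ≤ stepω N p F ω := by
  rw [step_eq]
  have h1 : (adjPairs N).card * c ≤ ∑ q ∈ adjPairs N, F (swapω N q.1 q.2 ω) := by
    have := Finset.card_nsmul_le_sum (adjPairs N) (fun q => F (swapω N q.1 q.2 ω)) c
      (fun q _ => h _)
    rwa [nsmul_eq_mul] at this
  have h2 : 0 ≤ 1 - p * (adjPairs N).card / 2 := by linarith
  have h3 := mul_le_mul_of_nonneg_left (h ω) h2
  have h4 := mul_le_mul_of_nonneg_left h1 (by linarith : 0 ≤ p / 2)
  calc c = (1 - p * (adjPairs N).card / 2) * c + p / 2 * ((adjPairs N).card * c) := by ring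
    _ ≤ _ := add_le_add h3 h4

/-- the step as a linear map -/
noncomputable def K (N : ℕ) (p : ℝ) : Module.End ℝ ((Ix N → BX) → ℝ) where
  toFun := stepω N p
  map_add' F G := by
    funext ω
    rw [Pi.add_apply, step_eq, step_eq, step_eq]
    simp only [Pi.add_apply, Finset.sum_add_distrib]
    ring
  map_smul' c F := by
    funext ω
    rw [Pi.smul_apply, step_eq, step_eq]
    simp only [Pi.smul_apply, smul_eq_mul, ← Finset.mul_sum, RingHom.id_apply]
    ring

theorem K_apply (F : (Ix N → BX) → ℝ) : K N p F = stepω N p F := rfl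

theorem K_pow (F : (Ix N → BX) → ℝ) (k : ℕ) : ((K N p) ^ k) F = (stepω N p)^[k] F := by
  rw [Module.End.pow_apply]
  rfl

theorem pow_nonneg' (hp : 0 ≤ p) (hc : p * (adjPairs N).card ≤ 1) {F : (Ix N → BX) → ℝ}
    (h : ∀ ω, 0 ≤ F ω) (k : ℕ) (ω : Ix N → BX) : 0 ≤ (stepω N p)^[k] F ω := by
  induction k generalizing ω with
  | zero => exact h ω
  | succ k ih =>
    rw [Function.iterate_succ_apply']
    exact step_ge hp hc ih ω

theorem E_nonneg {f : (Ix N → BX) → ℝ} (h : ∀ ω, 0 ≤ f ω) : 0 ≤ Noise.E f :=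
  div_nonneg (Finset.sum_nonneg fun ω _ => h ω) (Nat.cast_nonneg _)

theorem E_add (f g : (Ix N → BX) → ℝ) :
    Noise.E (fun ω => f ω + g ω) = Noise.E f + Noise.E g := by
  simp only [Noise.E, Finset.sum_add_distrib, add_div]

theorem E_smul (c : ℝ) (f : (Ix N → BX) → ℝ) :
    Noise.E (fun ω => c * f ω) = c * Noise.E f := by
  simp only [Noise.E, ← Finset.mul_sum, mul_div_assoc]

theorem E_sum {ι : Type} (s : Finset ι) (f : ι → (Ix N → BX) → ℝ) :
    Noise.E (fun ω => ∑ i ∈ s, f i ω) = ∑ i ∈ s, Noise.E (f i) := by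
  simp only [Noise.E]
  rw [Finset.sum_comm, Finset.sum_div]

theorem exists_solution (hp : 0 ≤ p) (hc : p * (adjPairs N).card ≤ 1) {q : ℝ} (hq0 : 0 ≤ q)
    (hq1 : q < 1) (F : (Ix N → BX) → ℝ) : ∃ V : (Ix N → BX) → ℝ, V = F + q • K N p V := by
  have hinj : Function.Injective (1 - q • K N p : Module.End ℝ ((Ix N → BX) → ℝ)) := by
    rw [← LinearMap.ker_eq_bot, LinearMap.ker_eq_bot']
    intro V hV
    have hV' : V = q • K N p V := by
      rw [LinearMap.sub_apply, Module.End.one_apply, LinearMap.smul_apply, sub_eq_zero] at hV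
      exact hV
    obtain ⟨ω0, hω0⟩ := Finite.exists_max (fun ω : Ix N → BX => |V ω|)
    have h1 : |K N p V ω0| ≤ |V ω0| := by
      rw [K_apply, abs_le]
      constructor
      · exact step_ge hp hc (fun ω => (abs_le.1 (hω0 ω)).1) ω0
      · have h2 : -|V ω0| ≤ stepω N p (-V) ω0 := step_ge hp hc (fun ω => by
          have := (abs_le.1 (hω0 ω)).2
          rw [Pi.neg_apply]
          linarith) ω0
        have h3 : stepω N p (-V) ω0 = -stepω N p V ω0 := by
          have := congrFun ((K N p).map_neg V) ω0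
          exact this
        rw [h3] at h2
        linarith
    have h4 : |V ω0| = q * |K N p V ω0| := by
      conv_lhs => rw [hV']
      rw [Pi.smul_apply, smul_eq_mul, abs_mul, abs_of_nonneg hq0]
    have h5 : |V ω0| ≤ q * |V ω0| := by
      calc |V ω0| = q * |K N p V ω0| := h4
        _ ≤ q * |V ω0| := mul_le_mul_of_nonneg_left h1 hq0
    have h6 : |V ω0| = 0 := by
      have h7 := abs_nonneg (V ω0)
      nlinarith
    funext ω
    have := hω0 ω
    rw [h6] at this
    exact abs_eq_zero.1 (le_antisymm this (abs_nonneg _))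
  obtain ⟨V, hV⟩ := LinearMap.injective_iff_surjective.1 hinj F
  refine ⟨V, ?_⟩
  rw [LinearMap.sub_apply, Module.End.one_apply, LinearMap.smul_apply] at hV
  rw [← hV]
  abel

theorem solution_nonneg (hp : 0 ≤ p) (hc : p * (adjPairs N).card ≤ 1) {q : ℝ} (hq0 : 0 ≤ q)
    (hq1 : q < 1) {F V : (Ix N → BX) → ℝ} (hF : ∀ ω, 0 ≤ F ω) (hV : V = F + q • K N p V)
    (ω : Ix N → BX) : 0 ≤ V ω := by
  obtain ⟨ω0, hω0⟩ := Finite.exists_min (fun ω : Ix N → BX => V ω)
  have h1 : V ω0 ≤ K N p V ω0 := step_ge hp hc hω0 ω0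
  have h2 : V ω0 = F ω0 + q * K N p V ω0 := congrFun hV ω0
  have h3 : q * V ω0 ≤ q * K N p V ω0 := mul_le_mul_of_nonneg_left h1 hq0
  have h4 : 0 ≤ V ω0 := by
    have := hF ω0
    nlinarith
  exact h4.trans (hω0 ω)

theorem expansion {q : ℝ} {F V : (Ix N → BX) → ℝ} (hV : V = F + q • K N p V) (n : ℕ) :
    V = ∑ k ∈ Finset.range n, q ^ k • (stepω N p)^[k] F + q ^ n • (stepω N p)^[n] V := by
  induction n with
  | zero => simp
  | succ n ih =>
    have h1 : (stepω N p)^[n] V = (stepω N p)^[n] F + q • (stepω N p)^[n + 1] V := by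
      rw [← K_pow, ← K_pow, ← K_pow]
      conv_lhs => rw [hV]
      rw [map_add, map_smul, pow_succ]
      rfl
    conv_lhs => rw [ih, h1]
    rw [Finset.sum_range_succ, smul_add, smul_smul, ← pow_succ]
    abel

theorem third_le (m : ℕ) (hm : 2 ≤ m) : (1 / 3 : ℝ) ≤ (1 - 1 / (m : ℝ)) ^ (m - 1) := by
  obtain ⟨n, rfl⟩ : ∃ n, m = n + 1 := ⟨m - 1, by omega⟩
  have hn : 1 ≤ n := by omega
  have hn0 : (0 : ℝ) < n := by exact_mod_cast hn
  rw [Nat.add_sub_cancel]
  have h1 : (1 : ℝ) - 1 / ((n + 1 : ℕ) : ℝ) = (1 + 1 / (n : ℝ))⁻¹ := by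
    push_cast
    field_simp
    ring
  rw [h1, inv_pow]
  have h2 : (1 + 1 / (n : ℝ)) ^ n ≤ Real.exp 1 := by
    have h3 : 1 + 1 / (n : ℝ) ≤ Real.exp (1 / n) := by
      have := Real.add_one_le_exp (1 / (n : ℝ))
      linarith
    calc (1 + 1 / (n : ℝ)) ^ n ≤ (Real.exp (1 / n)) ^ n := by gcongr
      _ = Real.exp 1 := by
        rw [← Real.exp_nat_mul]
        congr 1
        field_simp
  have h4 := Real.exp_one_lt_three
  rw [one_div]
  apply inv_anti₀ (by positivity)
  linarith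

end G4

open G4 in
theorem g_chain (hr : S_resolvent) : S_chain := by
  intro N m p F hm hp hc hk1 hk2 hF
  have hm0 : (0 : ℝ) < m := by
    have : 0 < m := by omega
    exact_mod_cast this
  have hm2 : (2 : ℝ) ≤ m := by exact_mod_cast hm
  set q : ℝ := 1 - 1 / (m : ℝ) with hq
  have hinv : 1 / (m : ℝ) ≤ 1 / 2 := one_div_le_one_div_of_le (by norm_num) hm2
  have hinv0 : 0 < 1 / (m : ℝ) := by positivity
  have hq0 : 0 ≤ q := by rw [hq]; linarith
  have hq1 : q < 1 := by rw [hq]; linarith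
  obtain ⟨V, hV⟩ := exists_solution hp hc hq0 hq1 F
  have hV0 := solution_nonneg hp hc hq0 hq1 hF hV
  set κ : ℝ := ((m : ℝ) - 1) * p with hκ
  have hκ0 : 0 < κ := by linarith
  -- the resolvent equation
  have hres : ∀ ω, V ω / m + κ * (1 / 2 * ∑ p ∈ adjPairs N,
      (V ω / m - V (swapω N p.1 p.2 ω) / m)) = F ω := by
    intro ω
    have h1 : V ω = F ω + q * stepω N p V ω := congrFun hV ω
    have h2 : stepω N p V ω = V ω + p * (1 / 2 * ∑ q ∈ adjPairs N,
      (V (swapω N q.1 q.2 ω) - V ω)) := rfl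
    have h3 : ∑ p ∈ adjPairs N, (V ω / m - V (swapω N p.1 p.2 ω) / m) =
        -(∑ q ∈ adjPairs N, (V (swapω N q.1 q.2 ω) - V ω)) / m := by
      rw [← Finset.sum_neg_distrib, Finset.sum_div]
      refine Finset.sum_congr rfl fun x _ => ?_
      ring
    rw [h3]
    rw [h2] at h1
    generalize ∑ q ∈ adjPairs N, (V (swapω N q.1 q.2 ω) - V ω) = X at h1 ⊢
    have h4 : F ω = V ω - q * (V ω + p * (1 / 2 * X)) := by linarith
    rw [h4, hκ, hq]
    field_simp
    ring
  have hmain := hr N κ F (fun ω => V ω / m) hκ0 hk2 hres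
  set I : ℝ := ∫ u in (0 : ℝ)..1, Noise.E (fun ω => F ω * Noise.T iotaG u F ω) with hI
  -- lower bound for the left hand side
  have hexp := expansion (p := p) hV m
  have hEV : Noise.E (fun ω => F ω * V ω) =
      ∑ k ∈ Finset.range m, q ^ k * Noise.E (fun ω => F ω * ((stepω N p)^[k] F) ω) +
        q ^ m * Noise.E (fun ω => F ω * ((stepω N p)^[m] V) ω) := by
    have h1 : (fun ω => F ω * V ω) = fun ω =>
        (∑ k ∈ Finset.range m, q ^ k * (F ω * ((stepω N p)^[k] F) ω)) +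
          q ^ m * (F ω * ((stepω N p)^[m] V) ω) := by
      funext ω
      have h2 := congrFun hexp ω
      rw [Pi.add_apply, Finset.sum_apply] at h2
      simp only [Pi.smul_apply, smul_eq_mul] at h2
      conv_lhs => rw [h2]
      rw [mul_add, Finset.mul_sum]
      congr 1
      · refine Finset.sum_congr rfl fun k _ => ?_
        ring
      · ring
    rw [h1, E_add, E_smul, E_sum]
    congr 1
    refine Finset.sum_congr rfl fun k _ => ?_
    rw [E_smul]
  have hEk : ∀ k, 0 ≤ Noise.E (fun ω => F ω * ((stepω N p)^[k] F) ω) := fun k =>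
    E_nonneg fun ω => mul_nonneg (hF ω) (pow_nonneg' hp hc hF k ω)
  have hEm : 0 ≤ Noise.E (fun ω => F ω * ((stepω N p)^[m] V) ω) :=
    E_nonneg fun ω => mul_nonneg (hF ω) (pow_nonneg' hp hc hV0 m ω)
  have hlow : 1 / 3 * ∑ k ∈ Finset.range m, Noise.E (fun ω => F ω * ((stepω N p)^[k] F) ω) ≤
      Noise.E (fun ω => F ω * V ω) := by
    rw [hEV, Finset.mul_sum]
    have h1 : ∑ k ∈ Finset.range m, 1 / 3 * Noise.E (fun ω => F ω * ((stepω N p)^[k] F) ω) ≤
        ∑ k ∈ Finset.range m, q ^ k * Noise.E (fun ω => F ω * ((stepω N p)^[k] F) ω) := by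
      apply Finset.sum_le_sum
      intro k hk
      apply mul_le_mul_of_nonneg_right _ (hEk k)
      have h2 := third_le m hm
      have h3 : q ^ (m - 1) ≤ q ^ k :=
        pow_le_pow_of_le_one hq0 hq1.le (by have := Finset.mem_range.1 hk; omega)
      exact h2.trans h3
    have h4 : 0 ≤ q ^ m * Noise.E (fun ω => F ω * ((stepω N p)^[m] V) ω) :=
      mul_nonneg (pow_nonneg hq0 m) hEm
    linarith
  have hEv : Noise.E (fun ω => F ω * (V ω / m)) = Noise.E (fun ω => F ω * V ω) / m := by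
    have h1 : (fun ω => F ω * (V ω / m)) = fun ω => (1 / (m : ℝ)) * (F ω * V ω) := by
      funext ω; ring
    rw [h1, E_smul]
    ring
  rw [hEv] at hmain
  -- the integral is nonnegative
  set S : ℝ := ∑ k ∈ Finset.range m, Noise.E (fun ω => F ω * ((stepω N p)^[k] F) ω) with hS
  have hS0 : 0 ≤ S := Finset.sum_nonneg fun k _ => hEk k
  have h1 : S / m ≤ 3 * (49 / κ * I) := by
    have h2 : S ≤ 3 * Noise.E (fun ω => F ω * V ω) := by linarith
    calc S / m ≤ 3 * Noise.E (fun ω => F ω * V ω) / m := by gcongr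
      _ = 3 * (Noise.E (fun ω => F ω * V ω) / m) := by ring
      _ ≤ 3 * (49 / κ * I) := by gcongr
  have hI0 : 0 ≤ I := by
    have h2 : 0 ≤ 3 * (49 / κ * I) := le_trans (by positivity) h1
    have h3 : 0 < 49 / κ := by positivity
    have h4 : 0 ≤ 49 / κ * I := by linarith
    exact nonneg_of_mul_nonneg_right h4 h3
  have h5 : 49 / κ ≤ 98 := by
    rw [div_le_iff₀ hκ0]
    linarith
  calc S / m ≤ 3 * (49 / κ * I) := h1
    _ ≤ 3 * (98 * I) := by gcongr
    _ = 294 * I := by ring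

end TriX
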