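import Pool.Agent.EX.Spec1

/-! Project EX, module K3: Harris' inequality. -/

set_option autoImplicit false

open Finset

namespace TriX

namespace K3

open Classical in
/-- the number of subsets of `U` with the property `p` -/
noncomputable def cnt {W : Type} (U : Finset W) (p : Finset W → Prop) : ℝ :=
  ((U.powerset.filter p).card : ℝ)

theorem cnt_eq {W : Type} (U : Finset W) (p : Finset W → Prop) [DecidablePred p] :
    ((U.powerset.filter p).card : ℝ) = cnt U p := by
  unfold cnt
  congr

theorem pr_eq (hA : S_PrAvg) {W : Type} [Countable W] (f : Set W → Prop) (S : Finset W)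
    (h : DepOn f (S : Set W)) : Pr f = cnt S (fun A => f (A : Set W)) / 2 ^ S.card := by
  classical
  rw [hA W f S h, cnt_eq S (fun A => f (A : Set W))]

theorem cnt_congr {W : Type} {U : Finset W} {p q : Finset W → Prop}
    (h : ∀ A, A ⊆ U → (p A ↔ q A)) : cnt U p = cnt U q := by
  classical
  rw [← cnt_eq, ← cnt_eq, Finset.filter_congr fun A hA => h A (Finset.mem_powerset.1 hA)]

theorem split {W : Type} [DecidableEq W] (S U : Finset W) (hU : U ⊆ S) (h : Finset W → Prop) :
    cnt S h = ∑ D ∈ (S \ U).powerset, cnt U (fun A => h (D ∪ A)) := by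
  classical
  unfold cnt
  rw [← Nat.cast_sum]
  congr 1
  rw [Finset.card_eq_sum_card_fiberwise (f := fun A => A \ U) (t := (S \ U).powerset)]
  · refine Finset.sum_congr rfl fun D hD => ?_
    rw [Finset.mem_powerset] at hD
    have hDU : Disjoint D U := Finset.disjoint_of_subset_left hD Finset.sdiff_disjoint
    refine Finset.card_nbij' (fun A => A ∩ U) (fun A => D ∪ A) ?_ ?_ ?_ ?_
    · intro A hA
      simp only [Finset.coe_filter, Finset.mem_filter, Finset.mem_powerset, Set.mem_ofPred_eq] at hA ⊢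
      refine ⟨Finset.inter_subset_right, ?_⟩
      have : D ∪ A ∩ U = A := by
        rw [← hA.2]
        exact Finset.sdiff_union_inter A U
      rw [this]
      exact hA.1.2
    · intro A hA
      simp only [Finset.coe_filter, Finset.mem_filter, Finset.mem_powerset, Set.mem_ofPred_eq] at hA ⊢
      refine ⟨⟨Finset.union_subset (hD.trans Finset.sdiff_subset) (hA.1.trans hU), hA.2⟩, ?_⟩
      rw [Finset.union_sdiff_distrib, Finset.sdiff_eq_self_of_disjoint hDU,
        Finset.sdiff_eq_empty_iff_subset.2 hA.1, Finset.union_empty]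
    · intro A hA
      simp only [Finset.coe_filter, Finset.mem_filter, Finset.mem_powerset, Set.mem_ofPred_eq] at hA
      simp only
      rw [← hA.2]
      exact Finset.sdiff_union_inter A U
    · intro A hA
      simp only [Finset.coe_filter, Finset.mem_powerset, Set.mem_ofPred_eq] at hA
      simp only
      rw [Finset.union_inter_distrib_right, Finset.disjoint_iff_inter_eq_empty.1 hDU,
        Finset.empty_union, Finset.inter_eq_left.2 hA.1]
  · intro A hA
    simp only [Finset.coe_filter, Finset.mem_powerset, Set.mem_ofPred_eq, Finset.mem_coe] at hA ⊢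
    exact Finset.sdiff_subset_sdiff hA.1 le_rfl

/-- Harris for the cube over `U`: two decreasing events -/
theorem harris_dd {W : Type} (U : Finset W) (p q : Finset W → Prop)
    (hp : ∀ A B, A ⊆ B → B ⊆ U → p B → p A) (hq : ∀ A B, A ⊆ B → B ⊆ U → q B → q A) :
    cnt U p * cnt U q ≤ 2 ^ U.card * cnt U (fun A => p A ∧ q A) := by
  classical
  have h := IsLowerSet.le_card_inter_finset' (𝒜 := U.powerset.filter p)
    (ℬ := U.powerset.filter q) (s := U) ?_ ?_ ?_ ?_
  · rw [← Finset.filter_and] at h
    rw [← cnt_eq, ← cnt_eq, ← cnt_eq]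
    exact_mod_cast h
  · intro B A hAB hB
    simp only [Finset.coe_filter, Finset.mem_powerset, Set.mem_ofPred_eq] at hB ⊢
    exact ⟨hAB.trans hB.1, hp A B hAB hB.1 hB.2⟩
  · intro B A hAB hB
    simp only [Finset.coe_filter, Finset.mem_powerset, Set.mem_ofPred_eq] at hB ⊢
    exact ⟨hAB.trans hB.1, hq A B hAB hB.1 hB.2⟩
  · intro t ht
    exact Finset.mem_powerset.1 (Finset.mem_filter.1 ht).1
  · intro t ht
    exact Finset.mem_powerset.1 (Finset.mem_filter.1 ht).1

theorem cnt_not {W : Type} (U : Finset W) (p q : Finset W → Prop) :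
    cnt U (fun A => ¬ p A ∧ q A) = cnt U q - cnt U (fun A => p A ∧ q A) := by
  classical
  have h := Finset.card_filter_add_card_filter_not (s := U.powerset.filter q) p
  rw [Finset.filter_filter, Finset.filter_filter] at h
  have e1 : (U.powerset.filter fun A => q A ∧ ¬ p A) = U.powerset.filter fun A => ¬ p A ∧ q A :=
    Finset.filter_congr fun A _ => and_comm
  have e2 : (U.powerset.filter fun A => q A ∧ p A) = U.powerset.filter fun A => p A ∧ q A :=
    Finset.filter_congr fun A _ => and_comm
  rw [e1, e2] at h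
  have h' : ((U.powerset.filter fun A => p A ∧ q A).card : ℝ) +
      ((U.powerset.filter fun A => ¬ p A ∧ q A).card : ℝ) = (U.powerset.filter q).card := by
    exact_mod_cast h
  rw [cnt_eq, cnt_eq, cnt_eq] at h'
  linarith

theorem cnt_true {W : Type} (U : Finset W) : cnt U (fun _ => True) = 2 ^ U.card := by
  classical
  rw [← cnt_eq, Finset.filter_true_of_mem (fun _ _ => trivial), Finset.card_powerset]
  push_cast
  rfl

theorem cnt_not' {W : Type} (U : Finset W) (p : Finset W → Prop) :
    cnt U (fun A => ¬ p A) = 2 ^ U.card - cnt U p := by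
  have h := cnt_not U p (fun _ => True)
  simp only [and_true] at h
  rw [h, cnt_true]

/-- Harris for the cube: `p` increasing, `q` decreasing -/
theorem harris_id {W : Type} (U : Finset W) (p q : Finset W → Prop)
    (hp : ∀ A B, A ⊆ B → B ⊆ U → p A → p B) (hq : ∀ A B, A ⊆ B → B ⊆ U → q B → q A) :
    2 ^ U.card * cnt U (fun A => p A ∧ q A) ≤ cnt U p * cnt U q := by
  have h := harris_dd U (fun A => ¬ p A) q (fun A B h1 h2 h3 h4 => h3 (hp A B h1 h2 h4)) hq
  rw [cnt_not, cnt_not'] at h
  nlinarith

/-- Harris for the cube: two increasing events -/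
theorem harris_ii {W : Type} (U : Finset W) (p q : Finset W → Prop)
    (hp : ∀ A B, A ⊆ B → B ⊆ U → p A → p B) (hq : ∀ A B, A ⊆ B → B ⊆ U → q A → q B) :
    cnt U p * cnt U q ≤ 2 ^ U.card * cnt U (fun A => p A ∧ q A) := by
  have h := harris_id U q (fun A => ¬ p A) hq (fun A B h1 h2 h3 h4 => h3 (hp A B h1 h2 h4))
  have h2 : cnt U (fun A => q A ∧ ¬ p A) = cnt U (fun A => ¬ p A ∧ q A) :=
    cnt_congr fun A _ => and_comm
  rw [h2, cnt_not, cnt_not'] at h
  nlinarith

theorem DepOn.mono {W : Type} {α : Type} {f : Set W → α} {S T : Set W} (h : DepOn f S)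
    (hST : S ⊆ T) : DepOn f T := by
  intro B B' hB
  refine h B B' ?_
  ext x
  have := Set.ext_iff.1 hB x
  simp only [Set.mem_inter_iff] at this ⊢
  constructor
  · rintro ⟨h1, h2⟩
    exact ⟨(this.1 ⟨h1, hST h2⟩).1, h2⟩
  · rintro ⟨h1, h2⟩
    exact ⟨(this.2 ⟨h1, hST h2⟩).1, h2⟩

theorem pr_formulas (hA : S_PrAvg) {W : Type} [Countable W] [DecidableEq W] (f g : Set W → Prop)
    (U : Finset W) (hf : Loc f) (hg : DepOn g (U : Set W)) : ∃ (S : Finset W), U ⊆ S ∧
    Pr f = (∑ D ∈ (S \ U).powerset, cnt U (fun A => f ((D ∪ A : Finset W) : Set W))) / 2 ^ S.card ∧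
    Pr g = cnt U (fun A => g (A : Set W)) / 2 ^ U.card ∧
    Pr (fun B => f B ∧ g B) = (∑ D ∈ (S \ U).powerset,
      cnt U (fun A => f ((D ∪ A : Finset W) : Set W) ∧ g (A : Set W))) / 2 ^ S.card := by
  obtain ⟨S0, hS0⟩ := hf
  refine ⟨S0 ∪ U, Finset.subset_union_right, ?_, pr_eq hA g U hg, ?_⟩
  · rw [pr_eq hA f (S0 ∪ U) (DepOn.mono hS0 (by exact_mod_cast Finset.subset_union_left)),
      split (S0 ∪ U) U Finset.subset_union_right (fun A => f (A : Set W))]
  · rw [pr_eq hA (fun B => f B ∧ g B) (S0 ∪ U) ?_,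
      split (S0 ∪ U) U Finset.subset_union_right (fun A => f (A : Set W) ∧ g (A : Set W))]
    · congr 1
      refine Finset.sum_congr rfl fun D hD => ?_
      refine cnt_congr fun A hA => ?_
      rw [Finset.mem_powerset] at hD
      refine and_congr_right fun _ => ?_
      have : g ((D ∪ A : Finset W) : Set W) = g (A : Set W) := by
        refine hg _ _ ?_
        ext x
        simp only [Finset.coe_union, Set.mem_inter_iff, Set.mem_union, Finset.mem_coe]
        constructor
        · rintro ⟨h1 | h1, h2⟩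
          · exact absurd h2 (Finset.mem_sdiff.1 (hD h1)).2
          · exact ⟨h1, h2⟩
        · rintro ⟨h1, h2⟩
          exact ⟨Or.inr h1, h2⟩
      rw [this]
    · intro B B' h
      have h1 := DepOn.mono hS0 (T := ((S0 ∪ U : Finset W) : Set W))
        (by exact_mod_cast Finset.subset_union_left) B B' h
      have h2 := DepOn.mono hg (T := ((S0 ∪ U : Finset W) : Set W))
        (by exact_mod_cast Finset.subset_union_right) B B' h
      simp only [h1, h2]

theorem sdiff_aux {W : Type} [DecidableEq W] {D A A' U : Finset W} (hA : A ⊆ U) (hA' : A' ⊆ U) :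
    ((D ∪ A : Finset W) : Set W) \ (U : Set W) = ((D ∪ A' : Finset W) : Set W) \ (U : Set W) := by
  ext x
  simp only [Finset.coe_union, Set.mem_sdiff, Set.mem_union, Finset.mem_coe]
  constructor
  · rintro ⟨h1 | h1, h2⟩
    · exact ⟨Or.inl h1, h2⟩
    · exact absurd (hA h1) h2
  · rintro ⟨h1 | h1, h2⟩
    · exact ⟨Or.inl h1, h2⟩
    · exact absurd (hA' h1) h2

end K3

open K3 in
theorem t_PrHarris (hA : S_PrAvg) : S_PrHarris := by
  classical
  intro W _ f g U hf hg
  obtain ⟨S, hUS, e1, e2, e3⟩ := pr_formulas hA f g U hf hg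
  have h2S : (0 : ℝ) < 2 ^ S.card := by positivity
  have h2U : (0 : ℝ) < 2 ^ U.card := by positivity
  have key : ∀ (a b c s u : ℝ), 0 < s → 0 < u → (a * b ≤ u * c → a / s * (b / u) ≤ c / s) ∧
      (u * c ≤ a * b → c / s ≤ a / s * (b / u)) := by
    intro a b c s u hs hu
    constructor
    · intro h
      rw [div_mul_div_comm, div_le_div_iff₀ (by positivity) hs]
      nlinarith [mul_le_mul_of_nonneg_left h hs.le]
    · intro h
      rw [div_mul_div_comm, div_le_div_iff₀ hs (by positivity)]
      nlinarith [mul_le_mul_of_nonneg_left h hs.le]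
  refine ⟨?_, ?_, ?_⟩
  · intro h1 h2
    rw [e1, e2, e3]
    refine (key _ _ _ _ _ h2S h2U).1 ?_
    rw [Finset.sum_mul, Finset.mul_sum]
    refine Finset.sum_le_sum fun D hD => ?_
    refine harris_ii U (fun A => f ((D ∪ A : Finset W) : Set W)) (fun A => g (A : Set W)) ?_ ?_
    · intro A B hAB hB hf'
      refine h1 _ _ (sdiff_aux (hAB.trans hB) hB) ?_ hf'
      exact_mod_cast Finset.union_subset_union_right hAB
    · intro A B hAB hB hg'
      exact h2 _ _ (by exact_mod_cast hAB) hg'
  · intro h1 h2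
    rw [e1, e2, e3]
    refine (key _ _ _ _ _ h2S h2U).1 ?_
    rw [Finset.sum_mul, Finset.mul_sum]
    refine Finset.sum_le_sum fun D hD => ?_
    refine harris_dd U (fun A => f ((D ∪ A : Finset W) : Set W)) (fun A => g (A : Set W)) ?_ ?_
    · intro A B hAB hB hf'
      refine h1 _ _ (sdiff_aux (hAB.trans hB) hB) ?_ hf'
      exact_mod_cast Finset.union_subset_union_right hAB
    · intro A B hAB hB hg'
      exact h2 _ _ (by exact_mod_cast hAB) hg'
  · intro h1 h2
    rw [e1, e2, e3]
    refine (key _ _ _ _ _ h2S h2U).2 ?_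
    rw [Finset.sum_mul, Finset.mul_sum]
    refine Finset.sum_le_sum fun D hD => ?_
    refine harris_id U (fun A => f ((D ∪ A : Finset W) : Set W)) (fun A => g (A : Set W)) ?_ ?_
    · intro A B hAB hB hf'
      refine h1 _ _ (sdiff_aux (hAB.trans hB) hB) ?_ hf'
      exact_mod_cast Finset.union_subset_union_right hAB
    · intro A B hAB hB hg'
      exact h2 _ _ (by exact_mod_cast hAB) hg'

end TriX
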