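import Pool.Agent.EX.K1
import Pool.Agent.EX.K3

/-! Module K2: elementary properties of `Pr` and independence. -/

set_option autoImplicit false

open MeasureTheory

namespace TriX

namespace K2

instance fairProb (W : Type) : IsProbabilityMeasure (fair W) := by
  unfold fair
  infer_instance

theorem measLoc {W : Type} {f : Set W → Prop} (hf : Loc f) :
    MeasurableSet {ω : W → Bool | f (bl ω)} := by
  obtain ⟨S, hS⟩ := hf
  exact measurableSet_loc f S hS

end K2

open K2 K3

theorem t_PrBasic' : S_PrBasic := by
  intro W _ f g
  refine ⟨measureReal_nonneg, ?_, ?_, ?_, ?_, ?_, ?_⟩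
  · exact measureReal_le_one
  · intro h
    exact measureReal_mono (fun ω hω => h _ hω)
  · exact measureReal_union_le _ _
  · intro hf
    exact probReal_compl_eq_one_sub (measLoc hf)
  · intro hf hg
    have h := measureReal_inter_add_sdiff (μ := fair W) (s := {ω : W → Bool | f (bl ω)}) (measLoc hg)
    change (fair W).real ({ω : W → Bool | f (bl ω)} \ {ω : W → Bool | g (bl ω)}) =
      (fair W).real {ω : W → Bool | f (bl ω)} -
        (fair W).real ({ω : W → Bool | f (bl ω)} ∩ {ω : W → Bool | g (bl ω)})
    linarith
  · change (fair W).real {ω : W → Bool | True} = 1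
    simp

theorem t_PrBasic (_h : S_PrAvg) : S_PrBasic := t_PrBasic'

theorem t_PrIndep (h : S_PrAvg) : S_PrIndep := by
  classical
  intro W _ f g S S' hf hg hd
  have e1 := pr_eq h f S hf
  have e2 := pr_eq h g S' hg
  have hcup : DepOn (fun B => f B ∧ g B) ((S ∪ S' : Finset W) : Set W) := by
    intro B B' hB
    have h1 := K3.DepOn.mono hf (T := ((S ∪ S' : Finset W) : Set W))
      (by exact_mod_cast Finset.subset_union_left) B B' hB
    have h2 := K3.DepOn.mono hg (T := ((S ∪ S' : Finset W) : Set W))
      (by exact_mod_cast Finset.subset_union_right) B B' hB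
    simp only [h1, h2]
  have e3 := pr_eq h (fun B => f B ∧ g B) (S ∪ S') hcup
  have hcard : (S ∪ S').card = S.card + S'.card := Finset.card_union_of_disjoint hd
  have hsd : (S ∪ S') \ S' = S := by
    rw [Finset.union_sdiff_right]
    exact Finset.sdiff_eq_self_of_disjoint hd
  rw [split (S ∪ S') S' Finset.subset_union_right, hsd] at e3
  have key : (∑ D ∈ S.powerset, cnt S' (fun A => f ((D ∪ A : Finset W) : Set W) ∧
      g ((D ∪ A : Finset W) : Set W))) = cnt S (fun A => f (A : Set W)) *
      cnt S' (fun A => g (A : Set W)) := by
    have h1 : ∀ D ∈ S.powerset, cnt S' (fun A => f ((D ∪ A : Finset W) : Set W) ∧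
        g ((D ∪ A : Finset W) : Set W)) =
        (if f (D : Set W) then (1 : ℝ) else 0) * cnt S' (fun A => g (A : Set W)) := by
      intro D hD
      have hD' := Finset.mem_powerset.1 hD
      have h2 : cnt S' (fun A => f ((D ∪ A : Finset W) : Set W) ∧
          g ((D ∪ A : Finset W) : Set W)) = cnt S' (fun A => f (D : Set W) ∧ g (A : Set W)) := by
        refine cnt_congr fun A hA => ?_
        have hf' : f ((D ∪ A : Finset W) : Set W) = f (D : Set W) := by
          refine hf _ _ ?_
          ext x
          simp only [Finset.coe_union, Set.mem_inter_iff, Set.mem_union, Finset.mem_coe]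
          constructor
          · rintro ⟨h1 | h1, h2⟩
            · exact ⟨h1, h2⟩
            · exact absurd (hA h1) (Finset.disjoint_left.1 hd h2)
          · rintro ⟨h1, h2⟩
            exact ⟨Or.inl h1, h2⟩
        have hg' : g ((D ∪ A : Finset W) : Set W) = g (A : Set W) := by
          refine hg _ _ ?_
          ext x
          simp only [Finset.coe_union, Set.mem_inter_iff, Set.mem_union, Finset.mem_coe]
          constructor
          · rintro ⟨h1 | h1, h2⟩
            · exact absurd h2 (Finset.disjoint_left.1 hd (hD' h1))
            · exact ⟨h1, h2⟩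
          · rintro ⟨h1, h2⟩
            exact ⟨Or.inr h1, h2⟩
        rw [hf', hg']
      rw [h2]
      by_cases hc : f (D : Set W)
      · simp only [hc, true_and, if_true, one_mul]
      · simp only [hc, false_and, if_false, zero_mul]
        rw [← cnt_eq]
        simp
    rw [Finset.sum_congr rfl h1, ← Finset.sum_mul]
    congr 1
    rw [← cnt_eq, Finset.card_filter]
    push_cast
    refine Finset.sum_congr rfl fun A _ => ?_
    split <;> rfl
  rw [key] at e3
  rw [e1, e2, e3, hcard, pow_add]
  ring

end TriX
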