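import Pool.Agent.EX.Spec1

/-! EX-K4: invariance of `Pr` under bijections and flips of the sites. -/

set_option autoImplicit false

open MeasureTheory

namespace TriX

theorem t_PrEquiv : S_PrEquiv := by
  intro W W' _ _ e f
  unfold Pr
  set E : (W → Bool) ≃ᵐ (W' → Bool) := MeasurableEquiv.piCongrLeft (fun _ => Bool) e with hE
  have hmap : (fair W).map E = fair W' := by
    unfold fair
    exact Measure.infinitePi_map_piCongrLeft
      (fun _ : W' => (PMF.uniformOfFintype Bool).toMeasure) e
  have hbl : ∀ ω : W → Bool, bl (E ω) = e '' bl ω := by
    intro ω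
    ext w'
    obtain ⟨w, rfl⟩ := e.surjective w'
    have h1 : E ω (e w) = ω w := by
      rw [hE, MeasurableEquiv.coe_piCongrLeft]
      exact Equiv.piCongrLeft_apply_apply (fun _ => Bool) e ω w
    simp only [bl, Set.mem_ofPred_eq, e.injective.mem_set_image, h1]
  rw [← hmap]
  simp only [Measure.real]
  rw [E.map_apply]
  congr 2
  ext ω
  simp only [Set.mem_ofPred_eq, Set.mem_preimage, hbl]

/-- the flip of the coordinates in `U` -/
noncomputable def flipM {W : Type} (U : Set W) (ω : W → Bool) (w : W) : Bool :=
  haveI := Classical.decPred (· ∈ U)
  if w ∈ U then !(ω w) else ω w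

theorem map_not_coin : ((PMF.uniformOfFintype Bool).toMeasure).map not =
    (PMF.uniformOfFintype Bool).toMeasure := by
  rw [PMF.toMeasure_map not (PMF.uniformOfFintype Bool) (measurable_of_finite _)]
  congr 1
  ext b
  rw [PMF.map_apply, tsum_fintype, Fintype.sum_bool]
  cases b <;> simp

theorem t_PrFlip : S_PrFlip := by
  intro W _ U f
  classical
  unfold Pr
  have hmeas : Measurable (flipM U) := by
    refine measurable_pi_lambda _ fun w => ?_
    unfold flipM
    by_cases h : w ∈ U
    · simp only [h, if_true]
      exact (measurable_of_finite not).comp (measurable_pi_apply w)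
    · simp only [h, if_false]
      exact measurable_pi_apply w
  have hinv : ∀ ω, flipM U (flipM U ω) = ω := by
    intro ω
    funext w
    unfold flipM
    by_cases h : w ∈ U <;> simp [h]
  let E : (W → Bool) ≃ᵐ (W → Bool) :=
    { toFun := flipM U
      invFun := flipM U
      left_inv := hinv
      right_inv := hinv
      measurable_toFun := hmeas
      measurable_invFun := hmeas }
  have hmap : (fair W).map E = fair W := by
    unfold fair
    have h1 := Measure.infinitePi_map_pi (μ := fun _ : W => (PMF.uniformOfFintype Bool).toMeasure)
      (f := fun w : W => if w ∈ U then not else id) (fun w => measurable_of_finite _)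
    have h2 : (fun (x : W → Bool) (i : W) => (if i ∈ U then not else id) (x i)) = E := by
      funext x i
      show (if i ∈ U then not else id) (x i) = flipM U x i
      unfold flipM
      by_cases h : i ∈ U <;> simp [h]
    rw [h2] at h1
    rw [h1]
    congr 1
    funext w
    by_cases h : w ∈ U
    · simp only [h, if_true]
      exact map_not_coin
    · simp only [h, if_false]
      exact Measure.map_id
  have hbl : ∀ ω : W → Bool, bl (E ω) = symmDiff (bl ω) U := by
    intro ω
    ext w
    show flipM U ω w = true ↔ _
    rw [Set.mem_symmDiff]
    unfold flipM bl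
    by_cases h : w ∈ U
    · simp [h]
    · simp [h]
  conv_rhs => rw [← hmap]
  simp only [Measure.real]
  rw [E.map_apply]
  congr 2
  ext ω
  simp only [Set.mem_ofPred_eq, Set.mem_preimage, hbl]

end TriX
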