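import Pool.Agent.EX.Spec1

/-! Module K5: resampling outside a stopping set. -/

set_option autoImplicit false

open MeasureTheory

namespace TriX

section

open Classical

/-- the stopping set as a finite set -/
noncomputable def stq {W : Type} (S : Finset W) (Q : Set W → Set W) (A : Finset W) : Finset W :=
  S.filter (fun w => w ∈ Q (A : Set W))

/-- exchanging two configurations outside of the stopping set of the first one -/
noncomputable def stT {W : Type} (S : Finset W) (Q : Set W → Set W) (p : Finset W × Finset W) :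
    Finset W × Finset W :=
  ((p.1 ∩ stq S Q p.1) ∪ (p.2 \ stq S Q p.1), (p.2 ∩ stq S Q p.1) ∪ (p.1 \ stq S Q p.1))

variable {W : Type} (S : Finset W) (Q : Set W → Set W)

theorem stT_inter (hQ : ∀ B, Q B ⊆ (S : Set W)) (p : Finset W × Finset W) :
    (p.1 : Set W) ∩ Q p.1 = ((stT S Q p).1 : Set W) ∩ Q p.1 := by
  ext w
  constructor
  · rintro ⟨h1, h2⟩
    refine ⟨?_, h2⟩
    have h3 : w ∈ S := hQ _ h2
    simp only [stT, stq, Finset.mem_coe, Finset.mem_union, Finset.mem_inter, Finset.mem_filter]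
    exact Or.inl ⟨h1, h3, h2⟩
  · rintro ⟨h1, h2⟩
    refine ⟨?_, h2⟩
    have h3 : w ∈ S := hQ _ h2
    simp only [stT, stq, Finset.mem_coe, Finset.mem_union, Finset.mem_inter, Finset.mem_filter,
      Finset.mem_sdiff] at h1
    rcases h1 with h1 | h1
    · exact h1.1
    · exact absurd ⟨h3, h2⟩ h1.2

theorem stq_stT (hQ : ∀ B, Q B ⊆ (S : Set W))
    (hS : ∀ B B', B ∩ Q B = B' ∩ Q B → Q B' = Q B) (p : Finset W × Finset W) :
    stq S Q (stT S Q p).1 = stq S Q p.1 := by
  have h1 := hS p.1 (stT S Q p).1 (stT_inter S Q hQ p)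
  ext w
  simp only [stq, Finset.mem_filter, h1]

theorem stT_stT (hQ : ∀ B, Q B ⊆ (S : Set W))
    (hS : ∀ B B', B ∩ Q B = B' ∩ Q B → Q B' = Q B) (p : Finset W × Finset W) :
    stT S Q (stT S Q p) = p := by
  have h1 := stq_stT S Q hQ hS p
  refine Prod.ext ?_ ?_
  · change ((stT S Q p).1 ∩ stq S Q (stT S Q p).1) ∪ ((stT S Q p).2 \ stq S Q (stT S Q p).1) = p.1
    rw [h1]
    ext w
    simp only [stT, Finset.mem_union, Finset.mem_inter, Finset.mem_sdiff]
    tauto
  · change ((stT S Q p).2 ∩ stq S Q (stT S Q p).1) ∪ ((stT S Q p).1 \ stq S Q (stT S Q p).1) = p.2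
    rw [h1]
    ext w
    simp only [stT, Finset.mem_union, Finset.mem_inter, Finset.mem_sdiff]
    tauto

theorem stT_mem (p : Finset W × Finset W) (hp : p ∈ S.powerset ×ˢ S.powerset) :
    stT S Q p ∈ S.powerset ×ˢ S.powerset := by
  rw [Finset.mem_product, Finset.mem_powerset, Finset.mem_powerset] at hp ⊢
  constructor
  · intro w hw
    simp only [stT, Finset.mem_union, Finset.mem_inter, Finset.mem_sdiff] at hw
    rcases hw with hw | hw
    · exact hp.1 hw.1
    · exact hp.2 hw.1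
  · intro w hw
    simp only [stT, Finset.mem_union, Finset.mem_inter, Finset.mem_sdiff] at hw
    rcases hw with hw | hw
    · exact hp.2 hw.1
    · exact hp.1 hw.1

theorem stT_sum (hQ : ∀ B, Q B ⊆ (S : Set W))
    (hS : ∀ B B', B ∩ Q B = B' ∩ Q B → Q B' = Q B) (F : Finset W → ℝ) :
    ∑ p ∈ S.powerset ×ˢ S.powerset, F (stT S Q p).1 = ∑ p ∈ S.powerset ×ˢ S.powerset, F p.1 :=
  Finset.sum_nbij' (stT S Q) (stT S Q) (fun p hp => stT_mem S Q p hp) (fun p hp => stT_mem S Q p hp)
    (fun p _ => stT_stT S Q hQ hS p) (fun p _ => stT_stT S Q hQ hS p) (fun _ _ => rfl)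

theorem t_PrStop (hA : S_PrAvg) : S_PrStop := by
  intro W _ S Q H K c hQ hS hH hK hc
  have hS' : ∀ B B', B ∩ Q B = B' ∩ Q B → Q B' = Q B := fun B B' h => (hS B B' h).1
  have hN : (0 : ℝ) < 2 ^ S.card := by positivity
  -- the finite formulas
  have f1 : Pr H = (∑ A ∈ S.powerset, if H (A : Set W) then (1 : ℝ) else 0) / 2 ^ S.card := by
    rw [hA W H S hH, Finset.card_filter]
    push_cast
    rfl
  have hHK : DepOn (fun B => H B ∧ K B) (S : Set W) := by
    intro B B' h
    simp only [hH B B' h, hK B B' h]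
  have f2 : Pr (fun B => H B ∧ K B) =
      (∑ A ∈ S.powerset, if H (A : Set W) ∧ K (A : Set W) then (1 : ℝ) else 0) / 2 ^ S.card := by
    rw [hA W (fun B => H B ∧ K B) S hHK, Finset.card_filter]
    push_cast
    rfl
  have f3 : ∀ A : Finset W, H (A : Set W) → c * 2 ^ S.card ≤
      ∑ A' ∈ S.powerset, if K (((A : Set W) ∩ Q A) ∪ ((A' : Set W) \ Q A)) then (1 : ℝ) else 0 := by
    intro A hHA
    have h1 := hc A hHA
    have hD : DepOn (fun B' : Set W => K (((A : Set W) ∩ Q A) ∪ (B' \ Q A))) (S : Set W) := by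
      intro B B' h
      apply hK
      ext w
      have h2 : w ∈ B ∩ (S : Set W) ↔ w ∈ B' ∩ (S : Set W) := by rw [h]
      simp only [Set.mem_inter_iff, Set.mem_union, Set.mem_sdiff] at h2 ⊢
      tauto
    rw [hA W _ S hD, Finset.card_filter] at h1
    push_cast at h1
    rwa [le_div_iff₀ hN] at h1
  -- the double sum
  have g1 : (∑ A ∈ S.powerset, if H (A : Set W) ∧ K (A : Set W) then (1 : ℝ) else 0) * 2 ^ S.card =
      ∑ p ∈ S.powerset ×ˢ S.powerset,
        if H (((stT S Q p).1 : Finset W) : Set W) ∧ K (((stT S Q p).1 : Finset W) : Set W) then (1 : ℝ) else 0 := by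
    rw [stT_sum S Q hQ hS' (fun A => if H (A : Set W) ∧ K (A : Set W) then (1 : ℝ) else 0),
      Finset.sum_product]
    rw [Finset.sum_mul]
    refine Finset.sum_congr rfl fun A _ => ?_
    dsimp only
    by_cases hh : H (A : Set W) ∧ K (A : Set W)
    · simp only [if_pos hh]
      rw [Finset.sum_const, Finset.card_powerset, nsmul_eq_mul]
      push_cast
      rw [mul_comm]
    · simp only [if_neg hh]
      simp
  have g2 : ∀ A A' : Finset W, A' ∈ S.powerset →
      (if H (((stT S Q (A, A')).1 : Finset W) : Set W) ∧ K (((stT S Q (A, A')).1 : Finset W) : Set W)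
        then (1 : ℝ) else 0) =
      (if H (A : Set W) then (1 : ℝ) else 0) *
        (if K (((A : Set W) ∩ Q A) ∪ ((A' : Set W) \ Q A)) then (1 : ℝ) else 0) := by
    intro A A' hA'
    have h1 : (((stT S Q (A, A')).1 : Finset W) : Set W) = ((A : Set W) ∩ Q A) ∪ ((A' : Set W) \ Q A) := by
      ext w
      have h2 : w ∈ Q (A : Set W) → w ∈ S := fun h => hQ _ h
      simp only [stT, stq, Finset.coe_union, Finset.coe_inter, Finset.coe_sdiff, Finset.coe_filter,
        Set.mem_union, Set.mem_inter_iff, Set.mem_sdiff, Set.mem_ofPred_eq, Finset.mem_coe]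
      tauto
    have h2 := (hS (A : Set W) _ (stT_inter S Q hQ (A, A'))).2
    rw [← h2, h1]
    by_cases hH1 : H (A : Set W)
    · simp [hH1]
    · simp [hH1]
  have g3 : ∑ p ∈ S.powerset ×ˢ S.powerset,
        (if H (((stT S Q p).1 : Finset W) : Set W) ∧ K (((stT S Q p).1 : Finset W) : Set W)
          then (1 : ℝ) else 0) =
      ∑ A ∈ S.powerset, (if H (A : Set W) then (1 : ℝ) else 0) *
        ∑ A' ∈ S.powerset, (if K (((A : Set W) ∩ Q A) ∪ ((A' : Set W) \ Q A)) then (1 : ℝ) else 0) := by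
    rw [Finset.sum_product]
    refine Finset.sum_congr rfl fun A _ => ?_
    rw [Finset.mul_sum]
    exact Finset.sum_congr rfl fun A' hA' => g2 A A' hA'
  have g4 : ∑ A ∈ S.powerset, (if H (A : Set W) then (1 : ℝ) else 0) * (c * 2 ^ S.card) ≤
      ∑ A ∈ S.powerset, (if H (A : Set W) then (1 : ℝ) else 0) *
        ∑ A' ∈ S.powerset, (if K (((A : Set W) ∩ Q A) ∪ ((A' : Set W) \ Q A)) then (1 : ℝ) else 0) := by
    refine Finset.sum_le_sum fun A _ => ?_
    by_cases h : H (A : Set W)
    · rw [if_pos h, one_mul, one_mul]; exact f3 A h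
    · rw [if_neg h, zero_mul, zero_mul]
  rw [← g3, ← g1, ← Finset.sum_mul] at g4
  rw [f1, f2, mul_div_assoc', div_le_div_iff_of_pos_right hN]
  have g5 : (c * ∑ A ∈ S.powerset, if H (A : Set W) then (1 : ℝ) else 0) * 2 ^ S.card ≤
      (∑ A ∈ S.powerset, if H (A : Set W) ∧ K (A : Set W) then (1 : ℝ) else 0) * 2 ^ S.card := by
    calc _ = (∑ A ∈ S.powerset, if H (A : Set W) then (1 : ℝ) else 0) * (c * 2 ^ S.card) := by ring
      _ ≤ _ := g4
  exact le_of_mul_le_mul_right g5 hN

end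

end TriX
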