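import Pool.Agent.EX.Spec1

/-! Project EX (MP_68260e): module K6, sharing more sites decreases the probability of a black
event in the first and a white event in the second configuration. -/

open MeasureTheory

namespace TriX

namespace K6Aux

open Finset

/-- the configuration with given parts -/
noncomputable def glue (η : Finset (V × Bool)) (A A' : Finset V) : Finset (V × Bool) :=
  η ∪ A.image (fun v => (v, false)) ∪ A'.image (fun v => (v, true))

theorem mem_glue {η : Finset (V × Bool)} {A A' : Finset V} {p : V × Bool} :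
    p ∈ glue η A A' ↔ p ∈ η ∨ (p.1 ∈ A ∧ p.2 = false) ∨ (p.1 ∈ A' ∧ p.2 = true) := by
  rcases p with ⟨v, b⟩
  unfold glue
  simp only [Finset.mem_union, Finset.mem_image, Prod.mk.injEq]
  constructor
  · rintro ((h | ⟨a, ha, rfl, rfl⟩) | ⟨a, ha, rfl, rfl⟩)
    · exact Or.inl h
    · exact Or.inr (Or.inl ⟨ha, rfl⟩)
    · exact Or.inr (Or.inr ⟨ha, rfl⟩)
  · rintro (h | ⟨ha, hb⟩ | ⟨ha, hb⟩)
    · exact Or.inl (Or.inl h)
    · exact Or.inl (Or.inr ⟨v, ha, rfl, hb.symm⟩)
    · exact Or.inr ⟨v, ha, rfl, hb.symm⟩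

theorem share_sum (R : Finset (V × Bool)) (Q : Finset V) (hd : ∀ p ∈ R, p.1 ∉ Q)
    (F : Finset (V × Bool) → ℝ) :
    ∑ A ∈ (R ∪ Q ×ˢ (Finset.univ : Finset Bool)).powerset, F A =
      ∑ η ∈ R.powerset, ∑ A ∈ Q.powerset, ∑ A' ∈ Q.powerset, F (glue η A A') := by
  have h1 : ∑ η ∈ R.powerset, ∑ A ∈ Q.powerset, ∑ A' ∈ Q.powerset, F (glue η A A') =
      ∑ x ∈ R.powerset ×ˢ (Q.powerset ×ˢ Q.powerset), F (glue x.1 x.2.1 x.2.2) := by
    rw [Finset.sum_product]
    refine Finset.sum_congr rfl fun η _ => ?_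
    rw [Finset.sum_product]
  rw [h1]
  symm
  refine Finset.sum_nbij' (fun x => glue x.1 x.2.1 x.2.2)
    (fun B => (B ∩ R, Q.filter (fun v => (v, false) ∈ B), Q.filter (fun v => (v, true) ∈ B)))
    ?_ ?_ ?_ ?_ ?_
  · rintro ⟨η, A, A'⟩ hx
    simp only [Finset.mem_product, Finset.mem_powerset] at hx ⊢
    obtain ⟨h2, h3, h4⟩ := hx
    intro p hp
    rw [mem_glue] at hp
    rw [Finset.mem_union, Finset.mem_product]
    rcases hp with h | ⟨h, -⟩ | ⟨h, -⟩
    · exact Or.inl (h2 h)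
    · exact Or.inr ⟨h3 h, Finset.mem_univ _⟩
    · exact Or.inr ⟨h4 h, Finset.mem_univ _⟩
  · intro B hB
    simp only [Finset.mem_product, Finset.mem_powerset]
    exact ⟨Finset.inter_subset_right, Finset.filter_subset _ _, Finset.filter_subset _ _⟩
  · rintro ⟨η, A, A'⟩ hx
    simp only [Finset.mem_product, Finset.mem_powerset] at hx
    obtain ⟨h2, h3, h4⟩ := hx
    simp only [Prod.mk.injEq]
    refine ⟨?_, ?_, ?_⟩
    · ext p
      rw [Finset.mem_inter, mem_glue]
      constructor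
      · rintro ⟨h | ⟨h, -⟩ | ⟨h, -⟩, hR⟩
        · exact h
        · exact absurd (h3 h) (hd p hR)
        · exact absurd (h4 h) (hd p hR)
      · intro h
        exact ⟨Or.inl h, h2 h⟩
    · ext v
      rw [Finset.mem_filter, mem_glue]
      constructor
      · rintro ⟨hQ, h | ⟨h, -⟩ | ⟨-, h⟩⟩
        · exact absurd hQ (hd _ (h2 h))
        · exact h
        · exact absurd h (by simp)
      · intro h
        exact ⟨h3 h, Or.inr (Or.inl ⟨h, rfl⟩)⟩
    · ext v
      rw [Finset.mem_filter, mem_glue]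
      constructor
      · rintro ⟨hQ, h | ⟨-, h⟩ | ⟨h, -⟩⟩
        · exact absurd hQ (hd _ (h2 h))
        · exact absurd h (by simp)
        · exact h
      · intro h
        exact ⟨h4 h, Or.inr (Or.inr ⟨h, rfl⟩)⟩
  · intro B hB
    rw [Finset.mem_powerset] at hB
    ext p
    rw [mem_glue, Finset.mem_inter, Finset.mem_filter, Finset.mem_filter]
    rcases p with ⟨v, b⟩
    constructor
    · rintro (⟨h, -⟩ | ⟨⟨-, h⟩, hb⟩ | ⟨⟨-, h⟩, hb⟩)
      · exact h
      · simp only at hb h; rw [hb]; exact h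
      · simp only at hb h; rw [hb]; exact h
    · intro h
      have h5 := hB h
      rw [Finset.mem_union, Finset.mem_product] at h5
      rcases h5 with h5 | ⟨h5, -⟩
      · exact Or.inl ⟨h, h5⟩
      · cases b
        · exact Or.inr (Or.inl ⟨⟨h5, h⟩, rfl⟩)
        · exact Or.inr (Or.inr ⟨⟨h5, h⟩, rfl⟩)
  · intro x _
    rfl

open Classical in
/-- finite formula -/
theorem Pr_sum (hA : S_PrAvg) (h : Set (V × Bool) → Prop) (R : Finset (V × Bool)) (Q : Finset V)
    (hd : ∀ p ∈ R, p.1 ∉ Q)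
    (hdep : DepOn h ((R ∪ Q ×ˢ (Finset.univ : Finset Bool) : Finset (V × Bool)) : Set (V × Bool))) :
    Pr h = (∑ η ∈ R.powerset, ∑ A ∈ Q.powerset, ∑ A' ∈ Q.powerset,
      (if h (glue η A A' : Set (V × Bool)) then (1 : ℝ) else 0)) /
        2 ^ (R ∪ Q ×ˢ (Finset.univ : Finset Bool)).card := by
  rw [hA (V × Bool) h _ hdep, Finset.natCast_card_filter, share_sum R Q hd]

open Classical in
/-- Harris for an increasing and a decreasing event on the subsets of `Q`. -/
theorem harris_fin (hA : S_PrAvg) (hH : S_PrHarris) (Q : Finset V) (X Y : Set V → Prop)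
    (hX : DepOn X (Q : Set V)) (hY : DepOn Y (Q : Set V)) (hXi : Incr X) (hYd : Decr Y) :
    (2 : ℝ) ^ Q.card * ∑ A ∈ Q.powerset, (if X (A : Set V) ∧ Y (A : Set V) then (1 : ℝ) else 0) ≤
      (∑ A ∈ Q.powerset, (if X (A : Set V) then (1 : ℝ) else 0)) *
        ∑ A ∈ Q.powerset, (if Y (A : Set V) then (1 : ℝ) else 0) := by
  have h1 := (hH V X Y Q ⟨Q, hX⟩ hY).2.2 (fun B B' _ h => hXi B B' h) hYd
  have hXY : DepOn (fun B => X B ∧ Y B) (Q : Set V) := by
    intro B B' h
    simp only [hX B B' h, hY B B' h]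
  rw [hA V X Q hX, hA V Y Q hY, hA V (fun B => X B ∧ Y B) Q hXY, Finset.natCast_card_filter,
    Finset.natCast_card_filter, Finset.natCast_card_filter] at h1
  have h2 : (0 : ℝ) < 2 ^ Q.card := by positivity
  rw [div_mul_div_comm, div_le_div_iff₀ h2 (by positivity)] at h1
  have h3 : (∑ A ∈ Q.powerset, (if X (A : Set V) ∧ Y (A : Set V) then (1 : ℝ) else 0)) *
      (2 ^ Q.card * 2 ^ Q.card) = (2 ^ Q.card * ∑ A ∈ Q.powerset,
        (if X (A : Set V) ∧ Y (A : Set V) then (1 : ℝ) else 0)) * 2 ^ Q.card := by ring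
  rw [h3] at h1
  exact le_of_mul_le_mul_right h1 h2

end K6Aux

open K6Aux Finset in
open Classical in
theorem t_PrShare (hA : S_PrAvg) (hH : S_PrHarris) : S_PrShare := by
  intro T Q f g G hTQ ⟨Sf, hSf⟩ ⟨Sg, hSg⟩ ⟨SG, hSG⟩ hf hg hGQ
  -- the finite set of sites
  set S : Finset V := Sf ∪ Sg ∪ SG with hS
  set R : Finset (V × Bool) := (S \ Q) ×ˢ (Finset.univ : Finset Bool) with hR
  have hd : ∀ p ∈ R, p.1 ∉ Q := by
    intro p hp
    rw [hR, Finset.mem_product, Finset.mem_sdiff] at hp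
    exact hp.1.2
  have hmem : ∀ v ∈ S, ∀ b : Bool, (v, b) ∈ R ∪ Q ×ˢ (Finset.univ : Finset Bool) := by
    intro v hv b
    rw [Finset.mem_union, hR, Finset.mem_product, Finset.mem_product, Finset.mem_sdiff]
    by_cases h : v ∈ Q
    · exact Or.inr ⟨h, Finset.mem_univ _⟩
    · exact Or.inl ⟨⟨hv, h⟩, Finset.mem_univ _⟩
  have hSf' : (Sf : Set V) ⊆ S := by
    intro v hv; simp only [hS, Finset.coe_union, Set.mem_union]; exact Or.inl (Or.inl hv)
  have hSg' : (Sg : Set V) ⊆ S := by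
    intro v hv; simp only [hS, Finset.coe_union, Set.mem_union]; exact Or.inl (Or.inr hv)
  have hSG' : (SG : Set V) ⊆ S := by
    intro v hv; simp only [hS, Finset.coe_union, Set.mem_union]; exact Or.inr hv
  have hdep : ∀ T' : Set V, DepOn (fun C : Set (V × Bool) => f (fstC C) ∧ g (sndC T' C) ∧
      G (fstC C) (sndC T' C))
      ((R ∪ Q ×ˢ (Finset.univ : Finset Bool) : Finset (V × Bool)) : Set (V × Bool)) := by
    intro T' C C' hC
    have e0 : ∀ v ∈ S, ∀ b : Bool, ((v, b) ∈ C ↔ (v, b) ∈ C') := by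
      intro v hv b
      have h1 : (v, b) ∈ C ∩ ((R ∪ Q ×ˢ (Finset.univ : Finset Bool) : Finset (V × Bool)) :
          Set (V × Bool)) ↔ (v, b) ∈ C' ∩ ((R ∪ Q ×ˢ (Finset.univ : Finset Bool) :
            Finset (V × Bool)) : Set (V × Bool)) := by rw [hC]
      have h2 : (v, b) ∈ ((R ∪ Q ×ˢ (Finset.univ : Finset Bool) : Finset (V × Bool)) :
          Set (V × Bool)) := by exact_mod_cast hmem v hv b
      simpa only [Set.mem_inter_iff, h2, and_true] using h1
    have e1 : ∀ P : Set V, P ⊆ S → fstC C ∩ P = fstC C' ∩ P := by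
      intro P hP
      ext v
      simp only [Set.mem_inter_iff, fstC, Set.mem_ofPred_eq]
      constructor
      · rintro ⟨h1, h2⟩; exact ⟨(e0 v (hP h2) false).1 h1, h2⟩
      · rintro ⟨h1, h2⟩; exact ⟨(e0 v (hP h2) false).2 h1, h2⟩
    have e2 : ∀ P : Set V, P ⊆ S → sndC T' C ∩ P = sndC T' C' ∩ P := by
      intro P hP
      ext v
      simp only [Set.mem_inter_iff, sndC, Set.mem_ofPred_eq]
      constructor
      · rintro ⟨h1, h2⟩
        rw [e0 v (hP h2) false, e0 v (hP h2) true] at h1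
        exact ⟨h1, h2⟩
      · rintro ⟨h1, h2⟩
        rw [← e0 v (hP h2) false, ← e0 v (hP h2) true] at h1
        exact ⟨h1, h2⟩
    have e3 : (f (fstC C) ↔ f (fstC C')) := by
      rw [hSf _ _ (e1 _ hSf')]
    have e4 : (g (sndC T' C) ↔ g (sndC T' C')) := by
      rw [hSg _ _ (e2 _ hSg')]
    have e5 := hSG _ _ _ _ (e1 _ hSG') (e2 _ hSG')
    simp only [e3, e4, e5]
  unfold PrT
  rw [Pr_sum hA _ R Q hd (hdep (T ∪ Q)), Pr_sum hA _ R Q hd (hdep T)]
  apply div_le_div_of_nonneg_right _ (by positivity)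
  refine Finset.sum_le_sum fun η hη => ?_
  rw [Finset.mem_powerset] at hη
  -- the two configurations
  set a1 : Set V := {v | (v, false) ∈ η} with ha1
  set a2 : Set V := {v | (v ∈ T ∧ (v, false) ∈ η) ∨ (v ∉ T ∧ (v, true) ∈ η)} with ha2
  have hηQ : ∀ v ∈ Q, ∀ b : Bool, (v, b) ∉ η := fun v hv b h => hd _ (hη h) hv
  have k1 : ∀ A ∈ Q.powerset, ∀ A' ∈ Q.powerset,
      fstC (glue η A A' : Set (V × Bool)) = a1 ∪ A := by
    intro A _ A' _
    ext v
    simp only [fstC, Set.mem_ofPred_eq, Finset.mem_coe, mem_glue, ha1, Set.mem_union]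
    simp
  have k2 : ∀ A ∈ Q.powerset, ∀ A' ∈ Q.powerset,
      sndC T (glue η A A' : Set (V × Bool)) = a2 ∪ A' := by
    intro A hA' A' hA''
    rw [Finset.mem_powerset] at hA' hA''
    ext v
    simp only [sndC, Set.mem_ofPred_eq, Finset.mem_coe, mem_glue, ha2, Set.mem_union]
    have hT1 : v ∈ A → v ∉ T := fun h h' =>
      Set.disjoint_left.1 hTQ h' (Finset.mem_coe.2 (hA' h))
    have hT2 : v ∈ A' → v ∉ T := fun h h' =>
      Set.disjoint_left.1 hTQ h' (Finset.mem_coe.2 (hA'' h))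
    simp only [Bool.false_eq_true, Bool.true_eq_false, and_false, and_true, or_false, false_or]
    tauto
  have k3 : ∀ A ∈ Q.powerset, ∀ A' ∈ Q.powerset,
      sndC (T ∪ Q) (glue η A A' : Set (V × Bool)) = a2 ∪ A := by
    intro A hA' A' hA''
    rw [Finset.mem_powerset] at hA' hA''
    ext v
    simp only [sndC, Set.mem_ofPred_eq, Finset.mem_coe, mem_glue, ha2, Set.mem_union]
    have hT1 : v ∈ A → v ∉ T := fun h h' =>
      Set.disjoint_left.1 hTQ h' (Finset.mem_coe.2 (hA' h))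
    have hT2 : v ∈ A → v ∈ Q := fun h => hA' h
    have hT3 : v ∈ A' → v ∈ Q := fun h => hA'' h
    have hT4 : v ∈ Q → (v, false) ∉ η := fun h => hηQ v h false
    have hT5 : v ∈ Q → (v, true) ∉ η := fun h => hηQ v h true
    simp only [Bool.false_eq_true, Bool.true_eq_false, and_false, and_true, or_false, false_or]
    tauto
  -- the third event does not depend on the sites of `Q`
  have kG : ∀ A ∈ Q.powerset, ∀ A' ∈ Q.powerset, (G (a1 ∪ A) (a2 ∪ A') ↔ G a1 a2) := by
    intro A hA' A' hA''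
    rw [Finset.mem_powerset] at hA' hA''
    apply hGQ
    · ext v
      simp only [Set.mem_sdiff, Set.mem_union, Finset.mem_coe]
      have := @hA' v
      tauto
    · ext v
      simp only [Set.mem_sdiff, Set.mem_union, Finset.mem_coe]
      have := @hA'' v
      tauto
  by_cases hGa : G a1 a2
  · have hL : ∑ A ∈ Q.powerset, ∑ A' ∈ Q.powerset,
        (if f (fstC (glue η A A' : Set (V × Bool))) ∧ g (sndC (T ∪ Q) (glue η A A' : Set (V × Bool)))
          ∧ G (fstC (glue η A A' : Set (V × Bool))) (sndC (T ∪ Q) (glue η A A' : Set (V × Bool)))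
          then (1 : ℝ) else 0) =
        2 ^ Q.card * ∑ A ∈ Q.powerset, (if f (a1 ∪ A) ∧ g (a2 ∪ A) then (1 : ℝ) else 0) := by
      rw [Finset.mul_sum]
      refine Finset.sum_congr rfl fun A hA' => ?_
      have h1 : ∀ A' ∈ Q.powerset, (if f (fstC (glue η A A' : Set (V × Bool))) ∧
          g (sndC (T ∪ Q) (glue η A A' : Set (V × Bool)))
          ∧ G (fstC (glue η A A' : Set (V × Bool))) (sndC (T ∪ Q) (glue η A A' : Set (V × Bool)))
          then (1 : ℝ) else 0) = (if f (a1 ∪ A) ∧ g (a2 ∪ A) then (1 : ℝ) else 0) := by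
        intro A' hA''
        rw [k1 A hA' A' hA'', k3 A hA' A' hA'']
        simp only [kG A hA' A hA', hGa, and_true]
      rw [Finset.sum_congr rfl h1, Finset.sum_const, Finset.card_powerset, nsmul_eq_mul]
      push_cast
      ring
    have hRR : ∑ A ∈ Q.powerset, ∑ A' ∈ Q.powerset,
        (if f (fstC (glue η A A' : Set (V × Bool))) ∧ g (sndC T (glue η A A' : Set (V × Bool)))
          ∧ G (fstC (glue η A A' : Set (V × Bool))) (sndC T (glue η A A' : Set (V × Bool)))
          then (1 : ℝ) else 0) =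
        (∑ A ∈ Q.powerset, (if f (a1 ∪ A) then (1 : ℝ) else 0)) *
          ∑ A' ∈ Q.powerset, (if g (a2 ∪ A') then (1 : ℝ) else 0) := by
      rw [Finset.sum_mul_sum]
      refine Finset.sum_congr rfl fun A hA' => Finset.sum_congr rfl fun A' hA'' => ?_
      rw [k1 A hA' A' hA'', k2 A hA' A' hA'']
      simp only [kG A hA' A' hA'', hGa, and_true]
      by_cases h1 : f (a1 ∪ A)
      · by_cases h2 : g (a2 ∪ A')
        · simp [h1, h2]
        · simp [h1, h2]
      · simp [h1]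
    have hfin := harris_fin hA hH Q (fun B => f (a1 ∪ (B ∩ Q))) (fun B => g (a2 ∪ (B ∩ Q)))
      (fun B B' h => by simp only [h]) (fun B B' h => by simp only [h])
      (fun B B' h => hf _ _ (Set.union_subset_union_right _ (Set.inter_subset_inter_left _ h)))
      (fun B B' h => hg _ _ (Set.union_subset_union_right _ (Set.inter_subset_inter_left _ h)))
    have hint : ∀ A ∈ Q.powerset, ((A : Set V) ∩ (Q : Set V)) = A := fun A hA' =>
      Set.inter_eq_left.2 (by exact_mod_cast Finset.mem_powerset.1 hA')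
    have e1 : ∑ A ∈ Q.powerset, (if f (a1 ∪ ((A : Set V) ∩ Q)) ∧ g (a2 ∪ ((A : Set V) ∩ Q))
        then (1 : ℝ) else 0) =
        ∑ A ∈ Q.powerset, (if f (a1 ∪ A) ∧ g (a2 ∪ A) then (1 : ℝ) else 0) :=
      Finset.sum_congr rfl fun A hA' => by simp only [hint A hA']
    have e2 : ∑ A ∈ Q.powerset, (if f (a1 ∪ ((A : Set V) ∩ Q)) then (1 : ℝ) else 0) =
        ∑ A ∈ Q.powerset, (if f (a1 ∪ A) then (1 : ℝ) else 0) :=
      Finset.sum_congr rfl fun A hA' => by simp only [hint A hA']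
    have e3 : ∑ A ∈ Q.powerset, (if g (a2 ∪ ((A : Set V) ∩ Q)) then (1 : ℝ) else 0) =
        ∑ A ∈ Q.powerset, (if g (a2 ∪ A) then (1 : ℝ) else 0) :=
      Finset.sum_congr rfl fun A hA' => by simp only [hint A hA']
    rw [e1, e2, e3] at hfin
    calc _ = 2 ^ Q.card * ∑ A ∈ Q.powerset, (if f (a1 ∪ A) ∧ g (a2 ∪ A) then (1 : ℝ) else 0) := by
          convert hL
      _ ≤ (∑ A ∈ Q.powerset, (if f (a1 ∪ A) then (1 : ℝ) else 0)) *
          ∑ A' ∈ Q.powerset, (if g (a2 ∪ A') then (1 : ℝ) else 0) := hfin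
      _ = _ := by convert hRR.symm
  · refine Finset.sum_le_sum fun A hA' => Finset.sum_le_sum fun A' hA'' => ?_
    rw [k1 A hA' A' hA'', k3 A hA' A' hA'']
    simp only [kG A hA' A hA', hGa, and_false, if_false]
    split_ifs <;> norm_num

end TriX
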