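import Pool.Agent.EX.Spec2
import Pool.Agent.EX.T5

/-! Project EX (MP_68260e), module LB1: an interface crosses the vertical axis (helper51). -/

namespace TriX

namespace LB1

theorem conn_vert_le {S : Set V} {x y1 y2 : ℤ} (h : y1 ≤ y2)
    (hS : ∀ y, y1 ≤ y → y ≤ y2 → ((x, y) : V) ∈ S) : Conn S (x, y1) (x, y2) := by
  refine ⟨hS y1 le_rfl h, ?_⟩
  obtain ⟨n, rfl⟩ := Int.le.dest h
  clear h
  induction n with
  | zero => simpa using Relation.ReflTransGen.refl
  | succ n ih =>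
    refine (ih fun y h1 h2 => hS y h1 (by push_cast; omega)).tail ⟨?_, hS _ ?_ le_rfl⟩
    · unfold Adj; push_cast; omega
    · push_cast; omega

theorem conn_vert {S : Set V} {x y1 y2 : ℤ}
    (hS : ∀ y, min y1 y2 ≤ y → y ≤ max y1 y2 → ((x, y) : V) ∈ S) : Conn S (x, y1) (x, y2) := by
  rcases le_total y1 y2 with h | h
  · exact conn_vert_le h fun y h1 h2 => hS y (by rw [min_eq_left h]; exact h1)
      (by rw [max_eq_right h]; exact h2)
  · exact t5_conn_symm (conn_vert_le h fun y h1 h2 => hS y (by rw [min_eq_right h]; exact h1)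
      (by rw [max_eq_left h]; exact h2))

theorem conn_horz_le {S : Set V} {x1 x2 y : ℤ} (h : x1 ≤ x2)
    (hS : ∀ x, x1 ≤ x → x ≤ x2 → ((x, y) : V) ∈ S) : Conn S (x1, y) (x2, y) := by
  refine ⟨hS x1 le_rfl h, ?_⟩
  obtain ⟨n, rfl⟩ := Int.le.dest h
  clear h
  induction n with
  | zero => simpa using Relation.ReflTransGen.refl
  | succ n ih =>
    refine (ih fun x h1 h2 => hS x h1 (by push_cast; omega)).tail ⟨?_, hS _ ?_ le_rfl⟩
    · unfold Adj; push_cast; omega
    · push_cast; omega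

theorem conn_horz {S : Set V} {x1 x2 y : ℤ}
    (hS : ∀ x, min x1 x2 ≤ x → x ≤ max x1 x2 → ((x, y) : V) ∈ S) : Conn S (x1, y) (x2, y) := by
  rcases le_total x1 x2 with h | h
  · exact conn_horz_le h fun x h1 h2 => hS x (by rw [min_eq_left h]; exact h1)
      (by rw [max_eq_right h]; exact h2)
  · exact t5_conn_symm (conn_horz_le h fun x h1 h2 => hS x (by rw [min_eq_right h]; exact h1)
      (by rw [max_eq_left h]; exact h2))

theorem mem_ball {r : ℤ} {v : V} :
    v ∈ Ball 0 r ↔ -r ≤ v.1 ∧ v.1 ≤ r ∧ -r ≤ v.2 ∧ v.2 ≤ r := by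
  simp only [Ball, Set.mem_ofPred_eq, Prod.fst_zero, Prod.snd_zero, sub_zero, abs_le]
  tauto

theorem outM_pre (r : ℤ) (hr : 0 ≤ r) : PreConn {v : V | v ∉ Ball 0 r ∧ v.2 < 0} := by
  have key : ∀ v ∈ {v : V | v ∉ Ball 0 r ∧ v.2 < 0},
      Conn {v : V | v ∉ Ball 0 r ∧ v.2 < 0} v (0, -r - 1) := by
    rintro ⟨x, y⟩ ⟨hv, hy⟩
    rw [mem_ball] at hv
    simp only at hv hy
    have h1 : Conn {v : V | v ∉ Ball 0 r ∧ v.2 < 0} (x, y) (x, -r - 1) := by
      apply conn_vert
      intro y' h1 h2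
      refine ⟨?_, ?_⟩
      · rw [mem_ball]
        simp only
        omega
      · simp only
        omega
    have h2 : Conn {v : V | v ∉ Ball 0 r ∧ v.2 < 0} (x, -r - 1) (0, -r - 1) := by
      apply conn_horz
      intro x' h1 h2
      refine ⟨?_, ?_⟩
      · rw [mem_ball]
        simp only
        omega
      · simp only
        omega
    exact t5_conn_trans h1 h2
  intro u hu v hv
  exact t5_conn_trans (key u hu) (t5_conn_symm (key v hv))

theorem outP_pre (r : ℤ) (hr : 0 ≤ r) : PreConn {v : V | v ∉ Ball 0 r ∧ 0 ≤ v.2} := by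
  have key : ∀ v ∈ {v : V | v ∉ Ball 0 r ∧ 0 ≤ v.2},
      Conn {v : V | v ∉ Ball 0 r ∧ 0 ≤ v.2} v (0, r + 1) := by
    rintro ⟨x, y⟩ ⟨hv, hy⟩
    rw [mem_ball] at hv
    simp only at hv hy
    have h1 : Conn {v : V | v ∉ Ball 0 r ∧ 0 ≤ v.2} (x, y) (x, r + 1) := by
      apply conn_vert
      intro y' h1 h2
      refine ⟨?_, ?_⟩
      · rw [mem_ball]
        simp only
        omega
      · simp only
        omega
    have h2 : Conn {v : V | v ∉ Ball 0 r ∧ 0 ≤ v.2} (x, r + 1) (0, r + 1) := by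
      apply conn_horz
      intro x' h1 h2
      refine ⟨?_, ?_⟩
      · rw [mem_ball]
        simp only
        omega
      · simp only
        omega
    exact t5_conn_trans h1 h2
  intro u hu v hv
  exact t5_conn_trans (key u hu) (t5_conn_symm (key v hv))

/-- a connection from the left to the right meets the vertical axis -/
theorem meets_axis {S : Set V} {u v : V} (h : Conn S u v) (hu : u.1 ≤ 0) (hv : 0 ≤ v.1) :
    ∃ w, w.1 = 0 ∧ Conn S u w := by
  obtain ⟨huS, h⟩ := h
  have key : ∀ v, Relation.ReflTransGen (fun a b => Adj a b ∧ b ∈ S) u v →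
      v.1 < 0 ∨ ∃ w, w.1 = 0 ∧ Conn S u w := by
    intro v h
    induction h with
    | refl =>
      rcases eq_or_lt_of_le hu with h | h
      · exact Or.inr ⟨u, h, huS, Relation.ReflTransGen.refl⟩
      · exact Or.inl h
    | @tail b c hb hbc ih =>
      rcases ih with ih | ih
      · have h1 : c.1 ≤ b.1 + 1 := by
          have := hbc.1
          unfold Adj at this
          omega
        rcases eq_or_lt_of_le (show c.1 ≤ 0 by omega) with h | h
        · exact Or.inr ⟨c, h, huS, hb.tail hbc⟩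
        · exact Or.inl h
      · exact Or.inr ih
  rcases key v h with h1 | h1
  · exact absurd h1 (not_lt.2 hv)
  · exact h1

end LB1

open LB1 in
theorem lb1 (hb : S_bdry) (hc : S_crossConn) : S_interface := by
  intro p B hp hblack hwhite
  set Λ : Set V := Ball 0 (3 * p) with hΛ
  have hmΛ : ∀ v : V, v ∈ Λ ↔ -(3 * p) ≤ v.1 ∧ v.1 ≤ 3 * p ∧ -(3 * p) ≤ v.2 ∧ v.2 ≤ 3 * p :=
    fun v => mem_ball
  set OM : Set V := {v : V | v ∉ Λ ∧ v.2 < 0} with hOM
  set OP : Set V := {v : V | v ∉ Λ ∧ 0 ≤ v.2} with hOP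
  have hOMpre : PreConn OM := outM_pre (3 * p) (by omega)
  have hOPpre : PreConn OP := outP_pre (3 * p) (by omega)
  set K : Set V := {v | ∃ w z, Conn (B ∩ Λ) v w ∧ Adj w z ∧ z ∈ OM} with hK
  set O : Set V := OM ∪ K with hO
  have hKsub : K ⊆ B ∩ Λ := by
    rintro v ⟨w, z, h, _, _⟩
    exact h.1
  have hOMO : OM ⊆ O := Set.subset_union_left
  have hKO : K ⊆ O := Set.subset_union_right
  have hKOM : ∀ v ∈ K, ∃ z ∈ OM, Conn O v z := by
    rintro v ⟨w, z, h, hwz, hz⟩
    have h1 := t5_conn_comp h h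
    have h2 : {v' | Conn (B ∩ Λ) v' w} ⊆ O := fun v' hv' => hKO ⟨w, z, hv', hwz, hz⟩
    have h3 := t5_conn_mono h2 h1
    exact ⟨z, hz, h3.1, h3.2.tail ⟨hwz, hOMO hz⟩⟩
  have hOtoOM : ∀ v ∈ O, ∃ z ∈ OM, Conn O v z := by
    intro v hv
    rcases hv with hv | hv
    · exact ⟨v, hv, hOMO hv, Relation.ReflTransGen.refl⟩
    · exact hKOM v hv
  have hOpre : PreConn O := by
    intro u hu v hv
    obtain ⟨z, hz, huz⟩ := hOtoOM u hu
    obtain ⟨z', hz', hvz'⟩ := hOtoOM v hv
    exact t5_conn_trans (t5_conn_trans huz (t5_conn_mono hOMO (hOMpre z hz z' hz')))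
      (t5_conn_symm hvz')
  have hOPO : OP ⊆ Oᶜ := by
    rintro v ⟨hv, hv2⟩ (h | h)
    · exact absurd h.2 (not_lt.2 hv2)
    · exact hv (hKsub h).2
  set o : V := (0, 3 * p + 1) with ho
  have hoOP : o ∈ OP := by
    refine ⟨?_, ?_⟩
    · rw [hmΛ]
      simp only [ho]
      omega
    · simp only [ho]
      omega
  set A : Set V := {v | Conn Oᶜ v o} with hA
  have hOPA : OP ⊆ A := fun v hv => t5_conn_mono hOPO (hOPpre v hv o hoOP)
  have hApre : PreConn A := by
    intro x hx y hy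
    exact t5_conn_comp hx (t5_conn_trans hx (t5_conn_symm hy))
  have hdisj : Disjoint O A := Set.disjoint_left.2 fun v hv hv' => hv'.1 hv
  have hclosed : ∀ u ∈ A, ∀ v, Adj u v → v ∈ O ∨ v ∈ A := by
    intro u hu v huv
    by_cases hv : v ∈ O
    · exact Or.inl hv
    · refine Or.inr ?_
      have h1 : Conn Oᶜ v u := ⟨hv, Relation.ReflTransGen.single ⟨t5_adj_symm huv, hu.1⟩⟩
      exact t5_conn_trans h1 hu
  -- no site of `O` on the axis above `2p`
  have hup : ∀ y : ℤ, ((0, y) : V) ∈ O → y ≤ 2 * p := by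
    intro y hy
    by_contra hcon
    push Not at hcon
    rcases hy with h | h
    · have := h.2
      simp only at this
      omega
    · obtain ⟨w, z, hw, hwz, hz⟩ := h
      obtain ⟨a, b, ha, hb', hab⟩ := hwhite
      have hw2 : w.2 ≤ 0 := by
        have h1 := hz.2
        unfold Adj at hwz
        omega
      have hne := hc 1 0 one_pos (Bᶜ ∩ Box (-(3 * p)) (3 * p) p (2 * p)) (B ∩ Λ) a b w (0, y)
        hab (t5_conn_symm hw)
        (fun x hx => by
          have := (hmΛ x).1 hx.2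
          simp only [lin, one_mul, zero_mul, add_zero]
          omega)
        (fun x hx => by
          have := (hmΛ x).1 hx.2
          simp only [lin, one_mul, zero_mul, add_zero]
          omega)
        (fun x hx => by
          have := hx.2.2.2.1
          omega)
        (fun x hx => by
          have := hx.2.2.2.2
          simp only
          omega)
      obtain ⟨x, hx1, hx2⟩ := hne
      exact hx1.1 hx2.1
  -- the black crossing meets the axis in a site of `O`
  have hex : ∃ y : ℤ, -(2 * p) ≤ y ∧ ((0, y) : V) ∈ O := by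
    obtain ⟨a, b, ha, hb', hab⟩ := hblack
    obtain ⟨w, hw0, haw⟩ := meets_axis hab (by omega) (by omega)
    have hwS := t5_conn_mem haw
    have hsub : B ∩ Box (-(3 * p)) (3 * p) (-(2 * p)) (-p) ⊆ B ∩ Λ := by
      rintro x ⟨hx1, hx2⟩
      refine ⟨hx1, ?_⟩
      rw [hmΛ]
      obtain ⟨h1, h2, h3, h4⟩ := hx2
      omega
    have haS := hab.1.2
    have h1 : w ∈ K := by
      refine ⟨a, (a.1 - 1, a.2), t5_conn_mono hsub (t5_conn_symm haw), ?_, ?_, ?_⟩
      · unfold Adj; simp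
      · rw [hmΛ]
        simp only
        omega
      · have := haS.2.2.2
        simp only
        omega
    refine ⟨w.2, hwS.2.2.2.1, ?_⟩
    have h2 : ((0, w.2) : V) = w := by rw [← hw0]
    rw [h2]
    exact hKO h1
  obtain ⟨y0, hy0, hy0O⟩ := hex
  obtain ⟨j, hjO, hjmax⟩ := Int.exists_greatest_of_bdd (P := fun y : ℤ => ((0, y) : V) ∈ O)
    ⟨2 * p, fun z hz => hup z hz⟩ ⟨y0, hy0O⟩
  have hj1 : -(2 * p) ≤ j := hy0.trans (hjmax y0 hy0O)
  have hj2 : j ≤ 2 * p := hup j hjO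
  have hjA : ((0, j + 1) : V) ∈ A := by
    have h1 : Conn Oᶜ ((0, j + 1) : V) (0, 3 * p + 1) := by
      apply conn_vert_le (by omega)
      intro y h1 _ h2
      have := hjmax y h2
      omega
    exact h1
  have hjK : ((0, j) : V) ∈ K := by
    rcases hjO with h | h
    · exfalso
      apply h.1
      rw [hmΛ]
      simp only
      omega
    · exact h
  -- the `A`-ends of cut edges inside `Λ` are white
  have hwh : ∀ z ∈ O, ∀ a ∈ A, Adj z a → a ∈ Λ → a ∈ Bᶜ ∩ Λ := by
    intro z hz a ha hza haΛ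
    refine ⟨fun haB => ?_, haΛ⟩
    apply ha.1
    apply hKO
    have ha1 : Conn (B ∩ Λ) a a := ⟨⟨haB, haΛ⟩, Relation.ReflTransGen.refl⟩
    rcases hz with h | h
    · exact ⟨a, z, ha1, t5_adj_symm hza, h⟩
    · obtain ⟨w, z', hw, hwz, hz'⟩ := h
      refine ⟨w, z', ?_, hwz, hz'⟩
      have h2 : Conn (B ∩ Λ) a z :=
        ⟨⟨haB, haΛ⟩, Relation.ReflTransGen.single ⟨t5_adj_symm hza, hw.1⟩⟩
      exact t5_conn_trans h2 hw
  refine ⟨j, hj1, hj2, ?_, ?_⟩
  · obtain ⟨w, z, hw, hwz, hz⟩ := hjK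
    exact ⟨z, hz.1, w, hw.2, hwz⟩
  · have hadj0 : Adj ((0, j) : V) (0, j + 1) := by unfold Adj; simp
    have hz'O : ((-(3 * p) - 1, -1) : V) ∈ OM := by
      refine ⟨?_, ?_⟩
      · rw [hmΛ]
        simp only
        omega
      · simp
    have ha'P : ((-(3 * p) - 1, 0) : V) ∈ OP := by
      refine ⟨?_, ?_⟩
      · rw [hmΛ]
        simp only
        omega
      · simp
    have hadj1 : Adj ((-(3 * p) - 1, -1) : V) (-(3 * p) - 1, 0) := by unfold Adj; simp
    have hchain := hb O A hOpre hApre hdisj hclosed (0, j) hjO (0, j + 1) hjA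
      (-(3 * p) - 1, -1) (hOMO hz'O) (-(3 * p) - 1, 0) (hOPA ha'P) hadj0 hadj1
    have key : ∀ e : V × V, Relation.ReflTransGen (CutStep O A) ((0, j), (0, j + 1)) e →
        (∃ v, v ∉ Λ ∧ Via (Bᶜ ∩ Λ) (0, j) v) ∨
        (e.2 ∈ Λ ∧ Relation.ReflTransGen (fun a b => Adj a b ∧ b ∈ Bᶜ ∩ Λ) (0, j) e.2) := by
      intro e he
      induction he with
      | refl =>
        right
        have h1 : ((0, j + 1) : V) ∈ Λ := by
          rw [hmΛ]
          simp only
          omega
        exact ⟨h1, Relation.ReflTransGen.single ⟨hadj0, hwh _ hjO _ hjA hadj0 h1⟩⟩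
      | @tail e f _ hef ih =>
        rcases ih with ih | ⟨heΛ, hr⟩
        · exact Or.inl ih
        obtain ⟨⟨hf1, hf2, hf⟩, hst⟩ := hef
        rcases hst with ⟨_, hadj⟩ | ⟨heq, _⟩
        · by_cases hfΛ : f.2 ∈ Λ
          · exact Or.inr ⟨hfΛ, hr.tail ⟨hadj, hwh _ hf1 _ hf2 hf hfΛ⟩⟩
          · exact Or.inl ⟨f.2, hfΛ, e.2, hr, hadj⟩
        · right
          rw [← heq]
          exact ⟨heΛ, hr⟩
    rcases key _ hchain with h1 | ⟨h1, _⟩
    · exact h1
    · exact absurd h1 ha'P.1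

end TriX
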