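import Pool.Agent.EX.Noise

/-! EX-N1: orthogonal decomposition given by a commuting family of symmetric projections. -/

set_option autoImplicit false

namespace TriX.Noise

open Finset

section
variable {Ω J : Type} [DecidableEq J] (p : J → Module.End ℝ (Ω → ℝ))

/-- product over a list -/
noncomputable def compL (l : List J) (S : Finset J) : Module.End ℝ (Ω → ℝ) :=
  (l.map (fun B => if B ∈ S then 1 - p B else p B)).prod

theorem comp_eq_compL [Fintype J] (S : Finset J) :
    comp p S = compL p (Finset.univ : Finset J).toList S := rfl

theorem compL_nil (S : Finset J) : compL p [] S = 1 := rfl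

theorem compL_cons (a : J) (l : List J) (S : Finset J) :
    compL p (a :: l) S = (if a ∈ S then 1 - p a else p a) * compL p l S := by
  unfold compL
  rw [List.map_cons, List.prod_cons]

theorem compL_congr (l : List J) (S S' : Finset J) (h : ∀ B ∈ l, (B ∈ S ↔ B ∈ S')) :
    compL p l S = compL p l S' := by
  unfold compL
  congr 1
  apply List.map_congr_left
  intro B hB
  by_cases h1 : B ∈ S
  · rw [if_pos h1, if_pos ((h B hB).1 h1)]
  · rw [if_neg h1, if_neg (fun h2 => h1 ((h B hB).2 h2))]

/-- the components sum up to the identity -/
theorem sum_compL (l : List J) (hl : l.Nodup) : ∑ S ∈ l.toFinset.powerset, compL p l S = 1 := by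
  induction l with
  | nil => simp [compL_nil]
  | cons a l ih =>
    rw [List.nodup_cons] at hl
    have ha : a ∉ l.toFinset := fun h => hl.1 (List.mem_toFinset.1 h)
    rw [List.toFinset_cons, Finset.sum_powerset_insert ha]
    have h1 : ∀ S ∈ l.toFinset.powerset, compL p (a :: l) S = p a * compL p l S := by
      intro S hS
      rw [compL_cons, if_neg]
      intro h
      exact ha (Finset.mem_powerset.1 hS h)
    have h2 : ∀ S ∈ l.toFinset.powerset, compL p (a :: l) (insert a S) =
        (1 - p a) * compL p l S := by
      intro S hS
      rw [compL_cons, if_pos (Finset.mem_insert_self a S)]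
      congr 1
      apply compL_congr
      intro B hB
      rw [Finset.mem_insert]
      constructor
      · rintro (rfl | h)
        · exact absurd hB hl.1
        · exact h
      · exact Or.inr
    rw [Finset.sum_congr rfl h1, Finset.sum_congr rfl h2, ← Finset.mul_sum, ← Finset.mul_sum,
      ← add_mul, add_sub_cancel, one_mul]
    exact ih hl.2

variable {p}

/-- an operator commuting with all projections commutes with the components -/
theorem commute_compL {A : Module.End ℝ (Ω → ℝ)} (hA : ∀ B, Commute A (p B)) (l : List J)
    (S : Finset J) : Commute A (compL p l S) := by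
  induction l with
  | nil => exact Commute.one_right A
  | cons a l ih =>
    rw [compL_cons]
    refine Commute.mul_right ?_ ih
    split_ifs
    · exact (Commute.one_right A).sub_right (hA a)
    · exact hA a

theorem proj_compL (hi : ∀ B, p B * p B = p B) (hc : ∀ B B', Commute (p B) (p B')) (l : List J)
    (S : Finset J) (B : J) (hB : B ∈ l) :
    p B * compL p l S = if B ∈ S then 0 else compL p l S := by
  induction l with
  | nil => simp at hB
  | cons a l ih =>
    rw [compL_cons]
    by_cases haB : B = a
    · subst haB
      rw [← mul_assoc]
      by_cases h : B ∈ S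
      · rw [if_pos h, if_pos h, mul_sub, mul_one, hi, sub_self, zero_mul]
      · rw [if_neg h, if_neg h, hi]
    · have hB' : B ∈ l := by
        rcases List.mem_cons.1 hB with h | h
        · exact absurd h haB
        · exact h
      have h1 : Commute (p B) (if a ∈ S then 1 - p a else p a) := by
        split_ifs
        · exact (Commute.one_right _).sub_right (hc B a)
        · exact hc B a
      rw [← mul_assoc, h1.eq, mul_assoc, ih hB']
      by_cases h : B ∈ S
      · rw [if_pos h, if_pos h, mul_zero]
      · rw [if_neg h, if_neg h]

/-- the components applied to an eigenvector -/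
theorem compL_apply_of (l : List J) (S S' : Finset J) (g : Ω → ℝ)
    (hg : ∀ B ∈ l, p B g = if B ∈ S' then 0 else g) :
    compL p l S g = if ∀ B ∈ l, (B ∈ S ↔ B ∈ S') then g else 0 := by
  induction l with
  | nil => simp [compL_nil]
  | cons a l ih =>
    rw [compL_cons, Module.End.mul_apply, ih (fun B hB => hg B (List.mem_cons_of_mem a hB))]
    by_cases h : ∀ B ∈ l, (B ∈ S ↔ B ∈ S')
    · rw [if_pos h]
      have ha := hg a List.mem_cons_self
      by_cases h1 : a ∈ S
      · rw [if_pos h1, LinearMap.sub_apply, Module.End.one_apply, ha]
        by_cases h2 : a ∈ S'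
        · rw [if_pos h2, sub_zero, if_pos]
          intro B hB
          rcases List.mem_cons.1 hB with rfl | hB
          · exact ⟨fun _ => h2, fun _ => h1⟩
          · exact h B hB
        · rw [if_neg h2, sub_self, if_neg]
          intro h3
          exact h2 ((h3 a List.mem_cons_self).1 h1)
      · rw [if_neg h1, ha]
        by_cases h2 : a ∈ S'
        · rw [if_pos h2, if_neg]
          intro h3
          exact h1 ((h3 a List.mem_cons_self).2 h2)
        · rw [if_neg h2, if_pos]
          intro B hB
          rcases List.mem_cons.1 hB with rfl | hB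
          · exact ⟨fun h4 => absurd h4 h1, fun h4 => absurd h4 h2⟩
          · exact h B hB
    · rw [if_neg h, map_zero, if_neg]
      intro h1
      exact h (fun B hB => h1 B (List.mem_cons_of_mem a hB))

end

theorem n1 : S_N1 := by
  intro Ω J _ _ _ p hi hc hs
  have hi' : ∀ B, p B * p B = p B := fun B => LinearMap.ext (fun f => hi B f)
  have hc' : ∀ B B', Commute (p B) (p B') := fun B B' => LinearMap.ext (fun f => hc B B' f)
  have hmem : ∀ B : J, B ∈ (Finset.univ : Finset J).toList := fun B => by simp
  have h4 : ∀ (S : Finset J) (B : J) (f : Ω → ℝ),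
      p B (comp p S f) = if B ∈ S then 0 else comp p S f := by
    intro S B f
    have h := proj_compL hi' hc' (Finset.univ : Finset J).toList S B (hmem B)
    have h1 := congrArg (fun q : Module.End ℝ (Ω → ℝ) => q f) h
    simp only [Module.End.mul_apply] at h1
    rw [comp_eq_compL, h1]
    split_ifs <;> rfl
  have h3 : ∀ (S S' : Finset J) (f : Ω → ℝ),
      comp p S (comp p S' f) = if S = S' then comp p S f else 0 := by
    intro S S' f
    rw [comp_eq_compL p S, compL_apply_of _ S S' (comp p S' f) (fun B _ => h4 S' B f)]
    by_cases h : S = S'
    · subst h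
      rw [if_pos rfl, if_pos (fun B _ => Iff.rfl), comp_eq_compL]
    · rw [if_neg h, if_neg]
      intro h1
      exact h (Finset.ext (fun B => h1 B (hmem B)))
  have horth : ∀ (S S' : Finset J) (f g : Ω → ℝ) (B : J), B ∈ S → B ∉ S' →
      ∑ ω, comp p S f ω * comp p S' g ω = 0 := by
    intro S S' f g B hB hB'
    have h5 : comp p S' g = p B (comp p S' g) := by rw [h4, if_neg hB']
    rw [h5, ← hs, h4, if_pos hB]
    simp
  refine ⟨?_, ?_, h3, h4, ?_⟩
  · intro f
    have h := sum_compL p (Finset.univ : Finset J).toList (Finset.nodup_toList _)
    rw [Finset.toList_toFinset, Finset.powerset_univ] at h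
    have h1 := congrArg (fun q : Module.End ℝ (Ω → ℝ) => q f) h
    simp only [LinearMap.sum_apply, Module.End.one_apply] at h1
    exact h1
  · intro S S' f g hne
    by_cases h : ∃ B ∈ S, B ∉ S'
    · obtain ⟨B, hB, hB'⟩ := h
      exact horth S S' f g B hB hB'
    · push Not at h
      have h1 : ∃ B ∈ S', B ∉ S := by
        by_contra h2
        push Not at h2
        exact hne (Finset.Subset.antisymm h h2)
      obtain ⟨B, hB, hB'⟩ := h1
      have h2 := horth S' S g f B hB hB'
      rw [← h2]
      apply Finset.sum_congr rfl
      intro ω _
      ring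
  · intro A hA S f
    have hA' : ∀ B, Commute A (p B) := fun B => LinearMap.ext (fun f => hA B f)
    have h := commute_compL hA' (Finset.univ : Finset J).toList S
    have h1 := congrArg (fun q : Module.End ℝ (Ω → ℝ) => q f) h.eq
    simp only [Module.End.mul_apply] at h1
    rw [comp_eq_compL]
    exact h1

end TriX.Noise
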