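import Pool.Agent.EX.Noise

/-! Project EX (MP_68260e): module N1b, the averages over coins and blocks are commuting
symmetric projections. -/

namespace TriX.Noise

open Finset

namespace N1bAux

section

variable {I X : Type} [DecidableEq I]

theorem coinAvg_apply [Fintype I] [Fintype X] (ι : X → X) (B : I) (f : (I → X) → ℝ) (ω : I → X) :
    coinAvg ι B f ω = (f ω + f (flipS ι {B} ω)) / 2 := rfl

theorem blockAvg_apply [Fintype I] [Fintype X] (B : I) (f : (I → X) → ℝ) (ω : I → X) :
    blockAvg B f ω = (∑ x : X, f (Function.update ω B x)) / (Fintype.card X : ℝ) := rfl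

theorem flipS_flipS (ι : X → X) (hι : ∀ x, ι (ι x) = x) (U : Finset I) (ω : I → X) :
    flipS ι U (flipS ι U ω) = ω := by
  funext A
  simp only [flipS]
  by_cases h : A ∈ U
  · rw [if_pos h, if_pos h, hι]
  · rw [if_neg h, if_neg h]

theorem flipS_comm (ι : X → X) (U U' : Finset I) (ω : I → X) :
    flipS ι U (flipS ι U' ω) = flipS ι U' (flipS ι U ω) := by
  funext A
  simp only [flipS]
  by_cases h : A ∈ U
  · by_cases h' : A ∈ U'
    · simp only [if_pos h, if_pos h']
    · simp only [if_pos h, if_neg h']
  · by_cases h' : A ∈ U'
    · simp only [if_neg h, if_pos h']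
    · simp only [if_neg h, if_neg h']

/-- the flip as an equivalence -/
def flipE (ι : X → X) (hι : ∀ x, ι (ι x) = x) (U : Finset I) : (I → X) ≃ (I → X) where
  toFun := flipS ι U
  invFun := flipS ι U
  left_inv := flipS_flipS ι hι U
  right_inv := flipS_flipS ι hι U

/-- the exchange of the value at `B` as an equivalence -/
def exchE (B : I) : ((I → X) × X) ≃ ((I → X) × X) where
  toFun p := (Function.update p.1 B p.2, p.1 B)
  invFun p := (Function.update p.1 B p.2, p.1 B)
  left_inv p := by
    rcases p with ⟨ω, x⟩
    simp
  right_inv p := by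
    rcases p with ⟨ω, x⟩
    simp

theorem flipS_update_same (ι : X → X) (B : I) (ω : I → X) (x : X) :
    flipS ι {B} (Function.update ω B x) = Function.update ω B (ι x) := by
  funext A
  simp only [flipS]
  by_cases h : A = B
  · subst h
    rw [if_pos (Finset.mem_singleton_self _), Function.update_self, Function.update_self]
  · rw [if_neg (fun h' => h (Finset.mem_singleton.1 h')), Function.update_of_ne h,
      Function.update_of_ne h]

theorem update_flipS_same (ι : X → X) (B : I) (ω : I → X) (x : X) :
    Function.update (flipS ι {B} ω) B x = Function.update ω B x := by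
  funext A
  by_cases h : A = B
  · subst h
    rw [Function.update_self, Function.update_self]
  · rw [Function.update_of_ne h, Function.update_of_ne h]
    simp only [flipS]
    rw [if_neg (fun h' => h (Finset.mem_singleton.1 h'))]

theorem flipS_update_ne (ι : X → X) {B B' : I} (hB : B ≠ B') (ω : I → X) (x : X) :
    flipS ι {B} (Function.update ω B' x) = Function.update (flipS ι {B} ω) B' x := by
  funext A
  by_cases h : A = B'
  · subst h
    simp only [flipS]
    rw [if_neg (fun h' => hB (Finset.mem_singleton.1 h').symm), Function.update_self,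
      Function.update_self]
  · rw [Function.update_of_ne h]
    simp only [flipS]
    rw [Function.update_of_ne h]

end

end N1bAux

open N1bAux in
theorem n1b : S_N1b := by
  intro I X _ _ _ _ ι hι
  have hX : (Fintype.card X : ℝ) ≠ 0 := by
    exact_mod_cast Fintype.card_ne_zero
  refine ⟨?_, ?_, ?_, ?_, ?_, ?_, ?_⟩
  · intro B f
    funext ω
    simp only [coinAvg_apply]
    rw [flipS_flipS ι hι]
    ring
  · intro B B' f
    funext ω
    simp only [coinAvg_apply]
    rw [flipS_comm ι {B} {B'}]
    ring
  · intro B f g
    simp only [coinAvg_apply]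
    have h1 : ∑ ω, f (flipS ι {B} ω) * g ω = ∑ ω, f ω * g (flipS ι {B} ω) := by
      rw [← Equiv.sum_comp (flipE ι hι {B}) (fun ω => f (flipS ι {B} ω) * g ω)]
      refine Finset.sum_congr rfl fun ω _ => ?_
      change f (flipS ι {B} (flipS ι {B} ω)) * g (flipS ι {B} ω) = _
      rw [flipS_flipS ι hι]
    have h2 : ∀ ω, (f ω + f (flipS ι {B} ω)) / 2 * g ω =
        (f ω * g ω + f (flipS ι {B} ω) * g ω) / 2 := fun ω => by ring
    have h3 : ∀ ω, f ω * ((g ω + g (flipS ι {B} ω)) / 2) =
        (f ω * g ω + f ω * g (flipS ι {B} ω)) / 2 := fun ω => by ring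
    simp only [h2, h3]
    rw [← Finset.sum_div, ← Finset.sum_div, Finset.sum_add_distrib, Finset.sum_add_distrib, h1]
  · intro B f
    funext ω
    simp only [blockAvg_apply, Function.update_idem]
    rw [Finset.sum_const, Finset.card_univ, nsmul_eq_mul]
    field_simp
  · intro B B' f
    by_cases hB : B = B'
    · rw [hB]
    · funext ω
      simp only [blockAvg_apply]
      rw [← Finset.sum_div, ← Finset.sum_div, Finset.sum_comm]
      congr 2
      refine Finset.sum_congr rfl fun x _ => Finset.sum_congr rfl fun y _ => ?_
      rw [Function.update_comm hB]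
  · intro B f g
    simp only [blockAvg_apply]
    have h1 : ∑ ω : I → X, ∑ x : X, f (Function.update ω B x) * g ω =
        ∑ ω : I → X, ∑ x : X, f ω * g (Function.update ω B x) := by
      rw [← Finset.sum_product', ← Finset.sum_product', Finset.univ_product_univ,
        ← Equiv.sum_comp (exchE B)]
      refine Finset.sum_congr rfl fun p _ => ?_
      rcases p with ⟨ω, x⟩
      simp [exchE]
    have h2 : ∀ ω, (∑ x : X, f (Function.update ω B x)) / (Fintype.card X : ℝ) * g ω =
        (∑ x : X, f (Function.update ω B x) * g ω) / (Fintype.card X : ℝ) := fun ω => by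
      rw [← Finset.sum_mul]; ring
    have h3 : ∀ ω, f ω * ((∑ x : X, g (Function.update ω B x)) / (Fintype.card X : ℝ)) =
        (∑ x : X, f ω * g (Function.update ω B x)) / (Fintype.card X : ℝ) := fun ω => by
      rw [← Finset.mul_sum]; ring
    simp only [h2, h3]
    rw [← Finset.sum_div, ← Finset.sum_div, h1]
  · intro B B' f
    by_cases hB : B = B'
    · subst hB
      funext ω
      simp only [coinAvg_apply, blockAvg_apply, update_flipS_same, flipS_update_same]
      rw [← Finset.sum_div, Finset.sum_add_distrib]
      have h1 : ∑ x : X, f (Function.update ω B (ι x)) = ∑ x : X, f (Function.update ω B x) :=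
        Equiv.sum_comp (⟨ι, ι, hι, hι⟩ : X ≃ X) (fun x => f (Function.update ω B x))
      rw [h1]
      ring
    · funext ω
      simp only [coinAvg_apply, blockAvg_apply, flipS_update_ne ι hB]
      rw [← Finset.sum_div, Finset.sum_add_distrib]
      ring

end TriX.Noise
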