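import Pool.Agent.EX.Noise

/-! Project EX (MP_68260e): module N2, the spectral formula for the noise operator. -/

namespace TriX.Noise

open Finset

set_option linter.unusedSectionVars false

namespace N2Aux

variable {I X : Type} [Fintype I] [DecidableEq I] [Fintype X]

theorem flipS_insert (ι : X → X) {B : I} {U : Finset I} (hB : B ∉ U) (ω : I → X) :
    flipS ι (insert B U) ω = flipS ι {B} (flipS ι U ω) := by
  funext A
  simp only [flipS]
  by_cases h : A = B
  · subst h
    simp [hB]
  · simp [h]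

theorem flipS_empty (ι : X → X) (ω : I → X) : flipS ι ∅ ω = ω := by
  funext A
  simp [flipS]

/-- A function which is even or odd with respect to each coin. -/
theorem flip_sign (ι : X → X) (g : (I → X) → ℝ) (S : Finset I)
    (hin : ∀ B ∈ S, coinAvg ι B g = 0) (hout : ∀ B, B ∉ S → coinAvg ι B g = g)
    (U : Finset I) (ω : I → X) :
    g (flipS ι U ω) = (∏ B ∈ U, (if B ∈ S then (-1 : ℝ) else 1)) * g ω := by
  induction U using Finset.induction_on with
  | empty => simp [flipS_empty]
  | insert B U hB ih =>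
    rw [flipS_insert ι hB, Finset.prod_insert hB]
    by_cases hS : B ∈ S
    · have h1 : (g (flipS ι U ω) + g (flipS ι {B} (flipS ι U ω))) / 2 = 0 :=
        congrFun (hin B hS) (flipS ι U ω)
      rw [if_pos hS]
      have h2 : g (flipS ι {B} (flipS ι U ω)) = - g (flipS ι U ω) := by linarith
      rw [h2, ih]; ring
    · have h1 : (g (flipS ι U ω) + g (flipS ι {B} (flipS ι U ω))) / 2 = g (flipS ι U ω) :=
        congrFun (hout B hS) (flipS ι U ω)
      rw [if_neg hS]
      have h2 : g (flipS ι {B} (flipS ι U ω)) = g (flipS ι U ω) := by linarith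
      rw [h2, ih]; ring

theorem T_eigen (ι : X → X) (u : ℝ) (g : (I → X) → ℝ) (S : Finset I)
    (hin : ∀ B ∈ S, coinAvg ι B g = 0) (hout : ∀ B, B ∉ S → coinAvg ι B g = g)
    (ω : I → X) : T ι u g ω = u ^ S.card * g ω := by
  unfold T
  have h1 : ∀ U : Finset I, ((1 - u) / 2) ^ U.card *
      ((1 + u) / 2) ^ (Fintype.card I - U.card) * g (flipS ι U ω) =
      ((∏ B ∈ U, ((1 - u) / 2 * (if B ∈ S then (-1 : ℝ) else 1))) *
        ∏ B ∈ Finset.univ \ U, ((1 + u) / 2)) * g ω := by
    intro U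
    rw [flip_sign ι g S hin hout, Finset.prod_mul_distrib, Finset.prod_const, Finset.prod_const,
      Finset.card_univ_sdiff]
    ring
  rw [Finset.sum_congr rfl (fun U _ => h1 U), ← Finset.sum_mul]
  have h2 := Finset.prod_add (fun B => (1 - u) / 2 * (if B ∈ S then (-1 : ℝ) else 1))
    (fun _ => (1 + u) / 2) (Finset.univ : Finset I)
  rw [Finset.powerset_univ] at h2
  rw [← h2]
  have h3 : ∀ B : I, (1 - u) / 2 * (if B ∈ S then (-1 : ℝ) else 1) + (1 + u) / 2 =
      if B ∈ S then u else 1 := by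
    intro B
    split_ifs <;> ring
  rw [Finset.prod_congr rfl (fun B _ => h3 B), Finset.prod_ite_mem, Finset.univ_inter,
    Finset.prod_const]

theorem T_sum (ι : X → X) (u : ℝ) {K : Type} (s : Finset K) (g : K → (I → X) → ℝ) :
    T ι u (∑ k ∈ s, g k) = ∑ k ∈ s, T ι u (g k) := by
  funext ω
  unfold T
  rw [Finset.sum_apply, Finset.sum_comm]
  refine Finset.sum_congr rfl fun U _ => ?_
  rw [Finset.sum_apply, Finset.mul_sum]

theorem E_ortho (F : Finset I → (I → X) → ℝ)
    (hF : ∀ S S', S ≠ S' → ∑ ω, F S ω * F S' ω = 0) (a b : Finset I → ℝ) :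
    E (fun ω => (∑ S, a S • F S) ω * (∑ S, b S • F S) ω) = ∑ S, a S * b S * sq (F S) := by
  unfold sq E
  have h1 : ∀ ω : I → X, (∑ S, a S • F S) ω * (∑ S, b S • F S) ω =
      ∑ S, ∑ S', a S * b S' * (F S ω * F S' ω) := by
    intro ω
    rw [Finset.sum_apply, Finset.sum_apply, Finset.sum_mul_sum]
    refine Finset.sum_congr rfl fun S _ => Finset.sum_congr rfl fun S' _ => ?_
    simp only [Pi.smul_apply, smul_eq_mul]
    ring
  have h2 : ∑ ω : I → X, (∑ S, a S • F S) ω * (∑ S, b S • F S) ω =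
      ∑ S, a S * b S * ∑ ω, F S ω ^ 2 := by
    rw [Finset.sum_congr rfl (fun ω _ => h1 ω), Finset.sum_comm]
    refine Finset.sum_congr rfl fun S _ => ?_
    rw [Finset.sum_comm]
    rw [Finset.sum_eq_single S]
    · rw [← Finset.mul_sum]
      congr 1
      exact Finset.sum_congr rfl fun ω _ => by ring
    · intro S' _ hS'
      rw [← Finset.mul_sum, hF S S' (Ne.symm hS'), mul_zero]
    · intro h; exact absurd (Finset.mem_univ S) h
  rw [h2, Finset.sum_div]
  exact Finset.sum_congr rfl fun S _ => by ring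

end N2Aux

open N2Aux in
theorem n2 (h : S_N1) (hb : S_N1b) : S_N2 := by
  intro I X _ _ _ _ ι hι u f
  obtain ⟨hc1, hc2, hc3, -, -, -, -⟩ := hb I X ι hι
  obtain ⟨h1, h2, -, h4, -⟩ := h (I → X) I (coinAvg ι) hc1 hc2 hc3
  have hT : ∀ S, T ι u (comp (coinAvg ι) S f) = u ^ S.card • comp (coinAvg ι) S f := by
    intro S
    funext ω
    rw [T_eigen ι u _ S ?_ ?_ ω]
    · rfl
    · intro B hB
      rw [h4 S B f, if_pos hB]
    · intro B hB
      rw [h4 S B f, if_neg hB]
  have hA : T ι u f = ∑ S, u ^ S.card • comp (coinAvg ι) S f := by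
    conv_lhs => rw [← h1 f]
    rw [T_sum]
    exact Finset.sum_congr rfl fun S _ => hT S
  have hO : ∀ S S', S ≠ S' →
      ∑ ω, comp (coinAvg ι) S f ω * comp (coinAvg ι) S' f ω = 0 := fun S S' hS => h2 S S' f f hS
  refine ⟨hA, ?_, ?_⟩
  · have h5 := E_ortho (fun S => comp (coinAvg ι) S f) hO (fun _ => 1) (fun S => u ^ S.card)
    simp only [one_smul, one_mul] at h5
    rw [← h5, hA, h1 f]
  · have h5 := E_ortho (fun S => comp (coinAvg ι) S f) hO (fun S => u ^ S.card)
      (fun S => u ^ S.card)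
    rw [← hA] at h5
    unfold sq at h5 ⊢
    calc E (fun ω => T ι u f ω ^ 2) = E (fun ω => T ι u f ω * T ι u f ω) := by
          congr 1; funext ω; ring
      _ = _ := h5
      _ = _ := by
        refine Finset.sum_congr rfl fun S _ => ?_
        rw [← pow_mul, mul_comm 2, pow_mul]
        ring

end TriX.Noise
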