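import Pool.Agent.EX.N2

/-! Project EX (MP_68260e): module N3, block influences of the noised function are bounded by
coin influences. -/

set_option linter.unusedSectionVars false

namespace TriX.Noise

open Finset

namespace N3Aux

open N2Aux

variable {I X : Type} [Fintype I] [DecidableEq I] [Fintype X]

/-- The noise operator for all coins except the one of block `B`. -/
noncomputable def Tn (ι : X → X) (B : I) (u : ℝ) (f : (I → X) → ℝ) (ω : I → X) : ℝ :=
  ∑ U ∈ (Finset.univ.erase B).powerset, ((1 - u) / 2) ^ U.card *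
    ((1 + u) / 2) ^ ((Finset.univ.erase B).card - U.card) * f (flipS ι U ω)

theorem T_eq_Tn (ι : X → X) (B : I) (u : ℝ) (f : (I → X) → ℝ) (ω : I → X) :
    T ι u f ω = (1 + u) / 2 * Tn ι B u f ω + (1 - u) / 2 * Tn ι B u f (flipS ι {B} ω) := by
  have hB : B ∉ Finset.univ.erase B := Finset.notMem_erase B _
  have hins : insert B (Finset.univ.erase B) = (Finset.univ : Finset I) :=
    Finset.insert_erase (Finset.mem_univ B)
  have hn : Fintype.card I = (Finset.univ.erase B).card + 1 := by
    have := Finset.card_insert_of_notMem hB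
    rw [hins, Finset.card_univ] at this
    exact this
  unfold T Tn
  rw [← Finset.powerset_univ, ← hins, Finset.sum_powerset_insert hB, Finset.mul_sum,
    Finset.mul_sum, hins]
  congr 1
  · refine Finset.sum_congr rfl fun U hU => ?_
    have hUc : U.card ≤ (Finset.univ.erase B).card :=
      Finset.card_le_card (Finset.mem_powerset.1 hU)
    have h1 : Fintype.card I - U.card = ((Finset.univ.erase B).card - U.card) + 1 := by omega
    rw [h1, pow_succ]
    ring
  · refine Finset.sum_congr rfl fun U hU => ?_
    have hUB : B ∉ U := fun h => hB (Finset.mem_powerset.1 hU h)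
    have hUc : U.card ≤ (Finset.univ.erase B).card :=
      Finset.card_le_card (Finset.mem_powerset.1 hU)
    rw [Finset.card_insert_of_notMem hUB]
    have h1 : Fintype.card I - (U.card + 1) = ((Finset.univ.erase B).card - U.card) := by omega
    have h2 : flipS ι (insert B U) ω = flipS ι U (flipS ι {B} ω) := by
      funext A
      simp only [flipS]
      by_cases h : A = B
      · subst h
        simp [hUB]
      · simp [h]
    rw [h1, h2, pow_succ]
    ring

theorem Tn_eigen (ι : X → X) (B : I) (u : ℝ) (g : (I → X) → ℝ) (S : Finset I)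
    (hin : ∀ A ∈ S, coinAvg ι A g = 0) (hout : ∀ A, A ∉ S → coinAvg ι A g = g)
    (ω : I → X) : Tn ι B u g ω = u ^ (S.erase B).card * g ω := by
  unfold Tn
  have h1 : ∀ U ∈ (Finset.univ.erase B).powerset, ((1 - u) / 2) ^ U.card *
      ((1 + u) / 2) ^ ((Finset.univ.erase B).card - U.card) * g (flipS ι U ω) =
      ((∏ A ∈ U, ((1 - u) / 2 * (if A ∈ S then (-1 : ℝ) else 1))) *
        ∏ A ∈ (Finset.univ.erase B) \ U, ((1 + u) / 2)) * g ω := by
    intro U hU
    rw [flip_sign ι g S hin hout, Finset.prod_mul_distrib, Finset.prod_const, Finset.prod_const,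
      Finset.card_sdiff_of_subset (Finset.mem_powerset.1 hU)]
    ring
  rw [Finset.sum_congr rfl h1, ← Finset.sum_mul]
  have h2 := Finset.prod_add (fun A => (1 - u) / 2 * (if A ∈ S then (-1 : ℝ) else 1))
    (fun _ => (1 + u) / 2) (Finset.univ.erase B)
  rw [← h2]
  have h3 : ∀ A : I, (1 - u) / 2 * (if A ∈ S then (-1 : ℝ) else 1) + (1 + u) / 2 =
      if A ∈ S then u else 1 := by
    intro A
    split_ifs <;> ring
  rw [Finset.prod_congr rfl (fun A _ => h3 A), Finset.prod_ite_mem, Finset.prod_const]
  congr 3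
  ext A
  simp

theorem Tn_sum (ι : X → X) (B : I) (u : ℝ) {K : Type} (s : Finset K) (g : K → (I → X) → ℝ) :
    Tn ι B u (∑ k ∈ s, g k) = ∑ k ∈ s, Tn ι B u (g k) := by
  funext ω
  unfold Tn
  rw [Finset.sum_apply, Finset.sum_comm]
  refine Finset.sum_congr rfl fun U _ => ?_
  rw [Finset.sum_apply, Finset.mul_sum]

theorem flipS_update (ι : X → X) {B : I} {U : Finset I} (hB : B ∉ U) (ω : I → X) (x : X) :
    flipS ι U (Function.update ω B x) = Function.update (flipS ι U ω) B x := by
  funext A
  by_cases h : A = B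
  · subst h
    simp [flipS, hB]
  · simp [flipS, Function.update_of_ne h]

theorem flipS_comm (ι : X → X) (U U' : Finset I) (ω : I → X) :
    flipS ι U (flipS ι U' ω) = flipS ι U' (flipS ι U ω) := by
  funext A
  simp only [flipS]
  by_cases h : A ∈ U <;> by_cases h' : A ∈ U' <;> simp [h, h']

theorem flipS_single_update (ι : X → X) (B : I) (ω : I → X) (x : X) :
    flipS ι {B} (Function.update ω B x) = Function.update ω B (ι x) := by
  funext A
  by_cases h : A = B
  · subst h
    simp [flipS]
  · simp [flipS, h]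

/-- positivity of the coin influence -/
theorem Tn_mono (c : Coin X) (K : ℝ) (h : (I → X) → ℝ) (hg : Good c K h) (B : I) {w : ℝ}
    (hw0 : 0 ≤ w) (hw1 : w ≤ 1) (ω : I → X) :
    0 ≤ c.χ (ω B) * (Tn c.ι B w h ω - Tn c.ι B w h (flipS c.ι {B} ω)) := by
  unfold Tn
  rw [← Finset.sum_sub_distrib, Finset.mul_sum]
  refine Finset.sum_nonneg fun U hU => ?_
  have hUB : B ∉ U := fun h' => Finset.notMem_erase B _ (Finset.mem_powerset.1 hU h')
  have h1 := hg.1 (flipS c.ι U ω) B
  have h2 : flipS c.ι U ω B = ω B := by simp [flipS, hUB]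
  rw [h2] at h1
  rw [flipS_comm c.ι U {B}]
  have h3 : 0 ≤ ((1 - w) / 2) ^ U.card * ((1 + w) / 2) ^ ((Finset.univ.erase B).card - U.card) := by
    apply mul_nonneg <;> apply pow_nonneg <;> linarith
  calc (0 : ℝ) ≤ ((1 - w) / 2) ^ U.card * ((1 + w) / 2) ^ ((Finset.univ.erase B).card - U.card) *
        (c.χ (ω B) * (h (flipS c.ι U ω) - h (flipS c.ι {B} (flipS c.ι U ω)))) :=
        mul_nonneg h3 h1
    _ = _ := by ring

/-- finite energy is inherited by the partially noised function -/
theorem Tn_energy (c : Coin X) (K : ℝ) (h : (I → X) → ℝ) (hg : Good c K h) (B : I) {w : ℝ}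
    (hw0 : 0 ≤ w) (hw1 : w ≤ 1) (ω : I → X) (x y : X) :
    Tn c.ι B w h (Function.update ω B x) - Tn c.ι B w h (Function.update ω B y) ≤
      K * ∑ z : X, c.χ z * (Tn c.ι B w h (Function.update ω B z) -
        Tn c.ι B w h (flipS c.ι {B} (Function.update ω B z))) := by
  set W : Finset I → ℝ := fun U => ((1 - w) / 2) ^ U.card *
    ((1 + w) / 2) ^ ((Finset.univ.erase B).card - U.card) with hW
  have hW0 : ∀ U, 0 ≤ W U := by
    intro U
    apply mul_nonneg <;> apply pow_nonneg <;> linarith
  have hT : ∀ η : I → X, Tn c.ι B w h η =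
      ∑ U ∈ (Finset.univ.erase B).powerset, W U * h (flipS c.ι U η) := fun η => rfl
  have hR : K * ∑ z : X, c.χ z * (Tn c.ι B w h (Function.update ω B z) -
        Tn c.ι B w h (flipS c.ι {B} (Function.update ω B z))) =
      ∑ U ∈ (Finset.univ.erase B).powerset, W U * (K * ∑ z : X, c.χ z *
        (h (Function.update (flipS c.ι U ω) B z) -
          h (flipS c.ι {B} (Function.update (flipS c.ι U ω) B z)))) := by
    have h1 : ∀ z : X, c.χ z * (Tn c.ι B w h (Function.update ω B z) -
        Tn c.ι B w h (flipS c.ι {B} (Function.update ω B z))) =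
        ∑ U ∈ (Finset.univ.erase B).powerset, W U * (c.χ z *
        (h (Function.update (flipS c.ι U ω) B z) -
          h (flipS c.ι {B} (Function.update (flipS c.ι U ω) B z)))) := by
      intro z
      rw [hT, hT, ← Finset.sum_sub_distrib, Finset.mul_sum]
      refine Finset.sum_congr rfl fun U hU => ?_
      have hUB : B ∉ U := fun h' => Finset.notMem_erase B _ (Finset.mem_powerset.1 hU h')
      rw [flipS_comm c.ι U {B}, flipS_update c.ι hUB]
      ring
    rw [Finset.sum_congr rfl (fun z _ => h1 z), Finset.sum_comm, Finset.mul_sum]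
    refine Finset.sum_congr rfl fun U _ => ?_
    rw [Finset.mul_sum, Finset.mul_sum, Finset.mul_sum]
    exact Finset.sum_congr rfl fun z _ => by ring
  rw [hR, hT, hT, ← Finset.sum_sub_distrib]
  refine Finset.sum_le_sum fun U hU => ?_
  have hUB : B ∉ U := fun h' => Finset.notMem_erase B _ (Finset.mem_powerset.1 hU h')
  rw [flipS_update c.ι hUB, flipS_update c.ι hUB, ← mul_sub]
  exact mul_le_mul_of_nonneg_left (hg.2 (flipS c.ι U ω) B x y) (hW0 U)

theorem sq_mono (f g : (I → X) → ℝ) (hfg : ∀ ω, |f ω| ≤ |g ω|) : sq f ≤ sq g := by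
  unfold sq E
  apply div_le_div_of_nonneg_right _ (Nat.cast_nonneg _)
  exact Finset.sum_le_sum fun ω _ => sq_le_sq.2 (hfg ω)

end N3Aux

open N2Aux N3Aux in
theorem n3 (h : S_N1) (hb : S_N1b) (_h2 : S_N2) : S_N3 := by
  intro I X _ _ _ _ c K f hK hgood w hw0 hw1
  obtain ⟨hc1, hc2, hc3, hb1, hb2, hb3, -⟩ := hb I X c.ι c.invol
  obtain ⟨h1, h2, -, h4, -⟩ := h (I → X) I (coinAvg c.ι) hc1 hc2 hc3
  have hX : (0 : ℝ) < Fintype.card X := by exact_mod_cast Fintype.card_pos
  set F : Finset I → (I → X) → ℝ := fun S => comp (coinAvg c.ι) S f with hF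
  have hO : ∀ S S', S ≠ S' → ∑ ω, F S ω * F S' ω = 0 := fun S S' hS => h2 S S' f f hS
  -- the bound for one block
  have key : ∀ B : I, sq (T c.ι w f - blockAvg B (T c.ι w f)) ≤
      (2 * K * Fintype.card X) ^ 2 *
        ∑ S : Finset I, (if B ∈ S then (w ^ 2) ^ (S.card - 1) * sq (F S) else 0) := by
    intro B
    set g : (I → X) → ℝ := Tn c.ι B w f with hg
    set q : (I → X) → ℝ := fun ω => c.χ (ω B) * (g ω - g (flipS c.ι {B} ω)) / 2 with hq
    have hq0 : ∀ ω, 0 ≤ q ω := fun ω => by
      have := Tn_mono c K f hgood B hw0 hw1 ω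
      simp only [hq, hg]
      linarith
    -- pointwise bound
    have hosc : ∀ (ω : I → X) (x y : X), g (Function.update ω B x) - g (Function.update ω B y) ≤
        2 * K * ∑ z, q (Function.update ω B z) := by
      intro ω x y
      have h5 := Tn_energy c K f hgood B hw0 hw1 ω x y
      have h6 : ∑ z, q (Function.update ω B z) = (∑ z : X, c.χ z * (g (Function.update ω B z) -
        g (flipS c.ι {B} (Function.update ω B z)))) / 2 := by
        rw [Finset.sum_div]
        refine Finset.sum_congr rfl fun z _ => ?_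
        simp only [hq, Function.update_self]
      rw [h6]
      calc _ ≤ _ := h5
        _ = _ := by ring
    have hoscT : ∀ (ω : I → X) (x y : X),
        T c.ι w f (Function.update ω B x) - T c.ι w f (Function.update ω B y) ≤
        2 * K * ∑ z, q (Function.update ω B z) := by
      intro ω x y
      rw [T_eq_Tn c.ι B, T_eq_Tn c.ι B, flipS_single_update, flipS_single_update]
      have h5 := hosc ω x y
      have h6 := hosc ω (c.ι x) (c.ι y)
      rw [hg] at h5 h6
      nlinarith
    have havg : ∀ ω, (T c.ι w f - blockAvg B (T c.ι w f)) ω =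
        (∑ y : X, (T c.ι w f ω - T c.ι w f (Function.update ω B y))) / Fintype.card X := by
      intro ω
      change T c.ι w f ω - (∑ y : X, T c.ι w f (Function.update ω B y)) / (Fintype.card X : ℝ) = _
      rw [Finset.sum_sub_distrib, Finset.sum_const, Finset.card_univ, nsmul_eq_mul]
      field_simp
    have hQ0 : ∀ ω, 0 ≤ blockAvg B q ω := fun ω => by
      change 0 ≤ (∑ y : X, q (Function.update ω B y)) / (Fintype.card X : ℝ)
      exact div_nonneg (Finset.sum_nonneg fun y _ => hq0 _) hX.le
    have hQ : ∀ ω, ∑ z, q (Function.update ω B z) = Fintype.card X * blockAvg B q ω := by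
      intro ω
      change _ = (Fintype.card X : ℝ) * ((∑ y : X, q (Function.update ω B y)) / (Fintype.card X : ℝ))
      field_simp
    have hpt : ∀ ω, |(T c.ι w f - blockAvg B (T c.ι w f)) ω| ≤
        |(2 * K * Fintype.card X) * blockAvg B q ω| := by
      intro ω
      rw [abs_of_nonneg (mul_nonneg (mul_nonneg (mul_nonneg (by norm_num) hK) hX.le) (hQ0 ω)),
        abs_le, havg]
      have hb5 : ∀ y : X, T c.ι w f ω - T c.ι w f (Function.update ω B y) ≤
          (2 * K * Fintype.card X) * blockAvg B q ω := by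
        intro y
        have := hoscT ω (ω B) y
        rw [Function.update_eq_self, hQ] at this
        linarith
      have hb6 : ∀ y : X, -((2 * K * Fintype.card X) * blockAvg B q ω) ≤
          T c.ι w f ω - T c.ι w f (Function.update ω B y) := by
        intro y
        have := hoscT ω y (ω B)
        rw [Function.update_eq_self, hQ] at this
        linarith
      constructor
      · rw [le_div_iff₀ hX]
        calc -((2 * K * Fintype.card X) * blockAvg B q ω) * Fintype.card X =
            ∑ _y : X, -((2 * K * Fintype.card X) * blockAvg B q ω) := by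
              rw [Finset.sum_const, Finset.card_univ, nsmul_eq_mul]; ring
          _ ≤ _ := Finset.sum_le_sum fun y _ => hb6 y
      · rw [div_le_iff₀ hX]
        calc _ ≤ ∑ _y : X, ((2 * K * Fintype.card X) * blockAvg B q ω) :=
              Finset.sum_le_sum fun y _ => hb5 y
          _ = _ := by
              rw [Finset.sum_const, Finset.card_univ, nsmul_eq_mul]; ring
    have hs1 : sq (T c.ι w f - blockAvg B (T c.ι w f)) ≤
        (2 * K * Fintype.card X) ^ 2 * sq (blockAvg B q) := by
      calc _ ≤ sq (fun ω => (2 * K * Fintype.card X) * blockAvg B q ω) := sq_mono _ _ hpt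
        _ = _ := by
          unfold sq E
          rw [← mul_div_assoc, Finset.mul_sum]
          congr 1
          exact Finset.sum_congr rfl fun ω _ => by ring
    have hs2 : sq (blockAvg B q) ≤ sq q := by
      unfold sq E
      apply div_le_div_of_nonneg_right _ (Nat.cast_nonneg _)
      have e1 : ∑ ω, blockAvg B q ω * blockAvg B q ω = ∑ ω, q ω * blockAvg B q ω := by
        rw [hb3, hb1]
      have e2 : ∑ ω, q ω * blockAvg B q ω ≤ (∑ ω, q ω ^ 2 + ∑ ω, blockAvg B q ω ^ 2) / 2 := by
        rw [← Finset.sum_add_distrib, Finset.sum_div]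
        exact Finset.sum_le_sum fun ω _ => by nlinarith [sq_nonneg (q ω - blockAvg B q ω)]
      have e3 : ∑ ω, blockAvg B q ω * blockAvg B q ω = ∑ ω, blockAvg B q ω ^ 2 :=
        Finset.sum_congr rfl fun ω _ => by ring
      rw [e3] at e1
      linarith
    have hs3 : sq q ≤ sq (g - coinAvg c.ι B g) := by
      apply sq_mono
      intro ω
      change |c.χ (ω B) * (g ω - g (flipS c.ι {B} ω)) / 2| ≤
        |g ω - (g ω + g (flipS c.ι {B} ω)) / 2|
      have e1 : g ω - (g ω + g (flipS c.ι {B} ω)) / 2 = (g ω - g (flipS c.ι {B} ω)) / 2 := by ring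
      rw [e1, mul_div_assoc, abs_mul]
      have e2 : |c.χ (ω B)| ≤ 1 := by
        rcases c.val (ω B) with e | e | e <;> rw [e] <;> norm_num
      exact mul_le_of_le_one_left (abs_nonneg _) e2
    -- spectral formula
    have hgS : g = ∑ S, w ^ (S.erase B).card • F S := by
      conv_lhs => rw [hg, ← h1 f]
      rw [Tn_sum]
      refine Finset.sum_congr rfl fun S _ => ?_
      funext ω
      rw [Tn_eigen c.ι B w _ S ?_ ?_ ω]
      · rfl
      · intro A hA
        rw [h4 S A f, if_pos hA]
      · intro A hA
        rw [h4 S A f, if_neg hA]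
    have hdS : g - coinAvg c.ι B g = ∑ S, (if B ∈ S then w ^ (S.card - 1) else 0) • F S := by
      rw [hgS, map_sum, ← Finset.sum_sub_distrib]
      refine Finset.sum_congr rfl fun S _ => ?_
      rw [map_smul, h4 S B f]
      by_cases hS : B ∈ S
      · rw [if_pos hS, if_pos hS, Finset.card_erase_of_mem hS, smul_zero, sub_zero]
      · rw [if_neg hS, if_neg hS, sub_self, zero_smul]
    have hs4 : sq (g - coinAvg c.ι B g) =
        ∑ S : Finset I, (if B ∈ S then (w ^ 2) ^ (S.card - 1) * sq (F S) else 0) := by
      have h5 := E_ortho F hO (fun S => if B ∈ S then w ^ (S.card - 1) else 0)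
        (fun S => if B ∈ S then w ^ (S.card - 1) else 0)
      rw [← hdS] at h5
      calc sq (g - coinAvg c.ι B g) =
          E (fun ω => (g - coinAvg c.ι B g) ω * (g - coinAvg c.ι B g) ω) := by
            unfold sq; congr 1; funext ω; ring
        _ = _ := h5
        _ = _ := by
          refine Finset.sum_congr rfl fun S _ => ?_
          by_cases hS : B ∈ S
          · rw [if_pos hS, if_pos hS, ← pow_mul, mul_comm 2, pow_mul]; ring
          · rw [if_neg hS, if_neg hS]; ring
    calc _ ≤ _ := hs1
      _ ≤ (2 * K * Fintype.card X) ^ 2 * sq (g - coinAvg c.ι B g) :=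
        mul_le_mul_of_nonneg_left (hs2.trans hs3) (sq_nonneg _)
      _ = _ := by rw [hs4]
  calc _ ≤ ∑ B : I, (2 * K * Fintype.card X) ^ 2 *
        ∑ S : Finset I, (if B ∈ S then (w ^ 2) ^ (S.card - 1) * sq (F S) else 0) :=
        Finset.sum_le_sum fun B _ => key B
    _ = _ := by
      rw [← Finset.mul_sum, Finset.sum_comm]
      congr 1
      refine Finset.sum_congr rfl fun S _ => ?_
      rw [← Finset.sum_filter, Finset.sum_const, nsmul_eq_mul]
      have e1 : (Finset.univ.filter (fun B => B ∈ S)) = S := by ext; simp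
      rw [e1]
      ring

end TriX.Noise
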