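import Pool.Agent.EX.Noise

/-! EX-N4: the inequality of Schramm and Steif for blocks, for averages of functions determined by
stopping sets. -/

set_option autoImplicit false

namespace TriX.Noise

open Finset

section dep
variable {I X : Type} [Fintype I] [DecidableEq I] [Fintype X]

/-- `f` does not depend on the coordinate `B` -/
def Inv (B : I) (f : (I → X) → ℝ) : Prop := ∀ ω x, f (Function.update ω B x) = f ω

theorem inv_of_blockAvg {B : I} {f : (I → X) → ℝ} (h : blockAvg B f = f) : Inv B f := by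
  intro ω x
  have h1 : f (Function.update ω B x) = blockAvg B f (Function.update ω B x) := by rw [h]
  have h2 : f ω = blockAvg B f ω := by rw [h]
  rw [h1, h2]
  simp only [blockAvg, LinearMap.coe_mk, AddHom.coe_mk, Function.update_idem]

theorem blockAvg_of_inv [Nonempty X] {B : I} {f : (I → X) → ℝ} (h : Inv B f) :
    blockAvg B f = f := by
  funext ω
  simp only [blockAvg, LinearMap.coe_mk, AddHom.coe_mk]
  rw [Finset.sum_congr rfl (fun x _ => h ω x), Finset.sum_const, Finset.card_univ, nsmul_eq_mul,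
    mul_div_assoc, mul_comm, div_mul_cancel₀]
  exact_mod_cast Fintype.card_ne_zero

theorem Inv.mul {B : I} {f g : (I → X) → ℝ} (hf : Inv B f) (hg : Inv B g) :
    Inv B (fun ω => f ω * g ω) := by
  intro ω x
  beta_reduce
  rw [hf, hg]

/-- invariance off `U` means dependence on `U` only -/
theorem dep_of_inv {U : Finset I} {f : (I → X) → ℝ} (h : ∀ B, B ∉ U → Inv B f)
    {ω ω' : I → X} (hω : ∀ B ∈ U, ω B = ω' B) : f ω = f ω' := by
  have h1 : ∀ W : Finset I, f (fun B => if B ∈ W then ω' B else ω B) = f ω := by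
    intro W
    induction W using Finset.induction_on with
    | empty => simp
    | insert B W hB ih =>
      have h2 : (fun C => if C ∈ insert B W then ω' C else ω C) =
          Function.update (fun C => if C ∈ W then ω' C else ω C) B (ω' B) := by
        funext C
        by_cases hC : C = B
        · subst hC
          rw [Function.update_self, if_pos (Finset.mem_insert_self C W)]
        · rw [Function.update_of_ne hC]
          by_cases hCW : C ∈ W
          · rw [if_pos (Finset.mem_insert_of_mem hCW), if_pos hCW]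
          · rw [if_neg (by rw [Finset.mem_insert]; tauto), if_neg hCW]
      rw [h2]
      by_cases hBU : B ∈ U
      · have h3 : Function.update (fun C => if C ∈ W then ω' C else ω C) B (ω' B) =
            fun C => if C ∈ W then ω' C else ω C := by
          funext C
          by_cases hC : C = B
          · subst hC
            rw [Function.update_self, if_neg hB, hω C hBU]
          · rw [Function.update_of_ne hC]
        rw [h3, ih]
      · rw [h B hBU, ih]
  have h2 := h1 Finset.univ
  simp only [Finset.mem_univ, if_true] at h2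
  exact h2.symm

/-- independence of functions depending on complementary coordinates -/
theorem sum_mul_sum {U : Finset I} {a q : (I → X) → ℝ}
    (ha : ∀ ω ω' : I → X, (∀ B ∈ U, ω B = ω' B) → a ω = a ω')
    (hq : ∀ ω ω' : I → X, (∀ B, B ∉ U → ω B = ω' B) → q ω = q ω') :
    (∑ ω, a ω) * (∑ ω, q ω) = (Fintype.card (I → X) : ℝ) * ∑ ω, a ω * q ω := by
  set mix : (I → X) → (I → X) → (I → X) := fun ω ω' B => if B ∈ U then ω B else ω' B with hmix
  set e : ((I → X) × (I → X)) ≃ ((I → X) × (I → X)) :=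
    { toFun := fun z => (mix z.1 z.2, mix z.2 z.1)
      invFun := fun z => (mix z.1 z.2, mix z.2 z.1)
      left_inv := by
        rintro ⟨x, y⟩
        simp only [hmix, Prod.mk.injEq]
        constructor
        · funext B
          by_cases h : B ∈ U <;> simp [h]
        · funext B
          by_cases h : B ∈ U <;> simp [h]
      right_inv := by
        rintro ⟨x, y⟩
        simp only [hmix, Prod.mk.injEq]
        constructor
        · funext B
          by_cases h : B ∈ U <;> simp [h]
        · funext B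
          by_cases h : B ∈ U <;> simp [h] } with he
  have h1 : ∑ z : (I → X) × (I → X), a (e z).1 * q (e z).1 =
      ∑ z : (I → X) × (I → X), a z.1 * q z.1 :=
    Equiv.sum_comp e (fun z => a z.1 * q z.1)
  rw [Fintype.sum_prod_type, Fintype.sum_prod_type] at h1
  have h2 : ∀ x y : I → X, a (e (x, y)).1 * q (e (x, y)).1 = a x * q y := by
    intro x y
    show a (mix x y) * q (mix x y) = a x * q y
    congr 1
    · apply ha
      intro B hB
      simp only [hmix]
      rw [if_pos hB]
    · apply hq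
      intro B hB
      simp only [hmix]
      rw [if_neg hB]
  simp only [h2, Finset.sum_const, Finset.card_univ, nsmul_eq_mul] at h1
  rw [Finset.sum_mul_sum, h1, Finset.mul_sum]

end dep

theorem n4 (h : S_N1) (hb : S_N1b) : S_N4 := by
  classical
  intro I X P _ _ _ _ _ _ f J δ M hδ hJ hδ1 hM k hk
  obtain ⟨-, -, -, b1, b2, b3, -⟩ := hb I X id (fun x => rfl)
  obtain ⟨d1, d2, -, d4, -⟩ := h (I → X) I blockAvg b1 b2 b3
  set N : ℝ := (Fintype.card (I → X) : ℝ) with hN
  have hN0 : 0 < N := by
    rw [hN]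
    exact_mod_cast Fintype.card_pos
  have hP0 : (0 : ℝ) < Fintype.card P := by exact_mod_cast Fintype.card_pos
  set hh : (I → X) → ℝ := fun ω => (∑ p, f p ω) / Fintype.card P with hhd
  set G : Finset I → (I → X) → ℝ := fun S => comp blockAvg S hh with hG
  set 𝒮 : Finset (Finset I) := (Finset.univ : Finset (Finset I)).filter (fun S => S.card = k)
    with h𝒮
  set Q : Finset I → ℝ := fun S => ∑ ω, G S ω ^ 2 with hQ
  have hQ0 : ∀ S, 0 ≤ Q S := fun S => Finset.sum_nonneg (fun ω _ => sq_nonneg _)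
  have hGB : ∀ S B, B ∈ S → blockAvg B (G S) = 0 := by
    intro S B hB
    simp only [hG]
    rw [d4, if_pos hB]
  have hGinv : ∀ S B, B ∉ S → Inv B (G S) := by
    intro S B hB
    apply inv_of_blockAvg
    simp only [hG]
    rw [d4, if_neg hB]
  -- a function invariant at `B ∈ S` is orthogonal to `G S`
  have horth0 : ∀ (u : (I → X) → ℝ) (S : Finset I) (B : I), B ∈ S → Inv B u →
      ∑ ω, u ω * G S ω = 0 := by
    intro u S B hB hu
    have h1 := b3 B u (G S)
    rw [blockAvg_of_inv hu, hGB S B hB] at h1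
    rw [h1]
    simp
  -- indicator of `J = J0`
  set ind : P → Finset I → (I → X) → ℝ := fun p J0 ω => if J p ω = J0 then 1 else 0 with hind
  have hind_inv : ∀ p J0 B, B ∉ J0 → Inv B (ind p J0) := by
    intro p J0 B hB ω x
    simp only [hind]
    by_cases h1 : J p ω = J0
    · have h2 := (hJ p ω (Function.update ω B x) (by
        intro C hC
        rw [h1] at hC
        rw [Function.update_of_ne (ne_of_mem_of_not_mem hC hB)])).1
      rw [if_pos h1, if_pos (h2.trans h1)]
    · rw [if_neg h1, if_neg]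
      intro h3
      apply h1
      have h2 := (hJ p (Function.update ω B x) ω (by
        intro C hC
        rw [h3] at hC
        rw [Function.update_of_ne (ne_of_mem_of_not_mem hC hB)])).1
      exact h2.trans h3
  have hindf_inv : ∀ p J0 B, B ∉ J0 → Inv B (fun ω => ind p J0 ω * f p ω) := by
    intro p J0 B hB ω x
    beta_reduce
    rw [hind_inv p J0 B hB ω x]
    simp only [hind]
    by_cases h1 : J p ω = J0
    · rw [if_pos h1]
      have h2 := (hJ p ω (Function.update ω B x) (by
        intro C hC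
        rw [h1] at hC
        rw [Function.update_of_ne (ne_of_mem_of_not_mem hC hB)])).2
      rw [h2]
    · rw [if_neg h1, zero_mul, zero_mul]
  have hind_sum : ∀ p (F : (I → X) → ℝ), ∑ ω, F ω = ∑ J0, ∑ ω, ind p J0 ω * F ω := by
    intro p F
    rw [Finset.sum_comm]
    apply Finset.sum_congr rfl
    intro ω _
    simp only [hind, ite_mul, one_mul, zero_mul]
    rw [Finset.sum_ite_eq Finset.univ (J p ω) (fun _ => F ω), if_pos (Finset.mem_univ _)]
  -- (A)
  have hA : ∀ S, ∑ ω, G S ω * hh ω = Q S := by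
    intro S
    have h1 : ∀ ω, hh ω = ∑ S', G S' ω := by
      intro ω
      have := congrFun (d1 hh) ω
      rw [Finset.sum_apply] at this
      exact this.symm
    have h2 : ∑ ω, G S ω * hh ω = ∑ S', ∑ ω, G S ω * G S' ω := by
      rw [Finset.sum_comm]
      apply Finset.sum_congr rfl
      intro ω _
      rw [← Finset.mul_sum, ← h1 ω]
    rw [h2, Finset.sum_eq_single S]
    · simp only [hQ]
      apply Finset.sum_congr rfl
      intro ω _
      ring
    · intro S' _ hne
      exact d2 S S' hh hh (Ne.symm hne)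
    · intro h3; exact absurd (Finset.mem_univ S) h3
  set Yt : ℝ := ∑ S ∈ 𝒮, Q S with hYt
  have hYt0 : 0 ≤ Yt := Finset.sum_nonneg (fun S _ => hQ0 S)
  -- (C)
  set Tf : P → (I → X) → ℝ := fun p ω => ∑ S ∈ 𝒮, if S ⊆ J p ω then G S ω else 0 with hTf
  have hC : ∀ p, ∑ S ∈ 𝒮, ∑ ω, G S ω * f p ω = ∑ ω, Tf p ω * f p ω := by
    intro p
    have h1 : ∑ ω, Tf p ω * f p ω = ∑ S ∈ 𝒮, ∑ ω, (if S ⊆ J p ω then G S ω else 0) * f p ω := by
      rw [Finset.sum_comm]
      apply Finset.sum_congr rfl
      intro ω _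
      simp only [hTf]
      rw [Finset.sum_mul]
    rw [h1]
    apply Finset.sum_congr rfl
    intro S _
    rw [hind_sum p, hind_sum p (fun ω => (if S ⊆ J p ω then G S ω else 0) * f p ω)]
    apply Finset.sum_congr rfl
    intro J0 _
    by_cases hS : S ⊆ J0
    · apply Finset.sum_congr rfl
      intro ω _
      by_cases h2 : J p ω = J0
      · rw [if_pos (h2 ▸ hS)]
      · simp only [hind]
        rw [if_neg h2, zero_mul, zero_mul]
    · obtain ⟨B, hB, hB0⟩ := Finset.not_subset.1 hS
      have h2 := horth0 _ S B hB (hindf_inv p J0 B hB0)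
      have h3 : ∑ ω, ind p J0 ω * (G S ω * f p ω) = 0 := by
        rw [← h2]
        apply Finset.sum_congr rfl
        intro ω _
        ring
      rw [h3]
      symm
      apply Finset.sum_eq_zero
      intro ω _
      by_cases h4 : J p ω = J0
      · rw [if_neg (by rw [h4]; exact hS), zero_mul, mul_zero]
      · simp only [hind]
        rw [if_neg h4, zero_mul]
  -- weighted orthogonality
  have hW : ∀ p J0 S S' B, B ∉ J0 → B ∈ S → B ∉ S' →
      ∑ ω, ind p J0 ω * (G S ω * G S' ω) = 0 := by
    intro p J0 S S' B hB0 hB hB'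
    have h1 := horth0 _ S B hB ((hind_inv p J0 B hB0).mul (hGinv S' B hB'))
    rw [← h1]
    apply Finset.sum_congr rfl
    intro ω _
    ring
  have hW' : ∀ p J0 S S' B, B ∉ J0 → B ∈ S' → B ∉ S →
      ∑ ω, ind p J0 ω * (G S ω * G S' ω) = 0 := by
    intro p J0 S S' B hB0 hB hB'
    rw [← hW p J0 S' S B hB0 hB hB']
    apply Finset.sum_congr rfl
    intro ω _
    ring
  have hcross : ∀ p J0 (A B : Finset (Finset I)),
      (∀ S ∈ A, ∀ S' ∈ B, ∑ ω, ind p J0 ω * (G S ω * G S' ω) = 0) →
      ∑ ω, ind p J0 ω * ((∑ S ∈ A, G S ω) * ∑ S ∈ B, G S ω) = 0 := by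
    intro p J0 A B hAB
    have h1 : ∑ ω, ind p J0 ω * ((∑ S ∈ A, G S ω) * ∑ S ∈ B, G S ω) =
        ∑ S ∈ A, ∑ S' ∈ B, ∑ ω, ind p J0 ω * (G S ω * G S' ω) := by
      have h2 : ∀ ω, ind p J0 ω * ((∑ S ∈ A, G S ω) * ∑ S ∈ B, G S ω) =
          ∑ S ∈ A, ∑ S' ∈ B, ind p J0 ω * (G S ω * G S' ω) := by
        intro ω
        rw [Finset.sum_mul_sum, Finset.mul_sum]
        apply Finset.sum_congr rfl
        intro S _
        rw [Finset.mul_sum]
      rw [Finset.sum_congr rfl (fun ω _ => h2 ω), Finset.sum_comm]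
      apply Finset.sum_congr rfl
      intro S _
      rw [Finset.sum_comm]
    rw [h1]
    apply Finset.sum_eq_zero
    intro S hS
    apply Finset.sum_eq_zero
    intro S' hS'
    exact hAB S hS S' hS'
  -- the key inequality for one value of the stopping set
  have hkey : ∀ p J0, ∑ ω, ind p J0 ω * (∑ S ∈ 𝒮.filter (fun S => S ⊆ J0), G S ω) ^ 2 +
      ∑ S ∈ 𝒮.filter (fun S => Disjoint S J0), (∑ ω, ind p J0 ω) * Q S / N ≤
      ∑ ω, ind p J0 ω * (∑ S ∈ 𝒮, G S ω) ^ 2 := by
    intro p J0
    set A1 := 𝒮.filter (fun S => S ⊆ J0) with hA1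
    set A2 := 𝒮.filter (fun S => Disjoint S J0) with hA2
    set A3 := 𝒮.filter (fun S => ¬ S ⊆ J0 ∧ ¬ Disjoint S J0) with hA3
    have hmem𝒮 : ∀ S ∈ 𝒮, S.card = k := fun S hS => (Finset.mem_filter.1 hS).2
    have hne : ∀ S ∈ 𝒮, S.Nonempty := by
      intro S hS
      rw [← Finset.card_pos, hmem𝒮 S hS]
      exact hk
    have hsplit : ∀ ω, ∑ S ∈ 𝒮, G S ω = (∑ S ∈ A1, G S ω) + (∑ S ∈ A2, G S ω) +
        ∑ S ∈ A3, G S ω := by
      intro ω
      have h12 : Disjoint A1 A2 := by
        rw [Finset.disjoint_left]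
        intro S h1 h2
        obtain ⟨h1a, h1b⟩ := Finset.mem_filter.1 h1
        have h2b := (Finset.mem_filter.1 h2).2
        obtain ⟨B, hB⟩ := hne S h1a
        exact Finset.disjoint_left.1 h2b hB (h1b hB)
      have h123 : Disjoint (A1 ∪ A2) A3 := by
        rw [Finset.disjoint_left]
        intro S h1 h2
        obtain ⟨h2a, h2b, h2c⟩ := Finset.mem_filter.1 h2
        rcases Finset.mem_union.1 h1 with h1 | h1
        · exact h2b (Finset.mem_filter.1 h1).2
        · exact h2c (Finset.mem_filter.1 h1).2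
      have hun : 𝒮 = (A1 ∪ A2) ∪ A3 := by
        ext S
        simp only [hA1, hA2, hA3, Finset.mem_union, Finset.mem_filter]
        tauto
      conv_lhs => rw [hun]
      rw [Finset.sum_union h123, Finset.sum_union h12]
    have hc12 := hcross p J0 A1 A2 (by
      intro S hS S' hS'
      obtain ⟨h1a, h1b⟩ := Finset.mem_filter.1 hS
      obtain ⟨h2a, h2b⟩ := Finset.mem_filter.1 hS'
      obtain ⟨B, hB⟩ := hne S' h2a
      have hB0 : B ∉ J0 := Finset.disjoint_left.1 h2b hB
      exact hW' p J0 S S' B hB0 hB (fun h => hB0 (h1b h)))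
    have hc13 := hcross p J0 A1 A3 (by
      intro S hS S' hS'
      obtain ⟨h1a, h1b⟩ := Finset.mem_filter.1 hS
      obtain ⟨h2a, h2b, h2c⟩ := Finset.mem_filter.1 hS'
      obtain ⟨B, hB, hB0⟩ := Finset.not_subset.1 h2b
      exact hW' p J0 S S' B hB0 hB (fun h => hB0 (h1b h)))
    have hc23 := hcross p J0 A2 A3 (by
      intro S hS S' hS'
      obtain ⟨h1a, h1b⟩ := Finset.mem_filter.1 hS
      obtain ⟨h2a, h2b, h2c⟩ := Finset.mem_filter.1 hS'
      obtain ⟨C, hC, hC0⟩ := Finset.not_disjoint_iff.1 h2c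
      have hCS : C ∉ S := fun h => Finset.disjoint_left.1 h1b h hC0
      have hns : ¬ S ⊆ S' := by
        intro hs
        have := Finset.eq_of_subset_of_card_le hs (by rw [hmem𝒮 S h1a, hmem𝒮 S' h2a])
        rw [this] at hCS
        exact hCS hC
      obtain ⟨B, hB, hBS'⟩ := Finset.not_subset.1 hns
      exact hW p J0 S S' B (Finset.disjoint_left.1 h1b hB) hB hBS')
    have hexp : ∑ ω, ind p J0 ω * (∑ S ∈ 𝒮, G S ω) ^ 2 =
        ∑ ω, ind p J0 ω * (∑ S ∈ A1, G S ω) ^ 2 + ∑ ω, ind p J0 ω * (∑ S ∈ A2, G S ω) ^ 2 +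
        ∑ ω, ind p J0 ω * (∑ S ∈ A3, G S ω) ^ 2 := by
      have h1 : ∀ ω, ind p J0 ω * (∑ S ∈ 𝒮, G S ω) ^ 2 =
          ind p J0 ω * (∑ S ∈ A1, G S ω) ^ 2 + ind p J0 ω * (∑ S ∈ A2, G S ω) ^ 2 +
          ind p J0 ω * (∑ S ∈ A3, G S ω) ^ 2 +
          2 * (ind p J0 ω * ((∑ S ∈ A1, G S ω) * ∑ S ∈ A2, G S ω)) +
          2 * (ind p J0 ω * ((∑ S ∈ A1, G S ω) * ∑ S ∈ A3, G S ω)) +
          2 * (ind p J0 ω * ((∑ S ∈ A2, G S ω) * ∑ S ∈ A3, G S ω)) := by
        intro ω
        rw [hsplit ω]
        ring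
      rw [Finset.sum_congr rfl (fun ω _ => h1 ω)]
      simp only [Finset.sum_add_distrib, ← Finset.mul_sum]
      rw [hc12, hc13, hc23]
      ring
    have h3 : 0 ≤ ∑ ω, ind p J0 ω * (∑ S ∈ A3, G S ω) ^ 2 := by
      apply Finset.sum_nonneg
      intro ω _
      simp only [hind]
      split_ifs <;> positivity
    have h2 : ∑ ω, ind p J0 ω * (∑ S ∈ A2, G S ω) ^ 2 =
        ∑ S ∈ A2, (∑ ω, ind p J0 ω) * Q S / N := by
      have h4 : ∑ ω, ind p J0 ω * (∑ S ∈ A2, G S ω) ^ 2 =
          ∑ S ∈ A2, ∑ S' ∈ A2, ∑ ω, ind p J0 ω * (G S ω * G S' ω) := by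
        have h5 : ∀ ω, ind p J0 ω * (∑ S ∈ A2, G S ω) ^ 2 =
            ∑ S ∈ A2, ∑ S' ∈ A2, ind p J0 ω * (G S ω * G S' ω) := by
          intro ω
          rw [pow_two, Finset.sum_mul_sum, Finset.mul_sum]
          apply Finset.sum_congr rfl
          intro S _
          rw [Finset.mul_sum]
        rw [Finset.sum_congr rfl (fun ω _ => h5 ω), Finset.sum_comm]
        apply Finset.sum_congr rfl
        intro S _
        rw [Finset.sum_comm]
      rw [h4]
      apply Finset.sum_congr rfl
      intro S hS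
      obtain ⟨hS1, hS2⟩ := Finset.mem_filter.1 hS
      rw [Finset.sum_eq_single S]
      · have h6 := sum_mul_sum (U := J0) (a := ind p J0) (q := fun ω => G S ω ^ 2)
          (fun ω ω' hω => dep_of_inv (fun B hB => hind_inv p J0 B hB) hω)
          (fun ω ω' hω => by
            beta_reduce
            rw [dep_of_inv (U := S) (fun B hB => hGinv S B hB)
              (fun B hB => hω B (Finset.disjoint_left.1 hS2 hB))])
        have h7 : ∑ ω, ind p J0 ω * (G S ω * G S ω) = ∑ ω, ind p J0 ω * G S ω ^ 2 := by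
          apply Finset.sum_congr rfl
          intro ω _
          ring
        rw [h7, eq_div_iff hN0.ne', mul_comm]
        exact h6.symm
      · intro S' hS' hne'
        obtain ⟨hS1', hS2'⟩ := Finset.mem_filter.1 hS'
        have hns : ¬ S ⊆ S' := by
          intro hs
          have := Finset.eq_of_subset_of_card_le hs (by rw [hmem𝒮 S hS1, hmem𝒮 S' hS1'])
          exact hne' this.symm
        obtain ⟨B, hB, hBS'⟩ := Finset.not_subset.1 hns
        exact hW p J0 S S' B (Finset.disjoint_left.1 hS2 hB) hB hBS'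
      · intro h5; exact absurd hS h5
    rw [hexp, h2]
    linarith
  -- (D)
  have hD : ∀ p, ∑ ω, Tf p ω ^ 2 ≤
      ∑ S ∈ 𝒮, Q S * ∑ B ∈ S, E (fun ω => if B ∈ J p ω then (1 : ℝ) else 0) := by
    intro p
    have h1 : ∑ ω, Tf p ω ^ 2 = ∑ J0, ∑ ω, ind p J0 ω *
        (∑ S ∈ 𝒮.filter (fun S => S ⊆ J0), G S ω) ^ 2 := by
      rw [hind_sum p]
      apply Finset.sum_congr rfl
      intro J0 _
      apply Finset.sum_congr rfl
      intro ω _
      by_cases h2 : J p ω = J0
      · simp only [hTf]
        rw [h2, ← Finset.sum_filter]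
      · simp only [hind]
        rw [if_neg h2, zero_mul, zero_mul]
    have h2 : ∑ J0, ∑ ω, ind p J0 ω * (∑ S ∈ 𝒮, G S ω) ^ 2 = Yt := by
      rw [← hind_sum p (fun ω => (∑ S ∈ 𝒮, G S ω) ^ 2)]
      have h3 : ∑ ω, (∑ S ∈ 𝒮, G S ω) ^ 2 = ∑ S ∈ 𝒮, ∑ S' ∈ 𝒮, ∑ ω, G S ω * G S' ω := by
        have h5 : ∀ ω, (∑ S ∈ 𝒮, G S ω) ^ 2 = ∑ S ∈ 𝒮, ∑ S' ∈ 𝒮, G S ω * G S' ω := by
          intro ω
          rw [pow_two, Finset.sum_mul_sum]
        rw [Finset.sum_congr rfl (fun ω _ => h5 ω), Finset.sum_comm]
        apply Finset.sum_congr rfl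
        intro S _
        rw [Finset.sum_comm]
      rw [h3, hYt]
      apply Finset.sum_congr rfl
      intro S hS
      rw [Finset.sum_eq_single S]
      · simp only [hQ]
        apply Finset.sum_congr rfl
        intro ω _
        ring
      · intro S' _ hne
        exact d2 S S' hh hh (Ne.symm hne)
      · intro h4; exact absurd hS h4
    have h3 : ∑ J0, ∑ S ∈ 𝒮.filter (fun S => Disjoint S J0), (∑ ω, ind p J0 ω) * Q S / N =
        ∑ S ∈ 𝒮, Q S * E (fun ω => if Disjoint S (J p ω) then (1 : ℝ) else 0) := by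
      have h4 : ∀ J0 : Finset I, ∑ S ∈ 𝒮.filter (fun S => Disjoint S J0),
          (∑ ω, ind p J0 ω) * Q S / N = ∑ S ∈ 𝒮, Q S * (∑ ω, ind p J0 ω *
            (if Disjoint S (J p ω) then (1 : ℝ) else 0)) / N := by
        intro J0
        rw [Finset.sum_filter]
        apply Finset.sum_congr rfl
        intro S _
        by_cases h5 : Disjoint S J0
        · rw [if_pos h5, mul_comm (Q S)]
          congr 2
          apply Finset.sum_congr rfl
          intro ω _
          by_cases h6 : J p ω = J0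
          · rw [h6, if_pos h5, mul_one]
          · simp only [hind]
            rw [if_neg h6, zero_mul]
        · rw [if_neg h5]
          have h7 : ∑ ω, ind p J0 ω * (if Disjoint S (J p ω) then (1 : ℝ) else 0) = 0 := by
            apply Finset.sum_eq_zero
            intro ω _
            by_cases h6 : J p ω = J0
            · rw [h6, if_neg h5, mul_zero]
            · simp only [hind]
              rw [if_neg h6, zero_mul]
          rw [h7, mul_zero, zero_div]
      rw [Finset.sum_congr rfl (fun J0 _ => h4 J0), Finset.sum_comm]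
      apply Finset.sum_congr rfl
      intro S _
      unfold E
      rw [hind_sum p (fun ω => if Disjoint S (J p ω) then (1 : ℝ) else 0), ← Finset.sum_div,
        ← Finset.mul_sum, mul_div_assoc]
    have h4 := Finset.sum_le_sum (fun J0 (_ : J0 ∈ (Finset.univ : Finset (Finset I))) => hkey p J0)
    rw [Finset.sum_add_distrib, ← h1, h2, h3] at h4
    have h5 : ∀ S ∈ 𝒮, Q S * (1 - E (fun ω => if Disjoint S (J p ω) then (1 : ℝ) else 0)) ≤
        Q S * ∑ B ∈ S, E (fun ω => if B ∈ J p ω then (1 : ℝ) else 0) := by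
      intro S _
      apply mul_le_mul_of_nonneg_left _ (hQ0 S)
      have h6 : (1 : ℝ) - E (fun ω => if Disjoint S (J p ω) then (1 : ℝ) else 0) =
          (∑ ω : I → X, (1 - if Disjoint S (J p ω) then (1 : ℝ) else 0)) / N := by
        unfold E
        rw [Finset.sum_sub_distrib, Finset.sum_const, Finset.card_univ, nsmul_eq_mul, mul_one,
          ← hN, sub_div, div_self hN0.ne']
      have h6' : ∑ B ∈ S, E (fun ω => if B ∈ J p ω then (1 : ℝ) else 0) =
          (∑ ω : I → X, ∑ B ∈ S, if B ∈ J p ω then (1 : ℝ) else 0) / N := by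
        unfold E
        rw [← Finset.sum_div, Finset.sum_comm]
      rw [h6, h6']
      apply div_le_div_of_nonneg_right _ hN0.le
      apply Finset.sum_le_sum
      intro ω _
      by_cases h7 : Disjoint S (J p ω)
      · rw [if_pos h7, sub_self]
        apply Finset.sum_nonneg
        intro B _
        split_ifs <;> norm_num
      · rw [if_neg h7, sub_zero]
        obtain ⟨B, hB, hBJ⟩ := Finset.not_disjoint_iff.1 h7
        have h8 := Finset.single_le_sum (f := fun B => if B ∈ J p ω then (1 : ℝ) else 0)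
          (fun B _ => by beta_reduce; split_ifs <;> norm_num) hB
        beta_reduce at h8
        rwa [if_pos hBJ] at h8
    have h6 := Finset.sum_le_sum h5
    have h7 : ∑ S ∈ 𝒮, Q S * (1 - E (fun ω => if Disjoint S (J p ω) then (1 : ℝ) else 0)) =
        Yt - ∑ S ∈ 𝒮, Q S * E (fun ω => if Disjoint S (J p ω) then (1 : ℝ) else 0) := by
      rw [hYt, ← Finset.sum_sub_distrib]
      apply Finset.sum_congr rfl
      intro S _
      ring
    linarith
  -- (E)
  have hE : ∑ p, ∑ ω, Tf p ω ^ 2 ≤ k * δ * Fintype.card P * Yt := by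
    calc ∑ p, ∑ ω, Tf p ω ^ 2 ≤ ∑ p, ∑ S ∈ 𝒮, Q S *
          ∑ B ∈ S, E (fun ω => if B ∈ J p ω then (1 : ℝ) else 0) :=
          Finset.sum_le_sum (fun p _ => hD p)
      _ = ∑ S ∈ 𝒮, Q S * ∑ B ∈ S, ∑ p, E (fun ω => if B ∈ J p ω then (1 : ℝ) else 0) := by
          rw [Finset.sum_comm]
          apply Finset.sum_congr rfl
          intro S _
          rw [← Finset.mul_sum, Finset.sum_comm]
      _ ≤ ∑ S ∈ 𝒮, Q S * (k * (δ * Fintype.card P)) := by
          apply Finset.sum_le_sum
          intro S hS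
          apply mul_le_mul_of_nonneg_left _ (hQ0 S)
          have h1 : ∀ B ∈ S, ∑ p, E (fun ω => if B ∈ J p ω then (1 : ℝ) else 0) ≤
              δ * Fintype.card P := by
            intro B _
            have := hδ1 B
            rwa [div_le_iff₀ hP0] at this
          refine (Finset.sum_le_card_nsmul _ _ _ h1).trans (le_of_eq ?_)
          rw [(Finset.mem_filter.1 hS).2, nsmul_eq_mul]
      _ = k * δ * Fintype.card P * Yt := by
          rw [← Finset.sum_mul, hYt]
          ring
  -- (F)
  have hF1 : (Fintype.card P : ℝ) * Yt = ∑ p, ∑ ω, Tf p ω * f p ω := by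
    rw [Finset.sum_congr rfl (fun p _ => (hC p).symm), Finset.sum_comm, hYt, Finset.mul_sum]
    apply Finset.sum_congr rfl
    intro S _
    rw [← hA S, Finset.mul_sum, Finset.sum_comm]
    apply Finset.sum_congr rfl
    intro ω _
    rw [← Finset.mul_sum]
    simp only [hhd]
    field_simp
  have hf2 : ∑ p, ∑ ω, f p ω ^ 2 ≤ N * (Fintype.card P * M) := by
    have h1 : ∑ p, ∑ ω, f p ω ^ 2 = N * ∑ p, sq (f p) := by
      rw [Finset.mul_sum]
      apply Finset.sum_congr rfl
      intro p _
      unfold sq E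
      rw [← hN]
      field_simp
    rw [h1]
    apply mul_le_mul_of_nonneg_left _ hN0.le
    have := hM
    rw [div_le_iff₀ hP0] at this
    linarith
  have hM0 : 0 ≤ M := by
    refine le_trans (div_nonneg (Finset.sum_nonneg (fun p _ => ?_)) hP0.le) hM
    unfold sq E
    exact div_nonneg (Finset.sum_nonneg (fun ω _ => sq_nonneg _)) (by positivity)
  have hCS : (∑ p, ∑ ω, Tf p ω * f p ω) ^ 2 ≤ (∑ p, ∑ ω, Tf p ω ^ 2) * ∑ p, ∑ ω, f p ω ^ 2 := by
    have h1 := Finset.sum_mul_sq_le_sq_mul_sq (Finset.univ : Finset (P × (I → X)))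
      (fun z => Tf z.1 z.2) (fun z => f z.1 z.2)
    rw [Fintype.sum_prod_type, Fintype.sum_prod_type, Fintype.sum_prod_type] at h1
    exact h1
  have hfin : Yt ≤ k * δ * M * N := by
    rcases hYt0.eq_or_lt with h0 | h0
    · rw [← h0]
      positivity
    · rw [← hF1] at hCS
      have h1 : ((Fintype.card P : ℝ) * Yt) ^ 2 ≤
          (k * δ * Fintype.card P * Yt) * (N * (Fintype.card P * M)) := by
        refine hCS.trans ?_
        apply mul_le_mul hE hf2
        · exact Finset.sum_nonneg (fun p _ => Finset.sum_nonneg (fun ω _ => sq_nonneg _))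
        · positivity
      have h2 : ((Fintype.card P : ℝ) ^ 2 * Yt) * Yt ≤
          ((Fintype.card P : ℝ) ^ 2 * Yt) * (k * δ * M * N) := by
        calc ((Fintype.card P : ℝ) ^ 2 * Yt) * Yt = ((Fintype.card P : ℝ) * Yt) ^ 2 := by ring
          _ ≤ (k * δ * Fintype.card P * Yt) * (N * (Fintype.card P * M)) := h1
          _ = _ := by ring
      exact le_of_mul_le_mul_left h2 (by positivity)
  have hlast : ∑ S ∈ 𝒮, sq (comp blockAvg S hh) = Yt / N := by
    rw [hYt, Finset.sum_div]
    rfl
  rw [hlast, div_le_iff₀ hN0]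
  exact hfin

end TriX.Noise
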