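import Pool.Agent.EX.Noise

/-! Project EX, module N5: the differential inequality. -/

set_option autoImplicit false

namespace TriX.Noise

theorem n5_alg {Y D a b : ℝ} (ha : 0 < a) (hb : 1 ≤ b) (hY : 2 * a * b < Y)
    (h : ∀ K : ℕ, 1 ≤ K → Y ≤ (K : ℝ) ^ 2 * a + b / K * D) :
    Real.sqrt Y ^ 3 ≤ 5 * Real.sqrt 5 * Real.sqrt a * b * D := by
  have hb0 : 0 < b := by linarith
  have hY0 : 0 < Y := lt_trans (by positivity) hY
  have h1 := h 1 le_rfl
  have hD : a ≤ b * D := by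
    simp only [Nat.cast_one, one_pow, one_mul, div_one] at h1
    nlinarith
  set z : ℝ := (b * D / a) ^ (1 / 3 : ℝ) with hz
  have hq : 1 ≤ b * D / a := by rw [le_div_iff₀ ha]; linarith
  have hz1 : 1 ≤ z := Real.one_le_rpow hq (by norm_num)
  have hz3 : z ^ 3 = b * D / a := by
    rw [hz, ← Real.rpow_natCast, ← Real.rpow_mul (by linarith)]
    norm_num
  have hz3' : a * z ^ 3 = b * D := by rw [hz3]; field_simp
  have hz0 : 0 < z := by linarith
  set K : ℕ := ⌈z⌉₊ with hK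
  have hK1 : z ≤ K := Nat.le_ceil z
  have hK2 : (K : ℝ) ≤ 2 * z := by
    have := Nat.ceil_lt_add_one hz0.le
    linarith
  have hK0 : 1 ≤ K := by
    have : (1 : ℝ) ≤ K := le_trans hz1 hK1
    exact_mod_cast this
  have hKp : (0 : ℝ) < K := by exact_mod_cast hK0
  have h2 : Y ≤ 5 * z ^ 2 * a := by
    have h3 := h K hK0
    have h4 : (K : ℝ) ^ 2 * a ≤ 4 * z ^ 2 * a := by
      have : (K : ℝ) ^ 2 ≤ (2 * z) ^ 2 := by gcongr
      nlinarith
    have h5 : b / K * D ≤ z ^ 2 * a := by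
      rw [div_mul_eq_mul_div, div_le_iff₀ hKp, ← hz3']
      have : a * z ^ 2 * z ≤ a * z ^ 2 * K := by gcongr
      nlinarith
    linarith
  have h6 : Real.sqrt Y ≤ Real.sqrt 5 * z * Real.sqrt a := by
    have h7 : Real.sqrt 5 * z * Real.sqrt a = Real.sqrt (5 * z ^ 2 * a) := by
      rw [Real.sqrt_mul (by positivity), Real.sqrt_mul (by norm_num), Real.sqrt_sq hz0.le]
    rw [h7]
    exact Real.sqrt_le_sqrt h2
  have h8 : Real.sqrt Y ^ 3 ≤ (Real.sqrt 5 * z * Real.sqrt a) ^ 3 := by gcongr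
  refine h8.trans (le_of_eq ?_)
  have h5' : Real.sqrt 5 ^ 2 = 5 := Real.sq_sqrt (by norm_num)
  have ha' : Real.sqrt a ^ 2 = a := Real.sq_sqrt ha.le
  calc (Real.sqrt 5 * z * Real.sqrt a) ^ 3
      = Real.sqrt 5 ^ 2 * Real.sqrt 5 * Real.sqrt a * (Real.sqrt a ^ 2 * z ^ 3) := by ring
    _ = 5 * Real.sqrt 5 * Real.sqrt a * (a * z ^ 3) := by rw [h5', ha']
    _ = 5 * Real.sqrt 5 * Real.sqrt a * b * D := by rw [hz3']; ring

theorem n5 : S_N5 := by
  refine ⟨500, by norm_num, fun y a b ha hb hmono hK t ht0 ht1 => ?_⟩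
  have hb0 : 0 < b := by linarith
  set u0 : ℝ := 1 - t with hu0
  have hu00 : 0 ≤ u0 := by rw [hu0]; linarith
  have hu01 : u0 < 1 := by rw [hu0]; linarith
  have ht2 : t ^ 2 ≤ 1 := by nlinarith
  by_cases hc : y.eval u0 ≤ 2 * a * b
  · refine hc.trans ?_
    rw [le_div_iff₀ (by positivity)]
    have h1 : 2 * a * b * t ^ 2 ≤ 2 * a * b * 1 := by gcongr
    have h2 : 2 * a * b * 1 ≤ 500 * b ^ 2 * a := by
      have : b ≤ b ^ 2 := by nlinarith
      have h3 : a * b ≤ a * b ^ 2 := by gcongr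
      nlinarith [mul_pos ha hb0]
    linarith
  push Not at hc
  have hder : ∀ u : ℝ, HasDerivAt (fun u => y.eval u) (y.derivative.eval u) u :=
    fun u => y.hasDerivAt u
  have hcont : Continuous fun u => y.eval u := y.continuous
  have hmon : MonotoneOn (fun u => y.eval u) (Set.Icc 0 1) := by
    apply monotoneOn_of_deriv_nonneg (convex_Icc 0 1) hcont.continuousOn
    · intro u _
      exact (hder u).differentiableAt.differentiableWithinAt
    · intro u hu
      rw [interior_Icc] at hu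
      rw [(hder u).deriv]
      exact hmono u hu.1.le hu.2.le
  have hlow : ∀ u ∈ Set.Icc u0 1, 2 * a * b < y.eval u := fun u hu =>
    lt_of_lt_of_le hc (hmon ⟨hu00, hu01.le⟩ ⟨hu00.trans hu.1, hu.2⟩ hu.1)
  have hpos : ∀ u ∈ Set.Icc u0 1, 0 < y.eval u := fun u hu =>
    lt_trans (by positivity) (hlow u hu)
  set κ : ℝ := 1 / (2 * (5 * Real.sqrt 5 * Real.sqrt a * b)) with hκ
  have hsa : 0 < Real.sqrt a := Real.sqrt_pos.2 ha
  have hs5 : 0 < Real.sqrt 5 := Real.sqrt_pos.2 (by norm_num)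
  have hκ0 : 0 < κ := by positivity
  have hF : AntitoneOn (fun u => (Real.sqrt (y.eval u))⁻¹ + κ * u) (Set.Icc u0 1) := by
    have hd : ∀ u ∈ Set.Icc u0 1, HasDerivAt (fun u => (Real.sqrt (y.eval u))⁻¹ + κ * u)
        (-(y.derivative.eval u / (2 * Real.sqrt (y.eval u))) / Real.sqrt (y.eval u) ^ 2 + κ * 1)
        u := by
      intro u hu
      have h1 := (hder u).sqrt (hpos u hu).ne'
      have h2 := h1.inv (Real.sqrt_pos.2 (hpos u hu)).ne'
      exact h2.add ((hasDerivAt_id u).const_mul κ)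
    apply antitoneOn_of_deriv_nonpos (convex_Icc u0 1)
    · intro u hu
      exact (hd u hu).continuousAt.continuousWithinAt
    · intro u hu
      exact (hd u (interior_subset hu)).differentiableAt.differentiableWithinAt
    · intro u hu
      rw [(hd u (interior_subset hu)).deriv]
      rw [interior_Icc] at hu
      have hu' : u ∈ Set.Icc u0 1 := ⟨hu.1.le, hu.2.le⟩
      have h1 := n5_alg ha hb (hlow u hu') (fun K hK1 =>
        hK u (lt_of_le_of_lt hu00 hu.1) hu.2 K hK1)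
      set s := Real.sqrt (y.eval u) with hs
      have hs0 : 0 < s := Real.sqrt_pos.2 (hpos u hu')
      have h2 : κ ≤ y.derivative.eval u / (2 * s) / s ^ 2 := by
        rw [hκ, div_div, div_le_div_iff₀ (by positivity) (by positivity)]
        nlinarith
      rw [neg_div, mul_one]
      linarith
  have h1 := hF ⟨le_rfl, hu01.le⟩ ⟨hu01.le, le_rfl⟩ hu01.le
  have hs0 : 0 < Real.sqrt (y.eval u0) := Real.sqrt_pos.2 (hpos u0 ⟨le_rfl, hu01.le⟩)
  have hs1 : 0 < Real.sqrt (y.eval 1) := Real.sqrt_pos.2 (hpos 1 ⟨hu01.le, le_rfl⟩)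
  have h2 : κ * t ≤ (Real.sqrt (y.eval u0))⁻¹ := by
    have h3 : 0 < (Real.sqrt (y.eval 1))⁻¹ := inv_pos.2 hs1
    have h4 : (Real.sqrt (y.eval 1))⁻¹ + κ * 1 ≤ (Real.sqrt (y.eval u0))⁻¹ + κ * u0 := h1
    have h5 : κ * t = κ * 1 - κ * u0 := by rw [hu0]; ring
    linarith
  have h3 : Real.sqrt (y.eval u0) * (κ * t) ≤ 1 := by
    have := mul_le_mul_of_nonneg_left h2 hs0.le
    rwa [mul_inv_cancel₀ hs0.ne'] at this
  have h4 : Real.sqrt (y.eval u0) ≤ 2 * (5 * Real.sqrt 5 * Real.sqrt a * b) / t := by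
    rw [le_div_iff₀ ht0]
    rw [hκ] at h3
    have h5 : Real.sqrt (y.eval u0) * t =
        Real.sqrt (y.eval u0) * (1 / (2 * (5 * Real.sqrt 5 * Real.sqrt a * b)) * t) *
          (2 * (5 * Real.sqrt 5 * Real.sqrt a * b)) := by field_simp
    rw [h5]
    calc _ ≤ 1 * (2 * (5 * Real.sqrt 5 * Real.sqrt a * b)) := by gcongr
      _ = _ := one_mul _
  have h5 : y.eval u0 = Real.sqrt (y.eval u0) ^ 2 :=
    (Real.sq_sqrt (hpos u0 ⟨le_rfl, hu01.le⟩).le).symm
  rw [h5]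
  calc Real.sqrt (y.eval u0) ^ 2 ≤ (2 * (5 * Real.sqrt 5 * Real.sqrt a * b) / t) ^ 2 := by gcongr
    _ = 100 * Real.sqrt 5 ^ 2 * Real.sqrt a ^ 2 * b ^ 2 / t ^ 2 := by ring
    _ = 500 * b ^ 2 * a / t ^ 2 := by
      rw [Real.sq_sqrt (by norm_num : (0:ℝ) ≤ 5), Real.sq_sqrt ha.le]; ring

end TriX.Noise
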