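import Pool.Agent.EX.Noise

/-! Assembly of the noise theorem (project EX, module N6). -/

namespace TriX.Noise

open Finset

section Decomp

variable {Ω J : Type} [Fintype Ω] [Fintype J] [DecidableEq J]

/-- the sum of squares -/
def ss (f : Ω → ℝ) : ℝ := ∑ ω, f ω ^ 2

theorem ss_nonneg (f : Ω → ℝ) : 0 ≤ ss f := Finset.sum_nonneg fun ω _ => sq_nonneg _

/-- Pythagoras for the components indexed by a family of sets -/
theorem ss_sum (p : J → Module.End ℝ (Ω → ℝ))
    (horth : ∀ S S' f g, S ≠ S' → ∑ ω, comp p S f ω * comp p S' g ω = 0) (𝒮 : Finset (Finset J))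
    (f : Ω → ℝ) : ss (∑ S ∈ 𝒮, comp p S f) = ∑ S ∈ 𝒮, ss (comp p S f) := by
  have h1 : ∀ ω, (∑ S ∈ 𝒮, comp p S f) ω ^ 2 = ∑ S ∈ 𝒮, ∑ S' ∈ 𝒮, comp p S f ω * comp p S' f ω := by
    intro ω
    rw [Finset.sum_apply, pow_two, Finset.sum_mul_sum]
  unfold ss
  rw [Finset.sum_congr rfl fun ω _ => h1 ω, Finset.sum_comm]
  refine Finset.sum_congr rfl fun S hS => ?_
  rw [Finset.sum_comm, Finset.sum_eq_single S]
  · exact Finset.sum_congr rfl fun ω _ => (pow_two _).symm
  · intro S' _ hne
    exact horth S S' f f (Ne.symm hne)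
  · intro h; exact absurd hS h

theorem ss_eq (p : J → Module.End ℝ (Ω → ℝ)) (hsum : ∀ f, ∑ S, comp p S f = f)
    (horth : ∀ S S' f g, S ≠ S' → ∑ ω, comp p S f ω * comp p S' g ω = 0)
    (f : Ω → ℝ) : ss f = ∑ S, ss (comp p S f) := by
  conv_lhs => rw [← hsum f]
  exact ss_sum p horth _ f

/-- components of nonempty sets have mean zero -/
theorem sum_comp (p : J → Module.End ℝ (Ω → ℝ))
    (hsym : ∀ B f g, ∑ ω, p B f ω * g ω = ∑ ω, f ω * p B g ω)
    (hpc : ∀ S B f, p B (comp p S f) = if B ∈ S then 0 else comp p S f)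
    (h1 : ∀ B, p B (fun _ => 1) = fun _ => 1) (S : Finset J) (hS : S ≠ ∅) (f : Ω → ℝ) :
    ∑ ω, comp p S f ω = 0 := by
  obtain ⟨B, hB⟩ := Finset.nonempty_iff_ne_empty.mpr hS
  have h := hsym B (comp p S f) (fun _ => 1)
  rw [hpc S B f, if_pos hB, h1] at h
  simpa using h.symm

theorem sum_comp_empty (p : J → Module.End ℝ (Ω → ℝ)) (hsum : ∀ f, ∑ S, comp p S f = f)
    (hsym : ∀ B f g, ∑ ω, p B f ω * g ω = ∑ ω, f ω * p B g ω)
    (hpc : ∀ S B f, p B (comp p S f) = if B ∈ S then 0 else comp p S f)
    (h1 : ∀ B, p B (fun _ => 1) = fun _ => 1) (f : Ω → ℝ) :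
    ∑ ω, comp p ∅ f ω = ∑ ω, f ω := by
  have h : ∑ ω, f ω = ∑ ω, ∑ S, comp p S f ω := by
    refine Finset.sum_congr rfl fun ω _ => ?_
    conv_lhs => rw [← hsum f]
    rw [Finset.sum_apply]
  rw [h, Finset.sum_comm, Finset.sum_eq_single (∅ : Finset J)]
  · intro S _ hS
    exact sum_comp p hsym hpc h1 S hS f
  · intro h; exact absurd (Finset.mem_univ _) h

/-- the Efron-Stein identity -/
theorem efron (p : J → Module.End ℝ (Ω → ℝ)) (hsum : ∀ f, ∑ S, comp p S f = f)
    (horth : ∀ S S' f g, S ≠ S' → ∑ ω, comp p S f ω * comp p S' g ω = 0)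
    (hpc : ∀ S B f, p B (comp p S f) = if B ∈ S then 0 else comp p S f) (f : Ω → ℝ) :
    ∑ B, ss (f - p B f) = ∑ S : Finset J, (S.card : ℝ) * ss (comp p S f) := by
  have h1 : ∀ B, f - p B f = ∑ S ∈ Finset.univ.filter (fun S => B ∈ S), comp p S f := by
    intro B
    have h2 : p B f = ∑ S, (if B ∈ S then 0 else comp p S f) := by
      conv_lhs => rw [← hsum f]
      rw [map_sum]
      exact Finset.sum_congr rfl fun S _ => hpc S B f
    rw [h2]
    conv_lhs => rw [← hsum f]
    rw [← Finset.sum_sub_distrib, Finset.sum_filter]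
    refine Finset.sum_congr rfl fun S _ => ?_
    rw [hsum f]
    split <;> simp
  have h3 : ∀ B, ss (f - p B f) = ∑ S : Finset J, if B ∈ S then ss (comp p S f) else 0 := by
    intro B
    rw [h1, ss_sum p horth, Finset.sum_filter]
  rw [Finset.sum_congr rfl fun B _ => h3 B, Finset.sum_comm]
  refine Finset.sum_congr rfl fun S _ => ?_
  rw [Finset.sum_ite_mem, Finset.univ_inter, Finset.sum_const, nsmul_eq_mul]

end Decomp

section Blocks

variable {I X : Type} [Fintype I] [DecidableEq I] [Fintype X] [Nonempty X]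

theorem card_pos' : (0 : ℝ) < (Fintype.card (I → X) : ℝ) := by
  exact_mod_cast Fintype.card_pos

theorem sq_ss (f : (I → X) → ℝ) : sq f = ss f / (Fintype.card (I → X) : ℝ) := rfl

theorem blockAvg_one (B : I) : blockAvg B (fun _ : I → X => (1 : ℝ)) = fun _ => 1 := by
  funext ω
  change (∑ _x : X, (1 : ℝ)) / (Fintype.card X : ℝ) = 1
  rw [Finset.sum_const, nsmul_eq_mul, mul_one, Finset.card_univ, div_self]
  exact_mod_cast Fintype.card_ne_zero

theorem coinAvg_one (ι : X → X) (B : I) : coinAvg ι B (fun _ : I → X => (1 : ℝ)) = fun _ => 1 := by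
  funext ω
  change ((1 : ℝ) + 1) / 2 = 1
  norm_num

/-- a function fixed by all block averages is constant -/
theorem const_of_fixed (F : (I → X) → ℝ) (h : ∀ B, blockAvg B F = F) (ω ω' : I → X) : F ω = F ω' := by
  have h1 : ∀ B ω x, F (Function.update ω B x) = F ω := by
    intro B ω x
    have e1 := congrFun (h B) (Function.update ω B x)
    have e2 := congrFun (h B) ω
    change (∑ y : X, F (Function.update (Function.update ω B x) B y)) / (Fintype.card X : ℝ) = _ at e1
    change (∑ y : X, F (Function.update ω B y)) / (Fintype.card X : ℝ) = _ at e2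
    simp only [Function.update_idem] at e1
    rw [← e1, e2]
  have h2 : ∀ S : Finset I, F (fun B => if B ∈ S then ω' B else ω B) = F ω := by
    intro S
    induction S using Finset.induction_on with
    | empty => simp
    | insert B S hB ih =>
      rw [← ih, ← h1 B (fun B => if B ∈ S then ω' B else ω B) (ω' B)]
      congr 1
      funext C
      by_cases hC : C = B
      · subst hC; simp
      · rw [Function.update_of_ne hC]; simp [hC]
  have h3 := h2 Finset.univ
  simp only [Finset.mem_univ, if_true] at h3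
  exact h3.symm

theorem E_const (c : ℝ) : E (fun _ : I → X => c) = c := by
  rw [E, Finset.sum_const, nsmul_eq_mul, Finset.card_univ, mul_comm, mul_div_assoc, div_self, mul_one]
  exact card_pos'.ne'

end Blocks

/-- N6: the noise theorem -/
theorem n6 (hN1 : S_N1) (hN1b : S_N1b) (hN2 : S_N2) (hN3 : S_N3) (hN4 : S_N4) (hN5 : S_N5) :
    S_noise := by
  obtain ⟨C5, hC5, H5⟩ := hN5
  refine ⟨fun K => C5 * (max 1 ((2 * K) ^ 2)) ^ 2, fun K => by positivity, ?_⟩
  intro I X P _ _ _ _ _ _ c K f J δ M hK hδ hM hGood hstop hrev hM' t ht ht1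
  set h : (I → X) → ℝ := fun ω => (∑ p, f p ω) / Fintype.card P with hh
  obtain ⟨cc1, cc2, cc3, cb1, cb2, cb3, cbc⟩ := hN1b I X c.ι c.invol
  obtain ⟨cS1, cS2, -, cS4, cS5⟩ := hN1 (I → X) I (coinAvg c.ι) cc1 cc2 cc3
  obtain ⟨bS1, bS2, -, bS4, bS5⟩ := hN1 (I → X) I blockAvg cb1 cb2 cb3
  have hcard : (0 : ℝ) < (Fintype.card (I → X) : ℝ) := card_pos'
  have hP : (0 : ℝ) < (Fintype.card P : ℝ) := by exact_mod_cast Fintype.card_pos
  -- h is good
  have hgood : Good c K h := by
    constructor
    · intro ω B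
      have e : c.χ (ω B) * (h ω - h (flipS c.ι {B} ω)) =
          (∑ p, c.χ (ω B) * (f p ω - f p (flipS c.ι {B} ω))) / Fintype.card P := by
        rw [← Finset.mul_sum, Finset.sum_sub_distrib, hh]
        simp only
        ring
      rw [e]
      exact div_nonneg (Finset.sum_nonneg fun p _ => (hGood p).1 ω B) hP.le
    · intro ω B x y
      have e1 : h (Function.update ω B x) - h (Function.update ω B y) =
          (∑ p, (f p (Function.update ω B x) - f p (Function.update ω B y))) / Fintype.card P := by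
        rw [Finset.sum_sub_distrib, sub_div]
      have e2 : K * ∑ z : X, c.χ z * (h (Function.update ω B z) -
          h (flipS c.ι {B} (Function.update ω B z))) =
          (∑ p, K * ∑ z : X, c.χ z * (f p (Function.update ω B z) -
            f p (flipS c.ι {B} (Function.update ω B z)))) / Fintype.card P := by
        rw [← Finset.mul_sum, Finset.sum_comm, mul_div_assoc, Finset.sum_div]
        congr 1
        refine Finset.sum_congr rfl fun z _ => ?_
        rw [← Finset.mul_sum, Finset.sum_sub_distrib, mul_div_assoc, sub_div]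
      rw [e1, e2]
      exact div_le_div_of_nonneg_right (Finset.sum_le_sum fun p _ => (hGood p).2 ω B x y) hP.le
  -- the polynomial
  set a : Finset I → ℝ := fun S => sq (comp (coinAvg c.ι) S h) with ha
  have ha0 : ∀ S, 0 ≤ a S := fun S => by
    rw [ha]; simp only; rw [sq_ss]; exact div_nonneg (ss_nonneg _) hcard.le
  set y : Polynomial ℝ := (∑ S : Finset I, Polynomial.C (a S) * Polynomial.X ^ S.card) -
    Polynomial.C (E h ^ 2) with hy
  have hyev : ∀ u : ℝ, y.eval u = (∑ S : Finset I, u ^ S.card * a S) - E h ^ 2 := by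
    intro u
    rw [hy, Polynomial.eval_sub, Polynomial.eval_finsetSum, Polynomial.eval_C]
    congr 1
    refine Finset.sum_congr rfl fun S _ => ?_
    rw [Polynomial.eval_mul, Polynomial.eval_C, Polynomial.eval_pow, Polynomial.eval_X, mul_comm]
  have hyd : ∀ u : ℝ, y.derivative.eval u = ∑ S : Finset I, (S.card : ℝ) * u ^ (S.card - 1) * a S := by
    intro u
    rw [hy, Polynomial.derivative_sub, Polynomial.derivative_C, sub_zero, Polynomial.derivative_sum,
      Polynomial.eval_finsetSum]
    refine Finset.sum_congr rfl fun S _ => ?_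
    rw [Polynomial.derivative_C_mul, Polynomial.derivative_X_pow]
    simp
    ring
  -- the noise operator as an endomorphism
  have hTcomm : ∀ (w : ℝ) (S : Finset I) (g : (I → X) → ℝ),
      comp blockAvg S (T c.ι w g) = T c.ι w (comp blockAvg S g) := by
    intro w S g
    set A : Module.End ℝ ((I → X) → ℝ) := ∑ U : Finset I, w ^ U.card • comp (coinAvg c.ι) U with hA
    have hAT : ∀ g, A g = T c.ι w g := by
      intro g
      rw [(hN2 I X c.ι c.invol w g).1, hA, LinearMap.sum_apply]
      rfl
    have hAc : ∀ B g, A (blockAvg B g) = blockAvg B (A g) := by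
      intro B g
      rw [hA, LinearMap.sum_apply, LinearMap.sum_apply, map_sum]
      refine Finset.sum_congr rfl fun U _ => ?_
      rw [LinearMap.smul_apply, LinearMap.smul_apply, map_smul]
      congr 1
      exact (cS5 (blockAvg B) (fun B' f => (cbc B' B f).symm) U g).symm
    have := bS5 A hAc S g
    rw [hAT, hAT] at this
    exact this.symm
  -- contraction
  have hTle : ∀ (w : ℝ), 0 ≤ w → w ≤ 1 → ∀ g : (I → X) → ℝ, sq (T c.ι w g) ≤ sq g := by
    intro w hw0 hw1 g
    rw [(hN2 I X c.ι c.invol w g).2.2]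
    have h1 : sq g = ∑ S : Finset I, sq (comp (coinAvg c.ι) S g) := by
      rw [sq_ss, ss_eq (coinAvg c.ι) cS1 cS2 g, Finset.sum_div]
      rfl
    rw [h1]
    refine Finset.sum_le_sum fun S _ => ?_
    have h2 : 0 ≤ sq (comp (coinAvg c.ι) S g) := by rw [sq_ss]; exact div_nonneg (ss_nonneg _) hcard.le
    have h3 : (w ^ 2) ^ S.card ≤ 1 := pow_le_one₀ (sq_nonneg w) (pow_le_one₀ hw0 hw1)
    nlinarith
  -- mean of T w h
  have hET : ∀ w : ℝ, ∑ ω, T c.ι w h ω = ∑ ω, h ω := by
    intro w
    have h1 : ∀ ω, T c.ι w h ω = ∑ S : Finset I, w ^ S.card * comp (coinAvg c.ι) S h ω := by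
      intro ω
      rw [(hN2 I X c.ι c.invol w h).1, Finset.sum_apply]
      rfl
    rw [Finset.sum_congr rfl fun ω _ => h1 ω, Finset.sum_comm, Finset.sum_eq_single (∅ : Finset I)]
    · rw [← Finset.mul_sum, Finset.card_empty, pow_zero, one_mul]
      exact sum_comp_empty (coinAvg c.ι) cS1 cc3 cS4 (coinAvg_one c.ι) h
    · intro S _ hS
      rw [← Finset.mul_sum, sum_comp (coinAvg c.ι) cc3 cS4 (coinAvg_one c.ι) S hS h, mul_zero]
    · intro hne; exact absurd (Finset.mem_univ _) hne
  -- the main inequality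
  have hmain : ∀ u : ℝ, 0 < u → u < 1 → ∀ k : ℕ, 1 ≤ k →
      y.eval u ≤ (k : ℝ) ^ 2 * (δ * M) + max 1 ((2 * (K * Fintype.card X)) ^ 2) / k * y.derivative.eval u := by
    intro u hu0 hu1 k hk
    set w := Real.sqrt u with hw
    have hw0 : 0 ≤ w := Real.sqrt_nonneg u
    have hw2 : w ^ 2 = u := Real.sq_sqrt hu0.le
    have hw1 : w ≤ 1 := by
      rw [hw]; exact Real.sqrt_le_one.mpr hu1.le |>.trans le_rfl
    set g := T c.ι w h with hg
    have hΦ : ∑ S : Finset I, u ^ S.card * a S = sq g := by
      rw [hg, (hN2 I X c.ι c.invol w h).2.2, hw2]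
    have hbnn : ∀ (S : Finset I) (g : (I → X) → ℝ), 0 ≤ sq (comp blockAvg S g) := fun S g => by
      rw [sq_ss]; exact div_nonneg (ss_nonneg _) hcard.le
    have hdec : sq g = ∑ S : Finset I, sq (comp blockAvg S g) := by
      rw [sq_ss, ss_eq blockAvg bS1 bS2 g, Finset.sum_div]
      rfl
    -- empty component
    have hemp : sq (comp blockAvg ∅ g) = E h ^ 2 := by
      have hfix : ∀ B, blockAvg B (comp blockAvg ∅ g) = comp blockAvg ∅ g := by
        intro B
        rw [bS4 ∅ B g, if_neg (Finset.notMem_empty B)]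
      obtain ⟨ω0⟩ : Nonempty (I → X) := inferInstance
      have hc : comp blockAvg ∅ g = fun _ => comp blockAvg ∅ g ω0 := by
        funext ω
        exact const_of_fixed _ hfix ω ω0
      have hs : ∑ ω, comp blockAvg ∅ g ω = ∑ ω, h ω := by
        rw [sum_comp_empty blockAvg bS1 cb3 bS4 blockAvg_one g, hg, hET]
      have he : comp blockAvg ∅ g ω0 = E h := by
        have : E (comp blockAvg ∅ g) = E h := by rw [E, E, hs]
        rw [← this, hc, E_const]
      rw [hc, he, sq, E_const]
    -- large levels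
    have hlarge : ∑ S ∈ Finset.univ.filter (fun S : Finset I => k ≤ S.card), sq (comp blockAvg S g) ≤
        (2 * K * Fintype.card X) ^ 2 / k * y.derivative.eval u := by
      have hk0 : (0 : ℝ) < k := by exact_mod_cast hk
      have h1 : (k : ℝ) * ∑ S ∈ Finset.univ.filter (fun S : Finset I => k ≤ S.card), sq (comp blockAvg S g) ≤
          ∑ S : Finset I, (S.card : ℝ) * sq (comp blockAvg S g) := by
        rw [Finset.mul_sum]
        calc _ ≤ ∑ S ∈ Finset.univ.filter (fun S : Finset I => k ≤ S.card),
              (S.card : ℝ) * sq (comp blockAvg S g) := by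
              refine Finset.sum_le_sum fun S hS => ?_
              have : (k : ℝ) ≤ S.card := by exact_mod_cast (Finset.mem_filter.mp hS).2
              exact mul_le_mul_of_nonneg_right this (hbnn S g)
          _ ≤ _ := Finset.sum_le_sum_of_subset_of_nonneg (Finset.filter_subset _ _)
              fun S _ _ => mul_nonneg (Nat.cast_nonneg _) (hbnn S g)
      have h2 : ∑ S : Finset I, (S.card : ℝ) * sq (comp blockAvg S g) =
          ∑ B : I, sq (g - blockAvg B g) := by
        have := efron blockAvg bS1 bS2 bS4 g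
        have e1 : ∑ B : I, sq (g - blockAvg B g) = (∑ B : I, ss (g - blockAvg B g)) / Fintype.card (I → X) := by
          rw [Finset.sum_div]; rfl
        rw [e1, this, Finset.sum_div]
        refine Finset.sum_congr rfl fun S _ => ?_
        rw [sq_ss, mul_div_assoc]
      have h3 := hN3 I X c K h hK.le hgood w hw0 hw1
      rw [← hg, ← h2, hw2] at h3
      rw [hyd, div_mul_eq_mul_div, le_div_iff₀ hk0, mul_comm]
      exact h1.trans h3
    -- small levels
    have hsmall : ∑ S ∈ Finset.univ.filter (fun S : Finset I => 1 ≤ S.card ∧ S.card < k),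
        sq (comp blockAvg S g) ≤ (k : ℝ) ^ 2 * (δ * M) := by
      have h1 : ∀ S : Finset I, sq (comp blockAvg S g) ≤ sq (comp blockAvg S h) := by
        intro S
        rw [hg, hTcomm]
        exact hTle w hw0 hw1 _
      have h2 : ∑ S ∈ Finset.univ.filter (fun S : Finset I => 1 ≤ S.card ∧ S.card < k),
          sq (comp blockAvg S h) = ∑ j ∈ Finset.Ico 1 k,
            ∑ S ∈ (Finset.univ : Finset (Finset I)).filter (fun S => S.card = j), sq (comp blockAvg S h) := by
        rw [← Finset.sum_biUnion]
        · refine Finset.sum_congr ?_ fun _ _ => rfl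
          ext S
          simp only [Finset.mem_filter, Finset.mem_univ, true_and, Finset.mem_biUnion, Finset.mem_Ico]
          constructor
          · intro h; exact ⟨S.card, h, rfl⟩
          · rintro ⟨j, hj, rfl⟩; exact hj
        · intro i _ j _ hij
          rw [Function.onFun, Finset.disjoint_left]
          intro S hS hS'
          simp only [Finset.mem_filter, Finset.mem_univ, true_and] at hS hS'
          exact hij (hS.symm.trans hS')
      calc _ ≤ ∑ S ∈ Finset.univ.filter (fun S : Finset I => 1 ≤ S.card ∧ S.card < k),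
            sq (comp blockAvg S h) := Finset.sum_le_sum fun S _ => h1 S
        _ = _ := h2
        _ ≤ ∑ j ∈ Finset.Ico 1 k, (j : ℝ) * δ * M :=
            Finset.sum_le_sum fun j hj => hN4 I X P f J δ M hδ.le hstop hrev hM' j (Finset.mem_Ico.mp hj).1
        _ ≤ ∑ _j ∈ Finset.Ico 1 k, (k : ℝ) * (δ * M) := by
            refine Finset.sum_le_sum fun j hj => ?_
            have hjk : (j : ℝ) ≤ k := by exact_mod_cast (Finset.mem_Ico.mp hj).2.le
            rw [mul_assoc]
            exact mul_le_mul_of_nonneg_right hjk (mul_pos hδ hM).le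
        _ ≤ _ := by
            rw [Finset.sum_const, Nat.card_Ico, nsmul_eq_mul, pow_two, mul_assoc]
            refine mul_le_mul_of_nonneg_right ?_ (by positivity)
            exact_mod_cast Nat.sub_le k 1
    -- collect
    have hsplit : ∑ S : Finset I, sq (comp blockAvg S g) = sq (comp blockAvg ∅ g) +
        (∑ S ∈ Finset.univ.filter (fun S : Finset I => 1 ≤ S.card ∧ S.card < k), sq (comp blockAvg S g) +
        ∑ S ∈ Finset.univ.filter (fun S : Finset I => k ≤ S.card), sq (comp blockAvg S g)) := by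
      have hd1 : Disjoint (Finset.univ.filter (fun S : Finset I => 1 ≤ S.card ∧ S.card < k))
          (Finset.univ.filter (fun S : Finset I => k ≤ S.card)) := by
        rw [Finset.disjoint_left]
        intro S hS hS'
        simp only [Finset.mem_filter, Finset.mem_univ, true_and] at hS hS'
        omega
      have hd2 : (∅ : Finset I) ∉ Finset.univ.filter (fun S : Finset I => 1 ≤ S.card ∧ S.card < k) ∪
          Finset.univ.filter (fun S : Finset I => k ≤ S.card) := by
        simp only [Finset.mem_union, Finset.mem_filter, Finset.mem_univ, true_and, Finset.card_empty]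
        omega
      have hu : (Finset.univ : Finset (Finset I)) = insert (∅ : Finset I)
          (Finset.univ.filter (fun S : Finset I => 1 ≤ S.card ∧ S.card < k) ∪
          Finset.univ.filter (fun S : Finset I => k ≤ S.card)) := by
        ext S
        simp only [Finset.mem_univ, Finset.mem_insert, Finset.mem_union, Finset.mem_filter, true_and, true_iff]
        rcases Finset.eq_empty_or_nonempty S with h | h
        · exact Or.inl h
        · have := Finset.card_pos.mpr h
          rcases lt_or_ge S.card k with h' | h'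
          · exact Or.inr (Or.inl ⟨this, h'⟩)
          · exact Or.inr (Or.inr h')
      rw [← Finset.sum_union hd1]
      conv_lhs => rw [hu]
      rw [Finset.sum_insert hd2]
    have hd0 : 0 ≤ y.derivative.eval u := by
      rw [hyd]
      exact Finset.sum_nonneg fun S _ => mul_nonneg (mul_nonneg (Nat.cast_nonneg _) (pow_nonneg hu0.le _)) (ha0 S)
    have hmax : (2 * K * Fintype.card X) ^ 2 / (k : ℝ) * y.derivative.eval u ≤
        max 1 ((2 * (K * Fintype.card X)) ^ 2) / k * y.derivative.eval u := by
      refine mul_le_mul_of_nonneg_right ?_ hd0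
      refine div_le_div_of_nonneg_right ?_ (Nat.cast_nonneg k)
      rw [mul_assoc]
      exact le_max_right _ _
    rw [hyev, hΦ, hdec, hsplit, hemp]
    linarith
  have hfin := H5 y (δ * M) (max 1 ((2 * (K * Fintype.card X)) ^ 2)) (mul_pos hδ hM) (le_max_left _ _)
    (fun u hu0 _ => by
      rw [hyd]
      exact Finset.sum_nonneg fun S _ => mul_nonneg (mul_nonneg (Nat.cast_nonneg _) (pow_nonneg hu0 _)) (ha0 S))
    hmain t ht ht1
  have hEq := (hN2 I X c.ι c.invol (1 - t) h).2.1
  have h5 : y.eval (1 - t) = E (fun ω => h ω * T c.ι (1 - t) h ω) - E h ^ 2 := by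
    rw [hyev, hEq]
  rw [h5] at hfin
  have e6 : C5 * (max 1 ((2 * (K * Fintype.card X)) ^ 2)) ^ 2 * (δ * M) / t ^ 2 =
      C5 * (max 1 ((2 * (K * Fintype.card X)) ^ 2)) ^ 2 * δ * M / t ^ 2 := by ring
  rw [e6] at hfin
  simp only
  linarith

end TriX.Noise
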