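import Pool.Agent.EX.Spec4

/-! Project EX (MP_68260e), module P1a: influences do not travel far (helper82). -/

open MeasureTheory ProbabilityTheory

namespace TriX

/-! ### The tail of the Poisson distribution -/

theorem p1a_exp_tail (lam : ℝ) (hl : 0 ≤ lam) (k : ℕ) :
    1 - ∑ m ∈ Finset.range k, Real.exp (-lam) * lam ^ m / m.factorial ≤ lam ^ k := by
  have hsum : Summable (fun m : ℕ => lam ^ m / (m.factorial : ℝ)) :=
    Real.summable_pow_div_factorial lam
  have hexp : Real.exp lam = ∑' m : ℕ, lam ^ m / (m.factorial : ℝ) := by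
    rw [Real.exp_eq_exp_ℝ, NormedSpace.exp_eq_tsum_div]
  have h1 := hsum.sum_add_tsum_nat_add k
  rw [← hexp] at h1
  have h2 : ∑' m : ℕ, lam ^ (m + k) / ((m + k).factorial : ℝ) ≤ lam ^ k * Real.exp lam := by
    rw [hexp, ← tsum_mul_left]
    refine ((summable_nat_add_iff k).2 hsum).tsum_le_tsum (fun m => ?_) (hsum.mul_left _)
    have h3 : ((m.factorial : ℕ) : ℝ) ≤ ((m + k).factorial : ℝ) := by
      exact_mod_cast Nat.factorial_le (Nat.le_add_right m k)
    have h4 : (0 : ℝ) < m.factorial := by exact_mod_cast Nat.factorial_pos m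
    rw [pow_add, mul_comm (lam ^ m), mul_div_assoc]
    apply mul_le_mul_of_nonneg_left _ (by positivity)
    exact div_le_div_of_nonneg_left (by positivity) h4 h3
  have h3 : ∑ m ∈ Finset.range k, Real.exp (-lam) * lam ^ m / m.factorial =
      Real.exp (-lam) * ∑ m ∈ Finset.range k, lam ^ m / (m.factorial : ℝ) := by
    rw [Finset.mul_sum]
    exact Finset.sum_congr rfl fun m _ => by rw [mul_div_assoc]
  have h4 : ∑ m ∈ Finset.range k, lam ^ m / (m.factorial : ℝ) ≥
      Real.exp lam - lam ^ k * Real.exp lam := by linarith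
  have h5 : Real.exp (-lam) * (Real.exp lam - lam ^ k * Real.exp lam) = 1 - lam ^ k := by
    have : Real.exp (-lam) * Real.exp lam = 1 := by rw [← Real.exp_add]; simp
    linear_combination (1 - lam ^ k) * this
  rw [h3]
  have h6 := mul_le_mul_of_nonneg_left h4 (Real.exp_pos (-lam)).le
  rw [h5] at h6
  linarith

variable {Ω : Type} [MeasurableSpace Ω] {P : Measure Ω} [IsProbabilityMeasure P]
  {ξ : V → Ω → Bool} {ring : Edge → Ω → Set ℝ}

theorem p1a_tail (h : IsClockSystem P ξ ring) (e : Edge) (a b : ℝ) (ha : 0 ≤ a) (hab : a < b)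
    (k : ℕ) : P {ω | (k : ℕ∞) ≤ cnt ring (e, a, b) ω} ≤ ENNReal.ofReal (b - a) ^ k := by
  have hm : ∀ m : ℕ, MeasurableSet {ω | cnt ring (e, a, b) ω = m} := fun m =>
    h.meas_cnt (e, a, b) (measurableSet_singleton _)
  have hmk : MeasurableSet {ω | (k : ℕ∞) ≤ cnt ring (e, a, b) ω} :=
    h.meas_cnt (e, a, b) (Set.to_countable (Set.Ici (k : ℕ∞))).measurableSet
  have hc : {ω | (k : ℕ∞) ≤ cnt ring (e, a, b) ω}ᶜ =
      ⋃ m ∈ Finset.range k, {ω | cnt ring (e, a, b) ω = m} := by
    ext ω
    simp only [Set.mem_compl_iff, Set.mem_ofPred_eq, not_le, Set.mem_iUnion, Finset.mem_range,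
      exists_prop]
    constructor
    · intro hlt
      have hne : cnt ring (e, a, b) ω ≠ ⊤ := ne_top_of_lt hlt
      obtain ⟨m, hm⟩ := ENat.ne_top_iff_exists.1 hne
      refine ⟨m, ?_, hm.symm⟩
      rw [← hm] at hlt
      exact_mod_cast hlt
    · rintro ⟨m, hm, hω⟩
      rw [hω]
      exact_mod_cast hm
  have hPc : P {ω | (k : ℕ∞) ≤ cnt ring (e, a, b) ω}ᶜ =
      ENNReal.ofReal (∑ m ∈ Finset.range k, Real.exp (-(b - a)) * (b - a) ^ m / m.factorial) := by
    rw [hc, measure_biUnion_finset]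
    · rw [ENNReal.ofReal_sum_of_nonneg]
      · exact Finset.sum_congr rfl fun m _ => h.poisson e a b ha hab m
      · intro m _
        have : 0 ≤ b - a := by linarith
        positivity
    · intro i _ j _ hij
      refine Set.disjoint_left.2 fun ω h1 h2 => hij ?_
      simp only [Set.mem_ofPred_eq] at h1 h2
      rw [h1] at h2
      exact_mod_cast h2
    · exact fun m _ => hm m
  have h1 : P {ω | (k : ℕ∞) ≤ cnt ring (e, a, b) ω} =
      1 - P {ω | (k : ℕ∞) ≤ cnt ring (e, a, b) ω}ᶜ := by
    rw [← prob_compl_eq_one_sub hmk.compl, compl_compl]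
  rw [h1, hPc, ← ENNReal.ofReal_one, ← ENNReal.ofReal_sub _ (Finset.sum_nonneg fun m _ => by
    have : 0 ≤ b - a := by linarith
    positivity), ← ENNReal.ofReal_pow (by linarith)]
  exact ENNReal.ofReal_le_ofReal (p1a_exp_tail (b - a) (by linarith) k)

/-! ### Paths of rings -/

/-- A direction. -/
abbrev Dr : Type := Fin 3 × Bool

/-- One step in the direction `d`. -/
def stp (v : V) (d : Dr) : V := if d.2 then v + dir d.1 else v - dir d.1

/-- The edge from `v` in the direction `d`. -/
def edg (v : V) (d : Dr) : Edge := if d.2 then (v, d.1) else (v - dir d.1, d.1)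

/-- The edges along a path. -/
def edgs : V → List Dr → List Edge
  | _, [] => []
  | v, d :: ds => edg v d :: edgs (stp v d) ds

theorem edgs_length (v : V) (ds : List Dr) : (edgs v ds).length = ds.length := by
  induction ds generalizing v with
  | nil => rfl
  | cons d ds ih => simp [edgs, ih]

/-- The edges ring at decreasing times below `T`. -/
def Tms (ring : Edge → Set ℝ) : ℝ → List Edge → Prop
  | _, [] => True
  | T, e :: es => ∃ t, t ∈ ring e ∧ 0 < t ∧ t < T ∧ Tms ring t es

theorem p1a_dir (i : Fin 3) : |(dir i).1| ≤ 1 ∧ |(dir i).2| ≤ 1 := by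
  fin_cases i <;> simp [dir]

theorem p1a_reach {ring : Edge → Set ℝ} {T : ℝ} {y z : V} (h : Reach ring T y z) :
    ∀ n : ℕ, z ∉ Ball y ((n : ℤ) - 1) → ∃ ds : List Dr, ds.length = n ∧ Tms ring T (edgs y ds) := by
  induction h with
  | refl T x =>
    intro n hn
    rcases Nat.eq_zero_or_pos n with rfl | hpos
    · exact ⟨[], rfl, trivial⟩
    · exfalso
      apply hn
      have : (1 : ℤ) ≤ n := by exact_mod_cast hpos
      constructor <;> simp <;> omega
  | fwd T t e y ht h0 hT hr ih =>
    intro n hn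
    cases n with
    | zero => exact ⟨[], rfl, trivial⟩
    | succ m =>
      obtain ⟨ds, hlen, hds⟩ := ih m (by
        intro hy
        apply hn
        obtain ⟨h1, h2⟩ := hy
        obtain ⟨d1, d2⟩ := p1a_dir e.2
        have e1 : (tgt e).1 = e.1.1 + (dir e.2).1 := rfl
        have e2 : (tgt e).2 = e.1.2 + (dir e.2).2 := rfl
        rw [e1] at h1
        rw [e2] at h2
        rw [abs_le] at h1 h2 d1 d2
        refine ⟨abs_le.2 ?_, abs_le.2 ?_⟩ <;> push_cast <;> constructor <;> omega)
      refine ⟨(e.2, true) :: ds, by simp [hlen], t, ?_, h0, hT, ?_⟩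
      · simpa [edg] using ht
      · simpa [stp, tgt] using hds
  | bwd T t e y ht h0 hT hr ih =>
    intro n hn
    cases n with
    | zero => exact ⟨[], rfl, trivial⟩
    | succ m =>
      obtain ⟨ds, hlen, hds⟩ := ih m (by
        intro hy
        apply hn
        obtain ⟨h1, h2⟩ := hy
        obtain ⟨d1, d2⟩ := p1a_dir e.2
        have e1 : (tgt e).1 = e.1.1 + (dir e.2).1 := rfl
        have e2 : (tgt e).2 = e.1.2 + (dir e.2).2 := rfl
        rw [abs_le] at h1 h2 d1 d2
        refine ⟨abs_le.2 ?_, abs_le.2 ?_⟩ <;> push_cast <;> constructor <;> omega)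
      refine ⟨(e.2, false) :: ds, by simp [hlen], t, ?_, h0, hT, ?_⟩
      · have : edg (tgt e) (e.2, false) = e := by
          simp [edg, tgt]
        rw [this]
        exact ht
      · have : stp (tgt e) (e.2, false) = e.1 := by
          simp [stp, tgt]
        rw [this]
        exact hds

theorem p1a_times {ring : Edge → Set ℝ} {T : ℝ} {es : List Edge} (h : Tms ring T es) :
    ∃ t : ℕ → ℝ, (∀ (i : ℕ) (hi : i < es.length), t i ∈ ring es[i] ∧ 0 < t i ∧ t i < T) ∧
      ∀ i j : ℕ, i < j → j < es.length → t j < t i := by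
  induction es generalizing T with
  | nil => exact ⟨fun _ => 0, fun i hi => absurd hi (by simp), fun i j _ hj => absurd hj (by simp)⟩
  | cons e es ih =>
    obtain ⟨t0, ht0, h0, hT, hr⟩ := h
    obtain ⟨t, ht, hmono⟩ := ih hr
    refine ⟨fun i => if i = 0 then t0 else t (i - 1), ?_, ?_⟩
    · intro i hi
      cases i with
      | zero => exact ⟨by simpa using ht0, by simpa using h0, by simpa using hT⟩
      | succ i =>
        have hi' : i < es.length := by simpa using hi
        obtain ⟨h1, h2, h3⟩ := ht i hi'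
        refine ⟨by simpa using h1, by simpa using h2, ?_⟩
        simpa using h3.trans hT
    · intro i j hij hj
      cases j with
      | zero => omega
      | succ j =>
        have hj' : j < es.length := by simpa using hj
        cases i with
        | zero => simpa using (ht j hj').2.2
        | succ i => simpa using hmono i j (by omega) hj'

/-! ### Counting antitone sequences -/

open Classical in
/-- The antitone sequences. -/
noncomputable def antis (n : ℕ) : Finset (Fin n → Fin n) := Finset.univ.filter Antitone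

open Classical in
theorem p1a_antis_card (n : ℕ) : (antis n).card ≤ 4 ^ n := by
  have h1 : ((Finset.range (2 * n)).powerset).card = 4 ^ n := by
    rw [Finset.card_powerset, Finset.card_range, pow_mul]
    norm_num
  rw [← h1]
  let g : (Fin n → Fin n) → Fin n → ℕ := fun s i => (s i.rev : ℕ) + i
  have hg : ∀ s ∈ antis n, StrictMono (g s) := by
    intro s hs i j hij
    have hs' : Antitone s := (Finset.mem_filter.1 hs).2
    have h2 : s i.rev ≤ s j.rev := hs' (Fin.rev_le_rev.2 hij.le)
    have h3 : (s i.rev : ℕ) ≤ s j.rev := h2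
    have h4 : (i : ℕ) < j := hij
    show (s i.rev : ℕ) + i < (s j.rev : ℕ) + j
    omega
  refine Finset.card_le_card_of_injOn (fun s => Finset.univ.image (g s)) ?_ ?_
  · intro s _
    rw [Finset.mem_coe, Finset.mem_powerset]
    intro k hk
    obtain ⟨i, _, rfl⟩ := Finset.mem_image.1 hk
    rw [Finset.mem_range]
    have h2 := (s i.rev).2
    have h3 := i.2
    show (s i.rev : ℕ) + i < 2 * n
    omega
  · intro s hs s' hs' heq
    have h2 : Set.range (g s) = Set.range (g s') := by
      have := congrArg (fun F : Finset ℕ => (F : Set ℕ)) heq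
      simpa using this
    have h3 := ((hg s hs).range_inj (hg s' hs')).1 h2
    funext i
    have h4 := congrFun h3 i.rev
    have h5 : (s i.rev.rev : ℕ) + i.rev = (s' i.rev.rev : ℕ) + i.rev := h4
    rw [Fin.rev_rev] at h5
    exact Fin.ext (by omega)

/-! ### The probability of a sequence of rings -/

/-- The time slices. -/
noncomputable def slc (T : ℝ) (n : ℕ) (c : Edge × Fin n) : Edge × ℝ × ℝ :=
  (c.1, (c.2 : ℕ) * (T / n), ((c.2 : ℕ) + 1) * (T / n))

/-- The number of positions in a cell. -/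
def kc {n : ℕ} (f : Fin n → Edge) (s : Fin n → Fin n) (c : Edge × Fin n) : ℕ :=
  (Finset.univ.filter fun i => (f i, s i) = c).card

/-- The occupied cells. -/
def cls {n : ℕ} (f : Fin n → Edge) (s : Fin n → Fin n) : Finset (Edge × Fin n) :=
  Finset.univ.image fun i => (f i, s i)

theorem p1a_cells (h : IsClockSystem P ξ ring) {n : ℕ} (hn : 0 < n) (T : ℝ) (hT : 0 < T)
    (f : Fin n → Edge) (s : Fin n → Fin n) :
    P (⋂ c ∈ cls f s, {ω | (kc f s c : ℕ∞) ≤ cnt ring (slc T n c) ω}) ≤
      ENNReal.ofReal (T / n) ^ n := by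
  classical
  have hn' : (0 : ℝ) < n := by exact_mod_cast hn
  have hlam : 0 < T / n := by positivity
  set m := (cls f s).card with hm
  let e : Fin m ≃ cls f s := (cls f s).equivFin.symm
  have hset : (⋂ c ∈ cls f s, {ω | (kc f s c : ℕ∞) ≤ cnt ring (slc T n c) ω}) =
      ⋂ j ∈ (Finset.univ : Finset (Fin m)), (cnt ring (slc T n (e j).1)) ⁻¹'
        (Set.Ici (kc f s (e j).1 : ℕ∞)) := by
    ext ω
    simp only [Set.mem_iInter, Finset.mem_univ, true_implies]
    constructor
    · intro hω j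
      exact hω (e j).1 (e j).2
    · intro hω c hc
      have h1 := hω (e.symm ⟨c, hc⟩)
      rw [Equiv.apply_symm_apply] at h1
      exact h1
  have hind := h.indep_cells m (fun j => slc T n (e j).1) (fun j => by
      show 0 ≤ (((e j).1.2 : ℕ) : ℝ) * (T / n)
      positivity) (fun i j hij => by
      by_cases h1 : (e i).1.1 = (e j).1.1
      · right
        have h2 : (e i).1.2 ≠ (e j).1.2 := by
          intro h2
          exact hij (e.injective (Subtype.ext (Prod.ext h1 h2)))
        have h3 : ((e i).1.2 : ℕ) ≠ (e j).1.2 := fun h3 => h2 (Fin.ext h3)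
        rw [Set.disjoint_left]
        rintro t ⟨ht1, ht2⟩ ⟨ht3, ht4⟩
        change (((e i).1.2 : ℕ) : ℝ) * (T / n) < t at ht1
        change t ≤ ((((e i).1.2 : ℕ) : ℝ) + 1) * (T / n) at ht2
        change (((e j).1.2 : ℕ) : ℝ) * (T / n) < t at ht3
        change t ≤ ((((e j).1.2 : ℕ) : ℝ) + 1) * (T / n) at ht4
        rcases lt_or_gt_of_ne h3 with h4 | h4
        · have h5 : (((e i).1.2 : ℕ) : ℝ) + 1 ≤ (((e j).1.2 : ℕ) : ℝ) := by exact_mod_cast h4
          have h6 := mul_le_mul_of_nonneg_right h5 hlam.le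
          linarith
        · have h5 : (((e j).1.2 : ℕ) : ℝ) + 1 ≤ (((e i).1.2 : ℕ) : ℝ) := by exact_mod_cast h4
          have h6 := mul_le_mul_of_nonneg_right h5 hlam.le
          linarith
      · exact Or.inl h1)
  rw [hset, hind.measure_inter_preimage_eq_mul Finset.univ
    (fun j _ => (Set.to_countable (Set.Ici (kc f s (e j).1 : ℕ∞))).measurableSet)]
  have hle : ∀ j : Fin m, P ((cnt ring (slc T n (e j).1)) ⁻¹'
      (Set.Ici (kc f s (e j).1 : ℕ∞))) ≤ ENNReal.ofReal (T / n) ^ kc f s (e j).1 := by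
    intro j
    have h1 := p1a_tail h (e j).1.1 (((e j).1.2 : ℕ) * (T / n)) ((((e j).1.2 : ℕ) + 1) * (T / n))
      (by positivity) (by linarith) (kc f s (e j).1)
    have h2 : ((((e j).1.2 : ℕ) : ℝ) + 1) * (T / n) - (((e j).1.2 : ℕ) : ℝ) * (T / n) = T / n := by
      ring
    rw [h2] at h1
    exact h1
  refine (Finset.prod_le_prod' fun j _ => hle j).trans (le_of_eq ?_)
  rw [Finset.prod_pow_eq_pow_sum]
  congr 1
  have h1 : ∑ j : Fin m, kc f s (e j).1 = ∑ c ∈ cls f s, kc f s c := by
    rw [← Finset.sum_coe_sort (cls f s)]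
    exact Equiv.sum_comp e fun c => kc f s c.1
  rw [h1]
  have h2 := Finset.card_eq_sum_card_image (fun i => (f i, s i)) (Finset.univ : Finset (Fin n))
  rw [Finset.card_univ, Fintype.card_fin] at h2
  exact h2.symm

theorem p1a_event (h : IsClockSystem P ξ ring) (T : ℝ) (hT : 0 < T) (es : List Edge)
    (hes : 0 < es.length) :
    P {ω | Tms (fun e => ring e ω) T es} ≤
      (4 * ENNReal.ofReal (T / es.length)) ^ es.length := by
  classical
  set n := es.length with hn
  have hn' : (0 : ℝ) < n := by exact_mod_cast hes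
  have hlam : 0 < T / n := by positivity
  let f : Fin n → Edge := fun i => es[(i : ℕ)]
  have hsub : {ω | Tms (fun e => ring e ω) T es} ⊆
      ⋃ s ∈ antis n, ⋂ c ∈ cls f s, {ω | (kc f s c : ℕ∞) ≤ cnt ring (slc T n c) ω} := by
    intro ω hω
    obtain ⟨t, ht, hmono⟩ := p1a_times hω
    -- the index of the slice
    have hidx : ∀ i : Fin n, ∃ j : Fin n, ((j : ℕ) : ℝ) * (T / n) < t i ∧
        t i ≤ (((j : ℕ) : ℝ) + 1) * (T / n) ∧ (j : ℕ) + 1 = ⌈t i / (T / n)⌉₊ := by
      intro i
      obtain ⟨_, h0, hlt⟩ := ht i i.2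
      have hpos : 0 < t i / (T / n) := by positivity
      have hc0 : 0 < ⌈t i / (T / n)⌉₊ := Nat.ceil_pos.2 hpos
      have hcn : ⌈t i / (T / n)⌉₊ ≤ n := by
        apply Nat.ceil_le.2
        rw [div_le_iff₀ hlam, mul_div_cancel₀ _ hn'.ne']
        exact hlt.le
      refine ⟨⟨⌈t i / (T / n)⌉₊ - 1, by omega⟩, ?_, ?_, ?_⟩
      · have h1 : (((⌈t i / (T / n)⌉₊ - 1 : ℕ)) : ℝ) < t i / (T / n) := by
          have h2 := Nat.ceil_lt_add_one hpos.le
          rw [Nat.cast_sub hc0]
          push_cast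
          linarith
        rwa [lt_div_iff₀ hlam] at h1
      · have h1 : t i / (T / n) ≤ ((⌈t i / (T / n)⌉₊ : ℕ) : ℝ) := Nat.le_ceil _
        rw [div_le_iff₀ hlam] at h1
        refine h1.trans (le_of_eq ?_)
        congr 1
        have : ((⌈t i / (T / n)⌉₊ - 1 : ℕ) : ℝ) + 1 = ((⌈t i / (T / n)⌉₊ : ℕ) : ℝ) := by
          rw [Nat.cast_sub hc0]
          push_cast
          ring
        exact this.symm
      · show ⌈t i / (T / n)⌉₊ - 1 + 1 = _
        omega
    choose s hs1 hs2 hs3 using hidx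
    have hanti : Antitone s := by
      intro i j hij
      rcases eq_or_lt_of_le hij with rfl | hlt
      · exact le_rfl
      · have h1 : t j < t i := hmono i j hlt j.2
        have h2 : ⌈t j / (T / n)⌉₊ ≤ ⌈t i / (T / n)⌉₊ :=
          Nat.ceil_mono (div_le_div_of_nonneg_right h1.le hlam.le)
        rw [← hs3, ← hs3] at h2
        show (s j : ℕ) ≤ s i
        omega
    refine Set.mem_biUnion (show s ∈ (antis n : Finset (Fin n → Fin n)) from
      Finset.mem_filter.2 ⟨Finset.mem_univ _, hanti⟩) ?_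
    refine Set.mem_iInter₂.2 fun c _ => ?_
    show (kc f s c : ℕ∞) ≤ cnt ring (slc T n c) ω
    have hinj : Set.InjOn (fun i : Fin n => t i)
        ((Finset.univ.filter fun i => (f i, s i) = c : Finset (Fin n)) : Set (Fin n)) := by
      intro i _ j _ hij
      rcases lt_trichotomy i j with h1 | h1 | h1
      · exact absurd hij (ne_of_gt (hmono i j h1 j.2))
      · exact h1
      · exact absurd hij (ne_of_lt (hmono j i h1 i.2))
    have h1 : ((Finset.univ.filter fun i => (f i, s i) = c).image fun i : Fin n => t i).card =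
        kc f s c := Finset.card_image_of_injOn hinj
    rw [← h1, ← Set.encard_coe_eq_coe_finsetCard]
    refine Set.encard_le_encard ?_
    intro r hr
    rw [Finset.mem_coe, Finset.mem_image] at hr
    obtain ⟨i, hi, rfl⟩ := hr
    have hi' : (f i, s i) = c := (Finset.mem_filter.1 hi).2
    subst hi'
    exact ⟨(ht i i.2).1, hs1 i, hs2 i⟩
  refine (measure_mono hsub).trans ((measure_biUnion_finset_le _ _).trans ?_)
  refine (Finset.sum_le_sum fun s _ => p1a_cells h hes T hT f s).trans ?_
  rw [Finset.sum_const, nsmul_eq_mul, mul_pow]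
  refine mul_le_mul_left ?_ _
  exact_mod_cast p1a_antis_card n

theorem p1a_bound (h : IsClockSystem P ξ ring) (T : ℝ) (hT : 0 < T) (R n N : ℕ) (hn : 0 < n)
    (hnN : n + R = 5 * N) (x : V) :
    P {ω | ∃ y ∈ Ball x R, ∃ z, z ∉ Ball x (5 * N) ∧ Reach (fun e => ring e ω) T y z} ≤
      ((2 * R + 1) ^ 2 : ℕ) * (24 * ENNReal.ofReal (T / n)) ^ n := by
  classical
  set Y : Finset V := Finset.Icc (x.1 - R) (x.1 + R) ×ˢ Finset.Icc (x.2 - R) (x.2 + R) with hY
  have hYcard : Y.card = (2 * R + 1) ^ 2 := by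
    rw [hY, Finset.card_product, Int.card_Icc, Int.card_Icc]
    have h1 : (x.1 + R + 1 - (x.1 - R)).toNat = 2 * R + 1 := by omega
    have h2 : (x.2 + R + 1 - (x.2 - R)).toNat = 2 * R + 1 := by omega
    rw [h1, h2]
    ring
  have hsub : {ω | ∃ y ∈ Ball x R, ∃ z, z ∉ Ball x (5 * N) ∧
      Reach (fun e => ring e ω) T y z} ⊆
      ⋃ y ∈ Y, ⋃ ds ∈ (Finset.univ : Finset (Fin n → Dr)),
        {ω | Tms (fun e => ring e ω) T (edgs y (List.ofFn ds))} := by
    rintro ω ⟨y, hy, z, hz, hr⟩
    obtain ⟨hy1, hy2⟩ := hy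
    have hzy : z ∉ Ball y ((n : ℤ) - 1) := by
      intro hzy
      apply hz
      obtain ⟨h1, h2⟩ := hzy
      rw [abs_le] at h1 h2 hy1 hy2
      have h3 : (n : ℤ) + R = 5 * N := by exact_mod_cast hnN
      exact ⟨abs_le.2 (by constructor <;> omega), abs_le.2 (by constructor <;> omega)⟩
    obtain ⟨ds, hlen, hds⟩ := p1a_reach hr n hzy
    have hyY : y ∈ Y := by
      rw [abs_le] at hy1 hy2
      rw [hY, Finset.mem_product, Finset.mem_Icc, Finset.mem_Icc]
      refine ⟨⟨?_, ?_⟩, ?_, ?_⟩ <;> omega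
    refine Set.mem_biUnion hyY ?_
    subst hlen
    refine Set.mem_biUnion (show ds.get ∈ ((Finset.univ : Finset (Fin ds.length → Dr))) from
      Finset.mem_univ _) ?_
    show Tms (fun e => ring e ω) T (edgs y (List.ofFn ds.get))
    rw [List.ofFn_get]
    exact hds
  refine (measure_mono hsub).trans ((measure_biUnion_finset_le _ _).trans ?_)
  have hle : ∀ y ∈ Y, P (⋃ ds ∈ (Finset.univ : Finset (Fin n → Dr)),
      {ω | Tms (fun e => ring e ω) T (edgs y (List.ofFn ds))}) ≤
      (24 * ENNReal.ofReal (T / n)) ^ n := by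
    intro y _
    refine (measure_biUnion_finset_le _ _).trans ?_
    have h1 : ∀ ds ∈ (Finset.univ : Finset (Fin n → Dr)),
        P {ω | Tms (fun e => ring e ω) T (edgs y (List.ofFn ds))} ≤
          (4 * ENNReal.ofReal (T / n)) ^ n := by
      intro ds _
      have hlen : (edgs y (List.ofFn ds)).length = n := by
        rw [edgs_length, List.length_ofFn]
      have h2 := p1a_event h T hT (edgs y (List.ofFn ds)) (by rw [hlen]; exact hn)
      rw [hlen] at h2
      exact h2
    refine (Finset.sum_le_sum h1).trans (le_of_eq ?_)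
    rw [Finset.sum_const, nsmul_eq_mul, Finset.card_univ, Fintype.card_fun, Fintype.card_fin]
    have h3 : Fintype.card Dr = 6 := rfl
    rw [h3]
    push_cast
    rw [← mul_pow, ← mul_assoc]
    norm_num
  refine (Finset.sum_le_sum hle).trans (le_of_eq ?_)
  rw [Finset.sum_const, nsmul_eq_mul, hYcard]

theorem p_reachProb : S_reachProb := by
  intro R T ε hε
  -- the threshold
  obtain ⟨n1, hn1⟩ : ∃ n1 : ℕ, ∀ n : ℕ, n1 ≤ n → ((2 * R + 1) ^ 2 : ℕ) * (1 / 2 : ℝ) ^ n ≤ ε := by
    have h1 : Filter.Tendsto (fun n : ℕ => (((2 * R + 1) ^ 2 : ℕ) : ℝ) * (1 / 2 : ℝ) ^ n)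
        Filter.atTop (nhds 0) := by
      have := (tendsto_pow_atTop_nhds_zero_of_lt_one (r := (1 / 2 : ℝ)) (by norm_num)
        (by norm_num)).const_mul (((2 * R + 1) ^ 2 : ℕ) : ℝ)
      rwa [mul_zero] at this
    obtain ⟨n1, hn1⟩ := Filter.eventually_atTop.1 (h1.eventually (gt_mem_nhds hε))
    exact ⟨n1, fun n hn => (hn1 n hn).le⟩
  refine ⟨R + n1 + ⌈48 * T⌉₊ + 1, ?_⟩
  intro Ω _ P _ ξ ring h N x hN
  set n : ℕ := 5 * N - R with hn
  have hn0 : 0 < n := by omega
  have hnN : n + R = 5 * N := by omega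
  have hnn : n1 ≤ n := by omega
  have hnT : ⌈48 * T⌉₊ ≤ n := by omega
  rcases le_or_gt T 0 with hT | hT
  · have hemp : {ω | ∃ y ∈ Ball x R, ∃ z, z ∉ Ball x (5 * N) ∧
        Reach (fun e => ring e ω) T y z} = ∅ := by
      rw [Set.eq_empty_iff_forall_notMem]
      rintro ω ⟨y, hy, z, hz, hr⟩
      obtain ⟨hy1, hy2⟩ := hy
      have hzy : z ∉ Ball y ((1 : ℕ) - 1) := by
        intro hzy
        apply hz
        obtain ⟨h1, h2⟩ := hzy
        rw [abs_le] at h1 h2 hy1 hy2
        exact ⟨abs_le.2 (by constructor <;> push_cast at * <;> omega),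
          abs_le.2 (by constructor <;> push_cast at * <;> omega)⟩
      obtain ⟨ds, hlen, hds⟩ := p1a_reach hr 1 hzy
      cases ds with
      | nil => simp at hlen
      | cons d ds =>
        obtain ⟨t, _, h0, hlt, _⟩ := hds
        linarith
    rw [hemp, measure_empty]
    exact zero_le
  · refine (p1a_bound h T hT R n N hn0 hnN x).trans ?_
    have hn' : (0 : ℝ) < n := by exact_mod_cast hn0
    have h1 : 24 * ENNReal.ofReal (T / n) ≤ ENNReal.ofReal (1 / 2) := by
      have h2 : (24 : ENNReal) = ENNReal.ofReal 24 := by norm_num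
      rw [h2, ← ENNReal.ofReal_mul (by norm_num)]
      apply ENNReal.ofReal_le_ofReal
      have h3 : 48 * T ≤ n := (Nat.le_ceil _).trans (by exact_mod_cast hnT)
      rw [← mul_div_assoc, div_le_iff₀ hn']
      linarith
    calc (((2 * R + 1) ^ 2 : ℕ) : ENNReal) * (24 * ENNReal.ofReal (T / n)) ^ n
        ≤ (((2 * R + 1) ^ 2 : ℕ) : ENNReal) * ENNReal.ofReal (1 / 2) ^ n := by gcongr
      _ = ENNReal.ofReal (((2 * R + 1) ^ 2 : ℕ) * (1 / 2 : ℝ) ^ n) := by
          rw [ENNReal.ofReal_mul (by positivity), ENNReal.ofReal_natCast,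
            ENNReal.ofReal_pow (by norm_num)]
      _ ≤ ENNReal.ofReal ε := ENNReal.ofReal_le_ofReal (hn1 n hnn)

end TriX
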