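import Pool.Agent.EX.Spec4

/-! Project EX, task P1b: fine time slices and regularity of the ring times. -/

set_option autoImplicit false

open MeasureTheory ProbabilityTheory

namespace TriX

section PB

variable {Ω : Type} [MeasurableSpace Ω] {P : Measure Ω} [IsProbabilityMeasure P]
  {ξ : V → Ω → Bool} {ring : Edge → Ω → Set ℝ}

theorem pb_meas_eq (h : IsClockSystem P ξ ring) (c : Edge × ℝ × ℝ) (n : ℕ∞) :
    MeasurableSet {ω | cnt ring c ω = n} := h.meas_cnt c (measurableSet_singleton n)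

theorem pb_pos (h : IsClockSystem P ξ ring) (e : Edge) (a b : ℝ) (ha : 0 ≤ a) (hab : a < b) :
    P {ω | cnt ring (e, a, b) ω ≠ 0} ≤ ENNReal.ofReal (b - a) := by
  have h0 := h.poisson e a b ha hab 0
  have h1 : {ω | cnt ring (e, a, b) ω ≠ 0} = {ω | cnt ring (e, a, b) ω = ((0 : ℕ) : ℕ∞)}ᶜ := by
    ext ω
    simp
  rw [h1, prob_compl_eq_one_sub (pb_meas_eq h _ _), h0, ← ENNReal.ofReal_one,
    ← ENNReal.ofReal_sub _ (by positivity)]
  refine ENNReal.ofReal_le_ofReal ?_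
  have := Real.add_one_le_exp (-(b - a))
  simp only [pow_zero, mul_one, Nat.factorial_zero, Nat.cast_one, div_one]
  linarith

theorem pb_two (h : IsClockSystem P ξ ring) (e : Edge) (a b : ℝ) (ha : 0 ≤ a) (hab : a < b) :
    P {ω | cnt ring (e, a, b) ω ≠ 0 ∧ cnt ring (e, a, b) ω ≠ 1} ≤
      ENNReal.ofReal ((b - a) ^ 2) := by
  have h0 := h.poisson e a b ha hab 0
  have h1 := h.poisson e a b ha hab 1
  have h2 : {ω | cnt ring (e, a, b) ω ≠ 0 ∧ cnt ring (e, a, b) ω ≠ 1} =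
      ({ω | cnt ring (e, a, b) ω = ((0 : ℕ) : ℕ∞)} ∪
        {ω | cnt ring (e, a, b) ω = ((1 : ℕ) : ℕ∞)})ᶜ := by
    ext ω
    simp
  have hd : Disjoint {ω | cnt ring (e, a, b) ω = ((0 : ℕ) : ℕ∞)}
      {ω | cnt ring (e, a, b) ω = ((1 : ℕ) : ℕ∞)} := by
    rw [Set.disjoint_left]
    intro ω h3 h4
    have h3' : cnt ring (e, a, b) ω = ((0 : ℕ) : ℕ∞) := h3
    have h4' : cnt ring (e, a, b) ω = ((1 : ℕ) : ℕ∞) := h4
    rw [h3'] at h4'
    simp at h4'
  have hs : 0 < b - a := by linarith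
  rw [h2, prob_compl_eq_one_sub ((pb_meas_eq h _ _).union (pb_meas_eq h _ _)),
    measure_union hd (pb_meas_eq h _ _), h0, h1,
    ← ENNReal.ofReal_add (by positivity) (by positivity), ← ENNReal.ofReal_one,
    ← ENNReal.ofReal_sub _ (by positivity)]
  refine ENNReal.ofReal_le_ofReal ?_
  have h5 := Real.add_one_le_exp (-(b - a))
  simp only [pow_zero, mul_one, Nat.factorial_zero, Nat.cast_one, div_one, pow_one,
    Nat.factorial_one]
  nlinarith

theorem pb_pair (h : IsClockSystem P ξ ring) (e e' : Edge) (hne : e ≠ e') (a b : ℝ) (ha : 0 ≤ a)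
    (hab : a < b) :
    P {ω | cnt ring (e, a, b) ω ≠ 0 ∧ cnt ring (e', a, b) ω ≠ 0} ≤
      ENNReal.ofReal ((b - a) ^ 2) := by
  have h0 := h.indep_cells 2 ![(e, a, b), (e', a, b)] (by
    intro i
    fin_cases i <;> simpa using ha) (by
    intro i j hij
    left
    fin_cases i <;> fin_cases j
    · exact absurd rfl hij
    · simpa using hne
    · simpa using hne.symm
    · exact absurd rfl hij)
  have h1 : IndepFun (cnt ring (e, a, b)) (cnt ring (e', a, b)) P := by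
    have := h0.indepFun (i := 0) (j := 1) (by decide)
    simpa using this
  have hm : MeasurableSet ({0}ᶜ : Set ℕ∞) := (measurableSet_singleton _).compl
  have h2 := h1.measure_inter_preimage_eq_mul _ _ hm hm
  have h3 : {ω | cnt ring (e, a, b) ω ≠ 0 ∧ cnt ring (e', a, b) ω ≠ 0} =
      cnt ring (e, a, b) ⁻¹' {0}ᶜ ∩ cnt ring (e', a, b) ⁻¹' {0}ᶜ := by
    ext ω
    simp
  rw [h3, h2]
  have h4 := pb_pos h e a b ha hab
  have h5 := pb_pos h e' a b ha hab
  have hs : 0 ≤ b - a := by linarith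
  calc P (cnt ring (e, a, b) ⁻¹' {0}ᶜ) * P (cnt ring (e', a, b) ⁻¹' {0}ᶜ)
      ≤ ENNReal.ofReal (b - a) * ENNReal.ofReal (b - a) := mul_le_mul' h4 h5
    _ = ENNReal.ofReal ((b - a) ^ 2) := by
        rw [← ENNReal.ofReal_mul hs, sq]

/-- if a sum of extended naturals is at least two then one term is, or two terms are positive -/
theorem pb_sum (E : Finset Edge) (f : Edge → ℕ∞) (h : 1 < ∑ e ∈ E, f e) :
    (∃ e ∈ E, f e ≠ 0 ∧ f e ≠ 1) ∨ (∃ e ∈ E, ∃ e' ∈ E, e ≠ e' ∧ f e ≠ 0 ∧ f e' ≠ 0) := by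
  classical
  by_contra hc
  rw [not_or] at hc
  obtain ⟨h1, h2⟩ := hc
  rw [not_exists] at h1
  by_cases h3 : ∃ e ∈ E, f e ≠ 0
  · obtain ⟨e, he, hf⟩ := h3
    have h4 : ∑ e ∈ E, f e = f e := by
      refine Finset.sum_eq_single e ?_ (fun h => absurd he h)
      intro e' he' hne
      by_contra h5
      exact h2 ⟨e, he, e', he', fun h => hne h.symm, hf, h5⟩
    rw [h4] at h
    have h5 : f e = 1 := by
      by_contra h6
      exact h1 e ⟨he, hf, h6⟩
    rw [h5] at h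
    exact lt_irrefl _ h
  · have h4 : ∑ e ∈ E, f e = 0 := by
      refine Finset.sum_eq_zero ?_
      intro e he
      by_contra h5
      exact h3 ⟨e, he, h5⟩
    rw [h4] at h
    exact absurd h (by simp)

theorem pb_card (x : V) (N : ℕ) : (edgesIn x N).card ≤ (10 * N + 5) * (10 * N + 5) * 3 := by
  classical
  unfold edgesIn
  refine (Finset.card_filter_le _ _).trans ?_
  rw [Finset.card_product, Finset.card_product, Int.card_Icc, Int.card_Icc, Finset.card_univ,
    Fintype.card_fin]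
  have h1 : (x.1 + (5 * (N : ℤ) + 2) + 1 - (x.1 - (5 * N + 2))).toNat = 10 * N + 5 := by omega
  have h2 : (x.2 + (5 * (N : ℤ) + 2) + 1 - (x.2 - (5 * N + 2))).toNat = 10 * N + 5 := by omega
  rw [h1, h2]

theorem pb_slice_one (h : IsClockSystem P ξ ring) (x : V) (N m : ℕ) (hm : 0 < m) (k : ℕ) :
    P {ω | 1 < ∑ e ∈ edgesIn x N, cnt ring (e, (k : ℝ) / m, ((k : ℝ) + 1) / m) ω} ≤
      ENNReal.ofReal ((((10 * N + 5) * (10 * N + 5) * 3 + 1 : ℕ) : ℝ) ^ 2 / (m : ℝ) ^ 2) := by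
  classical
  set E := edgesIn x N with hE
  set C : ℕ := (10 * N + 5) * (10 * N + 5) * 3 with hC
  have hcard : E.card ≤ C := pb_card x N
  have hm' : (0 : ℝ) < m := by exact_mod_cast hm
  have ha : (0 : ℝ) ≤ (k : ℝ) / m := by positivity
  have hab : (k : ℝ) / m < ((k : ℝ) + 1) / m := by
    rw [div_lt_div_iff_of_pos_right hm']
    linarith
  have hs : ((k : ℝ) + 1) / m - (k : ℝ) / m = 1 / m := by
    field_simp
    ring
  set q : ENNReal := ENNReal.ofReal ((1 / (m : ℝ)) ^ 2) with hq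
  have hsub : {ω | 1 < ∑ e ∈ E, cnt ring (e, (k : ℝ) / m, ((k : ℝ) + 1) / m) ω} ⊆
      (⋃ e ∈ E, {ω | cnt ring (e, (k : ℝ) / m, ((k : ℝ) + 1) / m) ω ≠ 0 ∧
        cnt ring (e, (k : ℝ) / m, ((k : ℝ) + 1) / m) ω ≠ 1}) ∪
      (⋃ p ∈ (E ×ˢ E).filter (fun p => p.1 ≠ p.2),
        {ω | cnt ring (p.1, (k : ℝ) / m, ((k : ℝ) + 1) / m) ω ≠ 0 ∧
          cnt ring (p.2, (k : ℝ) / m, ((k : ℝ) + 1) / m) ω ≠ 0}) := by
    intro ω hω
    rcases pb_sum E _ hω with ⟨e, he, h1, h2⟩ | ⟨e, he, e', he', hne, h1, h2⟩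
    · left
      exact Set.mem_biUnion he ⟨h1, h2⟩
    · right
      refine Set.mem_biUnion (x := (e, e')) ?_ ⟨h1, h2⟩
      simp only [Finset.coe_filter, Finset.mem_product, Set.mem_ofPred_eq]
      exact ⟨⟨he, he'⟩, hne⟩
  refine (measure_mono hsub).trans ((measure_union_le _ _).trans ?_)
  have h1 : P (⋃ e ∈ E, {ω | cnt ring (e, (k : ℝ) / m, ((k : ℝ) + 1) / m) ω ≠ 0 ∧
        cnt ring (e, (k : ℝ) / m, ((k : ℝ) + 1) / m) ω ≠ 1}) ≤ (C : ENNReal) * q := by
    refine (measure_biUnion_finset_le _ _).trans ?_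
    refine (Finset.sum_le_sum (g := fun _ => q) ?_).trans ?_
    · intro e he
      have := pb_two h e _ _ ha hab
      rwa [hs] at this
    · rw [Finset.sum_const, nsmul_eq_mul]
      exact mul_le_mul' (by exact_mod_cast hcard) le_rfl
  have h2 : P (⋃ p ∈ (E ×ˢ E).filter (fun p => p.1 ≠ p.2),
        {ω | cnt ring (p.1, (k : ℝ) / m, ((k : ℝ) + 1) / m) ω ≠ 0 ∧
          cnt ring (p.2, (k : ℝ) / m, ((k : ℝ) + 1) / m) ω ≠ 0}) ≤ ((C * C : ℕ) : ENNReal) * q := by
    refine (measure_biUnion_finset_le _ _).trans ?_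
    refine (Finset.sum_le_sum (g := fun _ => q) ?_).trans ?_
    · intro p hp
      have := pb_pair h p.1 p.2 (Finset.mem_filter.1 hp).2 _ _ ha hab
      rwa [hs] at this
    · rw [Finset.sum_const, nsmul_eq_mul]
      refine mul_le_mul' ?_ le_rfl
      have : ((E ×ˢ E).filter (fun p => p.1 ≠ p.2)).card ≤ C * C := by
        refine (Finset.card_filter_le _ _).trans ?_
        rw [Finset.card_product]
        exact Nat.mul_le_mul hcard hcard
      exact_mod_cast this
  refine (add_le_add h1 h2).trans ?_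
  rw [← add_mul, hq]
  have h3 : ((C : ENNReal) + ((C * C : ℕ) : ENNReal)) = ENNReal.ofReal ((C : ℝ) + C * C) := by
    rw [ENNReal.ofReal_add (by positivity) (by positivity), ENNReal.ofReal_natCast]
    congr 1
    rw [show (C : ℝ) * C = ((C * C : ℕ) : ℝ) by push_cast; ring, ENNReal.ofReal_natCast]
  rw [h3, ← ENNReal.ofReal_mul (by positivity)]
  refine ENNReal.ofReal_le_ofReal ?_
  rw [div_pow, one_pow, mul_one_div]
  refine div_le_div_of_nonneg_right ?_ (by positivity)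
  push_cast
  have : (0 : ℝ) ≤ C := by positivity
  nlinarith

end PB

theorem p_slices : S_slices := by
  intro N ε hε
  set C : ℝ := (((10 * N + 5) * (10 * N + 5) * 3 + 1 : ℕ) : ℝ) ^ 2 with hC
  have hC0 : 0 ≤ C := by positivity
  obtain ⟨m0, hm0⟩ := exists_nat_gt (C / ε)
  refine ⟨m0 + 1, ?_⟩
  intro Ω _ P _ ξ ring h m x hm
  have hmpos : 0 < m := by omega
  have hm' : (0 : ℝ) < m := by exact_mod_cast hmpos
  have hsub : {ω | ∃ k : ℕ, k < m ∧ 1 < ∑ e ∈ edgesIn x N,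
      cnt ring (e, (k : ℝ) / m, ((k : ℝ) + 1) / m) ω} ⊆
      ⋃ k ∈ Finset.range m, {ω | 1 < ∑ e ∈ edgesIn x N,
        cnt ring (e, (k : ℝ) / m, ((k : ℝ) + 1) / m) ω} := by
    rintro ω ⟨k, hk, h1⟩
    exact Set.mem_biUnion (by simpa using hk) h1
  refine (measure_mono hsub).trans ((measure_biUnion_finset_le _ _).trans ?_)
  refine (Finset.sum_le_sum (g := fun _ => ENNReal.ofReal (C / (m : ℝ) ^ 2)) ?_).trans ?_
  · intro k _
    exact pb_slice_one h x N m hmpos k
  · rw [Finset.sum_const, Finset.card_range, nsmul_eq_mul, ← ENNReal.ofReal_natCast,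
      ← ENNReal.ofReal_mul (by positivity)]
    refine ENNReal.ofReal_le_ofReal ?_
    have h1 : (m : ℝ) * (C / (m : ℝ) ^ 2) = C / m := by
      field_simp
    rw [h1, div_le_iff₀ hm']
    rw [div_lt_iff₀ hε] at hm0
    have h2 : (m0 : ℝ) ≤ m := by
      exact_mod_cast (by omega : m0 ≤ m)
    nlinarith

/-! ### Regularity -/

section Reg

variable {Ω : Type} [MeasurableSpace Ω] {P : Measure Ω} [IsProbabilityMeasure P]
  {ξ : V → Ω → Bool} {ring : Edge → Ω → Set ℝ}

theorem pb_top (h : IsClockSystem P ξ ring) (e : Edge) (T : ℕ) :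
    P {ω | cnt ring (e, 0, ((T : ℝ) + 1)) ω = ⊤} = 0 := by
  have hT : (0 : ℝ) < (T : ℝ) + 1 := by positivity
  set s : ℝ := (T : ℝ) + 1 with hs
  -- the finite values carry the whole mass
  have h1 : P (⋃ n : ℕ, {ω | cnt ring (e, 0, s) ω = (n : ℕ∞)}) = 1 := by
    rw [measure_iUnion]
    · have h2 : ∀ n : ℕ, P {ω | cnt ring (e, 0, s) ω = (n : ℕ∞)} =
          ENNReal.ofReal (Real.exp (-s) * (s ^ n / n.factorial)) := by
        intro n
        rw [h.poisson e 0 s le_rfl hT n, sub_zero, mul_div_assoc]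
      simp only [h2]
      rw [← ENNReal.ofReal_tsum_of_nonneg]
      · rw [tsum_mul_left]
        have h3 : ∑' n : ℕ, s ^ n / (n.factorial : ℝ) = Real.exp s := by
          rw [Real.exp_eq_exp_ℝ, NormedSpace.exp_eq_tsum_div]
        rw [h3, ← Real.exp_add]
        simp
      · intro n
        positivity
      · exact (Real.summable_pow_div_factorial s).mul_left _
    · intro i j hij
      rw [Function.onFun, Set.disjoint_left]
      intro ω hi hj
      have hi' : cnt ring (e, 0, s) ω = (i : ℕ∞) := hi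
      have hj' : cnt ring (e, 0, s) ω = (j : ℕ∞) := hj
      rw [hi'] at hj'
      exact hij (by exact_mod_cast hj')
    · intro n
      exact pb_meas_eq h _ _
  have h4 : {ω | cnt ring (e, 0, s) ω = ⊤} = (⋃ n : ℕ, {ω | cnt ring (e, 0, s) ω = (n : ℕ∞)})ᶜ := by
    ext ω
    simp only [Set.mem_ofPred_eq, Set.mem_compl_iff, Set.mem_iUnion, not_exists]
    constructor
    · intro h5 n h6
      rw [h5] at h6
      exact absurd h6 (by simp)
    · intro h5
      by_contra h6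
      obtain ⟨n, hn⟩ := ENat.ne_top_iff_exists.1 h6
      exact h5 n hn.symm
  rw [h4, prob_compl_eq_one_sub (MeasurableSet.iUnion fun n => pb_meas_eq h _ _), h1]
  simp

theorem pb_locFin (h : IsClockSystem P ξ ring) :
    ∀ᵐ ω ∂P, ∀ (e : Edge) (T : ℝ), (ring e ω ∩ Set.Ioc 0 T).Finite := by
  have h1 : ∀ᵐ ω ∂P, ∀ (e : Edge) (T : ℕ), cnt ring (e, 0, ((T : ℝ) + 1)) ω ≠ ⊤ := by
    rw [ae_all_iff]
    intro e
    rw [ae_all_iff]
    intro T
    rw [ae_iff]
    simp only [not_not]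
    exact pb_top h e T
  filter_upwards [h1] with ω hω e T
  obtain ⟨n, hn⟩ := exists_nat_gt T
  have h2 := hω e n
  unfold cnt at h2
  rw [Set.encard_ne_top_iff] at h2
  refine h2.subset ?_
  refine Set.inter_subset_inter_right _ (Set.Ioc_subset_Ioc_right ?_)
  show T ≤ (n : ℝ) + 1
  linarith

theorem pb_simple_one (h : IsClockSystem P ξ ring) (e e' : Edge) (hne : e ≠ e') (T : ℕ) :
    P {ω | ∃ t : ℝ, 0 < t ∧ t ≤ (T : ℝ) + 1 ∧ t ∈ ring e ω ∧ t ∈ ring e' ω} = 0 := by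
  set s : ℝ := (T : ℝ) + 1 with hs
  have hs0 : 0 < s := by positivity
  have key : ∀ L : ℕ, P {ω | ∃ t : ℝ, 0 < t ∧ t ≤ s ∧ t ∈ ring e ω ∧ t ∈ ring e' ω} ≤
      ENNReal.ofReal (s ^ 2 / ((L : ℝ) + 1)) := by
    intro L
    have hL : (0 : ℝ) < (L : ℝ) + 1 := by positivity
    have hsub : {ω | ∃ t : ℝ, 0 < t ∧ t ≤ s ∧ t ∈ ring e ω ∧ t ∈ ring e' ω} ⊆
        ⋃ l ∈ Finset.range (L + 1),
          {ω | cnt ring (e, (l : ℝ) * (s / ((L : ℝ) + 1)), ((l : ℝ) + 1) * (s / ((L : ℝ) + 1))) ω ≠ 0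
            ∧ cnt ring (e', (l : ℝ) * (s / ((L : ℝ) + 1)),
              ((l : ℝ) + 1) * (s / ((L : ℝ) + 1))) ω ≠ 0} := by
      rintro ω ⟨t, ht0, hts, h1, h2⟩
      set q : ℝ := s / ((L : ℝ) + 1) with hq
      have hq0 : 0 < q := by positivity
      -- the slice of t
      set l : ℕ := ⌈t / q⌉₊ - 1 with hl
      have h3 : 0 < ⌈t / q⌉₊ := Nat.ceil_pos.2 (by positivity)
      have h4 : (l : ℝ) + 1 = (⌈t / q⌉₊ : ℝ) := by
        have : l + 1 = ⌈t / q⌉₊ := by omega
        exact_mod_cast this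
      have h5 : t ≤ ((l : ℝ) + 1) * q := by
        rw [h4]
        have := Nat.le_ceil (t / q)
        rwa [div_le_iff₀ hq0] at this
      have h6 : (l : ℝ) * q < t := by
        have h7 : (l : ℕ) < ⌈t / q⌉₊ := by omega
        have := Nat.lt_ceil.1 h7
        rwa [lt_div_iff₀ hq0] at this
      have h7 : l < L + 1 := by
        by_contra h8
        have h9 : (L : ℝ) + 1 ≤ l := by
          exact_mod_cast (by omega : L + 1 ≤ l)
        have h10 : ((L : ℝ) + 1) * q = s := by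
          rw [hq]
          field_simp
        have h11 : ((L : ℝ) + 1) * q ≤ l * q := mul_le_mul_of_nonneg_right h9 hq0.le
        linarith
      refine Set.mem_biUnion (x := l) (by simpa using h7) ?_
      have hmem : t ∈ Set.Ioc ((l : ℝ) * q) (((l : ℝ) + 1) * q) := ⟨h6, h5⟩
      constructor
      · intro h8
        unfold cnt at h8
        rw [Set.encard_eq_zero] at h8
        exact (Set.mem_empty_iff_false t).1 (h8 ▸ ⟨h1, hmem⟩)
      · intro h8
        unfold cnt at h8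
        rw [Set.encard_eq_zero] at h8
        exact (Set.mem_empty_iff_false t).1 (h8 ▸ ⟨h2, hmem⟩)
    refine (measure_mono hsub).trans ((measure_biUnion_finset_le _ _).trans ?_)
    refine (Finset.sum_le_sum (g := fun _ => ENNReal.ofReal ((s / ((L : ℝ) + 1)) ^ 2)) ?_).trans ?_
    · intro l _
      have hq0 : 0 < s / ((L : ℝ) + 1) := by positivity
      have := pb_pair h e e' hne ((l : ℝ) * (s / ((L : ℝ) + 1)))
        (((l : ℝ) + 1) * (s / ((L : ℝ) + 1))) (by positivity) (by nlinarith)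
      have h3 : ((l : ℝ) + 1) * (s / ((L : ℝ) + 1)) - (l : ℝ) * (s / ((L : ℝ) + 1)) =
          s / ((L : ℝ) + 1) := by ring
      rwa [h3] at this
    · rw [Finset.sum_const, Finset.card_range, nsmul_eq_mul, ← ENNReal.ofReal_natCast,
        ← ENNReal.ofReal_mul (by positivity)]
      refine ENNReal.ofReal_le_ofReal (le_of_eq ?_)
      push_cast
      field_simp
  refine le_antisymm ?_ zero_le
  have hlim : Filter.Tendsto (fun L : ℕ => ENNReal.ofReal (s ^ 2 / ((L : ℝ) + 1))) Filter.atTop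
      (nhds 0) := by
    rw [← ENNReal.ofReal_zero]
    refine ENNReal.tendsto_ofReal ?_
    have := tendsto_one_div_add_atTop_nhds_zero_nat (𝕜 := ℝ)
    have h2 := this.const_mul (s ^ 2)
    simpa [div_eq_mul_inv] using h2
  exact ge_of_tendsto' hlim key

theorem pb_simple (h : IsClockSystem P ξ ring) :
    ∀ᵐ ω ∂P, ∀ (e e' : Edge) (t : ℝ), 0 < t → t ∈ ring e ω → t ∈ ring e' ω → e = e' := by
  have h1 : ∀ᵐ ω ∂P, ∀ (e e' : Edge) (T : ℕ), e ≠ e' →
      ¬ ∃ t : ℝ, 0 < t ∧ t ≤ (T : ℝ) + 1 ∧ t ∈ ring e ω ∧ t ∈ ring e' ω := by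
    rw [ae_all_iff]
    intro e
    rw [ae_all_iff]
    intro e'
    rw [ae_all_iff]
    intro T
    by_cases hne : e = e'
    · exact Filter.Eventually.of_forall fun ω h2 => absurd hne h2
    · rw [ae_iff]
      refine measure_mono_null ?_ (pb_simple_one h e e' hne T)
      intro ω hω
      simp only [Set.mem_ofPred_eq, Classical.not_imp, not_not] at hω ⊢
      exact hω.2
  filter_upwards [h1] with ω hω e e' t ht h2 h3
  by_contra hne
  obtain ⟨n, hn⟩ := exists_nat_gt t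
  exact hω e e' n hne ⟨t, ht, by linarith, h2, h3⟩

theorem pb_reach_mono (rg : Edge → Set ℝ) {T T' : ℝ} (hT : T ≤ T') {x y : V}
    (h : Reach rg T x y) : Reach rg T' x y := by
  cases h with
  | refl => exact Reach.refl _ _
  | fwd _ t e _ h1 h2 h3 h4 => exact Reach.fwd T' t e _ h1 h2 (h3.trans_le hT) h4
  | bwd _ t e _ h1 h2 h3 h4 => exact Reach.bwd T' t e _ h1 h2 (h3.trans_le hT) h4

theorem pb_reach_one (hr : S_reachProb) (h : IsClockSystem P ξ ring) (T : ℕ) (x : V) :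
    P {ω | ¬ {y | Reach (fun e => ring e ω) T x y}.Finite} = 0 := by
  refine le_antisymm ?_ zero_le
  refine ENNReal.le_of_forall_pos_le_add ?_
  intro ε hε _
  rw [zero_add]
  obtain ⟨N0, hN0⟩ := hr 0 T ε (by exact_mod_cast hε)
  refine (measure_mono ?_).trans ((hN0 Ω P ξ ring h N0 x le_rfl).trans (by simp))
  intro ω hω
  simp only [Set.mem_ofPred_eq] at hω ⊢
  by_contra hc
  apply hω
  have hfin : (Ball x (5 * (N0 : ℤ))).Finite := by
    refine ((Set.finite_Icc (x.1 - 5 * N0) (x.1 + 5 * N0)).prod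
      (Set.finite_Icc (x.2 - 5 * N0) (x.2 + 5 * N0))).subset ?_
    rintro v ⟨h1, h2⟩
    rw [abs_le] at h1 h2
    simp only [Set.mem_prod, Set.mem_Icc]
    omega
  refine hfin.subset ?_
  intro y hy
  by_contra hy2
  refine hc ⟨x, ?_, y, hy2, hy⟩
  simp [Ball]

theorem pb_reach (hr : S_reachProb) (h : IsClockSystem P ξ ring) :
    ∀ᵐ ω ∂P, ∀ (T : ℝ) (x : V), {y | Reach (fun e => ring e ω) T x y}.Finite := by
  have h1 : ∀ᵐ ω ∂P, ∀ (T : ℕ) (x : V), {y | Reach (fun e => ring e ω) (T : ℝ) x y}.Finite := by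
    rw [ae_all_iff]
    intro T
    rw [ae_all_iff]
    intro x
    rw [ae_iff]
    exact pb_reach_one hr h T x
  filter_upwards [h1] with ω hω T x
  obtain ⟨n, hn⟩ := exists_nat_gt T
  exact (hω n x).subset fun y hy => pb_reach_mono _ hn.le hy

end Reg

theorem p_reg (hr : S_reachProb) : S_reg := by
  intro Ω _ P _ ξ ring h
  filter_upwards [pb_locFin h, pb_simple h, pb_reach hr h] with ω h1 h2 h3
  exact ⟨h1, h2, h3⟩

end TriX
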