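import Pool.Agent.EX.Spec4

/-! P2: on the good event the discretised process sees the same arms as the exclusion
process (project EX, helper92). -/

open MeasureTheory ProbabilityTheory

namespace TriX

/-- A site none of whose edges rings in `(a,b]` keeps its value on `[a,b]`. -/
theorem p2_const {ring : Edge → Set ℝ} {η : ℝ → V → Bool} (h : IsExclusion ring η) (v : V)
    {a b : ℝ} (ha : 0 ≤ a)
    (hno : ∀ e : Edge, v = e.1 ∨ v = tgt e → ∀ t ∈ Set.Ioc a b, t ∉ ring e)
    {s t : ℝ} (hs : s ∈ Set.Icc a b) (ht : t ∈ Set.Icc a b) : η s v = η t v := by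
  have hc : ContinuousOn (fun t => η t v) (Set.Icc a b) := by
    intro t ht
    have ht0 : 0 ≤ t := ha.trans ht.1
    rw [ContinuousWithinAt, nhds_discrete, Filter.tendsto_pure]
    obtain ⟨ε₁, hε₁, h₁⟩ := h.right_cont v t ht0
    rcases eq_or_lt_of_le ht.1 with hat | hat
    · rw [eventually_nhdsWithin_iff]
      filter_upwards [Iio_mem_nhds (show t < t + ε₁ by linarith)] with s hs hs'
      exact h₁ s ⟨by rw [← hat]; exact hs'.1, hs⟩
    · obtain ⟨ε₂, hε₂, h₂⟩ := h.keep v t (lt_of_le_of_lt ha hat)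
        (fun e he => hno e he t ⟨hat, ht.2⟩)
      rw [eventually_nhdsWithin_iff]
      filter_upwards [Iio_mem_nhds (show t < t + ε₁ by linarith),
        Ioi_mem_nhds (show t - ε₂ < t by linarith)] with s hs₁ hs₂ hs'
      rcases lt_or_ge s t with hst | hst
      · exact (h₂ s ⟨hs₂, hst⟩ (ha.trans hs'.1)).symm
      · exact h₁ s ⟨hst, hs₁⟩
  exact isPreconnected_Icc.constant hc hs ht

/-- If `e` rings at `t ∈ (a,b]` and no other ring touches the endpoints of `e` during `(a,b]`,
the two values are exchanged. -/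
theorem p2_swap {ring : Edge → Set ℝ} {η : ℝ → V → Bool} (h : IsExclusion ring η) (e : Edge)
    {a b t : ℝ} (ha : 0 ≤ a) (ht : t ∈ Set.Ioc a b) (hte : t ∈ ring e)
    (hno : ∀ e' : Edge, (e.1 = e'.1 ∨ e.1 = tgt e' ∨ tgt e = e'.1 ∨ tgt e = tgt e') →
      ∀ s ∈ Set.Ioc a b, s ∈ ring e' → s = t) :
    η b e.1 = η a (tgt e) ∧ η b (tgt e) = η a e.1 := by
  obtain ⟨ε, hε, hex⟩ := h.exchange e t (lt_of_le_of_lt ha ht.1) hte
  set s := max a (t - ε / 2) with hs
  have hs1 : a ≤ s := le_max_left _ _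
  have hs2 : s < t := max_lt ht.1 (by linarith)
  have hs3 : t - ε < s := lt_of_lt_of_le (by linarith) (le_max_right _ _)
  obtain ⟨h1, h2⟩ := hex s ⟨hs3, hs2⟩ (ha.trans hs1)
  have hb1 : η b e.1 = η t e.1 := p2_const h e.1 (a := t) (b := b) (ha.trans ht.1.le)
    (fun e' he' u hu hue => by
      have := hno e' (by tauto) u ⟨ht.1.trans hu.1, hu.2⟩ hue
      exact absurd this (ne_of_gt hu.1)) ⟨ht.2, le_rfl⟩ ⟨le_rfl, ht.2⟩
  have hb2 : η b (tgt e) = η t (tgt e) := p2_const h (tgt e) (a := t) (b := b)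
    (ha.trans ht.1.le)
    (fun e' he' u hu hue => by
      have := hno e' (by tauto) u ⟨ht.1.trans hu.1, hu.2⟩ hue
      exact absurd this (ne_of_gt hu.1)) ⟨ht.2, le_rfl⟩ ⟨le_rfl, ht.2⟩
  have ha1 : η s e.1 = η a e.1 := p2_const h e.1 (a := a) (b := s) ha
    (fun e' he' u hu hue => by
      have := hno e' (by tauto) u ⟨hu.1, hu.2.trans (hs2.le.trans ht.2)⟩ hue
      exact absurd this (ne_of_lt (lt_of_le_of_lt hu.2 hs2))) ⟨hs1, le_rfl⟩ ⟨le_rfl, hs1⟩
  have ha2 : η s (tgt e) = η a (tgt e) := p2_const h (tgt e) (a := a) (b := s) ha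
    (fun e' he' u hu hue => by
      have := hno e' (by tauto) u ⟨hu.1, hu.2.trans (hs2.le.trans ht.2)⟩ hue
      exact absurd this (ne_of_lt (lt_of_le_of_lt hu.2 hs2))) ⟨hs1, le_rfl⟩ ⟨le_rfl, hs1⟩
  exact ⟨by rw [hb1, h1, ha2], by rw [hb2, h2, ha1]⟩

theorem p2_dir_ne (i : Fin 3) : dir i ≠ 0 := by
  fin_cases i <;> simp [dir, Prod.ext_iff]

theorem p2_ne (e : Edge) : e.1 ≠ tgt e := by
  intro h
  have : dir e.2 = 0 := by
    have := h.symm
    simpa [tgt] using this
  exact p2_dir_ne _ this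

theorem p2_dir_abs (i : Fin 3) : |(dir i).1| ≤ 1 ∧ |(dir i).2| ≤ 1 := by
  fin_cases i <;> simp [dir]

/-- Every edge with an endpoint in `Ball x (5N+1)` belongs to `edgesIn x N`. -/
theorem p2_mem_edgesIn {x : V} {N : ℕ} {v : V} (hv : v ∈ Ball x (5 * N + 1)) {e : Edge}
    (he : v = e.1 ∨ v = tgt e) : e ∈ edgesIn x N := by
  obtain ⟨h1, h2⟩ := hv
  obtain ⟨d1, d2⟩ := p2_dir_abs e.2
  rw [abs_le] at h1 h2 d1 d2
  have key : e.1 ∈ Ball x (5 * N + 2) ∧ tgt e ∈ Ball x (5 * N + 2) := by
    rcases he with rfl | rfl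
    · refine ⟨⟨?_, ?_⟩, ⟨?_, ?_⟩⟩ <;> rw [abs_le] <;> (try simp only [tgt, Prod.fst_add, Prod.snd_add]) <;>
        constructor <;> linarith
    · simp only [tgt, Prod.fst_add, Prod.snd_add] at h1 h2
      refine ⟨⟨?_, ?_⟩, ⟨?_, ?_⟩⟩ <;> rw [abs_le] <;> (try simp only [tgt, Prod.fst_add, Prod.snd_add]) <;>
        constructor <;> linarith
  obtain ⟨⟨k1, k2⟩, k3⟩ := key
  rw [abs_le] at k1 k2
  simp only [edgesIn, Finset.mem_filter, Finset.mem_product, Finset.mem_Icc, Finset.mem_univ,
    and_true]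
  refine ⟨⟨⟨?_, ?_⟩, ?_, ?_⟩, k3⟩ <;> linarith

theorem p2_ball_step {x : V} {N : ℕ} {e : Edge} :
    (e.1 ∈ Ball x (5 * N) → tgt e ∈ Ball x (5 * N + 1)) ∧
    (tgt e ∈ Ball x (5 * N) → e.1 ∈ Ball x (5 * N + 1)) := by
  obtain ⟨d1, d2⟩ := p2_dir_abs e.2
  rw [abs_le] at d1 d2
  constructor
  · rintro ⟨h1, h2⟩
    rw [abs_le] at h1 h2
    constructor <;> rw [abs_le] <;> simp only [tgt, Prod.fst_add, Prod.snd_add] <;>
        constructor <;> linarith
  · rintro ⟨h1, h2⟩
    rw [abs_le] at h1 h2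
    simp only [tgt, Prod.fst_add, Prod.snd_add] at h1 h2
    constructor <;> rw [abs_le] <;> constructor <;> linarith

theorem p2_ball_mono {x : V} {N : ℕ} {v : V} (h : v ∈ Ball x (5 * N)) :
    v ∈ Ball x (5 * N + 1) := ⟨h.1.trans (by linarith), h.2.trans (by linarith)⟩

/-- If the total number of rings in the slice is at most one, then two rings coincide. -/
theorem p2_unique {ring : Edge → Set ℝ} {E : Finset Edge} {a b : ℝ}
    (hsum : ∑ e ∈ E, (ring e ∩ Set.Ioc a b).encard ≤ 1) {e e' : Edge} (he : e ∈ E)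
    (he' : e' ∈ E) {s t : ℝ} (hs : s ∈ Set.Ioc a b) (ht : t ∈ Set.Ioc a b) (hse : s ∈ ring e)
    (hte : t ∈ ring e') : e = e' ∧ s = t := by
  classical
  have hpos : ∀ (e : Edge) (s : ℝ), s ∈ Set.Ioc a b → s ∈ ring e →
      1 ≤ (ring e ∩ Set.Ioc a b).encard := fun e s hs hse => by
    rw [Set.one_le_encard_iff_nonempty]; exact ⟨s, hse, hs⟩
  have hee : e = e' := by
    by_contra hne
    have h1 := hpos e s hs hse
    have h2 := hpos e' t ht hte
    have h3 : (ring e ∩ Set.Ioc a b).encard + (ring e' ∩ Set.Ioc a b).encard ≤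
        ∑ e ∈ E, (ring e ∩ Set.Ioc a b).encard := by
      rw [← Finset.sum_pair (f := fun e => (ring e ∩ Set.Ioc a b).encard) hne]
      exact Finset.sum_le_sum_of_subset (by
        intro z hz; simp only [Finset.mem_insert, Finset.mem_singleton] at hz
        rcases hz with rfl | rfl <;> assumption)
    have h4 : (1 : ℕ∞) + 1 ≤ 1 := (add_le_add h1 h2).trans (h3.trans hsum)
    exact absurd h4 (by decide)
  subst hee
  refine ⟨rfl, ?_⟩
  have h1 : (ring e ∩ Set.Ioc a b).encard ≤ 1 :=
    (Finset.single_le_sum (f := fun e => (ring e ∩ Set.Ioc a b).encard)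
      (fun _ _ => zero_le) he).trans hsum
  rw [Set.encard_le_one_iff] at h1
  exact h1 s t ⟨hse, hs⟩ ⟨hte, ht⟩

/-- Main induction: agreement with the discretised process. -/
theorem p2_main {ring : Edge → Set ℝ} {η : ℝ → V → Bool} (hη : IsExclusion ring η) {x : V}
    {N m : ℕ} (hm : 1 ≤ m)
    (hsl : ∀ k : ℕ, k < m → ∑ e ∈ edgesIn x N,
      (ring e ∩ Set.Ioc ((k : ℝ) / m) (((k : ℝ) + 1) / m)).encard ≤ 1) :
    ∀ k : ℕ, k ≤ m → ∀ z : V, (∃ T : ℝ, (k : ℝ) / m < T ∧
      ∀ w, Reach ring T z w → w ∈ Ball x (5 * N)) →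
      (η ((k : ℝ) / m) z = true ↔ z ∈ discR {v | η 0 v = true} ring (edgesIn x N) m k) := by
  have hm0 : (0 : ℝ) < m := by exact_mod_cast hm
  intro k
  induction k with
  | zero => intro _ z _; simp [discR]
  | succ k ih =>
    rintro hk z ⟨T, hT, hreach⟩
    have hkm : k < m := hk
    have hcast : (((k + 1 : ℕ) : ℝ)) / m = ((k : ℝ) + 1) / m := by push_cast; ring
    rw [hcast] at hT ⊢
    have hlt : (k : ℝ) / m < ((k : ℝ) + 1) / m := by
      apply div_lt_div_of_pos_right _ hm0; linarith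
    have hk0 : (0 : ℝ) ≤ (k : ℝ) / m := by positivity
    have hzB : z ∈ Ball x (5 * N) := hreach z (Reach.refl T z)
    have ihz := ih hkm.le z ⟨T, hlt.trans hT, hreach⟩
    set a := (k : ℝ) / m with ha
    set b := ((k : ℝ) + 1) / m with hb
    set E := edgesIn x N with hE
    set B := discR {v | η 0 v = true} ring E m k with hB
    have hsum := hsl k hkm
    have hstep : z ∈ discR {v | η 0 v = true} ring E m (k + 1) ↔
        z ∈ stepC E (fun e => (ring e ∩ Set.Ioc a b).encard) B := Iff.rfl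
    rw [hstep]
    by_cases hcase : ∃ e ∈ E, ∃ t ∈ Set.Ioc a b, t ∈ ring e
    · obtain ⟨e, heE, t, ht, hte⟩ := hcase
      have huniq : ∀ e' ∈ E, ∀ s ∈ Set.Ioc a b, s ∈ ring e' → e' = e ∧ s = t :=
        fun e' he' s hs hse => p2_unique hsum he' heE hs ht hse hte
      have hone : OneRing E (fun e => (ring e ∩ Set.Ioc a b).encard) e := by
        refine ⟨heE, ?_, ?_⟩
        · rw [Set.encard_eq_one]
          refine ⟨t, Set.eq_singleton_iff_unique_mem.2 ⟨⟨hte, ht⟩, ?_⟩⟩
          rintro s ⟨hs1, hs2⟩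
          exact (huniq e heE s hs2 hs1).2
        · intro e' he' hne
          simp only [Set.encard_eq_zero]
          rw [Set.eq_empty_iff_forall_notMem]
          rintro s ⟨hs1, hs2⟩
          exact hne (huniq e' he' s hs2 hs1).1
      have honly : ∀ e', OneRing E (fun e => (ring e ∩ Set.Ioc a b).encard) e' → e' = e := by
        rintro e' ⟨he', h1, _⟩
        have h1' : (ring e' ∩ Set.Ioc a b).encard = 1 := h1
        obtain ⟨s, hs⟩ := Set.encard_eq_one.1 h1'
        have hs' : s ∈ ring e' ∩ Set.Ioc a b := by rw [hs]; exact rfl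
        exact (huniq e' he' s hs'.2 hs'.1).1
      have hmem : z ∈ stepC E (fun e => (ring e ∩ Set.Ioc a b).encard) B ↔
          Equiv.swap e.1 (tgt e) z ∈ B := by
        constructor
        · rintro (⟨e', he', hz⟩ | ⟨hno, _⟩)
          · rw [honly e' he'] at hz; exact hz
          · exact absurd hone (hno e)
        · intro hz; exact Or.inl ⟨e, hone, hz⟩
      rw [hmem]
      by_cases hz1 : z = e.1
      · subst hz1
        rw [Equiv.swap_apply_left]
        have hreach' : ∀ w, Reach ring t (tgt e) w → w ∈ Ball x (5 * N) := fun w hw =>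
          hreach w (Reach.fwd T t e w hte (lt_of_le_of_lt hk0 ht.1) (lt_of_le_of_lt ht.2 hT) hw)
        have ih' := ih hkm.le (tgt e) ⟨t, ht.1, hreach'⟩
        have htB : tgt e ∈ Ball x (5 * N) := hreach' _ (Reach.refl _ _)
        have hsw := (p2_swap hη e hk0 ht hte (fun e' he' s hs hse => by
          have : e' ∈ E := by
            rcases he' with h | h | h | h
            · exact p2_mem_edgesIn (p2_ball_mono hzB) (Or.inl h)
            · exact p2_mem_edgesIn (p2_ball_mono hzB) (Or.inr h)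
            · exact p2_mem_edgesIn (p2_ball_mono htB) (Or.inl h)
            · exact p2_mem_edgesIn (p2_ball_mono htB) (Or.inr h)
          exact (huniq e' this s hs hse).2)).1
        rw [hsw]; exact ih'
      · by_cases hz2 : z = tgt e
        · subst hz2
          rw [Equiv.swap_apply_right]
          have hreach' : ∀ w, Reach ring t e.1 w → w ∈ Ball x (5 * N) := fun w hw =>
            hreach w (Reach.bwd T t e w hte (lt_of_le_of_lt hk0 ht.1) (lt_of_le_of_lt ht.2 hT) hw)
          have ih' := ih hkm.le e.1 ⟨t, ht.1, hreach'⟩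
          have htB : e.1 ∈ Ball x (5 * N) := hreach' _ (Reach.refl _ _)
          have hsw := (p2_swap hη e hk0 ht hte (fun e' he' s hs hse => by
            have : e' ∈ E := by
              rcases he' with h | h | h | h
              · exact p2_mem_edgesIn (p2_ball_mono htB) (Or.inl h)
              · exact p2_mem_edgesIn (p2_ball_mono htB) (Or.inr h)
              · exact p2_mem_edgesIn (p2_ball_mono hzB) (Or.inl h)
              · exact p2_mem_edgesIn (p2_ball_mono hzB) (Or.inr h)
            exact (huniq e' this s hs hse).2)).2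
          rw [hsw]; exact ih'
        · rw [Equiv.swap_apply_of_ne_of_ne hz1 hz2, ← ihz]
          have : η b z = η a z := p2_const hη z hk0 (fun e' he' s hs hse => by
            have he'E : e' ∈ E := p2_mem_edgesIn (p2_ball_mono hzB) he'
            have := (huniq e' he'E s hs hse).1
            subst this
            rcases he' with h | h
            · exact hz1 h
            · exact hz2 h) ⟨hlt.le, le_rfl⟩ ⟨le_rfl, hlt.le⟩
          rw [this]
    · push Not at hcase
      have hmem : z ∈ stepC E (fun e => (ring e ∩ Set.Ioc a b).encard) B ↔ z ∈ B := by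
        have hno : ∀ e, ¬ OneRing E (fun e => (ring e ∩ Set.Ioc a b).encard) e := by
          rintro e ⟨he, h1, _⟩
          have h1' : (ring e ∩ Set.Ioc a b).encard = 1 := h1
          obtain ⟨s, hs⟩ := Set.encard_eq_one.1 h1'
          have hs' : s ∈ ring e ∩ Set.Ioc a b := by rw [hs]; exact rfl
          exact hcase e he s hs'.2 hs'.1
        constructor
        · rintro (⟨e, he, _⟩ | ⟨_, hz⟩)
          · exact absurd he (hno e)
          · exact hz
        · intro hz; exact Or.inr ⟨hno, hz⟩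
      rw [hmem, ← ihz]
      have : η b z = η a z := p2_const hη z hk0 (fun e' he' s hs hse =>
        hcase e' (p2_mem_edgesIn (p2_ball_mono hzB) he') s hs hse) ⟨hlt.le, le_rfl⟩
        ⟨le_rfl, hlt.le⟩
      rw [this]

theorem p_det (h1 : S_armBasic) : S_det := by
  intro ring η x N m R hη hm hR hsl hreach
  have hm0 : (0 : ℝ) < m := by exact_mod_cast hm
  have hdep : ∀ B B' : Set V, (∀ v ∈ Ball x R, v ∈ B ↔ v ∈ B') →
      (Arm x 0 R B ↔ Arm x 0 R B') := by
    intro B B' h
    have := (h1.1 x 0 R).2.1 B B' (by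
      ext v
      constructor
      · rintro ⟨hv, hv'⟩; exact ⟨(h v hv'.1).1 hv, hv'⟩
      · rintro ⟨hv, hv'⟩; exact ⟨(h v hv'.1).2 hv, hv'⟩)
    rw [this]
  have hagree : ∀ k : ℕ, k ≤ m → ∀ v ∈ Ball x R, (v ∈ {v | η ((k : ℝ) / m) v = true} ↔
      v ∈ discR {v | η 0 v = true} ring (edgesIn x N) m k) := by
    intro k hk v hv
    refine p2_main hη hm hsl k hk v ⟨2, ?_, hreach v hv⟩
    have : (k : ℝ) ≤ m := by exact_mod_cast hk
    have h2 : (k : ℝ) / m ≤ 1 := (div_le_one hm0).2 this
    linarith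
  constructor
  · rintro ⟨t, ht, harm⟩
    -- locate the slice
    rcases eq_or_lt_of_le ht.1 with h0 | h0
    · refine ⟨0, Nat.zero_le _, ?_⟩
      rw [← hdep _ _ (hagree 0 (Nat.zero_le _))]
      simpa [← h0] using harm
    · obtain ⟨k, hk1, hk2⟩ : ∃ k : ℕ, (k : ℝ) / m < t ∧ t ≤ ((k : ℝ) + 1) / m := by
        have hpos : 0 < t * m := by positivity
        refine ⟨⌈t * m⌉₊ - 1, ?_, ?_⟩
        · rw [div_lt_iff₀ hm0]
          have hc : 0 < ⌈t * m⌉₊ := Nat.ceil_pos.2 hpos
          have : ((⌈t * m⌉₊ - 1 : ℕ) : ℝ) = (⌈t * m⌉₊ : ℝ) - 1 := by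
            rw [Nat.cast_sub hc, Nat.cast_one]
          rw [this]
          have := Nat.ceil_lt_add_one hpos.le
          linarith
        · rw [le_div_iff₀ hm0]
          have hc : 0 < ⌈t * m⌉₊ := Nat.ceil_pos.2 hpos
          have : ((⌈t * m⌉₊ - 1 : ℕ) : ℝ) = (⌈t * m⌉₊ : ℝ) - 1 := by
            rw [Nat.cast_sub hc, Nat.cast_one]
          rw [this]
          have := Nat.le_ceil (t * m)
          linarith
      have hkm : k < m := by
        have : (k : ℝ) / m < 1 := lt_of_lt_of_le hk1 ht.2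
        rw [div_lt_one hm0] at this
        exact_mod_cast this
      have hk0 : (0 : ℝ) ≤ (k : ℝ) / m := by positivity
      have hball : ∀ v ∈ Ball x R, v ∈ Ball x (5 * N + 1) := fun v hv =>
        p2_ball_mono (hreach v hv v (Reach.refl 2 v))
      have hsum := hsl k hkm
      by_cases hcase : ∃ e ∈ edgesIn x N, ∃ s ∈ Set.Ioc ((k : ℝ) / m) t, s ∈ ring e
      · obtain ⟨e, heE, s, hs, hse⟩ := hcase
        refine ⟨k + 1, hkm, ?_⟩
        rw [← hdep _ _ (hagree (k + 1) hkm)]
        have hcast : (((k + 1 : ℕ) : ℝ)) / m = ((k : ℝ) + 1) / m := by push_cast; ring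
        rw [hcast]
        rw [hdep _ {v | η t v = true}]
        · exact harm
        · intro v hv
          have : η (((k : ℝ) + 1) / m) v = η t v :=
            p2_const hη v (a := t) (b := ((k : ℝ) + 1) / m) h0.le (fun e' he' u hu hue => by
              have he'E := p2_mem_edgesIn (hball v hv) he'
              have := (p2_unique hsum heE he'E ⟨hs.1, hs.2.trans hk2⟩
                ⟨hk1.trans hu.1, hu.2⟩ hse hue).2
              have h1 := hs.2
              have h2 := hu.1
              linarith) ⟨hk2, le_rfl⟩ ⟨le_rfl, hk2⟩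
          simp only [Set.mem_ofPred_eq, this]
      · push Not at hcase
        refine ⟨k, hkm.le, ?_⟩
        rw [← hdep _ _ (hagree k hkm.le)]
        rw [hdep _ {v | η t v = true}]
        · exact harm
        · intro v hv
          have : η ((k : ℝ) / m) v = η t v :=
            p2_const hη v (a := (k : ℝ) / m) (b := t) hk0 (fun e' he' u hu hue =>
              hcase e' (p2_mem_edgesIn (hball v hv) he') u hu hue) ⟨le_rfl, hk1.le⟩
              ⟨hk1.le, le_rfl⟩
          simp only [Set.mem_ofPred_eq, this]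
  · rintro ⟨k, hk, harm⟩
    refine ⟨(k : ℝ) / m, ⟨by positivity, ?_⟩, ?_⟩
    · have : (k : ℝ) ≤ m := by exact_mod_cast hk
      exact (div_le_one hm0).2 this
    · rw [hdep _ _ (hagree k hk)]; exact harm

end TriX
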