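import Pool.Agent.EX.Spec4

/-! Module P3 of the project EX (problem MP_68260e): two-time laws of the discretised process. -/

open MeasureTheory ProbabilityTheory

namespace TriX

namespace P3

local instance instMO : MeasurableSpace (Option Edge) := ⊤
local instance instDO : DiscreteMeasurableSpace (Option Edge) := ⟨fun _ => trivial⟩

/-- The action of a swap on configurations. -/
def act : Option Edge → (V → Bool) → (V → Bool)
  | none, η => η
  | some e, η => fun v => η (Equiv.swap e.1 (tgt e) v)

theorem bl_act_some (e : Edge) (η : V → Bool) : bl (act (some e) η) = swapSet e (bl η) := rfl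

/-- Successive swaps. -/
def run (x : ℕ → Option Edge) : ℕ → (V → Bool) → (V → Bool)
  | 0, η => η
  | n + 1, η => act (x n) (run x n η)

theorem run_add (x : ℕ → Option Edge) (j n : ℕ) (η : V → Bool) :
    run x (j + n) η = run (fun i => x (j + i)) n (run x j η) := by
  induction n with
  | zero => rfl
  | succ n ih =>
    show act (x (j + n)) (run x (j + n) η) = act (x (j + n)) (run (fun i => x (j + i)) n (run x j η))
    rw [ih]

theorem run_perm (x : ℕ → Option Edge) (n : ℕ) :
    ∃ σ : V ≃ V, ∀ η : V → Bool, run x n η = fun v => η (σ v) := by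
  induction n with
  | zero => exact ⟨Equiv.refl V, fun η => rfl⟩
  | succ n ih =>
    obtain ⟨σ, hσ⟩ := ih
    cases hx : x n with
    | none =>
      refine ⟨σ, fun η => ?_⟩
      show act (x n) (run x n η) = _
      rw [hx, hσ]
      rfl
    | some e =>
      refine ⟨(Equiv.swap e.1 (tgt e)).trans σ, fun η => ?_⟩
      show act (x n) (run x n η) = _
      rw [hx, hσ]
      rfl

theorem fair_perm (σ : V ≃ V) : (fair V).map (fun (η : V → Bool) v => η (σ v)) = fair V := by
  classical
  have hmeas : Measurable (fun (η : V → Bool) (v : V) => η (σ v)) :=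
    measurable_pi_lambda _ fun w => measurable_pi_apply _
  unfold fair
  refine Measure.eq_infinitePi (μ := fun _ : V => (PMF.uniformOfFintype Bool).toMeasure) ?_
  intro s t ht
  rw [Measure.map_apply hmeas (MeasurableSet.pi s.countable_toSet fun w _ => ht w)]
  have h1 : (fun (η : V → Bool) (v : V) => η (σ v)) ⁻¹' (Set.pi (s : Set V) t) =
      Set.pi ((s.image σ : Finset V) : Set V) (fun w => t (σ.symm w)) := by
    ext ω
    simp only [Set.mem_preimage, Set.mem_pi, Finset.mem_coe, Finset.mem_image]
    constructor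
    · rintro h w ⟨w', hw', rfl⟩
      rw [Equiv.symm_apply_apply]
      exact h w' hw'
    · intro h w hw
      have := h (σ w) ⟨w, hw, rfl⟩
      rwa [Equiv.symm_apply_apply] at this
  rw [h1, Measure.infinitePi_pi _ (fun w _ => (Set.toFinite _).measurableSet)]
  rw [Finset.prod_image (fun a _ b _ h => σ.injective h)]
  refine Finset.prod_congr rfl fun w _ => ?_
  rw [Equiv.symm_apply_apply]

/-! ### Local functions -/

theorem loc_meas {G : Set V → ℝ} (hG : Loc G) : Measurable (fun η : V → Bool => G (bl η)) := by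
  obtain ⟨S, hS⟩ := hG
  have h1 : (fun η : V → Bool => G (bl η)) =
      (fun t : S → Bool => G {w | ∃ h : w ∈ S, t ⟨w, h⟩ = true}) ∘ S.restrict := by
    funext η
    refine hS _ _ ?_
    ext w
    constructor
    · rintro ⟨h1, h2⟩
      exact ⟨⟨h2, h1⟩, h2⟩
    · rintro ⟨⟨_, h1⟩, h2⟩
      exact ⟨h1, h2⟩
  rw [h1]
  exact Measurable.of_discrete.comp (Finset.measurable_restrict S)

theorem loc_bdd {G : Set V → ℝ} (hG : Loc G) : ∃ C : ℝ, 0 ≤ C ∧ ∀ B, |G B| ≤ C := by
  classical
  obtain ⟨S, hS⟩ := hG
  refine ⟨∑ A ∈ S.powerset, |G (A : Set V)|, Finset.sum_nonneg fun _ _ => abs_nonneg _,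
    fun B => ?_⟩
  have h1 : G B = G ((S.filter (fun v => v ∈ B) : Finset V) : Set V) := by
    refine hS _ _ ?_
    ext w
    simp only [Set.mem_inter_iff, Finset.mem_coe, Finset.mem_filter]
    tauto
  rw [h1]
  exact Finset.single_le_sum (f := fun A : Finset V => |G (A : Set V)|)
    (fun _ _ => abs_nonneg _) (Finset.mem_powerset.2 (Finset.filter_subset _ _))

theorem loc_step {G : Set V → ℝ} (hG : Loc G) (E : Finset Edge) (p : ℝ) : Loc (stepV E p G) := by
  classical
  obtain ⟨S, hS⟩ := hG
  refine ⟨S ∪ E.biUnion (fun e => S.image (Equiv.swap e.1 (tgt e))), ?_⟩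
  intro B B' hB
  have h0 : ∀ v, v ∈ S ∪ E.biUnion (fun e => S.image (Equiv.swap e.1 (tgt e))) →
      (v ∈ B ↔ v ∈ B') := by
    intro v hv
    have := Set.ext_iff.1 hB v
    simp only [Set.mem_inter_iff, Finset.mem_coe] at this
    constructor
    · intro h
      exact (this.1 ⟨h, hv⟩).1
    · intro h
      exact (this.2 ⟨h, hv⟩).1
  have h1 : G B = G B' := by
    refine hS _ _ ?_
    ext v
    simp only [Set.mem_inter_iff, Finset.mem_coe]
    constructor
    · rintro ⟨h1, h2⟩
      exact ⟨(h0 v (Finset.mem_union_left _ h2)).1 h1, h2⟩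
    · rintro ⟨h1, h2⟩
      exact ⟨(h0 v (Finset.mem_union_left _ h2)).2 h1, h2⟩
  have h2 : ∀ e ∈ E, G (swapSet e B) = G (swapSet e B') := by
    intro e he
    refine hS _ _ ?_
    ext v
    simp only [Set.mem_inter_iff, Finset.mem_coe, swapSet, Set.mem_ofPred_eq]
    constructor
    · rintro ⟨h1, h2⟩
      exact ⟨(h0 _ (Finset.mem_union_right _ (Finset.mem_biUnion.2
        ⟨e, he, Finset.mem_image_of_mem _ h2⟩))).1 h1, h2⟩
    · rintro ⟨h1, h2⟩
      exact ⟨(h0 _ (Finset.mem_union_right _ (Finset.mem_biUnion.2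
        ⟨e, he, Finset.mem_image_of_mem _ h2⟩))).2 h1, h2⟩
  unfold stepV
  rw [h1, Finset.sum_congr rfl fun e he => by rw [h2 e he]]

/-! ### Measurability of the runs -/

theorem act_meas : Measurable (fun q : Option Edge × (V → Bool) => act q.1 q.2) := by
  refine measurable_from_prod_countable_right fun x => ?_
  cases x with
  | none => exact measurable_id
  | some e => exact measurable_pi_lambda _ fun w => measurable_pi_apply _

theorem run_meas (n : ℕ) :
    Measurable (fun q : (ℕ → Option Edge) × (V → Bool) => run q.1 n q.2) := by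
  induction n with
  | zero => exact measurable_snd
  | succ n ih =>
    have h1 : Measurable (fun q : (ℕ → Option Edge) × (V → Bool) => (q.1 n, run q.1 n q.2)) :=
      ((measurable_pi_apply n).comp measurable_fst).prodMk ih
    exact act_meas.comp h1

/-! ### The swap in a time slice -/

open Classical in
/-- The edge to be swapped, given the numbers of rings. -/
noncomputable def pick (E : Finset Edge) (t : E → ℕ∞) : Option Edge :=
  if h : ∃ e : E, t e = 1 ∧ ∀ e' : E, e' ≠ e → t e' = 0 then some (h.choose : Edge) else none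

theorem pick_some (E : Finset Edge) (t : E → ℕ∞) (e : Edge) :
    pick E t = some e ↔ ∃ he : e ∈ E, t ⟨e, he⟩ = 1 ∧ ∀ e' : E, e' ≠ ⟨e, he⟩ → t e' = 0 := by
  unfold pick
  split_ifs with h
  · have h1 := h.choose_spec
    constructor
    · intro h2
      have h3 := Option.some.inj h2
      have h4 : h.choose = ⟨e, h3 ▸ h.choose.2⟩ := Subtype.ext h3
      refine ⟨h3 ▸ h.choose.2, ?_⟩
      rw [← h4]
      exact h1
    · rintro ⟨he, h2, h3⟩
      by_cases h4 : h.choose = ⟨e, he⟩
      · rw [h4]
      · have h5 := h3 _ h4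
        rw [h1.1] at h5
        exact absurd h5 (by simp)
  · constructor
    · intro h2
      exact absurd h2 (by simp)
    · rintro ⟨he, h2, h3⟩
      exact absurd ⟨⟨e, he⟩, h2, h3⟩ h

theorem pick_none (E : Finset Edge) (t : E → ℕ∞) (h : pick E t = none) :
    ¬ ∃ e : E, t e = 1 ∧ ∀ e' : E, e' ≠ e → t e' = 0 := by
  unfold pick at h
  split_ifs at h with h1
  exact h1

theorem step_pick (E : Finset Edge) (c : Edge → ℕ∞) (η : V → Bool) :
    stepC E c (bl η) = bl (act (pick E (fun e => c e)) η) := by
  cases hp : pick E (fun e => c e) with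
  | none =>
    have h1 := pick_none _ _ hp
    have h2 : ∀ e, ¬ OneRing E c e := by
      rintro e ⟨h3, h4, h5⟩
      exact h1 ⟨⟨e, h3⟩, h4, fun e' he' => h5 e' e'.2 (fun h6 => he' (Subtype.ext h6))⟩
    ext v
    simp only [stepC, Set.mem_ofPred_eq]
    constructor
    · rintro (⟨e, h3, _⟩ | ⟨_, h3⟩)
      · exact absurd h3 (h2 e)
      · exact h3
    · intro h3
      exact Or.inr ⟨h2, h3⟩
  | some e =>
    obtain ⟨he, h1, h2⟩ := (pick_some _ _ _).1 hp
    have h3 : OneRing E c e := ⟨he, h1, fun e' he' h4 => h2 ⟨e', he'⟩ (fun h5 => h4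
      (congrArg Subtype.val h5))⟩
    have h4 : ∀ e', OneRing E c e' → e' = e := by
      intro e' h5
      by_contra h6
      have h7 := h3.2.2 e' h5.1 h6
      rw [h5.2.1] at h7
      exact absurd h7 (by simp)
    rw [bl_act_some]
    ext v
    simp only [stepC, Set.mem_ofPred_eq]
    constructor
    · rintro (⟨e', h5, h6⟩ | ⟨h5, _⟩)
      · rw [h4 e' h5] at h6
        exact h6
      · exact absurd h3 (h5 e)
    · intro h5
      exact Or.inl ⟨e, h3, h5⟩

section
variable {Ω : Type}

/-- The number of rings of the edge `p.2` in the slice number `p.1`. -/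
noncomputable def cc (ring : Edge → Ω → Set ℝ) (m : ℕ) (p : ℕ × Edge) : Ω → ℕ∞ :=
  cnt ring (p.2, (p.1 : ℝ) / m, ((p.1 : ℝ) + 1) / m)

/-- The swap in the slice number `l`. -/
noncomputable def X (ring : Edge → Ω → Set ℝ) (E : Finset Edge) (m l : ℕ) (ω : Ω) :
    Option Edge := pick E (fun e => cc ring m (l, e) ω)

theorem disc_eq (ξ : V → Ω → Bool) (ring : Edge → Ω → Set ℝ) (E : Finset Edge) (m k : ℕ)
    (ω : Ω) : disc ξ ring E m k ω =
      bl (run (fun l => X ring E m l ω) k (fun v => ξ v ω)) := by
  induction k with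
  | zero => rfl
  | succ k ih =>
    show stepC E (fun e => (ring e ω ∩ Set.Ioc ((k : ℝ) / m) (((k : ℝ) + 1) / m)).encard)
      (disc ξ ring E m k ω) = _
    rw [ih, step_pick]
    rfl

variable [MeasurableSpace Ω] {P : Measure Ω} [IsProbabilityMeasure P]
  {ξ : V → Ω → Bool} {ring : Edge → Ω → Set ℝ}

theorem indep_cc (h : IsClockSystem P ξ ring) (m : ℕ) (hm : 1 ≤ m) :
    iIndepFun (cc ring m) P := by
  rw [iIndepFun_iff_finset]
  intro s
  refine iIndepFun.of_precomp (g := s.equivFin.symm) s.equivFin.symm.surjective ?_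
  have hm0 : (0 : ℝ) < m := by exact_mod_cast hm
  refine h.indep_cells s.card (fun i => ((s.equivFin.symm i).1.2,
    ((s.equivFin.symm i).1.1 : ℝ) / m, (((s.equivFin.symm i).1.1 : ℝ) + 1) / m)) ?_ ?_
  · intro i
    positivity
  · intro i j hij
    by_cases h1 : (s.equivFin.symm i).1.2 = (s.equivFin.symm j).1.2
    · right
      have h2 : (s.equivFin.symm i).1.1 ≠ (s.equivFin.symm j).1.1 := by
        intro h3
        apply hij
        apply s.equivFin.symm.injective
        exact Subtype.ext (Prod.ext h3 h1)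
      rw [Set.disjoint_left]
      rintro t ⟨h3, h4⟩ ⟨h5, h6⟩
      simp only at h3 h4 h5 h6
      rw [div_lt_iff₀ hm0] at h3 h5
      rw [le_div_iff₀ hm0] at h4 h6
      have h7 : ((s.equivFin.symm i).1.1 : ℝ) < (s.equivFin.symm j).1.1 + 1 := by linarith
      have h8 : ((s.equivFin.symm j).1.1 : ℝ) < (s.equivFin.symm i).1.1 + 1 := by linarith
      have h9 : (s.equivFin.symm i).1.1 < (s.equivFin.symm j).1.1 + 1 := by exact_mod_cast h7
      have h10 : (s.equivFin.symm j).1.1 < (s.equivFin.symm i).1.1 + 1 := by exact_mod_cast h8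
      omega
    · left
      exact h1

/-- The information in the cells of `S`. -/
@[instance_reducible]
noncomputable def sg (ring : Edge → Ω → Set ℝ) (m : ℕ) (S : Set (ℕ × Edge)) :
    MeasurableSpace Ω := ⨆ p ∈ S, MeasurableSpace.comap (cc ring m p) inferInstance

theorem sg_mono {m : ℕ} {S T : Set (ℕ × Edge)} (h : S ⊆ T) : sg ring m S ≤ sg ring m T :=
  biSup_mono h

theorem cc_meas {m : ℕ} {S : Set (ℕ × Edge)} {p : ℕ × Edge} (hp : p ∈ S) :
    Measurable[sg ring m S] (cc ring m p) := by
  have h1 : MeasurableSpace.comap (cc ring m p) inferInstance ≤ sg ring m S :=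
    le_biSup (fun p => MeasurableSpace.comap (cc ring m p) inferInstance) hp
  exact (comap_measurable (cc ring m p)).mono h1 le_rfl

theorem X_meas (E : Finset Edge) (m l : ℕ) {S : Set (ℕ × Edge)} (hS : ∀ e, (l, e) ∈ S) :
    Measurable[sg ring m S] (X ring E m l) := by
  have h1 : Measurable[sg ring m S] (fun ω => fun e : E => cc ring m (l, (e : Edge)) ω) :=
    @measurable_pi_lambda _ _ _ (sg ring m S) _ _ fun e => cc_meas (hS e)
  exact (Measurable.of_discrete (f := pick E)).comp h1

theorem run_meas' (E : Finset Edge) (m j n : ℕ) (η : V → Bool) {S : Set (ℕ × Edge)}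
    (hS : ∀ i e, i < j + n → (i, e) ∈ S) :
    Measurable[sg ring m S] (fun ω => run (fun i => X ring E m (j + i) ω) n η) := by
  induction n with
  | zero => exact @measurable_const _ _ _ (sg ring m S) _
  | succ n ih =>
    have h1 := ih (fun i e hi => hS i e (by omega))
    have h2 : Measurable[sg ring m S] (fun ω => (X ring E m (j + n) ω,
        run (fun i => X ring E m (j + i) ω) n η)) :=
      (X_meas E m (j + n) (fun e => hS _ e (by omega))).prodMk h1
    exact act_meas.comp h2

theorem sg_le (h : IsClockSystem P ξ ring) (m : ℕ) (S : Set (ℕ × Edge)) :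
    sg ring m S ≤ ‹MeasurableSpace Ω› :=
  iSup₂_le fun _ _ => (h.meas_cnt _).comap_le

theorem sg_indep (h : IsClockSystem P ξ ring) (m : ℕ) (hm : 1 ≤ m) {S T : Set (ℕ × Edge)}
    (hST : Disjoint S T) : Indep (sg ring m S) (sg ring m T) P :=
  indep_iSup_of_disjoint (fun _ => (h.meas_cnt _).comap_le) (indep_cc h m hm).iIndep hST

/-- The probability that the swap of `e` is made. -/
theorem prob_X (h : IsClockSystem P ξ ring) (E : Finset Edge) (m l : ℕ) (hm : 1 ≤ m)
    (e : Edge) (he : e ∈ E) :
    P.real {ω | X ring E m l ω = some e} = Real.exp (-(E.card / m : ℝ)) / m := by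
  classical
  have hm0 : (0 : ℝ) < m := by exact_mod_cast hm
  have h1 : {ω | X ring E m l ω = some e} =
      ⋂ e' : E, {ω | cc ring m (l, (e' : Edge)) ω = if e' = ⟨e, he⟩ then ((1 : ℕ) : ℕ∞) else
        ((0 : ℕ) : ℕ∞)} := by
    ext ω
    simp only [Set.mem_ofPred_eq, Set.mem_iInter, X]
    rw [pick_some]
    constructor
    · rintro ⟨_, h2, h3⟩ e'
      split_ifs with h4
      · rw [h4, h2]; simp
      · rw [h3 e' h4]; simp
    · intro h2
      refine ⟨he, ?_, fun e' he' => ?_⟩
      · have := h2 ⟨e, he⟩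
        rw [if_pos rfl] at this
        simpa using this
      · have := h2 e'
        rw [if_neg he'] at this
        simpa using this
  have hind : iIndepFun (fun e' : E => cc ring m (l, (e' : Edge))) P :=
    (indep_cc h m hm).precomp (g := fun e' : E => (l, (e' : Edge)))
      (fun a b hab => Subtype.ext (Prod.ext_iff.1 hab).2)
  have h2 : P (⋂ e' : E, {ω | cc ring m (l, (e' : Edge)) ω = if e' = ⟨e, he⟩ then ((1 : ℕ) : ℕ∞) else
        ((0 : ℕ) : ℕ∞)}) = ∏ e' : E, P {ω | cc ring m (l, (e' : Edge)) ω =
          if e' = ⟨e, he⟩ then ((1 : ℕ) : ℕ∞) else ((0 : ℕ) : ℕ∞)} := by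
    refine hind.meas_iInter fun e' => ?_
    exact ⟨{if e' = ⟨e, he⟩ then ((1 : ℕ) : ℕ∞) else ((0 : ℕ) : ℕ∞)}, measurableSet_singleton _, rfl⟩
  have hlt : ((l : ℝ)) / m < ((l : ℝ) + 1) / m := by
    apply div_lt_div_of_pos_right _ hm0
    linarith
  have hdiff : ((l : ℝ) + 1) / m - (l : ℝ) / m = 1 / m := by ring
  have h3 : ∀ e' : E, P.real {ω | cc ring m (l, (e' : Edge)) ω =
      if e' = ⟨e, he⟩ then ((1 : ℕ) : ℕ∞) else ((0 : ℕ) : ℕ∞)} =
      Real.exp (-(1 / m : ℝ)) * (if e' = ⟨e, he⟩ then (1 / m : ℝ) else 1) := by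
    intro e'
    rw [measureReal_def]
    by_cases h4 : e' = ⟨e, he⟩
    · rw [if_pos h4, if_pos h4]
      have h5 := h.poisson e' ((l : ℝ) / m) (((l : ℝ) + 1) / m) (by positivity) hlt 1
      have h6 : P {ω | cc ring m (l, (e' : Edge)) ω = ((1 : ℕ) : ℕ∞)} =
        ENNReal.ofReal (Real.exp (-(((l : ℝ) + 1) / m - (l : ℝ) / m)) *
          (((l : ℝ) + 1) / m - (l : ℝ) / m) ^ 1 / (Nat.factorial 1 : ℕ)) := h5
      rw [h6, hdiff, ENNReal.toReal_ofReal (by positivity)]
      simp
    · rw [if_neg h4, if_neg h4]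
      have h5 := h.poisson e' ((l : ℝ) / m) (((l : ℝ) + 1) / m) (by positivity) hlt 0
      have h6 : P {ω | cc ring m (l, (e' : Edge)) ω = ((0 : ℕ) : ℕ∞)} =
        ENNReal.ofReal (Real.exp (-(((l : ℝ) + 1) / m - (l : ℝ) / m)) *
          (((l : ℝ) + 1) / m - (l : ℝ) / m) ^ 0 / (Nat.factorial 0 : ℕ)) := h5
      rw [h6, hdiff, ENNReal.toReal_ofReal (by positivity)]
      simp
  rw [h1, measureReal_def, h2, ENNReal.toReal_prod]
  have h4 : ∀ e' : E, (P {ω | cc ring m (l, (e' : Edge)) ω =
      if e' = ⟨e, he⟩ then ((1 : ℕ) : ℕ∞) else ((0 : ℕ) : ℕ∞)}).toReal =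
      Real.exp (-(1 / m : ℝ)) * (if e' = ⟨e, he⟩ then (1 / m : ℝ) else 1) := h3
  rw [Finset.prod_congr rfl fun e' _ => h4 e', Finset.prod_mul_distrib, Finset.prod_const,
    Finset.card_univ, Fintype.card_coe, ← Real.exp_nat_mul, Finset.prod_ite_eq' ]
  simp only [Finset.mem_univ, if_true]
  rw [show (E.card : ℝ) * -(1 / m : ℝ) = -(E.card / m : ℝ) by ring]
  ring

/-- Bounded measurable functions are integrable. -/
theorem int_bdd {Ω' : Type} [MeasurableSpace Ω'] {μ : Measure Ω'} [IsFiniteMeasure μ]
    {f : Ω' → ℝ} (hf : Measurable f) {C : ℝ} (hC : ∀ ω, |f ω| ≤ C) : Integrable f μ :=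
  Integrable.of_bound hf.aestronglyMeasurable C (Filter.Eventually.of_forall hC)

theorem one_step (h : IsClockSystem P ξ ring) (E : Finset Edge) (m : ℕ) (hm : 1 ≤ m) (j n : ℕ)
    {G : Set V → ℝ} (hG : Loc G) (η : V → Bool) :
    ∫ ω, G (bl (run (fun i => X ring E m (j + i) ω) (n + 1) η)) ∂P =
      ∫ ω, stepV E (Real.exp (-(E.card / m : ℝ)) / m) G
        (bl (run (fun i => X ring E m (j + i) ω) n η)) ∂P := by
  classical
  set S : Set (ℕ × Edge) := {p | p.1 < j + n} with hS
  set T : Set (ℕ × Edge) := {p | p.1 = j + n} with hT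
  obtain ⟨C, hC0, hC⟩ := loc_bdd hG
  have hR : Measurable[sg ring m S] (fun ω => run (fun i => X ring E m (j + i) ω) n η) :=
    run_meas' E m j n η (fun i e hi => hi)
  have hXm : Measurable[sg ring m T] (X ring E m (j + n)) := X_meas E m (j + n) (fun e => rfl)
  have hRm := hR.mono (sg_le h m S) le_rfl
  have hXm' := hXm.mono (sg_le h m T) le_rfl
  have hgm : Measurable (fun η : V → Bool => G (bl η)) := loc_meas hG
  have hge : ∀ e : Edge, Measurable (fun η : V → Bool => G (swapSet e (bl η))) := by
    intro e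
    have h1 : Measurable (fun η : V → Bool => act (some e) η) :=
      measurable_pi_lambda _ fun w => measurable_pi_apply _
    exact hgm.comp h1
  -- pointwise decomposition
  have hpt : ∀ ω, G (bl (run (fun i => X ring E m (j + i) ω) (n + 1) η)) =
      G (bl (run (fun i => X ring E m (j + i) ω) n η)) +
      ∑ e ∈ E, (if X ring E m (j + n) ω = some e then (1 : ℝ) else 0) *
        (G (swapSet e (bl (run (fun i => X ring E m (j + i) ω) n η))) -
          G (bl (run (fun i => X ring E m (j + i) ω) n η))) := by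
    intro ω
    show G (bl (act (X ring E m (j + n) ω) (run (fun i => X ring E m (j + i) ω) n η))) = _
    cases hx : X ring E m (j + n) ω with
    | none =>
      rw [Finset.sum_eq_zero (fun e _ => by simp)]
      rw [add_zero]
      rfl
    | some e =>
      have he : e ∈ E := ((pick_some _ _ _).1 hx).1
      rw [Finset.sum_eq_single_of_mem e he (fun e' _ h' => by
        rw [if_neg (fun h'' => h' (Option.some.inj h'').symm), zero_mul])]
      rw [if_pos rfl, one_mul, bl_act_some]
      ring
  have hind : ∀ e ∈ E, ∫ ω, (if X ring E m (j + n) ω = some e then (1 : ℝ) else 0) *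
        (G (swapSet e (bl (run (fun i => X ring E m (j + i) ω) n η))) -
          G (bl (run (fun i => X ring E m (j + i) ω) n η))) ∂P =
      Real.exp (-(E.card / m : ℝ)) / m *
        ∫ ω, (G (swapSet e (bl (run (fun i => X ring E m (j + i) ω) n η))) -
          G (bl (run (fun i => X ring E m (j + i) ω) n η))) ∂P := by
    intro e he
    have h1 : Measurable[sg ring m T]
        (fun ω => if X ring E m (j + n) ω = some e then (1 : ℝ) else 0) :=
      (Measurable.of_discrete (f := fun o : Option Edge => if o = some e then (1 : ℝ) else 0)).comp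
        hXm
    have h2 : Measurable[sg ring m S] (fun ω =>
        G (swapSet e (bl (run (fun i => X ring E m (j + i) ω) n η))) -
          G (bl (run (fun i => X ring E m (j + i) ω) n η))) :=
      ((hge e).sub hgm).comp hR
    have h3 : IndepFun (fun ω => if X ring E m (j + n) ω = some e then (1 : ℝ) else 0)
        (fun ω => G (swapSet e (bl (run (fun i => X ring E m (j + i) ω) n η))) -
          G (bl (run (fun i => X ring E m (j + i) ω) n η))) P := by
      have h4 : Disjoint T S := by
        rw [Set.disjoint_left]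
        intro p hp hp'
        have h5 : p.1 = j + n := hp
        have h6 : p.1 < j + n := hp'
        omega
      exact indep_of_indep_of_le_left (indep_of_indep_of_le_right (sg_indep h m hm h4)
        h2.comap_le) h1.comap_le
    have h4 := h3.integral_mul_eq_mul_integral
      (h1.mono (sg_le h m T) le_rfl).aestronglyMeasurable
      (h2.mono (sg_le h m S) le_rfl).aestronglyMeasurable
    have h5 : ∫ ω, (if X ring E m (j + n) ω = some e then (1 : ℝ) else 0) ∂P =
        Real.exp (-(E.card / m : ℝ)) / m := by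
      rw [← prob_X h E m (j + n) hm e he]
      have h6 : (fun ω => if X ring E m (j + n) ω = some e then (1 : ℝ) else 0) =
          Set.indicator {ω | X ring E m (j + n) ω = some e} (fun _ => (1 : ℝ)) := by
        funext ω
        simp only [Set.indicator, Set.mem_ofPred_eq]
      rw [h6, integral_indicator_const]
      · simp
      · exact hXm' (measurableSet_singleton (some e))
    rw [← h5]
    exact h4
  have hi1 : Integrable (fun ω => G (bl (run (fun i => X ring E m (j + i) ω) n η))) P :=
    int_bdd (hgm.comp hRm) (fun ω => hC _)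
  have hi2 : ∀ e, Integrable (fun ω =>
      G (swapSet e (bl (run (fun i => X ring E m (j + i) ω) n η))) -
          G (bl (run (fun i => X ring E m (j + i) ω) n η))) P := fun e =>
    (int_bdd ((hge e).comp hRm) (fun ω => hC _)).sub hi1
  have hi3 : ∀ e ∈ E, Integrable (fun ω =>
      (if X ring E m (j + n) ω = some e then (1 : ℝ) else 0) *
        (G (swapSet e (bl (run (fun i => X ring E m (j + i) ω) n η))) -
          G (bl (run (fun i => X ring E m (j + i) ω) n η)))) P := by
    intro e _
    refine int_bdd (C := 2 * C) ?_ (fun ω => ?_)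
    · refine Measurable.mul ?_ (((hge e).sub hgm).comp hRm)
      exact (Measurable.of_discrete
        (f := fun o : Option Edge => if o = some e then (1 : ℝ) else 0)).comp hXm'
    · rw [abs_mul]
      have h7 : |(if X ring E m (j + n) ω = some e then (1 : ℝ) else 0)| ≤ 1 := by
        split_ifs <;> simp
      have h8 := abs_sub (G (swapSet e (bl (run (fun i => X ring E m (j + i) ω) n η))))
        (G (bl (run (fun i => X ring E m (j + i) ω) n η)))
      have h9 := hC (swapSet e (bl (run (fun i => X ring E m (j + i) ω) n η)))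
      have h10 := hC (bl (run (fun i => X ring E m (j + i) ω) n η))
      calc _ ≤ 1 * |G (swapSet e (bl (run (fun i => X ring E m (j + i) ω) n η))) -
          G (bl (run (fun i => X ring E m (j + i) ω) n η))| :=
            mul_le_mul_of_nonneg_right h7 (abs_nonneg _)
        _ ≤ 2 * C := by linarith
  simp only [hpt]
  rw [integral_add hi1 (integrable_finsetSum _ hi3), integral_finsetSum _ hi3,
    Finset.sum_congr rfl hind, ← Finset.mul_sum, ← integral_finsetSum _ (fun e _ => hi2 e),
    ← integral_const_mul, ← integral_add hi1 ((integrable_finsetSum _ fun e _ => hi2 e).const_mul _)]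
  rfl

theorem iter_step (h : IsClockSystem P ξ ring) (E : Finset Edge) (m : ℕ) (hm : 1 ≤ m) (j : ℕ)
    (η : V → Bool) (n : ℕ) : ∀ {G : Set V → ℝ}, Loc G →
    ∫ ω, G (bl (run (fun i => X ring E m (j + i) ω) n η)) ∂P =
      ((stepV E (Real.exp (-(E.card / m : ℝ)) / m))^[n] G) (bl η) := by
  induction n with
  | zero =>
    intro G _
    show ∫ _ω : Ω, G (bl η) ∂P = G (bl η)
    simp
  | succ n ih =>
    intro G hG
    rw [one_step h E m hm j n hG η, ih (loc_step hG E _), Function.iterate_succ_apply]

/-- The initial configuration has the law of fair coins. -/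
theorem law_init (h : IsClockSystem P ξ ring) : P.map (fun ω v => ξ v ω) = fair V := by
  rw [h.indep_init.map_fun_eq_infinitePi_map h.meas_init]
  unfold fair
  congr 1
  funext v
  have hp : ∀ b : Bool, P {ω | ξ v ω = b} = 2⁻¹ := by
    have h1 : P {ω | ξ v ω = true} = 2⁻¹ := by
      rw [h.fair_init v]; simp
    have hm1 : MeasurableSet {ω | ξ v ω = true} := h.meas_init v (measurableSet_singleton true)
    intro b
    cases b with
    | true => exact h1
    | false =>
      have h2 : {ω | ξ v ω = false} = {ω | ξ v ω = true}ᶜ := by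
        ext ω
        simp
      rw [h2, prob_compl_eq_one_sub hm1, h1]
      exact ENNReal.one_sub_inv_two
  refine Measure.ext_of_singleton fun b => ?_
  rw [Measure.map_apply (h.meas_init v) (measurableSet_singleton b),
    PMF.toMeasure_apply_singleton _ _ (measurableSet_singleton b)]
  have h3 : ξ v ⁻¹' {b} = {ω | ξ v ω = b} := rfl
  rw [h3, hp b]
  simp

theorem disc_main (h : IsClockSystem P ξ ring) (E : Finset Edge) (m : ℕ) (hm : 1 ≤ m)
    {F G : Set V → ℝ} (hF : Loc F) (hG : Loc G) (j n : ℕ) :
    Integrable (fun ω => F (disc ξ ring E m j ω) * G (disc ξ ring E m (j + n) ω)) P ∧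
    ∫ ω, F (disc ξ ring E m j ω) * G (disc ξ ring E m (j + n) ω) ∂P =
      Ex (fun B => F B * ((stepV E (Real.exp (-(E.card / m : ℝ)) / m))^[n] G) B) := by
  obtain ⟨CF, hCF0, hCF⟩ := loc_bdd hF
  obtain ⟨CG, hCG0, hCG⟩ := loc_bdd hG
  have hFm : Measurable (fun η : V → Bool => F (bl η)) := loc_meas hF
  have hGm : Measurable (fun η : V → Bool => G (bl η)) := loc_meas hG
  have hξm : Measurable (fun ω v => ξ v ω) := measurable_pi_lambda _ h.meas_init
  have hYm : Measurable (fun ω (l : ℕ) => X ring E m l ω) :=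
    measurable_pi_lambda _ fun l =>
      (X_meas E m l (S := Set.univ) (fun e => Set.mem_univ _)).mono (sg_le h m _) le_rfl
  have hind : IndepFun (fun ω v => ξ v ω) (fun ω (l : ℕ) => X ring E m l ω) P := by
    have h1 : Measurable (fun (ν : Edge × ℝ × ℝ → ℕ∞) (l : ℕ) =>
        pick E (fun e : E => ν ((e : Edge), (l : ℝ) / m, ((l : ℝ) + 1) / m))) := by
      refine measurable_pi_lambda _ fun l => ?_
      refine (Measurable.of_discrete (f := pick E)).comp ?_
      exact measurable_pi_lambda _ fun e => measurable_pi_apply _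
    exact h.indep_both.comp measurable_id h1
  have hlaw : P.map (fun ω => ((fun v => ξ v ω), fun l : ℕ => X ring E m l ω)) =
      (fair V).prod (P.map (fun ω (l : ℕ) => X ring E m l ω)) := by
    rw [(indepFun_iff_map_prod_eq_prod_map_map hξm.aemeasurable hYm.aemeasurable).1 hind,
      law_init h]
  haveI : IsProbabilityMeasure (fair V) := by
    unfold fair; infer_instance
  haveI : IsProbabilityMeasure (P.map (fun ω (l : ℕ) => X ring E m l ω)) :=
    Measure.isProbabilityMeasure_map hYm.aemeasurable
  have hswap : Measurable (fun q : (V → Bool) × (ℕ → Option Edge) => (q.2, q.1)) :=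
    measurable_snd.prodMk measurable_fst
  have hrunm : ∀ k, Measurable (fun q : (V → Bool) × (ℕ → Option Edge) => run q.2 k q.1) :=
    fun k => (run_meas k).comp hswap
  have hshift : Measurable (fun q : (V → Bool) × (ℕ → Option Edge) =>
      run (fun i => q.2 (j + i)) n q.1) := by
    have h1 : Measurable (fun q : (V → Bool) × (ℕ → Option Edge) =>
        ((fun i => q.2 (j + i) : ℕ → Option Edge), q.1)) :=
      (measurable_pi_lambda _ fun i => (measurable_pi_apply (j + i)).comp measurable_snd).prodMk
        measurable_fst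
    exact (run_meas n).comp h1
  -- the function on the product space
  have hΦm : Measurable (fun q : (V → Bool) × (ℕ → Option Edge) =>
      F (bl (run q.2 j q.1)) * G (bl (run q.2 (j + n) q.1))) :=
    (hFm.comp (hrunm j)).mul (hGm.comp (hrunm (j + n)))
  have hbd : ∀ A B : Set V, |F A * G B| ≤ CF * CG := fun A B => by
    rw [abs_mul]
    exact mul_le_mul (hCF A) (hCG B) (abs_nonneg _) hCF0
  have hΨm : Measurable (fun q : (V → Bool) × (ℕ → Option Edge) =>
      F (bl q.1) * G (bl (run (fun i => q.2 (j + i)) n q.1))) :=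
    (hFm.comp measurable_fst).mul (hGm.comp hshift)
  have hpair : Measurable (fun ω => ((fun v => ξ v ω), fun l : ℕ => X ring E m l ω)) :=
    hξm.prodMk hYm
  simp only [disc_eq]
  refine ⟨int_bdd (hΦm.comp hpair) (fun ω => hbd _ _), ?_⟩
  have e1 : ∫ ω, F (bl (run (fun l => X ring E m l ω) j (fun v => ξ v ω))) *
      G (bl (run (fun l => X ring E m l ω) (j + n) (fun v => ξ v ω))) ∂P =
      ∫ q, F (bl (run q.2 j q.1)) * G (bl (run q.2 (j + n) q.1))
        ∂((fair V).prod (P.map (fun ω (l : ℕ) => X ring E m l ω))) := by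
    rw [← hlaw, integral_map hpair.aemeasurable hΦm.aestronglyMeasurable]
  have e2 : ∫ q, F (bl (run q.2 j q.1)) * G (bl (run q.2 (j + n) q.1))
        ∂((fair V).prod (P.map (fun ω (l : ℕ) => X ring E m l ω))) =
      ∫ y, ∫ η, F (bl (run y j η)) * G (bl (run y (j + n) η)) ∂(fair V)
        ∂(P.map (fun ω (l : ℕ) => X ring E m l ω)) :=
    integral_prod_symm _ (int_bdd hΦm (fun q => hbd _ _))
  have e3 : ∀ y : ℕ → Option Edge,
      ∫ η, F (bl (run y j η)) * G (bl (run y (j + n) η)) ∂(fair V) =
      ∫ η, F (bl η) * G (bl (run (fun i => y (j + i)) n η)) ∂(fair V) := by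
    intro y
    obtain ⟨σ, hσ⟩ := run_perm y j
    have h1 : Measurable (fun (η : V → Bool) v => η (σ v)) :=
      measurable_pi_lambda _ fun w => measurable_pi_apply _
    have h2 : Measurable (fun η : V → Bool =>
        F (bl η) * G (bl (run (fun i => y (j + i)) n η))) :=
      hΨm.comp (measurable_prodMk_right (y := y))
    have h3 : ∫ η, F (bl η) * G (bl (run (fun i => y (j + i)) n η)) ∂(fair V) =
        ∫ η, F (bl η) * G (bl (run (fun i => y (j + i)) n η))
          ∂((fair V).map (fun (η : V → Bool) v => η (σ v))) := by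
      rw [fair_perm σ]
    rw [h3, integral_map h1.aemeasurable h2.aestronglyMeasurable]
    refine integral_congr_ae (Filter.Eventually.of_forall fun η => ?_)
    simp only
    rw [← hσ η, ← run_add y j n η]
  have e4 : ∫ y, ∫ η, F (bl η) * G (bl (run (fun i => y (j + i)) n η)) ∂(fair V)
        ∂(P.map (fun ω (l : ℕ) => X ring E m l ω)) =
      ∫ η, ∫ y, F (bl η) * G (bl (run (fun i => y (j + i)) n η))
        ∂(P.map (fun ω (l : ℕ) => X ring E m l ω)) ∂(fair V) :=
    (integral_integral_swap (f := fun (η : V → Bool) (y : ℕ → Option Edge) =>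
      F (bl η) * G (bl (run (fun i => y (j + i)) n η)))
      (int_bdd hΨm (fun q => hbd _ _))).symm
  have e5 : ∀ η : V → Bool, ∫ y, F (bl η) * G (bl (run (fun i => y (j + i)) n η))
        ∂(P.map (fun ω (l : ℕ) => X ring E m l ω)) =
      F (bl η) * ((stepV E (Real.exp (-(E.card / m : ℝ)) / m))^[n] G) (bl η) := by
    intro η
    rw [integral_const_mul, ← iter_step h E m hm j η n hG]
    congr 1
    have h2 : Measurable (fun y : ℕ → Option Edge => G (bl (run (fun i => y (j + i)) n η))) := by
      have h3 : Measurable (fun q : (V → Bool) × (ℕ → Option Edge) =>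
        G (bl (run (fun i => q.2 (j + i)) n q.1))) := hGm.comp hshift
      exact h3.comp (measurable_prodMk_left (x := η))
    rw [integral_map hYm.aemeasurable h2.aestronglyMeasurable]
  rw [e1, e2]
  simp only [e3]
  rw [e4]
  simp only [e5]
  rfl

end

end P3

/-- Module P3: two-time laws of the discretised process (no hypotheses are needed). -/
theorem p_disc' : S_disc := by
  intro Ω _ P _ ξ ring h E m F G hm hF hG j k hjk
  obtain ⟨n, rfl⟩ := Nat.exists_eq_add_of_le hjk
  rw [Nat.add_sub_cancel_left]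
  exact P3.disc_main h E m hm hF hG j n

theorem p_disc (_hE : S_ExAvg) (_he : S_PrEquiv) : S_disc := p_disc'

end TriX
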