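import Pool.Agent.EX.Spec4
import Pool.Agent.EX.A1

/-! Project EX (MP_68260e), module P3b: the events `evA` are measurable, have the same
probability for all centres and are independent for distant centres. -/

set_option autoImplicit false

open MeasureTheory ProbabilityTheory

namespace TriX

/-! ### Deterministic part -/

/-- the discretised process as a function of the initial set and of the counts -/
def p3b_proc (E : Finset Edge) (B0 : Set V) (c : Edge → ℕ → ℕ∞) : ℕ → Set V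
  | 0 => B0
  | k + 1 => stepC E (fun e => c e k) (p3b_proc E B0 c k)

theorem p3b_discR (B0 : Set V) (ring : Edge → Set ℝ) (E : Finset Edge) (m k : ℕ) :
    discR B0 ring E m k = p3b_proc E B0
      (fun e l => (ring e ∩ Set.Ioc ((l : ℝ) / m) (((l : ℝ) + 1) / m)).encard) k := by
  induction k with
  | zero => rfl
  | succ k ih => simp only [discR, p3b_proc, ih]

/-- translated edge -/
def p3b_tr (x : V) (e : Edge) : Edge := (e.1 + x, e.2)

theorem p3b_tgt (x : V) (e : Edge) : tgt (p3b_tr x e) = tgt e + x := by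
  unfold tgt p3b_tr
  exact add_right_comm _ _ _

theorem p3b_tr_inj (x : V) {e e' : Edge} (h : p3b_tr x e = p3b_tr x e') : e = e' := by
  have h1 := congrArg Prod.fst h
  have h2 := congrArg Prod.snd h
  exact Prod.ext (add_right_cancel h1) h2

theorem p3b_tr_surj (x : V) (e : Edge) : ∃ e', p3b_tr x e' = e :=
  ⟨(e.1 - x, e.2), Prod.ext (sub_add_cancel _ _) rfl⟩

theorem p3b_edges (x : V) (N : ℕ) (e : Edge) :
    e ∈ edgesIn x N ↔ e.1 ∈ Ball x (5 * N + 2) ∧ tgt e ∈ Ball x (5 * N + 2) := by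
  simp only [edgesIn, Finset.mem_filter, Finset.mem_product, Finset.mem_Icc]
  refine and_congr_left fun _ => ?_
  simp only [Finset.mem_univ, and_true, Ball, Set.mem_ofPred_eq, abs_le]
  constructor
  · rintro ⟨⟨h1, h2⟩, h3, h4⟩
    exact ⟨⟨by linarith, by linarith⟩, by linarith, by linarith⟩
  · rintro ⟨⟨h1, h2⟩, h3, h4⟩
    exact ⟨⟨by linarith, by linarith⟩, by linarith, by linarith⟩

theorem p3b_ball (x v : V) (r : ℤ) : v + x ∈ Ball x r ↔ v ∈ Ball 0 r := by
  have := a1_add_ball x 0 r v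
  rw [zero_add] at this
  exact this.symm

theorem p3b_edges_tr (x : V) (N : ℕ) (e : Edge) :
    p3b_tr x e ∈ edgesIn x N ↔ e ∈ edgesIn 0 N := by
  rw [p3b_edges, p3b_edges, p3b_tgt, p3b_ball]
  exact and_congr_left fun _ => p3b_ball x e.1 _

theorem p3b_one (x : V) (N : ℕ) (c c' : Edge → ℕ∞)
    (hc : ∀ e ∈ edgesIn 0 N, c (p3b_tr x e) = c' e) (e : Edge) :
    OneRing (edgesIn x N) c (p3b_tr x e) ↔ OneRing (edgesIn 0 N) c' e := by
  unfold OneRing
  rw [p3b_edges_tr]
  constructor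
  · rintro ⟨h1, h2, h3⟩
    refine ⟨h1, (hc e h1).symm.trans h2, fun e' he' hne => ?_⟩
    rw [← hc e' he']
    exact h3 _ ((p3b_edges_tr x N e').2 he') fun h => hne (p3b_tr_inj x h)
  · rintro ⟨h1, h2, h3⟩
    refine ⟨h1, (hc e h1).trans h2, fun e' he' hne => ?_⟩
    obtain ⟨e'', rfl⟩ := p3b_tr_surj x e'
    rw [hc e'' ((p3b_edges_tr x N e'').1 he')]
    exact h3 _ ((p3b_edges_tr x N e'').1 he') fun h => hne (by rw [h])

theorem p3b_swap (x : V) (e : Edge) (v : V) :
    Equiv.swap (p3b_tr x e).1 (tgt (p3b_tr x e)) (v + x) = Equiv.swap e.1 (tgt e) v + x := by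
  rw [p3b_tgt]
  change Equiv.swap (e.1 + x) (tgt e + x) (v + x) = _
  rw [Equiv.swap_apply_def, Equiv.swap_apply_def]
  by_cases h1 : v = e.1
  · rw [if_pos h1, if_pos (by rw [h1])]
  · rw [if_neg h1, if_neg (fun h2 => h1 (add_right_cancel h2))]
    by_cases h3 : v = tgt e
    · rw [if_pos h3, if_pos (by rw [h3])]
    · rw [if_neg h3, if_neg (fun h2 => h3 (add_right_cancel h2))]

theorem p3b_swap_ball (N : ℕ) (e : Edge) (he : e ∈ edgesIn 0 N) (v : V)
    (hv : v ∈ Ball 0 (5 * N + 2)) : Equiv.swap e.1 (tgt e) v ∈ Ball 0 (5 * N + 2) := by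
  rw [p3b_edges] at he
  rw [Equiv.swap_apply_def]
  split_ifs
  · exact he.2
  · exact he.1
  · exact hv

theorem p3b_step (x : V) (N : ℕ) (c c' : Edge → ℕ∞) (B B' : Set V)
    (hc : ∀ e ∈ edgesIn 0 N, c (p3b_tr x e) = c' e)
    (hB : ∀ v ∈ Ball 0 (5 * N + 2), (v + x ∈ B ↔ v ∈ B')) :
    ∀ v ∈ Ball 0 (5 * N + 2),
      (v + x ∈ stepC (edgesIn x N) c B ↔ v ∈ stepC (edgesIn 0 N) c' B') := by
  intro v hv
  have h1 := p3b_one x N c c' hc
  unfold stepC
  simp only [Set.mem_ofPred_eq]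
  refine or_congr ?_ (and_congr ?_ (hB v hv))
  · constructor
    · rintro ⟨e, he, h2⟩
      obtain ⟨e', rfl⟩ := p3b_tr_surj x e
      have he' := (h1 e').1 he
      refine ⟨e', he', ?_⟩
      unfold swapSet at h2 ⊢
      simp only [Set.mem_ofPred_eq] at h2 ⊢
      rw [p3b_swap] at h2
      exact (hB _ (p3b_swap_ball N e' he'.1 v hv)).1 h2
    · rintro ⟨e', he', h2⟩
      refine ⟨p3b_tr x e', (h1 e').2 he', ?_⟩
      unfold swapSet at h2 ⊢
      simp only [Set.mem_ofPred_eq] at h2 ⊢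
      rw [p3b_swap]
      exact (hB _ (p3b_swap_ball N e' he'.1 v hv)).2 h2
  · constructor
    · intro h e he
      exact h _ ((h1 e).2 he)
    · intro h e he
      obtain ⟨e', rfl⟩ := p3b_tr_surj x e
      exact h _ ((h1 e').1 he)

theorem p3b_proc_tr (x : V) (N m : ℕ) (c c' : Edge → ℕ → ℕ∞) (B B' : Set V)
    (hc : ∀ e ∈ edgesIn 0 N, ∀ l < m, c (p3b_tr x e) l = c' e l)
    (hB : ∀ v ∈ Ball 0 (5 * N + 2), (v + x ∈ B ↔ v ∈ B')) (k : ℕ) (hk : k ≤ m) :
    ∀ v ∈ Ball 0 (5 * N + 2),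
      (v + x ∈ p3b_proc (edgesIn x N) B c k ↔ v ∈ p3b_proc (edgesIn 0 N) B' c' k) := by
  induction k with
  | zero => exact hB
  | succ k ih =>
    exact p3b_step x N _ _ _ _ (fun e he => hc e he k (by omega)) (ih (by omega))

theorem p3b_arm (x : V) (N : ℕ) (R : ℤ) (hR : R ≤ 5 * N + 2) (S S' : Set V)
    (h : ∀ v ∈ Ball 0 (5 * N + 2), (v + x ∈ S ↔ v ∈ S')) : Arm x 0 R S ↔ Arm 0 0 R S' := by
  have h1 := a1_trans x 0 R {v | v + x ∈ S}
  have h2 : (Equiv.addRight x : V ≃ V) '' {v | v + x ∈ S} = S := by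
    ext v
    rw [Set.mem_image]
    constructor
    · rintro ⟨w, hw, rfl⟩
      exact hw
    · intro hv
      refine ⟨v - x, ?_, sub_add_cancel v x⟩
      change v - x + x ∈ S
      rwa [sub_add_cancel]
  rw [h2] at h1
  rw [h1]
  have h3 := a1_dep 0 0 R {v | v + x ∈ S} S' ?_
  · rw [h3]
  · ext v
    simp only [Set.mem_inter_iff, Set.mem_ofPred_eq]
    refine and_congr_left fun hv => h v (a1_ball_mono 0 hR hv.1)

/-! ### The finite environment seen from a centre -/

/-- the sites of the ball around the origin, as a finset -/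
noncomputable def p3b_D (N : ℕ) : Finset V :=
  Finset.Icc (-(5 * N + 2) : ℤ) (5 * N + 2) ×ˢ Finset.Icc (-(5 * N + 2) : ℤ) (5 * N + 2)

theorem p3b_mem_D (N : ℕ) (v : V) : v ∈ p3b_D N ↔ v ∈ Ball 0 (5 * N + 2) := by
  unfold p3b_D
  rw [Finset.mem_product, Finset.mem_Icc, Finset.mem_Icc]
  simp only [Ball, Set.mem_ofPred_eq, abs_le, Prod.fst_zero, Prod.snd_zero, sub_zero]

/-- the environment space -/
abbrev P3bEnv (N m : ℕ) : Type := (p3b_D N → Bool) × (edgesIn 0 N × Fin m → ℕ∞)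

/-- the initial set of an environment -/
def p3b_B (N : ℕ) (s : p3b_D N → Bool) : Set V := {v | ∃ h : v ∈ p3b_D N, s ⟨v, h⟩ = true}

open Classical in
/-- the counts of an environment -/
noncomputable def p3b_c (N m : ℕ) (c : edgesIn 0 N × Fin m → ℕ∞) (e : Edge) (l : ℕ) : ℕ∞ :=
  if h : e ∈ edgesIn 0 N ∧ l < m then c (⟨e, h.1⟩, ⟨l, h.2⟩) else 0

/-- the environments with an arm -/
def p3b_Phi (J N m : ℕ) : Set (P3bEnv N m) :=
  {z | ∃ k ≤ m, Arm 0 0 (10 * J + 2) (p3b_proc (edgesIn 0 N) (p3b_B N z.1) (p3b_c N m z.2) k)}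

variable {Ω : Type}

/-- the time cell -/
noncomputable def p3b_cell (m : ℕ) (e : Edge) (l : ℕ) : Edge × ℝ × ℝ :=
  (e, (l : ℝ) / m, ((l : ℝ) + 1) / m)

/-- the sites seen from `x` -/
def p3b_S (ξ : V → Ω → Bool) (x : V) (N : ℕ) (ω : Ω) : p3b_D N → Bool := fun v => ξ (v + x) ω

/-- the counts seen from `x` -/
noncomputable def p3b_C (ring : Edge → Ω → Set ℝ) (x : V) (N m : ℕ) (ω : Ω) :
    edgesIn 0 N × Fin m → ℕ∞ := fun p => cnt ring (p3b_cell m (p3b_tr x p.1) p.2) ω

theorem p3b_evA (ξ : V → Ω → Bool) (ring : Edge → Ω → Set ℝ) (x : V) (J N m : ℕ)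
    (hJN : 2 * J ≤ N) :
    evA ξ ring x J N m = (fun ω => (p3b_S ξ x N ω, p3b_C ring x N m ω)) ⁻¹' p3b_Phi J N m := by
  ext ω
  unfold evA p3b_Phi
  simp only [Set.mem_ofPred_eq, Set.mem_preimage]
  refine exists_congr fun k => and_congr_right fun hk => ?_
  unfold disc
  rw [p3b_discR]
  refine p3b_arm x N _ (by omega) _ _ (p3b_proc_tr x N m _ _ _ _ ?_ ?_ k hk)
  · intro e he l hl
    unfold p3b_c
    rw [dif_pos ⟨he, hl⟩]
    rfl
  · intro v hv
    unfold p3b_B p3b_S
    simp only [Set.mem_ofPred_eq]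
    exact ⟨fun h => ⟨(p3b_mem_D N v).2 hv, h⟩, fun h => h.2⟩

/-! ### Laws -/

variable [MeasurableSpace Ω] {P : Measure Ω} {ξ : V → Ω → Bool} {ring : Edge → Ω → Set ℝ}

theorem p3b_meas_S (h : IsClockSystem P ξ ring) (x : V) (N : ℕ) : Measurable (p3b_S ξ x N) :=
  measurable_pi_lambda _ fun _ => h.meas_init _

theorem p3b_meas_C (h : IsClockSystem P ξ ring) (x : V) (N m : ℕ) :
    Measurable (p3b_C ring x N m) :=
  measurable_pi_lambda _ fun _ => h.meas_cnt _

theorem p3b_phi_meas (J N m : ℕ) : MeasurableSet (p3b_Phi J N m) :=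
  (Set.to_countable _).measurableSet

theorem p3b_evA_meas (h : IsClockSystem P ξ ring) (x : V) (J N m : ℕ) (hJN : 2 * J ≤ N) :
    MeasurableSet (evA ξ ring x J N m) := by
  rw [p3b_evA ξ ring x J N m hJN]
  exact ((p3b_meas_S h x N).prodMk (p3b_meas_C h x N m)) (p3b_phi_meas J N m)

/-- the law of a site -/
theorem p3b_law_site [IsProbabilityMeasure P] (h : IsClockSystem P ξ ring) (v w : V) :
    P.map (ξ v) = P.map (ξ w) := by
  have key : ∀ v, P {ω | ξ v ω = false} = 1 - P {ω | ξ v ω = true} := by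
    intro v
    have h1 : {ω | ξ v ω = false} = {ω | ξ v ω = true}ᶜ := by
      ext ω
      simp
    rw [h1, prob_compl_eq_one_sub]
    exact h.meas_init v (measurableSet_singleton true)
  refine Measure.ext_of_singleton fun b => ?_
  rw [Measure.map_apply (h.meas_init v) (measurableSet_singleton b),
    Measure.map_apply (h.meas_init w) (measurableSet_singleton b)]
  cases b with
  | true => exact (h.fair_init v).trans (h.fair_init w).symm
  | false =>
    refine (key v).trans (Eq.trans ?_ (key w).symm)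
    rw [h.fair_init v, h.fair_init w]

/-- the law of a count -/
theorem p3b_law_cnt [IsProbabilityMeasure P] (h : IsClockSystem P ξ ring) (e e' : Edge)
    (a b : ℝ) (ha : 0 ≤ a) (hab : a < b) :
    P.map (cnt ring (e, a, b)) = P.map (cnt ring (e', a, b)) := by
  have key : ∀ e, P {ω | cnt ring (e, a, b) ω = ⊤} =
      1 - ∑' n : ℕ, P {ω | cnt ring (e, a, b) ω = n} := by
    intro e
    have h1 : {ω | cnt ring (e, a, b) ω = ⊤} = (⋃ n : ℕ, {ω | cnt ring (e, a, b) ω = n})ᶜ := by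
      ext ω
      simp only [Set.mem_ofPred_eq, Set.mem_compl_iff, Set.mem_iUnion, not_exists]
      constructor
      · intro h2 n h3
        rw [h2] at h3
        exact absurd h3 (ENat.top_ne_natCast n)
      · intro h2
        by_contra h3
        obtain ⟨n, hn⟩ := ENat.ne_top_iff_exists.1 h3
        exact h2 n hn.symm
    have hm : ∀ n : ℕ, MeasurableSet {ω | cnt ring (e, a, b) ω = n} := fun n =>
      h.meas_cnt (e, a, b) (measurableSet_singleton (n : ℕ∞))
    rw [h1, prob_compl_eq_one_sub (MeasurableSet.iUnion hm), measure_iUnion ?_ hm]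
    intro n n' hn
    rw [Function.onFun, Set.disjoint_left]
    intro ω h2 h3
    have h4 : (n : ℕ∞) = n' := h2.symm.trans h3
    exact hn (by exact_mod_cast h4)
  refine Measure.ext_of_singleton fun n => ?_
  rw [Measure.map_apply (h.meas_cnt _) (measurableSet_singleton n),
    Measure.map_apply (h.meas_cnt _) (measurableSet_singleton n)]
  change P {ω | cnt ring (e, a, b) ω = n} = P {ω | cnt ring (e', a, b) ω = n}
  induction n using ENat.recTopCoe with
  | top =>
    rw [key e, key e']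
    simp only [h.poisson e a b ha hab, h.poisson e' a b ha hab]
  | coe n => rw [h.poisson e a b ha hab, h.poisson e' a b ha hab]

theorem p3b_time (m l : ℕ) (hm : 1 ≤ m) :
    (0 : ℝ) ≤ (l : ℝ) / m ∧ (l : ℝ) / m < ((l : ℝ) + 1) / m := by
  have h1 : (0 : ℝ) < m := by exact_mod_cast hm
  exact ⟨by positivity, div_lt_div_of_pos_right (lt_add_one _) h1⟩

/-- all counts are independent -/
theorem p3b_indep_cells (h : IsClockSystem P ξ ring) (m : ℕ) (hm : 1 ≤ m) :
    iIndepFun (fun p : Edge × ℕ => cnt ring (p3b_cell m p.1 p.2)) P := by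
  rw [iIndepFun_iff_finset]
  intro s
  have h1 := h.indep_cells s.card (fun i => p3b_cell m (s.equivFin.symm i).1.1
    (s.equivFin.symm i).1.2) (fun i => (p3b_time m _ hm).1) ?_
  · exact iIndepFun.of_precomp (g := s.equivFin.symm) s.equivFin.symm.surjective h1
  · intro i j hij
    have h2 : (s.equivFin.symm i).1 ≠ (s.equivFin.symm j).1 := fun h3 =>
      hij (s.equivFin.symm.injective (Subtype.ext h3))
    by_cases h3 : (s.equivFin.symm i).1.1 = (s.equivFin.symm j).1.1
    · right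
      have h4 : (s.equivFin.symm i).1.2 ≠ (s.equivFin.symm j).1.2 := fun h4 =>
        h2 (Prod.ext h3 h4)
      generalize (s.equivFin.symm i).1.2 = a at h4
      generalize (s.equivFin.symm j).1.2 = b at h4
      have hm0 : (0 : ℝ) < m := by exact_mod_cast hm
      change Disjoint (Set.Ioc ((a : ℝ) / m) (((a : ℝ) + 1) / m))
        (Set.Ioc ((b : ℝ) / m) (((b : ℝ) + 1) / m))
      rw [Set.disjoint_left]
      rintro t ⟨h5, h6⟩ ⟨h7, h8⟩
      rw [div_lt_iff₀ hm0] at h5 h7
      rw [le_div_iff₀ hm0] at h6 h8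
      have h9 : (a : ℝ) < b + 1 := by linarith
      have h10 : (b : ℝ) < a + 1 := by linarith
      have h11 : a < b + 1 := by exact_mod_cast h9
      have h12 : b < a + 1 := by exact_mod_cast h10
      omega
    · left
      exact h3

theorem p3b_law [IsProbabilityMeasure P] (h : IsClockSystem P ξ ring) (x : V) (N m : ℕ)
    (hm : 1 ≤ m) :
    P.map (fun ω => (p3b_S ξ x N ω, p3b_C ring x N m ω)) =
      (Measure.pi fun _ : p3b_D N => P.map (ξ 0)).prod
        (Measure.pi fun p : edgesIn 0 N × Fin m => P.map (cnt ring (p3b_cell m (0, 0) p.2))) := by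
  have hm1 : Measurable (fun (s : V → Bool) (v : p3b_D N) => s (v + x)) :=
    measurable_pi_lambda _ fun v => measurable_pi_apply _
  have hm2 : Measurable (fun (c : Edge × ℝ × ℝ → ℕ∞) (p : edgesIn 0 N × Fin m) =>
      c (p3b_cell m (p3b_tr x p.1) p.2)) :=
    measurable_pi_lambda _ fun v => measurable_pi_apply _
  have h1 : IndepFun (p3b_S ξ x N) (p3b_C ring x N m) P := h.indep_both.comp hm1 hm2
  rw [(indepFun_iff_map_prod_eq_prod_map_map (p3b_meas_S h x N).aemeasurable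
    (p3b_meas_C h x N m).aemeasurable).1 h1]
  congr 1
  · have h2 : iIndepFun (fun (v : p3b_D N) => ξ (v + x)) P :=
      h.indep_init.precomp (g := fun v : p3b_D N => (v : V) + x)
        (fun a b hab => Subtype.ext (add_right_cancel hab))
    refine (h2.map_fun_eq_pi_map fun v => (h.meas_init _).aemeasurable).trans ?_
    congr 1
    funext v
    exact p3b_law_site h _ _
  · have h2 : iIndepFun (fun (p : edgesIn 0 N × Fin m) =>
        cnt ring (p3b_cell m (p3b_tr x p.1) p.2)) P :=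
      (p3b_indep_cells h m hm).precomp
        (g := fun p : edgesIn 0 N × Fin m => (p3b_tr x p.1, (p.2 : ℕ)))
        (fun a b hab => Prod.ext (Subtype.ext (p3b_tr_inj x (congrArg Prod.fst hab)))
          (Fin.ext (congrArg Prod.snd hab)))
    refine (h2.map_fun_eq_pi_map fun v => (h.meas_cnt _).aemeasurable).trans ?_
    congr 1
    funext p
    exact p3b_law_cnt h _ _ _ _ (p3b_time m _ hm).1 (p3b_time m _ hm).2

theorem p3b_same [IsProbabilityMeasure P] (h : IsClockSystem P ξ ring) (x : V) (J N m : ℕ)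
    (hJN : 2 * J ≤ N) (hm : 1 ≤ m) :
    P (evA ξ ring x J N m) = P (evA ξ ring 0 J N m) := by
  rw [p3b_evA ξ ring x J N m hJN, p3b_evA ξ ring 0 J N m hJN,
    ← Measure.map_apply ((p3b_meas_S h x N).prodMk (p3b_meas_C h x N m)) (p3b_phi_meas J N m),
    ← Measure.map_apply ((p3b_meas_S h 0 N).prodMk (p3b_meas_C h 0 N m)) (p3b_phi_meas J N m),
    p3b_law h x N m hm, p3b_law h 0 N m hm]

/-! ### Independence for distant centres -/

/-- the sigma-algebras of the sites and of the cells -/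
@[reducible] noncomputable def p3b_alg (ξ : V → Ω → Bool) (ring : Edge → Ω → Set ℝ) (m : ℕ) :
    V ⊕ (Edge × ℕ) → MeasurableSpace Ω :=
  Sum.elim (fun v => MeasurableSpace.comap (ξ v) inferInstance)
    (fun p => MeasurableSpace.comap (cnt ring (p3b_cell m p.1 p.2)) inferInstance)

theorem p3b_iIndep (h : IsClockSystem P ξ ring) (m : ℕ) (hm : 1 ≤ m) :
    iIndep (p3b_alg ξ ring m) P := by
  rw [iIndep_iff]
  intro s f hf
  have h1 : (⋂ i ∈ s, f i) = (⋂ v ∈ s.toLeft, f (Sum.inl v)) ∩ ⋂ p ∈ s.toRight, f (Sum.inr p) := by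
    ext ω
    simp only [Set.mem_iInter, Set.mem_inter_iff, Finset.mem_toLeft, Finset.mem_toRight]
    constructor
    · intro h2
      exact ⟨fun v hv => h2 _ hv, fun p hp => h2 _ hp⟩
    · rintro ⟨h2, h3⟩ (v | p) hi
      · exact h2 v hi
      · exact h3 p hi
  have hL : ∀ v ∈ s.toLeft, ∃ t : Set Bool, ξ v ⁻¹' t = f (Sum.inl v) := by
    intro v hv
    obtain ⟨t, _, ht⟩ := hf (Sum.inl v) (Finset.mem_toLeft.1 hv)
    exact ⟨t, ht⟩
  have hR : ∀ p ∈ s.toRight, ∃ t : Set ℕ∞,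
      cnt ring (p3b_cell m p.1 p.2) ⁻¹' t = f (Sum.inr p) := by
    intro p hp
    obtain ⟨t, _, ht⟩ := hf (Sum.inr p) (Finset.mem_toRight.1 hp)
    exact ⟨t, ht⟩
  choose! tL htL using hL
  choose! tR htR using hR
  have h2 : (⋂ v ∈ s.toLeft, f (Sum.inl v)) = (fun ω v => ξ v ω) ⁻¹'
      (⋂ v ∈ s.toLeft, (fun g : V → Bool => g v) ⁻¹' tL v) := by
    ext ω
    simp only [Set.mem_iInter, Set.mem_preimage]
    refine forall_congr' fun v => forall_congr' fun hv => ?_
    rw [← htL v hv]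
    rfl
  have h3 : (⋂ p ∈ s.toRight, f (Sum.inr p)) = (fun ω (c : Edge × ℝ × ℝ) => cnt ring c ω) ⁻¹'
      (⋂ p ∈ s.toRight, (fun g : Edge × ℝ × ℝ → ℕ∞ => g (p3b_cell m p.1 p.2)) ⁻¹' tR p) := by
    ext ω
    simp only [Set.mem_iInter, Set.mem_preimage]
    refine forall_congr' fun p => forall_congr' fun hp => ?_
    rw [← htR p hp]
    rfl
  have h4 : P ((⋂ v ∈ s.toLeft, f (Sum.inl v)) ∩ ⋂ p ∈ s.toRight, f (Sum.inr p)) =
      P (⋂ v ∈ s.toLeft, f (Sum.inl v)) * P (⋂ p ∈ s.toRight, f (Sum.inr p)) := by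
    rw [h2, h3]
    refine h.indep_both.measure_inter_preimage_eq_mul _ _ ?_ ?_
    · exact MeasurableSet.biInter (Finset.countable_toSet _) fun v _ =>
        measurable_pi_apply v (MeasurableSet.of_discrete)
    · exact MeasurableSet.biInter (Finset.countable_toSet _) fun v _ =>
        measurable_pi_apply _ (MeasurableSet.of_discrete)
  have h5 : P (⋂ v ∈ s.toLeft, f (Sum.inl v)) = ∏ v ∈ s.toLeft, P (f (Sum.inl v)) :=
    h.indep_init.meas_biInter fun v hv => hf _ (Finset.mem_toLeft.1 hv)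
  have h6 : P (⋂ p ∈ s.toRight, f (Sum.inr p)) = ∏ p ∈ s.toRight, P (f (Sum.inr p)) :=
    (p3b_indep_cells h m hm).meas_biInter fun v hv => hf _ (Finset.mem_toRight.1 hv)
  rw [h1, h4, h5, h6]
  conv_rhs => rw [← Finset.toLeft_disjSum_toRight (u := s), Finset.prod_disjSum]

/-- the indices seen from `x` -/
def p3b_I (x : V) (N : ℕ) : Set (V ⊕ (Edge × ℕ)) :=
  {i | Sum.elim (fun v => v ∈ Ball x (5 * N + 2)) (fun p => p.1.1 ∈ Ball x (5 * N + 2)) i}

theorem p3b_I_disj (x y : V) (N : ℕ) (h : y ∉ Ball x (20 * N + 20)) :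
    Disjoint (p3b_I x N) (p3b_I y N) := by
  have key : ∀ v : V, v ∈ Ball x (5 * N + 2) → v ∈ Ball y (5 * N + 2) → False := by
    intro v h1 h2
    apply h
    simp only [Ball, Set.mem_ofPred_eq, abs_le] at h1 h2 ⊢
    omega
  rw [Set.disjoint_left]
  rintro (v | p) h1 h2
  · exact key v h1 h2
  · exact key p.1.1 h1 h2

theorem p3b_evA_alg (ξ : V → Ω → Bool) (ring : Edge → Ω → Set ℝ) (x : V) (J N m : ℕ) (hJN : 2 * J ≤ N) :
    MeasurableSet[⨆ i ∈ p3b_I x N, p3b_alg ξ ring m i] (evA ξ ring x J N m) := by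
  rw [p3b_evA ξ ring x J N m hJN]
  have hS : Measurable[⨆ i ∈ p3b_I x N, p3b_alg ξ ring m i] (p3b_S ξ x N) := by
    refine @measurable_pi_lambda _ _ _ (⨆ i ∈ p3b_I x N, p3b_alg ξ ring m i) _ _ fun v => ?_
    have h1 : (Sum.inl ((v : V) + x) : V ⊕ (Edge × ℕ)) ∈ p3b_I x N :=
      (p3b_ball x v _).2 ((p3b_mem_D N v).1 v.2)
    exact Measurable.mono (comap_measurable (ξ ((v : V) + x)))
      (le_iSup₂ (f := fun i (_ : i ∈ p3b_I x N) => p3b_alg ξ ring m i) _ h1) le_rfl
  have hC : Measurable[⨆ i ∈ p3b_I x N, p3b_alg ξ ring m i] (p3b_C ring x N m) := by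
    refine @measurable_pi_lambda _ _ _ (⨆ i ∈ p3b_I x N, p3b_alg ξ ring m i) _ _ fun p => ?_
    have h1 : (Sum.inr (p3b_tr x p.1, (p.2 : ℕ)) : V ⊕ (Edge × ℕ)) ∈ p3b_I x N :=
      (p3b_ball x _ _).2 ((p3b_edges 0 N p.1).1 p.1.2).1
    exact Measurable.mono (comap_measurable (cnt ring (p3b_cell m (p3b_tr x p.1) p.2)))
      (le_iSup₂ (f := fun i (_ : i ∈ p3b_I x N) => p3b_alg ξ ring m i) _ h1) le_rfl
  exact (hS.prodMk hC) (p3b_phi_meas J N m)

theorem p3b_alg_le (h : IsClockSystem P ξ ring) (m : ℕ) (i : V ⊕ (Edge × ℕ)) :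
    p3b_alg ξ ring m i ≤ (inferInstance : MeasurableSpace Ω) := by
  rcases i with v | p
  · exact (h.meas_init v).comap_le
  · exact (h.meas_cnt _).comap_le

theorem p_discEvents (_h1 : S_armBasic) : S_discEvents := by
  intro Ω _ P _ ξ ring h J N m _ hJN hm
  refine ⟨fun x => p3b_evA_meas h x J N m hJN, fun x => p3b_same h x J N m hJN hm, ?_⟩
  classical
  intro X
  induction X using Finset.induction_on with
  | empty =>
    intro _
    simp
  | insert a X ha ih =>
    intro hX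
    have hX' : ∀ x ∈ X, ∀ y ∈ X, x ≠ y → y ∉ Ball x (20 * N + 20) := fun x hx y hy =>
      hX x (Finset.mem_insert_of_mem hx) y (Finset.mem_insert_of_mem hy)
    rw [Finset.prod_insert ha, ← ih hX', Finset.set_biInter_insert]
    have hd : Disjoint (p3b_I a N) (⋃ x ∈ X, p3b_I x N) := by
      rw [Set.disjoint_iUnion₂_right]
      intro x hx
      exact p3b_I_disj a x N (hX a (Finset.mem_insert_self _ _) x (Finset.mem_insert_of_mem hx)
        (fun h2 => ha (h2 ▸ hx)))
    have hi := indep_iSup_of_disjoint (p3b_alg_le h m) (p3b_iIndep h m hm) hd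
    refine (Indep_iff _ _ _).1 hi _ _ (p3b_evA_alg ξ ring a J N m hJN).compl ?_
    refine Finset.measurableSet_biInter _ fun x hx => ?_
    have h3 := p3b_evA_alg ξ ring x J N m hJN
    refine MeasurableSet.compl ?_
    have h4 : (⨆ i ∈ p3b_I x N, p3b_alg ξ ring m i) ≤
        ⨆ i ∈ ⋃ x ∈ X, p3b_I x N, p3b_alg ξ ring m i :=
      biSup_mono fun i hi => Set.mem_iUnion₂.2 ⟨x, hx, hi⟩
    exact h4 _ h3

end TriX
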