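import Pool.Agent.EX.Spec4

/-! Project EX (MP_68260e), module P3c: the second moment method (Paley and Zygmund). -/

set_option autoImplicit false

open MeasureTheory ProbabilityTheory

namespace TriX

/-- Local events are measurable. -/
theorem p3c_meas {W : Type} (f : Set W → Prop) (hf : Loc f) :
    MeasurableSet {ω : W → Bool | f (bl ω)} := by
  classical
  obtain ⟨S, hS⟩ := hf
  have h1 : {ω : W → Bool | f (bl ω)} =
      S.restrict ⁻¹' {η : S → Bool | f {w | ∃ h : w ∈ S, η ⟨w, h⟩ = true}} := by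
    ext ω
    change f (bl ω) ↔ f {w | ∃ h : w ∈ S, S.restrict ω ⟨w, h⟩ = true}
    rw [hS (bl ω) {w | ∃ h : w ∈ S, S.restrict ω ⟨w, h⟩ = true}]
    ext w
    constructor
    · rintro ⟨h1, h2⟩
      exact ⟨⟨h2, h1⟩, h2⟩
    · rintro ⟨⟨_, h1⟩, h2⟩
      exact ⟨h1, h2⟩
  rw [h1]
  exact (Set.toFinite _).measurableSet.preimage (Finset.measurable_restrict S)

open Classical in
/-- The expectation of the indicator of a local event. -/
theorem p3c_Ex {W : Type} (f : Set W → Prop) (hf : Loc f) :
    Ex (fun B => if f B then (1 : ℝ) else 0) = Pr f := by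
  unfold Pr Ex
  rw [← integral_indicator_one (p3c_meas f hf)]
  refine integral_congr_ae (Filter.Eventually.of_forall fun ω => ?_)
  simp [Set.indicator_apply]

/-- Sums of a function of the distance. -/
theorem p3c_sum (m : ℕ) (φ : ℕ → ℝ) (hφ : ∀ i, 0 ≤ φ i) (j : ℕ) (hj : j < m) :
    ∑ k ∈ Finset.range m, (if j ≤ k then φ (k - j) else φ (j - k)) ≤
      2 * ∑ i ∈ Finset.range m, φ i := by
  have h1 : ∑ k ∈ Finset.range m, (if j ≤ k then φ (k - j) else φ (j - k)) ≤
      ∑ k ∈ (Finset.range m).filter (fun k => j ≤ k), φ (k - j) +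
      ∑ k ∈ (Finset.range m).filter (fun k => ¬ j ≤ k), φ (j - k) := by
    rw [Finset.sum_ite]
  have h2 : ∑ k ∈ (Finset.range m).filter (fun k => j ≤ k), φ (k - j) ≤
      ∑ i ∈ Finset.range m, φ i := by
    rw [← Finset.sum_image (s := (Finset.range m).filter (fun k => j ≤ k))
      (g := fun k => k - j) (f := φ)]
    · apply Finset.sum_le_sum_of_subset_of_nonneg
      · intro i hi
        simp only [Finset.mem_image, Finset.mem_filter, Finset.mem_range] at hi ⊢
        obtain ⟨k, hk, rfl⟩ := hi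
        omega
      · intro i _ _
        exact hφ i
    · intro a ha b hb hab
      simp only [Finset.coe_filter, Finset.mem_range, Set.mem_ofPred_eq] at ha hb hab
      omega
  have h3 : ∑ k ∈ (Finset.range m).filter (fun k => ¬ j ≤ k), φ (j - k) ≤
      ∑ i ∈ Finset.range m, φ i := by
    rw [← Finset.sum_image (s := (Finset.range m).filter (fun k => ¬ j ≤ k))
      (g := fun k => j - k) (f := φ)]
    · apply Finset.sum_le_sum_of_subset_of_nonneg
      · intro i hi
        simp only [Finset.mem_image, Finset.mem_filter, Finset.mem_range] at hi ⊢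
        obtain ⟨k, hk, rfl⟩ := hi
        omega
      · intro i _ _
        exact hφ i
    · intro a ha b hb hab
      simp only [Finset.coe_filter, Finset.mem_range, Set.mem_ofPred_eq] at ha hb hab
      omega
  linarith

theorem p_pz (hc : S_chainSet) (hd : S_disc) (he : S_discEvents) (hq : S_QM)
    (h1 : S_armBasic) : S_pz := by
  classical
  obtain ⟨C, hC, hc⟩ := hc
  refine ⟨1 / (2 * C), by positivity, ?_⟩
  intro Ω _ P _ ξ ring hcl J N hJ hN
  obtain ⟨m0, hm0⟩ := hc 0 N J hJ hN
  refine ⟨max m0 1, fun m hm => ?_⟩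
  have hm1 : 1 ≤ m := le_of_max_le_right hm
  have hmm := hm0 m (le_of_max_le_left hm)
  set E := edgesIn 0 N with hE
  set p : ℝ := Real.exp (-((E.card : ℝ) / m)) / m with hp
  have hlocA : Loc (Arm 0 0 (10 * (J : ℤ) + 2)) := (h1.1 0 0 (10 * (J : ℤ) + 2)).2.2.2
  have hF : Loc (armV 0 J) := by
    obtain ⟨S, hS⟩ := hlocA
    refine ⟨S, fun B B' h => ?_⟩
    unfold armV
    simp only [hS B B' h]
  have hdd := hd Ω P ξ ring hcl E m (armV 0 J) (armV 0 J) hm1 hF hF
  set a : ℕ → Ω → ℝ := fun k ω => armV 0 J (disc ξ ring E m k ω) with ha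
  set φ : ℕ → ℝ := fun i => Ex (fun B => armV 0 J B * ((stepV E p)^[i] (armV 0 J)) B) with hφ
  have hint : ∀ j k, j ≤ k → Integrable (fun ω => a j ω * a k ω) P ∧
      ∫ ω, a j ω * a k ω ∂P = φ (k - j) := fun j k hjk => hdd j k hjk
  have ha01 : ∀ k ω, a k ω = 0 ∨ a k ω = 1 := by
    intro k ω
    simp only [ha, armV]
    split
    · exact Or.inr rfl
    · exact Or.inl rfl
  have ha0 : ∀ k ω, 0 ≤ a k ω := fun k ω => by
    rcases ha01 k ω with h | h <;> rw [h] <;> norm_num
  have haa : ∀ k ω, a k ω * a k ω = a k ω := fun k ω => by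
    rcases ha01 k ω with h | h <;> rw [h] <;> norm_num
  have hφnn : ∀ i, 0 ≤ φ i := fun i => by
    have h2 := (hint 0 i (Nat.zero_le _)).2
    rw [Nat.sub_zero] at h2
    rw [← h2]
    exact integral_nonneg fun ω => mul_nonneg (ha0 0 ω) (ha0 i ω)
  set A : ℝ := al 0 (10 * (J : ℤ) + 2) with hA
  have hApos : 0 < A := (hq.1 0 (10 * (J : ℤ) + 2) le_rfl (by positivity)).1
  have hφ0 : φ 0 = A := by
    have h2 : φ 0 = Ex (fun B => if Arm 0 0 (10 * (J : ℤ) + 2) B then (1 : ℝ) else 0) := by
      simp only [hφ, Function.iterate_zero, id_eq]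
      congr 1
      funext B
      unfold armV
      split
      · norm_num
      · norm_num
    rw [h2, p3c_Ex _ hlocA]
    rfl
  -- the sum and its moments
  have hintk : ∀ k, Integrable (a k) P ∧ ∫ ω, a k ω ∂P = A := fun k => by
    have h2 := hint k k le_rfl
    rw [Nat.sub_self, hφ0] at h2
    simp only [haa] at h2
    exact h2
  set X : Ω → ℝ := fun ω => ∑ k ∈ Finset.range m, a k ω with hX
  have hXint : Integrable X P := integrable_finsetSum _ fun k _ => (hintk k).1
  have hEX : ∫ ω, X ω ∂P = m * A := by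
    rw [hX, integral_finsetSum _ fun k _ => (hintk k).1]
    rw [Finset.sum_congr rfl fun k _ => (hintk k).2]
    rw [Finset.sum_const, Finset.card_range, nsmul_eq_mul]
  have hjk : ∀ j k, Integrable (fun ω => a j ω * a k ω) P ∧
      ∫ ω, a j ω * a k ω ∂P = (if j ≤ k then φ (k - j) else φ (j - k)) := by
    intro j k
    split
    · rename_i h
      exact hint j k h
    · rename_i h
      have h2 := hint k j (by omega)
      simp only [mul_comm (a k _) (a j _)] at h2
      exact h2
  have hX2 : (fun ω => X ω ^ 2) = fun ω => ∑ j ∈ Finset.range m, ∑ k ∈ Finset.range m,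
      a j ω * a k ω := by
    funext ω
    rw [hX, pow_two, Finset.sum_mul_sum]
  have hX2int : Integrable (fun ω => X ω ^ 2) P := by
    rw [hX2]
    exact integrable_finsetSum _ fun j _ => integrable_finsetSum _ fun k _ => (hjk j k).1
  have hEX2 : ∫ ω, X ω ^ 2 ∂P ≤ 2 * m ^ 2 * C * A ^ 2 := by
    rw [hX2, integral_finsetSum _ fun j _ => integrable_finsetSum _ fun k _ => (hjk j k).1]
    have h2 : ∀ j ∈ Finset.range m, ∫ ω, ∑ k ∈ Finset.range m, a j ω * a k ω ∂P ≤
        2 * (m * (C * A ^ 2)) := by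
      intro j hj
      rw [integral_finsetSum _ fun k _ => (hjk j k).1, Finset.sum_congr rfl fun k _ => (hjk j k).2]
      refine (p3c_sum m φ hφnn j (Finset.mem_range.1 hj)).trans ?_
      have h3 : ∑ i ∈ Finset.range m, φ i ≤ m * (C * A ^ 2) := by
        have hm' : (0 : ℝ) < m := by exact_mod_cast hm1
        have h4 := (div_le_iff₀ hm').1 hmm
        rw [mul_comm (m : ℝ)]
        exact h4
      linarith
    refine (Finset.sum_le_sum h2).trans (le_of_eq ?_)
    rw [Finset.sum_const, Finset.card_range, nsmul_eq_mul]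
    ring
  -- the event
  obtain ⟨hmeas, -, -⟩ := he Ω P ξ ring hcl J N m hJ hN hm1
  have hev := hmeas 0
  set ev := evA ξ ring 0 J N m with hevdef
  have hX0 : ∀ ω, ω ∉ ev → X ω = 0 := by
    intro ω hω
    refine Finset.sum_eq_zero fun k hk => ?_
    simp only [ha, armV]
    rw [if_neg]
    intro harm
    exact hω ⟨k, (Finset.mem_range.1 hk).le, harm⟩
  have hmpos : (0 : ℝ) < m := by exact_mod_cast hm1
  set lam : ℝ := 1 / (2 * m * C * A) with hlam
  have hlampos : 0 < lam := by positivity
  have hpt : ∀ ω, X ω ≤ lam / 2 * X ω ^ 2 + 1 / (2 * lam) * ev.indicator (fun _ => (1 : ℝ)) ω := by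
    intro ω
    by_cases hω : ω ∈ ev
    · rw [Set.indicator_of_mem hω]
      have h2 : 0 ≤ (lam * X ω - 1) ^ 2 / (2 * lam) := by positivity
      have h3 : (lam * X ω - 1) ^ 2 / (2 * lam) = lam / 2 * X ω ^ 2 + 1 / (2 * lam) * 1 - X ω := by
        field_simp
        ring
      linarith
    · rw [Set.indicator_of_notMem hω, hX0 ω hω]
      norm_num
  have hindint : Integrable (ev.indicator (fun _ => (1 : ℝ))) P :=
    (integrable_const (1 : ℝ)).indicator hev
  have h2 := integral_mono hXint ((hX2int.const_mul (lam / 2)).add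
    (hindint.const_mul (1 / (2 * lam)))) hpt
  simp only [Pi.add_apply] at h2
  rw [integral_add (hX2int.const_mul (lam / 2)) (hindint.const_mul (1 / (2 * lam))),
    integral_const_mul, integral_const_mul, hEX] at h2
  have h3 : ∫ ω, ev.indicator (fun _ => (1 : ℝ)) ω ∂P = P.real ev := integral_indicator_one hev
  rw [h3] at h2
  have h4 : lam / 2 * ∫ ω, X ω ^ 2 ∂P ≤ m * A / 2 := by
    refine (mul_le_mul_of_nonneg_left hEX2 (by positivity)).trans (le_of_eq ?_)
    rw [hlam]
    field_simp
  have h5 : m * A / 2 ≤ 1 / (2 * lam) * P.real ev := by linarith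
  have h6 : 1 / (2 * lam) = m * C * A := by
    rw [hlam]
    field_simp
  rw [h6] at h5
  have h7 : 1 / (2 * C) ≤ P.real ev := by
    rw [div_le_iff₀ (by positivity)]
    have h8 : 0 < (m : ℝ) * A := by positivity
    nlinarith
  rw [measureReal_def] at h7
  exact (ENNReal.ofReal_le_iff_le_toReal (measure_ne_top P ev)).2 h7

end TriX
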