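import Pool.Agent.EX.Spec4

/-! Project EX (MP_68260e), module EX-P4: existence of the exclusion process for regular ring
times (backward stirring paths). -/

open MeasureTheory ProbabilityTheory

namespace TriX

/-- `e` joins `z` and `z'`. -/
private def Touch (e : Edge) (z z' : V) : Prop := (z = e.1 ∧ z' = tgt e) ∨ (z = tgt e ∧ z' = e.1)

/-- No edge touching `x` rings in `U`. -/
private def Quiet (ring : Edge → Set ℝ) (x : V) (U : Set ℝ) : Prop :=
  ∀ e z', Touch e x z' → ∀ s ∈ ring e, s ∉ U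

/-- The backward path started at `x` just before time `T` ends at `y`. -/
private inductive Tr (ring : Edge → Set ℝ) : ℝ → V → V → Prop
  | stop (T : ℝ) (x : V) : Quiet ring x (Set.Ioo 0 T) → Tr ring T x x
  | jump (T s : ℝ) (x z y : V) (e : Edge) : Touch e x z → s ∈ ring e → 0 < s → s < T →
      Quiet ring x (Set.Ioo s T) → Tr ring s z y → Tr ring T x y

private lemma dir_ne (i : Fin 3) : dir i ≠ 0 := by
  fin_cases i <;> simp [dir]

private lemma tgt_ne (e : Edge) : tgt e ≠ e.1 := by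
  intro h
  apply dir_ne e.2
  unfold tgt at h
  simpa using h

private lemma touch_unique {e : Edge} {x z z' : V} (h : Touch e x z) (h' : Touch e x z') :
    z = z' := by
  rcases h with ⟨h1, h2⟩ | ⟨h1, h2⟩ <;> rcases h' with ⟨h3, h4⟩ | ⟨h3, h4⟩
  · rw [h2, h4]
  · exact absurd (h3.symm.trans h1) (tgt_ne e)
  · exact absurd (h1.symm.trans h3) (tgt_ne e)
  · rw [h2, h4]

private lemma touch_symm {e : Edge} {x z : V} (h : Touch e x z) : Touch e z x := by
  rcases h with ⟨h1, h2⟩ | ⟨h1, h2⟩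
  · exact Or.inr ⟨h2, h1⟩
  · exact Or.inl ⟨h2, h1⟩

private lemma Quiet.mono {ring : Edge → Set ℝ} {x : V} {U U' : Set ℝ} (h : Quiet ring x U)
    (hU : U' ⊆ U) : Quiet ring x U' := fun e z' ht s hs hs' => h e z' ht s hs (hU hs')

private lemma touch_finite (x : V) : {e : Edge | ∃ z', Touch e x z'}.Finite := by
  apply Set.Finite.subset (Set.finite_range
    (fun p : Fin 3 × Bool => ((if p.2 then x else x - dir p.1, p.1) : Edge)))
  rintro ⟨v, i⟩ ⟨z', h⟩
  rcases h with ⟨h1, -⟩ | ⟨h1, -⟩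
  · refine ⟨(i, true), ?_⟩
    simp only [if_true] at *
    rw [h1]
  · refine ⟨(i, false), ?_⟩
    rw [h1]
    simp [tgt]

private lemma rings_finite {ring : Edge → Set ℝ} (hr : Regular ring) (x : V) (T : ℝ) :
    {s : ℝ | ∃ e z', Touch e x z' ∧ s ∈ ring e ∧ s ∈ Set.Ioc 0 T}.Finite := by
  apply Set.Finite.subset ((touch_finite x).biUnion (fun e _ => hr.locFin e T))
  rintro s ⟨e, z', h1, h2, h3⟩
  exact Set.mem_biUnion (show e ∈ {e : Edge | ∃ z', Touch e x z'} from ⟨z', h1⟩) ⟨h2, h3⟩

private lemma near {ring : Edge → Set ℝ} (hr : Regular ring) (x : V) (t : ℝ) :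
    ∃ ε > 0, ∀ e z', Touch e x z' → ∀ s ∈ ring e, 0 < s → |s - t| < ε → s = t := by
  set F := {s : ℝ | ∃ e z', Touch e x z' ∧ s ∈ ring e ∧ s ∈ Set.Ioc 0 (t + 1)} with hF
  have hfin : F.Finite := rings_finite hr x (t + 1)
  have hopen : IsOpen (F \ {t})ᶜ := (hfin.subset Set.diff_subset).isClosed.isOpen_compl
  have hmem : t ∈ (F \ {t})ᶜ := fun h => h.2 rfl
  obtain ⟨ε, hε, hball⟩ := Metric.isOpen_iff.1 hopen t hmem
  refine ⟨min ε 1, lt_min hε one_pos, ?_⟩
  intro e z' ht s hs hs0 hst
  by_contra hne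
  have h1 : s ∈ Metric.ball t ε := by
    rw [Metric.mem_ball, Real.dist_eq]
    exact hst.trans_le (min_le_left _ _)
  have h2 : |s - t| < 1 := hst.trans_le (min_le_right _ _)
  have h3 := (abs_lt.1 h2).2
  exact hball h1 ⟨⟨e, z', ht, hs, hs0, by linarith⟩, hne⟩

private lemma tr_congr {ring : Edge → Set ℝ} {x y : V} {T1 T2 : ℝ} (h12 : T1 ≤ T2)
    (hq : ∀ e z', Touch e x z' → ∀ s ∈ ring e, 0 < s → ¬ (T1 ≤ s ∧ s < T2)) :
    Tr ring T1 x y ↔ Tr ring T2 x y := by
  constructor
  · intro h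
    cases h with
    | stop _ _ h =>
      apply Tr.stop
      intro e z' ht s hs hs'
      by_cases h1 : s < T1
      · exact h e z' ht s hs ⟨hs'.1, h1⟩
      · exact hq e z' ht s hs hs'.1 ⟨not_lt.1 h1, hs'.2⟩
    | jump _ s _ z _ e ht hs h0 hlt hqu htr =>
      refine Tr.jump T2 s x z y e ht hs h0 (hlt.trans_le h12) ?_ htr
      intro e' z' ht' s' hs' hs''
      by_cases h1 : s' < T1
      · exact hqu e' z' ht' s' hs' ⟨hs''.1, h1⟩
      · exact hq e' z' ht' s' hs' (h0.trans hs''.1) ⟨not_lt.1 h1, hs''.2⟩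
  · intro h
    cases h with
    | stop _ _ h => exact Tr.stop _ _ (h.mono (Set.Ioo_subset_Ioo_right h12))
    | jump _ s _ z _ e ht hs h0 hlt hqu htr =>
      have hsT : s < T1 := by
        by_contra hcon
        exact hq e z ht s hs h0 ⟨not_lt.1 hcon, hlt⟩
      exact Tr.jump T1 s x z y e ht hs h0 hsT (hqu.mono (Set.Ioo_subset_Ioo_right h12)) htr

private lemma tr_unique {ring : Edge → Set ℝ} (hr : Regular ring) {T : ℝ} {x y y' : V}
    (h : Tr ring T x y) (h' : Tr ring T x y') : y = y' := by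
  induction h generalizing y' with
  | stop T x hq =>
    cases h' with
    | stop _ _ _ => rfl
    | jump _ s _ z _ e ht hs h0 hlt _ _ => exact absurd ⟨h0, hlt⟩ (hq e z ht s hs)
  | jump T s x z y e ht hs h0 hlt hqu htr ih =>
    cases h' with
    | stop _ _ hq => exact absurd ⟨h0, hlt⟩ (hq e z ht s hs)
    | jump _ s' _ z' _ e' ht' hs' h0' hlt' hqu' htr' =>
      have hss : s = s' := by
        rcases lt_trichotomy s s' with h1 | h1 | h1
        · exact absurd ⟨h1, hlt'⟩ (hqu e' z' ht' s' hs')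
        · exact h1
        · exact absurd ⟨h1, hlt⟩ (hqu' e z ht s hs)
      subst hss
      have hee : e = e' := hr.simple e e' s h0 hs hs'
      subst hee
      have hzz : z = z' := touch_unique ht ht'
      subst hzz
      exact ih htr'

private lemma tr_jump {ring : Edge → Set ℝ} (hr : Regular ring) {T s : ℝ} {x z y : V} {e : Edge}
    (ht : Touch e x z) (hs : s ∈ ring e) (h0 : 0 < s) (hlt : s < T)
    (hq : Quiet ring x (Set.Ioo s T)) (h : Tr ring T x y) : Tr ring s z y := by
  cases h with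
  | stop _ _ hq' => exact absurd ⟨h0, hlt⟩ (hq' e z ht s hs)
  | jump _ s' _ z' _ e' ht' hs' h0' hlt' hqu' htr' =>
    have hss : s = s' := by
      rcases lt_trichotomy s s' with h1 | h1 | h1
      · exact absurd ⟨h1, hlt'⟩ (hq e' z' ht' s' hs')
      · exact h1
      · exact absurd ⟨h1, hlt⟩ (hqu' e z ht s hs)
    subst hss
    have hee : e = e' := hr.simple e e' s h0 hs hs'
    subst hee
    have hzz : z = z' := touch_unique ht ht'
    subst hzz
    exact htr'

private lemma reach_touch {ring : Edge → Set ℝ} {T s : ℝ} {x z w : V} {e : Edge}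
    (ht : Touch e x z) (hs : s ∈ ring e) (h0 : 0 < s) (hlt : s < T)
    (h : Reach ring s z w) : Reach ring T x w := by
  rcases ht with ⟨h1, h2⟩ | ⟨h1, h2⟩
  · subst h1 h2
    exact Reach.fwd T s e w hs h0 hlt h
  · subst h1 h2
    exact Reach.bwd T s e w hs h0 hlt h

private lemma tr_exists {ring : Edge → Set ℝ} (hr : Regular ring) (T : ℝ) (x : V) :
    ∃ y, Tr ring T x y := by
  set Y : Set V := {y | Reach ring T x y} with hY
  have hYf : Y.Finite := hr.reach T x
  set S : Set ℝ := ⋃ v ∈ Y, {s : ℝ | ∃ e z', Touch e v z' ∧ s ∈ ring e ∧ s ∈ Set.Ioc 0 T} with hS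
  have hSf : S.Finite := hYf.biUnion (fun v _ => rings_finite hr v T)
  have key : ∀ n : ℕ, ∀ (T' : ℝ) (z : V), T' ≤ T → (∀ w, Reach ring T' z w → Reach ring T x w) →
      (S ∩ Set.Iio T').ncard ≤ n → ∃ y, Tr ring T' z y := by
    intro n
    induction n with
    | zero =>
      intro T' z hT' hz hcard
      refine ⟨z, Tr.stop _ _ ?_⟩
      intro e z' ht s hs hs'
      have h1 : (S ∩ Set.Iio T') = ∅ := by
        rw [← Set.ncard_eq_zero (hSf.inter_of_left _)]
        omega
      have h2 : s ∈ S ∩ Set.Iio T' := by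
        refine ⟨?_, hs'.2⟩
        exact Set.mem_biUnion (show z ∈ Y from hz z (Reach.refl _ _))
          ⟨e, z', ht, hs, hs'.1, hs'.2.le.trans hT'⟩
      rw [h1] at h2
      exact h2
    | succ n ih =>
      intro T' z hT' hz hcard
      set G := {s : ℝ | ∃ e z', Touch e z z' ∧ s ∈ ring e ∧ s ∈ Set.Ioo 0 T'} with hG
      have hGf : G.Finite := (rings_finite hr z T').subset (by
        rintro s ⟨e, z', h1, h2, h3⟩
        exact ⟨e, z', h1, h2, h3.1, h3.2.le⟩)
      by_cases hne : G.Nonempty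
      · obtain ⟨s, hsG, hmax⟩ := Set.exists_max_image G id hGf hne
        obtain ⟨e, z', ht, hs, hs'⟩ := hsG
        have hquiet : Quiet ring z (Set.Ioo s T') := by
          intro e' z'' ht' s' hs2 hs3
          have h1 : s' ∈ G := ⟨e', z'', ht', hs2, hs'.1.trans hs3.1, hs3.2⟩
          have h2 := hmax s' h1
          simp only [id] at h2
          exact absurd hs3.1 (not_lt.2 h2)
        have hsS : s ∈ S := Set.mem_biUnion (show z ∈ Y from hz z (Reach.refl _ _))
          ⟨e, z', ht, hs, hs'.1, hs'.2.le.trans hT'⟩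
        obtain ⟨y, hy⟩ := ih s z' (hs'.2.le.trans hT')
          (fun w hw => hz w (reach_touch ht hs hs'.1 hs'.2 hw)) (by
            have h1 : (S ∩ Set.Iio s).ncard < (S ∩ Set.Iio T').ncard := by
              apply Set.ncard_lt_ncard _ (hSf.inter_of_left _)
              refine ⟨fun r hr => ⟨hr.1, hr.2.trans hs'.2⟩, fun hcon => ?_⟩
              have h2 : s ∈ S ∩ Set.Iio s := hcon ⟨hsS, hs'.2⟩
              exact lt_irrefl s h2.2
            omega)
        exact ⟨y, Tr.jump T' s z z' y e ht hs hs'.1 hs'.2 hquiet hy⟩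
      · refine ⟨z, Tr.stop _ _ ?_⟩
        intro e z' ht s hs hs'
        exact hne ⟨s, e, z', ht, hs, hs'⟩
  exact key _ T x le_rfl (fun w hw => hw) le_rfl

/-- The backward path started at `x` at time `t` (rings at time `t` included) ends at `y`. -/
private def Nx (ring : Edge → Set ℝ) (t : ℝ) (x y : V) : Prop :=
  ∃ ε > 0, ∀ T ∈ Set.Ioo t (t + ε), Tr ring T x y

private lemma nx_exists {ring : Edge → Set ℝ} (hr : Regular ring) (t : ℝ) (x : V) :
    ∃ y, Nx ring t x y := by
  obtain ⟨ε, hε, hnear⟩ := near hr x t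
  obtain ⟨y, hy⟩ := tr_exists hr (t + ε / 2) x
  refine ⟨y, ε, hε, ?_⟩
  intro T hT
  have hq : ∀ e z', Touch e x z' → ∀ s ∈ ring e, 0 < s → t < s → s < t + ε → False := by
    intro e z' ht s hs h0 h1 h2
    have := hnear e z' ht s hs h0 (by rw [abs_lt]; constructor <;> linarith)
    linarith
  rcases le_total T (t + ε / 2) with h | h
  · exact (tr_congr h (fun e z' ht s hs h0 h1 =>
      hq e z' ht s hs h0 (hT.1.trans_le h1.1) (by linarith [h1.2]))).2 hy
  · exact (tr_congr h (fun e z' ht s hs h0 h1 =>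
      hq e z' ht s hs h0 (by linarith [h1.1]) (h1.2.trans hT.2))).1 hy

private lemma nx_unique {ring : Edge → Set ℝ} (hr : Regular ring) {t : ℝ} {x y y' : V}
    (h : Nx ring t x y) (h' : Nx ring t x y') : y = y' := by
  obtain ⟨ε, hε, h1⟩ := h
  obtain ⟨ε', hε', h2⟩ := h'
  have h3 : 0 < min ε ε' := lt_min hε hε'
  have h4 := min_le_left ε ε'
  have h5 := min_le_right ε ε'
  exact tr_unique hr (h1 (t + min ε ε' / 2) ⟨by linarith, by linarith⟩)
    (h2 (t + min ε ε' / 2) ⟨by linarith, by linarith⟩)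

theorem p_exist : S_exist := by
  intro ring hr B0
  choose f hf using fun t x => nx_exists hr t x
  have hfeq : ∀ t x y, Nx ring t x y → f t x = y := fun t x y h => nx_unique hr (hf t x) h
  refine ⟨fun t x => B0 (f t x), ⟨?_, ?_, ?_⟩, ?_⟩
  · -- right continuity
    intro x t _
    obtain ⟨ε, hε, h⟩ := hf t x
    refine ⟨ε, hε, ?_⟩
    intro s hs
    have : f s x = f t x := by
      apply hfeq
      refine ⟨t + ε - s, by linarith [hs.2], ?_⟩
      intro T hT
      exact h T ⟨hs.1.trans_lt hT.1, by linarith [hT.2]⟩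
    simp only [this]
  · -- exchange
    intro e t ht hte
    have key : ∀ x z : V, Touch e x z → ∃ ε > 0, ∀ s ∈ Set.Ioo (t - ε) t, f t x = f s z := by
      intro x z hxz
      obtain ⟨ε, hε, hnear⟩ := near hr x t
      obtain ⟨ε', hε', hnear'⟩ := near hr z t
      obtain ⟨ε'', hε'', h⟩ := hf t x
      have h3 : 0 < min ε ε'' := lt_min hε hε''
      have h4 := min_le_left ε ε''
      have h5 := min_le_right ε ε''
      have h6 := h (t + min ε ε'' / 2) ⟨by linarith, by linarith⟩
      have h7 : Tr ring t z (f t x) := tr_jump hr hxz hte ht (by linarith) (by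
        intro e' z' ht' s hs hs'
        have := hnear e' z' ht' s hs (ht.trans hs'.1) (by
          rw [abs_lt]; constructor <;> linarith [hs'.1, hs'.2])
        linarith [hs'.1]) h6
      refine ⟨ε', hε', ?_⟩
      intro s hs
      symm
      apply hfeq
      refine ⟨t - s, by linarith [hs.2], ?_⟩
      intro T hT
      refine (tr_congr (T2 := t) (by linarith [hT.2]) ?_).2 h7
      intro e' z' ht' s' hs' h0 h1
      have := hnear' e' z' ht' s' hs' h0 (by
        rw [abs_lt]; constructor <;> linarith [h1.1, h1.2, hT.1, hs.1])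
      linarith [h1.2]
    obtain ⟨ε1, hε1, h1⟩ := key e.1 (tgt e) (Or.inl ⟨rfl, rfl⟩)
    obtain ⟨ε2, hε2, h2⟩ := key (tgt e) e.1 (Or.inr ⟨rfl, rfl⟩)
    refine ⟨min ε1 ε2, lt_min hε1 hε2, ?_⟩
    intro s hs _
    have h4 := min_le_left ε1 ε2
    have h5 := min_le_right ε1 ε2
    exact ⟨by simp only [h1 s ⟨by linarith [hs.1], hs.2⟩],
      by simp only [h2 s ⟨by linarith [hs.1], hs.2⟩]⟩
  · -- keep
    intro x t ht hno
    obtain ⟨ε, hε, hnear⟩ := near hr x t
    obtain ⟨ε'', hε'', h⟩ := hf t x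
    have h3 : 0 < min ε ε'' := lt_min hε hε''
    have h4 := min_le_left ε ε''
    have h5 := min_le_right ε ε''
    have h6 := h (t + min ε ε'' / 2) ⟨by linarith, by linarith⟩
    refine ⟨ε, hε, ?_⟩
    intro s hs _
    have : f s x = f t x := by
      apply hfeq
      refine ⟨t - s, by linarith [hs.2], ?_⟩
      intro T hT
      refine (tr_congr (T2 := t + min ε ε'' / 2) (by linarith [hT.2]) ?_).2 h6
      intro e' z' ht' s' hs' h0 h1
      have h7 := hnear e' z' ht' s' hs' h0 (by
        rw [abs_lt]; constructor <;> linarith [h1.1, h1.2, hT.1, hs.1])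
      rw [h7] at hs'
      refine hno e' ?_ hs'
      rcases ht' with ⟨h8, -⟩ | ⟨h8, -⟩
      · exact Or.inl h8
      · exact Or.inr h8
    simp only [this]
  · -- time zero
    intro v
    have : f 0 v = v := by
      obtain ⟨ε, hε, hnear⟩ := near hr v 0
      apply hfeq
      refine ⟨ε, hε, ?_⟩
      intro T hT
      apply Tr.stop
      intro e z' ht s hs hs'
      have := hnear e z' ht s hs hs'.1 (by
        rw [abs_lt]; constructor <;> linarith [hs'.1, hs'.2, hT.2])
      linarith [hs'.1]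
    simp only [this]

end TriX
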