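import Pool.Agent.EX.Spec4
import Pool.Agent.EX.A1

/-! Project EX (MP_68260e), module P5: arms to all distances at times in `[0,1]` give an
exceptional time. -/

set_option autoImplicit false

namespace TriX

theorem p5_adj_symm {u v : V} (h : Adj u v) : Adj v u := by
  unfold Adj at *
  omega

theorem p5_conn_symm {S : Set V} {u v : V} (h : Conn S u v) : Conn S v u := by
  obtain ⟨hu, h⟩ := h
  induction h with
  | refl => exact ⟨hu, Relation.ReflTransGen.refl⟩
  | @tail x y _ hxy ih =>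
    exact ⟨hxy.2, Relation.ReflTransGen.head ⟨p5_adj_symm hxy.1, ih.1⟩ ih.2⟩

theorem p5_conn_trans {S : Set V} {u v w : V} (h : Conn S u v) (h' : Conn S v w) : Conn S u w :=
  ⟨h.1, h.2.trans h'.2⟩

theorem p5_conn_mem {S : Set V} {u v : V} (h : Conn S u v) : v ∈ S := (p5_conn_symm h).1

/-- clusters are connected -/
theorem p5_cluster (S : Set V) (z : V) : PreConn {w | Conn S z w} := by
  intro u hu v hv
  have huv : Conn S u v := p5_conn_trans (p5_conn_symm hu) hv
  refine ⟨hu, ?_⟩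
  obtain ⟨_, h⟩ := huv
  clear hv
  induction h with
  | refl => exact Relation.ReflTransGen.refl
  | @tail x y hx hxy ih =>
    exact ih.tail ⟨hxy.1, p5_conn_trans hu ⟨p5_conn_mem hu, hx.tail hxy⟩⟩

theorem p5_nbr_finite (F : Set V) (hF : F.Finite) : {z : V | ∃ a ∈ F, Adj z a}.Finite := by
  have : {z : V | ∃ a ∈ F, Adj z a} ⊆ ⋃ a ∈ F, Ball a 1 := by
    rintro z ⟨a, ha, hz⟩
    simp only [Set.mem_iUnion]
    refine ⟨a, ha, ?_, ?_⟩ <;> rw [abs_le] <;> unfold Adj at hz <;> omega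
  exact (hF.biUnion fun a _ => a1_ball_finite a 1).subset this

/-- an infinite connected set minus a finite set contains an infinite connected set -/
theorem p5_remove (C F : Set V) (hC : C.Infinite) (hconn : PreConn C) (hF : F.Finite) :
    ∃ C' ⊆ C \ F, C'.Infinite ∧ PreConn C' := by
  by_cases hemp : ∃ a ∈ C, a ∈ F
  · obtain ⟨a0, ha0, ha0F⟩ := hemp
    have hkey : ∀ w ∈ C \ F, ∃ z, (∃ a ∈ F, Adj z a) ∧ Conn (C \ F) z w := by
      intro w hw
      have hpath : Conn C w a0 := hconn w hw.1 a0 ha0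
      obtain ⟨_, h⟩ := hpath
      have h2 : ∀ v, Relation.ReflTransGen (fun a b => Adj a b ∧ b ∈ C) w v →
          (v ∉ F ∧ Conn (C \ F) w v) ∨ ∃ z, (∃ a ∈ F, Adj z a) ∧ Conn (C \ F) w z := by
        intro v hv
        induction hv with
        | refl => exact Or.inl ⟨hw.2, hw, Relation.ReflTransGen.refl⟩
        | @tail x y _ hxy ih =>
          rcases ih with ⟨hxF, hx⟩ | ih
          · by_cases hyF : y ∈ F
            · exact Or.inr ⟨x, ⟨y, hyF, hxy.1⟩, hx⟩
            · exact Or.inl ⟨hyF, hx.1, hx.2.tail ⟨hxy.1, hxy.2, hyF⟩⟩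
          · exact Or.inr ih
      rcases h2 a0 h with ⟨h3, _⟩ | ⟨z, hz, hzw⟩
      · exact absurd ha0F h3
      · exact ⟨z, hz, p5_conn_symm hzw⟩
    have hinf : (C \ F).Infinite := hC.sdiff hF
    have hsub : C \ F ⊆ ⋃ z ∈ {z : V | ∃ a ∈ F, Adj z a}, {w | Conn (C \ F) z w} := by
      intro w hw
      obtain ⟨z, hz, hzw⟩ := hkey w hw
      simp only [Set.mem_iUnion]
      exact ⟨z, hz, hzw⟩
    have hex : ∃ z, {w | Conn (C \ F) z w}.Infinite := by
      by_contra hcon
      push Not at hcon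
      refine hinf (((p5_nbr_finite F hF).biUnion fun z _ => ?_).subset hsub)
      exact hcon z
    obtain ⟨z, hz⟩ := hex
    exact ⟨{w | Conn (C \ F) z w}, fun w hw => p5_conn_mem hw, hz, p5_cluster _ z⟩
  · push Not at hemp
    exact ⟨C, fun w hw => ⟨hw, hemp w hw⟩, hC, hconn⟩

/-- arms to all distances give an infinite cluster -/
theorem p5_arms (x : V) (B : Set V) (h : ∀ p : ℕ, Arm x 0 p B) : HasInfCluster B := by
  set B' : Set V := insert x B with hB'
  have hC : {w | Conn B' x w}.Infinite := by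
    intro hfin
    -- a bound for the cluster
    have hbd : ∃ p : ℕ, {w | Conn B' x w} ⊆ Ball x p := by
      have : ∀ w : V, ∃ p : ℕ, w ∈ Ball x p := by
        intro w
        refine ⟨(|w.1 - x.1| + |w.2 - x.2|).toNat, ?_, ?_⟩ <;>
        · rw [Int.toNat_of_nonneg (by positivity)]
          have := abs_nonneg (w.1 - x.1)
          have := abs_nonneg (w.2 - x.2)
          linarith
      choose p hp using this
      refine ⟨hfin.toFinset.sup p, fun w hw => ?_⟩
      have h1 : p w ≤ hfin.toFinset.sup p := Finset.le_sup (hfin.mem_toFinset.mpr hw)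
      exact a1_ball_mono x (by exact_mod_cast h1) (hp w)
    obtain ⟨p, hp⟩ := hbd
    obtain ⟨u, hu, v, hv, w, hw, hwv⟩ := h (p + 1)
    have hux : u = x := by
      have h1 := hu.1
      have h2 := hu.2
      rw [abs_le] at h1 h2
      apply Prod.ext <;> omega
    subst hux
    have hcw : Conn B' u w := by
      refine ⟨Set.mem_insert _ _, Relation.ReflTransGen.mono ?_ _ _ hw⟩
      intro a b hab
      exact ⟨hab.1, Set.mem_insert_of_mem _ hab.2.1⟩
    have hwp : w ∈ Ball u p := hp hcw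
    apply hv
    have h1 := hwp.1
    have h2 := hwp.2
    rw [abs_le] at h1 h2
    constructor <;> rw [abs_le] <;> unfold Adj at hwv <;> push_cast <;> omega
  obtain ⟨C', hC', hinf, hconn⟩ := p5_remove _ {x} hC (p5_cluster B' x) (Set.finite_singleton x)
  refine ⟨C', fun w hw => ?_, hinf, hconn⟩
  have h1 := hC' hw
  have h2 : w ∈ B' := p5_conn_mem h1.1
  rcases h2 with h2 | h2
  · exact absurd h2 h1.2
  · exact h2

/-- exchanging two values does not destroy infinite clusters -/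
theorem p5_swap (e : Edge) (B : Set V) (h : HasInfCluster (swapSet e B)) : HasInfCluster B := by
  obtain ⟨C, hC, hinf, hconn⟩ := h
  obtain ⟨C', hC', hinf', hconn'⟩ := p5_remove C {e.1, tgt e} hinf hconn (Set.toFinite _)
  refine ⟨C', fun w hw => ?_, hinf', hconn'⟩
  have h1 := hC' hw
  have h2 := hC h1.1
  have h3 := h1.2
  simp only [Set.mem_insert_iff, Set.mem_singleton_iff, not_or] at h3
  unfold swapSet at h2
  rw [Set.mem_ofPred_eq, Equiv.swap_apply_of_ne_of_ne h3.1 h3.2] at h2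
  exact h2

/-- uniform version for finitely many sites -/
theorem p5_unif (F : Set V) (hF : F.Finite) (P : V → ℝ → Prop)
    (hmono : ∀ v ε ε', ε' ≤ ε → P v ε → P v ε') (h : ∀ v ∈ F, ∃ ε > 0, P v ε) :
    ∃ ε > 0, ∀ v ∈ F, P v ε := by
  induction F, hF using Set.Finite.induction_on with
  | empty => exact ⟨1, one_pos, fun v hv => absurd hv (Set.notMem_empty v)⟩
  | @insert a s _ _ ih =>
    obtain ⟨ε1, h1, h2⟩ := ih fun v hv => h v (Set.mem_insert_of_mem _ hv)
    obtain ⟨ε2, h3, h4⟩ := h a (Set.mem_insert _ _)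
    refine ⟨min ε1 ε2, lt_min h1 h3, ?_⟩
    rintro v (rfl | hv)
    · exact hmono _ _ _ (min_le_right _ _) h4
    · exact hmono _ _ _ (min_le_left _ _) (h2 v hv)

/-- the left limit of the exclusion process -/
theorem p5_left (ring : Edge → Set ℝ) (η : ℝ → V → Bool) (hreg : Regular ring)
    (hη : IsExclusion ring η) (t : ℝ) (ht : 0 < t) :
    ∃ ζ : Set V, (ζ = {v | η t v = true} ∨ ∃ e, ζ = swapSet e {v | η t v = true}) ∧
      ∀ v, ∃ ε > 0, ∀ s ∈ Set.Ioo (t - ε) t, 0 ≤ s → (η s v = true ↔ v ∈ ζ) := by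
  by_cases h : ∃ e, t ∈ ring e
  · obtain ⟨e, he⟩ := h
    refine ⟨swapSet e {v | η t v = true}, Or.inr ⟨e, rfl⟩, fun v => ?_⟩
    by_cases hv1 : v = e.1
    · obtain ⟨ε, hε, h1⟩ := hη.exchange e t ht he
      refine ⟨ε, hε, fun s hs hs0 => ?_⟩
      have := (h1 s hs hs0).2
      unfold swapSet
      rw [Set.mem_ofPred_eq, hv1, Equiv.swap_apply_left, Set.mem_ofPred_eq, this]
    · by_cases hv2 : v = tgt e
      · obtain ⟨ε, hε, h1⟩ := hη.exchange e t ht he
        refine ⟨ε, hε, fun s hs hs0 => ?_⟩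
        have := (h1 s hs hs0).1
        unfold swapSet
        rw [Set.mem_ofPred_eq, hv2, Equiv.swap_apply_right, Set.mem_ofPred_eq, this]
      · obtain ⟨ε, hε, h1⟩ := hη.keep v t ht (fun e' he' hr => by
          have : e' = e := hreg.simple e' e t ht hr he
          subst this
          rcases he' with h | h
          · exact hv1 h
          · exact hv2 h)
        refine ⟨ε, hε, fun s hs hs0 => ?_⟩
        unfold swapSet
        rw [Set.mem_ofPred_eq, Equiv.swap_apply_of_ne_of_ne hv1 hv2, Set.mem_ofPred_eq, h1 s hs hs0]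
  · refine ⟨{v | η t v = true}, Or.inl rfl, fun v => ?_⟩
    push Not at h
    obtain ⟨ε, hε, h1⟩ := hη.keep v t ht (fun e _ => h e)
    refine ⟨ε, hε, fun s hs hs0 => ?_⟩
    rw [Set.mem_ofPred_eq, h1 s hs hs0]

/-- P5 -/
theorem p_closure (h1 : S_armBasic) : S_closure := by
  obtain ⟨hA, hB, -⟩ := h1
  intro ring η x hreg hη H
  choose τ hτ hτA using H
  obtain ⟨t, ht, φ, hφ, hlim⟩ := isCompact_Icc.tendsto_subseq hτ
  have hlim' : ∀ ε > 0, ∀ᶠ n in Filter.atTop, |τ (φ n) - t| < ε := by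
    intro ε hε
    have := Metric.tendsto_nhds.mp hlim ε hε
    simpa [Real.dist_eq] using this
  -- arms for a configuration which agrees with that of a time
  have harm : ∀ (p n : ℕ) (ζ : Set V), p ≤ n → (∀ v ∈ Ball x p, η (τ (φ n)) v = true ↔ v ∈ ζ) →
      Arm x 0 p ζ := by
    intro p n ζ hpn hag
    have hle : p ≤ φ n := hpn.trans (hφ.id_le n)
    have h2 : Arm x 0 p {v | η (τ (φ n)) v = true} := by
      refine hB x 0 _ 0 p _ le_rfl (by positivity) ?_ le_rfl (hτA (φ n))
      push_cast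
      have : (p : ℤ) ≤ φ n := by exact_mod_cast hle
      linarith
    have h3 := (hA x 0 p).2.1 {v | η (τ (φ n)) v = true} ζ (by
      ext v
      constructor
      · rintro ⟨h4, h5⟩
        exact ⟨(hag v h5.1).mp h4, h5⟩
      · rintro ⟨h4, h5⟩
        exact ⟨(hag v h5.1).mpr h4, h5⟩)
    rwa [h3] at h2
  by_cases hfreq : ∃ᶠ n in Filter.atTop, t ≤ τ (φ n)
  · refine ⟨t, ht.1, p5_arms x _ fun p => ?_⟩
    obtain ⟨ε, hε, h2⟩ := p5_unif (Ball x p) (a1_ball_finite x p)
      (fun v ε => ∀ s ∈ Set.Ico t (t + ε), η s v = η t v)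
      (fun v ε ε' hle h s hs => h s ⟨hs.1, hs.2.trans_le (by linarith)⟩)
      (fun v _ => hη.right_cont v t ht.1)
    obtain ⟨n, hn1, hn2, hn3⟩ := (hfreq.and_eventually ((hlim' ε hε).and
      (Filter.eventually_ge_atTop p))).exists
    refine harm p n _ hn3 fun v hv => ?_
    rw [h2 v hv (τ (φ n)) ⟨hn1, by linarith [(abs_lt.mp hn2).2]⟩]
    rfl
  · rw [Filter.not_frequently] at hfreq
    have ht0 : 0 < t := by
      obtain ⟨n, hn⟩ := hfreq.exists
      have := (hτ (φ n)).1
      linarith [not_le.mp hn]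
    obtain ⟨ζ, hζ, h2⟩ := p5_left ring η hreg hη t ht0
    have h3 : HasInfCluster ζ := by
      refine p5_arms x _ fun p => ?_
      obtain ⟨ε, hε, h4⟩ := p5_unif (Ball x p) (a1_ball_finite x p)
        (fun v ε => ∀ s ∈ Set.Ioo (t - ε) t, 0 ≤ s → (η s v = true ↔ v ∈ ζ))
        (fun v ε ε' hle h s hs hs0 => h s ⟨by linarith [hs.1], hs.2⟩ hs0)
        (fun v _ => h2 v)
      obtain ⟨n, hn1, hn2, hn3⟩ := (hfreq.and ((hlim' ε hε).and
        (Filter.eventually_ge_atTop p))).exists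
      refine harm p n _ hn3 fun v hv => ?_
      exact h4 v hv _ ⟨by linarith [(abs_lt.mp hn2).1], not_le.mp hn1⟩ (hτ (φ n)).1
    rcases hζ with rfl | ⟨e, rfl⟩
    · exact ⟨t, ht.1, h3⟩
    · exact ⟨t, ht.1, p5_swap e _ h3⟩

end TriX
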