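import Pool.Agent.EX.Spec4

/-! Project EX, module P6: the zero-one law by approximation with independent events. -/

set_option autoImplicit false

open MeasureTheory ProbabilityTheory Filter Topology

namespace TriX

theorem p6_null {Ω : Type} [MeasurableSpace Ω] (P : Measure Ω) (D : Set Ω)
    (h : ∀ ε : ℝ, 0 < ε → ∃ A : Set Ω, MeasurableSet A ∧
      P (symmDiff A D) ≤ ENNReal.ofReal ε) : NullMeasurableSet D P := by
  have h' : ∀ n : ℕ, ∃ A : Set Ω, MeasurableSet A ∧
      P (symmDiff A D) ≤ ENNReal.ofReal (1 / ((n : ℝ) + 1)) := fun n => h _ (by positivity)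
  choose A hA hAD using h'
  set U : ℕ → Set Ω := fun n => toMeasurable P (symmDiff (A n) D) with hU
  have hUm : ∀ n, MeasurableSet (U n) := fun n => measurableSet_toMeasurable _ _
  have hsub : ∀ n, symmDiff (A n) D ⊆ U n := fun n => subset_toMeasurable _ _
  have hUP : ∀ n, P (U n) ≤ ENNReal.ofReal (1 / ((n : ℝ) + 1)) := fun n =>
    (measure_toMeasurable _).le.trans (hAD n)
  have hM : MeasurableSet (⋂ n, (A n ∪ U n)) := MeasurableSet.iInter fun n => (hA n).union (hUm n)
  have hDM : D ⊆ ⋂ n, (A n ∪ U n) := by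
    intro x hx
    rw [Set.mem_iInter]
    intro n
    by_cases hxA : x ∈ A n
    · exact Or.inl hxA
    · exact Or.inr (hsub n (Or.inr ⟨hx, hxA⟩))
  have hle : ∀ n : ℕ, P ((⋂ n, (A n ∪ U n)) \ D) ≤ ENNReal.ofReal (1 / ((n : ℝ) + 1)) := by
    intro n
    refine le_trans (measure_mono ?_) (hUP n)
    rintro x ⟨hx, hxD⟩
    rw [Set.mem_iInter] at hx
    rcases hx n with h1 | h1
    · exact hsub n (Or.inl ⟨h1, hxD⟩)
    · exact h1
  have h0 : P ((⋂ n, (A n ∪ U n)) \ D) = 0 := by
    have ht : Tendsto (fun n : ℕ => ENNReal.ofReal (1 / ((n : ℝ) + 1))) atTop (𝓝 0) := by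
      rw [← ENNReal.ofReal_zero]
      exact ENNReal.tendsto_ofReal tendsto_one_div_add_atTop_nhds_zero_nat
    exact le_antisymm (ge_of_tendsto' ht hle) (zero_le)
  refine hM.nullMeasurableSet.congr ?_
  rw [ae_eq_set]
  exact ⟨h0, by rw [Set.sdiff_eq_empty.2 hDM, measure_empty]⟩

theorem p_zeroOne : S_zeroOne := by
  intro Ω _ P _ D c0 hc0 hanti happ
  have hant : ∀ x, Antitone (D x) := fun x => antitone_nat_of_succ_le (hanti x)
  have ht0 : Tendsto (fun n : ℕ => ENNReal.ofReal (1 / ((n : ℝ) + 1))) atTop (𝓝 0) := by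
    rw [← ENNReal.ofReal_zero]
    exact ENNReal.tendsto_ofReal tendsto_one_div_add_atTop_nhds_zero_nat
  -- null measurability
  have hnull : ∀ x J, NullMeasurableSet (D x J) P := fun x J => by
    refine p6_null P _ fun ε hε => ?_
    obtain ⟨A, L, hA, hAD, -⟩ := happ J ε hε
    exact ⟨A x, hA x, hAD x⟩
  -- comparison
  have hcmp : ∀ (S T : Set Ω) , P S ≤ P T + P (symmDiff S T) := fun S T => by
    have : S ⊆ T ∪ symmDiff S T := by
      intro x hx
      by_cases h : x ∈ T
      · exact Or.inl h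
      · exact Or.inr (Or.inl ⟨hx, h⟩)
    exact (measure_mono this).trans (measure_union_le _ _)
  -- the probability does not depend on the centre
  have hle : ∀ x y J, P (D x J) ≤ P (D y J) := by
    intro x y J
    have h1 : ∀ n : ℕ, P (D x J) ≤ P (D y J) + (ENNReal.ofReal (1 / ((n : ℝ) + 1)) +
        ENNReal.ofReal (1 / ((n : ℝ) + 1))) := by
      intro n
      obtain ⟨A, L, hA, hAD, hA0, -⟩ := happ J (1 / ((n : ℝ) + 1)) (by positivity)
      have h2 : P (D x J) ≤ P (A x) + ENNReal.ofReal (1 / ((n : ℝ) + 1)) := by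
        refine (hcmp _ _).trans (add_le_add le_rfl ?_)
        rw [symmDiff_comm]; exact hAD x
      have h3 : P (A y) ≤ P (D y J) + ENNReal.ofReal (1 / ((n : ℝ) + 1)) :=
        (hcmp _ _).trans (add_le_add le_rfl (hAD y))
      rw [hA0 x, ← hA0 y] at h2
      rw [← add_assoc]
      exact h2.trans (add_le_add h3 le_rfl)
    have h2 : Tendsto (fun n : ℕ => P (D y J) + (ENNReal.ofReal (1 / ((n : ℝ) + 1)) +
        ENNReal.ofReal (1 / ((n : ℝ) + 1)))) atTop (𝓝 (P (D y J) + (0 + 0))) :=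
      tendsto_const_nhds.add (ht0.add ht0)
    rw [add_zero, add_zero] at h2
    exact ge_of_tendsto' h2 h1
  have heq : ∀ x J, P (D x J) = P (D 0 J) := fun x J => le_antisymm (hle x 0 J) (hle 0 x J)
  set E : V → Set Ω := fun x => ⋂ J, D x J with hE
  have hEnull : ∀ x, NullMeasurableSet (E x) P := fun x => NullMeasurableSet.iInter (hnull x)
  have hEt : ∀ x, Tendsto (fun J => P (D x J)) atTop (𝓝 (P (E x))) := fun x =>
    tendsto_measure_iInter_atTop (hnull x) (hant x) ⟨0, measure_ne_top _ _⟩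
  have hEeq : ∀ x, P (E x) = P (E 0) := fun x => by
    have h1 := hEt x
    simp only [heq x] at h1
    exact tendsto_nhds_unique h1 (hEt 0)
  have hdiff : ∀ x J, P (D x J \ E x) = P (D 0 J) - P (E 0) := fun x J => by
    rw [measure_sdiff (Set.iInter_subset _ J) (hEnull x) (measure_ne_top _ _), heq, hEeq]
  have hf : Tendsto (fun J => P (D 0 J) - P (E 0)) atTop (𝓝 0) := by
    have h1 := ENNReal.Tendsto.sub (hEt 0) (tendsto_const_nhds (x := P (E 0)))
      (Or.inl (measure_ne_top _ _))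
    rwa [tsub_self] at h1
  -- the main bound
  have hmain : ∀ (n J : ℕ) (ε : ℝ), 0 < ε → P (⋃ x, E x)ᶜ ≤
      (1 - ENNReal.ofReal c0) ^ n + n * (ENNReal.ofReal ε + (P (D 0 J) - P (E 0))) := by
    intro n J ε hε
    classical
    obtain ⟨A, L, hA, hAD, hA0, hc, hind⟩ := happ J ε hε
    set cen : ℕ → V := fun i => ((i : ℤ) * (|L| + 1), 0) with hcen
    have hL : 0 < |L| + 1 := by positivity
    have hinj : Function.Injective cen := by
      intro i j hij
      have h1 : (i : ℤ) * (|L| + 1) = (j : ℤ) * (|L| + 1) := congrArg Prod.fst hij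
      exact_mod_cast mul_right_cancel₀ hL.ne' h1
    set X : Finset V := (Finset.range n).image cen with hX
    have hcard : X.card = n := by
      rw [hX, Finset.card_image_of_injective _ hinj, Finset.card_range]
    have hfar : ∀ x ∈ X, ∀ y ∈ X, x ≠ y → y ∉ Ball x L := by
      intro x hx y hy hxy hb
      rw [hX, Finset.mem_image] at hx hy
      obtain ⟨i, -, rfl⟩ := hx
      obtain ⟨j, -, rfl⟩ := hy
      have hij : i ≠ j := fun h => hxy (by rw [h])
      have h1 : |(j : ℤ) * (|L| + 1) - (i : ℤ) * (|L| + 1)| ≤ L := hb.1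
      rw [← sub_mul, abs_mul, abs_of_pos hL] at h1
      have h2 : (1 : ℤ) ≤ |(j : ℤ) - i| := by
        apply Int.one_le_abs
        intro h
        apply hij
        have : (j : ℤ) = i := by linarith
        exact_mod_cast this.symm
      have h3 : L ≤ |L| := le_abs_self L
      nlinarith
    have h1 := hind X hfar
    have h2 : ∀ x ∈ X, P (A x)ᶜ ≤ 1 - ENNReal.ofReal c0 := by
      intro x _
      rw [prob_compl_eq_one_sub (hA x), hA0 x]
      exact tsub_le_tsub_left hc 1
    have h3 : P (⋂ x ∈ X, (A x)ᶜ) ≤ (1 - ENNReal.ofReal c0) ^ n := by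
      rw [h1, ← hcard]
      exact Finset.prod_le_pow_card _ _ _ h2
    have h4 : (⋃ x, E x)ᶜ ⊆ (⋂ x ∈ X, (A x)ᶜ) ∪ ⋃ x ∈ X, (A x \ E x) := by
      intro ω hω
      by_cases h : ω ∈ ⋃ x ∈ X, (A x \ E x)
      · exact Or.inr h
      · refine Or.inl ?_
        rw [Set.mem_iInter₂]
        intro x hx hxA
        apply h
        rw [Set.mem_iUnion₂]
        refine ⟨x, hx, hxA, fun hxE => hω ?_⟩
        rw [Set.mem_iUnion]
        exact ⟨x, hxE⟩
    have h5 : ∀ x ∈ X, P (A x \ E x) ≤ ENNReal.ofReal ε + (P (D 0 J) - P (E 0)) := by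
      intro x _
      have h6 : A x \ E x ⊆ symmDiff (A x) (D x J) ∪ (D x J \ E x) := by
        rintro ω ⟨h7, h8⟩
        by_cases h : ω ∈ D x J
        · exact Or.inr ⟨h, h8⟩
        · exact Or.inl (Or.inl ⟨h7, h⟩)
      refine (measure_mono h6).trans ((measure_union_le _ _).trans ?_)
      rw [hdiff]
      exact add_le_add (hAD x) le_rfl
    refine (measure_mono h4).trans ((measure_union_le _ _).trans (add_le_add h3 ?_))
    refine (measure_biUnion_finset_le _ _).trans ((Finset.sum_le_sum h5).trans ?_)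
    rw [Finset.sum_const, hcard, nsmul_eq_mul]
  have hpow : ∀ n : ℕ, P (⋃ x, E x)ᶜ ≤ (1 - ENNReal.ofReal c0) ^ n := by
    intro n
    have h1 : Tendsto (fun k : ℕ => (1 - ENNReal.ofReal c0) ^ n +
        n * (ENNReal.ofReal (1 / ((k : ℝ) + 1)) + (P (D 0 k) - P (E 0)))) atTop
        (𝓝 ((1 - ENNReal.ofReal c0) ^ n + n * (0 + 0))) :=
      tendsto_const_nhds.add (ENNReal.Tendsto.const_mul (ht0.add hf)
        (Or.inr (ENNReal.natCast_ne_top n)))
    rw [add_zero, mul_zero, add_zero] at h1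
    exact ge_of_tendsto' h1 fun k => hmain n k _ (by positivity)
  have h0 : P (⋃ x, E x)ᶜ = 0 := by
    have h1 : Tendsto (fun n : ℕ => (1 - ENNReal.ofReal c0) ^ n) atTop (𝓝 0) := by
      apply ENNReal.tendsto_pow_atTop_nhds_zero_of_lt_one
      exact ENNReal.sub_lt_self ENNReal.one_ne_top one_ne_zero (by simpa using hc0)
    exact le_antisymm (ge_of_tendsto' h1 hpow) (zero_le)
  have h1 : ∀ᵐ ω ∂P, ω ∈ ⋃ x, E x := h0
  filter_upwards [h1] with ω hω
  rw [Set.mem_iUnion] at hω
  obtain ⟨x, hx⟩ := hω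
  exact ⟨x, fun J => Set.mem_iInter.1 hx J⟩

end TriX
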