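import Pool.Agent.EX.Spec4

/-! Project EX, module P7: assembly of the process part. -/

set_option autoImplicit false

open MeasureTheory ProbabilityTheory

namespace TriX

theorem t_main (ha : S_armBasic) (hp : S_pz) (he : S_discEvents) (hr : S_reachProb)
    (hs : S_slices) (hg : S_reg) (hd : S_det) (hx : S_exist) (hc : S_closure)
    (hz : S_zeroOne) : S_main := by
  intro Ω _ P _ ξ ring hcs
  obtain ⟨c0, hc0, hp⟩ := hp
  have hreg := hg Ω P ξ ring hcs
  set D : V → ℕ → Set Ω := fun x J => {ω | ∀ η : ℝ → V → Bool,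
    IsExclusion (fun e => ring e ω) η → (∀ v, η 0 v = ξ v ω) →
      ∃ t ∈ Set.Icc (0 : ℝ) 1, Arm x 0 (10 * (J + 1) + 2) {v | η t v = true}} with hD
  have key : ∀ᵐ ω ∂P, ∃ x, ∀ J, ω ∈ D x J := by
    refine hz Ω P D c0 hc0 ?_ ?_
    · intro x J ω hω η h1 h2
      obtain ⟨t, ht, h3⟩ := hω η h1 h2
      refine ⟨t, ht, ha.2.1 x 0 _ 0 _ _ le_rfl (by positivity) ?_ le_rfl h3⟩
      push_cast
      linarith
    · intro J ε hε
      obtain ⟨N0, hN0⟩ := hr (10 * (J + 1) + 2) 2 (ε / 2) (by linarith)
      set N := max N0 (2 * (J + 1)) with hN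
      have hN1 : N0 ≤ N := le_max_left _ _
      have hN2 : 2 * (J + 1) ≤ N := le_max_right _ _
      obtain ⟨m0, hm0⟩ := hs N (ε / 2) (by linarith)
      obtain ⟨m1, hm1⟩ := hp Ω P ξ ring hcs (J + 1) N (by omega) hN2
      set m := max (max m0 m1) 1 with hm
      have hm2 : m0 ≤ m := (le_max_left _ _).trans (le_max_left _ _)
      have hm3 : m1 ≤ m := (le_max_right _ _).trans (le_max_left _ _)
      have hm4 : 1 ≤ m := le_max_right _ _
      obtain ⟨e1, e2, e3⟩ := he Ω P ξ ring hcs (J + 1) N m (by omega) hN2 hm4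
      refine ⟨fun x => evA ξ ring x (J + 1) N m, 20 * N + 20, e1, ?_, e2, hm1 m hm3, e3⟩
      intro x
      have b1 := hN0 Ω P ξ ring hcs N x hN1
      have b2 := hm0 Ω P ξ ring hcs m x hm2
      have b3 : P {ω | ¬ Regular (fun e => ring e ω)} = 0 := hreg
      have hsub : symmDiff (evA ξ ring x (J + 1) N m) (D x J) ⊆
          ({ω | ∃ y ∈ Ball x ((10 * (J + 1) + 2 : ℕ) : ℤ), ∃ z, z ∉ Ball x (5 * N) ∧
            Reach (fun e => ring e ω) 2 y z} ∪
          {ω | ∃ k : ℕ, k < m ∧ 1 < ∑ e ∈ edgesIn x N,
            cnt ring (e, (k : ℝ) / m, ((k : ℝ) + 1) / m) ω}) ∪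
          {ω | ¬ Regular (fun e => ring e ω)} := by
        intro ω hω
        by_contra hbad
        simp only [Set.mem_union, Set.mem_ofPred_eq, not_or, not_exists, not_and, not_not,
          not_lt] at hbad
        obtain ⟨⟨g1, g2⟩, g3⟩ := hbad
        have hiff : ∀ η : ℝ → V → Bool, IsExclusion (fun e => ring e ω) η →
            (∀ v, η 0 v = ξ v ω) →
            ((∃ t ∈ Set.Icc (0 : ℝ) 1, Arm x 0 (10 * (J + 1) + 2) {v | η t v = true}) ↔
              ω ∈ evA ξ ring x (J + 1) N m) := by
          intro η h1 h2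
          have h3 := hd (fun e => ring e ω) η x N m (10 * (J + 1) + 2) h1 hm4 (by positivity)
            (fun k hk => g2 k hk) (by
              intro y hy z hz
              by_contra hz'
              refine g1 y ?_ z hz' hz
              push_cast
              exact hy)
          rw [h3]
          have h4 : {v | η 0 v = true} = {v | ξ v ω = true} := by
            ext v
            simp only [Set.mem_ofPred_eq, h2]
          rw [h4]
          unfold evA disc
          simp only [Set.mem_ofPred_eq]
          push_cast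
          rfl
        have hmem : ω ∈ D x J ↔ ω ∈ evA ξ ring x (J + 1) N m := by
          constructor
          · intro h
            obtain ⟨η, h1, h2⟩ := hx (fun e => ring e ω) g3 (fun v => ξ v ω)
            exact (hiff η h1 h2).1 (h η h1 h2)
          · intro h η h1 h2
            exact (hiff η h1 h2).2 h
        rw [Set.mem_symmDiff] at hω
        tauto
      calc P (symmDiff (evA ξ ring x (J + 1) N m) (D x J)) ≤ _ := measure_mono hsub
        _ ≤ _ := measure_union_le _ _
        _ ≤ (ENNReal.ofReal (ε / 2) + ENNReal.ofReal (ε / 2)) + 0 := by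
            refine add_le_add ((measure_union_le _ _).trans (add_le_add b1 b2)) ?_
            rw [b3]
        _ = ENNReal.ofReal ε := by
            rw [add_zero, ← ENNReal.ofReal_add (by linarith) (by linarith)]
            congr 1
            ring
  filter_upwards [key, hreg] with ω hω hR
  refine ⟨?_, ?_⟩
  · obtain ⟨η, h1, h2⟩ := hx (fun e => ring e ω) hR (fun v => ξ v ω)
    exact ⟨η, h1, h2⟩
  · intro η h1 h2
    obtain ⟨x, hx'⟩ := hω
    exact hc (fun e => ring e ω) η x hR h1 (fun J => hx' J η h1 h2)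

end TriX
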