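import Pool.Agent.EX.Spec1

/-! R1: the rhombus is crossed with probability `1/2`, and the first rectangle. -/

open MeasureTheory

namespace TriX

theorem r1_conn_mono {S S' : Set V} (h : S ⊆ S') {u v : V} (hc : Conn S u v) : Conn S' u v := by
  obtain ⟨h1, h2⟩ := hc
  refine ⟨h h1, ?_⟩
  induction h2 with
  | refl => exact Relation.ReflTransGen.refl
  | tail _ h3 ih => exact ih.tail ⟨h3.1, h h3.2⟩

theorem r1_conn_image (e : V → V) (he : ∀ u v, Adj u v → Adj (e u) (e v)) {S : Set V} {u v : V}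
    (hc : Conn S u v) : Conn (e '' S) (e u) (e v) := by
  obtain ⟨h1, h2⟩ := hc
  refine ⟨⟨u, h1, rfl⟩, ?_⟩
  induction h2 with
  | refl => exact Relation.ReflTransGen.refl
  | tail _ h3 ih => exact ih.tail ⟨he _ _ h3.1, ⟨_, h3.2, rfl⟩⟩

theorem r1_adj_swap {u v : V} (h : Adj u v) : Adj u.swap v.swap := by
  unfold Adj at *
  simp only [Prod.fst_swap, Prod.snd_swap]
  omega

theorem r1_swap_box (B : Set V) (n : ℤ) :
    Prod.swap '' (B ∩ Box 0 n 0 n) ⊆ (Prod.swap '' B) ∩ Box 0 n 0 n := by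
  rintro _ ⟨w, ⟨hw1, hw2⟩, rfl⟩
  refine ⟨⟨w, hw1, rfl⟩, ?_⟩
  obtain ⟨h1, h2, h3, h4⟩ := hw2
  exact ⟨h3, h4, h1, h2⟩

theorem r1_TB_swap (B : Set V) (n : ℤ) : TB 0 n 0 n B ↔ LR 0 n 0 n (Prod.swap '' B) := by
  constructor
  · rintro ⟨u, v, hu, hv, hc⟩
    refine ⟨u.swap, v.swap, hu, hv, ?_⟩
    exact r1_conn_mono (r1_swap_box B n) (r1_conn_image Prod.swap (fun _ _ => r1_adj_swap) hc)
  · rintro ⟨u, v, hu, hv, hc⟩
    refine ⟨u.swap, v.swap, hu, hv, ?_⟩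
    have h1 := r1_conn_image Prod.swap (fun _ _ => r1_adj_swap) hc
    refine r1_conn_mono ?_ h1
    refine (r1_swap_box _ n).trans ?_
    rintro w ⟨⟨w', ⟨w'', hw, rfl⟩, rfl⟩, hw2⟩
    refine ⟨?_, hw2⟩
    simpa using hw

theorem r1_loc_TB (n : ℤ) : Loc (fun B : Set V => TB 0 n 0 n Bᶜ) := by
  refine ⟨Finset.Icc ((0 : ℤ), (0 : ℤ)) (n, n), ?_⟩
  intro B B' h
  have h1 : Bᶜ ∩ Box 0 n 0 n = B'ᶜ ∩ Box 0 n 0 n := by
    ext w
    have h2 : w ∈ Box 0 n 0 n ↔ w ∈ ((Finset.Icc ((0 : ℤ), (0 : ℤ)) (n, n) : Finset V) : Set V) := by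
      rw [Finset.coe_Icc, Set.mem_Icc, Prod.le_def, Prod.le_def]
      constructor
      · rintro ⟨a, b, c, d⟩
        exact ⟨⟨a, c⟩, ⟨b, d⟩⟩
      · rintro ⟨⟨a, c⟩, ⟨b, d⟩⟩
        exact ⟨a, b, c, d⟩
    have h3 := Set.ext_iff.1 h w
    simp only [Set.mem_inter_iff, Set.mem_compl_iff] at h3 ⊢
    rw [h2]
    tauto
  simp only [TB, h1]

theorem r_rhombus (hd : S_dual) (he : S_PrEquiv) (hf : S_PrFlip) (hb : S_PrBasic) :
    S_rhombus := by
  intro n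
  have h1 : Pr (LR 0 n 0 n) = 1 - Pr (fun B : Set V => TB 0 n 0 n Bᶜ) := by
    have h := (hb V (fun B : Set V => TB 0 n 0 n Bᶜ) (fun _ => True)).2.2.2.2.1
      (r1_loc_TB n)
    rw [← h]
    congr 1
    funext B
    exact propext (hd B 0 n 0 n (Int.natCast_nonneg n) (Int.natCast_nonneg n))
  have h2 : Pr (fun B : Set V => TB 0 n 0 n Bᶜ) = Pr (TB 0 n 0 n) := by
    have h := hf V Set.univ (TB 0 n 0 n)
    rw [← h]
    congr 1
    funext B
    have h3 : symmDiff B Set.univ = Bᶜ := by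
      ext w
      simp [Set.mem_symmDiff]
    rw [h3]
  have h3 : Pr (TB 0 n 0 n) = Pr (LR 0 n 0 n) := by
    have h := he V V (Equiv.prodComm ℤ ℤ) (LR 0 n 0 n)
    rw [← h]
    congr 1
    funext B
    exact propext (r1_TB_swap B n)
  linarith

/-- A path which goes from `hz ≤ m1` to `hz ≥ m2` contains a crossing of the strip. -/
theorem r1_strip (S : Set V) (m1 m2 : ℤ) (hm : m1 ≤ m2) {u v : V} (hc : Conn S u v)
    (hu : hz u ≤ m1) (hv : m2 ≤ hz v) :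
    ∃ s t : V, hz s ≤ m1 ∧ m2 ≤ hz t ∧ Conn (S ∩ {w | m1 - 1 ≤ hz w ∧ hz w ≤ m2 + 1}) s t := by
  set T : Set V := S ∩ {w | m1 - 1 ≤ hz w ∧ hz w ≤ m2 + 1} with hT
  have hmain : ∀ w : V, Relation.ReflTransGen (fun a b => Adj a b ∧ b ∈ S) u w →
      w ∈ S ∧ ((∃ s t : V, hz s ≤ m1 ∧ m2 ≤ hz t ∧ Conn T s t) ∨ hz w ≤ m1 ∨
        (hz w < m2 ∧ ∃ s : V, hz s ≤ m1 ∧ Conn T s w)) := by
    intro w hw
    induction hw with
    | refl => exact ⟨hc.1, Or.inr (Or.inl hu)⟩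
    | tail _ h1 ih =>
      rename_i w z _
      obtain ⟨hadj, hz1⟩ := h1
      refine ⟨hz1, ?_⟩
      have hstep : hz z ≤ hz w + 2 ∧ hz w - 2 ≤ hz z := by
        unfold Adj at hadj
        unfold hz
        omega
      obtain ⟨hwS, ih⟩ := ih
      rcases ih with ih | ih | ⟨ih1, s, ih2, ih3⟩
      · exact Or.inl ih
      · by_cases h2 : hz z ≤ m1
        · exact Or.inr (Or.inl h2)
        · have hwT : w ∈ T := ⟨hwS, by constructor <;> omega⟩
          by_cases h3 : m2 ≤ hz w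
          · exact Or.inl ⟨w, w, ih, h3, hwT, Relation.ReflTransGen.refl⟩
          · have hzT : z ∈ T := ⟨hz1, by constructor <;> omega⟩
            have h4 : Conn T w z := ⟨hwT, Relation.ReflTransGen.single ⟨hadj, hzT⟩⟩
            by_cases h5 : m2 ≤ hz z
            · exact Or.inl ⟨w, z, ih, h5, h4⟩
            · exact Or.inr (Or.inr ⟨by omega, w, ih, h4⟩)
      · by_cases h2 : hz z ≤ m1
        · exact Or.inr (Or.inl h2)
        · have hzT : z ∈ T := ⟨hz1, by constructor <;> omega⟩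
          have h4 : Conn T s z := ⟨ih3.1, ih3.2.tail ⟨hadj, hzT⟩⟩
          by_cases h5 : m2 ≤ hz z
          · exact Or.inl ⟨s, z, ih2, h5, h4⟩
          · exact Or.inr (Or.inr ⟨by omega, s, ih2, h4⟩)
  obtain ⟨hvS, h1⟩ := hmain v hc.2
  rcases h1 with h1 | h1 | ⟨h1, _⟩
  · exact h1
  · exact ⟨v, v, h1, hv, ⟨hvS, by constructor <;> omega⟩, Relation.ReflTransGen.refl⟩
  · omega

theorem r1_LR_HC (B : Set V) (n : ℤ) (hn : 2 ≤ n) (h : LR 0 n 0 n B) : HC n (2 * n) 0 n B := by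
  obtain ⟨u, v, hu, hv, hc⟩ := h
  have hv1 : v ∈ B ∩ Box 0 n 0 n := by
    have h1 : ∀ w : V, Relation.ReflTransGen (fun a b => Adj a b ∧ b ∈ B ∩ Box 0 n 0 n) u w →
        w ∈ B ∩ Box 0 n 0 n := by
      intro w hw
      induction hw with
      | refl => exact hc.1
      | tail _ h1 _ => exact h1.2
    exact h1 v hc.2
  have hu1 := hc.1.2
  have hv2 := hv1.2
  obtain ⟨s, t, hs, ht, hst⟩ := r1_strip (B ∩ Box 0 n 0 n) (n + 1) (2 * n - 1) (by omega) hc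
    (by
      obtain ⟨h1, h2, h3, h4⟩ := hu1
      unfold hz
      omega)
    (by
      obtain ⟨h1, h2, h3, h4⟩ := hv2
      unfold hz
      omega)
  refine ⟨s, t, hs, ht, r1_conn_mono ?_ hst⟩
  rintro w ⟨⟨hw1, hw2⟩, hw3, hw4⟩
  obtain ⟨h1, h2, h3, h4⟩ := hw2
  exact ⟨hw1, by omega, by omega, h3, h4⟩

/-- The horizontal translation by `-a`. -/
def r1_shift (a : ℤ) : V ≃ V where
  toFun v := (v.1 - a, v.2)
  invFun v := (v.1 + a, v.2)
  left_inv v := by simp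
  right_inv v := by simp

theorem r1_HC_shift (B : Set V) (a : ℤ) (u1 u2 y1 y2 : ℤ) (h : HC (u1 + 2 * a) (u2 + 2 * a) y1 y2 B) :
    HC u1 u2 y1 y2 (r1_shift a '' B) := by
  obtain ⟨s, t, hs, ht, hst⟩ := h
  refine ⟨r1_shift a s, r1_shift a t, ?_, ?_, ?_⟩
  · simp only [r1_shift, Equiv.coe_fn_mk, hz] at *
    omega
  · simp only [r1_shift, Equiv.coe_fn_mk, hz] at *
    omega
  · have h1 := r1_conn_image (r1_shift a) (by
      intro u v huv
      unfold Adj at *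
      simp only [r1_shift, Equiv.coe_fn_mk]
      omega) hst
    refine r1_conn_mono ?_ h1
    rintro _ ⟨w, ⟨hw1, hw2⟩, rfl⟩
    refine ⟨⟨w, hw1, rfl⟩, ?_⟩
    obtain ⟨h2, h3, h4, h5⟩ := hw2
    simp only [hz] at h2 h3
    refine ⟨?_, ?_, h4, h5⟩
    · simp only [r1_shift, Equiv.coe_fn_mk, hz]
      omega
    · simp only [r1_shift, Equiv.coe_fn_mk, hz]
      omega

theorem r_rectBase (h : S_rhombus) (he : S_PrEquiv) (hb : S_PrBasic) : S_rectBase := by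
  intro a ha
  have h1 := h (2 * a)
  rw [← h1]
  have h2 := he V V (r1_shift a) (HC 0 (2 * a) 0 (2 * a))
  rw [← h2]
  refine (hb V _ _).2.2.1 ?_
  intro B hB
  apply r1_HC_shift
  have h3 := r1_LR_HC B ((2 * a : ℕ) : ℤ) (by push_cast; omega) hB
  convert h3 using 1 <;> push_cast <;> ring

end TriX
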