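import Pool.Agent.EX.Spec1

/-! EX-R2a: the explored set is bounded by black sites from above. -/

set_option autoImplicit false

namespace TriX

namespace R2a

lemma adj_symm {u v : V} (h : Adj u v) : Adj v u := by
  unfold Adj at *
  omega

lemma conn_refl {S : Set V} {u : V} (h : u ∈ S) : Conn S u u := ⟨h, Relation.ReflTransGen.refl⟩

lemma conn_trans {S : Set V} {u v w : V} (h : Conn S u v) (h' : Conn S v w) : Conn S u w :=
  ⟨h.1, h.2.trans h'.2⟩

lemma conn_mem_right {S : Set V} {u v : V} (h : Conn S u v) : v ∈ S := by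
  obtain ⟨h1, h2⟩ := h
  induction h2 with
  | refl => exact h1
  | tail _ h3 _ => exact h3.2

lemma conn_step {S : Set V} {u v : V} (hu : u ∈ S) (hv : v ∈ S) (h : Adj u v) : Conn S u v :=
  ⟨hu, Relation.ReflTransGen.single ⟨h, hv⟩⟩

lemma conn_symm {S : Set V} {u v : V} (h : Conn S u v) : Conn S v u := by
  obtain ⟨h1, h2⟩ := h
  induction h2 with
  | refl => exact conn_refl h1
  | @tail x y h3 h4 ih =>
    have hx : x ∈ S := conn_mem_right ⟨h1, h3⟩
    exact conn_trans (conn_step h4.2 hx (adj_symm h4.1)) ih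

lemma conn_mono {S S' : Set V} {u v : V} (hS : S ⊆ S') (h : Conn S u v) : Conn S' u v := by
  obtain ⟨h1, h2⟩ := h
  refine ⟨hS h1, ?_⟩
  exact h2.lift id fun x y hxy => ⟨hxy.1, hS hxy.2⟩

/-- straight path -/
lemma conn_line {S : Set V} (e : V) (he : ∀ v : V, Adj v (v.1 + e.1, v.2 + e.2)) :
    ∀ (n : ℕ) (v : V), (∀ i : ℕ, i ≤ n → (v.1 + i * e.1, v.2 + i * e.2) ∈ S) →
      Conn S v (v.1 + n * e.1, v.2 + n * e.2) := by
  intro n
  induction n with
  | zero =>
    intro v h
    have h0 := h 0 le_rfl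
    have : ((v.1 + ((0 : ℕ) : ℤ) * e.1, v.2 + ((0 : ℕ) : ℤ) * e.2) : V) = v := by
      ext <;> simp
    rw [this] at h0 ⊢
    exact conn_refl h0
  | succ n ih =>
    intro v h
    have h1 := ih v fun i hi => h i (by omega)
    refine conn_trans h1 ?_
    have h2 := h n (by omega)
    have h3 := h (n + 1) le_rfl
    have h4 := he (v.1 + n * e.1, v.2 + n * e.2)
    have h5 : ((v.1 + ((n + 1 : ℕ) : ℤ) * e.1, v.2 + ((n + 1 : ℕ) : ℤ) * e.2) : V) =
        (v.1 + n * e.1 + e.1, v.2 + n * e.2 + e.2) := by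
      ext <;> (push_cast; ring)
    rw [h5] at h3 ⊢
    exact conn_step h2 h3 h4

lemma conn_east {S : Set V} (n : ℕ) (v : V) (h : ∀ i : ℕ, i ≤ n → (v.1 + i, v.2) ∈ S) :
    Conn S v (v.1 + n, v.2) := by
  have := conn_line (S := S) (1, 0) (fun v => by unfold Adj; left; simp) n v (by
    intro i hi
    have := h i hi
    simpa using this)
  simpa using this

lemma conn_west {S : Set V} (n : ℕ) (v : V) (h : ∀ i : ℕ, i ≤ n → (v.1 - i, v.2) ∈ S) :
    Conn S v (v.1 - n, v.2) := by
  have := conn_line (S := S) (-1, 0) (fun v => by unfold Adj; right; left; simp; ring) n v (by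
    intro i hi
    have := h i hi
    have e : ((v.1 + (i : ℤ) * (-1, (0 : ℤ)).1, v.2 + (i : ℤ) * ((-1 : ℤ), (0 : ℤ)).2) : V) =
        (v.1 - i, v.2) := by ext <;> simp [sub_eq_add_neg]
    rw [e]
    exact this)
  have e : ((v.1 + (n : ℤ) * ((-1 : ℤ), (0 : ℤ)).1, v.2 + (n : ℤ) * ((-1 : ℤ), (0 : ℤ)).2) : V) =
        (v.1 - n, v.2) := by ext <;> simp [sub_eq_add_neg]
  rw [e] at this
  exact this

lemma conn_north {S : Set V} (n : ℕ) (v : V) (h : ∀ i : ℕ, i ≤ n → (v.1, v.2 + i) ∈ S) :
    Conn S v (v.1, v.2 + n) := by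
  have := conn_line (S := S) (0, 1) (fun v => by unfold Adj; right; right; left; simp) n v (by
    intro i hi
    have := h i hi
    simpa using this)
  simpa using this

lemma conn_south {S : Set V} (n : ℕ) (v : V) (h : ∀ i : ℕ, i ≤ n → (v.1, v.2 - i) ∈ S) :
    Conn S v (v.1, v.2 - n) := by
  have := conn_line (S := S) (0, -1) (fun v => by unfold Adj; right; right; right; left; simp; ring)
    n v (by
    intro i hi
    have := h i hi
    have e : ((v.1 + (i : ℤ) * ((0 : ℤ), (-1 : ℤ)).1, v.2 + (i : ℤ) * ((0 : ℤ), (-1 : ℤ)).2) : V) =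
        (v.1, v.2 - i) := by ext <;> simp [sub_eq_add_neg]
    rw [e]
    exact this)
  have e : ((v.1 + (n : ℤ) * ((0 : ℤ), (-1 : ℤ)).1, v.2 + (n : ℤ) * ((0 : ℤ), (-1 : ℤ)).2) : V) =
        (v.1, v.2 - n) := by ext <;> simp [sub_eq_add_neg]
  rw [e] at this
  exact this

lemma conn_southeast {S : Set V} (n : ℕ) (v : V) (h : ∀ i : ℕ, i ≤ n → (v.1 + i, v.2 - i) ∈ S) :
    Conn S v (v.1 + n, v.2 - n) := by
  have := conn_line (S := S) (1, -1)
    (fun v => by unfold Adj; right; right; right; right; left; simp; ring)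
    n v (by
    intro i hi
    have := h i hi
    have e : ((v.1 + (i : ℤ) * ((1 : ℤ), (-1 : ℤ)).1, v.2 + (i : ℤ) * ((1 : ℤ), (-1 : ℤ)).2) : V) =
        (v.1 + i, v.2 - i) := by ext <;> simp [sub_eq_add_neg]
    rw [e]
    exact this)
  have e : ((v.1 + (n : ℤ) * ((1 : ℤ), (-1 : ℤ)).1, v.2 + (n : ℤ) * ((1 : ℤ), (-1 : ℤ)).2) : V) =
        (v.1 + n, v.2 - n) := by ext <;> simp [sub_eq_add_neg]
  rw [e] at this
  exact this

/-- horizontal moves -/
lemma conn_horiz {S : Set V} (v : V) (x : ℤ) (h : ∀ x' : ℤ, (x', v.2) ∈ S) : Conn S v (x, v.2) := by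
  rcases le_total v.1 x with h1 | h1
  · have := conn_east (S := S) (x - v.1).toNat v fun i _ => h _
    have e : v.1 + ((x - v.1).toNat : ℤ) = x := by omega
    rw [e] at this
    exact this
  · have := conn_west (S := S) (v.1 - x).toNat v fun i _ => h _
    have e : v.1 - ((v.1 - x).toNat : ℤ) = x := by omega
    rw [e] at this
    exact this

/-- the half plane below -/
lemma conn_lower {S : Set V} (h : ∀ v : V, v.2 < 0 → v ∈ S) (v : V) (hv : v.2 < 0) :
    Conn S v (0, -1) := by
  have h1 := conn_horiz (S := S) v 0 fun x' => h _ hv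
  refine conn_trans h1 ?_
  have h2 := conn_north (S := S) (-1 - v.2).toNat (0, v.2) fun i hi => h _ (by
    show v.2 + (i : ℤ) < 0
    omega)
  have e : ((0, v.2) : V).2 + ((-1 - v.2).toNat : ℤ) = -1 := by
    show v.2 + ((-1 - v.2).toNat : ℤ) = -1
    omega
  rw [e] at h2
  exact h2

/-- the half plane above -/
lemma conn_upper {S : Set V} {b : ℤ} (h : ∀ v : V, b < v.2 → v ∈ S) (v : V) (hv : b < v.2) :
    Conn S v (0, b + 1) := by
  have h1 := conn_horiz (S := S) v 0 fun x' => h _ hv
  refine conn_trans h1 ?_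
  have h2 := conn_south (S := S) (v.2 - (b + 1)).toNat (0, v.2) fun i hi => h _ (by
    show b < v.2 - (i : ℤ)
    omega)
  have e : ((0, v.2) : V).2 - ((v.2 - (b + 1)).toNat : ℤ) = b + 1 := by
    show v.2 - ((v.2 - (b + 1)).toNat : ℤ) = b + 1
    omega
  rw [e] at h2
  exact h2

lemma rho_rho (a : ℤ) (v : V) : rho a (rho a v) = v := by
  unfold rho
  ext
  · simp only
    ring
  · rfl

lemma hz_rho (a : ℤ) (v : V) : hz (rho a v) = 4 * a - hz v := by
  unfold rho hz
  simp only
  ring

lemma snd_rho (a : ℤ) (v : V) : (rho a v).2 = v.2 := rfl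

lemma adj_rho (a : ℤ) {u v : V} (h : Adj u v) : Adj (rho a u) (rho a v) := by
  unfold Adj rho at *
  simp only
  omega

lemma conn_rho (a : ℤ) {S : Set V} (hS : ∀ v, v ∈ S → rho a v ∈ S) {u v : V} (h : Conn S u v) :
    Conn S (rho a u) (rho a v) := by
  obtain ⟨h1, h2⟩ := h
  refine ⟨hS u h1, ?_⟩
  exact h2.lift (rho a) fun x y hxy => ⟨adj_rho a hxy.1, hS y hxy.2⟩

lemma rho_fix {a : ℤ} {v : V} (h : hz v = 2 * a) : rho a v = v := by
  unfold hz at h
  unfold rho
  ext
  · simp only
    omega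
  · rfl

/-- the folding map -/
def fo (a : ℤ) (v : V) : V := if hz v ≤ 2 * a then v else rho a v

lemma fo_hz (a : ℤ) (v : V) : hz (fo a v) ≤ 2 * a := by
  unfold fo
  split_ifs with h
  · exact h
  · rw [hz_rho]
    omega

lemma fo_adj (a : ℤ) {u v : V} (h : Adj u v) : fo a u = fo a v ∨ Adj (fo a u) (fo a v) := by
  unfold fo
  split_ifs with h1 h2 h2
  · exact Or.inr h
  · unfold hz at h1 h2
    by_cases h3 : v.1 = u.1 + 1 ∧ v.2 = u.2 ∧ 2 * u.1 + u.2 = 2 * a - 1
    · left
      unfold rho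
      ext
      · simp only
        omega
      · simp only
        omega
    · right
      unfold Adj rho at *
      simp only
      omega
  · unfold hz at h1 h2
    by_cases h3 : u.1 = v.1 + 1 ∧ v.2 = u.2 ∧ 2 * v.1 + v.2 = 2 * a - 1
    · left
      unfold rho
      ext
      · simp only
        omega
      · simp only
        omega
    · right
      unfold Adj rho at *
      simp only
      omega
  · exact Or.inr (adj_rho a h)

/-- type of a site of `Zr` -/
def Ty (a b : ℤ) (B : Set V) (z : V) : Prop :=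
  hz z < 0 ∨ 4 * a < hz z ∨ z ∈ Qr a b B ∩ B ∨ rho a z ∈ Qr a b B ∩ B

lemma Ty_rho {a b : ℤ} {B : Set V} {z : V} : Ty a b B (rho a z) ↔ Ty a b B z := by
  unfold Ty
  rw [rho_rho, hz_rho]
  constructor
  · rintro (h | h | h | h)
    · right; left; omega
    · left; omega
    · right; right; right; exact h
    · right; right; left; exact h
  · rintro (h | h | h | h)
    · right; left; omega
    · left; omega
    · right; right; right; exact h
    · right; right; left; exact h

lemma Zr_rho {a b : ℤ} {B : Set V} {z : V} : rho a z ∈ Zr a b B ↔ z ∈ Zr a b B := by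
  unfold Zr
  simp only [Set.mem_ofPred_eq, rho_rho, hz_rho, snd_rho]
  constructor
  · rintro (h | h | h | h | h)
    · right; left; exact h
    · left; exact h
    · right; right; left; exact h
    · right; right; right; right; exact ⟨by omega, h.2⟩
    · right; right; right; left; exact ⟨by omega, h.2⟩
  · rintro (h | h | h | h | h)
    · right; left; exact h
    · left; exact h
    · right; right; left; exact h
    · right; right; right; right; exact ⟨by omega, h.2⟩
    · right; right; right; left; exact ⟨by omega, h.2⟩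

lemma Ty_fo {a b : ℤ} {B : Set V} {z : V} : Ty a b B (fo a z) ↔ Ty a b B z := by
  unfold fo
  split_ifs
  · rfl
  · exact Ty_rho

lemma Zr_fo {a b : ℤ} {B : Set V} {z : V} : fo a z ∈ Zr a b B ↔ z ∈ Zr a b B := by
  unfold fo
  split_ifs
  · rfl
  · exact Zr_rho

end R2a

open R2a

theorem r_type (hb : S_bdry) (he : S_expl) : S_type := by
  intro a b B ha hb1 hw
  set Q := Qr a b B with hQ
  set Z := Zr a b B with hZ
  set Kb : Set V := {v | hz v < 0 ∧ v.2 ≤ b} with hKb
  set Kw : Set V := {v | v.2 < 0 ∧ 0 ≤ hz v} with hKw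
  obtain ⟨e1, e2, -, -, -, e6, e7⟩ := he (Rect 0 (2 * a) 0 b) ∅ Kb Kw B
  have hQe : Expl (Rect 0 (2 * a) 0 b) ∅ Kb Kw B = Q := rfl
  rw [hQe] at e1 e2 e6 e7
  have hQR : ∀ v ∈ Q, v ∈ Rect 0 (2 * a) 0 b := by
    intro v hv
    rcases e2 hv with h | h
    · exact h
    · exact absurd h (Set.notMem_empty v)
  -- basic facts on Z
  have hZlow : ∀ v : V, v.2 < 0 → v ∈ Z := fun v hv => Or.inr (Or.inr (Or.inl hv))
  have hZleft : ∀ v : V, hz v < 0 → v.2 ≤ b → v ∈ Z := fun v h1 h2 =>
    Or.inr (Or.inr (Or.inr (Or.inl ⟨h1, h2⟩)))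
  have hZright : ∀ v : V, 4 * a < hz v → v.2 ≤ b → v ∈ Z := fun v h1 h2 =>
    Or.inr (Or.inr (Or.inr (Or.inr ⟨h1, h2⟩)))
  have hZQ : ∀ v ∈ Q, v ∈ Z := fun v hv => Or.inl hv
  have hZb : ∀ v ∈ Z, v.2 ≤ b := by
    rintro v (h | h | h | h | h)
    · exact (hQR v h).2.2.2
    · have := (hQR _ h).2.2.2
      rwa [snd_rho] at this
    · omega
    · exact h.2
    · exact h.2
  have hZup : ∀ v : V, b < v.2 → v ∈ Zᶜ := by
    intro v hv hv'
    have := hZb v hv'
    omega
  -- Z is connected
  have hbase : ∀ v : V, (v.2 < 0 ∨ (hz v < 0 ∧ v.2 ≤ b) ∨ (4 * a < hz v ∧ v.2 ≤ b)) →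
      Conn Z v (0, -1) := by
    rintro v (h | h | h)
    · exact conn_lower hZlow v h
    · by_cases h0 : v.2 < 0
      · exact conn_lower hZlow v h0
      · have h1 := conn_south (S := Z) (v.2 + 1).toNat v fun i hi => hZleft _ (by
          have := h.1
          unfold hz at *
          simp only
          omega) (by
          show v.2 - (i : ℤ) ≤ b
          have := h.2
          omega)
        refine conn_trans h1 (conn_lower hZlow _ ?_)
        show v.2 - ((v.2 + 1).toNat : ℤ) < 0
        omega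
    · by_cases h0 : v.2 < 0
      · exact conn_lower hZlow v h0
      · have h1 := conn_southeast (S := Z) (v.2 + 1).toNat v fun i hi => hZright _ (by
          have := h.1
          unfold hz at *
          simp only
          omega) (by
          show v.2 - (i : ℤ) ≤ b
          have := h.2
          omega)
        refine conn_trans h1 (conn_lower hZlow _ ?_)
        show v.2 - ((v.2 + 1).toNat : ℤ) < 0
        omega
  have hQconn : ∀ v ∈ Q, ∃ k : V, (k.2 < 0 ∨ (hz k < 0 ∧ k.2 ≤ b)) ∧ Conn Z v k := by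
    intro v hv
    by_cases hvB : v ∈ B
    · obtain ⟨s, hs1, hs2⟩ := e6 v ⟨hv, hvB⟩
      rcases hs2 with hs2 | ⟨k, hk1, hk2⟩
      · exact absurd hs2 (Set.notMem_empty s)
      · have h1 : Conn Z v s := conn_mono (fun x hx => hZQ x hx.1) hs1
        refine ⟨k, Or.inr hk1, conn_trans h1 (conn_step (conn_mem_right h1) ?_ hk2)⟩
        exact hZleft k hk1.1 hk1.2
    · obtain ⟨s, hs1, hs2⟩ := e7 v ⟨hv, hvB⟩
      rcases hs2 with hs2 | ⟨k, hk1, hk2⟩
      · exact absurd hs2 (Set.notMem_empty s)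
      · have h1 : Conn Z v s := conn_mono (fun x hx => hZQ x hx.1) hs1
        refine ⟨k, Or.inl hk1.1, conn_trans h1 (conn_step (conn_mem_right h1) ?_ hk2)⟩
        exact hZlow k hk1.1
  have hZo : ∀ v ∈ Z, Conn Z v (0, -1) := by
    rintro v (h | h | h | h | h)
    · obtain ⟨k, hk1, hk2⟩ := hQconn v h
      refine conn_trans hk2 (hbase k ?_)
      rcases hk1 with hk1 | hk1
      · exact Or.inl hk1
      · exact Or.inr (Or.inl hk1)
    · obtain ⟨k, hk1, hk2⟩ := hQconn _ h
      have h3 := conn_rho a (S := Z) (fun v hv => Zr_rho.2 hv) hk2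
      rw [rho_rho] at h3
      refine conn_trans h3 (hbase _ ?_)
      rcases hk1 with hk1 | hk1
      · exact Or.inl hk1
      · right; right
        rw [hz_rho, snd_rho]
        exact ⟨by omega, hk1.2⟩
    · exact hbase v (Or.inl h)
    · exact hbase v (Or.inr (Or.inl h))
    · exact hbase v (Or.inr (Or.inr h))
  have hZpre : PreConn Z := fun u hu v hv => conn_trans (hZo u hu) (conn_symm (hZo v hv))
  -- the outer component
  set A : Set V := {v | ∃ t : V, b < t.2 ∧ Conn Zᶜ v t} with hA
  have hAZ : Disjoint Z A := by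
    rw [Set.disjoint_left]
    rintro v hv ⟨t, _, h⟩
    exact h.1 hv
  have hAo : ∀ v ∈ A, Conn A v (0, b + 1) := by
    rintro v ⟨t, ht, h⟩
    have h1 : Conn Zᶜ v (0, b + 1) := conn_trans h (conn_upper hZup t ht)
    -- all vertices of the path lie in A
    have key : ∀ w, Relation.ReflTransGen (fun x y => Adj x y ∧ y ∈ Zᶜ) v w → w ∈ Zᶜ →
        Relation.ReflTransGen (fun x y => Adj x y ∧ y ∈ A) v w := by
      intro w hw
      induction hw with
      | refl => intro _; exact Relation.ReflTransGen.refl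
      | @tail x y h3 h4 ih =>
        intro hy
        have hx : x ∈ Zᶜ := conn_mem_right ⟨h1.1, h3⟩
        refine (ih hx).tail ⟨h4.1, ?_⟩
        refine ⟨t, ht, ?_⟩
        have h5 : Conn Zᶜ v y := ⟨h1.1, h3.tail h4⟩
        exact conn_trans (conn_symm h5) h
    exact ⟨⟨t, ht, h⟩, key _ h1.2 (conn_mem_right h1)⟩
  have hApre : PreConn A := fun u hu v hv => conn_trans (hAo u hu) (conn_symm (hAo v hv))
  have hAbd : ∀ u ∈ A, ∀ v, Adj u v → v ∈ Z ∨ v ∈ A := by
    rintro u ⟨t, ht, h⟩ v huv
    by_cases hv : v ∈ Z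
    · exact Or.inl hv
    · right
      exact ⟨t, ht, conn_trans (conn_step hv h.1 (adj_symm huv)) h⟩
  -- the starting edge
  set z0 : V := (-b - 1, b) with hz0
  set a0 : V := (-b - 1, b + 1) with ha0
  have hz0Z : z0 ∈ Z := by
    refine hZleft _ ?_ ?_
    · unfold hz
      simp only [hz0]
      omega
    · simp only [hz0]
      exact le_rfl
  have ha0A : a0 ∈ A := by
    have h1 : b < a0.2 := by
      show b < b + 1
      omega
    exact ⟨a0, h1, conn_refl (hZup _ h1)⟩
  have hadj0 : Adj z0 a0 := by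
    unfold Adj
    right; right; left
    exact ⟨rfl, rfl⟩
  have hty0 : Ty a b B z0 := by
    left
    unfold hz
    simp only [hz0]
    omega
  -- the local argument
  have hlocal : ∀ z z' m : V, z ∈ Z → z' ∈ Z → m ∉ Z → Adj z z' → Adj z m → Adj z' m →
      Ty a b B z → Ty a b B z' := by
    intro z z' m hz1 hz1' hm hzz hzm hzm' ht
    by_contra hnt
    -- fold
    have f1 : fo a z ∈ Z := Zr_fo.2 hz1
    have f2 : fo a z' ∈ Z := Zr_fo.2 hz1'
    have f3 : fo a m ∉ Z := fun h => hm (Zr_fo.1 h)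
    have f4 : Ty a b B (fo a z) := Ty_fo.2 ht
    have f5 : ¬ Ty a b B (fo a z') := fun h => hnt (Ty_fo.1 h)
    have f6 : Adj (fo a z) (fo a m) := by
      rcases fo_adj a hzm with h | h
      · rw [h] at f1
        exact absurd f1 f3
      · exact h
    have f7 : Adj (fo a z') (fo a m) := by
      rcases fo_adj a hzm' with h | h
      · rw [h] at f2
        exact absurd f2 f3
      · exact h
    have f8 := fo_hz a z
    have f9 := fo_hz a z'
    have f10 := fo_hz a m
    generalize fo a z = y at *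
    generalize fo a z' = y' at *
    generalize fo a m = n at *
    -- y is known black
    have g1 : y ∈ Kb ∨ y ∈ Q ∩ B := by
      rcases f4 with h | h | h | h
      · exact Or.inl ⟨h, hZb y f1⟩
      · omega
      · exact Or.inr h
      · have h1 := (hQR _ h.1).2.1
        rw [hz_rho] at h1
        rw [rho_fix (by omega)] at h
        exact Or.inr h
    -- y' is known white
    have g2 : y' ∈ Kw ∨ y' ∈ Q \ B := by
      have n1 : 0 ≤ hz y' := by
        by_contra h
        exact f5 (Or.inl (by omega))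
      rcases f2 with h | h | h | h | h
      · right
        exact ⟨h, fun h' => f5 (Or.inr (Or.inr (Or.inl ⟨h, h'⟩)))⟩
      · right
        have h1 := (hQR _ h).2.1
        rw [hz_rho] at h1
        have h2 : rho a y' = y' := rho_fix (by omega)
        rw [h2] at h
        exact ⟨h, fun h' => f5 (Or.inr (Or.inr (Or.inl ⟨h, h'⟩)))⟩
      · exact Or.inl ⟨h, n1⟩
      · omega
      · omega
    -- the third site
    have n1 : 0 ≤ n.2 := by
      by_contra h
      exact f3 (hZlow n (by omega))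
    have n2 : n.2 ≤ b → 0 ≤ hz n := by
      intro h1
      by_contra h
      exact f3 (hZleft n (by omega) h1)
    by_cases h3 : n.2 ≤ b
    · refine f3 (hZQ n ?_)
      exact e1.2 n ⟨n2 h3, f10, n1, h3⟩ y y' (adj_symm f6) (adj_symm f7) g1 g2
    · have h4 : y'.2 = b := by
        have := hZb y' f2
        unfold Adj at f7
        omega
      rcases g2 with h5 | h5
      · have := h5.1
        omega
      · have := hw y' h5.1 h5.2
        omega
  -- the chain
  intro z hzZ d hzd hd
  have hchain := hb Z A hZpre hApre hAZ hAbd z0 hz0Z a0 ha0A z hzZ d hd hadj0 hzd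
  have hinv : ∀ f : V × V, Relation.ReflTransGen (CutStep Z A) (z0, a0) f →
      f.1 ∈ Z ∧ f.2 ∈ A ∧ Adj f.1 f.2 ∧ Ty a b B f.1 := by
    intro f hf
    induction hf with
    | refl => exact ⟨hz0Z, ha0A, hadj0, hty0⟩
    | @tail e f _ h4 ih =>
      obtain ⟨i1, i2, i3, i4⟩ := ih
      obtain ⟨⟨j1, j2, j3⟩, j4⟩ := h4
      refine ⟨j1, j2, j3, ?_⟩
      rcases j4 with ⟨j5, _⟩ | ⟨j5, j6⟩
      · rw [← j5]
        exact i4
      · refine hlocal e.1 f.1 f.2 i1 j1 ?_ j6 ?_ j3 i4
        · obtain ⟨t, _, h⟩ := j2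
          exact h.1
        · rw [← j5]
          exact i3
  exact (hinv _ hchain).2.2.2

end TriX
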