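import Pool.Agent.EX.Spec1

/-! Project EX (MP_68260e), module EX-R2b: half of the horizontal crossings of the rectangle
`0 ≤ hz ≤ 2a`, `0 ≤ y ≤ b` extend to a connection with the upper right half side. -/

open MeasureTheory

namespace TriX

/-! ### Paths -/

private lemma adj_symm {u v : V} (h : Adj u v) : Adj v u := by
  unfold Adj at *
  omega

private lemma conn_refl {S : Set V} {u : V} (h : u ∈ S) : Conn S u u :=
  ⟨h, Relation.ReflTransGen.refl⟩

private lemma conn_right {S : Set V} {u v : V} (h : Conn S u v) : v ∈ S := by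
  obtain ⟨hu, hp⟩ := h
  induction hp with
  | refl => exact hu
  | tail _ h2 _ => exact h2.2

private lemma conn_trans {S : Set V} {u v w : V} (h : Conn S u v) (h' : Conn S v w) :
    Conn S u w := ⟨h.1, h.2.trans h'.2⟩

private lemma conn_single {S : Set V} {u v : V} (hu : u ∈ S) (hv : v ∈ S) (h : Adj u v) :
    Conn S u v := ⟨hu, Relation.ReflTransGen.single ⟨h, hv⟩⟩

private lemma conn_symm {S : Set V} {u v : V} (h : Conn S u v) : Conn S v u := by
  obtain ⟨hu, hp⟩ := h
  induction hp with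
  | refl => exact conn_refl hu
  | tail h1 h2 ih =>
    exact conn_trans (conn_single h2.2 (conn_right ⟨hu, h1⟩) (adj_symm h2.1)) ih

private lemma conn_mono {S S' : Set V} (hS : S ⊆ S') {u v : V} (h : Conn S u v) :
    Conn S' u v := by
  obtain ⟨hu, hp⟩ := h
  refine ⟨hS hu, ?_⟩
  induction hp with
  | refl => exact Relation.ReflTransGen.refl
  | tail _ h2 ih => exact ih.tail ⟨h2.1, hS h2.2⟩

private lemma conn_rho {a : ℤ} {u v : V} (h : Adj u v) : Adj (rho a u) (rho a v) := by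
  unfold Adj rho at *
  simp only
  omega

private lemma rho_rho (a : ℤ) (v : V) : rho a (rho a v) = v := by
  refine Prod.ext ?_ rfl
  simp only [rho]
  ring

private lemma hz_rho (a : ℤ) (v : V) : hz (rho a v) = 4 * a - hz v := by
  unfold rho hz
  ring

private lemma rho_snd (a : ℤ) (v : V) : (rho a v).2 = v.2 := rfl

/-- A path from `u` to `v` with interior in `S`: either an edge, or an edge followed by a
connection in `S` and an edge. -/
private lemma via_cases {S : Set V} {u v : V} (h : Via S u v) :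
    Adj u v ∨ ∃ x y : V, Adj u x ∧ Conn S x y ∧ Adj y v := by
  obtain ⟨w, hp, hw⟩ := h
  rcases Relation.ReflTransGen.cases_head hp with rfl | ⟨x, hx, hxw⟩
  · exact Or.inl hw
  · exact Or.inr ⟨x, w, hx.1, ⟨hx.2, hxw⟩, hw⟩

private lemma via_of_adj {S : Set V} {u v : V} (h : Adj u v) : Via S u v :=
  ⟨u, Relation.ReflTransGen.refl, h⟩

private lemma via_of_conn {S : Set V} {u v x y : V} (hx : Adj u x) (h : Conn S x y)
    (hy : Adj y v) : Via S u v :=
  ⟨y, Relation.ReflTransGen.head ⟨hx, h.1⟩ h.2, hy⟩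

private lemma via_symm {S : Set V} {u v : V} (h : Via S u v) : Via S v u := by
  rcases via_cases h with h | ⟨x, y, hx, hc, hy⟩
  · exact via_of_adj (adj_symm h)
  · exact via_of_conn (adj_symm hy) (conn_symm hc) (adj_symm hx)

private lemma conn_image_rho (a : ℤ) {S S' : Set V} (hS : ∀ v ∈ S, rho a v ∈ S') {u v : V}
    (h : Conn S u v) : Conn S' (rho a u) (rho a v) := by
  obtain ⟨hu, hp⟩ := h
  induction hp with
  | refl => exact conn_refl (hS _ hu)
  | tail h1 h2 ih => exact conn_trans ih (conn_single (conn_right ih) (hS _ h2.2) (conn_rho h2.1))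

private lemma via_rho (a : ℤ) {S S' : Set V} (hS : ∀ v ∈ S, rho a v ∈ S') {u v : V}
    (h : Via S u v) : Via S' (rho a u) (rho a v) := by
  rcases via_cases h with h | ⟨x, y, hx, hc, hy⟩
  · exact via_of_adj (conn_rho h)
  · exact via_of_conn (conn_rho hx) (conn_image_rho a hS hc) (conn_rho hy)

/-- Horizontal segments. -/
private lemma conn_hor {S : Set V} (x y : ℤ) (k : ℕ)
    (h : ∀ j : ℤ, 0 ≤ j → j ≤ k → (x + j, y) ∈ S) : Conn S (x, y) (x + k, y) := by
  induction k with
  | zero =>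
    have := h 0 le_rfl (by simp)
    simp only [add_zero] at this
    simpa using conn_refl this
  | succ k ih =>
    have h1 := ih (fun j hj hj' => h j hj (by push_cast; omega))
    refine conn_trans h1 (conn_single (h k (by positivity) (by push_cast; omega)) ?_ ?_)
    · exact h _ (by positivity) le_rfl
    · exact Or.inl ⟨by push_cast; ring, rfl⟩

/-- Vertical segments. -/
private lemma conn_ver {S : Set V} (x y : ℤ) (k : ℕ)
    (h : ∀ j : ℤ, 0 ≤ j → j ≤ k → (x, y + j) ∈ S) : Conn S (x, y) (x, y + k) := by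
  induction k with
  | zero =>
    have := h 0 le_rfl (by simp)
    simp only [add_zero] at this
    simpa using conn_refl this
  | succ k ih =>
    have h1 := ih (fun j hj hj' => h j hj (by push_cast; omega))
    refine conn_trans h1 (conn_single (h k (by positivity) (by push_cast; omega)) ?_ ?_)
    · exact h _ (by positivity) le_rfl
    · exact Or.inr (Or.inr (Or.inl ⟨rfl, by push_cast; ring⟩))

private lemma conn_hor' {S : Set V} {x x' y : ℤ} (hx : x ≤ x')
    (h : ∀ j : ℤ, x ≤ j → j ≤ x' → (j, y) ∈ S) : Conn S (x, y) (x', y) := by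
  have := conn_hor (S := S) x y (x' - x).toNat (fun j hj hj' => h _ (by omega) (by omega))
  have h2 : x + ((x' - x).toNat : ℤ) = x' := by omega
  rwa [h2] at this

private lemma conn_ver' {S : Set V} {x y y' : ℤ} (hy : y ≤ y')
    (h : ∀ j : ℤ, y ≤ j → j ≤ y' → (x, j) ∈ S) : Conn S (x, y) (x, y') := by
  have := conn_ver (S := S) x y (y' - y).toNat (fun j hj hj' => h _ (by omega) (by omega))
  have h2 : y + ((y' - y).toNat : ℤ) = y' := by omega
  rwa [h2] at this

/-! ### The lower left and the upper right region -/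

private def LL (a b : ℤ) : Set V := {v | (v.2 < 0 ∧ hz v ≤ 2 * a) ∨ (hz v < 0 ∧ v.2 ≤ b)}

private lemma preConn_LL (a b : ℤ) : PreConn (LL a b) := by
  intro u hu v hv
  obtain ⟨x, y⟩ := u
  obtain ⟨x', y'⟩ := v
  simp only [LL, Set.mem_setOf_eq, hz] at hu hv
  have hA : Conn (LL a b) (min x x', y) (x, y) := conn_hor' (min_le_left _ _) (fun j hj hj' => by
    simp only [LL, Set.mem_setOf_eq, hz]; omega)
  have hB : Conn (LL a b) (min x x', min y y') (min x x', y) :=
    conn_ver' (min_le_left _ _) (fun j hj hj' => by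
      simp only [LL, Set.mem_setOf_eq, hz]; omega)
  have hA' : Conn (LL a b) (min x x', y') (x', y') :=
    conn_hor' (min_le_right _ _) (fun j hj hj' => by
      simp only [LL, Set.mem_setOf_eq, hz]; omega)
  have hB' : Conn (LL a b) (min x x', min y y') (min x x', y') :=
    conn_ver' (min_le_right _ _) (fun j hj hj' => by
      simp only [LL, Set.mem_setOf_eq, hz]; omega)
  exact conn_trans (conn_symm (conn_trans hB hA)) (conn_trans hB' hA')

private def UR (a b : ℤ) : Set V :=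
  {v | b < v.2 ∨ (4 * a < hz v ∧ v.2 ≤ b) ∨ (v.2 < 0 ∧ 2 * a < hz v)}

private lemma preConn_UR (a b : ℤ) : PreConn (UR a b) := by
  intro u hu v hv
  obtain ⟨x, y⟩ := u
  obtain ⟨x', y'⟩ := v
  simp only [UR, Set.mem_setOf_eq, hz] at hu hv
  set X : ℤ := |x| + |x'| + |y| + |y'| + 4 * |a| + 1 with hX
  have e1 := le_abs_self x
  have e2 := le_abs_self x'
  have e3 := neg_abs_le y
  have e4 := neg_abs_le y'
  have e5 := le_abs_self a
  have e6 := abs_nonneg x
  have e7 := abs_nonneg x'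
  have e8 := abs_nonneg y
  have e9 := abs_nonneg y'
  have e10 := abs_nonneg a
  have hA : Conn (UR a b) (x, y) (X, y) := conn_hor' (by omega) (fun j hj hj' => by
    simp only [UR, Set.mem_setOf_eq, hz]; omega)
  have hB : Conn (UR a b) (X, y) (X, max y y') :=
    conn_ver' (le_max_left _ _) (fun j hj hj' => by
      simp only [UR, Set.mem_setOf_eq, hz]; omega)
  have hA' : Conn (UR a b) (x', y') (X, y') := conn_hor' (by omega) (fun j hj hj' => by
    simp only [UR, Set.mem_setOf_eq, hz]; omega)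
  have hB' : Conn (UR a b) (X, y') (X, max y y') :=
    conn_ver' (le_max_right _ _) (fun j hj hj' => by
      simp only [UR, Set.mem_setOf_eq, hz]; omega)
  exact conn_trans (conn_trans hA hB) (conn_symm (conn_trans hA' hB'))

/-! ### The explored set -/

private lemma Qr_sub (he : S_expl) (a b : ℤ) (B : Set V) : Qr a b B ⊆ Rect 0 (2 * a) 0 b := by
  have h := (he (Rect 0 (2 * a) 0 b) ∅ {v | hz v < 0 ∧ v.2 ≤ b} {v | v.2 < 0 ∧ 0 ≤ hz v} B).2.1
  intro v hv
  rcases h hv with h | h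
  · exact h
  · exact absurd h (Set.notMem_empty v)

private lemma Qr_congr (he : S_expl) (a b : ℤ) (B B' : Set V)
    (h : B ∩ Qr a b B = B' ∩ Qr a b B) : Qr a b B' = Qr a b B :=
  (he (Rect 0 (2 * a) 0 b) ∅ {v | hz v < 0 ∧ v.2 ≤ b} {v | v.2 < 0 ∧ 0 ≤ hz v} B).2.2.1 B' h

private lemma Qr_black (he : S_expl) (a b : ℤ) (B : Set V) (v : V) (hv : v ∈ Qr a b B ∩ B) :
    ∃ s, Conn (Qr a b B ∩ B) v s ∧ ∃ k : V, (hz k < 0 ∧ k.2 ≤ b) ∧ Adj s k := by
  obtain ⟨s, hs, h⟩ := (he (Rect 0 (2 * a) 0 b) ∅ {v | hz v < 0 ∧ v.2 ≤ b}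
    {v | v.2 < 0 ∧ 0 ≤ hz v} B).2.2.2.2.2.1 v hv
  rcases h with h | ⟨k, hk, hsk⟩
  · exact absurd h (Set.notMem_empty s)
  · exact ⟨s, hs, k, hk, hsk⟩

private lemma Qr_white (he : S_expl) (a b : ℤ) (B : Set V) (v : V) (hv : v ∈ Qr a b B \ B) :
    ∃ s, Conn (Qr a b B \ B) v s ∧ ∃ k : V, (k.2 < 0 ∧ 0 ≤ hz k) ∧ Adj s k := by
  obtain ⟨s, hs, h⟩ := (he (Rect 0 (2 * a) 0 b) ∅ {v | hz v < 0 ∧ v.2 ≤ b}
    {v | v.2 < 0 ∧ 0 ≤ hz v} B).2.2.2.2.2.2 v hv
  rcases h with h | ⟨k, hk, hsk⟩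
  · exact absurd h (Set.notMem_empty s)
  · exact ⟨s, hs, k, hk, hsk⟩

/-- No explored white site of the top row. -/
private def HTop (a b : ℤ) (B : Set V) : Prop := ∀ w ∈ Qr a b B, w ∉ B → w.2 < b

private lemma hz_adj {u v : V} (h : Adj u v) : hz v ≤ hz u + 2 ∧ hz u ≤ hz v + 2 ∧
    v.2 ≤ u.2 + 1 ∧ u.2 ≤ v.2 + 1 := by
  unfold Adj at h
  unfold hz
  omega

private lemma HTop_of_HC (he : S_expl) (hc : S_crossConn) (a b : ℤ) (hb : 1 ≤ b) (B : Set V)
    (h : HC 0 (2 * a) 0 b B) : HTop a b B := by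
  intro w hw hwB
  by_contra hlt
  have hwR := Qr_sub he a b B hw
  simp only [Rect, Set.mem_setOf_eq] at hwR
  obtain ⟨s, hs, k, hk, hsk⟩ := Qr_white he a b B w ⟨hw, hwB⟩
  have hsR := Qr_sub he a b B (conn_right hs).1
  simp only [Rect, Set.mem_setOf_eq] at hsR
  have hadj := hz_adj hsk
  obtain ⟨p, q, hp, hq, hpq⟩ := h
  have hpR := hpq.1.2
  have hqR := (conn_right hpq).2
  simp only [Rect, Set.mem_setOf_eq] at hpR hqR
  -- the extended black crossing
  set l : V := (p.1 - 1, p.2) with hl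
  set r : V := (q.1 + 1, q.2) with hr
  have hhl : hz l = hz p - 2 := by rw [hl]; unfold hz; simp only; ring
  have hhr : hz r = hz q + 2 := by rw [hr]; unfold hz; simp only; ring
  have hlp : Adj l p := Or.inl ⟨by rw [hl]; simp, rfl⟩
  have hqr : Adj q r := Or.inl ⟨rfl, rfl⟩
  set S : Set V := (B ∩ Rect 0 (2 * a) 0 b) ∪ {l, r} with hS
  have hlS : l ∈ S := Or.inr (Or.inl rfl)
  have hrS : r ∈ S := Or.inr (Or.inr rfl)
  have hconn : Conn S l r :=
    conn_trans (conn_trans (conn_single hlS (Or.inl hpq.1) hlp)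
      (conn_mono Set.subset_union_left hpq))
      (conn_single (Or.inl (conn_right hpq)) hrS hqr)
  have hlin : ∀ v : V, lin 2 1 v = hz v := fun v => by unfold lin hz; ring
  have hSy : ∀ v ∈ S, 0 ≤ v.2 ∧ v.2 ≤ b := by
    rintro v (hv | hv | hv)
    · exact ⟨hv.2.2.2.1, hv.2.2.2.2⟩
    · rw [hv]; exact ⟨hpR.2.2.1, hpR.2.2.2⟩
    · rw [hv]; exact ⟨hqR.2.2.1, hqR.2.2.2⟩
  have g1 : ∀ v ∈ Qr a b B \ B, lin 2 1 l ≤ lin 2 1 v := by
    intro v hv
    have := Qr_sub he a b B hv.1
    simp only [Rect, Set.mem_setOf_eq] at this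
    rw [hlin, hlin]; omega
  have g2 : ∀ v ∈ Qr a b B \ B, lin 2 1 v ≤ lin 2 1 r := by
    intro v hv
    have := Qr_sub he a b B hv.1
    simp only [Rect, Set.mem_setOf_eq] at this
    rw [hlin, hlin]; omega
  have g3 : ∀ v ∈ S, s.2 ≤ v.2 := by
    intro v hv
    have := hSy v hv
    omega
  have g4 : ∀ v ∈ S, v.2 ≤ w.2 := by
    intro v hv
    have := hSy v hv
    omega
  obtain ⟨v, hvS, hvQ⟩ := hc 2 1 (by norm_num) S (Qr a b B \ B) l r s w hconn (conn_symm hs)
    g1 g2 g3 g4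
  have hvR := Qr_sub he a b B hvQ.1
  simp only [Rect, Set.mem_setOf_eq] at hvR
  rcases hvS with hv | hv | hv
  · exact hvQ.2 hv.1
  · rw [hv] at hvR; omega
  · rw [hv] at hvR; omega

/-! ### The four arcs -/

private def DD (a b : ℤ) (Q : Set V) : Set V := {v | v ∈ Rect 0 (4 * a) 0 b ∧ v ∉ Q ∧ rho a v ∉ Q}

private def A1 (a b : ℤ) (Q : Set V) : Set V := LL a b ∪ Q

private def A2 (a b : ℤ) : Set V := {v | b < v.2 ∧ hz v < 2 * a}

private def A3 (a b : ℤ) : Set V := {v | b < v.2 ∧ 2 * a ≤ hz v}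

private def A4 (a b : ℤ) (Q : Set V) : Set V :=
  {v | (v.2 < 0 ∧ 2 * a < hz v) ∨ (4 * a < hz v ∧ v.2 ≤ b) ∨ (rho a v ∈ Q ∧ v ∉ Q)}

private def K1 (a b : ℤ) (Q : Set V) (B' : Set V) : Prop :=
  ∃ u ∈ A1 a b Q, ∃ v ∈ A3 a b, Via (DD a b Q ∩ B') u v

private def K2 (a b : ℤ) (Q : Set V) (B' : Set V) : Prop :=
  ∃ u ∈ A2 a b, ∃ v ∈ A4 a b Q, Via (DD a b Q \ B') u v

private lemma preConn_A1 (he : S_expl) (a b : ℤ) (hb : 1 ≤ b) (B : Set V) :
    PreConn (A1 a b (Qr a b B)) := by
  have key : ∀ u ∈ A1 a b (Qr a b B), ∃ k ∈ LL a b, Conn (A1 a b (Qr a b B)) u k := by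
    rintro u (hu | hu)
    · exact ⟨u, hu, conn_refl (Or.inl hu)⟩
    · by_cases huB : u ∈ B
      · obtain ⟨s, hs, k, hk, hsk⟩ := Qr_black he a b B u ⟨hu, huB⟩
        have hkL : k ∈ LL a b := Or.inr hk
        have h1 : Conn (A1 a b (Qr a b B)) u s :=
          conn_mono (fun v hv => Or.inr hv.1) hs
        exact ⟨k, hkL, conn_trans h1 (conn_single (conn_right h1) (Or.inl hkL) hsk)⟩
      · obtain ⟨s, hs, k, hk, hsk⟩ := Qr_white he a b B u ⟨hu, huB⟩
        have hsR := Qr_sub he a b B (conn_right hs).1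
        simp only [Rect, Set.mem_setOf_eq] at hsR
        have hadj := hz_adj hsk
        have h1 : Conn (A1 a b (Qr a b B)) u s :=
          conn_mono (fun v hv => Or.inr hv.1) hs
        have hkL : (s.1, s.2 - 1) ∈ LL a b := by
          unfold LL
          simp only [Set.mem_setOf_eq]
          unfold hz at *
          simp only
          omega
        refine ⟨(s.1, s.2 - 1), hkL, conn_trans h1 (conn_single (conn_right h1) (Or.inl hkL) ?_)⟩
        unfold Adj
        simp
  intro u hu v hv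
  obtain ⟨k, hk, huk⟩ := key u hu
  obtain ⟨k', hk', hvk⟩ := key v hv
  exact conn_trans huk (conn_trans (conn_mono (fun x hx => Or.inl hx) (preConn_LL a b k hk k' hk'))
    (conn_symm hvk))

private lemma K1_or_K2 (he : S_expl) (h4 : S_fourArc) (a b : ℤ) (ha : 1 ≤ a) (hb : 1 ≤ b)
    (B B' : Set V) : K1 a b (Qr a b B) B' ∨ K2 a b (Qr a b B) B' := by
  have hQ : ∀ v ∈ Qr a b B, 0 ≤ hz v ∧ hz v ≤ 2 * a ∧ 0 ≤ v.2 ∧ v.2 ≤ b := fun v hv =>
    Qr_sub he a b B hv
  have hQ' : ∀ v : V, rho a v ∈ Qr a b B → 2 * a ≤ hz v ∧ hz v ≤ 4 * a ∧ 0 ≤ v.2 ∧ v.2 ≤ b := by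
    intro v hv
    have := hQ _ hv
    rw [hz_rho, rho_snd] at this
    omega
  refine h4 (DD a b (Qr a b B)) (A1 a b (Qr a b B)) (A2 a b) (A3 a b) (A4 a b (Qr a b B))
    (UR a b) B' ?_ ?_ ?_ ?_ ?_ ?_ ?_ ?_ ?_ ?_ ?_ (preConn_A1 he a b hb B) (preConn_UR a b)
    ?_ ?_ ?_ ?_ ?_ ?_
  · intro v
    by_cases h1 : v ∈ Qr a b B
    · exact Or.inr (Or.inl (Or.inr h1))
    by_cases h2 : rho a v ∈ Qr a b B
    · exact Or.inr (Or.inr (Or.inr (Or.inr (Or.inr (Or.inr ⟨h2, h1⟩)))))
    simp only [DD, A1, A2, A3, A4, LL, Rect, Set.mem_setOf_eq, Set.mem_union]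
    by_cases g1 : b < v.2
    · by_cases g2 : hz v < 2 * a
      · exact Or.inr (Or.inr (Or.inl ⟨g1, g2⟩))
      · exact Or.inr (Or.inr (Or.inr (Or.inl ⟨g1, by omega⟩)))
    by_cases g3 : hz v < 0
    · exact Or.inr (Or.inl (Or.inl (Or.inr ⟨g3, by omega⟩)))
    by_cases g4 : 4 * a < hz v
    · exact Or.inr (Or.inr (Or.inr (Or.inr (Or.inr (Or.inl ⟨g4, by omega⟩)))))
    by_cases g5 : v.2 < 0
    · by_cases g6 : hz v ≤ 2 * a
      · exact Or.inr (Or.inl (Or.inl (Or.inl ⟨g5, g6⟩)))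
      · exact Or.inr (Or.inr (Or.inr (Or.inr (Or.inl ⟨g5, by omega⟩))))
    · exact Or.inl ⟨⟨by omega, by omega, by omega, by omega⟩, h1, h2⟩
  · -- A1, A2
    rw [Set.disjoint_left]
    rintro v (hv | hv) hv'
    · simp only [LL, A2, Set.mem_setOf_eq] at hv hv'; omega
    · have := hQ v hv
      simp only [A2, Set.mem_setOf_eq] at hv'; omega
  · -- A1, A3
    rw [Set.disjoint_left]
    rintro v (hv | hv) hv'
    · simp only [LL, A3, Set.mem_setOf_eq] at hv hv'; omega
    · have := hQ v hv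
      simp only [A3, Set.mem_setOf_eq] at hv'; omega
  · -- A1, A4
    rw [Set.disjoint_left]
    rintro v (hv | hv) (hv' | hv' | hv')
    · simp only [LL, Set.mem_setOf_eq] at hv; omega
    · simp only [LL, Set.mem_setOf_eq] at hv; omega
    · have := hQ' v hv'.1
      simp only [LL, Set.mem_setOf_eq] at hv; omega
    · have := hQ v hv; omega
    · have := hQ v hv; omega
    · exact hv'.2 hv
  · -- A1, D
    rw [Set.disjoint_left]
    rintro v (hv | hv) hv'
    · simp only [LL, DD, Rect, Set.mem_setOf_eq] at hv hv'; omega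
    · exact hv'.2.1 hv
  · -- D, A2
    rw [Set.disjoint_left]
    intro v hv hv'
    simp only [DD, A2, Rect, Set.mem_setOf_eq] at hv hv'; omega
  · -- D, A3
    rw [Set.disjoint_left]
    intro v hv hv'
    simp only [DD, A3, Rect, Set.mem_setOf_eq] at hv hv'; omega
  · -- D, A4
    rw [Set.disjoint_left]
    rintro v hv (hv' | hv' | hv')
    · simp only [DD, Rect, Set.mem_setOf_eq] at hv; omega
    · simp only [DD, Rect, Set.mem_setOf_eq] at hv; omega
    · exact hv.2.2 hv'.1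
  · -- A2, A3
    rw [Set.disjoint_left]
    intro v hv hv'
    simp only [A2, A3, Set.mem_setOf_eq] at hv hv'; omega
  · -- A2, A4
    rw [Set.disjoint_left]
    rintro v hv (hv' | hv' | hv')
    · simp only [A2, Set.mem_setOf_eq] at hv; omega
    · simp only [A2, Set.mem_setOf_eq] at hv; omega
    · have := hQ' v hv'.1
      simp only [A2, Set.mem_setOf_eq] at hv; omega
  · -- A3, A4
    rw [Set.disjoint_left]
    rintro v hv (hv' | hv' | hv')
    · simp only [A3, Set.mem_setOf_eq] at hv; omega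
    · simp only [A3, Set.mem_setOf_eq] at hv; omega
    · have := hQ' v hv'.1
      simp only [A3, Set.mem_setOf_eq] at hv; omega
  · intro v hv
    exact Or.inl hv.1
  · intro v hv
    exact Or.inl hv.1
  · intro v hv
    simp only [UR, Set.mem_setOf_eq] at hv
    simp only [A2, A3, A4, Set.mem_union, Set.mem_setOf_eq]
    rcases hv with hv | hv | hv
    · by_cases g2 : hz v < 2 * a
      · exact Or.inl (Or.inl ⟨hv, g2⟩)
      · exact Or.inl (Or.inr ⟨hv, by omega⟩)
    · exact Or.inr (Or.inr (Or.inl hv))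
    · exact Or.inr (Or.inl hv)
  · refine ⟨(-b - 1, b), Or.inl ?_, (-b - 1, b + 1), ?_, ?_⟩
    · simp only [LL, hz, Set.mem_setOf_eq]; omega
    · simp only [A2, hz, Set.mem_setOf_eq]; omega
    · unfold Adj; simp
  · refine ⟨(a, -1), Or.inl ?_, (a + 1, -1), ⟨?_, ?_⟩, ?_⟩
    · simp only [LL, hz, Set.mem_setOf_eq]; omega
    · simp only [A4, hz, Set.mem_setOf_eq]; omega
    · simp only [UR, hz, Set.mem_setOf_eq]; omega
    · unfold Adj; simp
  · refine ⟨(a, b + 1), ?_⟩
    simp only [A3, hz, Set.mem_setOf_eq]; omega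

private lemma K2_flip (a b : ℤ) (ha : 1 ≤ a) (Q : Set V) (B' : Set V) (h : K2 a b Q B') :
    K1 a b Q (rho a '' B')ᶜ := by
  obtain ⟨u, hu, v, hv, huv⟩ := h
  refine ⟨rho a v, ?_, rho a u, ?_, via_symm (via_rho a ?_ huv)⟩
  · rcases hv with hv | hv | hv
    · refine Or.inl (Or.inl ?_)
      rw [rho_snd, hz_rho]; omega
    · refine Or.inl (Or.inr ?_)
      rw [rho_snd, hz_rho]; omega
    · exact Or.inr hv.1
  · simp only [A2, Set.mem_setOf_eq] at hu
    simp only [A3, Set.mem_setOf_eq]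
    rw [rho_snd, hz_rho]; omega
  · rintro x ⟨hx, hxB⟩
    refine ⟨⟨?_, hx.2.2, ?_⟩, ?_⟩
    · have := hx.1
      simp only [Rect, Set.mem_setOf_eq] at this ⊢
      rw [rho_snd, hz_rho]; omega
    · rw [rho_rho]; exact hx.2.1
    · rintro ⟨y, hy, hyx⟩
      apply hxB
      have : y = x := by rw [← rho_rho a y, hyx, rho_rho]
      rwa [← this]

/-- `K1` gives a connection to the upper right half side. -/
private lemma K1_top (he : S_expl) (ht : S_type) (a b : ℤ) (ha : 1 ≤ a) (hb : 1 ≤ b)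
    (B B' : Set V) (hH : HTop a b B) (h : K1 a b (Qr a b B) B') :
    TopRight a b ((B ∩ Qr a b B) ∪ (B' \ Qr a b B)) := by
  set Q := Qr a b B with hQdef
  set X : Set V := (B ∩ Q) ∪ (B' \ Q) with hX
  have hQ : ∀ v ∈ Q, 0 ≤ hz v ∧ hz v ≤ 2 * a ∧ 0 ≤ v.2 ∧ v.2 ≤ b := fun v hv =>
    Qr_sub he a b B hv
  have hQX : Q ∩ B ⊆ X ∩ Rect 0 (4 * a) 0 b := by
    rintro v ⟨hv, hvB⟩
    refine ⟨Or.inl ⟨hvB, hv⟩, ?_⟩
    have := hQ v hv
    simp only [Rect, Set.mem_setOf_eq]; omega
  have hDX : DD a b Q ∩ B' ⊆ X ∩ Rect 0 (4 * a) 0 b := by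
    rintro v ⟨hv, hvB⟩
    exact ⟨Or.inr ⟨hvB, hv.2.1⟩, hv.1⟩
  -- black explored sites are joined to the left side
  have hleft : ∀ u ∈ Q ∩ B, ∃ s : V, hz s ≤ 1 ∧ Conn (X ∩ Rect 0 (4 * a) 0 b) s u := by
    intro u hu
    obtain ⟨s, hs, k, hk, hsk⟩ := Qr_black he a b B u hu
    have := hz_adj hsk
    exact ⟨s, by omega, conn_symm (conn_mono hQX hs)⟩
  obtain ⟨u, hu, v, hv, huv⟩ := h
  simp only [A3, Set.mem_setOf_eq] at hv
  rcases via_cases huv with hadj | ⟨x, y, hux, hxy, hyv⟩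
  · -- an edge
    have h1 := hz_adj hadj
    have huQ : u ∈ Q := by
      rcases hu with hu | hu
      · exfalso
        simp only [LL, Set.mem_setOf_eq] at hu
        omega
      · exact hu
    have h2 := hQ u huQ
    have hub : u.2 = b := by omega
    have huB : u ∈ B := by
      by_contra hcon
      have := hH u huQ hcon
      omega
    obtain ⟨s, hs, hsu⟩ := hleft u ⟨huQ, huB⟩
    refine ⟨s, u, hs, ?_, hub, hsu⟩
    have hadj' := hadj
    unfold Adj at hadj'
    unfold hz at *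
    omega
  · have hy := (conn_right hxy).1.1
    simp only [Rect, Set.mem_setOf_eq] at hy
    have hyb : y.2 = b := by
      have := hz_adj hyv; omega
    have hyz : 2 * a - 1 ≤ hz y := by
      unfold Adj at hyv
      unfold hz at *
      omega
    have hxX : Conn (X ∩ Rect 0 (4 * a) 0 b) x y := conn_mono hDX hxy
    -- `x` is joined to the region above in the complement of `Zr`
    have hDZ : ∀ w ∈ DD a b Q, w ∈ (Zr a b B)ᶜ := by
      intro w hw hwZ
      have hwR := hw.1
      simp only [Rect, Set.mem_setOf_eq] at hwR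
      rcases hwZ with h | h | h | h | h
      · exact hw.2.1 h
      · exact hw.2.2 h
      · omega
      · omega
      · omega
    have hvZ : v ∈ (Zr a b B)ᶜ := by
      intro hvZ
      rcases hvZ with h | h | h | h | h
      · have := hQ v h; omega
      · have := hQ _ h
        rw [rho_snd] at this; omega
      · omega
      · omega
      · omega
    have hxv : Conn (Zr a b B)ᶜ x v :=
      conn_trans (conn_mono (fun w hw => hDZ w hw.1) hxy)
        (conn_single (hDZ y (conn_right hxy).1) hvZ hyv)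
    have huZ : u ∈ Zr a b B := by
      rcases hu with (hu | hu) | hu
      · exact Or.inr (Or.inr (Or.inl hu.1))
      · exact Or.inr (Or.inr (Or.inr (Or.inl hu)))
      · exact Or.inl hu
    have htype := ht a b B ha hb hH u huZ x hux ⟨v, hv.1, hxv⟩
    have hfin : u ∈ Q ∩ B → TopRight a b X := by
      intro huQ
      obtain ⟨s, hs, hsu⟩ := hleft u huQ
      exact ⟨s, y, hs, hyz, hyb, conn_trans hsu
        (conn_trans (conn_single (conn_right hsu) hxX.1 hux) hxX)⟩
    rcases htype with h | h | h | h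
    · refine ⟨x, y, ?_, hyz, hyb, hxX⟩
      have := hz_adj hux; omega
    · exfalso
      rcases hu with (hu | hu) | hu
      · omega
      · omega
      · have := hQ u hu; omega
    · exact hfin h
    · have h1 := hQ _ h.1
      rw [hz_rho, rho_snd] at h1
      rcases hu with (hu | hu) | hu
      · omega
      · omega
      · have h2 := hQ u hu
        have hr : rho a u = u := by
          have h3 : hz u = 2 * a := by omega
          unfold hz at h3
          refine Prod.ext ?_ rfl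
          simp only [rho]
          omega
        rw [hr] at h
        exact hfin h

/-! ### The rectangle is finite -/

private lemma rect_finite (u1 u2 y1 y2 : ℤ) : (Rect u1 u2 y1 y2).Finite := by
  apply Set.Finite.subset
    (Set.finite_Icc ((-(|u2| + |u1| + |y1| + |y2|), y1) : ℤ × ℤ) (|u2| + |u1| + |y1| + |y2|, y2))
  intro v hv
  simp only [Rect, hz, Set.mem_setOf_eq] at hv
  have e1 := le_abs_self y1
  have e2 := le_abs_self y2
  have e3 := neg_abs_le y1
  have e4 := neg_abs_le y2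
  have e5 := le_abs_self u2
  have e6 := neg_abs_le u2
  have e7 := le_abs_self u1
  have e8 := neg_abs_le u1
  simp only [Set.mem_Icc, Prod.le_def]
  omega

theorem r_halfTop (ht : S_type) (h4 : S_fourArc) (hc : S_crossConn) (hs : S_PrStop)
    (hq : S_PrEquiv) (hf : S_PrFlip) (he : S_expl) (hb : S_PrBasic) : S_halfTop := by
  intro a b ha hb1
  have ha' : (1 : ℤ) ≤ a := by exact_mod_cast ha
  have hb' : (1 : ℤ) ≤ b := by exact_mod_cast hb1
  set S : Finset V := (rect_finite 0 (4 * a) 0 b).toFinset with hSdef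
  have hS : (S : Set V) = Rect 0 (4 * a) 0 b := by rw [hSdef]; exact Set.Finite.coe_toFinset _
  have hQS : ∀ B, Qr a b B ⊆ (S : Set V) := by
    intro B v hv
    rw [hS]
    have := Qr_sub he a b B hv
    simp only [Rect, Set.mem_setOf_eq] at this ⊢
    omega
  have hstop : ∀ B B' : Set V, B ∩ Qr a b B = B' ∩ Qr a b B →
      Qr a b B' = Qr a b B ∧ (HTop a b B ↔ HTop a b B') := by
    intro B B' h
    have h1 := Qr_congr he a b B B' h
    refine ⟨h1, ?_⟩
    unfold HTop
    rw [h1]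
    have h2 : ∀ w ∈ Qr a b B, (w ∈ B ↔ w ∈ B') := by
      intro w hw
      constructor
      · intro h3
        have : w ∈ B ∩ Qr a b B := ⟨h3, hw⟩
        rw [h] at this; exact this.1
      · intro h3
        have : w ∈ B' ∩ Qr a b B := ⟨h3, hw⟩
        rw [← h] at this; exact this.1
    constructor
    · intro h3 w hw hwB
      exact h3 w hw (fun h4 => hwB ((h2 w hw).1 h4))
    · intro h3 w hw hwB
      exact h3 w hw (fun h4 => hwB ((h2 w hw).2 h4))
  have hdepH : DepOn (HTop a b) (S : Set V) := by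
    intro B B' h
    apply propext
    apply (hstop B B' _).2
    ext v
    constructor
    · rintro ⟨h1, h2⟩
      have : v ∈ B ∩ (S : Set V) := ⟨h1, hQS B h2⟩
      rw [h] at this
      exact ⟨this.1, h2⟩
    · rintro ⟨h1, h2⟩
      have : v ∈ B' ∩ (S : Set V) := ⟨h1, hQS B h2⟩
      rw [← h] at this
      exact ⟨this.1, h2⟩
  have hdepK : DepOn (TopRight a b) (S : Set V) := by
    intro B B' h
    unfold TopRight
    rw [hS] at h
    rw [h]
  have hmain : ∀ B, HTop a b B →
      1 / 2 ≤ Pr (fun B' => TopRight a b ((B ∩ Qr a b B) ∪ (B' \ Qr a b B))) := by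
    intro B hH
    have h1 : Pr (K1 a b (Qr a b B)) ≤
        Pr (fun B' => TopRight a b ((B ∩ Qr a b B) ∪ (B' \ Qr a b B))) :=
      (hb V _ _).2.2.1 (fun B' h => K1_top he ht a b ha' hb' B B' hH h)
    have h2 : Pr (K2 a b (Qr a b B)) ≤ Pr (K1 a b (Qr a b B)) := by
      have e : V ≃ V := ⟨rho a, rho a, rho_rho a, rho_rho a⟩
      have h3 : Pr (K2 a b (Qr a b B)) ≤ Pr (fun B' : Set V => K1 a b (Qr a b B) (rho a '' B')ᶜ) :=
        (hb V _ _).2.2.1 (fun B' h => K2_flip a b ha' _ B' h)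
      have h4 := hq V V ⟨rho a, rho a, rho_rho a, rho_rho a⟩ (fun B' => K1 a b (Qr a b B) B'ᶜ)
      have h5 := hf V Set.univ (K1 a b (Qr a b B))
      have h6 : (fun B' : Set V => K1 a b (Qr a b B) (symmDiff B' Set.univ)) =
          fun B' : Set V => K1 a b (Qr a b B) B'ᶜ := by
        funext B'
        congr 1
        ext v
        simp [Set.mem_symmDiff]
      rw [h6] at h5
      rw [h5] at h4
      exact h3.trans h4.le
    have h3 : (1 : ℝ) ≤ Pr (K1 a b (Qr a b B)) + Pr (K2 a b (Qr a b B)) := by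
      have g1 := (hb V (fun _ => True) (fun B' => K1 a b (Qr a b B) B' ∨ K2 a b (Qr a b B) B')).2.2.1
        (fun B' _ => K1_or_K2 he h4 a b ha' hb' B B')
      have g2 := (hb V (K1 a b (Qr a b B)) (K2 a b (Qr a b B))).2.2.2.1
      have g3 := (hb V (fun _ => True) (fun _ => True)).2.2.2.2.2.2
      linarith
    linarith
  have hfinal := hs V S (Qr a b) (HTop a b) (TopRight a b) (1 / 2) hQS hstop hdepH hdepK hmain
  have h1 : Pr (HC 0 (2 * a) 0 b) ≤ Pr (HTop a b) :=
    (hb V _ _).2.2.1 (fun B h => HTop_of_HC he hc a b hb' B h)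
  have h2 : Pr (fun B => HTop a b B ∧ TopRight a b B) ≤ Pr (TopRight a b) :=
    (hb V _ _).2.2.1 (fun B h => h.2)
  linarith

end TriX
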