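import Pool.Agent.EX.Spec1

/-! EX-R4: RSW for boxes. -/

set_option autoImplicit false

open MeasureTheory

namespace TriX

namespace R4

theorem conn_mono {S S' : Set V} (h : S ⊆ S') {u v : V} (hc : Conn S u v) : Conn S' u v :=
  ⟨h hc.1, Relation.ReflTransGen.mono (fun _ _ hab => ⟨hab.1, h hab.2⟩) _ _ hc.2⟩

theorem conn_image (e : V → V) (he : ∀ u v, Adj u v → Adj (e u) (e v)) {S : Set V} {u v : V}
    (hc : Conn S u v) : Conn (e '' S) (e u) (e v) := by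
  refine ⟨⟨u, hc.1, rfl⟩, ?_⟩
  refine Relation.ReflTransGen.lift (r := fun a b => Adj a b ∧ b ∈ S) e ?_ _ _ hc.2
  intro a b hab
  exact ⟨he a b hab.1, ⟨b, hab.2, rfl⟩⟩

/-- cutting a path from `x ≤ 0` to `x ≥ l`. -/
theorem cut {S : Set V} {l : ℤ} (hl : 0 ≤ l) {u v : V} (hu : u.1 ≤ 0) (hv : l ≤ v.1)
    (hc : Conn S u v) :
    ∃ u' v' : V, u'.1 = 0 ∧ v'.1 = l ∧ Conn (S ∩ {w | 0 ≤ w.1 ∧ w.1 ≤ l}) u' v' := by
  have key : ∀ w : V, Relation.ReflTransGen (fun a b => Adj a b ∧ b ∈ S) u w →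
      (∃ u' v' : V, u'.1 = 0 ∧ v'.1 = l ∧ Conn (S ∩ {w | 0 ≤ w.1 ∧ w.1 ≤ l}) u' v') ∨ w.1 < 0 ∨
      (w.1 ≤ l ∧ 0 ≤ w.1 ∧ ∃ u' : V, u'.1 = 0 ∧ Conn (S ∩ {w | 0 ≤ w.1 ∧ w.1 ≤ l}) u' w) := by
    intro w hw
    induction hw with
    | refl =>
      rcases lt_or_eq_of_le hu with h | h
      · exact Or.inr (Or.inl h)
      · exact Or.inr (Or.inr ⟨by omega, by omega, u, h,
          ⟨⟨hc.1, by constructor <;> omega⟩, Relation.ReflTransGen.refl⟩⟩)
    | @tail w w' _ hww ih =>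
      obtain ⟨hadj, hw'⟩ := hww
      have hstep : w'.1 ≤ w.1 + 1 ∧ w.1 - 1 ≤ w'.1 := by
        rcases hadj with h | h | h | h | h | h <;> obtain ⟨h1, h2⟩ := h <;> omega
      rcases ih with h | h | h
      · exact Or.inl h
      · by_cases h0 : w'.1 < 0
        · exact Or.inr (Or.inl h0)
        · exact Or.inr (Or.inr ⟨by omega, by omega, w', by omega,
            ⟨⟨hw', by constructor <;> omega⟩, Relation.ReflTransGen.refl⟩⟩)
      · obtain ⟨h1, h2, u', hu', hcu⟩ := h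
        by_cases h0 : w'.1 < 0
        · exact Or.inr (Or.inl h0)
        · by_cases h3 : w'.1 ≤ l
          · exact Or.inr (Or.inr ⟨h3, by omega, u', hu',
              ⟨hcu.1, hcu.2.tail ⟨hadj, hw', by constructor <;> omega⟩⟩⟩)
          · exact Or.inl ⟨u', w, hu', by omega, hcu⟩
  rcases key v hc.2 with h | h | h
  · exact h
  · omega
  · obtain ⟨h1, h2, u', hu', hcu⟩ := h
    exact ⟨u', v, hu', by omega, hcu⟩

theorem HC_LR {U l n : ℤ} (hl : 0 ≤ l) (hU : 2 * l + n ≤ U) (B : Set V) (h : HC 0 U 0 n B) :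
    LR 0 l 0 n B := by
  obtain ⟨s, t, hs, ht, hc⟩ := h
  have ht' : t ∈ B ∩ Rect 0 U 0 n := by
    rcases Relation.ReflTransGen.cases_tail hc.2 with h | ⟨c, _, h⟩
    · rw [h]; exact hc.1
    · exact h.2
  obtain ⟨_, hs1, hs2, hs3, hs4⟩ := hc.1
  obtain ⟨_, ht1, ht2, ht3, ht4⟩ := ht'
  simp only [hz] at hs ht hs1 hs2 ht1 ht2
  obtain ⟨u', v', hu', hv', hc'⟩ := cut (l := l) hl (u := s) (v := t) (by omega) (by omega) hc
  refine ⟨u', v', hu', hv', conn_mono ?_ hc'⟩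
  rintro w ⟨⟨hwB, hw1, hw2, hw3, hw4⟩, hw5, hw6⟩
  exact ⟨hwB, hw5, hw6, hw3, hw4⟩

theorem LR_mono_height {x1 x2 y1 y2 y2' : ℤ} (h : y2 ≤ y2') (B : Set V) (hB : LR x1 x2 y1 y2 B) :
    LR x1 x2 y1 y2' B := by
  obtain ⟨u, v, hu, hv, hc⟩ := hB
  refine ⟨u, v, hu, hv, conn_mono ?_ hc⟩
  rintro w ⟨hwB, hw1, hw2, hw3, hw4⟩
  exact ⟨hwB, hw1, hw2, hw3, hw4.trans h⟩

/-- translations. -/
def tr (x y : ℤ) : V ≃ V where
  toFun v := (v.1 - x, v.2 - y)
  invFun v := (v.1 + x, v.2 + y)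
  left_inv v := by simp
  right_inv v := by simp

theorem tr_adj (x y : ℤ) (u v : V) (h : Adj u v) : Adj (tr x y u) (tr x y v) := by
  simp only [Adj, tr, Equiv.coe_fn_mk] at h ⊢
  omega

theorem tr_symm_adj (x y : ℤ) (u v : V) (h : Adj u v) : Adj ((tr x y).symm u) ((tr x y).symm v) := by
  simp only [Adj, tr, Equiv.coe_fn_symm_mk] at h ⊢
  omega

theorem LR_tr (x y l n : ℤ) (B : Set V) :
    LR 0 l 0 n (tr x y '' B) ↔ LR x (x + l) y (y + n) B := by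
  constructor
  · rintro ⟨u, v, hu, hv, hc⟩
    refine ⟨(tr x y).symm u, (tr x y).symm v, ?_, ?_, ?_⟩
    · simp [tr, hu]
    · simp [tr, hv, add_comm]
    · refine conn_mono ?_ (conn_image _ (tr_symm_adj x y) hc)
      rintro _ ⟨w, ⟨⟨b, hb, rfl⟩, hw1, hw2, hw3, hw4⟩, rfl⟩
      rw [Equiv.symm_apply_apply]
      simp only [tr, Equiv.coe_fn_mk] at hw1 hw2 hw3 hw4
      exact ⟨hb, by omega, by omega, by omega, by omega⟩
  · rintro ⟨u, v, hu, hv, hc⟩
    refine ⟨tr x y u, tr x y v, ?_, ?_, ?_⟩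
    · simp [tr, hu]
    · simp [tr, hv]
    · refine conn_mono ?_ (conn_image _ (tr_adj x y) hc)
      rintro _ ⟨w, ⟨hb, hw1, hw2, hw3, hw4⟩, rfl⟩
      refine ⟨⟨w, hb, rfl⟩, ?_⟩
      simp only [Box, tr, Equiv.coe_fn_mk, Set.mem_ofPred_eq]
      omega

theorem swap_adj (u v : V) (h : Adj u v) : Adj (Prod.swap u) (Prod.swap v) := by
  simp only [Adj, Prod.fst_swap, Prod.snd_swap] at h ⊢
  omega

theorem LR_swap (x1 x2 y1 y2 : ℤ) (B : Set V) :
    LR y1 y2 x1 x2 (Equiv.prodComm ℤ ℤ '' B) ↔ TB x1 x2 y1 y2 B := by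
  constructor
  · rintro ⟨u, v, hu, hv, hc⟩
    refine ⟨Prod.swap u, Prod.swap v, hu, hv, ?_⟩
    refine conn_mono ?_ (conn_image _ swap_adj hc)
    rintro _ ⟨w, ⟨⟨b, hb, rfl⟩, hw1, hw2, hw3, hw4⟩, rfl⟩
    exact ⟨hb, hw3, hw4, hw1, hw2⟩
  · rintro ⟨u, v, hu, hv, hc⟩
    refine ⟨Prod.swap u, Prod.swap v, hu, hv, ?_⟩
    refine conn_mono ?_ (conn_image _ swap_adj hc)
    rintro _ ⟨w, ⟨hb, hw1, hw2, hw3, hw4⟩, rfl⟩
    exact ⟨⟨w, hb, rfl⟩, hw3, hw4, hw1, hw2⟩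

/-- the lower bounds. -/
noncomputable def cc : ℕ → ℝ
  | 0 => 1 / 2
  | k + 1 => cc k ^ 2 / 4

theorem cc_pos (k : ℕ) : 0 < cc k := by
  induction k with
  | zero => norm_num [cc]
  | succ k ih => simp only [cc]; positivity

theorem HC_bound (h0 : S_rectBase) (h1 : S_double) (k a : ℕ) (ha : 1 ≤ a) :
    cc k ≤ Pr (HC 0 ((2 ^ (k + 1) * a : ℕ) : ℤ) 0 ((2 * a : ℕ) : ℤ)) := by
  induction k with
  | zero =>
    have := h0 a ha
    simpa [cc] using this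
  | succ k ih =>
    have h2 := h1 (2 ^ k * a) (2 * a) (Nat.mul_pos (pow_pos (by norm_num) k) ha) (by omega)
    have e1 : (2 * ((2 ^ k * a : ℕ) : ℤ)) = ((2 ^ (k + 1) * a : ℕ) : ℤ) := by
      push_cast; ring
    have e2 : (4 * ((2 ^ k * a : ℕ) : ℤ)) = ((2 ^ (k + 1 + 1) * a : ℕ) : ℤ) := by
      push_cast; ring
    rw [e1, e2] at h2
    refine le_trans ?_ h2
    simp only [cc]
    have := cc_pos k
    gcongr

theorem LR_even (h0 : S_rectBase) (h1 : S_double) (hb : S_PrBasic) (j a l : ℕ) (ha : 1 ≤ a)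
    (hl : 2 * l + 2 * a ≤ 2 ^ (j + 1) * a) : cc j ≤ Pr (LR 0 (l : ℤ) 0 ((2 * a : ℕ) : ℤ)) := by
  refine (HC_bound h0 h1 j a ha).trans ?_
  refine (hb V _ _).2.2.1 fun B hB => HC_LR (by positivity) ?_ B hB
  exact_mod_cast hl

/-- a black row. -/
theorem LR_row (hb : S_PrBasic) (ha : S_PrAvg) (l : ℕ) :
    (1 / 2 : ℝ) ^ (l + 1) ≤ Pr (LR 0 (l : ℤ) 0 1) := by
  classical
  let S : Finset V := (Finset.range (l + 1)).image fun i : ℕ => (((i : ℤ), (0 : ℤ)) : V)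
  have hcard : S.card = l + 1 := by
    rw [Finset.card_image_of_injective, Finset.card_range]
    intro i j hij
    have := congrArg Prod.fst hij
    simpa using this
  have h1 : Pr (fun B : Set V => (S : Set V) ⊆ B) = (1 / 2 : ℝ) ^ (l + 1) := by
    have h2 := ha V (fun B : Set V => (S : Set V) ⊆ B) S (by
      intro B B' hBB
      apply propext
      constructor
      · intro h v hv
        have : v ∈ B ∩ S := ⟨h hv, hv⟩
        rw [hBB] at this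
        exact this.1
      · intro h v hv
        have : v ∈ B' ∩ S := ⟨h hv, hv⟩
        rw [← hBB] at this
        exact this.1)
    rw [h2, hcard]
    have h3 : S.powerset.filter (fun A : Finset V => (S : Set V) ⊆ (A : Set V)) = {S} := by
      ext A
      simp only [Finset.mem_filter, Finset.mem_powerset, Finset.coe_subset, Finset.mem_singleton]
      exact ⟨fun h => Finset.Subset.antisymm h.1 h.2, fun h => by rw [h]; simp⟩
    rw [h3]
    simp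
  rw [← h1]
  refine (hb V _ _).2.2.1 fun B hB => ?_
  refine ⟨(0, 0), ((l : ℤ), 0), rfl, rfl, ?_⟩
  have hmem : ∀ i : ℕ, i ≤ l → (((i : ℤ), (0 : ℤ)) : V) ∈ B ∩ Box 0 l 0 1 := by
    intro i hi
    refine ⟨hB (Finset.mem_coe.mpr (Finset.mem_image.mpr ⟨i, by simpa using by omega, rfl⟩)), ?_⟩
    have h5 : (i : ℤ) ≤ (l : ℤ) := by exact_mod_cast hi
    exact ⟨by positivity, h5, le_refl _, by norm_num⟩
  have hconn : ∀ i : ℕ, i ≤ l → Conn (B ∩ Box 0 l 0 1) (0, 0) ((i : ℤ), 0) := by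
    intro i
    induction i with
    | zero => intro _; exact ⟨hmem 0 (by omega), Relation.ReflTransGen.refl⟩
    | succ i ih =>
      intro hi
      have h4 := ih (by omega)
      refine ⟨h4.1, h4.2.tail ⟨Or.inl ⟨?_, rfl⟩, hmem (i + 1) hi⟩⟩
      push_cast; rfl
  exact hconn l le_rfl

theorem LR_bound (h0 : S_rectBase) (h1 : S_double) (hb : S_PrBasic) (ha : S_PrAvg) (k : ℕ) :
    ∃ c : ℝ, 0 < c ∧ ∀ n l : ℕ, 1 ≤ n → l ≤ k * n → c ≤ Pr (LR 0 (l : ℤ) 0 (n : ℤ)) := by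
  refine ⟨min (cc (4 * k + 1)) ((1 / 2) ^ (k + 1)), lt_min (cc_pos _) (by positivity), ?_⟩
  intro n l hn hl
  have hpow : 4 * k + 1 < 2 ^ (4 * k + 1) := Nat.lt_two_pow_self
  rcases Nat.even_or_odd' n with ⟨a, h | h⟩
  · have ha1 : 1 ≤ a := by omega
    refine (min_le_left _ _).trans ?_
    rw [h]
    refine LR_even h0 h1 hb (4 * k + 1) a l ha1 ?_
    rw [h] at hl
    have h2 : 2 ^ (4 * k + 1 + 1) * a = 2 * (2 ^ (4 * k + 1) * a) := by ring
    have h3 : (4 * k + 2) * a ≤ 2 ^ (4 * k + 1) * a := Nat.mul_le_mul_right a hpow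
    nlinarith
  · by_cases ha1 : 1 ≤ a
    · refine (min_le_left _ _).trans ?_
      have h4 : cc (4 * k + 1) ≤ Pr (LR 0 (l : ℤ) 0 ((2 * a : ℕ) : ℤ)) := by
        refine LR_even h0 h1 hb (4 * k + 1) a l ha1 ?_
        rw [h] at hl
        have h2 : 2 ^ (4 * k + 1 + 1) * a = 2 * (2 ^ (4 * k + 1) * a) := by ring
        have h3 : (4 * k + 2) * a ≤ 2 ^ (4 * k + 1) * a := Nat.mul_le_mul_right a hpow
        nlinarith
      refine h4.trans ((hb V _ _).2.2.1 fun B hB => LR_mono_height ?_ B hB)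
      rw [h]; push_cast; omega
    · obtain rfl : a = 0 := by omega
      simp only [mul_zero, zero_add] at h
      subst h
      refine (min_le_right _ _).trans ?_
      refine le_trans ?_ (LR_row hb ha l)
      apply pow_le_pow_of_le_one (by norm_num) (by norm_num)
      omega

end R4

theorem r_RSW (h0 : S_rectBase) (h1 : S_double) (he : S_PrEquiv) (hb : S_PrBasic)
    (ha : S_PrAvg) : S_RSW := by
  intro k
  obtain ⟨c, hc, h⟩ := R4.LR_bound h0 h1 hb ha k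
  refine ⟨c, hc, fun n l hn hl x y => ?_⟩
  have key : ∀ x y : ℤ, c ≤ Pr (LR x (x + l) y (y + n)) := by
    intro x y
    have h2 : Pr (LR x (x + l) y (y + n)) = Pr (LR 0 (l : ℤ) 0 (n : ℤ)) := by
      rw [← he V V (R4.tr x y) (LR 0 (l : ℤ) 0 (n : ℤ))]
      congr 1
      funext B
      exact propext (R4.LR_tr x y l n B).symm
    rw [h2]
    exact h n l hn hl
  refine ⟨key x y, ?_⟩
  have h3 : Pr (TB x (x + n) y (y + l)) = Pr (LR y (y + l) x (x + n)) := by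
    rw [← he V V (Equiv.prodComm ℤ ℤ) (LR y (y + l) x (x + n))]
    congr 1
    funext B
    exact propext (R4.LR_swap x (x + n) y (y + l) B).symm
  rw [h3]
  exact key y x

end TriX
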