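import Pool.Agent.EX.Spec2
import Pool.Agent.EX.T5

/-! Project EX (MP_68260e), module ST1: deterministic geometry of the good event (helper82). -/

namespace TriX

theorem st1_mem_ball (r : ℤ) (v : V) :
    v ∈ Ball 0 r ↔ -r ≤ v.1 ∧ v.1 ≤ r ∧ -r ≤ v.2 ∧ v.2 ≤ r := by
  show (|v.1 - 0| ≤ r ∧ |v.2 - 0| ≤ r) ↔ _
  rw [sub_zero, sub_zero, abs_le, abs_le]
  tauto

theorem st1_comp {S : Set V} {a b : V} (h : Conn S a b) : Conn {w | Conn S a w} a b := by
  obtain ⟨ha, h⟩ := h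
  refine ⟨⟨ha, Relation.ReflTransGen.refl⟩, ?_⟩
  induction h with
  | refl => exact Relation.ReflTransGen.refl
  | @tail b c hb hbc ih => exact ih.tail ⟨hbc.1, ⟨ha, hb.tail hbc⟩⟩

/-- Two crossing paths have a common vertex, joined to the starting points of both of them. -/
theorem st1_meet (hc : S_crossConn) {S S' : Set V} {a b c d : V} (h : Conn S a b)
    (h' : Conn S' c d) (h1 : ∀ w ∈ S', a.1 ≤ w.1) (h2 : ∀ w ∈ S', w.1 ≤ b.1)
    (h3 : ∀ w ∈ S, c.2 ≤ w.2) (h4 : ∀ w ∈ S, w.2 ≤ d.2) : ∃ w, Conn S a w ∧ Conn S' c w := by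
  obtain ⟨w, hw, hw'⟩ := hc 1 0 one_pos {w | Conn S a w} {w | Conn S' c w} a b c d
    (st1_comp h) (st1_comp h')
    (fun w hw => by have := h1 w (t5_conn_mem hw); simpa [lin] using this)
    (fun w hw => by have := h2 w (t5_conn_mem hw); simpa [lin] using this)
    (fun w hw => h3 w (t5_conn_mem hw)) (fun w hw => h4 w (t5_conn_mem hw))
  exact ⟨w, hw, hw'⟩

/-- A path with interior in `S` is a path in `S` with its ends added. -/
theorem st1_via {S : Set V} {u w : V}
    (h : Relation.ReflTransGen (fun a b => Adj a b ∧ b ∈ S) u w) : Conn (insert u S) u w := by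
  refine ⟨Set.mem_insert _ _, ?_⟩
  exact Relation.ReflTransGen.mono (fun _ _ h => ⟨h.1, Set.mem_insert_of_mem _ h.2⟩) _ _ h

/-- The path visits only vertices which are joined to its end. -/
theorem st1_tail {S : Set V} {u w : V}
    (h : Relation.ReflTransGen (fun a b => Adj a b ∧ b ∈ S) u w) (T : Set V)
    (hT : ∀ z, Relation.ReflTransGen (fun a b => Adj a b ∧ b ∈ S) z w → z ∈ T) :
    Relation.ReflTransGen (fun a b => Adj a b ∧ b ∈ T) u w := by
  induction h using Relation.ReflTransGen.head_induction_on with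
  | refl => exact Relation.ReflTransGen.refl
  | head hpq hq ih => exact Relation.ReflTransGen.head ⟨hpq.1, hT _ hq⟩ ih

theorem st1_exit {r : ℤ} {w v : V} (hw : w ∈ Ball 0 r) (hv : v ∉ Ball 0 r) (h : Adj w v) :
    w.1 = r ∨ w.1 = -r ∨ w.2 = r ∨ w.2 = -r := by
  rw [st1_mem_ball] at hw hv
  unfold Adj at h
  omega

theorem st1 (hc : S_crossConn) (hd : S_dual) (_h1 : S_armBasic) : S_st1 := by
  intro n t a b B hA hR harm
  obtain ⟨ht1, htn, han, ha2, hbn, hb2⟩ := hA
  obtain ⟨hR1, hR2, hR3, hR4, hR5, hR6, hR7⟩ := hR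
  by_contra hE
  -- the white crossing from bottom to top
  have hT : TB (4 * n) (4 * n + a) (4 * n - t) (4 * n + b + t) Bᶜ := by
    by_contra hT
    exact hE ((hd B _ _ _ _ (by linarith) (by linarith)).2 hT)
  obtain ⟨c0, d0, hc0, hd0, hT⟩ := hT
  obtain ⟨a1, b1, ha1, hb1, hR1⟩ := hR1
  obtain ⟨a2, b2, ha2', hb2', hR2⟩ := hR2
  obtain ⟨c3, d3, hc3, hd3, hR3⟩ := hR3
  obtain ⟨c4, d4, hc4, hd4, hR4⟩ := hR4
  -- the white column
  have hcol : Conn (Bᶜ ∩ Box (4 * n) (4 * n + a) (-(10 * n)) (10 * n)) c4 d3 := by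
    have hsub : ∀ y1 y2, -(10 * n) ≤ y1 → y2 ≤ 10 * n →
        Bᶜ ∩ Box (4 * n) (4 * n + a) y1 y2 ⊆
        Bᶜ ∩ Box (4 * n) (4 * n + a) (-(10 * n)) (10 * n) := by
      rintro y1 y2 h1 h2 x ⟨hx, hx1, hx2, hx3, hx4⟩
      exact ⟨hx, hx1, hx2, h1.trans hx3, hx4.trans h2⟩
    obtain ⟨w1, hw1, hw1'⟩ := st1_meet hc hR1 hT
      (fun w hw => by have := hw.2.1; omega) (fun w hw => by have := hw.2.2.1; omega)
      (fun w hw => by have := hw.2.2.2.1; omega) (fun w hw => by have := hw.2.2.2.2; omega)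
    obtain ⟨w2, hw2, hw2'⟩ := st1_meet hc hR2 hT
      (fun w hw => by have := hw.2.1; omega) (fun w hw => by have := hw.2.2.1; omega)
      (fun w hw => by have := hw.2.2.2.1; omega) (fun w hw => by have := hw.2.2.2.2; omega)
    obtain ⟨w3, hw3, hw3'⟩ := st1_meet hc hR1 hR3
      (fun w hw => by have := hw.2.1; omega) (fun w hw => by have := hw.2.2.1; omega)
      (fun w hw => by have := hw.2.2.2.1; omega) (fun w hw => by have := hw.2.2.2.2; omega)
    obtain ⟨w4, hw4, hw4'⟩ := st1_meet hc hR2 hR4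
      (fun w hw => by have := hw.2.1; omega) (fun w hw => by have := hw.2.2.1; omega)
      (fun w hw => by have := hw.2.2.2.1; omega) (fun w hw => by have := hw.2.2.2.2; omega)
    have e1 := t5_conn_mono (hsub _ _ (by omega) (by omega)) hw1
    have e1' := t5_conn_mono (hsub _ _ (by omega) (by omega)) hw1'
    have e2 := t5_conn_mono (hsub _ _ (by omega) (by omega)) hw2
    have e2' := t5_conn_mono (hsub _ _ (by omega) (by omega)) hw2'
    have e3 := t5_conn_mono (hsub _ _ (by omega) (by omega)) hw3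
    have e3' := t5_conn_mono (hsub _ _ (by omega) (by omega)) hw3'
    have e4 := t5_conn_mono (hsub _ _ (by omega) (by omega)) hw4
    have e4' := t5_conn_mono (hsub _ _ (by omega) (by omega)) hw4'
    have e5 := t5_conn_mono (hsub _ _ (by omega) (by omega)) hR3
    -- c4 ~ a2 ~ c0 ~ a1 ~ c3 ~ d3
    have f1 := t5_conn_trans e4' (t5_conn_symm e4)
    have f2 := t5_conn_trans e2 (t5_conn_symm e2')
    have f3 := t5_conn_trans e1' (t5_conn_symm e1)
    have f4 := t5_conn_trans e3 (t5_conn_symm e3')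
    exact t5_conn_trans f1 (t5_conn_trans f2 (t5_conn_trans f3 (t5_conn_trans f4 e5)))
  -- the black arm
  obtain ⟨u, hu, v, hv, w, huw, hwv⟩ := harm
  set S : Set V := insert u (B ∩ Ann 0 (3 * n) (10 * n)) with hS
  have hcon : Conn S u w := st1_via huw
  have hub := (st1_mem_ball _ _).1 hu
  have hSball : ∀ x ∈ S, -(10 * n) ≤ x.1 ∧ x.1 ≤ 10 * n ∧ -(10 * n) ≤ x.2 ∧ x.2 ≤ 10 * n := by
    rintro x (rfl | hx)
    · refine ⟨?_, ?_, ?_, ?_⟩ <;> omega
    · exact (st1_mem_ball _ _).1 hx.2.1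
  have hSw : ∀ x ∈ S, x ∉ B → x = u := by
    rintro x (rfl | hx) hxB
    · rfl
    · exact absurd hx.1 hxB
  have hwball : w ∈ Ball 0 (10 * n) := (st1_mem_ball _ _).2 (hSball w (t5_conn_mem hcon))
  rcases st1_exit hwball hv hwv with h | h | h | h
  · -- right
    obtain ⟨x, hx, hx'⟩ := st1_meet hc hcon hcol
      (fun y hy => by have := hy.2.1; omega) (fun y hy => by have := hy.2.2.1; omega)
      (fun y hy => by have := (hSball y hy).2.2.1; omega)
      (fun y hy => by have := (hSball y hy).2.2.2; omega)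
    have h1 := t5_conn_mem hx'
    have h2 := hSw x (t5_conn_mem hx) h1.1
    have h3 := h1.2.1
    rw [h2] at h3
    omega
  · -- left
    obtain ⟨c7, d7, hc7, hd7, hR7⟩ := hR7
    obtain ⟨x, hx, hx'⟩ := st1_meet hc (t5_conn_symm hcon) hR7
      (fun y hy => by have := hy.2.1; omega) (fun y hy => by have := hy.2.2.1; omega)
      (fun y hy => by have := (hSball y hy).2.2.1; omega)
      (fun y hy => by have := (hSball y hy).2.2.2; omega)
    have h1 := t5_conn_mem hx'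
    have h2 := hSw x (t5_conn_mem hx) h1.1
    have h3 := h1.2.2.1
    rw [h2] at h3
    omega
  · -- top
    obtain ⟨a5, b5, ha5, hb5, hR5⟩ := hR5
    obtain ⟨x, hx, hx'⟩ := st1_meet hc hR5 hcon
      (fun y hy => by have := (hSball y hy).1; omega)
      (fun y hy => by have := (hSball y hy).2.1; omega)
      (fun y hy => by have := hy.2.2.2.1; omega) (fun y hy => by have := hy.2.2.2.2; omega)
    have h1 := t5_conn_mem hx
    have h2 := hSw x (t5_conn_mem hx') h1.1
    have h3 := h1.2.2.2.1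
    rw [h2] at h3
    omega
  · -- bottom
    obtain ⟨a6, b6, ha6, hb6, hR6⟩ := hR6
    obtain ⟨x, hx, hx'⟩ := st1_meet hc hR6 (t5_conn_symm hcon)
      (fun y hy => by have := (hSball y hy).1; omega)
      (fun y hy => by have := (hSball y hy).2.1; omega)
      (fun y hy => by have := hy.2.2.2.1; omega) (fun y hy => by have := hy.2.2.2.2; omega)
    have h1 := t5_conn_mem hx
    have h2 := hSw x (t5_conn_mem hx') h1.1
    have h3 := h1.2.2.2.2
    rw [h2] at h3
    omega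

theorem st2 (hc : S_crossConn) (hr : S_ring) (h1 : S_armBasic) : S_st2 := by
  intro n t a b r R B hA hr0 hrn hR hK hRB hE hin hout
  obtain ⟨ht1, htn, han, ha2, hbn, hb2⟩ := hA
  obtain ⟨hK1, hK2, hK3, hK4, hK5⟩ := hK
  obtain ⟨hr1, hr2⟩ := hRB
  obtain ⟨Ci, hCi, hCic, hCim⟩ := hr B 0 n (2 * n) (by omega) (by omega) hr1
  obtain ⟨Co, hCo, hCoc, hCom⟩ := hr B 0 (12 * n) (24 * n) (by omega) (by omega) hr2
  obtain ⟨c1, d1, hc1, hd1, hK1⟩ := hK1
  obtain ⟨c2, d2, hc2, hd2, hK2⟩ := hK2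
  obtain ⟨a3, b3, ha3, hb3, hK3⟩ := hK3
  obtain ⟨c4, d4, hc4, hd4, hK4⟩ := hK4
  obtain ⟨a5, b5, ha5, hb5, hK5⟩ := hK5
  obtain ⟨aE, bE, haE, hbE, hE⟩ := hE
  have hsub : ∀ x1 x2 y1 y2, B ∩ Box x1 x2 y1 y2 ⊆ B := fun _ _ _ _ => Set.inter_subset_left
  -- meetings of the corridors
  obtain ⟨w1, hw1, hw1'⟩ := st1_meet hc hK3 hK4
    (fun w hw => by have := hw.2.1; omega) (fun w hw => by have := hw.2.2.1; omega)
    (fun w hw => by have := hw.2.2.2.1; omega) (fun w hw => by have := hw.2.2.2.2; omega)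
  obtain ⟨w2, hw2, hw2'⟩ := st1_meet hc hK3 hK1
    (fun w hw => by have := hw.2.1; omega) (fun w hw => by have := hw.2.2.1; omega)
    (fun w hw => by have := hw.2.2.2.1; omega) (fun w hw => by have := hw.2.2.2.2; omega)
  obtain ⟨w3, hw3, hw3'⟩ := st1_meet hc hE hK1
    (fun w hw => by have := hw.2.1; omega) (fun w hw => by have := hw.2.2.1; omega)
    (fun w hw => by have := hw.2.2.2.1; omega) (fun w hw => by have := hw.2.2.2.2; omega)
  obtain ⟨w4, hw4, hw4'⟩ := st1_meet hc hE hK2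
    (fun w hw => by have := hw.2.1; omega) (fun w hw => by have := hw.2.2.1; omega)
    (fun w hw => by have := hw.2.2.2.1; omega) (fun w hw => by have := hw.2.2.2.2; omega)
  obtain ⟨w5, hw5, hw5'⟩ := st1_meet hc hK5 hK2
    (fun w hw => by have := hw.2.1; omega) (fun w hw => by have := hw.2.2.1; omega)
    (fun w hw => by have := hw.2.2.2.1; omega) (fun w hw => by have := hw.2.2.2.2; omega)
  -- c4 ~ a3 ~ c1 ~ aE ~ c2 ~ a5
  have hmain : Conn B c4 a5 := by
    have e1 := t5_conn_mono (hsub _ _ _ _) hw1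
    have e1' := t5_conn_mono (hsub _ _ _ _) hw1'
    have e2 := t5_conn_mono (hsub _ _ _ _) hw2
    have e2' := t5_conn_mono (hsub _ _ _ _) hw2'
    have e3 := t5_conn_mono (hsub _ _ _ _) hw3
    have e3' := t5_conn_mono (hsub _ _ _ _) hw3'
    have e4 := t5_conn_mono (hsub _ _ _ _) hw4
    have e4' := t5_conn_mono (hsub _ _ _ _) hw4'
    have e5 := t5_conn_mono (hsub _ _ _ _) hw5
    have e5' := t5_conn_mono (hsub _ _ _ _) hw5'
    exact t5_conn_trans e1' (t5_conn_trans (t5_conn_symm e1) (t5_conn_trans e2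
      (t5_conn_trans (t5_conn_symm e2') (t5_conn_trans e3' (t5_conn_trans (t5_conn_symm e3)
        (t5_conn_trans e4 (t5_conn_trans (t5_conn_symm e4') (t5_conn_trans e5'
          (t5_conn_symm e5)))))))))
  -- the inner ring meets the vertical corridor
  obtain ⟨x, hx, hxK⟩ : ∃ x ∈ Ci, Conn B c4 x := by
    obtain ⟨g1, g2, g3, g4⟩ := hK4.1.2
    have hadj : Adj (c4.1, n) c4 := by
      exact Or.inr (Or.inr (Or.inl ⟨rfl, hc4⟩))
    have hball : (c4.1, n) ∈ Ball 0 n := (st1_mem_ball _ _).2 (by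
      simp only
      omega)
    have hc2 : Conn (insert (c4.1, n) {w | Conn (B ∩ Box 0 n (n + 1) (4 * n + b)) c4 w})
        (c4.1, n) d4 := by
      refine ⟨Set.mem_insert _ _, ?_⟩
      refine Relation.ReflTransGen.head (b := c4)
        ⟨hadj, Or.inr ⟨hK4.1, Relation.ReflTransGen.refl⟩⟩ ?_
      exact Relation.ReflTransGen.mono (fun _ _ h => ⟨h.1, Or.inr h.2⟩) _ _ (st1_comp hK4).2
    obtain ⟨x, hx, hx'⟩ := hCim _ (c4.1, n) d4 hball (by
      rw [st1_mem_ball]
      omega) hc2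
    rcases hx' with h2 | h2
    · exfalso
      rw [h2] at hx
      exact (hCi hx).2.2 hball
    · exact ⟨x, hx, t5_conn_mono (hsub _ _ _ _) h2⟩
  -- the outer ring meets the right corridor
  obtain ⟨y, hy, hyK⟩ : ∃ y ∈ Co, Conn B a5 y := by
    obtain ⟨x, hx, hx'⟩ := hCom _ a5 b5 ((st1_mem_ball _ _).2 (by
      have h2 := hK5.1.2
      obtain ⟨g1, g2, g3, g4⟩ := h2
      refine ⟨?_, ?_, ?_, ?_⟩ <;> omega)) (by
      rw [st1_mem_ball]
      omega) (st1_comp hK5)
    exact ⟨x, hx, t5_conn_mono (hsub _ _ _ _) hx'⟩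
  -- the inner arm
  obtain ⟨u, hu, v, hv, w, huw, hwv⟩ := hin
  obtain ⟨x', hx', hux'⟩ : ∃ x' ∈ Ci,
      Relation.ReflTransGen (fun a b => Adj a b ∧ b ∈ B) u x' := by
    have hub := (st1_mem_ball _ _).1 hu
    have hc1 : Conn (insert v {z | Relation.ReflTransGen
        (fun a b => Adj a b ∧ b ∈ B ∩ Ann 0 r (2 * n)) u z}) u v := by
      refine ⟨Or.inr Relation.ReflTransGen.refl, ?_⟩
      refine Relation.ReflTransGen.tail ?_ ⟨hwv, Or.inl rfl⟩
      clear hwv
      induction huw with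
      | refl => exact Relation.ReflTransGen.refl
      | @tail p q hp hpq ih => exact ih.tail ⟨hpq.1, Or.inr (hp.tail hpq)⟩
    obtain ⟨x', hx', hx''⟩ := hCim _ u v ((st1_mem_ball _ _).2 (by omega)) hv hc1
    rcases hx'' with h2 | h2
    · exfalso
      rw [h2] at hx'
      exact hv (hCi hx').2.1
    · refine ⟨x', hx', ?_⟩
      exact Relation.ReflTransGen.mono (fun _ _ h => ⟨h.1, h.2.1⟩) _ _ h2
  -- the outer arm
  obtain ⟨u1, hu1, v1, hv1, w', huw1, hwv1⟩ := hout
  obtain ⟨y', hy', hyw⟩ : ∃ y' ∈ Co,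
      Relation.ReflTransGen (fun a b => Adj a b ∧ b ∈ B) y' w' := by
    have hc1 : Conn ({u1, v1} ∪ {z | Relation.ReflTransGen
        (fun a b => Adj a b ∧ b ∈ B ∩ Ann 0 (12 * n) R) z w'}) u1 v1 := by
      refine ⟨Or.inl (Or.inl rfl), ?_⟩
      refine Relation.ReflTransGen.tail ?_ ⟨hwv1, Or.inl (Or.inr rfl)⟩
      exact st1_tail huw1 _ fun z hz => Or.inr hz
    obtain ⟨x', hx', hx''⟩ := hCom _ u1 v1 hu1 (by
      intro h2
      apply hv1
      rw [st1_mem_ball] at h2 ⊢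
      omega) hc1
    rcases hx'' with (h2 | h2) | h2
    · exfalso
      rw [h2] at hx'
      exact (hCo hx').2.2 hu1
    · exfalso
      rw [h2] at hx'
      apply hv1
      have h3 := (hCo hx').2.1
      rw [st1_mem_ball] at h3 ⊢
      omega
    · refine ⟨x', hx', ?_⟩
      exact Relation.ReflTransGen.mono (fun _ _ h => ⟨h.1, h.2.1⟩) _ _ h2
  -- conclusion
  have hCiB : Ci ⊆ B := fun z hz => (hCi hz).1
  have hCoB : Co ⊆ B := fun z hz => (hCo hz).1
  have g1 : Conn B x' x := t5_conn_mono hCiB (hCic x' hx' x hx)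
  have g2 : Conn B y y' := t5_conn_mono hCoB (hCoc y hy y' hy')
  have g3 : Conn B x' y' := t5_conn_trans g1 (t5_conn_trans (t5_conn_symm hxK)
    (t5_conn_trans hmain (t5_conn_trans hyK g2)))
  refine h1.2.2.1 0 r R B u v1 (by omega) hu hv1 (Or.inr ⟨w', ?_, hwv1⟩)
  exact hux'.trans (g3.2.trans hyw)

end TriX
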