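import Pool.Agent.EX.Spec2

/-! ST3, ST4: probabilities of the local events, pigeonhole. -/

set_option autoImplicit false

open MeasureTheory

namespace TriX

theorem st3_conn_mono {S S' : Set V} (h : S ⊆ S') {u v : V} (hc : Conn S u v) : Conn S' u v := by
  obtain ⟨h1, h2⟩ := hc
  refine ⟨h h1, ?_⟩
  induction h2 with
  | refl => exact Relation.ReflTransGen.refl
  | tail _ h3 ih => exact ih.tail ⟨h3.1, h h3.2⟩

theorem st3_conn_image (e : V → V) (he : ∀ u v, Adj u v → Adj (e u) (e v)) {S : Set V} {u v : V}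
    (hc : Conn S u v) : Conn (e '' S) (e u) (e v) := by
  obtain ⟨h1, h2⟩ := hc
  refine ⟨⟨u, h1, rfl⟩, ?_⟩
  induction h2 with
  | refl => exact Relation.ReflTransGen.refl
  | tail _ h3 ih => exact ih.tail ⟨he _ _ h3.1, ⟨_, h3.2, rfl⟩⟩

theorem st3_box (x1 x2 y1 y2 : ℤ) : Box x1 x2 y1 y2 =
    ((Finset.Icc (x1, y1) (x2, y2) : Finset V) : Set V) := by
  ext w
  rw [Finset.coe_Icc, Set.mem_Icc, Prod.le_def, Prod.le_def]
  constructor
  · rintro ⟨a, b, c, d⟩
    exact ⟨⟨a, c⟩, ⟨b, d⟩⟩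
  · rintro ⟨⟨a, c⟩, ⟨b, d⟩⟩
    exact ⟨a, b, c, d⟩

theorem st3_incr_LR (x1 x2 y1 y2 : ℤ) : Incr (LR x1 x2 y1 y2) := by
  rintro B B' h ⟨u, v, hu, hv, hc⟩
  exact ⟨u, v, hu, hv, st3_conn_mono (Set.inter_subset_inter_left _ h) hc⟩

theorem st3_incr_TB (x1 x2 y1 y2 : ℤ) : Incr (TB x1 x2 y1 y2) := by
  rintro B B' h ⟨u, v, hu, hv, hc⟩
  exact ⟨u, v, hu, hv, st3_conn_mono (Set.inter_subset_inter_left _ h) hc⟩

theorem st3_dep_LR (x1 x2 y1 y2 : ℤ) :
    DepOn (LR x1 x2 y1 y2) ((Finset.Icc (x1, y1) (x2, y2) : Finset V) : Set V) := by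
  intro B B' h
  rw [← st3_box] at h
  simp only [LR, h]

theorem st3_dep_TB (x1 x2 y1 y2 : ℤ) :
    DepOn (TB x1 x2 y1 y2) ((Finset.Icc (x1, y1) (x2, y2) : Finset V) : Set V) := by
  intro B B' h
  rw [← st3_box] at h
  simp only [TB, h]

theorem st3_loc_LR (x1 x2 y1 y2 : ℤ) : Loc (LR x1 x2 y1 y2) := ⟨_, st3_dep_LR _ _ _ _⟩

theorem st3_loc_TB (x1 x2 y1 y2 : ℤ) : Loc (TB x1 x2 y1 y2) := ⟨_, st3_dep_TB _ _ _ _⟩

theorem st3_loc_compl {f : Set V → Prop} (h : Loc f) : Loc (fun B => f Bᶜ) := by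
  obtain ⟨S, hS⟩ := h
  refine ⟨S, fun B B' h => hS _ _ ?_⟩
  ext w
  have h3 := Set.ext_iff.1 h w
  simp only [Set.mem_inter_iff, Set.mem_compl_iff] at h3 ⊢
  tauto

theorem st3_loc_and {f g : Set V → Prop} (hf : Loc f) (hg : Loc g) : Loc (fun B => f B ∧ g B) := by
  classical
  obtain ⟨S, hS⟩ := hf
  obtain ⟨T, hT⟩ := hg
  refine ⟨S ∪ T, fun B B' h => ?_⟩
  have h1 : B ∩ S = B' ∩ S := by
    ext w
    have h3 := Set.ext_iff.1 h w
    simp only [Set.mem_inter_iff, Finset.coe_union, Set.mem_union] at h3 ⊢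
    tauto
  have h2 : B ∩ T = B' ∩ T := by
    ext w
    have h3 := Set.ext_iff.1 h w
    simp only [Set.mem_inter_iff, Finset.coe_union, Set.mem_union] at h3 ⊢
    tauto
  simp only [hS _ _ h1, hT _ _ h2]

/-- an increasing local event of probability at least `c` -/
def st3_Up (c : ℝ) (f : Set V → Prop) : Prop := 0 < c ∧ Loc f ∧ Incr f ∧ c ≤ Pr f

/-- a decreasing local event of probability at least `c` -/
def st3_Dn (c : ℝ) (f : Set V → Prop) : Prop := 0 < c ∧ Loc f ∧ Decr f ∧ c ≤ Pr f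

theorem st3_Up.and (hh : S_PrHarris) {c d : ℝ} {f g : Set V → Prop} (hf : st3_Up c f)
    (hg : st3_Up d g) : st3_Up (c * d) (fun B => f B ∧ g B) := by
  obtain ⟨hc, hf1, hf2, hf3⟩ := hf
  obtain ⟨hd, hg1, hg2, hg3⟩ := hg
  refine ⟨mul_pos hc hd, st3_loc_and hf1 hg1, fun B B' h hB => ⟨hf2 B B' h hB.1, hg2 B B' h hB.2⟩, ?_⟩
  obtain ⟨U, hU⟩ := hg1
  refine le_trans (mul_le_mul hf3 hg3 hd.le (hc.le.trans hf3)) ?_
  exact (hh V f g U hf1 hU).1 (fun B B' _ h => hf2 B B' h) hg2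

theorem st3_Dn.and (hh : S_PrHarris) {c d : ℝ} {f g : Set V → Prop} (hf : st3_Dn c f)
    (hg : st3_Dn d g) : st3_Dn (c * d) (fun B => f B ∧ g B) := by
  obtain ⟨hc, hf1, hf2, hf3⟩ := hf
  obtain ⟨hd, hg1, hg2, hg3⟩ := hg
  refine ⟨mul_pos hc hd, st3_loc_and hf1 hg1, fun B B' h hB => ⟨hf2 B B' h hB.1, hg2 B B' h hB.2⟩, ?_⟩
  obtain ⟨U, hU⟩ := hg1
  refine le_trans (mul_le_mul hf3 hg3 hd.le (hc.le.trans hf3)) ?_
  exact (hh V f g U hf1 hU).2.1 (fun B B' _ h => hf2 B B' h) hg2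

theorem st3_flip (hf : S_PrFlip) (f : Set V → Prop) : Pr (fun B : Set V => f Bᶜ) = Pr f := by
  have h := hf V Set.univ f
  rw [← h]
  congr 1
  funext B
  have h3 : symmDiff B Set.univ = Bᶜ := by
    ext w
    simp [Set.mem_symmDiff]
  rw [h3]

theorem st3_Up.flip (hf : S_PrFlip) {c : ℝ} {f : Set V → Prop} (h : st3_Up c f) :
    st3_Dn c (fun B => f Bᶜ) :=
  ⟨h.1, st3_loc_compl h.2.1, fun B B' hB => h.2.2.1 _ _ (Set.compl_subset_compl.2 hB), by
    rw [st3_flip hf]; exact h.2.2.2⟩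

theorem st3_Up.mono {c d : ℝ} {f : Set V → Prop} (h : st3_Up c f) (hd : 0 < d) (hdc : d ≤ c) :
    st3_Up d f := ⟨hd, h.2.1, h.2.2.1, hdc.trans h.2.2.2⟩

/-- if a box has few sites then it is black with positive probability -/
theorem st3_small (ha : S_PrAvg) (f : Set V → Prop) (S : Finset V) (hS : DepOn f (S : Set V))
    (hf : f (S : Set V)) (k : ℕ) (hk : S.card ≤ k) : (1 : ℝ) / 2 ^ k ≤ Pr f := by
  classical
  rw [ha V f S hS]
  refine div_le_div₀ (by positivity) ?_ (by positivity)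
    (pow_le_pow_right₀ (by norm_num) hk)
  have h1 : 0 < (S.powerset.filter (fun A : Finset V => f (A : Set V))).card := by
    apply Finset.card_pos.2
    exact ⟨S, by simp [hf]⟩
  exact_mod_cast h1

theorem st3_row (x1 x2 y : ℤ) (h : x1 ≤ x2) :
    LR x1 x2 y y ((Finset.Icc (x1, y) (x2, y) : Finset V) : Set V) := by
  rw [← st3_box]
  have key : ∀ k : ℕ, x1 + k ≤ x2 →
      Conn (Box x1 x2 y y ∩ Box x1 x2 y y) (x1, y) (x1 + k, y) := by
    intro k
    induction k with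
    | zero =>
      intro _
      rw [Nat.cast_zero, add_zero]
      exact ⟨⟨⟨le_rfl, h, le_rfl, le_rfl⟩, ⟨le_rfl, h, le_rfl, le_rfl⟩⟩,
        Relation.ReflTransGen.refl⟩
    | succ k ih =>
      intro hk
      have h1 := ih (by push_cast at hk; omega)
      refine ⟨h1.1, h1.2.tail ⟨Or.inl ⟨?_, rfl⟩, ?_⟩⟩
      · push_cast; ring
      · have h2 : (x1 + ((k + 1 : ℕ) : ℤ), y) ∈ Box x1 x2 y y :=
          ⟨by simp only; omega, hk, le_rfl, le_rfl⟩
        exact ⟨h2, h2⟩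
  refine ⟨(x1, y), (x2, y), rfl, rfl, ?_⟩
  have h1 := key (x2 - x1).toNat (by omega)
  rwa [show x1 + ((x2 - x1).toNat : ℤ) = x2 by omega] at h1

theorem st3_col (x y1 y2 : ℤ) (h : y1 ≤ y2) :
    TB x x y1 y2 ((Finset.Icc (x, y1) (x, y2) : Finset V) : Set V) := by
  rw [← st3_box]
  have key : ∀ k : ℕ, y1 + k ≤ y2 →
      Conn (Box x x y1 y2 ∩ Box x x y1 y2) (x, y1) (x, y1 + k) := by
    intro k
    induction k with
    | zero =>
      intro _
      rw [Nat.cast_zero, add_zero]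
      exact ⟨⟨⟨le_rfl, le_rfl, le_rfl, h⟩, ⟨le_rfl, le_rfl, le_rfl, h⟩⟩,
        Relation.ReflTransGen.refl⟩
    | succ k ih =>
      intro hk
      have h1 := ih (by push_cast at hk; omega)
      refine ⟨h1.1, h1.2.tail ⟨Or.inr (Or.inr (Or.inl ⟨rfl, ?_⟩)), ?_⟩⟩
      · push_cast; ring
      · have h2 : (x, y1 + ((k + 1 : ℕ) : ℤ)) ∈ Box x x y1 y2 :=
          ⟨le_rfl, le_rfl, by simp only; omega, hk⟩
        exact ⟨h2, h2⟩
  refine ⟨(x, y1), (x, y2), rfl, rfl, ?_⟩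
  have h1 := key (y2 - y1).toNat (by omega)
  rwa [show y1 + ((y2 - y1).toNat : ℤ) = y2 by omega] at h1

theorem st3_cross (hr : S_RSW) (ha : S_PrAvg) (m : ℕ) : ∃ c : ℝ, 0 < c ∧
    (∀ x1 x2 y1 y2 : ℤ, x1 ≤ x2 → y1 ≤ y2 → x2 - x1 ≤ m * (y2 - y1 + 1) →
      st3_Up c (LR x1 x2 y1 y2)) ∧
    (∀ x1 x2 y1 y2 : ℤ, x1 ≤ x2 → y1 ≤ y2 → y2 - y1 ≤ m * (x2 - x1 + 1) →
      st3_Up c (TB x1 x2 y1 y2)) := by
  obtain ⟨c, hc, h⟩ := hr (2 * m)
  refine ⟨min c (1 / 2 ^ (m + 1)), lt_min hc (by positivity), ?_, ?_⟩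
  · intro x1 x2 y1 y2 hx hy hm
    refine ⟨lt_min hc (by positivity), st3_loc_LR _ _ _ _, st3_incr_LR _ _ _ _, ?_⟩
    rcases hy.eq_or_lt with rfl | hy
    · refine (min_le_right _ _).trans (st3_small ha _ _ (st3_dep_LR _ _ _ _) (st3_row x1 x2 y1 hx)
        _ ?_)
      rw [← Finset.Icc_product_Icc, Finset.card_product]
      simp only [Int.card_Icc]
      have h1 : (x2 + 1 - x1).toNat ≤ m + 1 := by
        have : x2 - x1 ≤ m := by simpa using hm
        omega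
      have h2 : (y1 + 1 - y1).toNat = 1 := by omega
      rw [h2, mul_one]
      exact h1
    · refine (min_le_left _ _).trans ?_
      have h1 := (h (y2 - y1).toNat (x2 - x1).toNat (by omega) (by
        zify
        rw [Int.toNat_of_nonneg (by omega), Int.toNat_of_nonneg (by omega)]
        have h3 : y2 - y1 + 1 ≤ 2 * (y2 - y1) := by omega
        have h4 := mul_le_mul_of_nonneg_left h3 (Int.natCast_nonneg m)
        linarith) x1 y1).1
      rwa [Int.toNat_of_nonneg (by omega), Int.toNat_of_nonneg (by omega), add_sub_cancel,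
        add_sub_cancel] at h1
  · intro x1 x2 y1 y2 hx hy hm
    refine ⟨lt_min hc (by positivity), st3_loc_TB _ _ _ _, st3_incr_TB _ _ _ _, ?_⟩
    rcases hx.eq_or_lt with rfl | hx
    · refine (min_le_right _ _).trans (st3_small ha _ _ (st3_dep_TB _ _ _ _) (st3_col x1 y1 y2 hy)
        _ ?_)
      rw [← Finset.Icc_product_Icc, Finset.card_product]
      simp only [Int.card_Icc]
      have h1 : (y2 + 1 - y1).toNat ≤ m + 1 := by
        have : y2 - y1 ≤ m := by simpa using hm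
        omega
      have h2 : (x1 + 1 - x1).toNat = 1 := by omega
      rw [h2, one_mul]
      exact h1
    · refine (min_le_left _ _).trans ?_
      have h1 := (h (x2 - x1).toNat (y2 - y1).toNat (by omega) (by
        zify
        rw [Int.toNat_of_nonneg (by omega), Int.toNat_of_nonneg (by omega)]
        have h3 : x2 - x1 + 1 ≤ 2 * (x2 - x1) := by omega
        have h4 := mul_le_mul_of_nonneg_left h3 (Int.natCast_nonneg m)
        linarith) x1 y1).2
      rwa [Int.toNat_of_nonneg (by omega), Int.toNat_of_nonneg (by omega), add_sub_cancel,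
        add_sub_cancel] at h1

theorem st3_arm (h1 : S_armBasic) {c : ℝ} (hc : 0 < c) (r R : ℤ)
    (h : c ≤ Pr (fun B => ¬ Arm 0 r R Bᶜ)) : st3_Up c (fun B => ¬ Arm 0 r R Bᶜ) := by
  obtain ⟨hi, -, -, hl⟩ := h1.1 0 r R
  refine ⟨hc, ?_, fun B B' hB hn ha => hn (hi _ _ (Set.compl_subset_compl.2 hB) ha), h⟩
  obtain ⟨S, hS⟩ := st3_loc_compl hl
  exact ⟨S, fun B B' hB => congrArg Not (hS B B' hB)⟩

theorem st3 (hr : S_RSW) (hp : S_ringProb) (hh : S_PrHarris) (hf : S_PrFlip) (_ : S_PrBasic)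
    (ha : S_PrAvg) (h1 : S_armBasic) : S_st3 := by
  constructor
  · obtain ⟨c, hc, hL, -⟩ := st3_cross hr ha 4
    refine ⟨c, hc, fun n t a b hA => ?_⟩
    obtain ⟨a1, a2, a3, a4, a5, a6⟩ := hA
    exact (hL _ _ _ _ (by omega) (by omega) (by push_cast; omega)).2.2.2
  · intro m
    obtain ⟨c, hc, hL, hT⟩ := st3_cross hr ha (2 * m + 25)
    obtain ⟨d, hd, hD⟩ := hp
    refine ⟨min (c ^ 7) (c ^ 5 * d ^ 2), lt_min (by positivity) (by positivity), ?_⟩
    intro n t a b hA hnt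
    obtain ⟨a1, a2, a3, a4, a5, a6⟩ := hA
    have e1 : 2 * n ≤ ((2 * m + 25 : ℕ) : ℤ) * t := by
      push_cast
      nlinarith
    have e2 : ∀ z : ℤ, n ≤ z → 25 * n ≤ ((2 * m + 25 : ℕ) : ℤ) * (z + 1) := by
      intro z hz
      push_cast
      nlinarith [Int.natCast_nonneg m]
    have r1 := (hL (4 * n) (4 * n + a) (4 * n + b + 1) (4 * n + b + t) (by omega) (by omega)
      (by rw [show 4 * n + b + t - (4 * n + b + 1) + 1 = t by ring]; omega)).flip hf
    have r2 := (hL (4 * n) (4 * n + a) (4 * n - t) (4 * n - 1) (by omega) (by omega)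
      (by rw [show 4 * n - 1 - (4 * n - t) + 1 = t by ring]; omega)).flip hf
    have r3 := (hT (4 * n) (4 * n + a) (4 * n + b + 1) (10 * n) (by omega) (by omega)
      (by have := e2 (4 * n + a - 4 * n) (by omega); omega)).flip hf
    have r4 := (hT (4 * n) (4 * n + a) (-(10 * n)) (4 * n - 1) (by omega) (by omega)
      (by have := e2 (4 * n + a - 4 * n) (by omega); omega)).flip hf
    have r5 := (hL (-(10 * n)) (10 * n) (8 * n) (10 * n) (by omega) (by omega)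
      (by have := e2 (10 * n - 8 * n) (by omega); omega)).flip hf
    have r6 := (hL (-(10 * n)) (10 * n) (-(10 * n)) (-(8 * n)) (by omega) (by omega)
      (by have := e2 (-(8 * n) - -(10 * n)) (by omega); omega)).flip hf
    have r7 := (hT (-(10 * n)) (-(8 * n)) (-(10 * n)) (10 * n) (by omega) (by omega)
      (by have := e2 (-(8 * n) - -(10 * n)) (by omega); omega)).flip hf
    have k1 := hT (4 * n - t) (4 * n - 1) (4 * n) (4 * n + b) (by omega) (by omega)
      (by rw [show 4 * n - 1 - (4 * n - t) + 1 = t by ring]; omega)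
    have k2 := hT (4 * n + a + 1) (4 * n + a + t) (4 * n) (4 * n + b) (by omega) (by omega)
      (by rw [show 4 * n + a + t - (4 * n + a + 1) + 1 = t by ring]; omega)
    have k3 := hL 0 (4 * n - 1) (4 * n) (4 * n + b) (by omega) (by omega)
      (by have := e2 (4 * n + b - 4 * n) (by omega); omega)
    have k4 := hT 0 n (n + 1) (4 * n + b) (by omega) (by omega)
      (by have := e2 (n - 0) (by omega); omega)
    have k5 := hL (4 * n + a + 1) (25 * n) (4 * n) (4 * n + b) (by omega) (by omega)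
      (by have := e2 (4 * n + b - 4 * n) (by omega); omega)
    have q1 := st3_arm h1 hd n (2 * n) (hD 0 n (2 * n) (by omega) (by omega) le_rfl)
    have q2 := st3_arm h1 hd (12 * n) (24 * n) (hD 0 (12 * n) (24 * n) (by omega) (by omega)
      (by omega))
    constructor
    · refine (min_le_left _ _).trans ?_
      have := (r1.and hh (r2.and hh (r3.and hh (r4.and hh (r5.and hh (r6.and hh r7)))))).2.2.2
      refine le_trans (le_of_eq (by ring)) this
    · refine (min_le_right _ _).trans ?_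
      have := ((k1.and hh (k2.and hh (k3.and hh (k4.and hh k5)))).and hh (q1.and hh q2)).2.2.2
      refine le_trans (le_of_eq (by ring)) this

/-- The translation. -/
def st4_tr (p q : ℤ) : V ≃ V where
  toFun v := (v.1 + p, v.2 + q)
  invFun v := (v.1 - p, v.2 - q)
  left_inv v := by simp
  right_inv v := by simp

theorem st4_tr_LR {x1 x2 y1 y2 : ℤ} (p q : ℤ) {B : Set V} (h : LR x1 x2 y1 y2 B) :
    LR (x1 + p) (x2 + p) (y1 + q) (y2 + q) (st4_tr p q '' B) := by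
  obtain ⟨u, v, hu, hv, hc⟩ := h
  refine ⟨st4_tr p q u, st4_tr p q v, ?_, ?_, ?_⟩
  · change u.1 + p = _
    rw [hu]
  · change v.1 + p = _
    rw [hv]
  · have h1 := st3_conn_image (st4_tr p q) (by
      intro u v huv
      unfold Adj at *
      simp only [st4_tr, Equiv.coe_fn_mk]
      omega) hc
    refine st3_conn_mono ?_ h1
    rintro _ ⟨w, ⟨hw1, hw2⟩, rfl⟩
    refine ⟨⟨w, hw1, rfl⟩, ?_⟩
    obtain ⟨h2, h3, h4, h5⟩ := hw2
    refine ⟨?_, ?_, ?_, ?_⟩ <;> simp only [st4_tr, Equiv.coe_fn_mk] <;> omega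

theorem st4_swap_TB {x1 x2 y1 y2 : ℤ} {B : Set V} (h : TB x1 x2 y1 y2 B) :
    LR y1 y2 x1 x2 (Equiv.prodComm ℤ ℤ '' B) := by
  obtain ⟨u, v, hu, hv, hc⟩ := h
  refine ⟨u.swap, v.swap, hu, hv, ?_⟩
  have h1 := st3_conn_image (Equiv.prodComm ℤ ℤ) (by
      intro u v huv
      unfold Adj at *
      simp only [Equiv.prodComm_apply, Prod.fst_swap, Prod.snd_swap]
      omega) hc
  refine st3_conn_mono ?_ h1
  rintro _ ⟨w, ⟨hw1, hw2⟩, rfl⟩
  refine ⟨⟨w, hw1, rfl⟩, ?_⟩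
  obtain ⟨h2, h3, h4, h5⟩ := hw2
  exact ⟨h4, h5, h2, h3⟩

theorem st4_swap_LR {x1 x2 y1 y2 : ℤ} {B : Set V} (h : LR y1 y2 x1 x2 B) :
    TB x1 x2 y1 y2 (Equiv.prodComm ℤ ℤ '' B) := by
  obtain ⟨u, v, hu, hv, hc⟩ := h
  refine ⟨u.swap, v.swap, hu, hv, ?_⟩
  have h1 := st3_conn_image (Equiv.prodComm ℤ ℤ) (by
      intro u v huv
      unfold Adj at *
      simp only [Equiv.prodComm_apply, Prod.fst_swap, Prod.snd_swap]
      omega) hc
  refine st3_conn_mono ?_ h1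
  rintro _ ⟨w, ⟨hw1, hw2⟩, rfl⟩
  refine ⟨⟨w, hw1, rfl⟩, ?_⟩
  obtain ⟨h2, h3, h4, h5⟩ := hw2
  exact ⟨h4, h5, h2, h3⟩

theorem st4_shift (he : S_PrEquiv) (x y a b : ℤ) :
    Pr (LR x (x + a) y (y + b)) = Pr (LR 0 a 0 b) := by
  have h := he V V (st4_tr (-x) (-y)) (LR 0 a 0 b)
  rw [← h]
  congr 1
  funext B
  refine propext ⟨fun hB => ?_, fun hB => ?_⟩
  · have h1 := st4_tr_LR (-x) (-y) hB
    rwa [add_neg_cancel, add_neg_cancel, show x + a + -x = a by ring,
      show y + b + -y = b by ring] at h1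
  · have h1 := st4_tr_LR x y hB
    rw [zero_add, zero_add, add_comm a, add_comm b] at h1
    convert h1 using 1
    rw [← Set.image_comp]
    have h2 : (st4_tr x y : V → V) ∘ (st4_tr (-x) (-y) : V → V) = id := by
      funext v
      simp [st4_tr]
    rw [h2, Set.image_id]

theorem st4_TB (he : S_PrEquiv) (x1 x2 y1 y2 : ℤ) :
    Pr (TB x1 x2 y1 y2) = Pr (LR y1 y2 x1 x2) := by
  have h := he V V (Equiv.prodComm ℤ ℤ) (LR y1 y2 x1 x2)
  rw [← h]
  congr 1
  funext B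
  refine propext ⟨fun hB => st4_swap_TB hB, fun hB => ?_⟩
  have h1 := st4_swap_LR hB
  convert h1 using 1
  rw [← Set.image_comp]
  have h2 : (Equiv.prodComm ℤ ℤ : V → V) ∘ (Equiv.prodComm ℤ ℤ : V → V) = id := by
    funext v
    simp
  rw [h2, Set.image_id]

theorem st4_dual (hd : S_dual) (he : S_PrEquiv) (hf : S_PrFlip) (hb : S_PrBasic) (a b : ℤ)
    (ha : 0 ≤ a) (hb' : 0 ≤ b) : Pr (LR 0 b 0 a) = 1 - Pr (LR 0 a 0 b) := by
  have h1 := (hb V (fun B : Set V => TB 0 b 0 a Bᶜ) (fun _ => True)).2.2.2.2.1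
    (st3_loc_compl (st3_loc_TB 0 b 0 a))
  rw [st3_flip hf, st4_TB he] at h1
  rw [← h1]
  congr 1
  funext B
  exact propext (hd B 0 b 0 a hb' ha)

theorem st4 (hd : S_dual) (he : S_PrEquiv) (hf : S_PrFlip) (hb : S_PrBasic) : S_st4 := by
  intro m hm n hn
  have hm' : (0 : ℤ) < 2 * m := by omega
  set t : ℤ := n / (2 * m) with ht
  have ht1 : 1 ≤ t := by
    rw [ht, Int.le_ediv_iff_mul_le hm']
    omega
  have ht2 : t * (2 * m) ≤ n := Int.ediv_mul_le n hm'.ne'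
  set H : ℕ → ℕ → ℝ := fun i k => Pr (LR 0 (n + 2 * t * i) 0 (n + 2 * t * k)) with hH
  have hH0 : ∀ i k, 0 ≤ H i k := fun i k => (hb V (LR 0 (n + 2 * t * i) 0 (n + 2 * t * k)) (fun _ => True)).1
  have hH1 : ∀ i k, H i k ≤ 1 := fun i k => (hb V (LR 0 (n + 2 * t * i) 0 (n + 2 * t * k)) (fun _ => True)).2.1
  have hnn : ∀ i : ℕ, 0 ≤ n + 2 * t * i := by
    intro i
    have : 0 ≤ 2 * t * (i : ℤ) := by positivity
    omega
  by_contra hcon
  push Not at hcon
  have key : ∀ i k : ℕ, i < m → k < m → (2 : ℝ) / m < (H i (k + 1) - H i k) + (H i k - H (i + 1) k) := by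
    intro i k hi hk
    have hb1 : ∀ j : ℕ, j < m → n ≤ n + 2 * t * j ∧ n + 2 * t * j ≤ 2 * n := by
      intro j hj
      have h1 : (j : ℤ) ≤ m := by exact_mod_cast hj.le
      have h2 : 0 ≤ 2 * t * (j : ℤ) := by positivity
      have h3 : 2 * t * (j : ℤ) ≤ 2 * t * m := mul_le_mul_of_nonneg_left h1 (by omega)
      constructor
      · omega
      · have h4 : 2 * t * (m : ℤ) = t * (2 * m) := by ring
        omega
    have h1 := hcon (n + 2 * t * i) (n + 2 * t * k) ⟨ht1, by nlinarith, (hb1 i hi).1, (hb1 i hi).2,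
      (hb1 k hk).1, (hb1 k hk).2⟩
    have e1 : Pr (Ea n t (n + 2 * t * i) (n + 2 * t * k)) = H i (k + 1) := by
      unfold Ea
      rw [show 4 * n + (n + 2 * t * (k : ℤ)) + t = (4 * n - t) + (n + 2 * t * ((k + 1 : ℕ) : ℤ)) by
        push_cast; ring]
      exact st4_shift he _ _ _ _
    have e2 : Pr (Ea n t (n + 2 * t * k) (n + 2 * t * i)) = 1 - H (i + 1) k := by
      unfold Ea
      rw [show 4 * n + (n + 2 * t * (i : ℤ)) + t = (4 * n - t) + (n + 2 * t * ((i + 1 : ℕ) : ℤ)) by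
        push_cast; ring]
      rw [st4_shift he]
      exact st4_dual hd he hf hb _ _ (hnn _) (hnn _)
    have e3 : Pr (EQ n (n + 2 * t * i) (n + 2 * t * k)) = H i k := st4_shift he _ _ _ _
    have e4 : Pr (EQ n (n + 2 * t * k) (n + 2 * t * i)) = 1 - H i k := by
      unfold EQ
      rw [st4_shift he]
      exact st4_dual hd he hf hb _ _ (hnn _) (hnn _)
    rw [e1, e2, e3, e4] at h1
    linarith
  have hmr : (0 : ℝ) < m := by exact_mod_cast hm
  have s1 : ∑ i ∈ Finset.range m, ∑ k ∈ Finset.range m, (2 : ℝ) / m <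
      ∑ i ∈ Finset.range m, ∑ k ∈ Finset.range m,
        ((H i (k + 1) - H i k) + (H i k - H (i + 1) k)) := by
    refine Finset.sum_lt_sum_of_nonempty ⟨0, by simp; omega⟩ fun i hi => ?_
    refine Finset.sum_lt_sum_of_nonempty ⟨0, by simp; omega⟩ fun k hk => ?_
    exact key i k (Finset.mem_range.1 hi) (Finset.mem_range.1 hk)
  have s2 : ∑ i ∈ Finset.range m, ∑ k ∈ Finset.range m, (2 : ℝ) / m = 2 * m := by
    simp only [Finset.sum_const, Finset.card_range, nsmul_eq_mul]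
    field_simp
  have s3 : ∑ i ∈ Finset.range m, ∑ k ∈ Finset.range m, (H i (k + 1) - H i k) ≤ m := by
    calc _ ≤ ∑ i ∈ Finset.range m, (1 : ℝ) := by
          refine Finset.sum_le_sum fun i _ => ?_
          rw [Finset.sum_range_sub]
          linarith [hH1 i m, hH0 i 0]
      _ = m := by simp
  have s4 : ∑ i ∈ Finset.range m, ∑ k ∈ Finset.range m, (H i k - H (i + 1) k) ≤ m := by
    rw [Finset.sum_comm]
    calc _ ≤ ∑ i ∈ Finset.range m, (1 : ℝ) := by
          refine Finset.sum_le_sum fun k _ => ?_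
          rw [Finset.sum_range_sub' (fun i => H i k)]
          linarith [hH1 0 k, hH0 m k]
      _ = m := by simp
  simp only [Finset.sum_add_distrib] at s1
  linarith

end TriX
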