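import Pool.Agent.EX.PTools

/-! Project EX, module ST5a: lower bound without sharing. -/

set_option autoImplicit false

open MeasureTheory

namespace TriX

/-- the domain of the white ring -/
def st5_DRW (n a b : ℤ) : Set V :=
  Box (4 * n) (4 * n + a) (4 * n + b + 1) (10 * n) ∪ Box (4 * n) (4 * n + a) (-(10 * n)) (4 * n - 1) ∪
  Box (-(10 * n)) (10 * n) (8 * n) (10 * n) ∪ Box (-(10 * n)) (10 * n) (-(10 * n)) (-(8 * n)) ∪
  Box (-(10 * n)) (-(8 * n)) (-(10 * n)) (10 * n)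

theorem st5_mem_DRW {n a b : ℤ} {v : V} : v ∈ st5_DRW n a b ↔
    (((((4 * n ≤ v.1 ∧ v.1 ≤ 4 * n + a ∧ 4 * n + b + 1 ≤ v.2 ∧ v.2 ≤ 10 * n) ∨
    (4 * n ≤ v.1 ∧ v.1 ≤ 4 * n + a ∧ -(10 * n) ≤ v.2 ∧ v.2 ≤ 4 * n - 1)) ∨
    (-(10 * n) ≤ v.1 ∧ v.1 ≤ 10 * n ∧ 8 * n ≤ v.2 ∧ v.2 ≤ 10 * n)) ∨
    (-(10 * n) ≤ v.1 ∧ v.1 ≤ 10 * n ∧ -(10 * n) ≤ v.2 ∧ v.2 ≤ -(8 * n))) ∨
    (-(10 * n) ≤ v.1 ∧ v.1 ≤ -(8 * n) ∧ -(10 * n) ≤ v.2 ∧ v.2 ≤ 10 * n)) := Iff.rfl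

theorem st5_mem_Box {x1 x2 y1 y2 : ℤ} {v : V} :
    v ∈ Box x1 x2 y1 y2 ↔ x1 ≤ v.1 ∧ v.1 ≤ x2 ∧ y1 ≤ v.2 ∧ v.2 ≤ y2 := Iff.rfl

theorem st5_mem_Ball {r : ℤ} {v : V} :
    v ∈ Ball 0 r ↔ (-r ≤ v.1 ∧ v.1 ≤ r) ∧ (-r ≤ v.2 ∧ v.2 ≤ r) := by
  unfold Ball
  simp only [Set.mem_ofPred_eq, Prod.fst_zero, Prod.snd_zero, sub_zero, abs_le]

theorem st5_mem_Ann {r R : ℤ} {v : V} :
    v ∈ Ann 0 r R ↔ ((-R ≤ v.1 ∧ v.1 ≤ R) ∧ (-R ≤ v.2 ∧ v.2 ≤ R)) ∧
      ¬ ((-r ≤ v.1 ∧ v.1 ≤ r) ∧ (-r ≤ v.2 ∧ v.2 ≤ r)) := by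
  unfold Ann
  rw [Set.mem_sdiff, st5_mem_Ball, st5_mem_Ball]

theorem st5_DRW_finite (n a b : ℤ) : (st5_DRW n a b).Finite :=
  ((((pt_Box_finite _ _ _ _).union (pt_Box_finite _ _ _ _)).union (pt_Box_finite _ _ _ _)).union
    (pt_Box_finite _ _ _ _)).union (pt_Box_finite _ _ _ _)

theorem st5_dep_RW {n t a b : ℤ} (h : Adm n t a b) : DepOn (RW n t a b) (st5_DRW n a b) := by
  obtain ⟨h1, h2, h3, h4, h5, h6⟩ := h
  intro B B' hB
  have key : ∀ S, S ⊆ st5_DRW n a b → Bᶜ ∩ S = B'ᶜ ∩ S := fun S hS =>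
    pt_inter_sub (pt_compl hB) hS
  unfold RW
  rw [pt_dep_LR (4 * n) (4 * n + a) (4 * n + b + 1) (4 * n + b + t) Bᶜ B'ᶜ (key _ (by
      intro v hv; rw [st5_mem_Box] at hv; rw [st5_mem_DRW]; omega)),
    pt_dep_LR (4 * n) (4 * n + a) (4 * n - t) (4 * n - 1) Bᶜ B'ᶜ (key _ (by
      intro v hv; rw [st5_mem_Box] at hv; rw [st5_mem_DRW]; omega)),
    pt_dep_TB (4 * n) (4 * n + a) (4 * n + b + 1) (10 * n) Bᶜ B'ᶜ (key _ (by
      intro v hv; rw [st5_mem_Box] at hv; rw [st5_mem_DRW]; omega)),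
    pt_dep_TB (4 * n) (4 * n + a) (-(10 * n)) (4 * n - 1) Bᶜ B'ᶜ (key _ (by
      intro v hv; rw [st5_mem_Box] at hv; rw [st5_mem_DRW]; omega)),
    pt_dep_LR (-(10 * n)) (10 * n) (8 * n) (10 * n) Bᶜ B'ᶜ (key _ (by
      intro v hv; rw [st5_mem_Box] at hv; rw [st5_mem_DRW]; omega)),
    pt_dep_LR (-(10 * n)) (10 * n) (-(10 * n)) (-(8 * n)) Bᶜ B'ᶜ (key _ (by
      intro v hv; rw [st5_mem_Box] at hv; rw [st5_mem_DRW]; omega)),
    pt_dep_TB (-(10 * n)) (-(8 * n)) (-(10 * n)) (10 * n) Bᶜ B'ᶜ (key _ (by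
      intro v hv; rw [st5_mem_Box] at hv; rw [st5_mem_DRW]; omega))]

/-- the remaining events of one configuration -/
def st5_G (n t a b r R : ℤ) (B : Set V) : Prop :=
  KB n t a b B ∧ RB n B ∧ Arm 0 r (2 * n) B ∧ Arm 0 (12 * n) R B

theorem st5_dep_G {n t a b r R : ℤ} (h : Adm n t a b) (hr : 0 ≤ r) (hrn : r ≤ n)
    (hR : 25 * n ≤ R) : DepOn (st5_G n t a b r R) (Ball 0 R \ st5_DRW n a b) := by
  obtain ⟨h1, h2, h3, h4, h5, h6⟩ := h
  intro B B' hB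
  have key : ∀ S, S ⊆ Ball 0 R \ st5_DRW n a b → B ∩ S = B' ∩ S := fun S hS =>
    pt_inter_sub hB hS
  have key' : ∀ S, S ⊆ Ball 0 R \ st5_DRW n a b → Bᶜ ∩ S = B'ᶜ ∩ S := fun S hS =>
    pt_inter_sub (pt_compl hB) hS
  have e1 : KB n t a b B = KB n t a b B' := by
    have hTB : ∀ x1 x2 y1 y2 : ℤ, Box x1 x2 y1 y2 ⊆ Ball 0 R \ st5_DRW n a b →
        TB x1 x2 y1 y2 B = TB x1 x2 y1 y2 B' := fun x1 x2 y1 y2 hs =>
      pt_dep_TB x1 x2 y1 y2 B B' (key _ hs)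
    have hLR : ∀ x1 x2 y1 y2 : ℤ, Box x1 x2 y1 y2 ⊆ Ball 0 R \ st5_DRW n a b →
        LR x1 x2 y1 y2 B = LR x1 x2 y1 y2 B' := fun x1 x2 y1 y2 hs =>
      pt_dep_LR x1 x2 y1 y2 B B' (key _ hs)
    unfold KB
    refine congrArg₂ And (hTB _ _ _ _ ?_) (congrArg₂ And (hTB _ _ _ _ ?_)
      (congrArg₂ And (hLR _ _ _ _ ?_) (congrArg₂ And (hTB _ _ _ _ ?_) (hLR _ _ _ _ ?_))))
    all_goals
      intro v hv
      rw [st5_mem_Box] at hv
      rw [Set.mem_sdiff, st5_mem_Ball, st5_mem_DRW]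
      omega
  have e2 : RB n B = RB n B' := by
    unfold RB
    rw [pt_dep_Arm 0 n (2 * n) Bᶜ B'ᶜ (key' _ (by
      intro v hv; rw [st5_mem_Ann] at hv
      rw [Set.mem_sdiff, st5_mem_Ball, st5_mem_DRW]; omega)),
      pt_dep_Arm 0 (12 * n) (24 * n) Bᶜ B'ᶜ (key' _ (by
      intro v hv; rw [st5_mem_Ann] at hv
      rw [Set.mem_sdiff, st5_mem_Ball, st5_mem_DRW]; omega))]
  have e3 : Arm 0 r (2 * n) B = Arm 0 r (2 * n) B' := pt_dep_Arm _ _ _ _ _ (key _ (by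
      intro v hv; rw [st5_mem_Ann] at hv
      rw [Set.mem_sdiff, st5_mem_Ball, st5_mem_DRW]; omega))
  have e4 : Arm 0 (12 * n) R B = Arm 0 (12 * n) R B' := pt_dep_Arm _ _ _ _ _ (key _ (by
      intro v hv; rw [st5_mem_Ann] at hv
      rw [Set.mem_sdiff, st5_mem_Ball, st5_mem_DRW]; omega))
  unfold st5_G
  rw [e1, e2, e3, e4]

theorem st5_dep_Eb {n t a b R : ℤ} (h : Adm n t a b) (hR : 25 * n ≤ R) :
    DepOn (Eb n t a b) (Ball 0 R \ st5_DRW n a b) := by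
  obtain ⟨h1, h2, h3, h4, h5, h6⟩ := h
  refine pt_dep_mono (pt_dep_LR _ _ _ _) ?_
  intro v hv
  rw [st5_mem_Box] at hv
  rw [Set.mem_sdiff, st5_mem_Ball, st5_mem_DRW]
  omega

theorem st5_incr_G (n t a b r R : ℤ) : Incr (st5_G n t a b r R) := by
  rintro B B' h ⟨⟨h1, h2, h3, h4, h5⟩, ⟨h6, h7⟩, h8, h9⟩
  exact ⟨⟨pt_incr_TB _ _ _ _ B B' h h1, pt_incr_TB _ _ _ _ B B' h h2,
    pt_incr_LR _ _ _ _ B B' h h3, pt_incr_TB _ _ _ _ B B' h h4, pt_incr_LR _ _ _ _ B B' h h5⟩,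
    ⟨fun h0 => h6 (pt_incr_Arm _ _ _ _ _ (Set.compl_subset_compl.2 h) h0),
      fun h0 => h7 (pt_incr_Arm _ _ _ _ _ (Set.compl_subset_compl.2 h) h0)⟩,
    pt_incr_Arm _ _ _ _ _ h h8, pt_incr_Arm _ _ _ _ _ h h9⟩

/-- Dependence of a conjunction of events of the two configurations. -/
theorem st5_dep2 {f g : Set V → Prop} {S1 S2 : Set V} (hf : DepOn f S1) (hg : DepOn g S2) :
    Dep2 (fun B C => f B ∧ g (mir C)) S1 (Prod.swap ⁻¹' S2) := by
  intro B B' C C' h1 h2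
  show (f B ∧ g (mir C)) ↔ (f B' ∧ g (mir C'))
  rw [hf B B' h1, show g (mir C) = g (mir C') from pt_dep_mir hg C C' h2]

theorem st5_DRW_T {n t a b : ℤ} {T : Set V} (h : Adm n t a b) (hT : Disjoint T (Ann 0 n (25 * n))) :
    Disjoint (st5_DRW n a b) T ∧ Disjoint (Prod.swap ⁻¹' st5_DRW n a b : Set V) T := by
  obtain ⟨h1, h2, h3, h4, h5, h6⟩ := h
  constructor
  · rw [Set.disjoint_left]
    intro v hv hvT
    refine Set.disjoint_left.1 hT hvT ?_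
    rw [st5_mem_DRW] at hv
    rw [st5_mem_Ann]
    omega
  · rw [Set.disjoint_left]
    intro v hv hvT
    refine Set.disjoint_left.1 hT hvT ?_
    rw [Set.mem_preimage, st5_mem_DRW] at hv
    simp only [Prod.fst_swap, Prod.snd_swap] at hv
    rw [st5_mem_Ann]
    omega

theorem st5_Eb_T {n t a b : ℤ} {T : Set V} (h : Adm n t a b) (hT : Disjoint T (Ann 0 n (25 * n))) :
    Disjoint (Box (4 * n - t) (4 * n + a + t) (4 * n) (4 * n + b)) T ∧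
    Disjoint (Prod.swap ⁻¹' Box (4 * n - t) (4 * n + a + t) (4 * n) (4 * n + b) : Set V) T := by
  obtain ⟨h1, h2, h3, h4, h5, h6⟩ := h
  constructor
  · rw [Set.disjoint_left]
    intro v hv hvT
    refine Set.disjoint_left.1 hT hvT ?_
    rw [st5_mem_Box] at hv
    rw [st5_mem_Ann]
    omega
  · rw [Set.disjoint_left]
    intro v hv hvT
    refine Set.disjoint_left.1 hT hvT ?_
    rw [Set.mem_preimage, st5_mem_Box] at hv
    simp only [Prod.fst_swap, Prod.snd_swap] at hv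
    rw [st5_mem_Ann]
    omega

theorem pt_pos (hb : S_PrBasic) {W : Type} [Countable W] (f : Set W → Prop) : 0 ≤ Pr f :=
  (hb W f f).1

theorem pt_mono (hb : S_PrBasic) {W : Type} [Countable W] {f g : Set W → Prop}
    (h : ∀ B, f B → g B) : Pr f ≤ Pr g := (hb W f g).2.2.1 h

theorem pt_mono2 (hb : S_PrBasic) (T : Set V) {f g : Set V → Set V → Prop}
    (h : ∀ B C, f B C → g B C) : PrT T f ≤ PrT T g :=
  pt_mono hb fun _ h1 => h _ _ h1

theorem t_st5a (h2 : S_st2) (hi : S_PrIndep) (hh : S_PrHarris) (he : S_PrEquiv) (hf : S_PrFlip)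
    (hb : S_PrBasic) : S_st5a := by
  intro n t a b r R T hA hr hrn hR hT
  have hA' : Adm n t b a := ⟨hA.1, hA.2.1, hA.2.2.2.2.1, hA.2.2.2.2.2, hA.2.2.1, hA.2.2.2.1⟩
  have hBfin := pt_Ball_finite 0 R
  have hfin1 : (Ball 0 R \ st5_DRW n a b).Finite := hBfin.subset Set.sdiff_subset
  have hfin2 : (Prod.swap ⁻¹' (Ball 0 R \ st5_DRW n b a) : Set V).Finite :=
    pt_swap_finite (hBfin.subset Set.sdiff_subset)
  -- the chain of inequalities
  have s1 : Pr (RW n t a b) * PrT T (fun B C => RW n t b a (mir C) ∧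
      ((Eb n t a b B ∧ st5_G n t a b r R B) ∧ (Eb n t b a (mir C) ∧ st5_G n t b a r R (mir C)))) =
      PrT T (fun B C => RW n t a b B ∧ (RW n t b a (mir C) ∧
      ((Eb n t a b B ∧ st5_G n t a b r R B) ∧
        (Eb n t b a (mir C) ∧ st5_G n t b a r R (mir C))))) := by
    symm
    refine pt_indep_fst hi T _ _ (st5_DRW n a b) (Ball 0 R \ st5_DRW n a b)
      (Prod.swap ⁻¹' (Ball 0 R ∪ st5_DRW n b a)) (st5_DRW_finite _ _ _) hfin1
      (pt_swap_finite (hBfin.union (st5_DRW_finite _ _ _))) (st5_dep_RW hA) ?_ Set.disjoint_sdiff_right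
      (st5_DRW_T hA hT).1
    intro B B' C C' hB hC
    have hC1 : C ∩ (Prod.swap ⁻¹' st5_DRW n b a) = C' ∩ (Prod.swap ⁻¹' st5_DRW n b a) :=
      pt_inter_sub hC (Set.preimage_mono Set.subset_union_right)
    have hC2 : C ∩ (Prod.swap ⁻¹' (Ball 0 R \ st5_DRW n b a)) =
        C' ∩ (Prod.swap ⁻¹' (Ball 0 R \ st5_DRW n b a)) :=
      pt_inter_sub hC (Set.preimage_mono (Set.sdiff_subset.trans Set.subset_union_left))
    have e1 := pt_dep_mir (st5_dep_RW hA') C C' hC1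
    have e2 := pt_dep_mir (st5_dep_Eb hA' hR) C C' hC2
    have e3 := pt_dep_mir (st5_dep_G hA' hr hrn hR) C C' hC2
    have e4 := st5_dep_Eb hA hR B B' hB
    have e5 := st5_dep_G hA hr hrn hR B B' hB
    simp only at e1 e2 e3
    simp only [e1, e2, e3, e4, e5]
  have s2 : Pr (RW n t b a) * PrT T (fun B C =>
      (Eb n t a b B ∧ st5_G n t a b r R B) ∧ (Eb n t b a (mir C) ∧ st5_G n t b a r R (mir C))) =
      PrT T (fun B C => RW n t b a (mir C) ∧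
      ((Eb n t a b B ∧ st5_G n t a b r R B) ∧
        (Eb n t b a (mir C) ∧ st5_G n t b a r R (mir C)))) := by
    rw [← pt_mir he hf (RW n t b a)]
    symm
    refine pt_indep_snd hi T (fun C => RW n t b a (mir C)) _ (Prod.swap ⁻¹' st5_DRW n b a)
      (Ball 0 R \ st5_DRW n a b) (Prod.swap ⁻¹' (Ball 0 R \ st5_DRW n b a))
      (pt_swap_finite (st5_DRW_finite _ _ _)) hfin1 hfin2 (pt_dep_mir (st5_dep_RW hA')) ?_ ?_
      (st5_DRW_T hA' hT).2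
    · exact st5_dep2 (f := fun B => Eb n t a b B ∧ st5_G n t a b r R B)
        (g := fun B => Eb n t b a B ∧ st5_G n t b a r R B)
        (by
          have := pt_dep_and (st5_dep_Eb hA hR) (st5_dep_G hA hr hrn hR)
          rwa [Set.union_self] at this)
        (by
          have := pt_dep_and (st5_dep_Eb hA' hR) (st5_dep_G hA' hr hrn hR)
          rwa [Set.union_self] at this)
    · rw [Set.disjoint_left]
      intro v hv hv'
      exact hv'.2 hv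
  have s3 : Pr (Eb n t a b) * PrT T (fun B C => st5_G n t a b r R B ∧
        (Eb n t b a (mir C) ∧ st5_G n t b a r R (mir C))) ≤
      PrT T (fun B C => Eb n t a b B ∧ (st5_G n t a b r R B ∧
        (Eb n t b a (mir C) ∧ st5_G n t b a r R (mir C)))) := by
    refine pt_harris_fst hh T _ _ (Box (4 * n - t) (4 * n + a + t) (4 * n) (4 * n + b))
      (Ball 0 R \ st5_DRW n a b) (Prod.swap ⁻¹' (Ball 0 R \ st5_DRW n b a)) (pt_Box_finite _ _ _ _)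
      hfin1 hfin2 (pt_dep_LR _ _ _ _) ?_ (st5_Eb_T hA hT).1 (pt_incr_LR _ _ _ _) ?_
    · exact st5_dep2 (f := fun B => st5_G n t a b r R B)
        (g := fun B => Eb n t b a B ∧ st5_G n t b a r R B) (st5_dep_G hA hr hrn hR)
        (by
          have := pt_dep_and (st5_dep_Eb hA' hR) (st5_dep_G hA' hr hrn hR)
          rwa [Set.union_self] at this)
    · rintro B B' C hB ⟨h3, h4⟩
      exact ⟨st5_incr_G n t a b r R B B' hB h3, h4⟩
  have s4 : Pr (Eb n t b a) * PrT T (fun B C => st5_G n t a b r R B ∧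
        st5_G n t b a r R (mir C)) ≤
      PrT T (fun B C => Eb n t b a (mir C) ∧ (st5_G n t a b r R B ∧
        st5_G n t b a r R (mir C))) := by
    rw [← pt_mir he hf (Eb n t b a)]
    refine pt_harris_snd hh T (fun C => Eb n t b a (mir C)) _
      (Prod.swap ⁻¹' (Box (4 * n - t) (4 * n + b + t) (4 * n) (4 * n + a)))
      (Ball 0 R \ st5_DRW n a b) (Prod.swap ⁻¹' (Ball 0 R \ st5_DRW n b a))
      (pt_swap_finite (pt_Box_finite _ _ _ _))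
      hfin1 hfin2 (pt_dep_mir (pt_dep_LR _ _ _ _)) ?_ (st5_Eb_T hA' hT).2 ?_ ?_
    · exact st5_dep2 (st5_dep_G hA hr hrn hR) (st5_dep_G hA' hr hrn hR)
    · intro C C' hC h3
      exact pt_incr_LR _ _ _ _ _ _ (pt_mir_anti hC) h3
    · rintro B C C' hC ⟨h3, h4⟩
      exact ⟨h3, st5_incr_G n t b a r R _ _ (pt_mir_anti hC) h4⟩
  have e0 : PrT T (fun B C => (KB n t a b B ∧ RB n B ∧ Arm 0 r (2 * n) B ∧ Arm 0 (12 * n) R B) ∧
      KB n t b a (mir C) ∧ RB n (mir C) ∧ Arm 0 r (2 * n) (mir C) ∧ Arm 0 (12 * n) R (mir C)) =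
      PrT T (fun B C => st5_G n t a b r R B ∧ st5_G n t b a r R (mir C)) := rfl
  rw [e0]
  have p1 : 0 ≤ Pr (RW n t a b) := pt_pos hb _
  have p2 : 0 ≤ Pr (RW n t b a) := pt_pos hb _
  have p3 : 0 ≤ Pr (Eb n t a b) := pt_pos hb _
  have p4 : 0 ≤ Pr (Eb n t b a) := pt_pos hb _
  calc Pr (RW n t a b) * Pr (RW n t b a) * (Pr (Eb n t a b) * Pr (Eb n t b a)) *
        PrT T (fun B C => st5_G n t a b r R B ∧ st5_G n t b a r R (mir C))
      = Pr (RW n t a b) * (Pr (RW n t b a) * (Pr (Eb n t a b) * (Pr (Eb n t b a) *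
        PrT T (fun B C => st5_G n t a b r R B ∧ st5_G n t b a r R (mir C))))) := by ring
    _ ≤ Pr (RW n t a b) * (Pr (RW n t b a) * (Pr (Eb n t a b) *
        PrT T (fun B C => Eb n t b a (mir C) ∧ (st5_G n t a b r R B ∧
        st5_G n t b a r R (mir C))))) := by
        refine mul_le_mul_of_nonneg_left (mul_le_mul_of_nonneg_left
          (mul_le_mul_of_nonneg_left s4 p3) p2) p1
    _ ≤ Pr (RW n t a b) * (Pr (RW n t b a) * (Pr (Eb n t a b) *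
        PrT T (fun B C => st5_G n t a b r R B ∧
        (Eb n t b a (mir C) ∧ st5_G n t b a r R (mir C))))) := by
        refine mul_le_mul_of_nonneg_left (mul_le_mul_of_nonneg_left
          (mul_le_mul_of_nonneg_left ?_ p3) p2) p1
        exact pt_mono2 hb T fun B C h3 => ⟨h3.2.1, h3.1, h3.2.2⟩
    _ ≤ Pr (RW n t a b) * (Pr (RW n t b a) * 
        PrT T (fun B C => Eb n t a b B ∧ (st5_G n t a b r R B ∧
        (Eb n t b a (mir C) ∧ st5_G n t b a r R (mir C))))) := by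
        refine mul_le_mul_of_nonneg_left (mul_le_mul_of_nonneg_left s3 p2) p1
    _ ≤ Pr (RW n t a b) * (Pr (RW n t b a) * 
        PrT T (fun B C => (Eb n t a b B ∧ st5_G n t a b r R B) ∧
        (Eb n t b a (mir C) ∧ st5_G n t b a r R (mir C)))) := by
        refine mul_le_mul_of_nonneg_left (mul_le_mul_of_nonneg_left ?_ p2) p1
        exact pt_mono2 hb T fun B C h3 => ⟨⟨h3.1, h3.2.1⟩, h3.2.2⟩
    _ = PrT T (fun B C => RW n t a b B ∧ (RW n t b a (mir C) ∧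
      ((Eb n t a b B ∧ st5_G n t a b r R B) ∧
        (Eb n t b a (mir C) ∧ st5_G n t b a r R (mir C))))) := by
        rw [s2, s1]
    _ ≤ _ := by
        refine pt_mono2 hb T ?_
        rintro B C ⟨h3, h4, ⟨h5, h6, h7, h8, h9⟩, ⟨h10, h11, h12, h13, h14⟩⟩
        exact ⟨h2 n t a b r R B hA hr hrn hR h6 h7 h5 h8 h9,
          h2 n t b a r R (mir C) hA' hr hrn hR h11 h12 h10 h13 h14,
          ⟨h3, h6, h7, h8, h9⟩, h4, h11, h12, h13, h14⟩

end TriX
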