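import Pool.Agent.EX.ST5Kit

/-! EX-ST5b: upper bound for the joint event when the box `Q` is shared. -/

set_option autoImplicit false

open MeasureTheory

namespace TriX

namespace ST5b

open Kit5

theorem adj_swap {u v : V} (h : Adj u v) : Adj u.swap v.swap := by
  unfold Adj at h ⊢
  simp only [Prod.fst_swap, Prod.snd_swap]
  omega

theorem conn_swap {S S' : Set V} (hS : ∀ v ∈ S, v.swap ∈ S') {u v : V} (h : Conn S u v) :
    Conn S' u.swap v.swap := by
  obtain ⟨hu, h⟩ := h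
  refine ⟨hS u hu, ?_⟩
  induction h with
  | refl => exact .refl
  | tail _ hbc ih => exact ih.tail ⟨adj_swap hbc.1, hS _ hbc.2⟩

/-- A left-right crossing by the mirror image is a bottom-top crossing by the complement. -/
theorem LR_mir {x1 x2 y1 y2 : ℤ} {C : Set V} (h : LR x1 x2 y1 y2 (mir C)) :
    TB y1 y2 x1 x2 Cᶜ := by
  obtain ⟨u, v, hu, hv, hc⟩ := h
  refine ⟨u.swap, v.swap, hu, hv, conn_swap ?_ hc⟩
  rintro w ⟨hw, h1, h2, h3, h4⟩
  exact ⟨hw, h3, h4, h1, h2⟩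

/-- On the shared box the crossings `EQ` of the two configurations exclude each other. -/
theorem not_both (hd : S_dual) {n t a b : ℤ} (h : Adm n t a b) {B C : Set V}
    (hBC : B ∩ Box (4 * n) (4 * n + a) (4 * n) (4 * n + b) =
      C ∩ Box (4 * n) (4 * n + a) (4 * n) (4 * n + b)) (h1 : EQ n a b B) :
    ¬ EQ n b a (mir C) := by
  intro h2
  have h3 := LR_mir h2
  have h4 : TB (4 * n) (4 * n + a) (4 * n) (4 * n + b) Bᶜ =
      TB (4 * n) (4 * n + a) (4 * n) (4 * n + b) Cᶜ :=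
    dep_compl (dep_TB (4 * n) (4 * n + a) (4 * n) (4 * n + b)) B C hBC
  rw [← h4] at h3
  obtain ⟨k1, k2, k3, k4, k5, k6⟩ := h
  exact (hd B (4 * n) (4 * n + a) (4 * n) (4 * n + b) (by omega) (by omega)).1 h1 h3

/-- the ring and a bad crossing -/
def FF (n t a b : ℤ) (B : Set V) : Prop := RW n t a b B ∧ (Ea n t a b B ∧ ¬ EQ n a b B)

theorem dep_FF {n t a b : ℤ} (ht : 0 ≤ t) : DepOn (FF n t a b) (RE n t a b) := by
  refine dep_and (dep_RW n t a b) ?_
  have h := dep_and (dep_LR (4 * n) (4 * n + a) (4 * n - t) (4 * n + b + t))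
    (dep_not (dep_LR (4 * n) (4 * n + a) (4 * n) (4 * n + b)))
  refine dep_mono h (Set.union_subset subset_rfl (box_mono le_rfl le_rfl ?_ ?_))
  · omega
  · omega

theorem Pr_FF (hi : S_PrIndep) (hh : S_PrHarris) (hb : S_PrBasic) {n t a b : ℤ}
    (h : Adm n t a b) :
    Pr (FF n t a b) ≤ Pr (RW n t a b) * (Pr (Ea n t a b) - Pr (EQ n a b)) := by
  have lRW : Loc (RW n t a b) := loc_of (RD_finite n t a b) (dep_RW n t a b)
  have dEa : DepOn (Ea n t a b) (Box (4 * n) (4 * n + a) (4 * n - t) (4 * n + b + t)) :=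
    dep_LR _ _ _ _
  have dEQ : DepOn (EQ n a b) (Box (4 * n) (4 * n + a) (4 * n) (4 * n + b)) := dep_LR _ _ _ _
  have lEa : Loc (Ea n t a b) := loc_of (box_finite _ _ _ _) dEa
  have lEQ : Loc (EQ n a b) := loc_of (box_finite _ _ _ _) dEQ
  have lRE : Loc (fun B => RW n t a b B ∧ Ea n t a b B) :=
    loc_of (RE_finite n t a b) (dep_and (dep_RW n t a b) dEa)
  -- the difference
  have e1 : Pr (FF n t a b) =
      Pr (fun B => (RW n t a b B ∧ Ea n t a b B) ∧ ¬ EQ n a b B) := by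
    congr 1
    funext B
    simp only [FF, and_assoc]
  have e2 := (hb V (fun B => RW n t a b B ∧ Ea n t a b B) (EQ n a b)).2.2.2.2.2.1 lRE lEQ
  have e3 : Pr (fun B => (RW n t a b B ∧ Ea n t a b B) ∧ EQ n a b B) =
      Pr (fun B => RW n t a b B ∧ EQ n a b B) := by
    congr 1
    funext B
    refine propext ⟨fun h' => ⟨h'.1.1, h'.2⟩, fun h' => ⟨⟨h'.1, EQ_Ea ?_ h'.2⟩, h'.2⟩⟩
    have := h.1
    omega
  -- independence
  have e4 : Pr (fun B => RW n t a b B ∧ EQ n a b B) = Pr (RW n t a b) * Pr (EQ n a b) := by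
    refine hi V (RW n t a b) (EQ n a b) (RD_finite n t a b).toFinset
      (box_finite (4 * n) (4 * n + a) (4 * n) (4 * n + b)).toFinset ?_ ?_ ?_
    · rw [Set.Finite.coe_toFinset]
      exact dep_RW n t a b
    · rw [Set.Finite.coe_toFinset]
      exact dEQ
    · refine finset_disj fun x hx hx' => ?_
      rw [Set.Finite.coe_toFinset] at hx hx'
      exact Q_RD h hx' hx
  -- Harris
  have e5 : Pr (fun B => RW n t a b B ∧ Ea n t a b B) ≤ Pr (RW n t a b) * Pr (Ea n t a b) := by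
    have h1 := (hh V (Ea n t a b) (RW n t a b) (RD_finite n t a b).toFinset lEa (by
      rw [Set.Finite.coe_toFinset]
      exact dep_RW n t a b)).2.2 (fun B B' _ hBB h' => LR_mono hBB h') (RW_decr n t a b)
    have h2 : (fun B => RW n t a b B ∧ Ea n t a b B) =
        fun B => Ea n t a b B ∧ RW n t a b B := by
      funext B
      exact propext and_comm
    rw [h2]
    linarith
  rw [e1, e2, e3, e4]
  linarith

end ST5b

open Kit5 ST5b in
theorem st5b (h1' : S_st1) (hd : S_dual) (hi : S_PrIndep) (hh : S_PrHarris) (he : S_PrEquiv)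
    (hf : S_PrFlip) (hb : S_PrBasic) (h1 : S_armBasic) : S_st5b := by
  intro n t a b r R T Q hA hr0 hrn hR hT hQ
  have hA' := adm_swap hA
  have ht : 0 ≤ t := by have := hA.1; omega
  have hn : 1 ≤ n := le_trans hA.1 hA.2.1
  have hTan : ∀ v ∈ Ann 0 n (25 * n), v ∉ T := fun v hv hv' =>
    (Set.disjoint_left.1 hT) hv' hv
  have hsw : ∀ v : V, v.swap ∈ Ann 0 n (25 * n) → v ∈ Ann 0 n (25 * n) := by
    intro v hv
    rw [mem_ann] at hv ⊢
    simp only [Prod.fst_swap, Prod.snd_swap] at hv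
    omega
  -- the reflected box
  have hQsw : ∀ v ∈ (Q : Set V), v.swap ∈ Box (4 * n) (4 * n + b) (4 * n) (4 * n + a) := by
    intro v hv
    rw [hQ] at hv
    obtain ⟨k1, k2, k3, k4⟩ := hv
    exact ⟨k3, k4, k1, k2⟩
  set G := Grest n t a b r R with hG
  -- step 1: the union bound
  have step1 : PrT (T ∪ Q) (fun B C => Arm 0 r R B ∧ Arm 0 r R (mir C) ∧
      ((RW n t a b B ∧ KB n t a b B ∧ RB n B ∧ Arm 0 r (2 * n) B ∧ Arm 0 (12 * n) R B) ∧
      RW n t b a (mir C) ∧ KB n t b a (mir C) ∧ RB n (mir C) ∧ Arm 0 r (2 * n) (mir C) ∧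
      Arm 0 (12 * n) R (mir C))) ≤
      PrT (T ∪ Q) (fun B C => FF n t a b B ∧ RW n t b a (mir C) ∧ G B C) +
      PrT (T ∪ Q) (fun B C => RW n t a b B ∧ FF n t b a (mir C) ∧ G B C) := by
    unfold PrT
    refine le_trans ?_ (hb (V × Bool) _ _).2.2.2.1
    refine (hb (V × Bool) _ _).2.2.1 ?_
    intro C0 hC0
    obtain ⟨hB, hC, ⟨g1, g2, g3, g4, g5⟩, g6, g7, g8, g9, g10⟩ := hC0
    have hG0 : G (fstC C0) (sndC (T ∪ Q) C0) := ⟨⟨g2, g3, g4, g5⟩, g7, g8, g9, g10⟩
    have a1 : Arm 0 (3 * n) (10 * n) (fstC C0) :=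
      h1.2.1 0 r R (3 * n) (10 * n) _ (by omega) (by omega) (by omega) hr0 hB
    have a2 : Arm 0 (3 * n) (10 * n) (mir (sndC (T ∪ Q) C0)) :=
      h1.2.1 0 r R (3 * n) (10 * n) _ (by omega) (by omega) (by omega) hr0 hC
    have b1 := h1' n t a b _ hA g1 a1
    have b2 := h1' n t b a _ hA' g6 a2
    have hBC : fstC C0 ∩ Box (4 * n) (4 * n + a) (4 * n) (4 * n + b) =
        sndC (T ∪ Q) C0 ∩ Box (4 * n) (4 * n + a) (4 * n) (4 * n + b) := by
      rw [← hQ]
      ext v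
      simp only [Set.mem_inter_iff]
      refine and_congr_left fun hv => ?_
      have hv' : v ∈ T ∪ (Q : Set V) := Or.inr hv
      show (v, false) ∈ C0 ↔ ((v ∈ T ∪ (Q : Set V) ∧ (v, false) ∈ C0) ∨
        (v ∉ T ∪ (Q : Set V) ∧ (v, true) ∈ C0))
      tauto
    by_cases c1 : EQ n a b (fstC C0)
    · have c2 := not_both hd hA hBC c1
      exact Or.inr ⟨g1, ⟨g6, b2, c2⟩, hG0⟩
    · exact Or.inl ⟨⟨g1, b1, c1⟩, g6, hG0⟩
  -- step 2: independence
  have dG := dep2_Grest h1 n t a b r R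
  have fE2 : (Prod.swap ⁻¹' DD n t b a r R : Set V).Finite :=
    (DD_finite n t b a r R).preimage Prod.swap_injective.injOn
  have step2 : PrT (T ∪ Q) (fun B C => FF n t a b B ∧ RW n t b a (mir C) ∧ G B C) =
      Pr (FF n t a b) * Pr (RW n t b a) * PrT (T ∪ Q) G := by
    rw [← Pr_mir he hf (RW n t b a)]
    refine term hi (T ∪ Q) (FF n t a b) (fun C => RW n t b a (mir C)) G (RE n t a b)
      (Prod.swap ⁻¹' RD n t b a) (DD n t a b r R) (Prod.swap ⁻¹' DD n t b a r R)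
      (RE_finite _ _ _ _) ((RD_finite _ _ _ _).preimage Prod.swap_injective.injOn)
      (DD_finite _ _ _ _ _ _) fE2 (dep_FF ht) (dep_mir (dep_RW n t b a)) dG ?_ ?_ ?_ ?_ ?_
    · intro v hv
      exact RE_DD hA hv
    · intro v hv
      exact RE_DD hA' (Or.inl hv)
    · rintro v hv hv' (h' | h')
      · exact hTan v (RE_ann hA hv) h'
      · exact Q_RD hA' (hQsw v h') hv'
    · rintro v hv hv' (h' | h')
      · exact hTan v (RE_ann hA hv) h'
      · exact Q_DD hA' (hQsw v h') hv'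
    · rintro v hv hv' (h' | h')
      · exact hTan v (hsw v (RE_ann hA' (Or.inl hv))) h'
      · rw [hQ] at h'
        exact Q_DD hA h' hv'
  have step3 : PrT (T ∪ Q) (fun B C => RW n t a b B ∧ FF n t b a (mir C) ∧ G B C) =
      Pr (RW n t a b) * Pr (FF n t b a) * PrT (T ∪ Q) G := by
    rw [← Pr_mir he hf (FF n t b a)]
    refine term hi (T ∪ Q) (RW n t a b) (fun C => FF n t b a (mir C)) G (RD n t a b)
      (Prod.swap ⁻¹' RE n t b a) (DD n t a b r R) (Prod.swap ⁻¹' DD n t b a r R)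
      (RD_finite _ _ _ _) ((RE_finite _ _ _ _).preimage Prod.swap_injective.injOn)
      (DD_finite _ _ _ _ _ _) fE2 (dep_RW n t a b) (dep_mir (dep_FF ht)) dG ?_ ?_ ?_ ?_ ?_
    · intro v hv
      exact RE_DD hA (Or.inl hv)
    · intro v hv
      exact RE_DD hA' hv
    · rintro v hv hv' (h' | h')
      · exact hTan v (RE_ann hA (Or.inl hv)) h'
      · rw [hQ] at h'
        exact Q_RD hA h' hv
    · rintro v hv hv' (h' | h')
      · exact hTan v (RE_ann hA (Or.inl hv)) h'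
      · exact Q_DD hA' (hQsw v h') hv'
    · rintro v hv hv' (h' | h')
      · exact hTan v (hsw v (RE_ann hA' hv)) h'
      · rw [hQ] at h'
        exact Q_DD hA h' hv'
  -- step 4: `G` does not depend on `Q`
  have step4 : PrT (T ∪ Q) G = PrT T G := by
    unfold PrT
    congr 1
    funext C0
    refine dG _ _ _ _ rfl ?_
    ext v
    simp only [Set.mem_inter_iff]
    refine and_congr_left fun hv => ?_
    have hvQ : v ∉ (Q : Set V) := fun h' => Q_DD hA' (hQsw v h') hv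
    have hv' : v ∈ T ∪ (Q : Set V) ↔ v ∈ T := by
      simp only [Set.mem_union]
      tauto
    show ((v ∈ T ∪ (Q : Set V) ∧ (v, false) ∈ C0) ∨ (v ∉ T ∪ (Q : Set V) ∧ (v, true) ∈ C0)) ↔
      ((v ∈ T ∧ (v, false) ∈ C0) ∨ (v ∉ T ∧ (v, true) ∈ C0))
    rw [hv']
  have hGpos : 0 ≤ PrT T G := (hb (V × Bool) _ (fun _ => True)).1
  have hR1 : 0 ≤ Pr (RW n t a b) := (hb V _ (fun _ => True)).1
  have hR2 : 0 ≤ Pr (RW n t b a) := (hb V _ (fun _ => True)).1
  have p1 := Pr_FF hi hh hb hA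
  have p2 := Pr_FF hi hh hb hA'
  rw [step2, step3, step4] at step1
  refine step1.trans ?_
  have q1 : Pr (FF n t a b) * Pr (RW n t b a) ≤
      Pr (RW n t a b) * (Pr (Ea n t a b) - Pr (EQ n a b)) * Pr (RW n t b a) :=
    mul_le_mul_of_nonneg_right p1 hR2
  have q2 : Pr (RW n t a b) * Pr (FF n t b a) ≤
      Pr (RW n t a b) * (Pr (RW n t b a) * (Pr (Ea n t b a) - Pr (EQ n b a))) :=
    mul_le_mul_of_nonneg_left p2 hR1
  have q3 : Pr (FF n t a b) * Pr (RW n t b a) + Pr (RW n t a b) * Pr (FF n t b a) ≤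
      Pr (RW n t a b) * Pr (RW n t b a) * ((Pr (Ea n t a b) - Pr (EQ n a b)) +
        (Pr (Ea n t b a) - Pr (EQ n b a))) := by linarith
  have q4 := mul_le_mul_of_nonneg_right q3 hGpos
  rw [add_mul] at q4
  exact q4

end TriX
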