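import Pool.Agent.EX.ST5a

/-! Project EX, module ST5c: the constant factor for rings and corridors, and one step of the
strict inequality. -/

set_option autoImplicit false

open MeasureTheory

namespace TriX

/-- corridors and rings live in the annulus -/
theorem st5_dep_KR {n t a b : ℤ} (h : Adm n t a b) :
    DepOn (fun B => KB n t a b B ∧ RB n B) (Ann 0 n (25 * n)) := by
  obtain ⟨h1, h2, h3, h4, h5, h6⟩ := h
  intro B B' hB
  have hTB : ∀ x1 x2 y1 y2 : ℤ, Box x1 x2 y1 y2 ⊆ Ann 0 n (25 * n) →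
      TB x1 x2 y1 y2 B = TB x1 x2 y1 y2 B' := fun x1 x2 y1 y2 hs =>
    pt_dep_TB x1 x2 y1 y2 B B' (pt_inter_sub hB hs)
  have hLR : ∀ x1 x2 y1 y2 : ℤ, Box x1 x2 y1 y2 ⊆ Ann 0 n (25 * n) →
      LR x1 x2 y1 y2 B = LR x1 x2 y1 y2 B' := fun x1 x2 y1 y2 hs =>
    pt_dep_LR x1 x2 y1 y2 B B' (pt_inter_sub hB hs)
  have e1 : KB n t a b B = KB n t a b B' := by
    unfold KB
    refine congrArg₂ And (hTB _ _ _ _ ?_) (congrArg₂ And (hTB _ _ _ _ ?_)
      (congrArg₂ And (hLR _ _ _ _ ?_) (congrArg₂ And (hTB _ _ _ _ ?_) (hLR _ _ _ _ ?_))))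
    all_goals
      intro v hv
      rw [st5_mem_Box] at hv
      rw [st5_mem_Ann]
      omega
  have e2 : RB n B = RB n B' := by
    unfold RB
    rw [pt_dep_Arm 0 n (2 * n) Bᶜ B'ᶜ (pt_inter_sub (pt_compl hB) (by
      intro v hv; rw [st5_mem_Ann] at hv ⊢; omega)),
      pt_dep_Arm 0 (12 * n) (24 * n) Bᶜ B'ᶜ (pt_inter_sub (pt_compl hB) (by
      intro v hv; rw [st5_mem_Ann] at hv ⊢; omega))]
  simp only [e1, e2]

theorem st5_incr_KR (n t a b : ℤ) : Incr (fun B => KB n t a b B ∧ RB n B) := by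
  rintro B B' h ⟨⟨h1, h2, h3, h4, h5⟩, ⟨h6, h7⟩⟩
  exact ⟨⟨pt_incr_TB _ _ _ _ B B' h h1, pt_incr_TB _ _ _ _ B B' h h2,
    pt_incr_LR _ _ _ _ B B' h h3, pt_incr_TB _ _ _ _ B B' h h4, pt_incr_LR _ _ _ _ B B' h h5⟩,
    ⟨fun h0 => h6 (pt_incr_Arm _ _ _ _ _ (Set.compl_subset_compl.2 h) h0),
      fun h0 => h7 (pt_incr_Arm _ _ _ _ _ (Set.compl_subset_compl.2 h) h0)⟩⟩

theorem st5_dep_arms (r R : ℤ) :
    Dep2 (fun B C => Arm 0 r R B ∧ Arm 0 r R (mir C)) (Ball 0 R) (Prod.swap ⁻¹' Ball 0 R) :=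
  st5_dep2 (pt_dep_mono (pt_dep_Arm 0 r R) Set.sdiff_subset)
    (pt_dep_mono (pt_dep_Arm 0 r R) Set.sdiff_subset)

theorem t_st5c (hh : S_PrHarris) (he : S_PrEquiv) (hf : S_PrFlip) (hb : S_PrBasic)
    (h1 : S_armBasic) : S_st5c := by
  intro n t a b r R T hA hr hrn hR hT
  have hA' : Adm n t b a := ⟨hA.1, hA.2.1, hA.2.2.2.2.1, hA.2.2.2.2.2, hA.2.2.1, hA.2.2.2.1⟩
  have hn : 1 ≤ n := hA.1.trans hA.2.1
  have hBfin := pt_Ball_finite 0 R
  have hAfin := pt_Ann_finite 0 n (25 * n)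
  have hTA : Disjoint (Ann 0 n (25 * n)) T := hT.symm
  have hTA' : Disjoint (Prod.swap ⁻¹' (Ann 0 n (25 * n)) : Set V) T := by
    rw [Set.disjoint_left]
    intro v hv hvT
    refine Set.disjoint_left.1 hT hvT ?_
    rw [Set.mem_preimage, st5_mem_Ann] at hv
    simp only [Prod.fst_swap, Prod.snd_swap] at hv
    rw [st5_mem_Ann]
    omega
  have hsub : Ann 0 n (25 * n) ⊆ Ball 0 R := by
    intro v hv
    rw [st5_mem_Ann] at hv
    rw [st5_mem_Ball]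
    omega
  have s2 : Pr (fun B => KB n t b a B ∧ RB n B) * F2 r R T ≤
      PrT T (fun B C => (KB n t b a (mir C) ∧ RB n (mir C)) ∧
        (Arm 0 r R B ∧ Arm 0 r R (mir C))) := by
    rw [← pt_mir he hf (fun B => KB n t b a B ∧ RB n B)]
    refine pt_harris_snd hh T (fun C => KB n t b a (mir C) ∧ RB n (mir C)) _
      (Prod.swap ⁻¹' (Ann 0 n (25 * n))) (Ball 0 R) (Prod.swap ⁻¹' Ball 0 R)
      (pt_swap_finite hAfin) hBfin (pt_swap_finite hBfin) (pt_dep_mir (st5_dep_KR hA'))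
      (st5_dep_arms r R) hTA' ?_ ?_
    · intro C C' hC h3
      exact st5_incr_KR n t b a _ _ (pt_mir_anti hC) h3
    · rintro B C C' hC ⟨h3, h4⟩
      exact ⟨h3, pt_incr_Arm _ _ _ _ _ (pt_mir_anti hC) h4⟩
  have s1 : Pr (fun B => KB n t a b B ∧ RB n B) * PrT T (fun B C =>
      (KB n t b a (mir C) ∧ RB n (mir C)) ∧ (Arm 0 r R B ∧ Arm 0 r R (mir C))) ≤
      PrT T (fun B C => (KB n t a b B ∧ RB n B) ∧ ((KB n t b a (mir C) ∧ RB n (mir C)) ∧
        (Arm 0 r R B ∧ Arm 0 r R (mir C)))) := by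
    refine pt_harris_fst hh T (fun B => KB n t a b B ∧ RB n B) _
      (Ann 0 n (25 * n)) (Ball 0 R) (Prod.swap ⁻¹' Ball 0 R)
      hAfin hBfin (pt_swap_finite hBfin) (st5_dep_KR hA) ?_ hTA (st5_incr_KR n t a b) ?_
    · intro B B' C C' hB hC
      have e1 := st5_dep_arms r R B B' C C' hB hC
      have e2 := pt_dep_mir (st5_dep_KR hA') C C'
        (pt_inter_sub hC (Set.preimage_mono hsub))
      simp only at e1 e2
      simp only [e1, e2]
    · rintro B B' C hB ⟨h3, h4, h5⟩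
      exact ⟨h3, pt_incr_Arm _ _ _ _ _ hB h4, h5⟩
  have p1 : 0 ≤ Pr (fun B => KB n t a b B ∧ RB n B) := pt_pos hb _
  calc Pr (fun B => KB n t a b B ∧ RB n B) * Pr (fun B => KB n t b a B ∧ RB n B) * F2 r R T
      = Pr (fun B => KB n t a b B ∧ RB n B) *
        (Pr (fun B => KB n t b a B ∧ RB n B) * F2 r R T) := by ring
    _ ≤ _ := mul_le_mul_of_nonneg_left s2 p1
    _ ≤ _ := s1
    _ ≤ _ := by
        refine pt_mono2 hb T ?_
        rintro B C ⟨⟨h3, h4⟩, ⟨h5, h6⟩, h7, h8⟩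
        exact ⟨⟨h3, h4, h1.2.1 0 r R r (2 * n) B le_rfl (by omega) (by omega) hr h7,
          h1.2.1 0 r R (12 * n) R B (by omega) (by omega) le_rfl hr h7⟩,
          h5, h6, h1.2.1 0 r R r (2 * n) _ le_rfl (by omega) (by omega) hr h8,
          h1.2.1 0 r R (12 * n) R _ (by omega) (by omega) le_rfl hr h8⟩

/-- the whole good event of one configuration does not use the box -/
theorem st5_dep_RG {n t a b r R : ℤ} (h : Adm n t a b) (hR : 25 * n ≤ R) :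
    DepOn (fun B => RW n t a b B ∧ KB n t a b B ∧ RB n B ∧ Arm 0 r (2 * n) B ∧
      Arm 0 (12 * n) R B) (Ball 0 R \ Box (4 * n) (4 * n + a) (4 * n) (4 * n + b)) := by
  have hAd := h
  obtain ⟨h1, h2, h3, h4, h5, h6⟩ := h
  intro B B' hB
  have key : ∀ S, S ⊆ Ball 0 R \ Box (4 * n) (4 * n + a) (4 * n) (4 * n + b) →
      B ∩ S = B' ∩ S := fun S hS => pt_inter_sub hB hS
  have key' : ∀ S, S ⊆ Ball 0 R \ Box (4 * n) (4 * n + a) (4 * n) (4 * n + b) →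
      Bᶜ ∩ S = B'ᶜ ∩ S := fun S hS => pt_inter_sub (pt_compl hB) hS
  have e0 : RW n t a b B = RW n t a b B' := st5_dep_RW hAd B B' (key _ (by
    intro v hv; rw [st5_mem_DRW] at hv
    rw [Set.mem_sdiff, st5_mem_Ball, st5_mem_Box]; omega))
  have hTB : ∀ x1 x2 y1 y2 : ℤ,
      Box x1 x2 y1 y2 ⊆ Ball 0 R \ Box (4 * n) (4 * n + a) (4 * n) (4 * n + b) →
      TB x1 x2 y1 y2 B = TB x1 x2 y1 y2 B' := fun x1 x2 y1 y2 hs =>
    pt_dep_TB x1 x2 y1 y2 B B' (key _ hs)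
  have hLR : ∀ x1 x2 y1 y2 : ℤ,
      Box x1 x2 y1 y2 ⊆ Ball 0 R \ Box (4 * n) (4 * n + a) (4 * n) (4 * n + b) →
      LR x1 x2 y1 y2 B = LR x1 x2 y1 y2 B' := fun x1 x2 y1 y2 hs =>
    pt_dep_LR x1 x2 y1 y2 B B' (key _ hs)
  have e1 : KB n t a b B = KB n t a b B' := by
    unfold KB
    refine congrArg₂ And (hTB _ _ _ _ ?_) (congrArg₂ And (hTB _ _ _ _ ?_)
      (congrArg₂ And (hLR _ _ _ _ ?_) (congrArg₂ And (hTB _ _ _ _ ?_) (hLR _ _ _ _ ?_))))
    all_goals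
      intro v hv
      rw [st5_mem_Box] at hv
      rw [Set.mem_sdiff, st5_mem_Ball, st5_mem_Box]
      omega
  have e2 : RB n B = RB n B' := by
    unfold RB
    rw [pt_dep_Arm 0 n (2 * n) Bᶜ B'ᶜ (key' _ (by
      intro v hv; rw [st5_mem_Ann] at hv
      rw [Set.mem_sdiff, st5_mem_Ball, st5_mem_Box]; omega)),
      pt_dep_Arm 0 (12 * n) (24 * n) Bᶜ B'ᶜ (key' _ (by
      intro v hv; rw [st5_mem_Ann] at hv
      rw [Set.mem_sdiff, st5_mem_Ball, st5_mem_Box]; omega))]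
  have e3 : Arm 0 r (2 * n) B = Arm 0 r (2 * n) B' := pt_dep_Arm _ _ _ _ _ (key _ (by
      intro v hv; rw [st5_mem_Ann] at hv
      rw [Set.mem_sdiff, st5_mem_Ball, st5_mem_Box]; omega))
  have e4 : Arm 0 (12 * n) R B = Arm 0 (12 * n) R B' := pt_dep_Arm _ _ _ _ _ (key _ (by
      intro v hv; rw [st5_mem_Ann] at hv
      rw [Set.mem_sdiff, st5_mem_Ball, st5_mem_Box]; omega))
  simp only [e0, e1, e2, e3, e4]

/-- the good event of both configurations -/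
def st5_E (n t a b r R : ℤ) (B C : Set V) : Prop :=
  (RW n t a b B ∧ KB n t a b B ∧ RB n B ∧ Arm 0 r (2 * n) B ∧ Arm 0 (12 * n) R B) ∧
      RW n t b a (mir C) ∧ KB n t b a (mir C) ∧ RB n (mir C) ∧ Arm 0 r (2 * n) (mir C) ∧
      Arm 0 (12 * n) R (mir C)

theorem st5_dep_E {n t a b r R : ℤ} (h : Adm n t a b) (hR : 25 * n ≤ R) :
    Dep2 (st5_E n t a b r R) (Ball 0 R \ Box (4 * n) (4 * n + a) (4 * n) (4 * n + b))
      (Ball 0 R \ Box (4 * n) (4 * n + a) (4 * n) (4 * n + b)) := by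
  have hA' : Adm n t b a := ⟨h.1, h.2.1, h.2.2.2.2.1, h.2.2.2.2.2, h.2.2.1, h.2.2.2.1⟩
  have key := st5_dep2 (st5_dep_RG (r := r) h hR) (st5_dep_RG (r := r) hA' hR)
  have e : (Prod.swap ⁻¹' (Ball 0 R \ Box (4 * n) (4 * n + b) (4 * n) (4 * n + a)) : Set V) =
      Ball 0 R \ Box (4 * n) (4 * n + a) (4 * n) (4 * n + b) := by
    ext v
    rw [Set.mem_preimage, Set.mem_sdiff, Set.mem_sdiff, st5_mem_Ball, st5_mem_Ball, st5_mem_Box,
      st5_mem_Box]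
    simp only [Prod.fst_swap, Prod.snd_swap]
    omega
  rw [e] at key
  exact key

theorem t_st5 (h3 : S_st3) (h4 : S_st4) (ha : S_st5a) (hb' : S_st5b) (hc : S_st5c)
    (hs : S_PrShare) (hb : S_PrBasic) : S_st5 := by
  obtain ⟨⟨c0, hc0, h30⟩, h31⟩ := h3
  obtain ⟨m, hm⟩ := exists_nat_ge (4 / c0 ^ 2)
  have hmpos : (0 : ℝ) < m := lt_of_lt_of_le (by positivity) hm
  have hm1 : 1 ≤ m := by
    have : 0 < m := by exact_mod_cast hmpos
    exact this
  obtain ⟨c, hcpos, h32⟩ := h31 (4 * m)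
  have h2m : (2 : ℝ) / m ≤ c0 ^ 2 / 2 := by
    rw [div_le_iff₀ (by positivity)] at hm
    rw [div_le_div_iff₀ hmpos (by norm_num)]
    linarith
  have hcc : 0 < c ^ 4 * (c0 ^ 2 / 2) := by positivity
  refine ⟨min (c ^ 4 * (c0 ^ 2 / 2)) (1 / 2), lt_min hcc (by norm_num),
    lt_of_le_of_lt (min_le_right _ _) (by norm_num), 2 * m, by omega, ?_⟩
  intro n r R hn hr hrn hR T hT
  obtain ⟨a, b, hA, h5⟩ := h4 m hm1 n hn
  set t : ℤ := n / (2 * m) with ht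
  have hA' : Adm n t b a := ⟨hA.1, hA.2.1, hA.2.2.2.2.1, hA.2.2.2.2.2, hA.2.2.1, hA.2.2.2.1⟩
  have hnt : n ≤ ((4 * m : ℕ) : ℤ) * t := by
    have h6 : n < (2 * m) * (t + 1) := by
      have := Int.lt_mul_ediv_self_add (x := n) (k := 2 * m) (by omega)
      rw [← ht] at this
      linarith
    have h7 : (1 : ℤ) ≤ t := hA.1
    push_cast
    nlinarith [mul_le_mul_of_nonneg_left h7 (show (0 : ℤ) ≤ 2 * m by omega)]
  obtain ⟨k1, k2⟩ := h32 n t a b hA hnt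
  obtain ⟨k3, k4⟩ := h32 n t b a hA' hnt
  have k5 := h30 n t a b hA
  have k6 := h30 n t b a hA'
  have hBfin := pt_Box_finite (4 * n) (4 * n + a) (4 * n) (4 * n + b)
  refine ⟨hBfin.toFinset, ?_, ?_⟩
  · rw [Set.Finite.coe_toFinset]
    obtain ⟨h11, h12, h13, h14, h15, h16⟩ := hA
    intro v hv
    rw [st5_mem_Box] at hv
    rw [st5_mem_Ann]
    omega
  have hQ : ((hBfin.toFinset : Finset V) : Set V) =
    Box (4 * n) (4 * n + a) (4 * n) (4 * n + b) := Set.Finite.coe_toFinset _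
  have hTQ : Disjoint T (hBfin.toFinset : Set V) := by
    rw [hQ, Set.disjoint_left]
    intro v hvT hv
    refine Set.disjoint_left.1 hT hvT ?_
    obtain ⟨h11, h12, h13, h14, h15, h16⟩ := hA
    rw [st5_mem_Box] at hv
    rw [st5_mem_Ann]
    omega
  -- split by the good event
  have hlocA : ∀ U : Set V, Loc (fun C : Set (V × Bool) => Arm 0 r R (fstC C) ∧
      Arm 0 r R (mir (sndC U C))) := fun U =>
    pt_loc (pt_dom_finite (pt_Ball_finite 0 R) (pt_swap_finite (pt_Ball_finite 0 R)))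
      (pt_dep2 U (st5_dep_arms r R))
  have hlocE : ∀ U : Set V, Loc (fun C : Set (V × Bool) => st5_E n t a b r R (fstC C)
      (sndC U C)) := fun U =>
    pt_loc (pt_dom_finite ((pt_Ball_finite 0 R).subset Set.sdiff_subset)
      ((pt_Ball_finite 0 R).subset Set.sdiff_subset)) (pt_dep2 U (st5_dep_E hA hR))
  have split : ∀ U : Set V, F2 r R U =
      PrT U (fun B C => Arm 0 r R B ∧ Arm 0 r R (mir C) ∧ st5_E n t a b r R B C) +
      PrT U (fun B C => Arm 0 r R B ∧ Arm 0 r R (mir C) ∧ ¬ st5_E n t a b r R B C) := by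
    intro U
    have h7 := (hb (V × Bool) (fun C => Arm 0 r R (fstC C) ∧ Arm 0 r R (mir (sndC U C)))
      (fun C => st5_E n t a b r R (fstC C) (sndC U C))).2.2.2.2.2.1 (hlocA U) (hlocE U)
    simp only [and_assoc] at h7
    unfold F2 PrT
    rw [h7]
    ring
  have share := hs T hBfin.toFinset (Arm 0 r R) (fun C => Arm 0 r R (mir C))
    (fun B C => ¬ st5_E n t a b r R B C) hTQ (pt_loc (pt_Ann_finite 0 r R) (pt_dep_Arm 0 r R))
    (pt_loc (pt_swap_finite (pt_Ann_finite 0 r R)) (pt_dep_mir (pt_dep_Arm 0 r R)))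
    (by
      refine ⟨(pt_Ball_finite 0 R).toFinset, ?_⟩
      intro B B' C C' hB hC
      rw [Set.Finite.coe_toFinset] at hB hC
      rw [st5_dep_E hA hR B B' C C' (pt_inter_sub hB Set.sdiff_subset)
        (pt_inter_sub hC Set.sdiff_subset)])
    (pt_incr_Arm 0 r R)
    (by
      intro C C' hC h7
      exact pt_incr_Arm _ _ _ _ _ (pt_mir_anti hC) h7)
    (by
      intro B B' C C' hB hC
      have aux : ∀ D D' : Set V, D \ (hBfin.toFinset : Set V) = D' \ (hBfin.toFinset : Set V) →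
          D ∩ (Ball 0 R \ Box (4 * n) (4 * n + a) (4 * n) (4 * n + b)) =
          D' ∩ (Ball 0 R \ Box (4 * n) (4 * n + a) (4 * n) (4 * n + b)) := by
        intro D D' hD
        rw [hQ] at hD
        ext v
        have := Set.ext_iff.1 hD v
        simp only [Set.mem_sdiff, Set.mem_inter_iff] at this ⊢
        tauto
      rw [st5_dep_E hA hR B B' C C' (aux _ _ hB) (aux _ _ hC)])
  have i1 := ha n t a b r R T hA hr hrn hR hT
  have i2 := hb' n t a b r R T hBfin.toFinset hA hr hrn hR hT hQ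
  have i3 := hc n t a b r R T hA hr hrn hR hT
  have e1 := split T
  have e2 := split (T ∪ (hBfin.toFinset : Set V))
  have hF2 : 0 ≤ F2 r R T := by
    unfold F2 PrT
    exact pt_pos hb _
  set G := PrT T (fun B C => (KB n t a b B ∧ RB n B ∧ Arm 0 r (2 * n) B ∧ Arm 0 (12 * n) R B) ∧
      KB n t b a (mir C) ∧ RB n (mir C) ∧ Arm 0 r (2 * n) (mir C) ∧ Arm 0 (12 * n) R (mir C))
    with hG
  set P1 := Pr (RW n t a b)
  set P2 := Pr (RW n t b a)
  have hG1 : c ^ 2 * F2 r R T ≤ G := by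
    refine le_trans ?_ i3
    refine mul_le_mul_of_nonneg_right ?_ hF2
    nlinarith
  have hP : c ^ 2 ≤ P1 * P2 := by nlinarith
  have hGnn : 0 ≤ G := pt_pos hb _
  have hE : c0 ^ 2 ≤ Pr (Eb n t a b) * Pr (Eb n t b a) := by nlinarith
  -- the difference
  have d1 : P1 * P2 * G * (c0 ^ 2 / 2) ≤
      PrT T (fun B C => Arm 0 r R B ∧ Arm 0 r R (mir C) ∧ st5_E n t a b r R B C) -
      PrT (T ∪ (hBfin.toFinset : Set V))
        (fun B C => Arm 0 r R B ∧ Arm 0 r R (mir C) ∧ st5_E n t a b r R B C) := by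
    have j1 : P1 * P2 * (Pr (Eb n t a b) * Pr (Eb n t b a)) * G ≤
      PrT T (fun B C => Arm 0 r R B ∧ Arm 0 r R (mir C) ∧ st5_E n t a b r R B C) := i1
    have j2 : PrT (T ∪ (hBfin.toFinset : Set V))
        (fun B C => Arm 0 r R B ∧ Arm 0 r R (mir C) ∧ st5_E n t a b r R B C) ≤
      P1 * P2 * ((Pr (Ea n t a b) - Pr (EQ n a b)) + (Pr (Ea n t b a) - Pr (EQ n b a))) * G := i2
    have j3 : 0 ≤ P1 * P2 * G := mul_nonneg (le_trans (by positivity) hP) hGnn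
    have j4 : P1 * P2 * G * (c0 ^ 2) ≤ P1 * P2 * (Pr (Eb n t a b) * Pr (Eb n t b a)) * G := by
      have := mul_le_mul_of_nonneg_left hE j3
      linarith
    have j5 : P1 * P2 * ((Pr (Ea n t a b) - Pr (EQ n a b)) +
        (Pr (Ea n t b a) - Pr (EQ n b a))) * G ≤ P1 * P2 * G * (c0 ^ 2 / 2) := by
      have := mul_le_mul_of_nonneg_left (h5.trans h2m) j3
      linarith
    linarith
  have d2 : c ^ 4 * (c0 ^ 2 / 2) * F2 r R T ≤ P1 * P2 * G * (c0 ^ 2 / 2) := by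
    have j1 : c ^ 2 * (c ^ 2 * F2 r R T) ≤ P1 * P2 * G :=
      mul_le_mul hP hG1 (by positivity) (le_trans (by positivity) hP)
    have j2 := mul_le_mul_of_nonneg_right j1 (show 0 ≤ c0 ^ 2 / 2 by positivity)
    calc c ^ 4 * (c0 ^ 2 / 2) * F2 r R T = c ^ 2 * (c ^ 2 * F2 r R T) * (c0 ^ 2 / 2) := by ring
      _ ≤ _ := j2
  have d3 : F2 r R (T ∪ (hBfin.toFinset : Set V)) ≤ (1 - c ^ 4 * (c0 ^ 2 / 2)) * F2 r R T := by
    linarith
  refine d3.trans (mul_le_mul_of_nonneg_right ?_ hF2)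
  have := min_le_left (c ^ 4 * (c0 ^ 2 / 2)) (1 / 2)
  linarith

end TriX
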