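import Pool.Agent.EX.Spec2
import Pool.Agent.EX.K1

/-! Project EX: tools for probabilities of two configurations (marginals, independence,
domains of dependence). Everything here is proved without hypotheses except where a statement
`S_...` is taken as an argument. -/

set_option autoImplicit false

open MeasureTheory

namespace TriX

/-! ### Marginals -/

theorem pt_map_inj {W W' : Type} (i : W' → W) (hi : Function.Injective i) :
    (fair W).map (fun ω w => ω (i w)) = fair W' := by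
  classical
  have hmeas : Measurable (fun (ω : W → Bool) (w : W') => ω (i w)) :=
    measurable_pi_lambda _ fun w => measurable_pi_apply _
  unfold fair
  refine Measure.eq_infinitePi (μ := fun _ : W' => (PMF.uniformOfFintype Bool).toMeasure) ?_
  intro s t ht
  rw [Measure.map_apply hmeas (MeasurableSet.pi s.countable_toSet fun w _ => ht w)]
  have h1 : (fun (ω : W → Bool) (w : W') => ω (i w)) ⁻¹' (Set.pi (s : Set W') t) =
      Set.pi ((s.image i : Finset W) : Set W) (fun w => {b | ∀ w' ∈ s, i w' = w → b ∈ t w'}) := by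
    ext ω
    simp only [Set.mem_preimage, Set.mem_pi, Finset.mem_coe, Finset.mem_image, Set.mem_ofPred_eq]
    constructor
    · rintro h w ⟨w', hw', rfl⟩ w'' hw'' he
      rw [← he]
      exact h w'' hw''
    · intro h w hw
      exact h (i w) ⟨w, hw, rfl⟩ w hw rfl
  rw [h1, Measure.infinitePi_pi _ (fun w _ => (Set.toFinite _).measurableSet)]
  rw [Finset.prod_image (fun a _ b _ h => hi h)]
  refine Finset.prod_congr rfl fun w hw => ?_
  congr 1
  ext b
  simp only [Set.mem_ofPred_eq]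
  constructor
  · intro h
    exact h w hw rfl
  · intro h w' _ he
    rw [hi he]
    exact h

/-- The law of the restriction of the random set to a part of the sites. -/
theorem pt_marg {W W' : Type} (i : W' → W) (hi : Function.Injective i) (f : Set W' → Prop)
    (hf : Loc f) : Pr (fun B : Set W => f (i ⁻¹' B)) = Pr f := by
  obtain ⟨S, hS⟩ := hf
  have hmeas : Measurable (fun (ω : W → Bool) (w : W') => ω (i w)) :=
    measurable_pi_lambda _ fun w => measurable_pi_apply _
  unfold Pr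
  rw [← pt_map_inj i hi]
  simp only [Measure.real]
  rw [Measure.map_apply hmeas (measurableSet_loc f S hS)]
  rfl

open Classical in
/-- the copy of a site used by the second configuration -/
noncomputable def pt_snd (T : Set V) (v : V) : V × Bool := (v, if v ∈ T then false else true)

theorem pt_sndC (T : Set V) (C : Set (V × Bool)) : sndC T C = pt_snd T ⁻¹' C := by
  ext v
  unfold sndC pt_snd
  by_cases h : v ∈ T <;> simp [h]

theorem pt_fst (T : Set V) (f : Set V → Prop) (hf : Loc f) : PrT T (fun B _ => f B) = Pr f :=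
  pt_marg (W := V × Bool) (fun v => (v, false)) (fun _ _ h => congrArg Prod.fst h) f hf

theorem pt_snd' (T : Set V) (f : Set V → Prop) (hf : Loc f) : PrT T (fun _ C => f C) = Pr f := by
  have h := pt_marg (W := V × Bool) (pt_snd T) (fun _ _ h => congrArg Prod.fst h) f hf
  unfold PrT
  simp only [pt_sndC]
  exact h

/-! ### Domains -/

theorem pt_dep_mono {W α : Type} {f : Set W → α} {S T : Set W} (h : DepOn f S) (hST : S ⊆ T) :
    DepOn f T := by
  intro B B' hB
  refine h B B' ?_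
  ext x
  have := Set.ext_iff.1 hB x
  simp only [Set.mem_inter_iff] at this ⊢
  constructor
  · rintro ⟨h1, h2⟩
    exact ⟨(this.1 ⟨h1, hST h2⟩).1, h2⟩
  · rintro ⟨h1, h2⟩
    exact ⟨(this.2 ⟨h1, hST h2⟩).1, h2⟩

theorem pt_inter_sub {W : Type} {B B' S T : Set W} (hB : B ∩ T = B' ∩ T) (hST : S ⊆ T) :
    B ∩ S = B' ∩ S := by
  rw [← Set.inter_eq_right.2 hST, ← Set.inter_assoc, ← Set.inter_assoc, hB]

theorem pt_compl {W : Type} {B B' S : Set W} (hB : B ∩ S = B' ∩ S) : Bᶜ ∩ S = B'ᶜ ∩ S := by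
  ext x
  have := Set.ext_iff.1 hB x
  simp only [Set.mem_inter_iff, Set.mem_compl_iff] at this ⊢
  tauto

theorem pt_dep_and {W : Type} {f g : Set W → Prop} {S T : Set W} (hf : DepOn f S)
    (hg : DepOn g T) : DepOn (fun B => f B ∧ g B) (S ∪ T) := by
  intro B B' hB
  simp only [hf B B' (pt_inter_sub hB Set.subset_union_left),
    hg B B' (pt_inter_sub hB Set.subset_union_right)]

theorem pt_dep_not {W : Type} {f : Set W → Prop} {S : Set W} (hf : DepOn f S) :
    DepOn (fun B => ¬ f B) S := by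
  intro B B' hB
  simp only [hf B B' hB]

theorem pt_dep_compl {W : Type} {f : Set W → Prop} {S : Set W} (hf : DepOn f S) :
    DepOn (fun B => f Bᶜ) S := by
  intro B B' hB
  exact hf _ _ (pt_compl hB)

theorem pt_dep_LR (x1 x2 y1 y2 : ℤ) : DepOn (LR x1 x2 y1 y2) (Box x1 x2 y1 y2) := by
  intro B B' hB
  unfold LR
  rw [hB]

theorem pt_dep_TB (x1 x2 y1 y2 : ℤ) : DepOn (TB x1 x2 y1 y2) (Box x1 x2 y1 y2) := by
  intro B B' hB
  unfold TB
  rw [hB]

theorem pt_dep_Arm (c : V) (r R : ℤ) : DepOn (Arm c r R) (Ann c r R) := by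
  intro B B' hB
  unfold Arm
  rw [hB]

theorem pt_dep_mir {f : Set V → Prop} {S : Set V} (hf : DepOn f S) :
    DepOn (fun B => f (mir B)) (Prod.swap ⁻¹' S) := by
  intro B B' hB
  refine hf _ _ ?_
  ext v
  have h1 := Set.ext_iff.1 hB (Prod.swap v)
  simp only [Set.mem_inter_iff, Set.mem_preimage, Prod.swap_swap, mir, Set.mem_ofPred_eq] at h1 ⊢
  tauto

theorem pt_Ball_finite (c : V) (r : ℤ) : (Ball c r).Finite := by
  refine ((Set.finite_Icc (c.1 - r) (c.1 + r)).prod (Set.finite_Icc (c.2 - r) (c.2 + r))).subset ?_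
  rintro v ⟨h1, h2⟩
  rw [abs_le] at h1 h2
  simp only [Set.mem_prod, Set.mem_Icc]
  omega

theorem pt_Ann_finite (c : V) (r R : ℤ) : (Ann c r R).Finite :=
  (pt_Ball_finite c R).subset Set.sdiff_subset

theorem pt_Box_finite (x1 x2 y1 y2 : ℤ) : (Box x1 x2 y1 y2).Finite := by
  refine ((Set.finite_Icc x1 x2).prod (Set.finite_Icc y1 y2)).subset ?_
  rintro v ⟨h1, h2, h3, h4⟩
  exact ⟨⟨h1, h2⟩, ⟨h3, h4⟩⟩

theorem pt_swap_finite {S : Set V} (hS : S.Finite) : (Prod.swap ⁻¹' S : Set V).Finite :=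
  hS.preimage (Prod.swap_injective.injOn)

theorem pt_loc {W : Type} {f : Set W → Prop} {S : Set W} (hS : S.Finite) (hf : DepOn f S) :
    Loc f := by
  refine ⟨hS.toFinset, ?_⟩
  rw [Set.Finite.coe_toFinset]
  exact hf

/-! ### Reflection and flip -/

theorem pt_mir (he : S_PrEquiv) (hf : S_PrFlip) (f : Set V → Prop) :
    Pr (fun B => f (mir B)) = Pr f := by
  have h1 := he V V (Equiv.prodComm ℤ ℤ) (fun B => f Bᶜ)
  have h2 := hf V Set.univ f
  have h3 : (fun B : Set V => f (symmDiff B Set.univ)) = fun B => f Bᶜ := by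
    funext B
    congr 1
    ext v
    simp [Set.mem_symmDiff]
  have h4 : (fun B : Set V => f ((Equiv.prodComm ℤ ℤ) '' B)ᶜ) = fun B => f (mir B) := by
    funext B
    congr 1
    ext v
    simp only [Set.mem_compl_iff, Set.mem_image, mir, Set.mem_ofPred_eq]
    constructor
    · intro h h5
      exact h ⟨Prod.swap v, h5, by simp⟩
    · rintro h ⟨w, hw, rfl⟩
      apply h
      simpa using hw
  rw [← h4, h1, ← h3, h2]

/-! ### Two configurations -/

/-- the sites of the product space which are seen by `S1` in the first and by `S2` in the second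
configuration -/
def pt_dom (T S1 S2 : Set V) : Set (V × Bool) :=
  {w | (w.2 = false ∧ w.1 ∈ S1) ∨ (w.1 ∈ S2 ∧ ((w.2 = false ∧ w.1 ∈ T) ∨ (w.2 = true ∧ w.1 ∉ T)))}

/-- `G` depends on `S1` in the first and on `S2` in the second variable -/
def Dep2 (G : Set V → Set V → Prop) (S1 S2 : Set V) : Prop :=
  ∀ B B' C C' : Set V, B ∩ S1 = B' ∩ S1 → C ∩ S2 = C' ∩ S2 → (G B C ↔ G B' C')

theorem pt_dep2 (T : Set V) {G : Set V → Set V → Prop} {S1 S2 : Set V} (h : Dep2 G S1 S2) :
    DepOn (fun C : Set (V × Bool) => G (fstC C) (sndC T C)) (pt_dom T S1 S2) := by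
  intro C C' hC
  refine propext (h _ _ _ _ ?_ ?_)
  · ext v
    have h1 := Set.ext_iff.1 hC (v, false)
    simp only [Set.mem_inter_iff, pt_dom, Set.mem_ofPred_eq, fstC] at h1 ⊢
    constructor
    · rintro ⟨h2, h3⟩
      exact ⟨(h1.1 ⟨h2, Or.inl ⟨trivial, h3⟩⟩).1, h3⟩
    · rintro ⟨h2, h3⟩
      exact ⟨(h1.2 ⟨h2, Or.inl ⟨trivial, h3⟩⟩).1, h3⟩
  · ext v
    have h1 := Set.ext_iff.1 hC (v, false)
    have h2 := Set.ext_iff.1 hC (v, true)
    simp only [Set.mem_inter_iff, pt_dom, Set.mem_ofPred_eq, sndC, true_and,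
      Bool.false_eq_true, Bool.true_eq_false, false_and, false_or, or_false] at h1 h2 ⊢
    constructor
    · rintro ⟨h3 | h3, h4⟩
      · exact ⟨Or.inl ⟨h3.1, (h1.1 ⟨h3.2, Or.inr ⟨h4, h3.1⟩⟩).1⟩, h4⟩
      · exact ⟨Or.inr ⟨h3.1, (h2.1 ⟨h3.2, ⟨h4, h3.1⟩⟩).1⟩, h4⟩
    · rintro ⟨h3 | h3, h4⟩
      · exact ⟨Or.inl ⟨h3.1, (h1.2 ⟨h3.2, Or.inr ⟨h4, h3.1⟩⟩).1⟩, h4⟩
      · exact ⟨Or.inr ⟨h3.1, (h2.2 ⟨h3.2, ⟨h4, h3.1⟩⟩).1⟩, h4⟩

theorem pt_dom_finite {T S1 S2 : Set V} (h1 : S1.Finite) (h2 : S2.Finite) :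
    (pt_dom T S1 S2).Finite := by
  refine ((h1.union h2).prod (Set.toFinite (Set.univ : Set Bool))).subset ?_
  rintro ⟨v, b⟩ h
  simp only [pt_dom, Set.mem_ofPred_eq] at h
  refine ⟨?_, Set.mem_univ _⟩
  rcases h with h | h
  · exact Or.inl h.2
  · exact Or.inr h.1

theorem pt_indep (hi : S_PrIndep) {W : Type} [Countable W] (f g : Set W → Prop) (S S' : Set W)
    (hS : S.Finite) (hS' : S'.Finite) (hf : DepOn f S) (hg : DepOn g S') (hd : Disjoint S S') :
    Pr (fun B => f B ∧ g B) = Pr f * Pr g := by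
  refine hi W f g hS.toFinset hS'.toFinset ?_ ?_ ?_
  · rw [Set.Finite.coe_toFinset]; exact hf
  · rw [Set.Finite.coe_toFinset]; exact hg
  · rw [Set.Finite.disjoint_toFinset]; exact hd

/-- An event of the first configuration is independent of `G`. -/
theorem pt_indep_fst (hi : S_PrIndep) (T : Set V) (f : Set V → Prop) (G : Set V → Set V → Prop)
    (S0 S1 S2 : Set V) (h0 : S0.Finite) (h1 : S1.Finite) (h2 : S2.Finite) (hf : DepOn f S0)
    (hG : Dep2 G S1 S2) (hd : Disjoint S0 S1) (hT : Disjoint S0 T) :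
    PrT T (fun B C => f B ∧ G B C) = Pr f * PrT T G := by
  rw [← pt_fst T f (pt_loc h0 hf)]
  have hf2 : Dep2 (fun B _ => f B) S0 ∅ := by
    intro B B' C C' h _
    show f B ↔ f B'
    rw [hf B B' h]
  refine pt_indep hi _ _ (pt_dom T S0 ∅) (pt_dom T S1 S2) (pt_dom_finite h0 Set.finite_empty)
    (pt_dom_finite h1 h2) (pt_dep2 T hf2) (pt_dep2 T hG) ?_
  rw [Set.disjoint_left]
  rintro ⟨v, b⟩ h3 h4
  simp only [pt_dom, Set.mem_ofPred_eq, Set.mem_empty_iff_false, false_and, or_false] at h3 h4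
  rcases h4 with h4 | ⟨h4, h5 | h5⟩
  · exact Set.disjoint_left.1 hd h3.2 h4.2
  · exact Set.disjoint_left.1 hT h3.2 h5.2
  · rw [h3.1] at h5
    exact absurd h5.1 (by simp)

/-- An event of the second configuration is independent of `G`. -/
theorem pt_indep_snd (hi : S_PrIndep) (T : Set V) (f : Set V → Prop) (G : Set V → Set V → Prop)
    (S0 S1 S2 : Set V) (h0 : S0.Finite) (h1 : S1.Finite) (h2 : S2.Finite) (hf : DepOn f S0)
    (hG : Dep2 G S1 S2) (hd : Disjoint S0 S2) (hT : Disjoint S0 T) :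
    PrT T (fun B C => f C ∧ G B C) = Pr f * PrT T G := by
  rw [← pt_snd' T f (pt_loc h0 hf)]
  have hf2 : Dep2 (fun _ C => f C) ∅ S0 := by
    intro B B' C C' _ h
    show f C ↔ f C'
    rw [hf C C' h]
  refine pt_indep hi _ _ (pt_dom T ∅ S0) (pt_dom T S1 S2) (pt_dom_finite Set.finite_empty h0)
    (pt_dom_finite h1 h2) (pt_dep2 T hf2) (pt_dep2 T hG) ?_
  rw [Set.disjoint_left]
  rintro ⟨v, b⟩ h3 h4
  simp only [pt_dom, Set.mem_ofPred_eq, Set.mem_empty_iff_false, and_false, false_or] at h3 h4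
  rcases h3 with ⟨h3, h5 | h5⟩
  · exact Set.disjoint_left.1 hT h3 h5.2
  · rcases h4 with h4 | ⟨h4, h6 | h6⟩
    · rw [h5.1] at h4
      exact absurd h4.1 (by simp)
    · rw [h5.1] at h6
      exact absurd h6.1 (by simp)
    · exact Set.disjoint_left.1 hd h3 h4

/-- Harris' inequality in the unshared sites of the first configuration. -/
theorem pt_harris_fst (hh : S_PrHarris) (T : Set V) (f : Set V → Prop) (G : Set V → Set V → Prop)
    (S0 S1 S2 : Set V) (h0 : S0.Finite) (h1 : S1.Finite) (h2 : S2.Finite) (hf : DepOn f S0)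
    (hG : Dep2 G S1 S2) (hT : Disjoint S0 T) (hinc : Incr f)
    (hGinc : ∀ B B' C : Set V, B ⊆ B' → G B C → G B' C) :
    Pr f * PrT T G ≤ PrT T (fun B C => f B ∧ G B C) := by
  rw [← pt_fst T f (pt_loc h0 hf)]
  have hf2 : Dep2 (fun B _ => f B) S0 ∅ := by
    intro B B' C C' h _
    show f B ↔ f B'
    rw [hf B B' h]
  have hfin := pt_dom_finite (T := T) h0 Set.finite_empty
  have key := ((hh (V × Bool) (fun C => G (fstC C) (sndC T C)) (fun C => f (fstC C))
    hfin.toFinset (pt_loc (pt_dom_finite h1 h2) (pt_dep2 T hG))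
    (by rw [Set.Finite.coe_toFinset]; exact pt_dep2 T hf2)).1 ?_ ?_)
  · have h5 : (fun B : Set (V × Bool) => G (fstC B) (sndC T B) ∧ f (fstC B)) =
        fun B => f (fstC B) ∧ G (fstC B) (sndC T B) := by
      funext B
      exact propext and_comm
    rw [h5, mul_comm] at key
    exact key
  · intro B B' hU hBB' hg
    have h6 : sndC T B = sndC T B' := by
      rw [Set.Finite.coe_toFinset] at hU
      ext v
      have h7 := Set.ext_iff.1 hU (v, false)
      have h8 := Set.ext_iff.1 hU (v, true)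
      simp only [Set.mem_sdiff, pt_dom, Set.mem_ofPred_eq, Set.mem_empty_iff_false, false_and,
        or_false, true_and, Bool.true_eq_false, not_false_eq_true, and_true] at h7 h8
      simp only [sndC, Set.mem_ofPred_eq]
      constructor
      · rintro (h9 | h9)
        · exact Or.inl ⟨h9.1, (h7.1 ⟨h9.2, fun h10 => Set.disjoint_left.1 hT h10 h9.1⟩).1⟩
        · exact Or.inr ⟨h9.1, h8.1 h9.2⟩
      · rintro (h9 | h9)
        · exact Or.inl ⟨h9.1, (h7.2 ⟨h9.2, fun h10 => Set.disjoint_left.1 hT h10 h9.1⟩).1⟩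
        · exact Or.inr ⟨h9.1, h8.2 h9.2⟩
    simp only [← h6]
    exact hGinc _ _ _ (fun v hv => hBB' hv) hg
  · intro B B' hBB' h
    exact hinc _ _ (fun v hv => hBB' hv) h

/-- Harris' inequality in the unshared sites of the second configuration. -/
theorem pt_harris_snd (hh : S_PrHarris) (T : Set V) (f : Set V → Prop) (G : Set V → Set V → Prop)
    (S0 S1 S2 : Set V) (h0 : S0.Finite) (h1 : S1.Finite) (h2 : S2.Finite) (hf : DepOn f S0)
    (hG : Dep2 G S1 S2) (hT : Disjoint S0 T) (hdec : Decr f)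
    (hGdec : ∀ B C C' : Set V, C ⊆ C' → G B C' → G B C) :
    Pr f * PrT T G ≤ PrT T (fun B C => f C ∧ G B C) := by
  rw [← pt_snd' T f (pt_loc h0 hf)]
  have hf2 : Dep2 (fun _ C => f C) ∅ S0 := by
    intro B B' C C' _ h
    show f C ↔ f C'
    rw [hf C C' h]
  have hfin := pt_dom_finite (T := T) Set.finite_empty h0
  have key := ((hh (V × Bool) (fun C => G (fstC C) (sndC T C)) (fun C => f (sndC T C))
    hfin.toFinset (pt_loc (pt_dom_finite h1 h2) (pt_dep2 T hG))
    (by rw [Set.Finite.coe_toFinset]; exact pt_dep2 T hf2)).2.1 ?_ ?_)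
  · have h5 : (fun B : Set (V × Bool) => G (fstC B) (sndC T B) ∧ f (sndC T B)) =
        fun B => f (sndC T B) ∧ G (fstC B) (sndC T B) := by
      funext B
      exact propext and_comm
    rw [h5, mul_comm] at key
    exact key
  · intro B B' hU hBB' hg
    have h6 : fstC B = fstC B' := by
      rw [Set.Finite.coe_toFinset] at hU
      ext v
      have h7 := Set.ext_iff.1 hU (v, false)
      simp only [Set.mem_sdiff, pt_dom, Set.mem_ofPred_eq, Set.mem_empty_iff_false, and_false,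
        false_or, true_and, Bool.false_eq_true, false_and, or_false, not_and] at h7
      simp only [fstC, Set.mem_ofPred_eq]
      constructor
      · intro h9
        exact (h7.1 ⟨h9, fun h10 => Set.disjoint_left.1 hT h10⟩).1
      · intro h9
        exact (h7.2 ⟨h9, fun h10 => Set.disjoint_left.1 hT h10⟩).1
    simp only [h6]
    refine hGdec _ _ _ ?_ hg
    rw [pt_sndC, pt_sndC]
    exact fun v hv => hBB' hv
  · intro B B' hBB' h
    refine hdec _ _ ?_ h
    rw [pt_sndC, pt_sndC]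
    exact fun v hv => hBB' hv

/-! ### Monotonicity -/

theorem pt_conn_mono {S S' : Set V} (hS : S ⊆ S') {u v : V} (h : Conn S u v) : Conn S' u v :=
  ⟨hS h.1, Relation.ReflTransGen.mono (fun _ _ h => ⟨h.1, hS h.2⟩) _ _ h.2⟩

theorem pt_incr_LR (x1 x2 y1 y2 : ℤ) : Incr (LR x1 x2 y1 y2) := by
  rintro B B' h ⟨u, v, h1, h2, h3⟩
  exact ⟨u, v, h1, h2, pt_conn_mono (Set.inter_subset_inter_left _ h) h3⟩

theorem pt_incr_TB (x1 x2 y1 y2 : ℤ) : Incr (TB x1 x2 y1 y2) := by
  rintro B B' h ⟨u, v, h1, h2, h3⟩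
  exact ⟨u, v, h1, h2, pt_conn_mono (Set.inter_subset_inter_left _ h) h3⟩

theorem pt_incr_Arm (c : V) (r R : ℤ) : Incr (Arm c r R) := by
  rintro B B' h ⟨u, hu, v, hv, w, h1, h2⟩
  exact ⟨u, hu, v, hv, w, Relation.ReflTransGen.mono
    (fun _ _ h3 => ⟨h3.1, Set.inter_subset_inter_left _ h h3.2⟩) _ _ h1, h2⟩

theorem pt_mir_anti {B B' : Set V} (h : B ⊆ B') : mir B' ⊆ mir B :=
  fun _ hv h' => hv (h h')

end TriX
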