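import Pool.Agent.EX.Spec2
import Pool.Agent.EX.PTools

/-! Project EX (MP_68260e), module ST6: iteration of the strict inequality over scales. -/

set_option autoImplicit false

open MeasureTheory

namespace TriX

theorem st6_F2_empty (hi : S_PrIndep) (he : S_PrEquiv) (hf : S_PrFlip) (r R : ℤ) :
    F2 r R ∅ = al r R ^ 2 := by
  have hdep := pt_dep_Arm 0 r R
  have hdep2 : Dep2 (fun (_ : Set V) (C : Set V) => Arm 0 r R (mir C)) ∅
      (Prod.swap ⁻¹' (Ann 0 r R)) := by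
    intro B B' C C' _ h
    have : Arm 0 r R (mir C) = Arm 0 r R (mir C') := pt_dep_mir hdep C C' h
    show Arm 0 r R (mir C) ↔ Arm 0 r R (mir C')
    rw [this]
  have h1 := pt_indep_fst hi ∅ (Arm 0 r R) (fun _ C => Arm 0 r R (mir C)) (Ann 0 r R) ∅
    (Prod.swap ⁻¹' (Ann 0 r R)) (pt_Ann_finite 0 r R) Set.finite_empty
    (pt_swap_finite (pt_Ann_finite 0 r R)) hdep hdep2 (Set.disjoint_empty _) (Set.disjoint_empty _)
  have h2 := pt_snd' ∅ (fun C => Arm 0 r R (mir C))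
    (pt_loc (pt_swap_finite (pt_Ann_finite 0 r R)) (pt_dep_mir hdep))
  have h3 := pt_mir he hf (Arm 0 r R)
  unfold F2
  rw [h1, h2, h3, sq]
  rfl

theorem st6_mir (h1 : S_armBasic) (r R : ℤ) (X : Set V) :
    Arm 0 r R (mir X) ↔ Arm 0 r R Xᶜ := by
  rw [← h1.2.2.2.2.1 r R Xᶜ]
  have : mir X = Prod.swap '' Xᶜ := by
    ext v
    simp only [mir, Set.mem_ofPred_eq, Set.mem_image, Set.mem_compl_iff]
    constructor
    · intro h
      exact ⟨Prod.swap v, h, Prod.swap_swap v⟩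
    · rintro ⟨w, hw, rfl⟩
      rwa [Prod.swap_swap]
  rw [this]

theorem st6_wb_eq (h1 : S_armBasic) (r R : ℤ) : wb r R = F2 r R (Ann 0 r R) := by
  have hdep := pt_dep_Arm 0 r R
  have hdep2 : DepOn (Arm2 0 r R) (Ann 0 r R) := by
    intro B B' h
    show (Arm 0 r R B ∧ Arm 0 r R Bᶜ) = (Arm 0 r R B' ∧ Arm 0 r R B'ᶜ)
    have h3 : Arm 0 r R Bᶜ = Arm 0 r R B'ᶜ := pt_dep_compl hdep B B' h
    rw [hdep B B' h, h3]
  have h2 := pt_fst (Ann 0 r R) (Arm2 0 r R) (pt_loc (pt_Ann_finite 0 r R) hdep2)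
  unfold wb F2
  rw [← h2]
  unfold PrT
  congr 1
  funext C
  apply propext
  show (Arm 0 r R (fstC C) ∧ Arm 0 r R (fstC C)ᶜ) ↔
    (Arm 0 r R (fstC C) ∧ Arm 0 r R (mir (sndC (Ann 0 r R) C)))
  rw [st6_mir h1]
  have h3 : Arm 0 r R (fstC C)ᶜ = Arm 0 r R (sndC (Ann 0 r R) C)ᶜ := by
    apply hdep
    apply pt_compl
    ext v
    simp only [Set.mem_inter_iff, fstC, sndC, Set.mem_ofPred_eq]
    constructor
    · rintro ⟨h4, h5⟩
      exact ⟨Or.inl ⟨h5, h4⟩, h5⟩
    · rintro ⟨h4 | h4, h5⟩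
      · exact ⟨h4.2, h5⟩
      · exact absurd h5 h4.1
  rw [h3]

theorem st6_share (hs : S_PrShare) (h1 : S_armBasic) (r R : ℤ) (T : Set V)
    (hT : T ⊆ Ann 0 r R) : wb r R ≤ F2 r R T := by
  have hdep := pt_dep_Arm 0 r R
  have hQ : ((Ann 0 r R) \ T).Finite := (pt_Ann_finite 0 r R).subset Set.sdiff_subset
  have h2 := hs T hQ.toFinset (Arm 0 r R) (fun C => Arm 0 r R (mir C)) (fun _ _ => True)
    (by
      rw [Set.Finite.coe_toFinset]
      exact Set.disjoint_sdiff_right)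
    (pt_loc (pt_Ann_finite 0 r R) hdep)
    (pt_loc (pt_swap_finite (pt_Ann_finite 0 r R)) (pt_dep_mir hdep))
    ⟨∅, fun _ _ _ _ _ _ => Iff.rfl⟩ (pt_incr_Arm 0 r R)
    (fun B B' hB h => pt_incr_Arm 0 r R _ _ (pt_mir_anti hB) h)
    (fun _ _ _ _ _ _ => Iff.rfl)
  rw [Set.Finite.coe_toFinset, Set.union_sdiff_cancel hT] at h2
  simp only [and_true] at h2
  rw [st6_wb_eq h1]
  exact h2

theorem st6_iter {c : ℝ} {n0 : ℤ} (hc1 : c < 1) (hn0 : 1 ≤ n0)
    (h5 : ∀ n r R : ℤ, n0 ≤ n → 0 ≤ r → r ≤ n → 25 * n ≤ R → ∀ T : Set V,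
      Disjoint T (Ann 0 n (25 * n)) → ∃ Q : Finset V, (Q : Set V) ⊆ Ann 0 (3 * n) (10 * n) ∧
      F2 r R (T ∪ Q) ≤ (1 - c) * F2 r R T) (r R m : ℤ) (hr : 0 ≤ r) (hm1 : n0 ≤ m)
    (hm2 : r ≤ m) (k : ℕ) :
    25 * (32 ^ k * m) ≤ R → ∃ T : Set V, T ⊆ Ann 0 r R ∧ T ⊆ Ball 0 (10 * (32 ^ k * m)) ∧
      F2 r R T ≤ (1 - c) ^ (k + 1) * F2 r R ∅ := by
  have hsub : ∀ n : ℤ, n0 ≤ n → r ≤ n → 25 * n ≤ R → Ann 0 (3 * n) (10 * n) ⊆ Ann 0 r R := by
    rintro n h1 h2 h3 v ⟨h4, h5⟩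
    refine ⟨⟨h4.1.trans (by linarith), h4.2.trans (by linarith)⟩, fun h6 => h5 ?_⟩
    exact ⟨h6.1.trans (by linarith), h6.2.trans (by linarith)⟩
  have hmpos : 0 < m := by linarith
  induction k with
  | zero =>
    intro hR
    rw [pow_zero, one_mul] at hR
    obtain ⟨Q, hQ1, hQ2⟩ := h5 m r R hm1 hr hm2 hR ∅ (Set.empty_disjoint _)
    rw [Set.empty_union] at hQ2
    refine ⟨Q, hQ1.trans (hsub m hm1 hm2 hR), ?_, ?_⟩
    · rw [pow_zero, one_mul]
      exact hQ1.trans Set.sdiff_subset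
    · simpa using hQ2
  | succ k ih =>
    intro hR
    have h32 : (1 : ℤ) ≤ 32 ^ k := one_le_pow₀ (by norm_num)
    have hpow : (32 : ℤ) ^ (k + 1) * m = 32 * (32 ^ k * m) := by ring
    have hkm : m ≤ 32 ^ k * m := by nlinarith
    set n := (32 : ℤ) ^ (k + 1) * m with hn
    obtain ⟨T, hT1, hT2, hT3⟩ := ih (by linarith)
    have hn1 : m ≤ n := by linarith
    obtain ⟨Q, hQ1, hQ2⟩ := h5 n r R (by linarith) hr (by linarith) hR T (by
      rw [Set.disjoint_left]
      rintro v hv ⟨_, hv2⟩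
      apply hv2
      have h6 := hT2 hv
      exact ⟨h6.1.trans (by linarith), h6.2.trans (by linarith)⟩)
    refine ⟨T ∪ Q, Set.union_subset hT1 (hQ1.trans (hsub n (by linarith) (by linarith) hR)),
      Set.union_subset (hT2.trans ?_) (hQ1.trans Set.sdiff_subset), ?_⟩
    · rintro v hv
      exact ⟨hv.1.trans (by linarith), hv.2.trans (by linarith)⟩
    · refine hQ2.trans ?_
      rw [pow_succ' (1 - c) (k + 1), mul_assoc]
      exact mul_le_mul_of_nonneg_left hT3 (by linarith)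

theorem st6 (h5 : S_st5) (hs : S_PrShare) (hl : S_alLow) (hi : S_PrIndep) (he : S_PrEquiv)
    (hf : S_PrFlip) (hb : S_PrBasic) (h1 : S_armBasic) : S_strict := by
  obtain ⟨c, hc0, hc1, n0, hn0, h5⟩ := h5
  obtain ⟨N, hN⟩ := Int.eq_ofNat_of_zero_le (by linarith : 0 ≤ n0)
  obtain ⟨c1, hc10, hl⟩ := hl (25 * N)
  have hlog32 : 0 < Real.log 32 := Real.log_pos (by norm_num)
  have hlogc : Real.log (1 - c) < 0 := Real.log_neg (by linarith) (by linarith)
  set ε : ℝ := min (1 / 2) (-Real.log (1 - c) / Real.log 32) with hε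
  have hε0 : 0 < ε := lt_min (by norm_num) (div_pos (by linarith) hlog32)
  have hε1 : ε ≤ 1 / 2 := min_le_left _ _
  have hε2 : ε * Real.log 32 ≤ -Real.log (1 - c) := by
    have := min_le_right (1 / 2) (-Real.log (1 - c) / Real.log 32)
    rwa [← hε, le_div_iff₀ hlog32] at this
  have hK1 : (1 : ℝ) ≤ n0 := by exact_mod_cast hn0
  set K : ℝ := 25 * n0 with hK
  have hK0 : 1 ≤ K := by linarith
  refine ⟨ε, K + K / c1 ^ 2, hε0, by linarith, by positivity, ?_⟩
  intro r R hr hrR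
  have hRpos : (0 : ℝ) < R := by exact_mod_cast (lt_of_le_of_lt hr hrR)
  have hrnn : (0 : ℝ) ≤ r := by exact_mod_cast hr
  have hq0 : 0 < ((r : ℝ) + 1) / R := by positivity
  set q := ((r : ℝ) + 1) / R with hq
  set m : ℤ := max n0 r with hm
  have hm1 : n0 ≤ m := le_max_left _ _
  have hm2 : r ≤ m := le_max_right _ _
  have hm3 : m ≤ n0 * (r + 1) := by
    apply max_le
    · nlinarith
    · nlinarith
  have hmpos : 0 < m := by linarith
  have hqε0 : 0 < q ^ ε := Real.rpow_pos_of_pos hq0 ε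
  rcases lt_or_ge R (25 * m) with hcase | hcase
  · -- comparable scales
    have h6 : R ≤ (25 * N : ℕ) * (r + 1) := by
      push_cast
      rw [← hN]
      linarith
    have h7 := hl r R hr hrR.le h6
    have h8 : wb r R ≤ 1 := (hb V (Arm2 0 r R) (Arm2 0 r R)).2.1
    have h9 : 1 / K ≤ q := by
      rw [hq, div_le_div_iff₀ (by linarith) hRpos, one_mul]
      have h10 : (R : ℝ) ≤ 25 * (n0 * (r + 1)) := by
        have : R ≤ 25 * (n0 * (r + 1)) := by linarith
        exact_mod_cast this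
      calc (R : ℝ) ≤ 25 * (n0 * (r + 1)) := h10
        _ = (r + 1) * K := by rw [hK]; ring
    have h11 : 1 / K ≤ q ^ ε := by
      have h12 : (1 / K) ^ (1 : ℝ) ≤ (1 / K) ^ ε :=
        Real.rpow_le_rpow_of_exponent_ge (by positivity) (by rw [div_le_one (by linarith)]; exact hK0)
          (by linarith)
      rw [Real.rpow_one] at h12
      exact h12.trans (Real.rpow_le_rpow (by positivity) h9 hε0.le)
    have h13 : c1 ^ 2 ≤ al r R ^ 2 := pow_le_pow_left₀ hc10.le h7 2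
    calc wb r R ≤ 1 := h8
      _ = K / c1 ^ 2 * (1 / K) * c1 ^ 2 := by field_simp
      _ ≤ (K + K / c1 ^ 2) * q ^ ε * al r R ^ 2 := by
          apply mul_le_mul _ h13 (by positivity) (by positivity)
          apply mul_le_mul _ h11 (by positivity) (by positivity)
          linarith
  · -- many scales
    have hex : ∃ k : ℕ, R < 25 * (32 ^ k * m) := by
      obtain ⟨k, hk⟩ := pow_unbounded_of_one_lt R (by norm_num : (1 : ℤ) < 32)
      refine ⟨k, ?_⟩
      have h32 : (0 : ℤ) < 32 ^ k := by positivity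
      nlinarith [mul_pos h32 hmpos]
    classical
    set k := Nat.find hex with hk
    have hk1 : R < 25 * (32 ^ k * m) := Nat.find_spec hex
    have hkpos : k ≠ 0 := by
      intro h0
      rw [h0, pow_zero, one_mul] at hk1
      linarith
    obtain ⟨j, hj⟩ := Nat.exists_eq_succ_of_ne_zero hkpos
    have hj1 : 25 * (32 ^ j * m) ≤ R := by
      have := Nat.find_min hex (m := j) (by rw [← hk]; omega)
      linarith
    obtain ⟨T, hT1, -, hT3⟩ := st6_iter hc1 hn0 h5 r R m hr hm1 hm2 j hj1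
    rw [st6_F2_empty hi he hf] at hT3
    have h6 := (st6_share hs h1 r R T hT1).trans hT3
    refine h6.trans (mul_le_mul_of_nonneg_right ?_ (by positivity))
    have h7 : 1 - c ≤ (32 : ℝ) ^ (-ε) := by
      rw [Real.rpow_def_of_pos (by norm_num : (0 : ℝ) < 32)]
      rw [← Real.exp_log (by linarith : 0 < 1 - c)]
      apply Real.exp_le_exp.mpr
      linarith
    have h8 : (1 - c) ^ (j + 1) ≤ ((32 : ℝ) ^ (j + 1)) ^ (-ε) := by
      calc (1 - c) ^ (j + 1) ≤ ((32 : ℝ) ^ (-ε)) ^ (j + 1) :=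
            pow_le_pow_left₀ (by linarith) h7 _
        _ = ((32 : ℝ) ^ (j + 1)) ^ (-ε) := by
            rw [← Real.rpow_natCast, ← Real.rpow_natCast, ← Real.rpow_mul (by norm_num),
              ← Real.rpow_mul (by norm_num), mul_comm]
    have h9 : (R : ℝ) < K * (r + 1) * 32 ^ (j + 1) := by
      have h10 : R < 25 * (32 ^ (j + 1) * (n0 * (r + 1))) := by
        rw [hj, Nat.succ_eq_add_one] at hk1
        have h32 : (0 : ℤ) < 32 ^ (j + 1) := by positivity
        refine hk1.trans_le ?_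
        have := mul_le_mul_of_nonneg_left hm3 h32.le
        linarith
      have h11 : (R : ℝ) < 25 * (32 ^ (j + 1) * (n0 * (r + 1))) := by exact_mod_cast h10
      calc (R : ℝ) < 25 * (32 ^ (j + 1) * (n0 * (r + 1))) := h11
        _ = K * (r + 1) * 32 ^ (j + 1) := by rw [hK]; ring
    have h12 : ((32 : ℝ) ^ (j + 1)) ^ (-ε) ≤ (K * q) ^ ε := by
      rw [Real.rpow_neg (by positivity), ← Real.inv_rpow (by positivity)]
      apply Real.rpow_le_rpow (by positivity) _ hε0.le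
      rw [hq, ← mul_div_assoc, inv_eq_one_div, div_le_div_iff₀ (by positivity) hRpos, one_mul]
      exact h9.le
    have h13 : (K * q) ^ ε ≤ K * q ^ ε := by
      rw [Real.mul_rpow (by linarith) hq0.le]
      apply mul_le_mul_of_nonneg_right _ hqε0.le
      calc K ^ ε ≤ K ^ (1 : ℝ) := Real.rpow_le_rpow_of_exponent_le hK0 (by linarith)
        _ = K := Real.rpow_one K
    have h14 : 0 ≤ K / c1 ^ 2 * q ^ ε := by positivity
    calc (1 - c) ^ (j + 1) ≤ K * q ^ ε := h8.trans (h12.trans h13)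
      _ ≤ (K + K / c1 ^ 2) * q ^ ε := by rw [add_mul]; linarith

end TriX
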