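import Pool.Agent.EX.Base

/-! Statements, part 1: topology of the triangular lattice, probability toolkit, RSW. -/

open MeasureTheory

namespace TriX

/-! ### Topology -/

def lin (α β : ℤ) (v : V) : ℤ := α * v.1 + β * v.2

/-- T1. A left-right path and a bottom-top path have a common vertex. -/
def S_cross : Prop := ∀ (α β : ℤ), 0 < α → ∀ (p q : ℕ → V) (n m : ℕ),
  (∀ i < n, Adj (p i) (p (i + 1))) → (∀ j < m, Adj (q j) (q (j + 1))) →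
  (∀ j ≤ m, lin α β (p 0) ≤ lin α β (q j)) → (∀ j ≤ m, lin α β (q j) ≤ lin α β (p n)) →
  (∀ i ≤ n, (q 0).2 ≤ (p i).2) → (∀ i ≤ n, (p i).2 ≤ (q m).2) →
  ∃ i ≤ n, ∃ j ≤ m, p i = q j

/-- T1b. A left-top path and a top-right path have a common vertex. -/
def S_crossTop : Prop := ∀ (α β : ℤ), 0 < α → ∀ (p q : ℕ → V) (n m : ℕ),
  (∀ i < n, Adj (p i) (p (i + 1))) → (∀ j < m, Adj (q j) (q (j + 1))) →
  (∀ j ≤ m, lin α β (p 0) < lin α β (q j)) → (∀ i ≤ n, lin α β (p i) < lin α β (q m)) →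
  (∀ j ≤ m, (q j).2 ≤ (p n).2) → (∀ i ≤ n, (p i).2 ≤ (q 0).2) →
  lin α β (q 0) ≤ lin α β (p n) →
  ∃ i ≤ n, ∃ j ≤ m, p i = q j

/-- T2. The same for connections inside sets. -/
def S_crossConn : Prop := ∀ (α β : ℤ), 0 < α → ∀ (S S' : Set V) (a b c d : V),
  Conn S a b → Conn S' c d → (∀ w ∈ S', lin α β a ≤ lin α β w) →
  (∀ w ∈ S', lin α β w ≤ lin α β b) → (∀ w ∈ S, c.2 ≤ w.2) → (∀ w ∈ S, w.2 ≤ d.2) →
  (S ∩ S').Nonempty

def S_crossTopConn : Prop := ∀ (α β : ℤ), 0 < α → ∀ (S S' : Set V) (a b c d : V),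
  Conn S a b → Conn S' c d → (∀ w ∈ S', lin α β a < lin α β w) →
  (∀ w ∈ S, lin α β w < lin α β d) → (∀ w ∈ S', w.2 ≤ b.2) → (∀ w ∈ S, w.2 ≤ c.2) →
  lin α β c ≤ lin α β b →
  (S ∩ S').Nonempty

/-- T3. Closed mod 2 cochains of the triangular lattice are exact. -/
def S_exact : Prop := ∀ (c : V → V → ZMod 2), (∀ u v, Adj u v → c u v = c v u) →
  (∀ u v w, Adj u v → Adj v w → Adj u w → c u v + c v w + c u w = 0) →
  ∃ g : V → ZMod 2, ∀ u v, Adj u v → c u v = g u + g v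

/-- One step along the cut between `Z` and `A`. -/
def CutStep (Z A : Set V) (e f : V × V) : Prop :=
  (f.1 ∈ Z ∧ f.2 ∈ A ∧ Adj f.1 f.2) ∧
    ((e.1 = f.1 ∧ Adj e.2 f.2) ∨ (e.2 = f.2 ∧ Adj e.1 f.1))

/-- T4. The cut between a connected set `Z` and a component `A` of its complement is connected
through triangles. -/
def S_bdry : Prop := ∀ (Z A : Set V), PreConn Z → PreConn A → Disjoint Z A →
  (∀ u ∈ A, ∀ v, Adj u v → v ∈ Z ∨ v ∈ A) →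
  ∀ z ∈ Z, ∀ a ∈ A, ∀ z' ∈ Z, ∀ a' ∈ A, Adj z a → Adj z' a' →
    Relation.ReflTransGen (CutStep Z A) (z, a) (z', a')

/-- T5. Four-arc duality. -/
def S_fourArc : Prop := ∀ (D O1 O2 O3 O4 C B : Set V),
  (∀ v, v ∈ D ∨ v ∈ O1 ∨ v ∈ O2 ∨ v ∈ O3 ∨ v ∈ O4) →
  Disjoint O1 O2 → Disjoint O1 O3 → Disjoint O1 O4 → Disjoint O1 D →
  Disjoint D O2 → Disjoint D O3 → Disjoint D O4 → Disjoint O2 O3 → Disjoint O2 O4 →
  Disjoint O3 O4 →
  PreConn O1 → PreConn C → O2 ⊆ C → O3 ⊆ C → C ⊆ O2 ∪ O3 ∪ O4 →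
  (∃ u ∈ O1, ∃ v ∈ O2, Adj u v) → (∃ u ∈ O1, ∃ v ∈ O4 ∩ C, Adj u v) → O3.Nonempty →
  (∃ u ∈ O1, ∃ v ∈ O3, Via (D ∩ B) u v) ∨ (∃ u ∈ O2, ∃ v ∈ O4, Via (D \ B) u v)

/-- T6. Duality in boxes. -/
def S_dual : Prop := ∀ (B : Set V) (x1 x2 y1 y2 : ℤ), x1 ≤ x2 → y1 ≤ y2 →
  (LR x1 x2 y1 y2 B ↔ ¬ TB x1 x2 y1 y2 Bᶜ)

/-- T7. If the annulus is not crossed by the complement, then it contains a connected piece of
`B` which meets every path from the inner ball to the outside. -/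
def S_ring : Prop := ∀ (B : Set V) (c : V) (r R : ℤ), 0 ≤ r → r < R → ¬ Arm c r R Bᶜ →
  ∃ C : Set V, C ⊆ B ∩ Ann c r R ∧ PreConn C ∧
    ∀ (S : Set V) (u v : V), u ∈ Ball c r → v ∉ Ball c R → Conn S u v → (C ∩ S).Nonempty

/-! ### Explorations -/

/-- E1. General properties of explored sets. -/
def S_expl : Prop := ∀ (D S0 Kb Kw B : Set V),
  ClosedE D S0 Kb Kw B (Expl D S0 Kb Kw B) ∧
  Expl D S0 Kb Kw B ⊆ D ∪ S0 ∧
  (∀ B' : Set V, B ∩ Expl D S0 Kb Kw B = B' ∩ Expl D S0 Kb Kw B →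
    Expl D S0 Kb Kw B' = Expl D S0 Kb Kw B) ∧
  (∀ S1 : Set V, S0 ⊆ S1 → Expl D S0 Kb Kw B ⊆ Expl D S1 Kb Kw B) ∧
  (∀ v ∈ Expl D S0 Kb Kw B, v ∈ S0 ∨ (v ∈ D ∧
    (∃ z, Adj v z ∧ (z ∈ Kb ∨ z ∈ Expl D S0 Kb Kw B ∩ B)) ∧
    (∃ w, Adj v w ∧ (w ∈ Kw ∨ w ∈ Expl D S0 Kb Kw B \ B)))) ∧
  (∀ v ∈ Expl D S0 Kb Kw B ∩ B, ∃ s, Conn (Expl D S0 Kb Kw B ∩ B) v s ∧
    (s ∈ S0 ∨ ∃ k ∈ Kb, Adj s k)) ∧
  (∀ v ∈ Expl D S0 Kb Kw B \ B, ∃ s, Conn (Expl D S0 Kb Kw B \ B) v s ∧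
    (s ∈ S0 ∨ ∃ k ∈ Kw, Adj s k))

/-! ### Probability toolkit -/

/-- K1. Local events have the obvious finite probability. -/
def S_PrAvg : Prop := ∀ (W : Type) [DecidableEq W] [Countable W] (f : Set W → Prop) (S : Finset W)
  [DecidablePred (fun A : Finset W => f (A : Set W))],
  DepOn f (S : Set W) →
    Pr f = ((S.powerset.filter (fun A : Finset W => f (A : Set W))).card : ℝ) / 2 ^ S.card

/-- K1b. The same for expectations. -/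
def S_ExAvg : Prop := ∀ (W : Type) [DecidableEq W] [Countable W] (f : Set W → ℝ) (S : Finset W),
  DepOn f (S : Set W) → Ex f = (∑ A ∈ S.powerset, f (A : Set W)) / 2 ^ S.card

/-- K2. Elementary properties. -/
def S_PrBasic : Prop := ∀ (W : Type) [Countable W] (f g : Set W → Prop),
  0 ≤ Pr f ∧ Pr f ≤ 1 ∧ ((∀ B, f B → g B) → Pr f ≤ Pr g) ∧
  Pr (fun B => f B ∨ g B) ≤ Pr f + Pr g ∧
  (Loc f → Pr (fun B => ¬ f B) = 1 - Pr f) ∧
  (Loc f → Loc g → Pr (fun B => f B ∧ ¬ g B) = Pr f - Pr (fun B => f B ∧ g B)) ∧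
  (Pr (fun _ : Set W => True) = 1)

/-- K3. Independence. -/
def S_PrIndep : Prop := ∀ (W : Type) [Countable W] (f g : Set W → Prop) (S S' : Finset W),
  DepOn f (S : Set W) → DepOn g (S' : Set W) → Disjoint S S' →
    Pr (fun B => f B ∧ g B) = Pr f * Pr g

/-- K4. Harris inequality; `f` is only required to be increasing in the sites of `U`. -/
def S_PrHarris : Prop := ∀ (W : Type) [Countable W] (f g : Set W → Prop) (U : Finset W),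
  Loc f → DepOn g (U : Set W) →
  (((∀ B B' : Set W, B \ U = B' \ U → B ⊆ B' → f B → f B') → Incr g →
    Pr f * Pr g ≤ Pr (fun B => f B ∧ g B)) ∧
  ((∀ B B' : Set W, B \ U = B' \ U → B ⊆ B' → f B' → f B) → Decr g →
    Pr f * Pr g ≤ Pr (fun B => f B ∧ g B)) ∧
  ((∀ B B' : Set W, B \ U = B' \ U → B ⊆ B' → f B → f B') → Decr g →
    Pr (fun B => f B ∧ g B) ≤ Pr f * Pr g))

/-- K5. Invariance under bijections of the sites. -/
def S_PrEquiv : Prop := ∀ (W W' : Type) [Countable W] [Countable W'] (e : W ≃ W')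
  (f : Set W' → Prop), Pr (fun B : Set W => f (e '' B)) = Pr f

/-- K6. Invariance under flipping the sites of `U`. -/
def S_PrFlip : Prop := ∀ (W : Type) [Countable W] (U : Set W) (f : Set W → Prop),
  Pr (fun B => f (symmDiff B U)) = Pr f

/-- K7. Resampling outside a stopping set. -/
def S_PrStop : Prop := ∀ (W : Type) [Countable W] (S : Finset W) (Q : Set W → Set W)
  (H K : Set W → Prop) (c : ℝ),
  (∀ B, Q B ⊆ (S : Set W)) → (∀ B B', B ∩ Q B = B' ∩ Q B → Q B' = Q B ∧ (H B ↔ H B')) →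
  DepOn H (S : Set W) → DepOn K (S : Set W) →
  (∀ B, H B → c ≤ Pr (fun B' => K ((B ∩ Q B) ∪ (B' \ Q B)))) →
  c * Pr H ≤ Pr (fun B => H B ∧ K B)

/-- K8. Sharing more sites decreases the probability of a black event in the first and a white
event in the second configuration. -/
def S_PrShare : Prop := ∀ (T : Set V) (Q : Finset V) (f g : Set V → Prop)
  (G : Set V → Set V → Prop), Disjoint T (Q : Set V) → Loc f → Loc g →
  (∃ S : Finset V, ∀ B B' C C' : Set V, B ∩ S = B' ∩ S → C ∩ S = C' ∩ S → (G B C ↔ G B' C')) →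
  Incr f → Decr g →
  (∀ B B' C C' : Set V, B \ Q = B' \ Q → C \ Q = C' \ Q → (G B C ↔ G B' C')) →
  PrT (T ∪ Q) (fun B C => f B ∧ g C ∧ G B C) ≤ PrT T (fun B C => f B ∧ g C ∧ G B C)

/-! ### RSW -/

/-- R1. The rhombus is crossed with probability `1/2`. -/
def S_rhombus : Prop := ∀ n : ℕ, Pr (LR 0 n 0 n) = 1 / 2

/-- R2. From the rhombus to the rectangle. -/
def S_rectBase : Prop := ∀ a : ℕ, 1 ≤ a → 1 / 2 ≤ Pr (HC 0 (2 * a) 0 (2 * a))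

/-- The set explored from the lower left corner of the rectangle `0 ≤ hz ≤ 2a`, `0 ≤ y ≤ b`. -/
def Qr (a b : ℤ) (B : Set V) : Set V :=
  Expl (Rect 0 (2 * a) 0 b) ∅ {v | hz v < 0 ∧ v.2 ≤ b} {v | v.2 < 0 ∧ 0 ≤ hz v} B

/-- The reflection in the line `hz = 2a`. -/
def rho (a : ℤ) (v : V) : V := (2 * a - v.1 - v.2, v.2)

/-- The explored set, its reflection, and everything outside of the double rectangle which is
not above it. -/
def Zr (a b : ℤ) (B : Set V) : Set V :=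
  {v | v ∈ Qr a b B ∨ rho a v ∈ Qr a b B ∨ v.2 < 0 ∨ (hz v < 0 ∧ v.2 ≤ b) ∨
    (4 * a < hz v ∧ v.2 ≤ b)}

/-- R3a. Seen from above, the set `Zr` is bounded by black sites only (provided that no white
site of the top row is explored). -/
def S_type : Prop := ∀ (a b : ℤ) (B : Set V), 1 ≤ a → 1 ≤ b →
  (∀ w ∈ Qr a b B, w ∉ B → w.2 < b) →
  ∀ z ∈ Zr a b B, ∀ d : V, Adj z d → (∃ t : V, b < t.2 ∧ Conn (Zr a b B)ᶜ d t) →
    hz z < 0 ∨ 4 * a < hz z ∨ z ∈ Qr a b B ∩ B ∨ rho a z ∈ Qr a b B ∩ B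

/-- R3. Horizontal connection to the upper right half side. -/
def TopRight (a b : ℤ) (B : Set V) : Prop :=
  ∃ s t : V, hz s ≤ 1 ∧ 2 * a - 1 ≤ hz t ∧ t.2 = b ∧ Conn (B ∩ Rect 0 (4 * a) 0 b) s t

def S_halfTop : Prop := ∀ a b : ℕ, 1 ≤ a → 1 ≤ b →
  1 / 2 * Pr (HC 0 (2 * a) 0 b) ≤ Pr (TopRight a b)

/-- R4. Doubling. -/
def S_double : Prop := ∀ a b : ℕ, 1 ≤ a → 1 ≤ b →
  Pr (HC 0 (2 * a) 0 b) ^ 2 / 4 ≤ Pr (HC 0 (4 * a) 0 b)

/-- R5. RSW for boxes. -/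
def S_RSW : Prop := ∀ k : ℕ, ∃ c : ℝ, 0 < c ∧ ∀ n l : ℕ, 1 ≤ n → l ≤ k * n → ∀ x y : ℤ,
  c ≤ Pr (LR x (x + l) y (y + n)) ∧ c ≤ Pr (TB x (x + n) y (y + l))

end TriX
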