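import Pool.Agent.EX.Base
import Pool.Agent.EX.Spec1

/-! T1: a left-right path and a bottom-top path have a common vertex. -/

set_option autoImplicit false

namespace TriX

namespace T1

/-- The half line right of the origin. -/
def F (u : V) : ℤ := if u.2 = 0 ∧ 0 < u.1 then 1 else 0

/-- Signed crossing of the half line right of the origin, between the rows `0` and `1`. -/
def cr (u v : V) : ℤ :=
  if v.2 = u.2 + 1 then F u else if u.2 = v.2 + 1 then - F v else 0

def ph (u : V) : ℤ := if 1 ≤ u.2 ∨ (u.2 = 0 ∧ u.1 < 0) then 1 else 0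

def up (u : V) : ℤ := if 1 ≤ u.2 then 1 else 0

/-- The origin. -/
def Org (u : V) : Prop := u.1 = 0 ∧ u.2 = 0

lemma flat {u v : V} (h2 : u.2 = v.2) (h1 : u.1 ≤ v.1 + 1) (h1' : v.1 ≤ u.1 + 1)
    (hu : ¬ Org u) (hv : ¬ Org v) : F u = F v := by
  unfold Org at hu hv
  unfold F
  split_ifs <;> omega

lemma cr_flat {u v : V} (h : v.2 = u.2) : cr u v = 0 := by
  unfold cr
  rw [if_neg (by omega), if_neg (by omega)]

lemma cr_up {u v : V} (h : v.2 = u.2 + 1) : cr u v = F u := by
  unfold cr
  rw [if_pos h]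

lemma cr_dn {u v : V} (h : u.2 = v.2 + 1) : cr u v = - F v := by
  unfold cr
  rw [if_neg (by omega), if_pos h]

lemma adj_row {u v : V} (h : Adj u v) :
    (v.2 = u.2 ∧ v.1 ≤ u.1 + 1 ∧ u.1 ≤ v.1 + 1) ∨ (v.2 = u.2 + 1 ∧ v.1 ≤ u.1 ∧ u.1 ≤ v.1 + 1) ∨
    (u.2 = v.2 + 1 ∧ u.1 ≤ v.1 ∧ v.1 ≤ u.1 + 1) := by
  unfold Adj at h
  omega

/-- The square relation. -/
lemma square {A B C D : V} (hAB : Adj A B) (hAD : Adj A D) (h1 : B.1 + D.1 = A.1 + C.1)
    (h2 : B.2 + D.2 = A.2 + C.2) (hA : ¬ Org A) (hB : ¬ Org B) (hC : ¬ Org C) (hD : ¬ Org D) :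
    cr A B + cr B C = cr A D + cr D C := by
  rcases adj_row hAB with ⟨a1, a2, a3⟩ | ⟨a1, a2, a3⟩ | ⟨a1, a2, a3⟩ <;>
    rcases adj_row hAD with ⟨b1, b2, b3⟩ | ⟨b1, b2, b3⟩ | ⟨b1, b2, b3⟩
  · rw [cr_flat (u := A) (v := B) (by omega), cr_flat (u := B) (v := C) (by omega),
      cr_flat (u := A) (v := D) (by omega), cr_flat (u := D) (v := C) (by omega)]
  · rw [cr_flat (u := A) (v := B) (by omega), cr_up (u := B) (v := C) (by omega),
      cr_up (u := A) (v := D) (by omega), cr_flat (u := D) (v := C) (by omega),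
      flat (u := A) (v := B) (by omega) (by omega) (by omega) hA hB]
    ring
  · rw [cr_flat (u := A) (v := B) (by omega), cr_dn (u := B) (v := C) (by omega),
      cr_dn (u := A) (v := D) (by omega), cr_flat (u := D) (v := C) (by omega),
      flat (u := C) (v := D) (by omega) (by omega) (by omega) hC hD]
    ring
  · rw [cr_up (u := A) (v := B) (by omega), cr_flat (u := B) (v := C) (by omega),
      cr_flat (u := A) (v := D) (by omega), cr_up (u := D) (v := C) (by omega),
      flat (u := A) (v := D) (by omega) (by omega) (by omega) hA hD]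
    ring
  · rw [cr_up (u := A) (v := B) (by omega), cr_up (u := B) (v := C) (by omega),
      cr_up (u := A) (v := D) (by omega), cr_up (u := D) (v := C) (by omega),
      flat (u := B) (v := D) (by omega) (by omega) (by omega) hB hD]
  · rw [cr_up (u := A) (v := B) (by omega), cr_dn (u := B) (v := C) (by omega),
      cr_dn (u := A) (v := D) (by omega), cr_up (u := D) (v := C) (by omega),
      flat (u := A) (v := C) (by omega) (by omega) (by omega) hA hC]
    ring
  · rw [cr_dn (u := A) (v := B) (by omega), cr_flat (u := B) (v := C) (by omega),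
      cr_flat (u := A) (v := D) (by omega), cr_dn (u := D) (v := C) (by omega),
      flat (u := B) (v := C) (by omega) (by omega) (by omega) hB hC]
    ring
  · rw [cr_dn (u := A) (v := B) (by omega), cr_up (u := B) (v := C) (by omega),
      cr_up (u := A) (v := D) (by omega), cr_dn (u := D) (v := C) (by omega),
      flat (u := A) (v := C) (by omega) (by omega) (by omega) hA hC]
    ring
  · rw [cr_dn (u := A) (v := B) (by omega), cr_dn (u := B) (v := C) (by omega),
      cr_dn (u := A) (v := D) (by omega), cr_dn (u := D) (v := C) (by omega),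
      flat (u := B) (v := D) (by omega) (by omega) (by omega) hB hD]

/-- The sum of the crossings along a path. -/
def cs (p : ℕ → V) (n : ℕ) : ℤ := ∑ i ∈ Finset.range n, cr (p i) (p (i + 1))

lemma adj_sub_right {u v w : V} (h : Adj u v) : Adj (u - w) (v - w) := by
  unfold Adj at h ⊢
  simp only [Prod.fst_sub, Prod.snd_sub]
  omega

lemma adj_sub_left {u v w : V} (h : Adj u v) : Adj (w - u) (w - v) := by
  unfold Adj at h ⊢
  simp only [Prod.fst_sub, Prod.snd_sub]
  omega

lemma grid (p q : ℕ → V) (n m : ℕ) (hp : ∀ i < n, Adj (p i) (p (i + 1)))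
    (hq : ∀ j < m, Adj (q j) (q (j + 1))) (h0 : ∀ i ≤ n, ∀ j ≤ m, ¬ Org (p i - q j)) :
    cs (fun i => p i - q 0) n + cs (fun j => p n - q j) m =
    cs (fun j => p 0 - q j) m + cs (fun i => p i - q m) n := by
  have key : ∀ i ∈ Finset.range n, ∀ j ∈ Finset.range m,
      cr (p i - q j) (p (i + 1) - q j) - cr (p i - q (j + 1)) (p (i + 1) - q (j + 1)) =
      cr (p i - q j) (p i - q (j + 1)) - cr (p (i + 1) - q j) (p (i + 1) - q (j + 1)) := by
    intro i hi j hj
    rw [Finset.mem_range] at hi hj
    have := square (A := p i - q j) (B := p (i + 1) - q j) (C := p (i + 1) - q (j + 1))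
      (D := p i - q (j + 1)) (adj_sub_right (hp i hi)) (adj_sub_left (hq j hj))
      (by simp only [Prod.fst_sub]; ring) (by simp only [Prod.snd_sub]; ring)
      (h0 _ (by omega) _ (by omega)) (h0 _ (by omega) _ (by omega))
      (h0 _ (by omega) _ (by omega)) (h0 _ (by omega) _ (by omega))
    linarith
  have h1 : ∑ i ∈ Finset.range n, ∑ j ∈ Finset.range m,
      (cr (p i - q j) (p (i + 1) - q j) - cr (p i - q (j + 1)) (p (i + 1) - q (j + 1))) =
      cs (fun i => p i - q 0) n - cs (fun i => p i - q m) n := by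
    unfold cs
    rw [← Finset.sum_sub_distrib]
    refine Finset.sum_congr rfl fun i _ => ?_
    exact Finset.sum_range_sub' (fun j => cr (p i - q j) (p (i + 1) - q j)) m
  have h2 : ∑ i ∈ Finset.range n, ∑ j ∈ Finset.range m,
      (cr (p i - q j) (p i - q (j + 1)) - cr (p (i + 1) - q j) (p (i + 1) - q (j + 1))) =
      cs (fun j => p 0 - q j) m - cs (fun j => p n - q j) m := by
    rw [Finset.sum_comm]
    unfold cs
    rw [← Finset.sum_sub_distrib]
    refine Finset.sum_congr rfl fun j _ => ?_
    exact Finset.sum_range_sub' (fun i => cr (p i - q j) (p i - q (j + 1))) n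
  have h3 := Finset.sum_congr (rfl : Finset.range n = Finset.range n) fun i hi =>
    Finset.sum_congr (rfl : Finset.range m = Finset.range m) fun j hj => key i hi j hj
  rw [h1, h2] at h3
  linarith

/-- Side in the upper half plane. -/
lemma cs_up (f : ℕ → V) (n : ℕ) (hf : ∀ i < n, Adj (f i) (f (i + 1)))
    (h0 : ∀ i ≤ n, ¬ Org (f i)) (hy : ∀ i ≤ n, 0 ≤ (f i).2) : cs f n = ph (f n) - ph (f 0) := by
  unfold cs
  rw [← Finset.sum_range_sub (fun i => ph (f i)) n]
  refine Finset.sum_congr rfl fun i hi => ?_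
  rw [Finset.mem_range] at hi
  have h1 := h0 i (by omega)
  have h2 := h0 (i + 1) (by omega)
  have h3 := hy i (by omega)
  have h4 := hy (i + 1) (by omega)
  unfold Org at h1 h2
  rcases adj_row (hf i hi) with ⟨a1, a2, a3⟩ | ⟨a1, a2, a3⟩ | ⟨a1, a2, a3⟩
  · rw [cr_flat a1]
    unfold ph
    split_ifs <;> omega
  · rw [cr_up a1]
    unfold ph F
    split_ifs <;> omega
  · rw [cr_dn a1]
    unfold ph F
    split_ifs <;> omega

/-- Side in the lower half plane. -/
lemma cs_down (f : ℕ → V) (n : ℕ) (hf : ∀ i < n, Adj (f i) (f (i + 1)))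
    (hy : ∀ i ≤ n, (f i).2 ≤ 0) : cs f n = 0 := by
  refine Finset.sum_eq_zero fun i hi => ?_
  rw [Finset.mem_range] at hi
  have h3 := hy i (by omega)
  have h4 := hy (i + 1) (by omega)
  rcases adj_row (hf i hi) with ⟨a1, a2, a3⟩ | ⟨a1, a2, a3⟩ | ⟨a1, a2, a3⟩
  · rw [cr_flat a1]
  · rw [cr_up a1]
    unfold F
    rw [if_neg (by omega)]
  · rw [cr_dn a1]
    unfold F
    rw [if_neg (by omega), neg_zero]

/-- Side in the left half plane. -/
lemma cs_left (f : ℕ → V) (n : ℕ) (hf : ∀ i < n, Adj (f i) (f (i + 1)))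
    (hx : ∀ i ≤ n, (f i).2 = 0 → (f i).1 ≤ 0) : cs f n = 0 := by
  refine Finset.sum_eq_zero fun i hi => ?_
  rw [Finset.mem_range] at hi
  have h3 := hx i (by omega)
  have h4 := hx (i + 1) (by omega)
  rcases adj_row (hf i hi) with ⟨a1, a2, a3⟩ | ⟨a1, a2, a3⟩ | ⟨a1, a2, a3⟩
  · rw [cr_flat a1]
  · rw [cr_up a1]
    unfold F
    rw [if_neg (by omega)]
  · rw [cr_dn a1]
    unfold F
    rw [if_neg (by omega), neg_zero]

/-- Side in the right half plane. -/
lemma cs_right (f : ℕ → V) (n : ℕ) (hf : ∀ i < n, Adj (f i) (f (i + 1)))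
    (hx : ∀ i ≤ n, (f i).2 = 0 → 0 < (f i).1) : cs f n = up (f n) - up (f 0) := by
  unfold cs
  rw [← Finset.sum_range_sub (fun i => up (f i)) n]
  refine Finset.sum_congr rfl fun i hi => ?_
  rw [Finset.mem_range] at hi
  have h3 := hx i (by omega)
  have h4 := hx (i + 1) (by omega)
  rcases adj_row (hf i hi) with ⟨a1, a2, a3⟩ | ⟨a1, a2, a3⟩ | ⟨a1, a2, a3⟩
  · rw [cr_flat a1]
    unfold up
    split_ifs <;> omega
  · rw [cr_up a1]
    unfold up F
    split_ifs <;> omega
  · rw [cr_dn a1]
    unfold up F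
    split_ifs <;> omega

lemma lin_sub (α β : ℤ) (u v : V) : lin α β (u - v) = lin α β u - lin α β v := by
  unfold lin
  simp only [Prod.fst_sub, Prod.snd_sub]
  ring

lemma lin_row {α β : ℤ} {u : V} (h : u.2 = 0) : lin α β u = α * u.1 := by
  unfold lin
  rw [h]
  ring

lemma not_org_ne {u v : V} (h : u ≠ v) : ¬ Org (u - v) := by
  rintro ⟨h1, h2⟩
  simp only [Prod.fst_sub, Prod.snd_sub] at h1 h2
  exact h (Prod.ext (by omega) (by omega))

end T1

open T1

theorem t_cross : S_cross := by
  intro α β hα p q n m hp hq hpl hpr hqb hqt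
  by_contra hcon
  push Not at hcon
  have h0 : ∀ i ≤ n, ∀ j ≤ m, ¬ Org (p i - q j) := fun i hi j hj => not_org_ne (hcon i hi j hj)
  have hg := grid p q n m hp hq h0
  have e1 := cs_up (fun i => p i - q 0) n (fun i hi => adj_sub_right (hp i hi))
    (fun i hi => h0 i hi 0 (Nat.zero_le _)) fun i hi => by
      simp only [Prod.snd_sub]
      have := hqb i hi
      omega
  have e2 := cs_right (fun j => p n - q j) m (fun j hj => adj_sub_left (hq j hj)) fun j hj h => by
    have h1 : 0 ≤ lin α β (p n - q j) := by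
      rw [lin_sub]
      linarith [hpr j hj]
    rw [lin_row h] at h1
    have h2 : 0 ≤ (p n - q j).1 := by
      by_contra h3
      push Not at h3
      nlinarith
    have h3 := h0 n le_rfl j hj
    unfold Org at h3
    rcases h2.lt_or_eq with h4 | h4
    · exact h4
    · exact absurd ⟨h4.symm, h⟩ h3
  have e3 := cs_left (fun j => p 0 - q j) m (fun j hj => adj_sub_left (hq j hj)) fun j hj h => by
    have h1 : lin α β (p 0 - q j) ≤ 0 := by
      rw [lin_sub]
      linarith [hpl j hj]
    rw [lin_row h] at h1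
    by_contra h3
    push Not at h3
    nlinarith
  have e4 := cs_down (fun i => p i - q m) n (fun i hi => adj_sub_right (hp i hi)) fun i hi => by
    simp only [Prod.snd_sub]
    have := hqt i hi
    omega
  rw [e1, e2, e3, e4] at hg
  have k1 : ph (p 0 - q 0) = 1 := by
    have h1 : lin α β (p 0 - q 0) ≤ 0 := by
      rw [lin_sub]
      linarith [hpl 0 (Nat.zero_le _)]
    have h2 : 0 ≤ (p 0 - q 0).2 := by
      simp only [Prod.snd_sub]
      have := hqb 0 (Nat.zero_le _)
      omega
    have h3 := h0 0 (Nat.zero_le _) 0 (Nat.zero_le _)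
    unfold ph
    rw [if_pos]
    by_contra h4
    push Not at h4
    obtain ⟨h4, h5⟩ := h4
    have h6 : (p 0 - q 0).2 = 0 := by omega
    rw [lin_row h6] at h1
    have h7 := h5 h6
    have h8 : (p 0 - q 0).1 ≤ 0 := by
      by_contra h9
      push Not at h9
      nlinarith
    exact h3 ⟨by omega, h6⟩
  have k2 : up (p n - q m) = 0 := by
    unfold up
    rw [if_neg]
    simp only [Prod.snd_sub]
    have := hqt n le_rfl
    omega
  have k3 : ph (p n - q 0) = up (p n - q 0) := by
    have h1 : 0 ≤ lin α β (p n - q 0) := by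
      rw [lin_sub]
      linarith [hpr 0 (Nat.zero_le _)]
    unfold ph up
    by_cases h2 : 1 ≤ (p n - q 0).2
    · rw [if_pos (Or.inl h2), if_pos h2]
    · rw [if_neg h2, if_neg]
      rintro (h3 | ⟨h3, h4⟩)
      · exact h2 h3
      · rw [lin_row h3] at h1
        nlinarith
  simp only [k1, k2, k3] at hg
  omega

theorem t_crossTop : S_crossTop := by
  intro α β hα p q n m hp hq hpl hpr hqb hqt hlin
  by_contra hcon
  push Not at hcon
  have h0 : ∀ i ≤ n, ∀ j ≤ m, ¬ Org (p i - q j) := fun i hi j hj => not_org_ne (hcon i hi j hj)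
  have hg := grid p q n m hp hq h0
  have e1 := cs_down (fun i => p i - q 0) n (fun i hi => adj_sub_right (hp i hi)) fun i hi => by
    simp only [Prod.snd_sub]
    have := hqt i hi
    omega
  have e2 := cs_up (fun j => p n - q j) m (fun j hj => adj_sub_left (hq j hj))
    (fun j hj => h0 n le_rfl j hj) fun j hj => by
      simp only [Prod.snd_sub]
      have := hqb j hj
      omega
  have e3 := cs_left (fun j => p 0 - q j) m (fun j hj => adj_sub_left (hq j hj)) fun j hj h => by
    have h1 : lin α β (p 0 - q j) ≤ 0 := by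
      rw [lin_sub]
      linarith [hpl j hj]
    rw [lin_row h] at h1
    by_contra h3
    push Not at h3
    nlinarith
  have e4 := cs_left (fun i => p i - q m) n (fun i hi => adj_sub_right (hp i hi)) fun i hi h => by
    have h1 : lin α β (p i - q m) ≤ 0 := by
      rw [lin_sub]
      linarith [hpr i hi]
    rw [lin_row h] at h1
    by_contra h3
    push Not at h3
    nlinarith
  rw [e1, e2, e3, e4] at hg
  have k1 : ph (p n - q m) = 1 := by
    have h1 : lin α β (p n - q m) < 0 := by
      rw [lin_sub]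
      linarith [hpr n le_rfl]
    have h2 : 0 ≤ (p n - q m).2 := by
      simp only [Prod.snd_sub]
      have := hqb m le_rfl
      omega
    unfold ph
    rw [if_pos]
    by_contra h4
    push Not at h4
    obtain ⟨h4, h5⟩ := h4
    have h6 : (p n - q m).2 = 0 := by omega
    rw [lin_row h6] at h1
    have h7 := h5 h6
    nlinarith
  have k2 : ph (p n - q 0) = 0 := by
    have h1 : 0 ≤ lin α β (p n - q 0) := by
      rw [lin_sub]
      linarith
    have h2 : (p n - q 0).2 ≤ 0 := by
      simp only [Prod.snd_sub]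
      have := hqt n le_rfl
      omega
    unfold ph
    rw [if_neg]
    rintro (h3 | ⟨h3, h4⟩)
    · omega
    · rw [lin_row h3] at h1
      nlinarith
  simp only [k1, k2] at hg
  omega

end TriX
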