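import Pool.Agent.EX.Spec1

/-! EX-T2: crossings of connections inside sets. -/

namespace TriX

/-- A connection inside `S` is a path `p 0, …, p n` of `S`. -/
theorem conn_path {S : Set V} {a b : V} (h : Conn S a b) :
    ∃ (p : ℕ → V) (n : ℕ), p 0 = a ∧ p n = b ∧ (∀ i < n, Adj (p i) (p (i + 1))) ∧
      ∀ i ≤ n, p i ∈ S := by
  obtain ⟨ha, h⟩ := h
  induction h with
  | refl =>
    refine ⟨fun _ => a, 0, rfl, rfl, ?_, ?_⟩
    · intro i hi
      exact absurd hi (Nat.not_lt_zero i)
    · intro i _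
      exact ha
  | @tail b c _ hbc ih =>
    obtain ⟨p, n, h0, hn, hadj, hmem⟩ := ih
    refine ⟨fun i => if i ≤ n then p i else c, n + 1, ?_, ?_, ?_, ?_⟩
    · simp [h0]
    · simp
    · intro i hi
      rcases Nat.lt_or_ge i n with h | h
      · have h1 : i ≤ n := h.le
        have h2 : i + 1 ≤ n := h
        simp only [h1, h2, if_true]
        exact hadj i h
      · have h3 : i = n := le_antisymm (Nat.lt_succ_iff.mp hi) h
        subst h3
        have h4 : ¬ (i + 1 ≤ i) := by omega
        simp only [le_refl, if_true, h4, if_false, hn]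
        exact hbc.1
    · intro i hi
      rcases Nat.lt_or_ge n i with h | h
      · have h4 : ¬ (i ≤ n) := by omega
        simp only [h4, if_false]
        exact hbc.2
      · simp only [h, if_true]
        exact hmem i h

theorem t_crossConn (h : S_cross) : S_crossConn := by
  intro α β hα S S' a b c d hab hcd h1 h2 h3 h4
  obtain ⟨p, n, hp0, hpn, hpa, hpm⟩ := conn_path hab
  obtain ⟨q, m, hq0, hqm, hqa, hqmem⟩ := conn_path hcd
  obtain ⟨i, hi, j, hj, hij⟩ := h α β hα p q n m hpa hqa
    (fun j hj => by rw [hp0]; exact h1 _ (hqmem j hj))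
    (fun j hj => by rw [hpn]; exact h2 _ (hqmem j hj))
    (fun i hi => by rw [hq0]; exact h3 _ (hpm i hi))
    (fun i hi => by rw [hqm]; exact h4 _ (hpm i hi))
  exact ⟨p i, hpm i hi, by rw [hij]; exact hqmem j hj⟩

theorem t_crossTopConn (h : S_crossTop) : S_crossTopConn := by
  intro α β hα S S' a b c d hab hcd h1 h2 h3 h4 h5
  obtain ⟨p, n, hp0, hpn, hpa, hpm⟩ := conn_path hab
  obtain ⟨q, m, hq0, hqm, hqa, hqmem⟩ := conn_path hcd
  obtain ⟨i, hi, j, hj, hij⟩ := h α β hα p q n m hpa hqa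
    (fun j hj => by rw [hp0]; exact h1 _ (hqmem j hj))
    (fun i hi => by rw [hqm]; exact h2 _ (hpm i hi))
    (fun j hj => by rw [hpn]; exact h3 _ (hqmem j hj))
    (fun i hi => by rw [hq0]; exact h4 _ (hpm i hi))
    (by rw [hq0, hpn]; exact h5)
  exact ⟨p i, hpm i hi, by rw [hij]; exact hqmem j hj⟩

end TriX
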