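import Pool.Agent.EX.Spec1

/-! Closed mod 2 cochains on the triangular lattice are exact. -/

set_option autoImplicit false

namespace TriX

theorem exists_pot (d : ℤ → ZMod 2) : ∃ h : ℤ → ZMod 2, ∀ x, h (x + 1) = h x + d x := by
  refine ⟨fun x => ∑ i ∈ Finset.Ico 0 x, d i + ∑ i ∈ Finset.Ico x 0, d i, fun x => ?_⟩
  rcases le_or_gt 0 x with hx | hx
  · have h1 : Finset.Ico 0 (x + 1) = insert x (Finset.Ico 0 x) := by
      ext i; simp only [Finset.mem_Ico, Finset.mem_insert]; omega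
    have h2 : Finset.Ico (x + 1) 0 = ∅ := Finset.Ico_eq_empty (by omega)
    have h3 : Finset.Ico x 0 = ∅ := Finset.Ico_eq_empty (by omega)
    simp only [h1, h2, h3, Finset.sum_empty, add_zero]
    rw [Finset.sum_insert (by simp), add_comm]
  · have h1 : Finset.Ico x 0 = insert x (Finset.Ico (x + 1) 0) := by
      ext i; simp only [Finset.mem_Ico, Finset.mem_insert]; omega
    have h2 : Finset.Ico 0 x = ∅ := Finset.Ico_eq_empty (by omega)
    have h3 : Finset.Ico 0 (x + 1) = ∅ := Finset.Ico_eq_empty (by omega)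
    simp only [h1, h2, h3, Finset.sum_empty, zero_add]
    rw [Finset.sum_insert (by simp), add_comm (d x), add_assoc, CharTwo.add_self_eq_zero, add_zero]

theorem eq_of_add_zero {a b : ZMod 2} (h : a + b = 0) : a = b := by
  rw [← add_zero a, ← CharTwo.add_self_eq_zero b, ← add_assoc, h, zero_add]

theorem t_exact : S_exact := by
  intro c hs hc
  obtain ⟨h, hh⟩ := exists_pot fun x => c (x, 0) (x + 1, 0)
  choose v hv using fun x : ℤ => exists_pot fun y => c (x, y) (x, y + 1)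
  obtain ⟨g, hg⟩ : ∃ g : V → ZMod 2, ∀ x y, g (x, y) = h x + v x y + v x 0 :=
    ⟨fun p => h p.1 + v p.1 p.2 + v p.1 0, fun _ _ => rfl⟩
  have hy : ∀ x y, g (x, y + 1) = g (x, y) + c (x, y) (x, y + 1) := by
    intro x y
    rw [hg, hg, hv x y]
    ring
  have h0 : ∀ x, g (x + 1, 0) = g (x, 0) + c (x, 0) (x + 1, 0) := by
    intro x
    rw [hg, hg, hh x, add_assoc, CharTwo.add_self_eq_zero, add_assoc (h x) (v x 0),
      CharTwo.add_self_eq_zero]
    ring
  have t1 : ∀ x y, c (x, y) (x + 1, y) + c (x + 1, y) (x, y + 1) + c (x, y) (x, y + 1) = 0 :=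
    fun x y => hc _ _ _ (Or.inl ⟨rfl, rfl⟩)
      (Or.inr (Or.inr (Or.inr (Or.inr (Or.inr ⟨by simp, rfl⟩)))))
      (Or.inr (Or.inr (Or.inl ⟨rfl, rfl⟩)))
  have t2 : ∀ x y, c (x + 1, y) (x, y + 1) + c (x, y + 1) (x + 1, y + 1) +
      c (x + 1, y) (x + 1, y + 1) = 0 :=
    fun x y => hc _ _ _ (Or.inr (Or.inr (Or.inr (Or.inr (Or.inr ⟨by simp, rfl⟩)))))
      (Or.inl ⟨rfl, rfl⟩) (Or.inr (Or.inr (Or.inl ⟨rfl, rfl⟩)))
  have key : ∀ x y, (g (x + 1, y + 1) + (g (x, y + 1) + c (x, y + 1) (x + 1, y + 1))) =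
      (g (x + 1, y) + (g (x, y) + c (x, y) (x + 1, y))) := by
    intro x y
    have e1 := t1 x y
    have e2 := t2 x y
    have e3 : c (x, y + 1) (x + 1, y + 1) = c (x, y) (x + 1, y) + c (x, y) (x, y + 1) +
        c (x + 1, y) (x + 1, y + 1) := by
      linear_combination e2 - e1 - CharTwo.add_self_eq_zero (c (x + 1, y) (x + 1, y + 1))
    rw [hy, hy, e3]
    have h4 := CharTwo.add_self_eq_zero (c (x, y) (x, y + 1))
    have h5 := CharTwo.add_self_eq_zero (c (x + 1, y) (x + 1, y + 1))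
    linear_combination h4 + h5
  have hx : ∀ x y, g (x + 1, y) + (g (x, y) + c (x, y) (x + 1, y)) = 0 := by
    intro x y
    induction y using Int.induction_on with
    | zero => rw [h0 x, CharTwo.add_self_eq_zero]
    | succ n ih => rw [key x n, ih]
    | pred n ih => 
      have := key x (-n - 1)
      rw [sub_add_cancel, ih] at this
      exact this.symm
  refine ⟨g, ?_⟩
  have H : ∀ x y, c (x, y) (x + 1, y) = g (x, y) + g (x + 1, y) := fun x y => by
    apply eq_of_add_zero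
    rw [← hx x y]; ring
  have Vt : ∀ x y, c (x, y) (x, y + 1) = g (x, y) + g (x, y + 1) := fun x y => by
    rw [hy x y, ← add_assoc, CharTwo.add_self_eq_zero, zero_add]
  have Dg : ∀ x y, c (x + 1, y) (x, y + 1) = g (x + 1, y) + g (x, y + 1) := fun x y => by
    have e1 := t1 x y
    rw [H, Vt] at e1
    apply eq_of_add_zero
    have h4 := CharTwo.add_self_eq_zero (g (x, y))
    linear_combination e1 - h4
  rintro ⟨x, y⟩ ⟨x', y'⟩ hA
  have hA' := hA
  rcases hA' with ⟨h1, h2⟩ | ⟨h1, h2⟩ | ⟨h1, h2⟩ | ⟨h1, h2⟩ | ⟨h1, h2⟩ | ⟨h1, h2⟩ <;>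
    simp only at h1 h2
  · subst h1 h2; exact H _ _
  · obtain rfl : x = x' + 1 := by omega
    subst h2
    rw [hs _ _ hA, H, add_comm]
  · subst h1 h2; exact Vt _ _
  · obtain rfl : y = y' + 1 := by omega
    subst h1
    rw [hs _ _ hA, Vt, add_comm]
  · obtain rfl : y = y' + 1 := by omega
    subst h1
    rw [hs _ _ hA, Dg, add_comm]
  · obtain rfl : x = x' + 1 := by omega
    subst h2
    exact Dg x' y

end TriX
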