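import Pool.Agent.EX.Spec1

/-! Project EX (MP_68260e), module T4: the cut between a connected set and a component of its
complement is connected through triangles. -/

namespace TriX

theorem t4_adj_symm {u v : V} (h : Adj u v) : Adj v u := by
  unfold Adj at *
  omega

theorem t4_zmod {x y : ZMod 2} (h : x + y = 0) : x = y := by
  revert x y
  decide

theorem t4_ne {x y : ZMod 2} : x ≠ y ↔ x + y = 1 := by
  revert x y
  decide

theorem t_bdry (h : S_exact) : S_bdry := by
  classical
  intro Z A hZ hA hdis hbd z hz a ha z' hz' a' ha' hza hza'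
  obtain ⟨P, hP⟩ : ∃ P : V × V → Prop,
      P = fun f => Relation.ReflTransGen (CutStep Z A) (z, a) f := ⟨_, rfl⟩
  have hdj : ∀ u, u ∈ Z → u ∈ A → False := fun u h1 h2 => Set.disjoint_left.mp hdis h1 h2
  have hPmem : ∀ f, P f → f.1 ∈ Z ∧ f.2 ∈ A := by
    intro f hf
    rw [hP] at hf
    rcases Relation.ReflTransGen.cases_tail hf with h1 | ⟨e, _, h2⟩
    · rw [h1]
      exact ⟨hz, ha⟩
    · exact ⟨h2.1.1, h2.1.2.1⟩
  have hstep : ∀ e f, P e → CutStep Z A e f → P f := by
    intro e f he hef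
    rw [hP] at he ⊢
    exact he.tail hef
  obtain ⟨c, hc⟩ : ∃ c : V → V → ZMod 2,
      c = fun u v => if P (u, v) ∨ P (v, u) then 1 else 0 := ⟨_, rfl⟩
  have hc1 : ∀ u v, P (u, v) ∨ P (v, u) → c u v = 1 := by
    intro u v huv
    rw [hc]
    exact if_pos huv
  have hc0 : ∀ u v, ¬ (P (u, v) ∨ P (v, u)) → c u v = 0 := by
    intro u v huv
    rw [hc]
    exact if_neg huv
  have hcs : ∀ u v, c u v = c v u := by
    intro u v
    by_cases h1 : P (u, v) ∨ P (v, u)
    · rw [hc1 u v h1, hc1 v u h1.symm]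
    · rw [hc0 u v h1, hc0 v u (fun h2 => h1 h2.symm)]
  have hZZ : ∀ u v, u ∈ Z → v ∈ Z → c u v = 0 := by
    intro u v hu hv
    refine hc0 u v ?_
    rintro (h1 | h1)
    · exact hdj v hv (hPmem _ h1).2
    · exact hdj u hu (hPmem _ h1).2
  have hAA : ∀ u v, u ∈ A → v ∈ A → c u v = 0 := by
    intro u v hu hv
    refine hc0 u v ?_
    rintro (h1 | h1)
    · exact hdj u (hPmem _ h1).1 hu
    · exact hdj v (hPmem _ h1).1 hv
  have htri : ∀ u v w, Adj u v → Adj v w → Adj u w → P (u, v) →
      c u v + c v w + c u w = 0 := by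
    intro u v w huv hvw huw hp
    have hm := hPmem _ hp
    have e1 : c u v = 1 := hc1 u v (Or.inl hp)
    rcases hbd v hm.2 w hvw with hw | hw
    · have h2 : P (w, v) := hstep (u, v) (w, v) hp
        ⟨⟨hw, hm.2, t4_adj_symm hvw⟩, Or.inr ⟨rfl, huw⟩⟩
      rw [e1, hc1 v w (Or.inr h2), hZZ u w hm.1 hw]
      decide
    · have h2 : P (u, w) := hstep (u, v) (u, w) hp
        ⟨⟨hm.1, hw, huw⟩, Or.inl ⟨rfl, hvw⟩⟩
      rw [e1, hc1 u w (Or.inl h2), hAA v w hm.2 hw]
      decide
  have htri2 : ∀ u v w, Adj u v → Adj v w → Adj u w → (P (u, v) ∨ P (v, u)) →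
      c u v + c v w + c u w = 0 := by
    rintro u v w huv hvw huw (hp | hp)
    · exact htri u v w huv hvw huw hp
    · have := htri v u w (t4_adj_symm huv) huw hvw hp
      rw [hcs u v, add_right_comm]
      exact this
  have hclosed : ∀ u v w, Adj u v → Adj v w → Adj u w → c u v + c v w + c u w = 0 := by
    intro u v w huv hvw huw
    by_cases h1 : P (u, v) ∨ P (v, u)
    · exact htri2 u v w huv hvw huw h1
    by_cases h2 : P (v, w) ∨ P (w, v)
    · have := htri2 v w u hvw (t4_adj_symm huw) (t4_adj_symm huv) h2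
      rw [hcs w u, hcs v u] at this
      rw [← this]
      ring
    by_cases h3 : P (u, w) ∨ P (w, u)
    · have := htri2 u w v huw (t4_adj_symm hvw) huv h3
      rw [hcs w v] at this
      rw [← this]
      ring
    · rw [hc0 u v h1, hc0 v w h2, hc0 u w h3]
      decide
  obtain ⟨g, hg⟩ := h c (fun u v _ => hcs u v) hclosed
  have hconst : ∀ S : Set V, (∀ u v, u ∈ S → v ∈ S → c u v = 0) → ∀ u v, Conn S u v →
      g u = g v := by
    intro S hS u v huv
    have key : g u = g v ∧ v ∈ S := by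
      obtain ⟨hu, hpath⟩ := huv
      induction hpath with
      | refl => exact ⟨rfl, hu⟩
      | tail _ hbc ih =>
        refine ⟨?_, hbc.2⟩
        rw [ih.1]
        exact t4_zmod ((hg _ _ hbc.1).symm.trans (hS _ _ ih.2 hbc.2))
    exact key.1
  have hPza : P (z, a) := by
    rw [hP]
  have e1 : g z + g a = 1 := by
    rw [← hg z a hza]
    exact hc1 z a (Or.inl hPza)
  have e2 : g z = g z' := hconst Z hZZ z z' (hZ z hz z' hz')
  have e3 : g a = g a' := hconst A hAA a a' (hA a ha a' ha')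
  have e4 : c z' a' = 1 := by
    rw [hg z' a' hza', ← e2, ← e3]
    exact e1
  have hfin : P (z', a') ∨ P (a', z') := by
    by_contra hcon
    rw [hc0 z' a' hcon] at e4
    exact absurd e4 (by decide)
  rcases hfin with h1 | h1
  · rw [hP] at h1
    exact h1
  · exact (hdj a' (hPmem _ h1).1 ha').elim

end TriX
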