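import Pool.Agent.EX.Spec1

/-! EX-T6 (MP_68260e): duality in boxes. -/

set_option autoImplicit false

namespace TriX

theorem t6_adj_symm {u v : V} (h : Adj u v) : Adj v u := by
  unfold Adj at *; omega

theorem t6_conn_mem {S : Set V} {u v : V} (h : Conn S u v) : v ∈ S := by
  obtain ⟨h1, h2⟩ := h
  rcases Relation.ReflTransGen.cases_tail h2 with h3 | ⟨w, _, h4⟩
  · rw [h3]; exact h1
  · exact h4.2

theorem t6_conn_refl {S : Set V} {u : V} (h : u ∈ S) : Conn S u u := ⟨h, Relation.ReflTransGen.refl⟩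

theorem t6_conn_trans {S : Set V} {u v w : V} (h : Conn S u v) (h' : Conn S v w) : Conn S u w :=
  ⟨h.1, h.2.trans h'.2⟩

theorem t6_conn_step {S : Set V} {u v : V} (hu : u ∈ S) (hv : v ∈ S) (h : Adj u v) : Conn S u v :=
  ⟨hu, Relation.ReflTransGen.single ⟨h, hv⟩⟩

theorem t6_conn_symm {S : Set V} {u v : V} (h : Conn S u v) : Conn S v u := by
  obtain ⟨h1, h2⟩ := h
  induction h2 with
  | refl => exact t6_conn_refl h1
  | @tail b c hab hbc ih =>
    have hb : b ∈ S := t6_conn_mem ⟨h1, hab⟩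
    exact t6_conn_trans (t6_conn_step hbc.2 hb (t6_adj_symm hbc.1)) ih

theorem t6_conn_h {S : Set V} {x y : ℤ} (n : ℕ) (h : ∀ i : ℕ, i ≤ n → ((x + i, y) : V) ∈ S) :
    Conn S (x, y) (x + n, y) := by
  induction n with
  | zero =>
    have h0 := h 0 le_rfl
    simp only [Nat.cast_zero, add_zero] at h0 ⊢
    exact t6_conn_refl h0
  | succ n ih =>
    refine t6_conn_trans (ih (fun i hi => h i (by omega))) (t6_conn_step (h n (by omega)) (h (n + 1) le_rfl) ?_)
    unfold Adj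
    push_cast
    left
    constructor
    · show x + ((n : ℤ) + 1) = x + n + 1
      ring
    · rfl

theorem t6_conn_v {S : Set V} {x y : ℤ} (n : ℕ) (h : ∀ i : ℕ, i ≤ n → ((x, y + i) : V) ∈ S) :
    Conn S (x, y) (x, y + n) := by
  induction n with
  | zero =>
    have h0 := h 0 le_rfl
    simp only [Nat.cast_zero, add_zero] at h0 ⊢
    exact t6_conn_refl h0
  | succ n ih =>
    refine t6_conn_trans (ih (fun i hi => h i (by omega))) (t6_conn_step (h n (by omega)) (h (n + 1) le_rfl) ?_)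
    unfold Adj
    push_cast
    right; right; left
    constructor
    · rfl
    · show y + ((n : ℤ) + 1) = y + n + 1
      ring

theorem t6_conn_hz {S : Set V} {x x' y : ℤ} (hx : x ≤ x') (h : ∀ t : ℤ, x ≤ t → t ≤ x' → ((t, y) : V) ∈ S) :
    Conn S (x, y) (x', y) := by
  have := t6_conn_h (S := S) (x := x) (y := y) (x' - x).toNat (fun i hi => h _ (by omega) (by omega))
  rwa [show x + ((x' - x).toNat : ℤ) = x' by omega] at this

theorem t6_conn_vt {S : Set V} {x y y' : ℤ} (hy : y ≤ y') (h : ∀ t : ℤ, y ≤ t → t ≤ y' → ((x, t) : V) ∈ S) :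
    Conn S (x, y) (x, y') := by
  have := t6_conn_v (S := S) (x := x) (y := y) (y' - y).toNat (fun i hi => h _ (by omega) (by omega))
  rwa [show y + ((y' - y).toNat : ℤ) = y' by omega] at this

/-- vertical motion in both directions -/
theorem t6_conn_vv {S : Set V} {x y y' : ℤ} (h : ∀ t : ℤ, ((x, t) : V) ∈ S) :
    Conn S (x, y) (x, y') := by
  rcases le_total y y' with h1 | h1
  · exact t6_conn_vt h1 (fun t _ _ => h t)
  · exact t6_conn_symm (t6_conn_vt h1 (fun t _ _ => h t))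

theorem t6_left (x1 : ℤ) : PreConn {v : V | v.1 < x1} := by
  have key : ∀ u : V, u.1 < x1 → Conn {v : V | v.1 < x1} u (x1 - 1, 0) := by
    rintro ⟨x, y⟩ hu
    have hu' : x < x1 := hu
    refine t6_conn_trans (t6_conn_hz (x' := x1 - 1) (by omega) (fun t _ ht => ?_))
      (t6_conn_vv (fun t => ?_))
    · show t < x1; omega
    · show x1 - 1 < x1; omega
  intro u hu v hv
  exact t6_conn_trans (key u hu) (t6_conn_symm (key v hv))

theorem t6_right (x1 x2 y1 y2 : ℤ) : PreConn ({v : V | x1 ≤ v.1 ∧ v.1 ≤ x2 ∧ y2 < v.2} ∪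
    {v : V | x2 < v.1} ∪ {v : V | x1 ≤ v.1 ∧ v.1 ≤ x2 ∧ v.2 < y1}) := by
  set C : Set V := {v : V | x1 ≤ v.1 ∧ v.1 ≤ x2 ∧ y2 < v.2} ∪
    {v : V | x2 < v.1} ∪ {v : V | x1 ≤ v.1 ∧ v.1 ≤ x2 ∧ v.2 < y1} with hC
  have hmem : ∀ x y : ℤ, x2 < x → ((x, y) : V) ∈ C := fun x y h => Or.inl (Or.inr h)
  have key3 : ∀ x y : ℤ, x2 < x → Conn C (x, y) (x2 + 1, 0) := by
    intro x y h
    refine t6_conn_trans (t6_conn_symm (t6_conn_hz (x := x2 + 1) (x' := x) (by omega)
      (fun t ht _ => hmem _ _ (by omega)))) (t6_conn_vv (fun t => hmem _ _ (by omega)))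
  have key : ∀ u : V, u ∈ C → Conn C u (x2 + 1, 0) := by
    rintro ⟨x, y⟩ hu
    rcases hu with (⟨h1, h2, h3⟩ | h) | ⟨h1, h2, h3⟩
    · have h1' : x1 ≤ x := h1
      have h2' : x ≤ x2 := h2
      have h3' : y2 < y := h3
      refine t6_conn_trans (t6_conn_hz (x' := x2 + 1) (by omega) (fun t ht ht2 => ?_))
        (key3 _ _ (by omega))
      rcases lt_or_ge x2 t with h4 | h4
      · exact hmem _ _ h4
      · exact Or.inl (Or.inl ⟨by show x1 ≤ t; omega, h4, h3'⟩)
    · exact key3 x y h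
    · have h1' : x1 ≤ x := h1
      have h2' : x ≤ x2 := h2
      have h3' : y < y1 := h3
      refine t6_conn_trans (t6_conn_hz (x' := x2 + 1) (by omega) (fun t ht ht2 => ?_))
        (key3 _ _ (by omega))
      rcases lt_or_ge x2 t with h4 | h4
      · exact hmem _ _ h4
      · exact Or.inr ⟨by show x1 ≤ t; omega, h4, h3'⟩
  intro u hu v hv
  exact t6_conn_trans (key u hu) (t6_conn_symm (key v hv))

theorem t6_via {S : Set V} {u v : V} (h : Via S u v) (hn : ¬ Adj u v) :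
    ∃ u' v', Adj u u' ∧ Adj v' v ∧ Conn S u' v' := by
  obtain ⟨w, h1, h2⟩ := h
  rcases Relation.ReflTransGen.cases_head h1 with h3 | ⟨u', h4, h5⟩
  · subst h3; exact absurd h2 hn
  · exact ⟨u', w, h4.1, h2, h4.2, h5⟩

theorem t6_adj_coord {u v : V} (h : Adj u v) : u.1 - 1 ≤ v.1 ∧ v.1 ≤ u.1 + 1 ∧ u.2 - 1 ≤ v.2 ∧
    v.2 ≤ u.2 + 1 := by
  unfold Adj at h; omega

theorem t_dual (h5 : S_fourArc) (h2 : S_crossConn) : S_dual := by
  intro B x1 x2 y1 y2 hx hy
  constructor
  · rintro ⟨u, v, hu, hv, huv⟩ ⟨c, d, hc, hd, hcd⟩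
    obtain ⟨w, hw1, hw2⟩ := h2 1 0 one_pos (B ∩ Box x1 x2 y1 y2) (Bᶜ ∩ Box x1 x2 y1 y2) u v c d
      huv hcd
      (by rintro w ⟨_, hw⟩; unfold lin; have := hw.1; linarith)
      (by rintro w ⟨_, hw⟩; unfold lin; have := hw.2.1; linarith)
      (by rintro w ⟨_, hw⟩; have := hw.2.2.1; linarith)
      (by rintro w ⟨_, hw⟩; have := hw.2.2.2; linarith)
    exact hw2.1 hw1.1
  · intro hTB
    by_contra hLR
    have key := h5 (Box x1 x2 y1 y2) {v : V | v.1 < x1}
      {v : V | x1 ≤ v.1 ∧ v.1 ≤ x2 ∧ y2 < v.2} {v : V | x2 < v.1}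
      {v : V | x1 ≤ v.1 ∧ v.1 ≤ x2 ∧ v.2 < y1}
      ({v : V | x1 ≤ v.1 ∧ v.1 ≤ x2 ∧ y2 < v.2} ∪ {v : V | x2 < v.1} ∪
        {v : V | x1 ≤ v.1 ∧ v.1 ≤ x2 ∧ v.2 < y1}) B
      (by
        intro v
        simp only [Box, Set.mem_ofPred_eq]
        omega)
      (by rw [Set.disjoint_left]; intro v hv hv'; simp only [Set.mem_ofPred_eq] at hv hv'; omega)
      (by rw [Set.disjoint_left]; intro v hv hv'; simp only [Set.mem_ofPred_eq] at hv hv'; omega)
      (by rw [Set.disjoint_left]; intro v hv hv'; simp only [Set.mem_ofPred_eq] at hv hv'; omega)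
      (by rw [Set.disjoint_left]; intro v hv hv'; simp only [Set.mem_ofPred_eq, Box] at hv hv'; omega)
      (by rw [Set.disjoint_left]; intro v hv hv'; simp only [Set.mem_ofPred_eq, Box] at hv hv'; omega)
      (by rw [Set.disjoint_left]; intro v hv hv'; simp only [Set.mem_ofPred_eq, Box] at hv hv'; omega)
      (by rw [Set.disjoint_left]; intro v hv hv'; simp only [Set.mem_ofPred_eq, Box] at hv hv'; omega)
      (by rw [Set.disjoint_left]; intro v hv hv'; simp only [Set.mem_ofPred_eq] at hv hv'; omega)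
      (by rw [Set.disjoint_left]; intro v hv hv'; simp only [Set.mem_ofPred_eq] at hv hv'; omega)
      (by rw [Set.disjoint_left]; intro v hv hv'; simp only [Set.mem_ofPred_eq] at hv hv'; omega)
      (t6_left x1) (t6_right x1 x2 y1 y2)
      (fun v hv => Or.inl (Or.inl hv)) (fun v hv => Or.inl (Or.inr hv)) (fun v hv => hv)
      ⟨(x1 - 1, y2 + 1), by show x1 - 1 < x1; omega, (x1, y2 + 1),
        ⟨by show x1 ≤ x1; omega, by show x1 ≤ x2; omega, by show y2 < y2 + 1; omega⟩,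
        by unfold Adj; left; constructor <;> simp⟩
      ⟨(x1 - 1, y1 - 1), by show x1 - 1 < x1; omega, (x1, y1 - 1),
        ⟨⟨by show x1 ≤ x1; omega, by show x1 ≤ x2; omega, by show y1 - 1 < y1; omega⟩,
          Or.inr ⟨by show x1 ≤ x1; omega, by show x1 ≤ x2; omega, by show y1 - 1 < y1; omega⟩⟩,
        by unfold Adj; left; constructor <;> simp⟩
      ⟨(x2 + 1, 0), by show x2 < x2 + 1; omega⟩
    rcases key with ⟨u, hu, v, hv, hvia⟩ | ⟨u, hu, v, hv, hvia⟩
    · apply hLR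
      have hu' : u.1 < x1 := hu
      have hv' : x2 < v.1 := hv
      obtain ⟨u', v', ha, hb, hc⟩ := t6_via hvia (by
        intro hadj
        have := t6_adj_coord hadj
        omega)
      have h1 : u' ∈ Box x1 x2 y1 y2 := hc.1.1
      have h3 : v' ∈ Box x1 x2 y1 y2 := (t6_conn_mem hc).1
      have h4 := t6_adj_coord ha
      have h6 := t6_adj_coord hb
      refine ⟨u', v', ?_, ?_, ?_⟩
      · have := h1.1; omega
      · have := h3.2.1; omega
      · rw [Set.inter_comm]; exact hc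
    · apply hTB
      have hu' : y2 < u.2 := hu.2.2
      have hv' : v.2 < y1 := hv.2.2
      obtain ⟨u', v', ha, hb, hc⟩ := t6_via hvia (by
        intro hadj
        have := t6_adj_coord hadj
        omega)
      have h1 : u' ∈ Box x1 x2 y1 y2 := hc.1.1
      have h3 : v' ∈ Box x1 x2 y1 y2 := (t6_conn_mem hc).1
      have h4 := t6_adj_coord ha
      have h6 := t6_adj_coord hb
      refine ⟨v', u', ?_, ?_, ?_⟩
      · have := h3.2.2.1; omega
      · have := h1.2.2.2; omega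
      · have h7 : Bᶜ ∩ Box x1 x2 y1 y2 = Box x1 x2 y1 y2 \ B := by
          ext w; simp only [Set.mem_inter_iff, Set.mem_compl_iff, Set.mem_sdiff]; tauto
        rw [h7]
        exact t6_conn_symm hc

end TriX
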