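import Pool.Agent.EX.Spec1

/-! Project EX (MP_68260e), module T7: a connected black piece in an annulus which is not crossed
by white. -/

namespace TriX

theorem t7_symm {u v : V} (h : Adj u v) : Adj v u := by
  unfold Adj at *
  omega

theorem t7_conn_mono {S S' : Set V} (h : S ⊆ S') {u v : V} (hc : Conn S u v) : Conn S' u v := by
  refine ⟨h hc.1, ?_⟩
  obtain ⟨_, hc⟩ := hc
  induction hc with
  | refl => exact Relation.ReflTransGen.refl
  | tail _ h2 ih => exact ih.tail ⟨h2.1, h h2.2⟩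

theorem t7_conn_mem {S : Set V} {u v : V} (hc : Conn S u v) : v ∈ S := by
  rcases Relation.ReflTransGen.cases_tail hc.2 with h | ⟨w, _, hw⟩
  · rw [h]; exact hc.1
  · exact hw.2

theorem t7_conn_trans {S : Set V} {u v w : V} (h1 : Conn S u v) (h2 : Conn S v w) : Conn S u w :=
  ⟨h1.1, h1.2.trans h2.2⟩

theorem t7_conn_refl {S : Set V} {u : V} (h : u ∈ S) : Conn S u u := ⟨h, Relation.ReflTransGen.refl⟩

theorem t7_conn_single {S : Set V} {u v : V} (hu : u ∈ S) (hv : v ∈ S) (h : Adj u v) :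
    Conn S u v := ⟨hu, Relation.ReflTransGen.single ⟨h, hv⟩⟩

theorem t7_conn_symm {S : Set V} {u v : V} (h : Conn S u v) : Conn S v u := by
  obtain ⟨hu, h⟩ := h
  induction h with
  | refl => exact t7_conn_refl hu
  | tail _ h2 ih =>
    exact t7_conn_trans (t7_conn_single h2.2 ih.1 (t7_symm h2.1)) ih

/-- horizontal segments -/
theorem t7_horiz (S : Set V) : ∀ (n : ℕ) (u : V), (∀ t : ℕ, t ≤ n → ((u.1 + t, u.2) : V) ∈ S) →
    Conn S u (u.1 + n, u.2) := by
  intro n
  induction n with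
  | zero =>
    intro u h
    have h0 := h 0 le_rfl
    simp only [Nat.cast_zero, add_zero, Prod.mk.eta] at h0 ⊢
    exact t7_conn_refl h0
  | succ n ih =>
    intro u h
    refine t7_conn_trans (ih u fun t ht => h t (by omega)) ?_
    refine t7_conn_single (h n (by omega)) (h (n + 1) le_rfl) ?_
    unfold Adj
    push_cast
    omega

/-- vertical segments -/
theorem t7_vert (S : Set V) : ∀ (n : ℕ) (u : V), (∀ t : ℕ, t ≤ n → ((u.1, u.2 + t) : V) ∈ S) →
    Conn S u (u.1, u.2 + n) := by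
  intro n
  induction n with
  | zero =>
    intro u h
    have h0 := h 0 le_rfl
    simp only [Nat.cast_zero, add_zero, Prod.mk.eta] at h0 ⊢
    exact t7_conn_refl h0
  | succ n ih =>
    intro u h
    refine t7_conn_trans (ih u fun t ht => h t (by omega)) ?_
    refine t7_conn_single (h n (by omega)) (h (n + 1) le_rfl) ?_
    unfold Adj
    push_cast
    omega

/-- two vertices are joined inside their bounding box -/
theorem t7_bbox (u v : V) :
    Conn (Box (min u.1 v.1) (max u.1 v.1) (min u.2 v.2) (max u.2 v.2)) u v := by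
  set S := Box (min u.1 v.1) (max u.1 v.1) (min u.2 v.2) (max u.2 v.2) with hS
  have h1 : Conn S u (v.1, u.2) := by
    rcases le_total u.1 v.1 with h | h
    · obtain ⟨n, hn⟩ := Int.eq_ofNat_of_zero_le (sub_nonneg.mpr h)
      have := t7_horiz S n u (fun t ht => by
        simp only [hS, Box, Set.mem_ofPred_eq]
        omega)
      have e : ((u.1 + n, u.2) : V) = (v.1, u.2) := by
        rw [Prod.mk.injEq]; exact ⟨by omega, rfl⟩
      rwa [e] at this
    · obtain ⟨n, hn⟩ := Int.eq_ofNat_of_zero_le (sub_nonneg.mpr h)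
      have := t7_horiz S n (v.1, u.2) (fun t ht => by
        simp only [hS, Box, Set.mem_ofPred_eq]
        omega)
      have e : ((v.1 + n, u.2) : V) = u := by
        apply Prod.ext
        · show v.1 + n = u.1
          omega
        · rfl
      simp only at this
      rw [e] at this
      exact t7_conn_symm this
  have h2 : Conn S (v.1, u.2) v := by
    rcases le_total u.2 v.2 with h | h
    · obtain ⟨n, hn⟩ := Int.eq_ofNat_of_zero_le (sub_nonneg.mpr h)
      have := t7_vert S n (v.1, u.2) (fun t ht => by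
        simp only [hS, Box, Set.mem_ofPred_eq]
        omega)
      have e : ((v.1, u.2 + n) : V) = v := by
        apply Prod.ext
        · rfl
        · show u.2 + n = v.2
          omega
      simp only at this
      rwa [e] at this
    · obtain ⟨n, hn⟩ := Int.eq_ofNat_of_zero_le (sub_nonneg.mpr h)
      have := t7_vert S n v (fun t ht => by
        simp only [hS, Box, Set.mem_ofPred_eq]
        omega)
      have e : ((v.1, v.2 + n) : V) = (v.1, u.2) := by
        rw [Prod.mk.injEq]; exact ⟨rfl, by omega⟩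
      rw [e] at this
      exact t7_conn_symm this
  exact t7_conn_trans h1 h2

theorem t7_ball (c : V) (r : ℤ) : PreConn (Ball c r) := by
  intro u hu v hv
  refine t7_conn_mono ?_ (t7_bbox u v)
  intro w hw
  simp only [Box, Ball, Set.mem_ofPred_eq, abs_le] at hu hv hw ⊢
  omega

theorem t7_mem_ball (c : V) (r : ℤ) (v : V) : v ∈ Ball c r ↔
    c.1 - r ≤ v.1 ∧ v.1 ≤ c.1 + r ∧ c.2 - r ≤ v.2 ∧ v.2 ≤ c.2 + r := by
  simp only [Ball, Set.mem_ofPred_eq, abs_le]
  omega

/-- the outside of a ball is connected -/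
theorem t7_out (c : V) (R : ℤ) (hR : 0 ≤ R) : PreConn (Ball c R)ᶜ := by
  -- every vertex outside is joined to the corner `q`
  have key : ∀ v ∈ (Ball c R)ᶜ, Conn (Ball c R)ᶜ v (c.1 + R + 1, c.2 + R + 1) := by
    intro v hv
    rw [Set.mem_compl_iff, t7_mem_ball] at hv
    have hcases : c.1 + R < v.1 ∨ c.2 + R < v.2 ∨ v.1 < c.1 - R ∨ v.2 < c.2 - R := by omega
    rcases hcases with h | h | h | h
    · refine t7_conn_mono ?_ (t7_bbox v (c.1 + R + 1, c.2 + R + 1))
      intro w hw
      rw [Set.mem_compl_iff, t7_mem_ball]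
      simp only [Box, Set.mem_ofPred_eq] at hw
      omega
    · refine t7_conn_mono ?_ (t7_bbox v (c.1 + R + 1, c.2 + R + 1))
      intro w hw
      rw [Set.mem_compl_iff, t7_mem_ball]
      simp only [Box, Set.mem_ofPred_eq] at hw
      omega
    · refine t7_conn_trans (t7_conn_mono ?_ (t7_bbox v (c.1 - R - 1, c.2 + R + 1)))
        (t7_conn_mono ?_ (t7_bbox (c.1 - R - 1, c.2 + R + 1) (c.1 + R + 1, c.2 + R + 1)))
      · intro w hw
        rw [Set.mem_compl_iff, t7_mem_ball]
        simp only [Box, Set.mem_ofPred_eq] at hw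
        omega
      · intro w hw
        rw [Set.mem_compl_iff, t7_mem_ball]
        simp only [Box, Set.mem_ofPred_eq] at hw
        omega
    · refine t7_conn_trans (t7_conn_mono ?_ (t7_bbox v (c.1 + R + 1, c.2 - R - 1)))
        (t7_conn_mono ?_ (t7_bbox (c.1 + R + 1, c.2 - R - 1) (c.1 + R + 1, c.2 + R + 1)))
      · intro w hw
        rw [Set.mem_compl_iff, t7_mem_ball]
        simp only [Box, Set.mem_ofPred_eq] at hw
        omega
      · intro w hw
        rw [Set.mem_compl_iff, t7_mem_ball]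
        simp only [Box, Set.mem_ofPred_eq] at hw
        omega
  intro u hu v hv
  exact t7_conn_trans (key u hu) (t7_conn_symm (key v hv))

/-- `T7` -/
theorem t_ring (h : S_bdry) : S_ring := by
  intro B c r R hr hrR hno
  -- the white cluster of the inner ball
  let rel : V → V → Prop := fun a b => Adj a b ∧ b ∈ Bᶜ ∩ Ann c r R
  let Z : Set V := {z | ∃ u ∈ Ball c r, Relation.ReflTransGen rel u z}
  have hBZ : Ball c r ⊆ Z := fun u hu => ⟨u, hu, Relation.ReflTransGen.refl⟩
  have hZstep : ∀ z ∈ Z, ∀ a, Adj z a → a ∈ Bᶜ ∩ Ann c r R → a ∈ Z := by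
    rintro z ⟨u, hu, huz⟩ a hza ha
    exact ⟨u, hu, huz.tail ⟨hza, ha⟩⟩
  have hZconn : ∀ z ∈ Z, ∃ u ∈ Ball c r, Conn Z u z := by
    rintro z ⟨u, hu, huz⟩
    refine ⟨u, hu, hBZ hu, ?_⟩
    induction huz with
    | refl => exact Relation.ReflTransGen.refl
    | tail h1 h2 ih => exact ih.tail ⟨h2.1, u, hu, h1.tail h2⟩
  have hZpre : PreConn Z := by
    intro z hz z' hz'
    obtain ⟨u, hu, huz⟩ := hZconn z hz
    obtain ⟨u', hu', huz'⟩ := hZconn z' hz'
    exact t7_conn_trans (t7_conn_symm huz)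
      (t7_conn_trans (t7_conn_mono hBZ (t7_ball c r u hu u' hu')) huz')
  have hZnot : ∀ z ∈ Z, ∀ v, Adj z v → v ∈ Ball c R := by
    rintro z ⟨u, hu, huz⟩ v hzv
    by_contra hv
    exact hno ⟨u, hu, v, hv, z, huz, hzv⟩
  have hZR : Z ⊆ Ball c R := by
    rintro z ⟨u, hu, huz⟩
    rcases Relation.ReflTransGen.cases_tail huz with h1 | ⟨w, _, hw⟩
    · rw [h1]
      rw [t7_mem_ball] at hu ⊢
      omega
    · exact hw.2.2.1
  have hout : PreConn (Ball c R)ᶜ := t7_out c R (by omega)
  have hOZ : (Ball c R)ᶜ ⊆ Zᶜ := Set.compl_subset_compl.mpr hZR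
  -- the component of the complement
  let A : Set V := {a | ∃ v ∈ (Ball c R)ᶜ, Conn Zᶜ v a}
  have hOA : (Ball c R)ᶜ ⊆ A := fun v hv => ⟨v, hv, t7_conn_refl (hOZ hv)⟩
  have hAZ : Disjoint Z A := by
    rw [Set.disjoint_left]
    rintro a haZ ⟨v, _, hva⟩
    exact t7_conn_mem hva haZ
  have hAconn : ∀ a ∈ A, ∃ v ∈ (Ball c R)ᶜ, Conn A v a := by
    rintro a ⟨v, hv, hvZ, hva⟩
    refine ⟨v, hv, hOA hv, ?_⟩
    induction hva with
    | refl => exact Relation.ReflTransGen.refl
    | tail h1 h2 ih => exact ih.tail ⟨h2.1, v, hv, hvZ, h1.tail h2⟩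
  have hApre : PreConn A := by
    intro z hz z' hz'
    obtain ⟨u, hu, huz⟩ := hAconn z hz
    obtain ⟨u', hu', huz'⟩ := hAconn z' hz'
    exact t7_conn_trans (t7_conn_symm huz)
      (t7_conn_trans (t7_conn_mono hOA (hout u hu u' hu')) huz')
  have hAclosed : ∀ u ∈ A, ∀ v, Adj u v → v ∈ Z ∨ v ∈ A := by
    rintro u ⟨w, hw, hwu⟩ v huv
    by_cases hv : v ∈ Z
    · exact Or.inl hv
    · exact Or.inr ⟨w, hw, hwu.1, hwu.2.tail ⟨huv, hv⟩⟩
  let C : Set V := {a | a ∈ A ∧ ∃ z ∈ Z, Adj z a}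
  have hCsub : C ⊆ B ∩ Ann c r R := by
    rintro a ⟨haA, z, hz, hza⟩
    have haZ : a ∉ Z := fun h' => Set.disjoint_left.mp hAZ h' haA
    have hann : a ∈ Ann c r R := ⟨hZnot z hz a hza, fun h' => haZ (hBZ h')⟩
    refine ⟨?_, hann⟩
    by_contra haB
    exact haZ (hZstep z hz a hza ⟨haB, hann⟩)
  refine ⟨C, hCsub, ?_, ?_⟩
  · rintro a ⟨haA, z, hz, hza⟩ a' ⟨ha'A, z', hz', hza'⟩
    have hcut := h Z A hZpre hApre hAZ hAclosed z hz a haA z' hz' a' ha'A hza hza'
    refine ⟨⟨haA, z, hz, hza⟩, ?_⟩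
    have gen : ∀ f : V × V, Relation.ReflTransGen (CutStep Z A) (z, a) f →
        Relation.ReflTransGen (fun x y => Adj x y ∧ y ∈ C) a f.2 := by
      intro f hf
      induction hf with
      | refl => exact Relation.ReflTransGen.refl
      | tail _ h2 ih =>
        obtain ⟨⟨hf1, hf2, hf3⟩, hstep | hstep⟩ := h2
        · exact ih.tail ⟨hstep.2, hf2, _, hf1, hf3⟩
        · rw [← hstep.1]; exact ih
    exact gen _ hcut
  · intro S u v hu hv hconn
    have huA : u ∉ A := fun h' => Set.disjoint_left.mp hAZ (hBZ hu) h'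
    have hvA : v ∈ A := hOA hv
    have gen : ∀ w : V, Relation.ReflTransGen (fun a b => Adj a b ∧ b ∈ S) u w → w ∈ A →
        ∃ a b, a ∉ A ∧ b ∈ A ∧ Adj a b ∧ b ∈ S := by
      intro w hw
      induction hw with
      | refl => intro h'; exact absurd h' huA
      | tail _ h2 ih =>
        rename_i b c' _
        intro hc
        by_cases hb : b ∈ A
        · exact ih hb
        · exact ⟨b, c', hb, hc, h2.1, h2.2⟩
    obtain ⟨a, b, ha, hb, hab, hbS⟩ := gen v hconn.2 hvA
    refine ⟨b, ⟨hb, a, ?_, hab⟩, hbS⟩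
    rcases hAclosed b hb a (t7_symm hab) with h' | h'
    · exact h'
    · exact absurd h' ha

end TriX
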