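import Pool.Agent.EX.P2

/-! Project EX (MP_68260e), module U1: uniqueness of the exclusion process for regular ring
times. -/

open MeasureTheory ProbabilityTheory

namespace TriX

private lemma u1_other {ring : Edge → Set ℝ} {η : ℝ → V → Bool} (h : IsExclusion ring η)
    {e : Edge} {z z' : V} (hz : (z = e.1 ∧ z' = tgt e) ∨ (z = tgt e ∧ z' = e.1)) {t : ℝ}
    (ht : 0 < t) (hte : t ∈ ring e) :
    ∃ ε > 0, ∀ s ∈ Set.Ioo (t - ε) t, 0 ≤ s → η t z = η s z' := by
  obtain ⟨ε, hε, h1⟩ := h.exchange e t ht hte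
  refine ⟨ε, hε, fun s hs hs0 => ?_⟩
  rcases hz with ⟨rfl, rfl⟩ | ⟨rfl, rfl⟩
  · exact (h1 s hs hs0).1
  · exact (h1 s hs hs0).2

private lemma u1_finite {ring : Edge → Set ℝ} (hr : Regular ring) (x : V) (T : ℝ) :
    {s : ℝ | ∃ e : Edge, (x = e.1 ∨ x = tgt e) ∧ s ∈ ring e ∧ s ∈ Set.Ioc 0 T}.Finite := by
  have hf : {e : Edge | x = e.1 ∨ x = tgt e}.Finite := by
    apply Set.Finite.subset (Set.finite_range
      (fun p : Fin 3 × Bool => ((if p.2 then x else x - dir p.1, p.1) : Edge)))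
    rintro ⟨v, i⟩ h
    rcases h with h1 | h1
    · refine ⟨(i, true), ?_⟩
      simp only [if_true] at *
      rw [h1]
    · refine ⟨(i, false), ?_⟩
      rw [h1]
      simp [tgt]
  refine (hf.biUnion (fun e _ => hr.locFin e T)).subset ?_
  rintro s ⟨e, h1, h2, h3⟩
  exact Set.mem_biUnion (show e ∈ {e : Edge | x = e.1 ∨ x = tgt e} from h1) ⟨h2, h3⟩

/-- Two exclusion processes with the same regular ring times and the same initial values
coincide. -/
theorem u_unique {ring : Edge → Set ℝ} (hr : Regular ring) {η η' : ℝ → V → Bool}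
    (h : IsExclusion ring η) (h' : IsExclusion ring η') (h0 : ∀ v, η 0 v = η' 0 v) :
    ∀ t : ℝ, 0 ≤ t → ∀ v, η t v = η' t v := by
  intro t ht x
  set R : Set V := {y | Reach ring (t + 1) x y} with hR
  have hRf : R.Finite := hr.reach (t + 1) x
  set S : Set ℝ := ⋃ v ∈ R, {s : ℝ | ∃ e : Edge, (v = e.1 ∨ v = tgt e) ∧ s ∈ ring e ∧
    s ∈ Set.Ioc 0 (t + 1)} with hS
  have hSf : S.Finite := hRf.biUnion (fun v _ => u1_finite hr v (t + 1))
  have key : ∀ n : ℕ, ∀ (s : ℝ) (z : V), 0 ≤ s → s ≤ t + 1 →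
      (∃ T', s < T' ∧ T' ≤ t + 1 ∧ ∀ w, Reach ring T' z w → w ∈ R) →
      (S ∩ Set.Iic s).ncard ≤ n → η s z = η' s z := by
    intro n
    induction n with
    | zero =>
      rintro s z hs0 hs1 ⟨T', hT1, hT2, hT3⟩ hcard
      have hempty : (S ∩ Set.Iic s) = ∅ := by
        rw [← Set.ncard_eq_zero (hSf.inter_of_left _)]
        omega
      have hno : ∀ e : Edge, z = e.1 ∨ z = tgt e → ∀ u ∈ Set.Ioc 0 s, u ∉ ring e := by
        intro e he u hu hue
        have h2 : u ∈ S ∩ Set.Iic s := by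
          refine ⟨?_, hu.2⟩
          exact Set.mem_biUnion (show z ∈ R from hT3 z (Reach.refl _ _))
            ⟨e, he, hue, hu.1, hu.2.trans hs1⟩
        rw [hempty] at h2
        exact h2
      rw [p2_const h z le_rfl hno (s := s) (t := 0) ⟨hs0, le_rfl⟩ ⟨le_rfl, hs0⟩,
        p2_const h' z le_rfl hno (s := s) (t := 0) ⟨hs0, le_rfl⟩ ⟨le_rfl, hs0⟩, h0]
    | succ n ih =>
      rintro s z hs0 hs1 ⟨T', hT1, hT2, hT3⟩ hcard
      set G := {u : ℝ | ∃ e : Edge, (z = e.1 ∨ z = tgt e) ∧ u ∈ ring e ∧ u ∈ Set.Ioc 0 s} with hG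
      have hGf : G.Finite := u1_finite hr z s
      by_cases hne : G.Nonempty
      · obtain ⟨u, huG, hmax⟩ := Set.exists_max_image G id hGf hne
        obtain ⟨e, he, hue, hu⟩ := huG
        have hquiet : ∀ e' : Edge, z = e'.1 ∨ z = tgt e' → ∀ u' ∈ Set.Ioc u s, u' ∉ ring e' := by
          intro e' he' u' hu' hue'
          have h1 : u' ∈ G := ⟨e', he', hue', hu.1.trans hu'.1, hu'.2⟩
          have h2 := hmax u' h1
          simp only [id] at h2
          exact absurd hu'.1 (not_lt.2 h2)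
        have hc : η s z = η u z := p2_const h z hu.1.le hquiet ⟨hu.2, le_rfl⟩ ⟨le_rfl, hu.2⟩
        have hc' : η' s z = η' u z := p2_const h' z hu.1.le hquiet ⟨hu.2, le_rfl⟩ ⟨le_rfl, hu.2⟩
        obtain ⟨z', hz', hreach⟩ : ∃ z', ((z = e.1 ∧ z' = tgt e) ∨ (z = tgt e ∧ z' = e.1)) ∧
            ∀ w, Reach ring u z' w → w ∈ R := by
          rcases he with he | he
          · refine ⟨tgt e, Or.inl ⟨he, rfl⟩, fun w hw => hT3 w ?_⟩
            rw [he]
            exact Reach.fwd T' u e w hue hu.1 (hu.2.trans_lt hT1) hw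
          · refine ⟨e.1, Or.inr ⟨he, rfl⟩, fun w hw => hT3 w ?_⟩
            rw [he]
            exact Reach.bwd T' u e w hue hu.1 (hu.2.trans_lt hT1) hw
        obtain ⟨ε, hε, h1⟩ := u1_other h hz' hu.1 hue
        obtain ⟨ε', hε', h1'⟩ := u1_other h' hz' hu.1 hue
        set δ := min (min ε ε') u with hδ
        have hδ0 : 0 < δ := lt_min (lt_min hε hε') hu.1
        have hδ1 : δ ≤ ε := (min_le_left _ _).trans (min_le_left _ _)
        have hδ2 : δ ≤ ε' := (min_le_left _ _).trans (min_le_right _ _)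
        have hδ3 : δ ≤ u := min_le_right _ _
        have hr0 : 0 ≤ u - δ / 2 := by linarith
        have e1 : η u z = η (u - δ / 2) z' := h1 _ ⟨by linarith, by linarith⟩ hr0
        have e2 : η' u z = η' (u - δ / 2) z' := h1' _ ⟨by linarith, by linarith⟩ hr0
        rw [hc, hc', e1, e2]
        refine ih (u - δ / 2) z' hr0 (by linarith [hu.2]) ⟨u, by linarith, hu.2.trans hs1, hreach⟩ ?_
        have hlt : (S ∩ Set.Iic (u - δ / 2)).ncard < (S ∩ Set.Iic s).ncard := by
          apply Set.ncard_lt_ncard _ (hSf.inter_of_left _)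
          refine ⟨fun r hr5 => ⟨hr5.1, ?_⟩, fun hcon => ?_⟩
          · have h5 : r ≤ u - δ / 2 := hr5.2
            show r ≤ s
            linarith [hu.2]
          have huS : u ∈ S := Set.mem_biUnion (show z ∈ R from hT3 z (Reach.refl _ _))
            ⟨e, he, hue, hu.1, hu.2.trans hs1⟩
          have h2 : u ∈ S ∩ Set.Iic (u - δ / 2) := hcon ⟨huS, hu.2⟩
          have h3 : u ≤ u - δ / 2 := h2.2
          linarith
        omega
      · have hno : ∀ e : Edge, z = e.1 ∨ z = tgt e → ∀ u ∈ Set.Ioc 0 s, u ∉ ring e := by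
          intro e he u hu hue
          exact hne ⟨u, e, he, hue, hu⟩
        rw [p2_const h z le_rfl hno (s := s) (t := 0) ⟨hs0, le_rfl⟩ ⟨le_rfl, hs0⟩,
          p2_const h' z le_rfl hno (s := s) (t := 0) ⟨hs0, le_rfl⟩ ⟨le_rfl, hs0⟩, h0]
  exact key _ t x ht (by linarith) ⟨t + 1, by linarith, le_rfl, fun w hw => hw⟩ le_rfl

end TriX
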