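import Pool.Agent.EX.Spec2
import Pool.Agent.EX.T7

/-! Project EX (MP_68260e), module X1: the exploration along the ray is a stopping set. -/

set_option autoImplicit false

open MeasureTheory

namespace TriX

namespace X1

lemma adj_coord {u v : V} (h : Adj u v) : u.1 - 1 ≤ v.1 ∧ v.1 ≤ u.1 + 1 ∧ u.2 - 1 ≤ v.2 ∧
    v.2 ≤ u.2 + 1 := by
  unfold Adj at h
  omega

lemma mem_ball0 (r : ℤ) (v : V) : v ∈ Ball 0 r ↔ -r ≤ v.1 ∧ v.1 ≤ r ∧ -r ≤ v.2 ∧ v.2 ≤ r := by
  rw [t7_mem_ball]
  simp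

/-- consecutive sites of the ray are adjacent -/
lemma ray_adj {s N : ℕ} (hs : s < N) (k : ℕ) : Adj (ray s N k) (ray s N (k + 1)) := by
  have hN : 0 < N := by omega
  have h1 : s * k / N ≤ s * (k + 1) / N := Nat.div_le_div_right (by nlinarith)
  have h2 : s * (k + 1) / N ≤ s * k / N + 1 := by
    rw [← Nat.add_div_right _ hN]
    apply Nat.div_le_div_right
    nlinarith
  unfold Adj ray
  simp only
  have h3 : s * (k + 1) / N = s * k / N ∨ s * (k + 1) / N = s * k / N + 1 := by omega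
  rcases h3 with h3 | h3
  · left
    rw [h3]
    exact ⟨Nat.cast_succ k, rfl⟩
  · right; right; right; right; left
    rw [h3]
    refine ⟨Nat.cast_succ k, ?_⟩
    rw [Nat.cast_succ]
    ring

lemma ray_bound {s N : ℕ} (hs : s < N) (k : ℕ) : s * k / N ≤ k := by
  have hN : 0 < N := by omega
  apply Nat.div_le_of_le_mul
  nlinarith

lemma ray_mem_ball {s N : ℕ} (hs : s < N) (k : ℕ) (R : ℤ) : ray s N k ∈ Ball 0 R ↔ (k : ℤ) ≤ R := by
  have h := ray_bound hs k
  have h' : ((s * k / N : ℕ) : ℤ) ≤ k := by exact_mod_cast h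
  have h0 : (0 : ℤ) ≤ ((s * k / N : ℕ) : ℤ) := Int.natCast_nonneg _
  have hk : (0 : ℤ) ≤ (k : ℤ) := Int.natCast_nonneg _
  rw [mem_ball0]
  unfold ray
  simp only
  constructor
  · intro h1
    exact h1.2.1
  · intro h1
    refine ⟨by linarith, h1, by linarith, by linarith⟩

lemma mem_ann0 (r R : ℤ) (v : V) : v ∈ Ann 0 r R ↔ v ∈ Ball 0 R ∧ v ∉ Ball 0 r := Iff.rfl

end X1

open X1 in
theorem x_loop (hb : S_bdry) (he : S_expl) (_h1 : S_armBasic) : S_loop := by
  intro s N r R k B B' hs hr hrk hkR hno hag hArm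
  have hk0 : 0 ≤ k := hr.trans hrk
  have hR0 : 0 ≤ R := hk0.trans hkR.le
  -- the outer cluster
  set A₀ := B ∩ Ann 0 k R with hA₀
  set O : Set V := {v | v ∉ Ball 0 R ∨ ∃ w u, Conn A₀ v w ∧ u ∉ Ball 0 R ∧ Adj w u} with hO
  have hOout : (Ball 0 R)ᶜ ⊆ O := fun v hv => Or.inl hv
  have hOann : ∀ v ∈ O, v ∈ Ball 0 R → v ∈ A₀ := by
    rintro v (h | ⟨w, u, h, _⟩) hv
    · exact absurd hv h
    · exact h.1
  have hOpre : PreConn O := by
    -- every vertex of `O` is joined inside `O` to a vertex outside of the ball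
    have key : ∀ v ∈ O, ∃ u, u ∉ Ball 0 R ∧ Conn O v u := by
      rintro v (h | ⟨w, u, h, hu, hwu⟩)
      · exact ⟨v, h, t7_conn_refl (Or.inl h)⟩
      · have hsub : ∀ x, Conn A₀ v x → x ∈ O := fun x hx =>
          Or.inr ⟨w, u, t7_conn_trans (t7_conn_symm hx) h, hu, hwu⟩
        have hc : Conn O v w := by
          refine ⟨hsub v (t7_conn_refl h.1), ?_⟩
          obtain ⟨h0, h2⟩ := h
          have : ∀ x, Relation.ReflTransGen (fun a b => Adj a b ∧ b ∈ A₀) v x →
              Relation.ReflTransGen (fun a b => Adj a b ∧ b ∈ O) v x := by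
            intro x hx
            induction hx with
            | refl => exact Relation.ReflTransGen.refl
            | tail h3 h4 ih => exact ih.tail ⟨h4.1, hsub _ ⟨h0, h3.tail h4⟩⟩
          exact this w h2
        exact ⟨u, hu, hc.1, hc.2.tail ⟨hwu, Or.inl hu⟩⟩
    intro v hv v' hv'
    obtain ⟨u, hu, huv⟩ := key v hv
    obtain ⟨u', hu', huv'⟩ := key v' hv'
    exact t7_conn_trans huv (t7_conn_trans (t7_conn_mono hOout (t7_out 0 R hR0 u hu u' hu'))
      (t7_conn_symm huv'))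
  -- the inner component
  have hBk : Ball 0 k ⊆ Oᶜ := by
    intro v hv hvO
    have hvR : v ∈ Ball 0 R := by
      rw [mem_ball0] at hv ⊢
      omega
    exact (hOann v hvO hvR).2.2 hv
  have h0k : (0 : V) ∈ Ball 0 k := by
    rw [mem_ball0]
    simp only [Prod.fst_zero, Prod.snd_zero]
    omega
  set I : Set V := {v | Conn Oᶜ 0 v} with hI
  have hBI : Ball 0 k ⊆ I := fun v hv => t7_conn_mono hBk (t7_ball 0 k 0 h0k v hv)
  have hIO : ∀ v ∈ I, v ∉ O := fun v hv => t7_conn_mem hv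
  have hIstep : ∀ u ∈ I, ∀ v, Adj u v → v ∈ O ∨ v ∈ I := by
    intro u hu v huv
    by_cases hv : v ∈ O
    · exact Or.inl hv
    · exact Or.inr ⟨hu.1, hu.2.tail ⟨huv, hv⟩⟩
  have hIpre : PreConn I := by
    have key : ∀ v ∈ I, Conn I 0 v := by
      rintro v ⟨h0, h2⟩
      refine ⟨t7_conn_refl h0, ?_⟩
      induction h2 with
      | refl => exact Relation.ReflTransGen.refl
      | tail h3 h4 ih => exact ih.tail ⟨h4.1, h0, h3.tail h4⟩
    intro v hv v' hv'
    exact t7_conn_trans (t7_conn_symm (key v hv)) (key v' hv')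
  have hdisj : Disjoint O I := by
    rw [Set.disjoint_left]
    intro v hv hv'
    exact hIO v hv' hv
  -- the inner ends of the cut are white sites of the annulus
  have hcut : ∀ z ∈ O, ∀ a ∈ I, Adj z a → a ∈ Ann 0 k R ∧ a ∉ B := by
    intro z hz a ha hza
    have haO := hIO a ha
    have haR : a ∈ Ball 0 R := by
      by_contra h
      exact haO (Or.inl h)
    have hak : a ∉ Ball 0 k := by
      intro hak
      -- then there is an arm of `B`
      have hzR : z ∈ Ball 0 R := by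
        have := adj_coord hza
        rw [mem_ball0] at hak ⊢
        omega
      rcases hz with h | ⟨w, u, h, hu, hwu⟩
      · exact h hzR
      · apply hno
        refine ⟨a, hak, u, hu, w, ?_, hwu⟩
        exact (Relation.ReflTransGen.single ⟨t7_symm hza, h.1⟩).trans h.2
    refine ⟨⟨haR, hak⟩, ?_⟩
    intro haB
    apply haO
    have haA : a ∈ A₀ := ⟨haB, haR, hak⟩
    rcases hz with h | ⟨w, u, h, hu, hwu⟩
    · exact Or.inr ⟨a, z, t7_conn_refl haA, h, t7_symm hza⟩
    · exact Or.inr ⟨w, u, ⟨haA, (Relation.ReflTransGen.single ⟨t7_symm hza, h.1⟩).trans h.2⟩, hu, hwu⟩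
  -- the explored set
  set S0 : Set V := {v | ∃ j : ℕ, k < (j : ℤ) ∧ (j : ℤ) ≤ R ∧ v = ray s N j} with hS0
  obtain ⟨hcl, _⟩ := he (Ann 0 r R) S0 (Ball 0 R)ᶜ ∅ B
  have hQ : Qk s N r R k B = Expl (Ann 0 r R) S0 (Ball 0 R)ᶜ ∅ B := rfl
  set Q := Expl (Ann 0 r R) S0 (Ball 0 R)ᶜ ∅ B with hQdef
  obtain ⟨hseed, hclose⟩ := hcl
  have hD : ∀ v, v ∈ Ann 0 k R → v ∈ Ann 0 r R := by
    intro v hv
    refine ⟨hv.1, fun h => hv.2 ?_⟩
    rw [mem_ball0] at h ⊢
    omega
  -- the ray crosses the cut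
  obtain ⟨kn, hkn⟩ := Int.eq_ofNat_of_zero_le hk0
  have hray : ∃ j : ℕ, k ≤ (j : ℤ) ∧ ray s N j ∈ I ∧ ray s N (j + 1) ∉ I := by
    by_contra hcon
    push Not at hcon
    have hall : ∀ m : ℕ, ray s N (kn + m) ∈ I := by
      intro m
      induction m with
      | zero =>
        apply hBI
        rw [add_zero, ray_mem_ball hs]
        omega
      | succ m ih => exact hcon (kn + m) (by push_cast; omega) ih
    obtain ⟨m, hm⟩ : ∃ m : ℕ, R < ((kn + m : ℕ) : ℤ) := by
      refine ⟨R.toNat + 1, ?_⟩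
      push_cast
      have := Int.toNat_of_nonneg hR0
      omega
    have h2 := hIO _ (hall m)
    apply h2
    left
    rw [ray_mem_ball hs]
    omega
  obtain ⟨j, hkj, hjI, hjI'⟩ := hray
  have hjO : ray s N (j + 1) ∈ O := by
    rcases hIstep _ hjI _ (ray_adj hs j) with h | h
    · exact h
    · exact absurd h hjI'
  have hadj0 : Adj (ray s N (j + 1)) (ray s N j) := t7_symm (ray_adj hs j)
  obtain ⟨hj1, hj2⟩ := hcut _ hjO _ hjI hadj0
  have hjR : (j : ℤ) ≤ R := (ray_mem_ball hs j R).1 hj1.1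
  have hjk : k < (j : ℤ) := by
    by_contra h
    exact hj1.2 ((ray_mem_ball hs j k).2 (by omega))
  have hjQ : ray s N j ∈ Q := hseed ⟨j, hjk, hjR, rfl⟩
  have hjQ' : ray s N (j + 1) ∉ Ball 0 R ∨ ray s N (j + 1) ∈ Q := by
    by_cases h : ray s N (j + 1) ∈ Ball 0 R
    · right
      apply hseed
      refine ⟨j + 1, by push_cast; omega, ?_, rfl⟩
      exact (ray_mem_ball hs (j + 1) R).1 h
    · exact Or.inl h
  -- the closure rule along the cut
  have hchain : ∀ f : V × V, Relation.ReflTransGen (CutStep O I) (ray s N (j + 1), ray s N j) f →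
      (f.1 ∈ O ∧ f.2 ∈ I ∧ Adj f.1 f.2) ∧ f.2 ∈ Q ∧ (f.1 ∉ Ball 0 R ∨ f.1 ∈ Q) := by
    intro f hf
    induction hf with
    | refl => exact ⟨⟨hjO, hjI, hadj0⟩, hjQ, hjQ'⟩
    | @tail e f _ h3 ih =>
      obtain ⟨⟨he1, he2, he3⟩, ih1, ih2⟩ := ih
      obtain ⟨⟨hf1, hf2, hf3⟩, h4⟩ := h3
      refine ⟨⟨hf1, hf2, hf3⟩, ?_⟩
      have hew := hcut _ he1 _ he2 he3
      have hfw := hcut _ hf1 _ hf2 hf3
      rcases h4 with ⟨h5, h6⟩ | ⟨h5, h6⟩
      · -- the outer end stays
        rw [← h5]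
        refine ⟨?_, ih2⟩
        apply hclose f.2 (hD _ hfw.1) e.1 e.2
        · rw [h5]; exact t7_symm hf3
        · exact t7_symm h6
        · rcases ih2 with h7 | h7
          · exact Or.inl h7
          · by_cases h8 : e.1 ∈ Ball 0 R
            · exact Or.inr ⟨h7, (hOann _ he1 h8).1⟩
            · exact Or.inl h8
        · exact Or.inr ⟨ih1, hew.2⟩
      · -- the inner end stays
        rw [← h5]
        refine ⟨ih1, ?_⟩
        by_cases h8 : f.1 ∈ Ball 0 R
        · right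
          apply hclose f.1 (hD _ (hOann _ hf1 h8).2) e.1 e.2
          · exact t7_symm h6
          · rw [h5]; exact hf3
          · rcases ih2 with h7 | h7
            · exact Or.inl h7
            · by_cases h9 : e.1 ∈ Ball 0 R
              · exact Or.inr ⟨h7, (hOann _ he1 h9).1⟩
              · exact Or.inl h9
          · exact Or.inr ⟨ih1, hew.2⟩
        · exact Or.inl h8
  have hends : ∀ z ∈ O, ∀ a ∈ I, Adj z a → a ∈ Q := by
    intro z hz a ha hza
    exact (hchain (z, a) (hb O I hOpre hIpre hdisj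
      hIstep _ hjO _ hjI z hz a ha hadj0 hza)).2.1
  -- no arm of `B'`
  obtain ⟨u, hu, v, hv, w, huw, hwv⟩ := hArm
  have hgood : ∀ x, Relation.ReflTransGen (fun a b => Adj a b ∧ b ∈ B' ∩ Ann 0 k R) u x →
      x ∈ I ∧ (x ∈ Ball 0 k ∨ x ∈ B' ∩ Ann 0 k R) := by
    intro x hx
    induction hx with
    | refl => exact ⟨hBI hu, Or.inl hu⟩
    | @tail x y _ h4 ih =>
      refine ⟨?_, Or.inr h4.2⟩
      rcases hIstep _ ih.1 _ h4.1 with h5 | h5
      · exfalso
        have h6 := hcut _ h5 _ ih.1 (t7_symm h4.1)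
        have h7 := hends _ h5 _ ih.1 (t7_symm h4.1)
        rcases ih.2 with h8 | h8
        · exact h6.1.2 h8
        · have h9 : x ∈ B' ∩ Qk s N r R k B := ⟨h8.1, h7⟩
          rw [← hag] at h9
          exact h6.2 h9.1
      · exact h5
  obtain ⟨g1, g2⟩ := hgood w huw
  have hvO : v ∈ O := Or.inl hv
  have h6 := hcut _ hvO _ g1 (t7_symm hwv)
  have h7 := hends _ hvO _ g1 (t7_symm hwv)
  rcases g2 with h8 | h8
  · exact h6.1.2 h8
  · have h9 : w ∈ B' ∩ Qk s N r R k B := ⟨h8.1, h7⟩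
    rw [← hag] at h9
    exact h6.2 h9.1

open X1 in
theorem x_QQstop (h : S_loop) (he : S_expl) (h1 : S_armBasic) : S_QQstop := by
  intro s N r R B B' hs hr hrR
  have hmono := h1.2.1
  constructor
  · rintro v ⟨k, hk1, hk2, _, hv⟩
    obtain ⟨_, hsub, _⟩ := he (Ann 0 r R) {v | ∃ j : ℕ, k < (j : ℤ) ∧ (j : ℤ) ≤ R ∧ v = ray s N j}
      (Ball 0 R)ᶜ ∅ B
    rcases hsub hv with h2 | ⟨j, h3, h4, rfl⟩
    · exact h2
    · refine ⟨(ray_mem_ball hs j R).2 h4, fun h5 => ?_⟩
      have := (ray_mem_ball hs j r).1 h5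
      omega
  · intro hag
    -- stopping property of one explored set
    have hstop : ∀ k, B ∩ Qk s N r R k B = B' ∩ Qk s N r R k B →
        Qk s N r R k B' = Qk s N r R k B := by
      intro k hk
      obtain ⟨_, _, h3, _⟩ := he (Ann 0 r R)
        {v | ∃ j : ℕ, k < (j : ℤ) ∧ (j : ℤ) ≤ R ∧ v = ray s N j} (Ball 0 R)ᶜ ∅ B
      exact h3 B' hk
    have hagk : ∀ k, r ≤ k → k < R → (k + 1 = R ∨ Arm 0 (k + 1) R B) →
        B ∩ Qk s N r R k B = B' ∩ Qk s N r R k B := by
      intro k hk1 hk2 hk3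
      have hsub : Qk s N r R k B ⊆ QQ s N r R B := fun v hv => ⟨k, hk1, hk2, hk3, hv⟩
      ext v
      constructor
      · rintro ⟨h2, h3⟩
        have h4 : v ∈ B ∩ QQ s N r R B := ⟨h2, hsub h3⟩
        rw [hag] at h4
        exact ⟨h4.1, h3⟩
      · rintro ⟨h2, h3⟩
        have h4 : v ∈ B' ∩ QQ s N r R B := ⟨h2, hsub h3⟩
        rw [← hag] at h4
        exact ⟨h4.1, h3⟩
    -- the arm events agree at admissible radii
    have harm : ∀ k, r ≤ k → k < R → (k + 1 = R ∨ Arm 0 (k + 1) R B) →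
        (Arm 0 k R B ↔ Arm 0 k R B') := by
      intro k hk1 hk2 hk3
      have h2 := hagk k hk1 hk2 hk3
      have h3 := hstop k h2
      constructor
      · intro h4
        by_contra h5
        refine h s N r R k B' B hs hr hk1 hk2 h5 ?_ h4
        rw [h3]
        exact h2.symm
      · intro h4
        by_contra h5
        exact h s N r R k B B' hs hr hk1 hk2 h5 h2 h4
    -- downward induction
    have hadm : ∀ m : ℕ, r ≤ R - 1 - m → ((R - 1 - m) + 1 = R ∨ Arm 0 ((R - 1 - m) + 1) R B ↔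
        (R - 1 - m) + 1 = R ∨ Arm 0 ((R - 1 - m) + 1) R B') := by
      intro m
      induction m with
      | zero =>
        intro _
        have : R - 1 - ((0 : ℕ) : ℤ) + 1 = R := by push_cast; ring
        simp only [this, true_or]
      | succ m ih =>
        intro hm
        push_cast at hm ih ⊢
        have ih' := ih (by omega)
        have e1 : R - 1 - ((m : ℤ) + 1) + 1 = R - 1 - m := by ring
        rw [e1]
        by_cases had : (R - 1 - (m : ℤ)) + 1 = R ∨ Arm 0 ((R - 1 - (m : ℤ)) + 1) R B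
        · rw [harm (R - 1 - m) (by omega) (by omega) had]
        · have had' := fun h2 => had (ih'.2 h2)
          push Not at had
          have n1 : ¬ Arm 0 (R - 1 - (m : ℤ)) R B := fun h2 =>
            had.2 (hmono 0 _ R _ R B (by omega) (by omega) le_rfl (by omega) h2)
          have n2 : ¬ Arm 0 (R - 1 - (m : ℤ)) R B' := fun h2 =>
            had' (Or.inr (hmono 0 _ R _ R B' (by omega) (by omega) le_rfl (by omega) h2))
          simp only [n1, n2]
    have hadm' : ∀ k, r ≤ k → k < R → (k + 1 = R ∨ Arm 0 (k + 1) R B ↔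
        k + 1 = R ∨ Arm 0 (k + 1) R B') := by
      intro k hk1 hk2
      obtain ⟨m, hm⟩ := Int.eq_ofNat_of_zero_le (show 0 ≤ R - 1 - k by omega)
      have h2 := hadm m (by omega)
      have e1 : R - 1 - (m : ℤ) = k := by omega
      rwa [e1] at h2
    constructor
    · ext v
      constructor
      · rintro ⟨k, hk1, hk2, hk3, hv⟩
        have hk3' := (hadm' k hk1 hk2).2 hk3
        refine ⟨k, hk1, hk2, hk3', ?_⟩
        rwa [hstop k (hagk k hk1 hk2 hk3')] at hv
      · rintro ⟨k, hk1, hk2, hk3, hv⟩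
        refine ⟨k, hk1, hk2, (hadm' k hk1 hk2).1 hk3, ?_⟩
        rwa [hstop k (hagk k hk1 hk2 hk3)]
    · by_cases had : r + 1 = R ∨ Arm 0 (r + 1) R B
      · exact harm r le_rfl hrR had
      · have had' := fun h2 => had ((hadm' r le_rfl hrR).2 h2)
        push Not at had
        have n1 : ¬ Arm 0 r R B := fun h2 =>
          had.2 (hmono 0 _ R _ R B (by omega) (by omega) le_rfl hr h2)
        have n2 : ¬ Arm 0 r R B' := fun h2 =>
          had' (Or.inr (hmono 0 _ R _ R B' (by omega) (by omega) le_rfl hr h2))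
        simp only [n1, n2]

end TriX
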