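import Pool.Agent.EX.Spec2

/-! X3: arms from an explored site. -/

namespace TriX

/-- One step followed by a connection inside `S` is a `Via` path. -/
theorem x3_via_conn {S : Set V} {x z s : V} (h : Adj x z) (hc : Conn S z s) : Via S x s := by
  have ht : Relation.TransGen (fun a b => Adj a b ∧ b ∈ S) x s :=
    Relation.TransGen.head' (b := z) ⟨h, hc.1⟩ hc.2
  obtain ⟨w, hw, hws⟩ := Relation.TransGen.tail'_iff.1 ht
  exact ⟨w, hw, hws.1⟩

theorem x3_via_conn_step {S : Set V} {x z s t : V} (h : Adj x z) (hc : Conn S z s)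
    (hs : Adj s t) : Via S x t :=
  ⟨s, Relation.ReflTransGen.head ⟨h, hc.1⟩ hc.2, hs⟩

theorem x3_via_step {S : Set V} {x z : V} (h : Adj x z) : Via S x z :=
  ⟨x, Relation.ReflTransGen.refl, h⟩

theorem x3_conn_mono {S S' : Set V} (hS : S ⊆ S') {u v : V} (h : Conn S u v) : Conn S' u v :=
  ⟨hS h.1, Relation.ReflTransGen.mono (fun _ _ hab => ⟨hab.1, hS hab.2⟩) _ _ h.2⟩

/-- The sites of the ray outside of `Ball 0 k` are not in `Ball 0 k`. -/
theorem x3_ray_not {s N j : ℕ} {k : ℤ} (hk : k < (j : ℤ)) : ray s N j ∉ Ball 0 k := by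
  intro h
  have h1 := h.1
  simp only [ray, Prod.fst_zero, sub_zero] at h1
  rw [abs_of_nonneg (by positivity)] at h1
  omega

/-- The chains of an explored site. -/
theorem x3_chains (he : S_expl) {s N : ℕ} {r R k : ℤ} {B : Set V} {x : V} {Bl : Set V}
    (hx : x ∈ Qk s N r R k B)
    (hseed : ∀ j : ℕ, k < (j : ℤ) → ray s N j ∉ Bl) (hout : Bl ⊆ Ball 0 R) (hxB : x ∈ Bl) :
    (∃ v, v ∉ Bl ∧ Via B x v) ∧ (∃ v, v ∉ Bl ∧ Via Bᶜ x v) := by
  obtain ⟨-, -, -, -, h5, h6, h7⟩ := he (Ann 0 r R)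
    {v | ∃ j : ℕ, k < (j : ℤ) ∧ (j : ℤ) ≤ R ∧ v = ray s N j} (Ball 0 R)ᶜ ∅ B
  have hs : ∀ v, (v ∈ {v : V | ∃ j : ℕ, k < (j : ℤ) ∧ (j : ℤ) ≤ R ∧ v = ray s N j}) →
      v ∉ Bl := by
    rintro v ⟨j, hj, -, rfl⟩
    exact hseed j hj
  rcases h5 x hx with h | ⟨-, ⟨z, hz, hzz⟩, ⟨w, hw, hww⟩⟩
  · exact absurd hxB (hs x h)
  refine ⟨?_, ?_⟩
  · rcases hzz with hzK | hzE
    · exact ⟨z, fun hh => hzK (hout hh), x3_via_step hz⟩
    · obtain ⟨t, ht, htt⟩ := h6 z hzE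
      have ht' : Conn B z t := x3_conn_mono (fun _ h => h.2) ht
      rcases htt with h | ⟨q, hq, hqt⟩
      · exact ⟨t, hs t h, x3_via_conn hz ht'⟩
      · exact ⟨q, fun hh => hq (hout hh), x3_via_conn_step hz ht' hqt⟩
  · rcases hww with hwK | hwE
    · exact absurd hwK (Set.notMem_empty _)
    · obtain ⟨t, ht, htt⟩ := h7 w hwE
      have ht' : Conn Bᶜ w t := x3_conn_mono (fun _ h => h.2) ht
      rcases htt with h | ⟨q, hq, -⟩
      · exact ⟨t, hs t h, x3_via_conn hw ht'⟩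
      · exact absurd hq (Set.notMem_empty _)

theorem x_QQarms (he : S_expl) (h1 : S_armBasic) : S_QQarms := by
  intro s N r R B x hsN hr hrR hx
  obtain ⟨k, hrk, hkR, hkA, hxk⟩ := hx
  obtain ⟨-, hA2, hA3, -, -, -⟩ := h1
  refine ⟨?_, ?_⟩
  · intro δ hδ hray hsub
    have hxx : x ∈ Ball x δ := by
      simp only [Ball, Set.mem_ofPred_eq, sub_self, abs_zero]
      exact ⟨hδ, hδ⟩
    have hx0 : x ∈ Ball x 0 := by
      simp only [Ball, Set.mem_ofPred_eq, sub_self, abs_zero]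
      exact ⟨le_refl _, le_refl _⟩
    obtain ⟨⟨v, hv, hvV⟩, ⟨w, hw, hwV⟩⟩ := x3_chains he hxk (fun j _ => hray j) hsub hxx
    exact ⟨hA3 x 0 δ B x v hδ hx0 hv (Or.inr hvV), hA3 x 0 δ Bᶜ x w hδ hx0 hw (Or.inr hwV)⟩
  · intro m hm hmR hxm
    by_cases hkm : k + 1 ≤ m
    · left
      rcases hkA with h | h
      · omega
      · exact hA2 0 (k + 1) R m R B hkm hmR.le le_rfl (by omega) h
    · right
      have hmk : m ≤ k := by omega
      refine ⟨k, hmk, hkR, ?_, hkA⟩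
      have hsub : Ball 0 k ⊆ Ball (0 : V) R := by
        intro v hv
        exact ⟨hv.1.trans hkR.le, hv.2.trans hkR.le⟩
      have hxk' : x ∈ Ball 0 k := ⟨hxm.1.trans hmk, hxm.2.trans hmk⟩
      obtain ⟨⟨v, hv, hvV⟩, ⟨w, hw, hwV⟩⟩ :=
        x3_chains he hxk (fun j hj => x3_ray_not hj) hsub hxk'
      exact ⟨hA3 0 m k B x v hmk hxm hv (Or.inr hvV), hA3 0 m k Bᶜ x w hmk hxm hw (Or.inr hwV)⟩

end TriX
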