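import Pool.Agent.EX.Spec2

/-! Project EX, module X4: the probability that a site is explored (`S_revealPt`) and the
number of rays passing close to a site (`S_rayCount`). -/

open MeasureTheory

namespace TriX

/-- Union bound over a range. -/
theorem x4_union (hb : S_PrBasic) (f : ℕ → Set V → Prop) (n : ℕ) :
    Pr (fun B => ∃ i < n, f i B) ≤ ∑ i ∈ Finset.range n, Pr (f i) := by
  induction n with
  | zero =>
    have h : (fun B : Set V => ∃ i < 0, f i B) = fun _ => False := by funext B; simp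
    rw [h]; simp [Pr]
  | succ n ih =>
    rw [Finset.sum_range_succ]
    have hor := (hb V (fun B => ∃ i < n, f i B) (f n)).2.2.2.1
    have hm := (hb V (fun B => ∃ i < n + 1, f i B)
      (fun B => (∃ i < n, f i B) ∨ f n B)).2.2.1 (by
        rintro B ⟨i, hi, h⟩
        rcases Nat.lt_succ_iff_lt_or_eq.1 hi with h' | rfl
        · exact Or.inl ⟨i, h', h⟩
        · exact Or.inr h)
    linarith

theorem x4_compl_inter {B B' S : Set V} (h : B ∩ S = B' ∩ S) : Bᶜ ∩ S = B'ᶜ ∩ S := by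
  ext v
  have hv : v ∈ B ∩ S ↔ v ∈ B' ∩ S := by rw [h]
  simp only [Set.mem_inter_iff, Set.mem_compl_iff] at hv ⊢
  tauto

theorem x4_dep_arm2 (h1 : S_armBasic) (c : V) (r R : ℤ) :
    DepOn (Arm2 c r R) (Ann c r R) := by
  intro B B' h
  have h2 := (h1.1 c r R).2.1
  have e1 : Arm c r R B = Arm c r R B' := h2 B B' h
  have e2 : Arm c r R Bᶜ = Arm c r R B'ᶜ := h2 _ _ (x4_compl_inter h)
  unfold Arm2
  rw [e1, e2]

/-- Independence of events which depend on disjoint finite sets. -/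
theorem x4_indep (hi : S_PrIndep) (f g : Set V → Prop) (S S' : Set V) (hS : S.Finite)
    (hS' : S'.Finite) (hf : DepOn f S) (hg : DepOn g S') (hd : Disjoint S S') :
    Pr (fun B => f B ∧ g B) = Pr f * Pr g := by
  refine hi V f g hS.toFinset hS'.toFinset (by simpa using hf) (by simpa using hg) ?_
  exact (Set.Finite.disjoint_toFinset).2 hd

theorem x4_ball_mono {c : V} {r R : ℤ} (h : r ≤ R) : Ball c r ⊆ Ball c R :=
  fun _ hv => ⟨hv.1.trans h, hv.2.trans h⟩

theorem x4_disj {c : V} {r a b R : ℤ} (h : a ≤ b) : Disjoint (Ann c r a) (Ann c b R) := by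
  rw [Set.disjoint_left]
  rintro v ⟨h1, _⟩ ⟨_, h2⟩
  exact h2 (x4_ball_mono h h1)

/-- The event that `x` is explored, seen from far. -/
def x4G (m R : ℤ) (B : Set V) : Prop :=
  Arm 0 m R B ∨ ∃ k : ℤ, m ≤ k ∧ k < R ∧ Arm2 0 m k B ∧ (k + 1 = R ∨ Arm 0 (k + 1) R B)

theorem x4G_dep (h1 : S_armBasic) (m R : ℤ) : DepOn (x4G m R) (Ann 0 m R) := by
  intro B B' h
  have e1 : Arm 0 m R B = Arm 0 m R B' := (h1.1 0 m R).2.1 B B' h
  have sub : ∀ k, m ≤ k → k < R → Ann 0 m k ⊆ Ann (0 : V) m R := fun k h1 h2 v hv =>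
    ⟨x4_ball_mono h2.le hv.1, hv.2⟩
  have sub2 : ∀ k, m ≤ k → k < R → Ann 0 (k + 1) R ⊆ Ann (0 : V) m R := fun k h1 h2 v hv =>
    ⟨hv.1, fun h => hv.2 (x4_ball_mono (by linarith) h)⟩
  have restr : ∀ S : Set V, S ⊆ Ann 0 m R → B ∩ S = B' ∩ S := by
    intro S hS
    have : B ∩ S = (B ∩ Ann 0 m R) ∩ S := by
      rw [Set.inter_assoc, Set.inter_eq_self_of_subset_right hS]
    rw [this, h, Set.inter_assoc, Set.inter_eq_self_of_subset_right hS]
  have e2 : ∀ k, m ≤ k → k < R → Arm2 0 m k B = Arm2 0 m k B' := fun k hk hk' =>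
    x4_dep_arm2 h1 0 m k B B' (restr _ (sub k hk hk'))
  have e3 : ∀ k, m ≤ k → k < R → Arm 0 (k + 1) R B = Arm 0 (k + 1) R B' := fun k hk hk' =>
    (h1.1 0 (k + 1) R).2.1 B B' (restr _ (sub2 k hk hk'))
  apply propext
  unfold x4G
  rw [e1]
  constructor
  · rintro (h | ⟨k, hk, hk', ha, hb⟩)
    · exact Or.inl h
    · exact Or.inr ⟨k, hk, hk', by rwa [← e2 k hk hk'], by rwa [← e3 k hk hk']⟩
  · rintro (h | ⟨k, hk, hk', ha, hb⟩)
    · exact Or.inl h
    · exact Or.inr ⟨k, hk, hk', by rwa [e2 k hk hk'], by rwa [e3 k hk hk']⟩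

theorem x4_exists_dyadic (m k : ℤ) (hm : 1 ≤ m) (hk : m ≤ k) :
    ∃ i : ℕ, m * 2 ^ i ≤ k ∧ k + 1 ≤ m * 2 ^ (i + 1) := by
  obtain ⟨n, hn⟩ : ∃ n : ℕ, k < m * 2 ^ n := by
    refine ⟨k.toNat, ?_⟩
    have h1 : (k.toNat : ℤ) < 2 ^ k.toNat := by exact_mod_cast Nat.lt_two_pow_self
    have h2 : (k.toNat : ℤ) = k := Int.toNat_of_nonneg (by linarith)
    nlinarith
  have hex : ∃ n : ℕ, k < m * 2 ^ n := ⟨n, hn⟩
  classical
  set n0 := Nat.find hex with hn0
  have h0 : k < m * 2 ^ n0 := Nat.find_spec hex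
  have hpos : n0 ≠ 0 := by
    intro h
    rw [h] at h0
    simp at h0
    linarith
  obtain ⟨i, hi⟩ := Nat.exists_eq_succ_of_ne_zero hpos
  refine ⟨i, ?_, ?_⟩
  · have := Nat.find_min hex (m := i) (by omega)
    linarith
  · rw [Nat.succ_eq_add_one] at hi
    rw [hi] at h0
    linarith

theorem x4_G (ha : S_arms) (hq : S_QM) (hl : S_alLow) (hi : S_PrIndep) (hb : S_PrBasic)
    (h1 : S_armBasic) : ∃ C : ℝ, 0 < C ∧ ∀ m R : ℤ, 1 ≤ m → m < R →
      Pr (x4G m R) ≤ C * al m R := by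
  obtain ⟨ε, C, hε, hε1, hC, hwb, -⟩ := ha
  obtain ⟨hal, hqm1, cq, hcq, hqm⟩ := hq
  obtain ⟨c2, hc2, hlow⟩ := hl 2
  -- constants
  set ρ : ℝ := (1 / 2 : ℝ) ^ ε with hρ
  have hρ0 : 0 < ρ := Real.rpow_pos_of_pos (by norm_num) _
  have hρ1 : ρ < 1 := Real.rpow_lt_one (by norm_num) (by norm_num) hε
  set A : ℝ := max (C * 2 ^ ε) (1 / c2) with hA
  have hA0 : 0 < A := lt_max_of_lt_right (by positivity)
  -- two arms at dyadic scales
  have hwb2 : ∀ m : ℤ, 1 ≤ m → ∀ i : ℕ, wb m (m * 2 ^ i) ≤ A * ρ ^ i * al m (m * 2 ^ i) := by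
    intro m hm i
    rcases Nat.eq_zero_or_pos i with rfl | hi0
    · simp only [pow_zero, mul_one]
      have hw1 : wb m m ≤ 1 := (hb V (Arm2 0 m m) (Arm2 0 m m)).2.1
      have hl1 := hlow m m (by linarith) le_rfl (by push_cast; linarith)
      have h3 : 1 / c2 ≤ A := le_max_right _ _
      calc wb m m ≤ 1 := hw1
        _ = 1 / c2 * c2 := by field_simp
        _ ≤ A * al m m := mul_le_mul h3 hl1 hc2.le hA0.le
    · have h2i : (2 : ℤ) ≤ 2 ^ i := by
        calc (2 : ℤ) = 2 ^ 1 := by norm_num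
          _ ≤ 2 ^ i := pow_le_pow_right₀ (by norm_num) hi0
      have hlt : m < m * 2 ^ i := by nlinarith
      have h := hwb m (m * 2 ^ i) (by linarith) hlt
      obtain ⟨hp, hle⟩ := hal m (m * 2 ^ i) (by linarith) hlt.le
      have hmR : (1 : ℝ) ≤ m := by exact_mod_cast hm
      have hbase : (((m : ℝ) + 1) / ((m * 2 ^ i : ℤ) : ℝ)) ≤ 2 * (1 / 2 : ℝ) ^ i := by
        push_cast
        rw [div_le_iff₀ (by positivity)]
        have : 2 * (1 / 2 : ℝ) ^ i * (m * 2 ^ i) = 2 * m := by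
          rw [one_div, inv_pow]; field_simp
        rw [this]; linarith
      have hpow : (((m : ℝ) + 1) / ((m * 2 ^ i : ℤ) : ℝ)) ^ ε ≤ 2 ^ ε * ρ ^ i := by
        calc (((m : ℝ) + 1) / ((m * 2 ^ i : ℤ) : ℝ)) ^ ε
            ≤ (2 * (1 / 2 : ℝ) ^ i) ^ ε := by
              apply Real.rpow_le_rpow _ hbase hε.le
              push_cast
              positivity
          _ = 2 ^ ε * ((1 / 2 : ℝ) ^ i) ^ ε := Real.mul_rpow (by norm_num) (by positivity)
          _ = 2 ^ ε * ρ ^ i := by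
              rw [hρ, ← Real.rpow_natCast, ← Real.rpow_natCast, ← Real.rpow_mul (by norm_num),
                ← Real.rpow_mul (by norm_num), mul_comm (i : ℝ) ε]
      calc wb m (m * 2 ^ i) ≤ C * (((m : ℝ) + 1) / ((m * 2 ^ i : ℤ) : ℝ)) ^ ε *
            al m (m * 2 ^ i) ^ 2 := h
        _ ≤ C * (2 ^ ε * ρ ^ i) * al m (m * 2 ^ i) := by
            apply mul_le_mul
            · exact mul_le_mul_of_nonneg_left hpow hC.le
            · nlinarith
            · positivity
            · positivity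
        _ = (C * 2 ^ ε) * (ρ ^ i * al m (m * 2 ^ i)) := by ring
        _ ≤ A * (ρ ^ i * al m (m * 2 ^ i)) :=
            mul_le_mul_of_nonneg_right (le_max_left _ _) (by positivity)
        _ = A * ρ ^ i * al m (m * 2 ^ i) := by ring
  -- one dyadic block
  have hterm : ∀ m R : ℤ, 1 ≤ m → m < R → ∀ i : ℕ, m * 2 ^ i < R →
      Pr (fun B => Arm2 0 m (m * 2 ^ i) B ∧ Arm 0 (min (m * 2 ^ (i + 1)) R) R B) ≤
        (A / (c2 * cq ^ 2)) * al m R * ρ ^ i := by
    intro m R hm hmR i hiR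
    have hle2 : m * 2 ^ i ≤ min (m * 2 ^ (i + 1)) R := by
      apply le_min _ hiR.le
      rw [pow_succ]; nlinarith [pow_pos (show (0 : ℤ) < 2 by norm_num) i]
    have hm2 : m ≤ m * 2 ^ i := by
      nlinarith [one_le_pow₀ (show (1 : ℤ) ≤ 2 by norm_num) (n := i)]
    rw [x4_indep hi _ _ _ _ (h1.1 0 m (m * 2 ^ i)).2.2.1
      (h1.1 0 (min (m * 2 ^ (i + 1)) R) R).2.2.1 (x4_dep_arm2 h1 _ _ _) (h1.1 _ _ _).2.1
      (x4_disj hle2)]
    rw [(h1.2.2.2.1 0 m (m * 2 ^ i)).2.2, (h1.2.2.2.1 0 _ R).1]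
    set b : ℤ := min (m * 2 ^ (i + 1)) R with hb'
    have hbR : b ≤ R := min_le_right _ _
    have hlow2 := hlow (m * 2 ^ i) b (by linarith) hle2 (by
      push_cast
      have : b ≤ m * 2 ^ (i + 1) := min_le_left _ _
      rw [pow_succ] at this
      linarith)
    have q1 := hqm m (m * 2 ^ i) b (by linarith) hm2 hle2
    have q2 := hqm m b R (by linarith) (by linarith) hbR
    obtain ⟨p1, -⟩ := hal m (m * 2 ^ i) (by linarith) hm2
    obtain ⟨p2, -⟩ := hal b R (by linarith) hbR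
    obtain ⟨p3, -⟩ := hal m R (by linarith) hmR.le
    have key : c2 * cq ^ 2 * (al m (m * 2 ^ i) * al b R) ≤ al m R := by
      have s1 : cq * (al m (m * 2 ^ i) * c2) ≤ al m b :=
        (mul_le_mul_of_nonneg_left (mul_le_mul_of_nonneg_left hlow2 p1.le) hcq.le).trans q1
      calc c2 * cq ^ 2 * (al m (m * 2 ^ i) * al b R)
          = cq * ((cq * (al m (m * 2 ^ i) * c2)) * al b R) := by ring
        _ ≤ cq * (al m b * al b R) :=
            mul_le_mul_of_nonneg_left (mul_le_mul_of_nonneg_right s1 p2.le) hcq.le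
        _ ≤ al m R := q2
    calc wb m (m * 2 ^ i) * al b R ≤ (A * ρ ^ i * al m (m * 2 ^ i)) * al b R :=
          mul_le_mul_of_nonneg_right (hwb2 m hm i) p2.le
      _ = (A / (c2 * cq ^ 2)) * ρ ^ i * (c2 * cq ^ 2 * (al m (m * 2 ^ i) * al b R)) := by
          field_simp
      _ ≤ (A / (c2 * cq ^ 2)) * ρ ^ i * al m R :=
          mul_le_mul_of_nonneg_left key (by positivity)
      _ = (A / (c2 * cq ^ 2)) * al m R * ρ ^ i := by ring
  refine ⟨1 + (A / (c2 * cq ^ 2)) * (1 - ρ)⁻¹, ?_, ?_⟩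
  · have : 0 < (1 - ρ)⁻¹ := inv_pos.2 (by linarith)
    positivity
  intro m R hm hmR
  obtain ⟨pR, -⟩ := hal m R (by linarith) hmR.le
  set n : ℕ := R.toNat + 1 with hn
  -- inclusion
  have hincl : ∀ B, x4G m R B → Arm 0 m R B ∨ ∃ i < n, (m * 2 ^ i < R ∧
      (Arm2 0 m (m * 2 ^ i) B ∧ Arm 0 (min (m * 2 ^ (i + 1)) R) R B)) := by
    rintro B (h | ⟨k, hk, hkR, h2, h3⟩)
    · exact Or.inl h
    · right
      obtain ⟨i, hi1, hi2⟩ := x4_exists_dyadic m k hm hk
      have hiR : m * 2 ^ i < R := by linarith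
      refine ⟨i, ?_, hiR, ⟨?_, ?_⟩, ?_⟩
      · have h5 : (i : ℤ) < 2 ^ i := by exact_mod_cast Nat.lt_two_pow_self
        have h6 : (i : ℤ) < R := by nlinarith
        omega
      · exact h1.2.1 0 m k m (m * 2 ^ i) B le_rfl
          (by nlinarith [one_le_pow₀ (show (1 : ℤ) ≤ 2 by norm_num) (n := i)]) hi1
          (by linarith) h2.1
      · exact h1.2.1 0 m k m (m * 2 ^ i) Bᶜ le_rfl
          (by nlinarith [one_le_pow₀ (show (1 : ℤ) ≤ 2 by norm_num) (n := i)]) hi1
          (by linarith) h2.2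
      · rcases h3 with h3 | h3
        · have : min (m * 2 ^ (i + 1)) R = R := min_eq_right (by linarith)
          rw [this]
          exact h1.2.2.2.2.2 0 R B (by linarith)
        · exact h1.2.1 0 (k + 1) R _ R B (le_min hi2 (by linarith)) (min_le_right _ _) le_rfl
            (by linarith) h3
  have s1 := (hb V (x4G m R) _).2.2.1 hincl
  have s2 := (hb V (Arm 0 m R) (fun B => ∃ i < n, (m * 2 ^ i < R ∧
      (Arm2 0 m (m * 2 ^ i) B ∧ Arm 0 (min (m * 2 ^ (i + 1)) R) R B)))).2.2.2.1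
  have s3 := x4_union hb (fun i B => (m * 2 ^ i < R ∧
      (Arm2 0 m (m * 2 ^ i) B ∧ Arm 0 (min (m * 2 ^ (i + 1)) R) R B))) n
  have s4 : ∑ i ∈ Finset.range n, Pr (fun B => (m * 2 ^ i < R ∧
      (Arm2 0 m (m * 2 ^ i) B ∧ Arm 0 (min (m * 2 ^ (i + 1)) R) R B))) ≤
      ∑ i ∈ Finset.range n, (A / (c2 * cq ^ 2)) * al m R * ρ ^ i := by
    apply Finset.sum_le_sum
    intro i _
    by_cases hiR : m * 2 ^ i < R
    · refine le_trans ?_ (hterm m R hm hmR i hiR)
      exact (hb V _ _).2.2.1 fun B h => h.2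
    · have : (fun B : Set V => (m * 2 ^ i < R ∧
          (Arm2 0 m (m * 2 ^ i) B ∧ Arm 0 (min (m * 2 ^ (i + 1)) R) R B))) =
          fun _ => False := by
        funext B
        simp [hiR]
      rw [this]
      have h0 : Pr (fun _ : Set V => False) = 0 := by simp [Pr]
      rw [h0]
      positivity
  have s5 : ∑ i ∈ Finset.range n, (A / (c2 * cq ^ 2)) * al m R * ρ ^ i ≤
      (A / (c2 * cq ^ 2)) * al m R * (1 - ρ)⁻¹ := by
    rw [← Finset.mul_sum]
    apply mul_le_mul_of_nonneg_left _ (by positivity)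
    have hg := (summable_geometric_of_lt_one hρ0.le hρ1).sum_le_tsum (Finset.range n)
      (fun i _ => by positivity)
    rwa [tsum_geometric_of_lt_one hρ0.le hρ1] at hg
  rw [(h1.2.2.2.1 0 m R).1] at s2
  calc Pr (x4G m R) ≤ al m R + (A / (c2 * cq ^ 2)) * al m R * (1 - ρ)⁻¹ := by linarith
    _ = (1 + (A / (c2 * cq ^ 2)) * (1 - ρ)⁻¹) * al m R := by ring

theorem x_revealPt (h3 : S_QQarms) (ha : S_arms) (hq : S_QM) (hl : S_alLow) (hi : S_PrIndep)
    (hb : S_PrBasic) (h1 : S_armBasic) (_h0 : S_QQstop) : S_revealPt := by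
  obtain ⟨C, hC, hG⟩ := x4_G ha hq hl hi hb h1
  obtain ⟨hal, -, cq, hcq, hqm⟩ := hq
  obtain ⟨c2, hc2, hlow⟩ := hl 2
  -- comparison of `al (2p) R` and `al p R`
  have hcmp : ∀ p R : ℤ, 1 ≤ p → 2 * p < R → al (2 * p) R ≤ (1 / (cq * c2)) * al p R := by
    intro p R hp hpR
    have q := hqm p (2 * p) R (by linarith) (by linarith) hpR.le
    have l := hlow p (2 * p) (by linarith) (by linarith) (by push_cast; linarith)
    obtain ⟨p2, -⟩ := hal (2 * p) R (by linarith) hpR.le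
    have : cq * (c2 * al (2 * p) R) ≤ al p R :=
      (mul_le_mul_of_nonneg_left (mul_le_mul_of_nonneg_right l p2.le) hcq.le).trans q
    rw [one_div, ← div_eq_inv_mul, le_div_iff₀ (by positivity)]
    linarith
  have hbig : ∀ p R : ℤ, 1 ≤ p → p ≤ R → ¬ 2 * p < R → 1 ≤ (1 / c2) * al p R := by
    intro p R hp hpR h
    have l := hlow p R (by linarith) hpR (by push_cast; linarith)
    rw [one_div, ← div_eq_inv_mul, le_div_iff₀ hc2]
    linarith
  set K : ℝ := C * (1 / (cq * c2)) + 1 / c2 with hK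
  have hK0 : 0 < K := by positivity
  refine ⟨K, hK0, ?_, ?_⟩
  · intro s N r R p δ x hs hr hrR hp hpR hx _ hδ hδp hray hball
    have hwb0 : 0 ≤ wb 0 δ := (hb V (Arm2 0 0 δ) (Arm2 0 0 δ)).1
    obtain ⟨hap, hap1⟩ := hal p R (by linarith) hpR
    by_cases h2 : 2 * p < R
    · have hx2 : x ∈ Ball 0 (2 * p) := x4_ball_mono (by linarith) hx
      have hsub : Ball x δ ⊆ Ball 0 (2 * p) := by
        intro v hv
        obtain ⟨hv1, hv2⟩ := hv
        obtain ⟨hx1', hx2'⟩ := hx
        simp only [Prod.fst_zero, Prod.snd_zero, sub_zero] at hx1' hx2'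
        constructor
        · simp only [Prod.fst_zero, sub_zero]
          rw [abs_le] at *
          constructor <;> linarith [hv1.1, hv1.2, hx1'.1, hx1'.2]
        · simp only [Prod.snd_zero, sub_zero]
          rw [abs_le] at *
          constructor <;> linarith [hv2.1, hv2.2, hx2'.1, hx2'.2]
      have hincl : ∀ B, x ∈ QQ s N r R B → Arm2 x 0 δ B ∧ x4G (2 * p) R B := fun B hB =>
        ⟨(h3 s N r R B x hs hr hrR hB).1 δ hδ hray hball,
          (h3 s N r R B x hs hr hrR hB).2 (2 * p) (by linarith) h2 hx2⟩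
      have s1 := (hb V (fun B => x ∈ QQ s N r R B) _).2.2.1 hincl
      have hfin : (Ann (0 : V) (2 * p) R).Finite := (h1.1 0 (2 * p) R).2.2.1
      have hdisj : Disjoint (Ann x 0 δ) (Ann 0 (2 * p) R) := by
        rw [Set.disjoint_left]
        rintro v ⟨hv, _⟩ ⟨_, hv'⟩
        exact hv' (hsub hv)
      rw [x4_indep hi _ _ _ _ (h1.1 x 0 δ).2.2.1 hfin (x4_dep_arm2 h1 _ _ _)
        (x4G_dep h1 _ _) hdisj, (h1.2.2.2.1 x 0 δ).2.2] at s1
      have s2 := hG (2 * p) R (by linarith) h2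
      have s3 := hcmp p R hp h2
      calc Pr (fun B => x ∈ QQ s N r R B) ≤ wb 0 δ * Pr (x4G (2 * p) R) := s1
        _ ≤ wb 0 δ * (C * (1 / (cq * c2) * al p R)) := by
            apply mul_le_mul_of_nonneg_left _ hwb0
            exact s2.trans (mul_le_mul_of_nonneg_left s3 hC.le)
        _ = (C * (1 / (cq * c2))) * (wb 0 δ * al p R) := by ring
        _ ≤ K * (wb 0 δ * al p R) := by
            apply mul_le_mul_of_nonneg_right _ (by positivity)
            rw [hK]
            have : 0 < 1 / c2 := by positivity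
            linarith
        _ = K * wb 0 δ * al p R := by ring
    · have hincl : ∀ B, x ∈ QQ s N r R B → Arm2 x 0 δ B := fun B hB =>
        (h3 s N r R B x hs hr hrR hB).1 δ hδ hray hball
      have s1 := (hb V (fun B => x ∈ QQ s N r R B) _).2.2.1 hincl
      rw [(h1.2.2.2.1 x 0 δ).2.2] at s1
      have s2 := hbig p R hp hpR h2
      calc Pr (fun B => x ∈ QQ s N r R B) ≤ wb 0 δ := s1
        _ = wb 0 δ * 1 := by ring
        _ ≤ wb 0 δ * (1 / c2 * al p R) := mul_le_mul_of_nonneg_left s2 hwb0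
        _ = (1 / c2) * (wb 0 δ * al p R) := by ring
        _ ≤ K * (wb 0 δ * al p R) := by
            apply mul_le_mul_of_nonneg_right _ (by positivity)
            rw [hK]
            have : 0 < C * (1 / (cq * c2)) := by positivity
            linarith
        _ = K * wb 0 δ * al p R := by ring
  · intro s N r R p x hs hr hrR hp hpR hx
    obtain ⟨hap, hap1⟩ := hal p R (by linarith) hpR
    by_cases h2 : 2 * p < R
    · have hx2 : x ∈ Ball 0 (2 * p) := x4_ball_mono (by linarith) hx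
      have hincl : ∀ B, x ∈ QQ s N r R B → x4G (2 * p) R B := fun B hB =>
        (h3 s N r R B x hs hr hrR hB).2 (2 * p) (by linarith) h2 hx2
      have s1 := (hb V (fun B => x ∈ QQ s N r R B) _).2.2.1 hincl
      have s2 := hG (2 * p) R (by linarith) h2
      have s3 := hcmp p R hp h2
      calc Pr (fun B => x ∈ QQ s N r R B) ≤ Pr (x4G (2 * p) R) := s1
        _ ≤ C * (1 / (cq * c2) * al p R) := s2.trans (mul_le_mul_of_nonneg_left s3 hC.le)
        _ = (C * (1 / (cq * c2))) * al p R := by ring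
        _ ≤ K * al p R := by
            apply mul_le_mul_of_nonneg_right _ hap.le
            rw [hK]
            have : 0 < 1 / c2 := by positivity
            linarith
    · have s1 : Pr (fun B => x ∈ QQ s N r R B) ≤ 1 :=
        (hb V (fun B => x ∈ QQ s N r R B) (fun _ => True)).2.1
      have s2 := hbig p R hp hpR h2
      calc Pr (fun B => x ∈ QQ s N r R B) ≤ 1 := s1
        _ ≤ 1 / c2 * al p R := s2
        _ ≤ K * al p R := by
            apply mul_le_mul_of_nonneg_right _ hap.le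
            rw [hK]
            have : 0 < C * (1 / (cq * c2)) := by positivity
            linarith

/-! ### Counting rays -/

theorem x4_count (S : Set ℕ) (X L : ℤ) (hX : 0 < X) (hL : 0 ≤ L) (a : ℤ)
    (h : ∀ s ∈ S, a ≤ (s : ℤ) * X ∧ (s : ℤ) * X ≤ a + L) :
    (S.ncard : ℝ) ≤ L / X + 1 := by
  have hLX : (0 : ℝ) ≤ (L : ℝ) / X := by
    have h1 : (0 : ℝ) ≤ L := by exact_mod_cast hL
    have h2 : (0 : ℝ) < X := by exact_mod_cast hX
    positivity
  rcases S.eq_empty_or_nonempty with rfl | hne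
  · simp only [Set.ncard_empty, Nat.cast_zero]
    linarith
  classical
  set s0 := sInf S with hs0
  have hs0m : s0 ∈ S := Nat.sInf_mem hne
  have hsub : S ⊆ (Finset.Icc s0 (s0 + (L / X).toNat) : Finset ℕ) := by
    intro s hs
    have hle : s0 ≤ s := Nat.sInf_le hs
    have h1 := (h s hs).2
    have h2 := (h s0 hs0m).1
    have h3 : ((s : ℤ) - s0) * X ≤ L := by linarith
    have h4 : (s : ℤ) - s0 ≤ L / X := (Int.le_ediv_iff_mul_le hX).2 h3
    simp only [Finset.coe_Icc, Set.mem_Icc]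
    omega
  have hcard := Set.ncard_le_ncard hsub (Finset.finite_toSet _)
  rw [Set.ncard_coe_finset, Nat.card_Icc] at hcard
  have h5 : (S.ncard : ℝ) ≤ ((L / X).toNat : ℝ) + 1 := by
    have : S.ncard ≤ (L / X).toNat + 1 := by omega
    exact_mod_cast this
  have h6 : ((L / X).toNat : ℝ) ≤ (L : ℝ) / X := by
    have h7 : 0 ≤ L / X := Int.ediv_nonneg hL hX.le
    have h8 : (((L / X).toNat : ℤ) : ℝ) = ((L / X : ℤ) : ℝ) := by
      rw [Int.toNat_of_nonneg h7]
    have h9 : ((L / X : ℤ) : ℝ) ≤ (L : ℝ) / X := by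
      have hXR : (0 : ℝ) < X := by exact_mod_cast hX
      rw [le_div_iff₀ hXR]
      exact_mod_cast Int.ediv_mul_le L hX.ne'
    have h10 : ((L / X).toNat : ℝ) = (((L / X).toNat : ℤ) : ℝ) := by push_cast; rfl
    rw [h10, h8]
    exact h9
  linarith

theorem x_rayCount : S_rayCount := by
  refine ⟨20, by norm_num, ?_⟩
  intro N p δ x hp hpN hx hδ
  have hpR : (1 : ℝ) ≤ p := by exact_mod_cast hp
  have hδR : (0 : ℝ) ≤ δ := by exact_mod_cast hδ
  have hNR : (p : ℝ) ≤ N := by exact_mod_cast hpN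
  have hN0 : 0 < N := by
    have : (0 : ℤ) < N := by linarith
    exact_mod_cast this
  set S : Set ℕ := {s : ℕ | s < N ∧ ∃ j : ℕ, ray s N j ∈ Ball x δ} with hS
  by_cases hbig : p ≤ 8 * δ
  · have h1 : S.ncard ≤ N := by
      have hsub : S ⊆ (Finset.range N : Finset ℕ) := by
        intro s hs
        simpa using hs.1
      have := Set.ncard_le_ncard hsub (Finset.finite_toSet _)
      rwa [Set.ncard_coe_finset, Finset.card_range] at this
    have h1' : (S.ncard : ℝ) ≤ N := by exact_mod_cast h1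
    have h2 : (1 : ℝ) ≤ 20 * (((δ : ℝ) + 1) / p) := by
      rw [← mul_div_assoc, le_div_iff₀ (by linarith)]
      have : (p : ℝ) ≤ 8 * δ := by exact_mod_cast hbig
      linarith
    have hN0' : (0 : ℝ) ≤ N := by positivity
    calc (S.ncard : ℝ) ≤ N := h1'
      _ = N * 1 := by ring
      _ ≤ N * (20 * (((δ : ℝ) + 1) / p)) := mul_le_mul_of_nonneg_left h2 hN0'
      _ = 20 * N * (((δ : ℝ) + 1) / p) := by ring
  · push Not at hbig
    rcases S.eq_empty_or_nonempty with he | ⟨s1, hs1⟩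
    · rw [he]
      simp only [Set.ncard_empty, Nat.cast_zero]
      positivity
    -- facts on a ray through the ball
    have fact : ∀ s ∈ S, ∃ j : ℕ, |(j : ℤ) - x.1| ≤ δ ∧ |((s * j / N : ℕ) : ℤ) + x.2| ≤ δ ∧
        ((s * j / N : ℕ) : ℤ) ≤ j ∧ (N : ℤ) * ((s * j / N : ℕ) : ℤ) ≤ s * j ∧
        (s : ℤ) * j < N * ((s * j / N : ℕ) : ℤ) + N := by
      rintro s ⟨hsN, j, hj⟩
      refine ⟨j, hj.1, ?_, ?_, ?_, ?_⟩
      · have := hj.2
        simp only [ray] at this
        rw [← abs_neg]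
        convert this using 2
        ring
      · have : s * j / N ≤ j := by
          calc s * j / N ≤ N * j / N := Nat.div_le_div_right (Nat.mul_le_mul_right _ hsN.le)
            _ = j := Nat.mul_div_cancel_left _ hN0
        exact_mod_cast this
      · exact_mod_cast Nat.mul_div_le (s * j) N
      · have := Nat.lt_mul_div_succ (s * j) hN0
        have h' : s * j < N * (s * j / N) + N := by
          calc s * j < N * (s * j / N + 1) := this
            _ = N * (s * j / N) + N := by ring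
        exact_mod_cast h'
    -- the first coordinate is large
    have hX : p ≤ 2 * x.1 := by
      obtain ⟨j, hj1, hj2, hj3, -, -⟩ := fact s1 hs1
      have hx' : p - 1 < |x.1| ∨ p - 1 < |x.2| := by
        by_contra hcon
        push Not at hcon
        exact hx ⟨by simpa using hcon.1, by simpa using hcon.2⟩
      rw [abs_le] at hj1 hj2
      have hj0 : (0 : ℤ) ≤ j := by positivity
      have hf0 : (0 : ℤ) ≤ ((s1 * j / N : ℕ) : ℤ) := by positivity
      rcases hx' with h | h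
      · rcases lt_abs.1 h with h' | h' <;> linarith [hj1.1, hj1.2]
      · rcases lt_abs.1 h with h' | h' <;> linarith [hj1.1, hj1.2, hj2.1, hj2.2]
    have hXpos : 0 < x.1 := by linarith
    have hcount := x4_count S x.1 (N * (4 * δ + 1)) hXpos (by positivity)
      (N * (-x.2 - 2 * δ)) (by
        intro s hs
        obtain ⟨j, hj1, hj2, -, hj4, hj5⟩ := fact s hs
        have hsN : (s : ℤ) < N := by exact_mod_cast hs.1
        have hs0 : (0 : ℤ) ≤ s := by positivity
        rw [abs_le] at hj1 hj2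
        have hNz : (0 : ℤ) < N := by exact_mod_cast hN0
        have e1 : (s : ℤ) * (x.1 - j) ≤ N * δ := by
          calc (s : ℤ) * (x.1 - j) ≤ s * δ := mul_le_mul_of_nonneg_left (by linarith [hj1.1]) hs0
            _ ≤ N * δ := mul_le_mul_of_nonneg_right hsN.le hδ
        have e2 : -(N * δ) ≤ (s : ℤ) * (x.1 - j) := by
          have : (s : ℤ) * (j - x.1) ≤ N * δ := by
            calc (s : ℤ) * (j - x.1) ≤ s * δ :=
                  mul_le_mul_of_nonneg_left (by linarith [hj1.2]) hs0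
              _ ≤ N * δ := mul_le_mul_of_nonneg_right hsN.le hδ
          linarith
        have e3 : (N : ℤ) * (-x.2 - δ) ≤ N * ((s * j / N : ℕ) : ℤ) :=
          mul_le_mul_of_nonneg_left (by linarith [hj2.1]) hNz.le
        have e4 : (N : ℤ) * ((s * j / N : ℕ) : ℤ) ≤ N * (-x.2 + δ) :=
          mul_le_mul_of_nonneg_left (by linarith [hj2.2]) hNz.le
        constructor <;> nlinarith)
    have hXR : (p : ℝ) ≤ 2 * (x.1 : ℝ) := by exact_mod_cast hX
    have hXR0 : (0 : ℝ) < x.1 := by exact_mod_cast hXpos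
    have h3 : (((N * (4 * δ + 1) : ℤ) : ℝ)) / (x.1 : ℝ) ≤ 8 * N * (((δ : ℝ) + 1) / p) := by
      push_cast
      rw [div_le_iff₀ hXR0]
      have hp0 : (0 : ℝ) < p := by linarith
      have : 8 * (N : ℝ) * (((δ : ℝ) + 1) / p) * x.1 =
          4 * N * (δ + 1) * ((2 * x.1) / p) := by
        field_simp
        ring
      rw [this]
      have h4 : 1 ≤ 2 * (x.1 : ℝ) / p := by
        rw [le_div_iff₀ hp0]; linarith
      have h5 : (N : ℝ) * (4 * δ + 1) ≤ 4 * N * (δ + 1) := by nlinarith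
      have h6 : 0 ≤ 4 * (N : ℝ) * (δ + 1) := by positivity
      nlinarith
    have h7 : (1 : ℝ) ≤ N * (((δ : ℝ) + 1) / p) := by
      rw [← mul_div_assoc, le_div_iff₀ (by linarith)]
      nlinarith
    have h8 : (0 : ℝ) ≤ N * (((δ : ℝ) + 1) / p) := by linarith
    calc (S.ncard : ℝ) ≤ ((N * (4 * δ + 1) : ℤ) : ℝ) / (x.1 : ℝ) + 1 := by exact_mod_cast hcount
      _ ≤ 8 * N * (((δ : ℝ) + 1) / p) + N * (((δ : ℝ) + 1) / p) := by linarith
      _ ≤ 20 * N * (((δ : ℝ) + 1) / p) := by linarith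

end TriX
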