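import Pool.Agent.EX.Spec2

/-! Project EX, module X6: the average probability that a site is explored. -/

open MeasureTheory

namespace TriX

namespace X6

/-- The sup norm. -/
def nrm (x : V) : ℕ := max x.1.natAbs x.2.natAbs

lemma mem_ball_iff (x : V) (m : ℤ) : x ∈ Ball 0 m ↔ (nrm x : ℤ) ≤ m := by
  unfold Ball nrm
  simp only [Set.mem_ofPred_eq, Prod.fst_zero, Prod.snd_zero, sub_zero, Nat.cast_max,
    Int.natCast_natAbs, sup_le_iff]

lemma ball_subset (x : V) (δ m : ℤ) (h : (nrm x : ℤ) + δ ≤ m) : Ball x δ ⊆ Ball 0 m := by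
  intro v hv
  have hx : x ∈ Ball 0 (nrm x : ℤ) := (mem_ball_iff x _).2 le_rfl
  unfold Ball at *
  simp only [Set.mem_ofPred_eq, Prod.fst_zero, Prod.snd_zero, sub_zero] at *
  obtain ⟨h1, h2⟩ := hv
  obtain ⟨h3, h4⟩ := hx
  rw [abs_le] at *
  exact ⟨⟨by linarith [h1.1, h3.1], by linarith [h1.2, h3.2]⟩,
    abs_le.2 ⟨by linarith [h2.1, h4.1], by linarith [h2.2, h4.2]⟩⟩

/-- The main analytic estimate. -/
lemma key {ε Ca cq : ℝ} (hε : 0 < ε) (hε1 : ε < 1) (hCa : 0 < Ca) (hcq : 0 < cq)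
    (hcq1 : cq ≤ 1)
    (ha1 : ∀ r R : ℤ, 0 ≤ r → r < R → wb r R ≤ Ca * (((r : ℝ) + 1) / R) ^ ε * al r R ^ 2)
    (ha2 : ∀ r R : ℤ, 0 ≤ r → r < R → (((r : ℝ) + 1) / R) ^ (1 - ε) ≤ Ca * al r R ^ 2)
    (hpos : ∀ r R : ℤ, 0 ≤ r → r ≤ R → 0 < al r R ∧ al r R ≤ 1)
    (hq : ∀ r1 r2 r3 : ℤ, 0 ≤ r1 → r1 ≤ r2 → r2 ≤ r3 →
      cq * (al r1 r2 * al r2 r3) ≤ al r1 r3)
    (hCa1 : 1 ≤ Ca) (D p : ℕ) (hD : 1 ≤ D) (hDp : D ≤ p) :
    (D : ℝ) / p * wb 0 D ≤ Ca ^ 2 / cq ^ 2 * ((1 : ℝ) / p) ^ ε * al 0 p ^ 2 := by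
  have hp1 : (1 : ℝ) ≤ p := by exact_mod_cast le_trans hD hDp
  have hD1 : (1 : ℝ) ≤ D := by exact_mod_cast hD
  have hp0 : (0 : ℝ) < p := by linarith
  have hD0 : (0 : ℝ) < D := by linarith
  have hw := ha1 0 D le_rfl (by exact_mod_cast hD)
  simp only [Int.cast_zero, zero_add, Int.cast_natCast] at hw
  rcases eq_or_lt_of_le hDp with h | h
  · subst h
    rw [div_self (ne_of_gt hD0), one_mul]
    refine hw.trans ?_
    have hc : Ca ≤ Ca ^ 2 / cq ^ 2 := by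
      rw [le_div_iff₀ (by positivity)]
      have : cq ^ 2 ≤ 1 := by nlinarith
      nlinarith
    have : 0 ≤ ((1 : ℝ) / D) ^ ε * al 0 D ^ 2 := by positivity
    calc Ca * ((1 : ℝ) / D) ^ ε * al 0 D ^ 2 = Ca * (((1 : ℝ) / D) ^ ε * al 0 D ^ 2) := by ring
      _ ≤ Ca ^ 2 / cq ^ 2 * (((1 : ℝ) / D) ^ ε * al 0 D ^ 2) :=
        mul_le_mul_of_nonneg_right hc this
      _ = _ := by ring
  · have h1 := ha2 D p (by positivity) (by exact_mod_cast h)
    simp only [Int.cast_natCast] at h1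
    have h2 := hq 0 D p le_rfl (by positivity) (by exact_mod_cast hDp)
    have h3 : ((D : ℝ) / p) ^ (1 - ε) ≤ Ca * al D p ^ 2 := by
      refine le_trans (Real.rpow_le_rpow (by positivity) ?_ (by linarith)) h1
      apply div_le_div_of_nonneg_right _ hp0.le
      linarith
    have hal := hpos 0 D le_rfl (by positivity)
    have hal2 := hpos D p (by positivity) (by exact_mod_cast hDp)
    have h4 : (cq * (al 0 D * al D p)) ^ 2 ≤ al 0 p ^ 2 :=
      pow_le_pow_left₀ (by have := hal.1; have := hal2.1; positivity) h2 2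
    have h5 : al 0 D ^ 2 * ((D : ℝ) / p) ^ (1 - ε) ≤ Ca / cq ^ 2 * al 0 p ^ 2 := by
      rw [div_mul_eq_mul_div, le_div_iff₀ (by positivity)]
      calc al 0 D ^ 2 * ((D : ℝ) / p) ^ (1 - ε) * cq ^ 2
          ≤ al 0 D ^ 2 * (Ca * al D p ^ 2) * cq ^ 2 := by gcongr
        _ = Ca * (cq * (al 0 D * al D p)) ^ 2 := by ring
        _ ≤ Ca * al 0 p ^ 2 := by gcongr
    have h6 : (D : ℝ) / p * ((1 : ℝ) / D) ^ ε =
        ((1 : ℝ) / p) ^ ε * ((D : ℝ) / p) ^ (1 - ε) := by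
      have e1 : (D : ℝ) / p = ((D : ℝ) / p) ^ ε * ((D : ℝ) / p) ^ (1 - ε) := by
        rw [← Real.rpow_add (by positivity)]
        simp
      have e2 : ((D : ℝ) / p) ^ ε * ((1 : ℝ) / D) ^ ε = ((1 : ℝ) / p) ^ ε := by
        rw [← Real.mul_rpow (by positivity) (by positivity)]
        congr 1
        field_simp
      calc (D : ℝ) / p * ((1 : ℝ) / D) ^ ε
          = ((D : ℝ) / p) ^ ε * ((D : ℝ) / p) ^ (1 - ε) * ((1 : ℝ) / D) ^ ε := by rw [← e1]
        _ = (((D : ℝ) / p) ^ ε * ((1 : ℝ) / D) ^ ε) * ((D : ℝ) / p) ^ (1 - ε) := by ring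
        _ = _ := by rw [e2]
    calc (D : ℝ) / p * wb 0 D
        ≤ (D : ℝ) / p * (Ca * ((1 : ℝ) / D) ^ ε * al 0 D ^ 2) :=
          mul_le_mul_of_nonneg_left hw (by positivity)
      _ = Ca * ((D : ℝ) / p * ((1 : ℝ) / D) ^ ε) * al 0 D ^ 2 := by ring
      _ = Ca * ((1 : ℝ) / p) ^ ε * (al 0 D ^ 2 * ((D : ℝ) / p) ^ (1 - ε)) := by
          rw [h6]; ring
      _ ≤ Ca * ((1 : ℝ) / p) ^ ε * (Ca / cq ^ 2 * al 0 p ^ 2) :=
          mul_le_mul_of_nonneg_left h5 (by positivity)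
      _ = _ := by ring

/-- The logarithm is absorbed. -/
lemma log_absorb {ε : ℝ} (hε : 0 < ε) : ∃ K : ℝ, 0 < K ∧ ∀ p : ℕ, 1 ≤ p →
    ((Nat.log 2 p : ℝ) + 2) * ((1 : ℝ) / p) ^ ε ≤ K * ((1 : ℝ) / p) ^ (ε / 2) := by
  have hl2 : 0 < Real.log 2 := Real.log_pos (by norm_num)
  refine ⟨1 / (ε / 2) / Real.log 2 + 2, by positivity, ?_⟩
  intro p hp
  have hp1 : (1 : ℝ) ≤ p := by exact_mod_cast hp
  have hp0 : (0 : ℝ) < p := by linarith
  have h1 : (Nat.log 2 p : ℝ) ≤ Real.log p / Real.log 2 := by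
    rw [le_div_iff₀ hl2]
    have : (2 : ℝ) ^ (Nat.log 2 p) ≤ p := by
      exact_mod_cast Nat.pow_log_le_self 2 (by omega)
    have h2 := Real.log_le_log (by positivity) this
    rwa [Real.log_pow] at h2
  have h2 : Real.log p ≤ (p : ℝ) ^ (ε / 2) / (ε / 2) :=
    Real.log_le_rpow_div hp0.le (by positivity)
  have h3 : ((1 : ℝ) / p) ^ ε = ((1 : ℝ) / p) ^ (ε / 2) * ((1 : ℝ) / p) ^ (ε / 2) := by
    rw [← Real.rpow_add (by positivity)]
    congr 1
    ring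
  have h4 : (p : ℝ) ^ (ε / 2) * ((1 : ℝ) / p) ^ (ε / 2) = 1 := by
    rw [← Real.mul_rpow (by positivity) (by positivity), mul_one_div_cancel (ne_of_gt hp0),
      Real.one_rpow]
  have h5 : ((1 : ℝ) / p) ^ (ε / 2) ≤ 1 := by
    apply Real.rpow_le_one (by positivity) _ (by positivity)
    rw [div_le_one hp0]
    exact hp1
  have h6 : 0 ≤ ((1 : ℝ) / p) ^ (ε / 2) := by positivity
  have h7 : ((Nat.log 2 p : ℝ) + 2) * ((1 : ℝ) / p) ^ (ε / 2) ≤
      1 / (ε / 2) / Real.log 2 + 2 := by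
    have h8 : (Nat.log 2 p : ℝ) ≤ (1 / (ε / 2) / Real.log 2) * (p : ℝ) ^ (ε / 2) := by
      refine h1.trans ?_
      calc Real.log p / Real.log 2 ≤ ((p : ℝ) ^ (ε / 2) / (ε / 2)) / Real.log 2 := by gcongr
        _ = _ := by ring
    calc ((Nat.log 2 p : ℝ) + 2) * ((1 : ℝ) / p) ^ (ε / 2)
        ≤ ((1 / (ε / 2) / Real.log 2) * (p : ℝ) ^ (ε / 2) + 2) * ((1 : ℝ) / p) ^ (ε / 2) := by
          gcongr
      _ = (1 / (ε / 2) / Real.log 2) * ((p : ℝ) ^ (ε / 2) * ((1 : ℝ) / p) ^ (ε / 2)) +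
          2 * ((1 : ℝ) / p) ^ (ε / 2) := by ring
      _ ≤ (1 / (ε / 2) / Real.log 2) * 1 + 2 * 1 := by rw [h4]; gcongr
      _ = _ := by ring
  rw [h3, ← mul_assoc]
  exact mul_le_mul_of_nonneg_right h7 h6

/-- The ray hits the ball of radius `2 ^ l` around `x`. -/
def Hit (N s : ℕ) (x : V) (l : ℕ) : Prop := ∃ j : ℕ, ray s N j ∈ Ball x ((2 ^ l : ℕ) : ℤ)

/-- The radius `2 ^ l` is not admissible. -/
def Bad (N s i : ℕ) (x : V) (l : ℕ) : Prop :=
  Hit N s x l ∨ 5 * i + 2 < nrm x + 2 ^ l ∨ nrm x < 2 ^ l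

/-- Pointwise bound of the probability. -/
lemma pointwise {C4 A : ℝ} (hC4 : 0 < C4) (hwb : ∀ D : ℤ, 0 ≤ wb 0 D)
    (N s i : ℕ) (x : V) (f : ℝ) (g : ℝ) (hA : 0 ≤ A) (hg : g ≤ A)
    (h1 : ∀ δ : ℤ, 0 ≤ δ → δ ≤ nrm x → (∀ j : ℕ, ray s N j ∉ Ball x δ) →
      Ball x δ ⊆ Ball 0 ((5 * i + 2 : ℕ) : ℤ) → f ≤ C4 * wb 0 δ * g)
    (h2 : f ≤ C4 * g) [∀ l, Decidable (Bad N s i x l)] :
    f ≤ C4 * A * ((if Bad N s i x 0 then 1 else 0) +
      ∑ l ∈ Finset.range (Nat.log 2 (nrm x) + 1),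
        (if Bad N s i x (l + 1) then 1 else 0) * wb 0 ((2 ^ l : ℕ) : ℤ)) := by
  classical
  have hnn : ∀ l ∈ Finset.range (Nat.log 2 (nrm x) + 1),
      0 ≤ (if Bad N s i x (l + 1) then (1 : ℝ) else 0) * wb 0 ((2 ^ l : ℕ) : ℤ) := by
    intro l _
    apply mul_nonneg _ (hwb _)
    split_ifs <;> norm_num
  by_cases h0 : Bad N s i x 0
  · rw [if_pos h0]
    calc f ≤ C4 * g := h2
      _ ≤ C4 * A := by gcongr
      _ = C4 * A * (1 + 0) := by ring
      _ ≤ _ := by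
        gcongr
        exact Finset.sum_nonneg hnn
  · rw [if_neg h0, zero_add]
    have hex : ∃ m, Bad N s i x m :=
      ⟨Nat.log 2 (nrm x) + 1, Or.inr (Or.inr (Nat.lt_pow_succ_log_self (by norm_num) _))⟩
    obtain ⟨m, hm, hmin⟩ : ∃ m, Bad N s i x m ∧ ∀ k < m, ¬ Bad N s i x k :=
      ⟨Nat.find hex, Nat.find_spec hex, fun k hk => Nat.find_min hex hk⟩
    have hm0 : m ≠ 0 := by
      rintro rfl
      exact h0 hm
    obtain ⟨l, rfl⟩ : ∃ l, m = l + 1 := ⟨m - 1, by omega⟩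
    have hgood := hmin l (by omega)
    have hl : l < Nat.log 2 (nrm x) + 1 := by
      by_contra hcon
      push Not at hcon
      exact hmin (Nat.log 2 (nrm x) + 1) (by omega)
        (Or.inr (Or.inr (Nat.lt_pow_succ_log_self (by norm_num) _)))
    unfold Bad at hgood
    push Not at hgood
    obtain ⟨g1, g2, g3⟩ := hgood
    have h3 := h1 ((2 ^ l : ℕ) : ℤ) (by positivity) (by exact_mod_cast g3)
      (fun j hj => g1 ⟨j, hj⟩) (ball_subset x _ _ (by exact_mod_cast g2))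
    calc f ≤ C4 * wb 0 ((2 ^ l : ℕ) : ℤ) * g := h3
      _ ≤ C4 * wb 0 ((2 ^ l : ℕ) : ℤ) * A := by
        apply mul_le_mul_of_nonneg_left hg (mul_nonneg hC4.le (hwb _))
      _ = C4 * A * ((if Bad N s i x (l + 1) then 1 else 0) * wb 0 ((2 ^ l : ℕ) : ℤ)) := by
        rw [if_pos hm]; ring
      _ ≤ _ := by
        apply mul_le_mul_of_nonneg_left _ (by positivity)
        exact Finset.single_le_sum hnn (Finset.mem_range.2 hl)

/-- The number of pairs for which the radius `2 ^ l` is not admissible. -/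
lemma count {C5 : ℝ} (hC5 : 0 < C5) (N J : ℕ) (hJ : 1 ≤ J) (x : V)
    (hp1 : 1 ≤ nrm x) (hp : nrm x ≤ 10 * J + 2) (l : ℕ)
    (h5 : (({s : ℕ | s < N ∧ Hit N s x l}.ncard : ℕ) : ℝ) ≤
      C5 * N * (((((2 ^ l : ℕ) : ℤ) : ℝ) + 1) / ((nrm x : ℕ) : ℤ)))
    (Bd : ℕ → ℕ → Prop) [∀ i s, Decidable (Bd i s)]
    (hBd : ∀ i s, Bd i s → nrm x ≤ 5 * i + 2 ∧ Bad N s i x l) :
    ∑ i ∈ Finset.Ioc J (2 * J), ∑ s ∈ Finset.range N, (if Bd i s then (1 : ℝ) else 0) ≤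
      (J : ℝ) * N * (2 * C5 + 13) * ((2 ^ l : ℕ) / (nrm x : ℝ)) := by
  classical
  have hp0 : (0 : ℝ) < nrm x := by exact_mod_cast hp1
  have hJ0 : (1 : ℝ) ≤ J := by exact_mod_cast hJ
  have hN0 : (0 : ℝ) ≤ N := by positivity
  have hpt : ∀ i s, (if Bd i s then (1 : ℝ) else 0) ≤
      (if Hit N s x l then 1 else 0) +
      (if nrm x ≤ 5 * i + 2 ∧ 5 * i + 2 < nrm x + 2 ^ l then 1 else 0) +
      (if nrm x < 2 ^ l then 1 else 0) := by
    intro i s
    have n1 : (0 : ℝ) ≤ (if Hit N s x l then 1 else 0) := by split_ifs <;> norm_num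
    have n2 : (0 : ℝ) ≤ (if nrm x ≤ 5 * i + 2 ∧ 5 * i + 2 < nrm x + 2 ^ l then 1 else 0) := by
      split_ifs <;> norm_num
    have n3 : (0 : ℝ) ≤ (if nrm x < 2 ^ l then 1 else 0) := by split_ifs <;> norm_num
    by_cases hb : Bd i s
    · rw [if_pos hb]
      obtain ⟨q1, q2 | q2 | q2⟩ := hBd i s hb
      · rw [if_pos q2]; linarith
      · rw [if_pos (⟨q1, q2⟩ : nrm x ≤ 5 * i + 2 ∧ 5 * i + 2 < nrm x + 2 ^ l)]; linarith
      · rw [if_pos q2]; linarith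
    · rw [if_neg hb]
      linarith
  have hs1 : ∑ s ∈ Finset.range N, (if Hit N s x l then (1 : ℝ) else 0) ≤
      C5 * N * (2 * ((2 ^ l : ℕ) : ℝ) / nrm x) := by
    rw [Finset.sum_boole]
    have : ((Finset.range N).filter (fun s => Hit N s x l)).card =
        {s : ℕ | s < N ∧ Hit N s x l}.ncard := by
      rw [← Set.ncard_coe_finset]
      congr 1
      ext s
      simp
    rw [this]
    refine h5.trans ?_
    have e : (((2 ^ l : ℕ) : ℤ) : ℝ) + 1 ≤ 2 * ((2 ^ l : ℕ) : ℝ) := by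
      have : (1 : ℝ) ≤ ((2 ^ l : ℕ) : ℝ) := by exact_mod_cast Nat.one_le_two_pow
      simp only [Int.cast_natCast]
      linarith
    simp only [Int.cast_natCast] at *
    gcongr
  have hs2 : ∑ i ∈ Finset.Ioc J (2 * J),
      (if nrm x ≤ 5 * i + 2 ∧ 5 * i + 2 < nrm x + 2 ^ l then (1 : ℝ) else 0) ≤
      ((2 ^ l : ℕ) : ℝ) := by
    rw [Finset.sum_boole]
    have hcard : ((Finset.Ioc J (2 * J)).filter
        (fun i => nrm x ≤ 5 * i + 2 ∧ 5 * i + 2 < nrm x + 2 ^ l)).card ≤ 2 ^ l := by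
      have : ((Finset.Ioc J (2 * J)).filter
        (fun i => nrm x ≤ 5 * i + 2 ∧ 5 * i + 2 < nrm x + 2 ^ l)).card =
        (((Finset.Ioc J (2 * J)).filter
        (fun i => nrm x ≤ 5 * i + 2 ∧ 5 * i + 2 < nrm x + 2 ^ l)).image
          (fun i => 5 * i + 2)).card := by
        rw [Finset.card_image_of_injective]
        intro a b hab
        simp only at hab
        omega
      rw [this]
      calc _ ≤ (Finset.Ico (nrm x) (nrm x + 2 ^ l)).card := by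
            apply Finset.card_le_card
            intro y hy
            simp only [Finset.mem_image, Finset.mem_filter, Finset.mem_Ico] at *
            obtain ⟨a, ⟨_, h1, h2⟩, rfl⟩ := hy
            exact ⟨h1, h2⟩
        _ = 2 ^ l := by simp
    exact_mod_cast hcard
  have hs3 : (if nrm x < 2 ^ l then (1 : ℝ) else 0) ≤ ((2 ^ l : ℕ) : ℝ) / nrm x := by
    split_ifs with h
    · rw [le_div_iff₀ hp0, one_mul]
      exact_mod_cast h.le
    · positivity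
  have hJp : ((nrm x : ℕ) : ℝ) ≤ 12 * J := by
    have : nrm x ≤ 12 * J := by omega
    exact_mod_cast this
  calc ∑ i ∈ Finset.Ioc J (2 * J), ∑ s ∈ Finset.range N, (if Bd i s then (1 : ℝ) else 0)
      ≤ ∑ i ∈ Finset.Ioc J (2 * J), ∑ s ∈ Finset.range N,
        ((if Hit N s x l then 1 else 0) +
        (if nrm x ≤ 5 * i + 2 ∧ 5 * i + 2 < nrm x + 2 ^ l then 1 else 0) +
        (if nrm x < 2 ^ l then 1 else 0)) :=
        Finset.sum_le_sum fun i _ => Finset.sum_le_sum fun s _ => hpt i s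
    _ = (J : ℝ) * (∑ s ∈ Finset.range N, (if Hit N s x l then (1 : ℝ) else 0)) +
        N * (∑ i ∈ Finset.Ioc J (2 * J),
          (if nrm x ≤ 5 * i + 2 ∧ 5 * i + 2 < nrm x + 2 ^ l then (1 : ℝ) else 0)) +
        J * N * (if nrm x < 2 ^ l then (1 : ℝ) else 0) := by
        simp only [Finset.sum_add_distrib, Finset.sum_const, Finset.card_range, Nat.card_Ioc,
          nsmul_eq_mul, ← Finset.mul_sum]
        have : ((2 * J - J : ℕ) : ℝ) = J := by
          have : 2 * J - J = J := by omega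
          rw [this]
        rw [this]
        ring
    _ ≤ (J : ℝ) * (C5 * N * (2 * ((2 ^ l : ℕ) : ℝ) / nrm x)) +
        N * ((2 ^ l : ℕ) : ℝ) + J * N * (((2 ^ l : ℕ) : ℝ) / nrm x) := by
        gcongr
    _ ≤ (J : ℝ) * (C5 * N * (2 * ((2 ^ l : ℕ) : ℝ) / nrm x)) +
        N * (12 * J * (((2 ^ l : ℕ) : ℝ) / nrm x)) + J * N * (((2 ^ l : ℕ) : ℝ) / nrm x) := by
        gcongr
        rw [mul_div_assoc', le_div_iff₀ hp0, mul_comm]
        gcongr
    _ = _ := by ring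

end X6

open X6 in
/-- X6. The average probability that a site is explored. -/
theorem x_reveal (h4 : S_revealPt) (h5 : S_rayCount) (ha : S_arms) (hq : S_QM) (_hl : S_alLow)
    (hb : S_PrBasic) (h0 : S_QQstop) : S_reveal := by
  classical
  obtain ⟨C4, hC4, h4a, h4b⟩ := h4
  obtain ⟨C5, hC5, h5⟩ := h5
  obtain ⟨ε, Ca', hε, hε1, hCa', ha1', ha2'⟩ := ha
  obtain ⟨hpos, hmul, cq', hcq', hq'⟩ := hq
  -- normalise constants
  obtain ⟨Ca, hCa, hCa1, hCale⟩ : ∃ Ca : ℝ, 0 < Ca ∧ 1 ≤ Ca ∧ Ca' ≤ Ca :=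
    ⟨max Ca' 1, lt_of_lt_of_le hCa' (le_max_left _ _), le_max_right _ _, le_max_left _ _⟩
  have ha1 : ∀ r R : ℤ, 0 ≤ r → r < R → wb r R ≤ Ca * (((r : ℝ) + 1) / R) ^ ε * al r R ^ 2 := by
    intro r R hr hR
    refine (ha1' r R hr hR).trans ?_
    have : (0 : ℝ) ≤ ((r : ℝ) + 1) / R := by
      have h1 : (0 : ℝ) ≤ r := by exact_mod_cast hr
      have h2 : (0 : ℝ) ≤ R := by exact_mod_cast (hr.trans hR.le)
      positivity
    have h3 : 0 ≤ (((r : ℝ) + 1) / R) ^ ε := Real.rpow_nonneg this _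
    gcongr
  have ha2 : ∀ r R : ℤ, 0 ≤ r → r < R →
      (((r : ℝ) + 1) / R) ^ (1 - ε) ≤ Ca * al r R ^ 2 := by
    intro r R hr hR
    refine (ha2' r R hr hR).trans ?_
    gcongr
  obtain ⟨cq, hcq, hcq1, hcqle⟩ : ∃ cq : ℝ, 0 < cq ∧ cq ≤ 1 ∧ cq ≤ cq' :=
    ⟨min cq' 1, lt_min hcq' one_pos, min_le_right _ _, min_le_left _ _⟩
  have hq : ∀ r1 r2 r3 : ℤ, 0 ≤ r1 → r1 ≤ r2 → r2 ≤ r3 →
      cq * (al r1 r2 * al r2 r3) ≤ al r1 r3 := by
    intro r1 r2 r3 h1 h2 h3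
    refine le_trans ?_ (hq' r1 r2 r3 h1 h2 h3)
    have := (hpos r1 r2 h1 h2).1
    have := (hpos r2 r3 (h1.trans h2) h3).1
    gcongr
  have hwb : ∀ D : ℤ, 0 ≤ wb 0 D := fun D => (hb V (Arm2 0 0 D) (Arm2 0 0 D)).1
  have hmono : ∀ r1 r2 r3 : ℤ, 0 ≤ r1 → r1 ≤ r2 → r2 ≤ r3 → al r1 r3 ≤ al r1 r2 := by
    intro r1 r2 r3 h1 h2 h3
    refine (hmul r1 r2 r3 h1 h2 h3).trans ?_
    have a1 := hpos r1 r2 h1 h2
    have a2 := hpos r2 r3 (h1.trans h2) h3
    calc al r1 r2 * al r2 r3 ≤ al r1 r2 * 1 := mul_le_mul_of_nonneg_left a2.2 a1.1.le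
      _ = _ := mul_one _
  obtain ⟨K, hK, hlog⟩ := log_absorb hε
  -- the final constants
  obtain ⟨M, hM⟩ : ∃ M : ℝ, M = Ca ^ 2 / cq ^ 2 := ⟨_, rfl⟩
  have hM0 : 0 < M := by rw [hM]; positivity
  have hCaM : Ca ≤ M := by
    rw [hM, le_div_iff₀ (by positivity)]
    have : cq ^ 2 ≤ 1 := by nlinarith
    nlinarith
  refine ⟨C4 * (2 * C5 + 13) * (2 * M) * K / cq, ε / 2, by positivity, by positivity, ?_⟩
  intro j J hjJ x
  have hJ1 : 1 ≤ J := by omega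
  have hJ0 : (0 : ℝ) < J := by exact_mod_cast hJ1
  obtain ⟨r, hr⟩ : ∃ r : ℕ, r = 5 * j + 2 := ⟨_, rfl⟩
  have hrJ : r < 5 * J + 2 := by omega
  have ecast : ((5 * (j : ℤ) + 2 : ℤ)) = (r : ℤ) := by rw [hr]; push_cast; ring
  have ecast2 : (5 * (j : ℝ) + 2 : ℝ) = (r : ℝ) := by rw [hr]; push_cast; ring
  have ecast4 : ∀ i : ℕ, ((5 * (i : ℤ) + 2 : ℤ)) = ((5 * i + 2 : ℕ) : ℤ) := by
    intro i; push_cast; ring
  simp only [ecast, ecast2, ecast4]
  have hr1 : (1 : ℝ) ≤ r := by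
    have : 1 ≤ r := by omega
    exact_mod_cast this
  have hr0 : (0 : ℝ) < r := by linarith
  have halr := hpos 0 r le_rfl (by positivity)
  have halJ := hpos r ((5 * J + 2 : ℕ) : ℤ) (by positivity) (by exact_mod_cast hrJ.le)
  rw [div_le_iff₀ (by positivity)]
  obtain ⟨p, hp⟩ : ∃ p : ℕ, p = nrm x := ⟨_, rfl⟩
  -- probability zero outside of the annulus
  have hzero : ∀ i ∈ Finset.Ioc J (2 * J), ∀ s ∈ Finset.range (20 * J),
      (p ≤ r ∨ 5 * i + 2 < p) →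
      Pr (fun B => x ∈ QQ s (20 * J) r ((5 * i + 2 : ℕ) : ℤ) B) = 0 := by
    intro i hi s hs hout
    have hi' := Finset.mem_Ioc.1 hi
    have hs' := Finset.mem_range.1 hs
    have hfalse : ∀ B : Set V, ¬ (x ∈ QQ s (20 * J) r ((5 * i + 2 : ℕ) : ℤ) B) := by
      intro B hx
      have h := (h0 s (20 * J) r ((5 * i + 2 : ℕ) : ℤ) B B hs' (by positivity)
        (by exact_mod_cast (by omega : r < 5 * i + 2))).1 hx
      unfold Ann at h
      rw [Set.mem_sdiff, mem_ball_iff, mem_ball_iff] at h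
      rcases hout with h1 | h1
      · exact h.2 (by rw [← hp]; exact_mod_cast h1)
      · have : (nrm x : ℤ) ≤ ((5 * i + 2 : ℕ) : ℤ) := h.1
        have h2 : nrm x ≤ 5 * i + 2 := by exact_mod_cast this
        omega
    have hempty : {ω : V → Bool | x ∈ QQ s (20 * J) r ((5 * i + 2 : ℕ) : ℤ) (bl ω)} = ∅ := by
      ext ω
      simp only [Set.mem_ofPred_eq, Set.mem_empty_iff_false, iff_false]
      exact hfalse _
    unfold Pr
    rw [hempty]
    simp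
  by_cases hcase : p ≤ r ∨ 10 * J + 2 < p
  · rw [Finset.sum_eq_zero]
    · have := halr.1; have := halJ.1
      positivity
    · intro i hi
      apply Finset.sum_eq_zero
      intro s hs
      apply hzero i hi s hs
      have hi' := Finset.mem_Ioc.1 hi
      rcases hcase with h | h
      · exact Or.inl h
      · right; omega
  push Not at hcase
  obtain ⟨hpr, hpJ⟩ := hcase
  have hp1 : 1 ≤ p := by omega
  have hpR1 : (1 : ℝ) ≤ p := by exact_mod_cast hp1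
  have hpR0 : (0 : ℝ) < p := by linarith
  have hxin : x ∈ Ball 0 (p : ℤ) := (mem_ball_iff x _).2 (by rw [hp])
  have hxout : x ∉ Ball 0 ((p : ℤ) - 1) := by
    rw [mem_ball_iff]; rw [← hp]; linarith
  -- the arm factor
  obtain ⟨A, hA0, hAi, hAfin⟩ : ∃ A : ℝ, 0 ≤ A ∧
      (∀ i ∈ Finset.Ioc J (2 * J), p ≤ 5 * i + 2 → al p ((5 * i + 2 : ℕ) : ℤ) ≤ A) ∧
      al 0 p ^ 2 * A ≤ 1 / cq * (al 0 r ^ 2 * al r ((5 * J + 2 : ℕ) : ℤ)) := by
    have b1 := hmul 0 r p le_rfl (by positivity) (by exact_mod_cast hpr.le)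
    have b2 := hmono 0 r p le_rfl (by positivity) (by exact_mod_cast hpr.le)
    have b3 := hpos 0 p le_rfl (by positivity)
    have b4 := hpos r p (by positivity) (by exact_mod_cast hpr.le)
    have b5 : al 0 p ^ 2 ≤ al 0 r ^ 2 * al r p := by
      calc al 0 p ^ 2 = al 0 p * al 0 p := sq _
        _ ≤ al 0 r * (al 0 r * al r p) := mul_le_mul b2 b1 b3.1.le halr.1.le
        _ = _ := by ring
    by_cases hpJ2 : p ≤ 5 * J + 2
    · have b6 := hpos p ((5 * J + 2 : ℕ) : ℤ) (by positivity) (by exact_mod_cast hpJ2)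
      refine ⟨al p ((5 * J + 2 : ℕ) : ℤ), b6.1.le, ?_, ?_⟩
      · intro i hi _
        have hi' := Finset.mem_Ioc.1 hi
        exact hmono _ _ _ (by positivity) (by exact_mod_cast hpJ2)
          (by exact_mod_cast (by omega : 5 * J + 2 ≤ 5 * i + 2))
      · have b7 := hq r p ((5 * J + 2 : ℕ) : ℤ) (by positivity) (by exact_mod_cast hpr.le)
          (by exact_mod_cast hpJ2)
        rw [one_div, inv_mul_eq_div, le_div_iff₀ hcq]
        calc al 0 p ^ 2 * al p ((5 * J + 2 : ℕ) : ℤ) * cq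
            ≤ (al 0 r ^ 2 * al r p) * al p ((5 * J + 2 : ℕ) : ℤ) * cq := by
              have := b6.1
              gcongr
          _ = al 0 r ^ 2 * (cq * (al r p * al p ((5 * J + 2 : ℕ) : ℤ))) := by ring
          _ ≤ al 0 r ^ 2 * al r ((5 * J + 2 : ℕ) : ℤ) := by gcongr
    · push Not at hpJ2
      refine ⟨1, zero_le_one, ?_, ?_⟩
      · intro i _ hi2
        exact (hpos _ _ (by positivity) (by exact_mod_cast hi2)).2
      · have b8 := hmono r ((5 * J + 2 : ℕ) : ℤ) p (by positivity) (by exact_mod_cast hrJ.le)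
          (by exact_mod_cast hpJ2.le)
        have hone : 1 ≤ 1 / cq := by rw [le_div_iff₀ hcq]; linarith
        have := halJ.1
        calc al 0 p ^ 2 * 1 ≤ al 0 r ^ 2 * al r p := by rw [mul_one]; exact b5
          _ ≤ al 0 r ^ 2 * al r ((5 * J + 2 : ℕ) : ℤ) := by gcongr
          _ = 1 * (al 0 r ^ 2 * al r ((5 * J + 2 : ℕ) : ℤ)) := (one_mul _).symm
          _ ≤ _ := by gcongr
  -- pointwise bounds
  obtain ⟨N, hN⟩ : ∃ N : ℕ, N = 20 * J := ⟨_, rfl⟩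
  rw [← hN] at hzero
  rw [← hN]
  obtain ⟨L, hL⟩ : ∃ L : ℕ, L = Nat.log 2 p + 1 := ⟨_, rfl⟩
  have hpoint : ∀ i ∈ Finset.Ioc J (2 * J), ∀ s ∈ Finset.range N,
      Pr (fun B => x ∈ QQ s N r ((5 * i + 2 : ℕ) : ℤ) B) ≤
      C4 * A * ((if p ≤ 5 * i + 2 ∧ Bad N s i x 0 then 1 else 0) +
        ∑ l ∈ Finset.range L,
          (if p ≤ 5 * i + 2 ∧ Bad N s i x (l + 1) then 1 else 0) * wb 0 ((2 ^ l : ℕ) : ℤ)) := by
    intro i hi s hs
    have hi' := Finset.mem_Ioc.1 hi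
    have hs' := Finset.mem_range.1 hs
    by_cases hpi : p ≤ 5 * i + 2
    · have hrR : (r : ℤ) < ((5 * i + 2 : ℕ) : ℤ) := by exact_mod_cast (by omega : r < 5 * i + 2)
      have hpw := pointwise (C4 := C4) (A := A) hC4 hwb N s i x
        (Pr (fun B => x ∈ QQ s N r ((5 * i + 2 : ℕ) : ℤ) B))
        (al p ((5 * i + 2 : ℕ) : ℤ)) hA0 (hAi i hi hpi)
        (fun δ hδ0 hδp hray hsub => h4a s N r ((5 * i + 2 : ℕ) : ℤ) p δ x hs' (by positivity)
          hrR (by exact_mod_cast hp1) (by exact_mod_cast hpi) hxin hxout hδ0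
          (by rw [hp]; exact hδp) hray hsub)
        (h4b s N r ((5 * i + 2 : ℕ) : ℤ) p x hs' (by positivity) hrR (by exact_mod_cast hp1)
          (by exact_mod_cast hpi) hxin)
      refine hpw.trans (le_of_eq ?_)
      rw [hL, hp]
      simp only [← hp, hpi, true_and]
    · rw [hzero i hi s hs (Or.inr (by omega))]
      apply mul_nonneg (by positivity)
      apply add_nonneg
      · split_ifs <;> norm_num
      · apply Finset.sum_nonneg
        intro l _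
        apply mul_nonneg _ (hwb _)
        split_ifs <;> norm_num
  -- counting
  have hcount : ∀ l : ℕ, ∑ i ∈ Finset.Ioc J (2 * J), ∑ s ∈ Finset.range N,
      (if p ≤ 5 * i + 2 ∧ Bad N s i x l then (1 : ℝ) else 0) ≤
      (J : ℝ) * N * (2 * C5 + 13) * ((2 ^ l : ℕ) / (p : ℝ)) := by
    intro l
    have h5' := h5 N p ((2 ^ l : ℕ) : ℤ) x (by exact_mod_cast hp1)
      (by exact_mod_cast (by omega : p ≤ N)) hxout (by positivity)
    rw [hp] at h5' ⊢
    exact count hC5 N J hJ1 x (by omega) (by omega) l h5'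
      (fun i s => nrm x ≤ 5 * i + 2 ∧ Bad N s i x l) (fun i s h => h)
  -- summation
  obtain ⟨P, hP⟩ : ∃ P : ℝ, P = ((1 : ℝ) / p) ^ ε := ⟨_, rfl⟩
  have hP0 : 0 ≤ P := by rw [hP]; positivity
  have hterm0 : (1 : ℝ) / p ≤ M * P * al 0 p ^ 2 := by
    have g1 := ha2 0 p le_rfl (by exact_mod_cast hp1)
    simp only [Int.cast_zero, zero_add, Int.cast_natCast] at g1
    have g2 : (1 : ℝ) / p = P * ((1 : ℝ) / p) ^ (1 - ε) := by
      rw [hP, ← Real.rpow_add (by positivity)]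
      simp
    calc (1 : ℝ) / p = P * ((1 : ℝ) / p) ^ (1 - ε) := g2
      _ ≤ P * (Ca * al 0 p ^ 2) := by gcongr
      _ ≤ P * (M * al 0 p ^ 2) := by gcongr
      _ = _ := by ring
  have htermk : ∀ l ∈ Finset.range L, ((2 ^ l : ℕ) : ℝ) / p * wb 0 ((2 ^ l : ℕ) : ℤ) ≤
      M * P * al 0 p ^ 2 := by
    intro l hl
    have hl' := Finset.mem_range.1 hl
    rw [hM, hP]
    apply key hε hε1 hCa hcq hcq1 ha1 ha2 hpos hq hCa1 (2 ^ l) p Nat.one_le_two_pow
    calc 2 ^ l ≤ 2 ^ (Nat.log 2 p) := Nat.pow_le_pow_right (by norm_num) (by omega)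
      _ ≤ p := Nat.pow_log_le_self 2 (by omega)
  have hsum : ∑ i ∈ Finset.Ioc J (2 * J), ∑ s ∈ Finset.range N,
      Pr (fun B => x ∈ QQ s N r ((5 * i + 2 : ℕ) : ℤ) B) ≤
      C4 * A * ((J : ℝ) * N * (2 * C5 + 13) * (2 * (M * (((Nat.log 2 p : ℝ) + 2) * P) *
        al 0 p ^ 2))) := by
    calc ∑ i ∈ Finset.Ioc J (2 * J), ∑ s ∈ Finset.range N,
        Pr (fun B => x ∈ QQ s N r ((5 * i + 2 : ℕ) : ℤ) B)
        ≤ ∑ i ∈ Finset.Ioc J (2 * J), ∑ s ∈ Finset.range N,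
          C4 * A * ((if p ≤ 5 * i + 2 ∧ Bad N s i x 0 then 1 else 0) +
          ∑ l ∈ Finset.range L,
          (if p ≤ 5 * i + 2 ∧ Bad N s i x (l + 1) then 1 else 0) * wb 0 ((2 ^ l : ℕ) : ℤ)) :=
          Finset.sum_le_sum fun i hi => Finset.sum_le_sum fun s hs => hpoint i hi s hs
      _ = C4 * A * ((∑ i ∈ Finset.Ioc J (2 * J), ∑ s ∈ Finset.range N,
            (if p ≤ 5 * i + 2 ∧ Bad N s i x 0 then (1 : ℝ) else 0)) +
          ∑ l ∈ Finset.range L, (∑ i ∈ Finset.Ioc J (2 * J), ∑ s ∈ Finset.range N,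
            (if p ≤ 5 * i + 2 ∧ Bad N s i x (l + 1) then (1 : ℝ) else 0)) *
            wb 0 ((2 ^ l : ℕ) : ℤ)) := by
          simp only [← Finset.mul_sum, Finset.sum_add_distrib]
          congr 2
          simp only [Finset.sum_mul]
          rw [Finset.sum_comm (s := Finset.range L)]
          apply Finset.sum_congr rfl
          intro i _
          rw [Finset.sum_comm]
      _ ≤ C4 * A * ((J : ℝ) * N * (2 * C5 + 13) * ((2 ^ 0 : ℕ) / (p : ℝ)) +
          ∑ l ∈ Finset.range L, ((J : ℝ) * N * (2 * C5 + 13) * ((2 ^ (l + 1) : ℕ) / (p : ℝ))) *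
            wb 0 ((2 ^ l : ℕ) : ℤ)) := by
          apply mul_le_mul_of_nonneg_left _ (by positivity)
          apply add_le_add (hcount 0)
          apply Finset.sum_le_sum
          intro l _
          exact mul_le_mul_of_nonneg_right (hcount (l + 1)) (hwb _)
      _ = C4 * A * ((J : ℝ) * N * (2 * C5 + 13) * (1 / (p : ℝ) +
          2 * ∑ l ∈ Finset.range L, (((2 ^ l : ℕ) : ℝ) / (p : ℝ)) *
            wb 0 ((2 ^ l : ℕ) : ℤ))) := by
          have e : ∑ l ∈ Finset.range L, ((J : ℝ) * N * (2 * C5 + 13) *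
              ((2 ^ (l + 1) : ℕ) / (p : ℝ))) * wb 0 ((2 ^ l : ℕ) : ℤ) =
              ((J : ℝ) * N * (2 * C5 + 13)) * (2 * ∑ l ∈ Finset.range L,
                (((2 ^ l : ℕ) : ℝ) / (p : ℝ)) * wb 0 ((2 ^ l : ℕ) : ℤ)) := by
            rw [Finset.mul_sum, Finset.mul_sum]
            apply Finset.sum_congr rfl
            intro l _
            have e2 : ((2 ^ (l + 1) : ℕ) : ℝ) = 2 * ((2 ^ l : ℕ) : ℝ) := by
              push_cast
              ring
            rw [e2]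
            ring
          rw [e]
          have e3 : ((2 ^ 0 : ℕ) : ℝ) = 1 := by norm_num
          rw [e3]
          ring
      _ ≤ C4 * A * ((J : ℝ) * N * (2 * C5 + 13) * (M * P * al 0 p ^ 2 +
          2 * ∑ l ∈ Finset.range L, M * P * al 0 p ^ 2)) := by
          apply mul_le_mul_of_nonneg_left _ (by positivity)
          apply mul_le_mul_of_nonneg_left _ (by positivity)
          exact add_le_add hterm0
            (mul_le_mul_of_nonneg_left (Finset.sum_le_sum htermk) (by norm_num))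
      _ ≤ _ := by
          rw [Finset.sum_const, Finset.card_range, nsmul_eq_mul, hL]
          push_cast
          have hx0 : 0 ≤ M * P * al 0 p ^ 2 := by positivity
          gcongr
          nlinarith
  refine hsum.trans ?_
  have hpe : ((1 : ℝ) / p) ^ (ε / 2) ≤ (r : ℝ) ^ (-(ε / 2)) := by
    rw [Real.rpow_neg hr0.le, ← Real.inv_rpow hr0.le, one_div]
    apply Real.rpow_le_rpow (by positivity) _ (by positivity)
    apply inv_anti₀ hr0
    exact_mod_cast hpr.le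
  have hl := hlog p hp1
  rw [← hP] at hl
  have hre0 : 0 ≤ (r : ℝ) ^ (-(ε / 2)) := by positivity
  have hl2 : ((Nat.log 2 p : ℝ) + 2) * P ≤ K * (r : ℝ) ^ (-(ε / 2)) :=
    hl.trans (mul_le_mul_of_nonneg_left hpe hK.le)
  calc C4 * A * ((J : ℝ) * N * (2 * C5 + 13) * (2 * (M * (((Nat.log 2 p : ℝ) + 2) * P) *
        al 0 p ^ 2)))
      ≤ C4 * A * ((J : ℝ) * N * (2 * C5 + 13) * (2 * (M * (K * (r : ℝ) ^ (-(ε / 2))) *
        al 0 p ^ 2))) := by
        gcongr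
    _ = C4 * ((J : ℝ) * N * (2 * C5 + 13) * (2 * (M * (K * (r : ℝ) ^ (-(ε / 2)))))) *
        (al 0 p ^ 2 * A) := by ring
    _ ≤ C4 * ((J : ℝ) * N * (2 * C5 + 13) * (2 * (M * (K * (r : ℝ) ^ (-(ε / 2)))))) *
        (1 / cq * (al 0 r ^ 2 * al r ((5 * J + 2 : ℕ) : ℤ))) := by
        gcongr
    _ = _ := by
        rw [hN]
        push_cast
        ring

end TriX
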