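import Pool.Agent.EX.A1
import Pool.Agent.EX.A2
import Pool.Agent.EX.A3
import Pool.Agent.EX.C1
import Pool.Agent.EX.C2
import Pool.Agent.EX.C3
import Pool.Agent.EX.C4
import Pool.Agent.EX.C5
import Pool.Agent.EX.E1
import Pool.Agent.EX.G1
import Pool.Agent.EX.G2
import Pool.Agent.EX.G3
import Pool.Agent.EX.G4
import Pool.Agent.EX.K1
import Pool.Agent.EX.K2
import Pool.Agent.EX.K3
import Pool.Agent.EX.K4
import Pool.Agent.EX.K5
import Pool.Agent.EX.K6
import Pool.Agent.EX.LB1
import Pool.Agent.EX.LB2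
import Pool.Agent.EX.N1
import Pool.Agent.EX.N1b
import Pool.Agent.EX.N2
import Pool.Agent.EX.N3
import Pool.Agent.EX.N4
import Pool.Agent.EX.N5
import Pool.Agent.EX.N6
import Pool.Agent.EX.P1a
import Pool.Agent.EX.P1b
import Pool.Agent.EX.P2
import Pool.Agent.EX.P3
import Pool.Agent.EX.P3b
import Pool.Agent.EX.P3c
import Pool.Agent.EX.P4
import Pool.Agent.EX.P5
import Pool.Agent.EX.P6
import Pool.Agent.EX.P7
import Pool.Agent.EX.R1
import Pool.Agent.EX.R2a
import Pool.Agent.EX.R2b
import Pool.Agent.EX.R3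
import Pool.Agent.EX.R4
import Pool.Agent.EX.ST1
import Pool.Agent.EX.ST3
import Pool.Agent.EX.ST5a
import Pool.Agent.EX.ST5b
import Pool.Agent.EX.ST5c
import Pool.Agent.EX.ST6
import Pool.Agent.EX.T1
import Pool.Agent.EX.T2
import Pool.Agent.EX.T3
import Pool.Agent.EX.T4
import Pool.Agent.EX.T5
import Pool.Agent.EX.T6
import Pool.Agent.EX.T7
import Pool.Agent.EX.U1
import Pool.Agent.EX.X1
import Pool.Agent.EX.X3
import Pool.Agent.EX.X4
import Pool.Agent.EX.X6

/-! Project EX (MP_68260e): assembly of all modules. -/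

open MeasureTheory ProbabilityTheory

namespace TriX

/-! ### Topology -/

theorem f_crossConn : S_crossConn := t_crossConn t_cross
theorem f_crossTopConn : S_crossTopConn := t_crossTopConn t_crossTop
theorem f_bdry : S_bdry := t_bdry t_exact
theorem f_fourArc : S_fourArc := t_fourArc f_bdry
theorem f_dual : S_dual := t_dual f_fourArc f_crossConn
theorem f_ring : S_ring := t_ring f_bdry

/-! ### Probability -/

theorem f_PrBasic : S_PrBasic := t_PrBasic'
theorem f_PrIndep : S_PrIndep := t_PrIndep t_PrAvg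
theorem f_PrHarris : S_PrHarris := t_PrHarris t_PrAvg
theorem f_PrStop : S_PrStop := t_PrStop t_PrAvg
theorem f_PrShare : S_PrShare := t_PrShare t_PrAvg f_PrHarris

/-! ### Crossings of rectangles -/

theorem f_rhombus : S_rhombus := r_rhombus f_dual t_PrEquiv t_PrFlip f_PrBasic
theorem f_rectBase : S_rectBase := r_rectBase f_rhombus t_PrEquiv f_PrBasic
theorem f_type : S_type := r_type f_bdry t_expl
theorem f_halfTop : S_halfTop :=
  r_halfTop f_type f_fourArc f_crossConn f_PrStop t_PrEquiv t_PrFlip t_expl f_PrBasic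
theorem f_double : S_double := r_double f_halfTop f_crossTopConn f_PrHarris t_PrEquiv f_PrBasic
theorem f_RSW : S_RSW := r_RSW f_rectBase f_double t_PrEquiv f_PrBasic t_PrAvg

/-! ### Arms -/

theorem f_armBasic : S_armBasic := a_armBasic t_PrEquiv t_PrFlip
theorem f_alLow : S_alLow := a_alLow f_RSW f_PrBasic t_PrAvg f_armBasic
theorem f_ringProb : S_ringProb :=
  a_ringProb f_RSW f_PrHarris f_crossConn t_PrEquiv f_PrBasic t_PrAvg f_armBasic
theorem f_glue : S_glue := a_glue f_ring f_armBasic
theorem f_QM : S_QM :=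
  a_QM f_glue f_alLow f_ringProb f_PrHarris f_PrIndep f_PrBasic f_armBasic

/-! ### The strict inequality -/

theorem f_st1 : S_st1 := st1 f_crossConn f_dual f_armBasic
theorem f_st2 : S_st2 := st2 f_crossConn f_ring f_armBasic
theorem f_st3 : S_st3 :=
  st3 f_RSW f_ringProb f_PrHarris t_PrFlip f_PrBasic t_PrAvg f_armBasic
theorem f_st4 : S_st4 := st4 f_dual t_PrEquiv t_PrFlip f_PrBasic
theorem f_st5a : S_st5a := t_st5a f_st2 f_PrIndep f_PrHarris t_PrEquiv t_PrFlip f_PrBasic
theorem f_st5b : S_st5b :=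
  st5b f_st1 f_dual f_PrIndep f_PrHarris t_PrEquiv t_PrFlip f_PrBasic f_armBasic
theorem f_st5c : S_st5c := t_st5c f_PrHarris t_PrEquiv t_PrFlip f_PrBasic f_armBasic
theorem f_st5 : S_st5 := t_st5 f_st3 f_st4 f_st5a f_st5b f_st5c f_PrShare f_PrBasic
theorem f_strict : S_strict :=
  st6 f_st5 f_PrShare f_alLow f_PrIndep t_PrEquiv t_PrFlip f_PrBasic f_armBasic
theorem f_interface : S_interface := lb1 f_bdry f_crossConn

/-! ### The stopping set -/

theorem f_loop : S_loop := x_loop f_bdry t_expl f_armBasic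
theorem f_QQstop : S_QQstop := x_QQstop f_loop t_expl f_armBasic

/-! ### Noise, blocks and resolvents -/

theorem f_N2 : Noise.S_N2 := Noise.n2 Noise.n1 Noise.n1b
theorem f_N3 : Noise.S_N3 := Noise.n3 Noise.n1 Noise.n1b f_N2
theorem f_N4 : Noise.S_N4 := Noise.n4 Noise.n1 Noise.n1b
theorem f_noise : Noise.S_noise := Noise.n6 Noise.n1 Noise.n1b f_N2 f_N3 f_N4 Noise.n5
theorem f_gadget : S_gadget := g_gadget f_armBasic
theorem f_resolvent : S_resolvent := g_resolvent Noise.n1 Noise.n1b f_N2 g_dirichlet f_gadget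
theorem f_chain : S_chain := g_chain f_resolvent
theorem f_transfer : S_transfer := c_transfer t_ExAvg t_PrAvg f_armBasic

/-! ### The end of the proof, from the two remaining statements -/

theorem f_main_of (ha : S_arms) (hx : S_QQarms) : S_main := by
  have h1 : S_revealPt :=
    x_revealPt hx ha f_QM f_alLow f_PrIndep f_PrBasic f_armBasic f_QQstop
  have h2 : S_reveal := x_reveal h1 x_rayCount ha f_QM f_alLow f_PrBasic f_QQstop
  have h3 : S_corr := c_corr f_noise f_gadget h2 f_QQstop f_transfer f_QM f_armBasic f_PrBasic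
  have h4 : S_prodBound := c_prodBound f_transfer f_armBasic f_gadget
  have h5 : S_intBound := c_intBound h3 h4 f_QM f_alLow f_transfer f_armBasic
  have h6 : S_chainSet := c_chainSet f_chain h5 f_transfer t_PrEquiv t_ExAvg f_armBasic
  have h7 : S_pz := p_pz h6 p_disc' (p_discEvents f_armBasic) f_QM f_armBasic
  exact t_main f_armBasic h7 (p_discEvents f_armBasic) p_reachProb p_slices
    (p_reg p_reachProb) (p_det f_armBasic) p_exist (p_closure f_armBasic) p_zeroOne

theorem f_wbLow : S_wbLow := lb2 f_interface f_RSW f_PrIndep t_PrFlip f_PrBasic f_armBasic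
theorem f_arms : S_arms := lb3 f_strict f_wbLow
theorem f_QQarms : S_QQarms := x_QQarms t_expl f_armBasic

/-- The main theorem. -/
theorem f_main : S_main := f_main_of f_arms f_QQarms

end TriX
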