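import Mathlib

/-! Definitions for the project EX (problem MP_68260e): site percolation on the triangular
lattice and its exclusion dynamics. -/

open MeasureTheory

namespace TriX

/-- Vertices of the triangular lattice. -/
abbrev V : Type := ℤ × ℤ

/-- Adjacency in the triangular lattice: every vertex has six neighbours. -/
def Adj (u v : V) : Prop :=
  (v.1 = u.1 + 1 ∧ v.2 = u.2) ∨ (v.1 = u.1 - 1 ∧ v.2 = u.2) ∨
  (v.1 = u.1 ∧ v.2 = u.2 + 1) ∨ (v.1 = u.1 ∧ v.2 = u.2 - 1) ∨
  (v.1 = u.1 + 1 ∧ v.2 = u.2 - 1) ∨ (v.1 = u.1 - 1 ∧ v.2 = u.2 + 1)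

/-- `v` can be reached from `u` by a path all of whose vertices (`u`, `v` included) lie in `S`. -/
def Conn (S : Set V) (u v : V) : Prop :=
  u ∈ S ∧ Relation.ReflTransGen (fun a b => Adj a b ∧ b ∈ S) u v

/-- There is a path from `u` to `v` whose interior vertices lie in `S` (at least one edge). -/
def Via (S : Set V) (u v : V) : Prop :=
  ∃ w, Relation.ReflTransGen (fun a b => Adj a b ∧ b ∈ S) u w ∧ Adj w v

/-- `S` is nonempty or not, any two of its vertices are joined inside `S`. -/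
def PreConn (S : Set V) : Prop := ∀ u ∈ S, ∀ v ∈ S, Conn S u v

/-- The box `[x1,x2] x [y1,y2]`. -/
def Box (x1 x2 y1 y2 : ℤ) : Set V := {v | x1 ≤ v.1 ∧ v.1 ≤ x2 ∧ y1 ≤ v.2 ∧ v.2 ≤ y2}

/-- Left-right crossing of the box by vertices of `B`. -/
def LR (x1 x2 y1 y2 : ℤ) (B : Set V) : Prop :=
  ∃ u v : V, u.1 = x1 ∧ v.1 = x2 ∧ Conn (B ∩ Box x1 x2 y1 y2) u v

/-- Bottom-top crossing of the box by vertices of `B`. -/
def TB (x1 x2 y1 y2 : ℤ) (B : Set V) : Prop :=
  ∃ u v : V, u.2 = y1 ∧ v.2 = y2 ∧ Conn (B ∩ Box x1 x2 y1 y2) u v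

/-- The horizontal coordinate used for rectangles with vertical sides. -/
def hz (v : V) : ℤ := 2 * v.1 + v.2

/-- The rectangle `u1 ≤ 2x+y ≤ u2`, `y1 ≤ y ≤ y2`. -/
def Rect (u1 u2 y1 y2 : ℤ) : Set V := {v | u1 ≤ hz v ∧ hz v ≤ u2 ∧ y1 ≤ v.2 ∧ v.2 ≤ y2}

/-- Horizontal crossing of the rectangle. -/
def HC (u1 u2 y1 y2 : ℤ) (B : Set V) : Prop :=
  ∃ s t : V, hz s ≤ u1 + 1 ∧ u2 - 1 ≤ hz t ∧ Conn (B ∩ Rect u1 u2 y1 y2) s t

/-- The ball of the sup norm. -/
def Ball (c : V) (r : ℤ) : Set V := {v | |v.1 - c.1| ≤ r ∧ |v.2 - c.2| ≤ r}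

/-- The annulus `r < |v - c| ≤ R`. -/
def Ann (c : V) (r R : ℤ) : Set V := Ball c R \ Ball c r

/-- A path of `B` crosses the annulus, from the inner ball to the outside. -/
def Arm (c : V) (r R : ℤ) (B : Set V) : Prop :=
  ∃ u ∈ Ball c r, ∃ v, v ∉ Ball c R ∧ Via (B ∩ Ann c r R) u v

/-- The annulus is crossed by a path of `B` and by a path of the complement. -/
def Arm2 (c : V) (r R : ℤ) (B : Set V) : Prop := Arm c r R B ∧ Arm c r R Bᶜ

/-- Closure condition of an exploration. -/
def ClosedE (D S0 Kb Kw : Set V) (B T : Set V) : Prop :=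
  S0 ⊆ T ∧ ∀ v ∈ D, ∀ z w : V, Adj v z → Adj v w →
    (z ∈ Kb ∨ z ∈ T ∩ B) → (w ∈ Kw ∨ w ∈ T \ B) → v ∈ T

/-- The explored set: seeds `S0`, and every site of `D` adjacent to a known black and to a
known white site (`Kb`, `Kw` are the virtual black and white sites). -/
def Expl (D S0 Kb Kw : Set V) (B : Set V) : Set V :=
  {v | ∀ T, ClosedE D S0 Kb Kw B T → v ∈ T}

/-! ### Probability -/

/-- The product of fair coins. -/
noncomputable def fair (W : Type) : Measure (W → Bool) :=
  Measure.infinitePi (fun _ : W => (PMF.uniformOfFintype Bool).toMeasure)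

/-- The set of black sites. -/
def bl {W : Type} (ω : W → Bool) : Set W := {w | ω w = true}

/-- The probability that the random set satisfies `f`. -/
noncomputable def Pr {W : Type} (f : Set W → Prop) : ℝ := (fair W).real {ω | f (bl ω)}

/-- The expectation of a function of the random set. -/
noncomputable def Ex {W : Type} (f : Set W → ℝ) : ℝ := ∫ ω, f (bl ω) ∂(fair W)

/-- `f` only depends on the sites of `S`. -/
def DepOn {W : Type} {α : Type} (f : Set W → α) (S : Set W) : Prop :=
  ∀ B B' : Set W, B ∩ S = B' ∩ S → f B = f B'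

/-- `f` depends on finitely many sites. -/
def Loc {W : Type} {α : Type} (f : Set W → α) : Prop := ∃ S : Finset W, DepOn f (S : Set W)

def Incr {W : Type} (f : Set W → Prop) : Prop := ∀ B B' : Set W, B ⊆ B' → f B → f B'

def Decr {W : Type} (f : Set W → Prop) : Prop := ∀ B B' : Set W, B ⊆ B' → f B' → f B

/-- Two configurations sharing the sites of `T`: the first one. -/
def fstC (C : Set (V × Bool)) : Set V := {v | (v, false) ∈ C}

/-- Two configurations sharing the sites of `T`: the second one. -/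
def sndC (T : Set V) (C : Set (V × Bool)) : Set V :=
  {v | (v ∈ T ∧ (v, false) ∈ C) ∨ (v ∉ T ∧ (v, true) ∈ C)}

/-- Probability of an event for two configurations which share the sites of `T` and are
independent elsewhere. -/
noncomputable def PrT (T : Set V) (g : Set V → Set V → Prop) : ℝ :=
  Pr (fun C : Set (V × Bool) => g (fstC C) (sndC T C))

/-- One-arm probability of the annulus `r < |v| ≤ R`. -/
noncomputable def al (r R : ℤ) : ℝ := Pr (Arm 0 r R)

/-- Two-arm (black and white) probability. -/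
noncomputable def wb (r R : ℤ) : ℝ := Pr (Arm2 0 r R)

end TriX
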