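import Pool.Agent.EX.SpecCS

/-! Project EX (MP_68260e), module CS1: the characteristic functional of a Poisson number of
independent uniform points (helper82). -/

open MeasureTheory ProbabilityTheory

namespace TriX

/-- The integrand, for a fixed number of points. -/
theorem cs1_fix (h : ℝ → ℝ) (hh : Measurable h) (n : ℕ) :
    ∫ y : ℕ → ℝ, Complex.exp (Complex.I * ∑ j ∈ Finset.range n, (h (y j) : ℂ))
      ∂(Measure.infinitePi (fun _ : ℕ => unif)) =
    (∫ u, Complex.exp (Complex.I * (h u : ℂ)) ∂unif) ^ n := by
  have hind : iIndepFun (fun (i : Fin n) (y : ℕ → ℝ) => h (y i))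
      (Measure.infinitePi (fun _ : ℕ => unif)) :=
    iIndepFun.precomp Fin.val_injective
      (iIndepFun_infinitePi (P := fun _ : ℕ => unif) (X := fun _ => h) fun _ => hh)
  have h1 := iIndepFun.integral_fun_prod_comp (ι := Fin n)
    (X := fun (i : Fin n) (y : ℕ → ℝ) => h (y i)) (μ := Measure.infinitePi (fun _ : ℕ => unif))
    (f := fun (_ : Fin n) (x : ℝ) => Complex.exp (Complex.I * (x : ℂ))) hind
    (fun i => (by fun_prop : Measurable fun y : ℕ → ℝ => h (y i)).aemeasurable)
    (fun i => (by fun_prop : Measurable fun x : ℝ => Complex.exp (Complex.I * (x : ℂ))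
      ).aestronglyMeasurable)
  have h2 : ∀ i : Fin n, ∫ y : ℕ → ℝ, Complex.exp (Complex.I * (h (y i) : ℂ))
      ∂(Measure.infinitePi (fun _ : ℕ => unif)) = ∫ u, Complex.exp (Complex.I * (h u : ℂ)) ∂unif := by
    intro i
    have h3 := Measure.infinitePi_map_eval (fun _ : ℕ => unif) (i : ℕ)
    conv_rhs => rw [← h3]
    rw [integral_map (measurable_pi_apply _).aemeasurable
      (by fun_prop : Measurable fun x : ℝ => Complex.exp (Complex.I * (h x : ℂ))
      ).aestronglyMeasurable]
  simp only [h2, Finset.prod_const, Finset.card_univ, Fintype.card_fin] at h1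
  rw [← h1]
  refine integral_congr_ae (Filter.Eventually.of_forall fun y => ?_)
  simp only
  rw [Finset.mul_sum, Complex.exp_sum, Finset.prod_range]

theorem cs1_meas (h : ℝ → ℝ) (hh : Measurable h) :
    Measurable fun x : Cel => Complex.exp (Complex.I * ∑ j ∈ Finset.range x.1, (h (x.2 j) : ℂ)) := by
  refine measurable_from_prod_countable_right fun n => ?_
  show Measurable fun y : ℕ → ℝ => Complex.exp (Complex.I * ∑ j ∈ Finset.range n, (h (y j) : ℂ))
  have h1 : Measurable fun y : ℕ → ℝ => ∑ j ∈ Finset.range n, (h (y j) : ℂ) :=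
    Finset.measurable_fun_sum _ fun j _ => by fun_prop
  fun_prop

theorem cs1 : S_cs1 := by
  refine ⟨fun h hh => ?_, ?_⟩
  · have hint : Integrable (fun x : Cel =>
        Complex.exp (Complex.I * ∑ j ∈ Finset.range x.1, (h (x.2 j) : ℂ))) celM := by
      refine Integrable.mono' (integrable_const (1 : ℝ)) (cs1_meas h hh).aestronglyMeasurable ?_
      refine Filter.Eventually.of_forall fun x => ?_
      have : Complex.I * ∑ j ∈ Finset.range x.1, (h (x.2 j) : ℂ) =
          ((∑ j ∈ Finset.range x.1, h (x.2 j) : ℝ) : ℂ) * Complex.I := by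
        push_cast
        ring
      rw [this, Complex.norm_exp_ofReal_mul_I]
    unfold celM at hint ⊢
    rw [integral_prod _ hint]
    simp only [cs1_fix h hh]
    set z : ℂ := ∫ u, Complex.exp (Complex.I * (h u : ℂ)) ∂unif with hz
    have h1 : ∫ n : ℕ, z ^ n ∂(poissonMeasure 1) = Complex.exp (z - 1) := by
      rw [integral_poissonMeasure]
      calc ∑' a : ℕ, (Real.exp (-((1 : NNReal) : ℝ)) * ((1 : NNReal) : ℝ) ^ a / (a.factorial : ℝ)) •
            z ^ a = ∑' a : ℕ, ((Real.exp (-1) : ℝ) : ℂ) * (z ^ a / (a.factorial : ℂ)) := by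
            refine tsum_congr fun a => ?_
            rw [Complex.real_smul]
            push_cast
            ring
        _ = ((Real.exp (-1) : ℝ) : ℂ) * ∑' a : ℕ, (z ^ a / (a.factorial : ℂ)) := tsum_mul_left
        _ = ((Real.exp (-1) : ℝ) : ℂ) * Complex.exp z := by
            rw [(NormedSpace.expSeries_div_hasSum_exp z).tsum_eq, Complex.exp_eq_exp_ℂ]
        _ = Complex.exp (z - 1) := by
            rw [Complex.ofReal_exp, ← Complex.exp_add]
            push_cast
            ring_nf
    rw [h1]
    congr 1
    have hI : Integrable (fun u => Complex.exp (Complex.I * (h u : ℂ))) unif := by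
      refine Integrable.mono' (integrable_const (1 : ℝ))
        (by fun_prop : Measurable fun x : ℝ => Complex.exp (Complex.I * (h x : ℂ))
        ).aestronglyMeasurable ?_
      refine Filter.Eventually.of_forall fun x => ?_
      rw [mul_comm, Complex.norm_exp_ofReal_mul_I]
    show z - 1 = ∫ u, (Complex.exp (Complex.I * (h u : ℂ)) - 1) ∂unif
    rw [integral_sub hI (integrable_const _), ← hz]
    simp
  · have hA : ∀ᵐ y ∂(Measure.infinitePi (fun _ : ℕ => unif)),
        (∀ j, y j ∈ Set.Ioc (0 : ℝ) 1) ∧ ∀ i j, y i = y j → i = j := by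
      refine Filter.Eventually.and ?_ ?_
      · rw [ae_all_iff]
        intro j
        have h1 : ∀ᵐ u ∂unif, u ∈ Set.Ioc (0 : ℝ) 1 := ae_restrict_mem measurableSet_Ioc
        exact (measurePreserving_eval_infinitePi (fun _ : ℕ => unif) j).quasiMeasurePreserving.ae h1
      · rw [ae_all_iff]
        intro i
        rw [ae_all_iff]
        intro j
        by_cases hij : i = j
        · exact Filter.Eventually.of_forall fun _ _ => hij
        have h1 := Measure.infinitePi_map_eval_prod (P := fun _ : ℕ => unif) hij
        have h2 : ∀ᵐ p ∂(unif.prod unif), p.1 ≠ p.2 := by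
          have hms : MeasurableSet {p : ℝ × ℝ | p.1 ≠ p.2} :=
            (measurableSet_eq_fun measurable_fst measurable_snd).compl
          rw [Measure.ae_prod_iff_ae_ae hms]
          refine Filter.Eventually.of_forall fun x => ?_
          have : unif {x} = 0 := by simp [unif]
          have h3 : ∀ᵐ y ∂unif, y ≠ x := by
            rw [ae_iff]
            simpa using this
          filter_upwards [h3] with y hy
          exact fun h => hy h.symm
        rw [← h1] at h2
        have h3 := ae_of_ae_map (by fun_prop) h2
        filter_upwards [h3] with y hy h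
        exact absurd h hy
    unfold celM
    exact Measure.quasiMeasurePreserving_snd.ae hA

end TriX
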