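import Pool.Agent.EX.CS1

/-! Project EX (MP_68260e), module CS2: existence of a clock system (helper83). -/

open MeasureTheory ProbabilityTheory

namespace TriX

namespace CS2

/-- The unit cells of all the clocks. -/
abbrev Idx : Type := Edge × ℕ

/-- The sample space of the clocks. -/
abbrev Wsp : Type := Idx → Cel

/-- The law of the clocks. -/
noncomputable def clkM : Measure Wsp := Measure.infinitePi (fun _ : Idx => celM)

instance : IsProbabilityMeasure clkM := by unfold clkM; infer_instance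

/-- The positions in the `n`-th unit interval which belong to `(a, b]`. -/
def seg (a b : ℝ) (n : ℕ) : Set ℝ := {u | u ∈ Set.Ioc (0 : ℝ) 1 ∧ (n : ℝ) + u ∈ Set.Ioc a b}

theorem seg_meas (a b : ℝ) (n : ℕ) : MeasurableSet (seg a b n) := by
  unfold seg
  exact measurableSet_Ioc.inter ((measurable_const_add (n : ℝ)) measurableSet_Ioc)

theorem seg_empty {a b : ℝ} {n : ℕ} (h : b ≤ n) : seg a b n = ∅ := by
  ext u
  simp only [seg, Set.mem_Ioc, Set.mem_ofPred_eq, Set.mem_empty_iff_false, iff_false, not_and,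
    not_le, and_imp]
  intro h1 _ _
  linarith

open Classical in
/-- The number of points of a unit cell with position in `S`. -/
noncomputable def num (S : Set ℝ) (x : Cel) : ℕ :=
  ∑ j ∈ Finset.range x.1, if x.2 j ∈ S then 1 else 0

theorem num_empty (x : Cel) : num ∅ x = 0 := by
  simp [num]

theorem num_meas {S : Set ℝ} (hS : MeasurableSet S) : Measurable (num S) := by
  classical
  refine measurable_from_prod_countable_right fun n => ?_
  show Measurable fun y : ℕ → ℝ => ∑ j ∈ Finset.range n, if y j ∈ S then 1 else 0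
  refine Finset.measurable_fun_sum _ fun j _ => ?_
  exact Measurable.ite ((measurable_pi_apply j) hS) measurable_const measurable_const

/-- The number of rings in `(a, b]`. -/
noncomputable def K (M : ℕ) (c : Edge × ℝ × ℝ) (w : Wsp) : ℕ :=
  ∑ n ∈ Finset.range M, num (seg c.2.1 c.2.2 n) (w (c.1, n))

theorem K_meas (M : ℕ) (c : Edge × ℝ × ℝ) : Measurable (K M c) := by
  unfold K
  refine Finset.measurable_fun_sum _ fun n _ => ?_
  exact (num_meas (seg_meas _ _ _)).comp (measurable_pi_apply _)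

theorem K_eq {M : ℕ} {c : Edge × ℝ × ℝ} (h : ⌈c.2.2⌉₊ ≤ M) (w : Wsp) :
    K M c w = K ⌈c.2.2⌉₊ c w := by
  unfold K
  symm
  refine Finset.sum_subset (Finset.range_mono h) fun n _ hn => ?_
  rw [Finset.mem_range, not_lt] at hn
  rw [seg_empty (Nat.ceil_le.1 hn), num_empty]

/-- Typical cells. -/
def G0 : Set Cel := {x | (∀ j, x.2 j ∈ Set.Ioc (0 : ℝ) 1) ∧ ∀ i j, x.2 i = x.2 j → i = j}

theorem G0_meas : MeasurableSet G0 := by
  have h1 : MeasurableSet {x : Cel | ∀ j, x.2 j ∈ Set.Ioc (0 : ℝ) 1} := by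
    have : {x : Cel | ∀ j, x.2 j ∈ Set.Ioc (0 : ℝ) 1} =
        ⋂ j, {x : Cel | x.2 j ∈ Set.Ioc (0 : ℝ) 1} := by
      ext x
      simp
    rw [this]
    refine MeasurableSet.iInter fun j => ?_
    exact (by fun_prop : Measurable fun x : Cel => x.2 j) measurableSet_Ioc
  have h2 : MeasurableSet {x : Cel | ∀ i j, x.2 i = x.2 j → i = j} := by
    have : {x : Cel | ∀ i j, x.2 i = x.2 j → i = j} =
        ⋂ i, ⋂ j, {x : Cel | x.2 i = x.2 j → i = j} := by
      ext x
      simp
    rw [this]
    refine MeasurableSet.iInter fun i => MeasurableSet.iInter fun j => ?_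
    by_cases hij : i = j
    · simp [hij]
    · have : {x : Cel | x.2 i = x.2 j → i = j} = {x : Cel | x.2 i = x.2 j}ᶜ := by
        ext x
        simp [hij]
      rw [this]
      exact (measurableSet_eq_fun (by fun_prop) (by fun_prop)).compl
  exact h1.inter h2

/-- Typical configurations. -/
def G : Set Wsp := {w | ∀ p, w p ∈ G0}

theorem G_meas : MeasurableSet G := by
  have : G = ⋂ p, {w : Wsp | w p ∈ G0} := by
    ext w
    simp [G]
  rw [this]
  exact MeasurableSet.iInter fun p => (measurable_pi_apply p) G0_meas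

theorem G_ae (h : S_cs1) : ∀ᵐ w ∂clkM, w ∈ G := by
  have : ∀ᵐ w ∂clkM, ∀ p, w p ∈ G0 := by
    rw [ae_all_iff]
    intro p
    exact (measurePreserving_eval_infinitePi (fun _ : Idx => celM) p).quasiMeasurePreserving.ae h.2
  exact this

/-- The points of the clock of `e`. -/
def ring0 (e : Edge) (w : Wsp) : Set ℝ := {t | ∃ n j : ℕ, j < (w (e, n)).1 ∧ t = n + (w (e, n)).2 j}

theorem encard_ring0 {w : Wsp} (hw : w ∈ G) (c : Edge × ℝ × ℝ) :
    (ring0 c.1 w ∩ Set.Ioc c.2.1 c.2.2).encard = (K ⌈c.2.2⌉₊ c w : ℕ∞) := by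
  classical
  obtain ⟨e, a, b⟩ := c
  simp only
  set M := ⌈b⌉₊ with hM
  let T : Finset (Σ _ : ℕ, ℕ) := (Finset.range M).sigma fun n =>
    (Finset.range (w (e, n)).1).filter fun j => (w (e, n)).2 j ∈ seg a b n
  let f : (Σ _ : ℕ, ℕ) → ℝ := fun p => (p.1 : ℝ) + (w (e, p.1)).2 p.2
  have hf : Set.InjOn f (T : Set (Σ _ : ℕ, ℕ)) := by
    rintro ⟨n, j⟩ - ⟨n', j'⟩ - h
    have h' : (n : ℝ) + (w (e, n)).2 j = (n' : ℝ) + (w (e, n')).2 j' := h
    have h1 := (hw (e, n)).1 j
    have h2 := (hw (e, n')).1 j'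
    have h3 : n = n' := by
      rcases lt_trichotomy n n' with h4 | h4 | h4
      · exfalso
        have : (n : ℝ) + 1 ≤ n' := by exact_mod_cast h4
        linarith [h1.2, h2.1]
      · exact h4
      · exfalso
        have : (n' : ℝ) + 1 ≤ n := by exact_mod_cast h4
        linarith [h1.1, h2.2]
    subst h3
    have h4 : j = j' := (hw (e, n)).2 j j' (by linarith)
    rw [h4]
  have hset : ring0 e w ∩ Set.Ioc a b = ((T.image f : Finset ℝ) : Set ℝ) := by
    ext t
    rw [Finset.coe_image, Set.mem_image]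
    constructor
    · rintro ⟨⟨n, j, hj, rfl⟩, ht⟩
      refine ⟨⟨n, j⟩, Finset.mem_coe.2 (Finset.mem_sigma.2 ⟨Finset.mem_range.2 ?_,
        Finset.mem_filter.2 ⟨Finset.mem_range.2 hj, (hw (e, n)).1 j, ht⟩⟩), rfl⟩
      rw [hM, Nat.lt_ceil]
      simp only
      linarith [((hw (e, n)).1 j).1, ht.2]
    · rintro ⟨⟨n, j⟩, hm, rfl⟩
      have h2 := Finset.mem_filter.1 (Finset.mem_sigma.1 (Finset.mem_coe.1 hm)).2
      exact ⟨⟨n, j, Finset.mem_range.1 h2.1, rfl⟩, h2.2.2⟩
  rw [hset, Set.encard_coe_eq_coe_finsetCard, Finset.card_image_of_injOn hf, Finset.card_sigma]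
  congr 1
  refine Finset.sum_congr rfl fun n _ => ?_
  rw [num, Finset.card_filter]

/-! ### The joint characteristic function -/

/-- The total length of the pieces of `(a, b]` in the first `M` unit intervals. -/
noncomputable def len (M : ℕ) (a b : ℝ) : ℝ := ∑ n ∈ Finset.range M, volume.real (seg a b n)

open Classical in
/-- The test function of the cell `p`. -/
noncomputable def hfun {n : ℕ} (c : Fin n → Edge × ℝ × ℝ) (t : Fin n → ℝ) (p : Idx) (u : ℝ) : ℝ :=
  ∑ i, if (c i).1 = p.1 ∧ u ∈ seg (c i).2.1 (c i).2.2 p.2 then t i else 0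

theorem hfun_meas {n : ℕ} (c : Fin n → Edge × ℝ × ℝ) (t : Fin n → ℝ) (p : Idx) :
    Measurable (hfun c t p) := by
  classical
  unfold hfun
  refine Finset.measurable_fun_sum _ fun i _ => ?_
  by_cases h : (c i).1 = p.1
  · simp only [h, true_and]
    exact Measurable.ite (seg_meas _ _ _) measurable_const measurable_const
  · simp only [h, false_and, if_false]
    exact measurable_const

/-- The cells touched. -/
noncomputable def FF {n : ℕ} (c : Fin n → Edge × ℝ × ℝ) (M : ℕ) : Finset Idx :=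
  (Finset.univ.image fun i => (c i).1) ×ˢ Finset.range M

theorem sum_eq {n : ℕ} (c : Fin n → Edge × ℝ × ℝ) (t : Fin n → ℝ) (M : ℕ) (w : Wsp) :
    ∑ i, t i * (K M (c i) w : ℝ) =
      ∑ p ∈ FF c M, ∑ j ∈ Finset.range (w p).1, hfun c t p ((w p).2 j) := by
  classical
  have h1 : ∀ p : Idx, ∑ j ∈ Finset.range (w p).1, hfun c t p ((w p).2 j) =
      ∑ i, if (c i).1 = p.1 then t i * (num (seg (c i).2.1 (c i).2.2 p.2) (w p) : ℝ) else 0 := by
    intro p
    unfold hfun
    rw [Finset.sum_comm]
    refine Finset.sum_congr rfl fun i _ => ?_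
    by_cases h : (c i).1 = p.1
    · simp only [h, true_and, if_true]
      unfold num
      push_cast
      rw [Finset.mul_sum]
      refine Finset.sum_congr rfl fun j _ => ?_
      by_cases h2 : (w p).2 j ∈ seg (c i).2.1 (c i).2.2 p.2 <;> simp [h2]
    · simp [h]
  simp only [h1]
  unfold FF
  rw [Finset.sum_product_right]
  simp only
  have h2 : ∀ m ∈ Finset.range M, ∑ e ∈ Finset.univ.image fun i => (c i).1,
      ∑ i, (if (c i).1 = e then t i * (num (seg (c i).2.1 (c i).2.2 m) (w (e, m)) : ℝ) else 0) =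
      ∑ i, t i * (num (seg (c i).2.1 (c i).2.2 m) (w ((c i).1, m)) : ℝ) := by
    intro m _
    rw [Finset.sum_comm]
    refine Finset.sum_congr rfl fun i _ => ?_
    rw [Finset.sum_ite_eq (Finset.univ.image fun i => (c i).1) ((c i).1)
      (fun e => t i * (num (seg (c i).2.1 (c i).2.2 m) (w (e, m)) : ℝ))]
    rw [if_pos (Finset.mem_image_of_mem _ (Finset.mem_univ i))]
  rw [Finset.sum_congr rfl h2, Finset.sum_comm]
  refine Finset.sum_congr rfl fun i _ => ?_
  unfold K
  push_cast
  rw [Finset.mul_sum]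

/-- Expectation of a product over finitely many cells. -/
theorem prod_cells (F : Finset Idx) (g : Idx → Cel → ℂ) (hg : ∀ p, Measurable (g p)) :
    ∫ w, ∏ p ∈ F, g p (w p) ∂clkM = ∏ p ∈ F, ∫ x, g p x ∂celM := by
  have hind : iIndepFun (fun (p : F) (w : Wsp) => w p) clkM :=
    iIndepFun.precomp Subtype.val_injective
      (iIndepFun_infinitePi (P := fun _ : Idx => celM) (X := fun _ x => x) fun _ => measurable_id)
  have h1 := iIndepFun.integral_fun_prod_comp (ι := F)
    (X := fun (p : F) (w : Wsp) => w p) (μ := clkM)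
    (f := fun (p : F) => g p) hind
    (fun p => (measurable_pi_apply (p : Idx)).aemeasurable)
    (fun p => (hg p).aestronglyMeasurable)
  rw [← Finset.prod_coe_sort F fun p => ∫ x, g p x ∂celM]
  have h2 : ∀ p : F, ∫ w : Wsp, g p (w p) ∂clkM = ∫ x, g p x ∂celM := by
    intro p
    have h3 := Measure.infinitePi_map_eval (fun _ : Idx => celM) (p : Idx)
    conv_rhs => rw [← h3]
    rw [integral_map (measurable_pi_apply _).aemeasurable (hg p).aestronglyMeasurable]
    rfl
  simp only [h2] at h1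
  rw [← h1]
  refine integral_congr_ae (Filter.Eventually.of_forall fun w => ?_)
  simp only
  rw [← Finset.prod_coe_sort F fun p => g p (w p)]

theorem exp_hfun {n : ℕ} (c : Fin n → Edge × ℝ × ℝ)
    (hd : ∀ i j, i ≠ j → (c i).1 ≠ (c j).1 ∨
      Disjoint (Set.Ioc (c i).2.1 (c i).2.2) (Set.Ioc (c j).2.1 (c j).2.2))
    (t : Fin n → ℝ) (p : Idx) [∀ i : Fin n, Decidable ((c i).1 = p.1)] :
    ∫ u in Set.Ioc (0 : ℝ) 1, (Complex.exp (Complex.I * (hfun c t p u : ℂ)) - 1) =
      ∑ i, if (c i).1 = p.1 then (volume.real (seg (c i).2.1 (c i).2.2 p.2) : ℂ) *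
        (Complex.exp (Complex.I * (t i : ℂ)) - 1) else 0 := by
  classical
  have h1 : ∀ u, Complex.exp (Complex.I * (hfun c t p u : ℂ)) - 1 =
      ∑ i, if (c i).1 = p.1 ∧ u ∈ seg (c i).2.1 (c i).2.2 p.2 then
        (Complex.exp (Complex.I * (t i : ℂ)) - 1) else 0 := by
    intro u
    by_cases hu : ∃ i, (c i).1 = p.1 ∧ u ∈ seg (c i).2.1 (c i).2.2 p.2
    · obtain ⟨i, hi1, hi2⟩ := hu
      have h2 : ∀ j, j ≠ i → ¬ ((c j).1 = p.1 ∧ u ∈ seg (c j).2.1 (c j).2.2 p.2) := by
        rintro j hj ⟨hj1, hj2⟩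
        rcases hd j i hj with h3 | h3
        · exact h3 (hj1.trans hi1.symm)
        · exact Set.disjoint_left.1 h3 hj2.2 hi2.2
      have e1 : hfun c t p u = t i := by
        unfold hfun
        exact (Finset.sum_eq_single i (fun j _ hj => if_neg (h2 j hj))
          (fun h => absurd (Finset.mem_univ i) h)).trans (if_pos ⟨hi1, hi2⟩)
      rw [e1]
      symm
      exact (Finset.sum_eq_single i (fun j _ hj => if_neg (h2 j hj))
          (fun h => absurd (Finset.mem_univ i) h)).trans (if_pos ⟨hi1, hi2⟩)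
    · push Not at hu
      have e1 : hfun c t p u = 0 := by
        unfold hfun
        exact Finset.sum_eq_zero fun i _ => if_neg fun (h : _ ∧ _) => hu i h.1 h.2
      rw [e1, Finset.sum_eq_zero fun i _ => if_neg fun (h : _ ∧ _) => hu i h.1 h.2]
      simp
  simp only [h1]
  have h2 : ∀ i, ∀ u, (if (c i).1 = p.1 ∧ u ∈ seg (c i).2.1 (c i).2.2 p.2 then
        (Complex.exp (Complex.I * (t i : ℂ)) - 1) else 0) =
      (if (c i).1 = p.1 then (seg (c i).2.1 (c i).2.2 p.2).indicator
        (fun _ => Complex.exp (Complex.I * (t i : ℂ)) - 1) u else 0) := by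
    intro i u
    by_cases h3 : (c i).1 = p.1 <;> simp [h3, Set.indicator]
  simp only [h2]
  rw [integral_finsetSum]
  · refine Finset.sum_congr rfl fun i _ => ?_
    by_cases h3 : (c i).1 = p.1
    · simp only [h3, if_true]
      rw [integral_indicator (seg_meas _ _ _), Measure.restrict_restrict (seg_meas _ _ _)]
      have h4 : seg (c i).2.1 (c i).2.2 p.2 ∩ Set.Ioc (0 : ℝ) 1 = seg (c i).2.1 (c i).2.2 p.2 :=
        Set.inter_eq_left.2 fun u hu => hu.1
      rw [h4, integral_const]
      simp only [MeasurableSet.univ, measureReal_restrict_apply, Set.univ_inter]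
      rw [Complex.real_smul]
    · simp [h3]
  · intro i _
    by_cases h3 : (c i).1 = p.1
    · simp only [h3, if_true]
      exact (integrable_const _).indicator (seg_meas _ _ _)
    · simp [h3]

/-- The joint characteristic function of the numbers of rings. -/
theorem joint (h : S_cs1) {n : ℕ} (c : Fin n → Edge × ℝ × ℝ)
    (hd : ∀ i j, i ≠ j → (c i).1 ≠ (c j).1 ∨
      Disjoint (Set.Ioc (c i).2.1 (c i).2.2) (Set.Ioc (c j).2.1 (c j).2.2))
    (t : Fin n → ℝ) (M : ℕ) :
    ∫ w, Complex.exp (Complex.I * ((∑ i, t i * (K M (c i) w : ℝ) : ℝ) : ℂ)) ∂clkM =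
      ∏ i, Complex.exp ((len M (c i).2.1 (c i).2.2 : ℂ) *
        (Complex.exp (Complex.I * (t i : ℂ)) - 1)) := by
  classical
  have h1 : ∀ w : Wsp, Complex.exp (Complex.I * ((∑ i, t i * (K M (c i) w : ℝ) : ℝ) : ℂ)) =
      ∏ p ∈ FF c M, Complex.exp (Complex.I *
        ∑ j ∈ Finset.range (w p).1, (hfun c t p ((w p).2 j) : ℂ)) := by
    intro w
    rw [sum_eq, ← Complex.exp_sum]
    push_cast
    rw [Finset.mul_sum]
  simp only [h1]
  rw [prod_cells (FF c M) (fun p x => Complex.exp (Complex.I *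
        ∑ j ∈ Finset.range x.1, (hfun c t p (x.2 j) : ℂ))) fun p => cs1_meas _ (hfun_meas c t p)]
  simp only [h.1 _ (hfun_meas c t _), exp_hfun c hd t]
  rw [← Complex.exp_sum, ← Complex.exp_sum]
  congr 1
  unfold FF
  rw [Finset.sum_product_right]
  simp only
  have h2 : ∀ m ∈ Finset.range M, ∑ e ∈ Finset.univ.image fun i => (c i).1,
      ∑ i, (if (c i).1 = e then (volume.real (seg (c i).2.1 (c i).2.2 m) : ℂ) *
        (Complex.exp (Complex.I * (t i : ℂ)) - 1) else 0) =
      ∑ i, (volume.real (seg (c i).2.1 (c i).2.2 m) : ℂ) *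
        (Complex.exp (Complex.I * (t i : ℂ)) - 1) := by
    intro m _
    rw [Finset.sum_comm]
    refine Finset.sum_congr rfl fun i _ => ?_
    rw [Finset.sum_ite_eq, if_pos (Finset.mem_image_of_mem _ (Finset.mem_univ i))]
  rw [Finset.sum_congr rfl h2, Finset.sum_comm]
  refine Finset.sum_congr rfl fun i _ => ?_
  unfold len
  push_cast
  rw [Finset.sum_mul]

/-! ### Laws and independence of the counts -/

theorem Kr_meas (M : ℕ) (c : Edge × ℝ × ℝ) : Measurable fun w : Wsp => (K M c w : ℝ) :=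
  measurable_from_top.comp (K_meas M c)

theorem charFun_K (h : S_cs1) (c : Edge × ℝ × ℝ) (M : ℕ) (t : ℝ) :
    charFun (clkM.map fun w => (K M c w : ℝ)) t =
      Complex.exp ((len M c.2.1 c.2.2 : ℂ) * (Complex.exp (Complex.I * (t : ℂ)) - 1)) := by
  have h1 := joint h (n := 1) (fun _ => c) (fun i j hij => absurd (Subsingleton.elim i j) hij)
    (fun _ => t) M
  simp only [Finset.univ_unique, Finset.sum_singleton, Finset.prod_singleton] at h1
  rw [← h1, charFun_apply, integral_map (Kr_meas M c).aemeasurable (by fun_prop)]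
  refine integral_congr_ae (Filter.Eventually.of_forall fun w => ?_)
  simp only [Real.inner_apply]
  congr 1
  push_cast
  ring

theorem indep_K (h : S_cs1) {n : ℕ} (c : Fin n → Edge × ℝ × ℝ)
    (hd : ∀ i j, i ≠ j → (c i).1 ≠ (c j).1 ∨
      Disjoint (Set.Ioc (c i).2.1 (c i).2.2) (Set.Ioc (c j).2.1 (c j).2.2)) (M : ℕ) :
    iIndepFun (fun i (w : Wsp) => (K M (c i) w : ℝ)) clkM := by
  rw [iIndepFun_iff_charFun_pi fun i => (Kr_meas M (c i)).aemeasurable]
  intro t
  simp only [charFun_K h]
  have hm : Measurable fun w : Wsp => WithLp.toLp 2 fun i => (K M (c i) w : ℝ) :=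
    (WithLp.measurable_toLp 2 _).comp (measurable_pi_lambda _ fun i => Kr_meas M (c i))
  rw [charFun_apply, integral_map hm.aemeasurable (by fun_prop)]
  have h1 := joint h c hd (fun i => t i) M
  rw [← h1]
  refine integral_congr_ae (Filter.Eventually.of_forall fun w => ?_)
  simp only [PiLp.inner_apply, Real.inner_apply]
  congr 1
  rw [mul_comm]
  congr 2
  exact Finset.sum_congr rfl fun i _ => mul_comm _ _

theorem len_seg {a b : ℝ} (hab : a < b) (n : ℕ) :
    volume.real (seg a b n) = max a (min b ((n + 1 : ℕ) : ℝ)) - max a (min b (n : ℝ)) := by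
  have h1 : seg a b n = (fun u => (n : ℝ) + u) ⁻¹' Set.Ioc (max a n) (min b (n + 1)) := by
    ext u
    simp only [seg, Set.mem_Ioc, Set.mem_ofPred_eq, Set.mem_preimage, sup_lt_iff, le_inf_iff]
    constructor
    · rintro ⟨⟨h1, h2⟩, h3, h4⟩
      exact ⟨⟨h3, by linarith⟩, h4, by linarith⟩
    · rintro ⟨⟨h1, h2⟩, h3, h4⟩
      exact ⟨⟨by linarith, by linarith⟩, h1, h3⟩
  rw [h1, measureReal_def, measure_preimage_add, ← measureReal_def, Real.volume_real_Ioc]
  push_cast
  simp only [max_def, min_def]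
  split_ifs <;> linarith

theorem len_eq {a b : ℝ} (ha : 0 ≤ a) (hab : a < b) {M : ℕ} (hM : b ≤ M) : len M a b = b - a := by
  unfold len
  simp only [len_seg hab]
  rw [Finset.sum_range_sub (fun n : ℕ => max a (min b (n : ℝ))) M]
  rw [min_eq_left hM, max_eq_right hab.le, Nat.cast_zero, min_eq_right (ha.trans hab.le),
    max_eq_left ha]

theorem law_K (h : S_cs1) {e : Edge} {a b : ℝ} (ha : 0 ≤ a) (hab : a < b) {M : ℕ} (hM : b ≤ M)
    (n : ℕ) : clkM {w | K M (e, a, b) w = n} =
      ENNReal.ofReal (Real.exp (-(b - a)) * (b - a) ^ n / n.factorial) := by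
  have hr : 0 ≤ b - a := by linarith
  let r : NNReal := ⟨b - a, hr⟩
  have h1 : clkM.map (fun w => (K M (e, a, b) w : ℝ)) =
      (poissonMeasure r).map (Nat.cast : ℕ → ℝ) := by
    have := Measure.isProbabilityMeasure_map (Kr_meas M (e, a, b)).aemeasurable (μ := clkM)
    apply Measure.ext_of_charFun
    ext t
    rw [charFun_K h, charFun_map_cast_poissonMeasure, len_eq ha hab hM, mul_comm Complex.I]
    rfl
  have h2 : clkM {w | K M (e, a, b) w = n} =
      clkM.map (fun w => (K M (e, a, b) w : ℝ)) {(n : ℝ)} := by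
    rw [Measure.map_apply (Kr_meas M (e, a, b)) (measurableSet_singleton _)]
    congr 1
    ext w
    simp
  have h3 : (Nat.cast : ℕ → ℝ) ⁻¹' {(n : ℝ)} = {n} := by
    ext m
    simp
  rw [h2, h1, Measure.map_apply measurable_from_top (measurableSet_singleton _), h3,
    poissonMeasure_singleton]
  rfl

/-! ### The clock system -/

open Classical in
/-- The number of rings. -/
noncomputable def cn (c : Edge × ℝ × ℝ) (w : Wsp) : ℕ∞ :=
  if w ∈ G then (K ⌈c.2.2⌉₊ c w : ℕ∞) else 0

theorem cn_meas (c : Edge × ℝ × ℝ) : Measurable (cn c) := by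
  classical
  unfold cn
  exact Measurable.ite G_meas (measurable_from_top.comp (K_meas _ c)) measurable_const

theorem cn_ae (h : S_cs1) {c : Edge × ℝ × ℝ} {M : ℕ} (hM : ⌈c.2.2⌉₊ ≤ M) :
    (fun w => (K M c w : ℕ∞)) =ᵐ[clkM] cn c := by
  filter_upwards [G_ae h] with w hw
  rw [cn, if_pos hw, K_eq hM]

theorem cn_poisson (h : S_cs1) (e : Edge) (a b : ℝ) (ha : 0 ≤ a) (hab : a < b) (n : ℕ) :
    clkM {w | cn (e, a, b) w = n} =
      ENNReal.ofReal (Real.exp (-(b - a)) * (b - a) ^ n / n.factorial) := by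
  rw [← law_K h (e := e) ha hab (Nat.le_ceil b) n]
  apply measure_congr
  filter_upwards [G_ae h] with w hw
  apply propext
  show cn (e, a, b) w = n ↔ K ⌈b⌉₊ (e, a, b) w = n
  rw [cn, if_pos hw]
  simp

theorem cn_indep (h : S_cs1) (n : ℕ) (c : Fin n → Edge × ℝ × ℝ)
    (hd : ∀ i j, i ≠ j → (c i).1 ≠ (c j).1 ∨
      Disjoint (Set.Ioc (c i).2.1 (c i).2.2) (Set.Ioc (c j).2.1 (c j).2.2)) :
    iIndepFun (fun i => cn (c i)) clkM := by
  set M : ℕ := Finset.univ.sup fun i => ⌈(c i).2.2⌉₊ with hM
  have h1 := (indep_K h c hd M).comp (fun _ (x : ℝ) => ((⌊x⌋₊ : ℕ) : ℕ∞))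
    fun _ => measurable_from_top.comp Nat.measurable_floor
  refine h1.congr fun i => ?_
  have h2 := cn_ae h (c := c i) (M := M)
    (Finset.le_sup (f := fun i => ⌈(c i).2.2⌉₊) (Finset.mem_univ i))
  filter_upwards [h2] with w hw
  rw [← hw]
  simp

end CS2

open CS2

instance : IsProbabilityMeasure (fair V) := by
  unfold fair
  infer_instance

theorem iIndepFun_fst {α β ι : Type} {E : ι → Type} [MeasurableSpace α] [MeasurableSpace β]
    [∀ i, MeasurableSpace (E i)] {μ : Measure α} {ν : Measure β} [IsProbabilityMeasure μ]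
    [IsProbabilityMeasure ν] {X : (i : ι) → α → E i} (mX : ∀ i, Measurable (X i))
    (h : iIndepFun X μ) : iIndepFun (fun i (ω : α × β) => X i ω.1) (μ.prod ν) := by
  have hm : ∀ i, Measurable (fun ω : α × β => X i ω.1) := fun i => (mX i).comp measurable_fst
  rw [iIndepFun_iff_map_fun_eq_infinitePi_map mX] at h
  rw [iIndepFun_iff_map_fun_eq_infinitePi_map hm]
  have h1 : ∀ i, (μ.prod ν).map (fun ω : α × β => X i ω.1) = μ.map (X i) := fun i => by
    rw [← Function.comp_def, ← Measure.map_map (mX i) measurable_fst, Measure.map_fst_prod,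
      measure_univ, one_smul]
  simp only [h1]
  rw [← h]
  have h2 : (fun (ω : α × β) i => X i ω.1) = (fun (a : α) i => X i a) ∘ Prod.fst := rfl
  rw [h2, ← Measure.map_map (measurable_pi_lambda _ mX) measurable_fst, Measure.map_fst_prod,
      measure_univ, one_smul]

theorem iIndepFun_snd {α β ι : Type} {E : ι → Type} [MeasurableSpace α] [MeasurableSpace β]
    [∀ i, MeasurableSpace (E i)] {μ : Measure α} {ν : Measure β} [IsProbabilityMeasure μ]
    [IsProbabilityMeasure ν] {X : (i : ι) → β → E i} (mX : ∀ i, Measurable (X i))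
    (h : iIndepFun X ν) : iIndepFun (fun i (ω : α × β) => X i ω.2) (μ.prod ν) := by
  have hm : ∀ i, Measurable (fun ω : α × β => X i ω.2) := fun i => (mX i).comp measurable_snd
  rw [iIndepFun_iff_map_fun_eq_infinitePi_map mX] at h
  rw [iIndepFun_iff_map_fun_eq_infinitePi_map hm]
  have h1 : ∀ i, (μ.prod ν).map (fun ω : α × β => X i ω.2) = ν.map (X i) := fun i => by
    rw [← Function.comp_def, ← Measure.map_map (mX i) measurable_snd, Measure.map_snd_prod,
      measure_univ, one_smul]
  simp only [h1]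
  rw [← h]
  have h2 : (fun (ω : α × β) i => X i ω.2) = (fun (a : β) i => X i a) ∘ Prod.snd := rfl
  rw [h2, ← Measure.map_map (measurable_pi_lambda _ mX) measurable_snd, Measure.map_snd_prod,
      measure_univ, one_smul]

open Classical in
theorem cs2 (h : S_cs1) : S_clock := by
  refine ⟨Wsp × (V → Bool), inferInstance, clkM.prod (fair V), inferInstance,
    fun v ω => ω.2 v, fun e ω => if ω.1 ∈ G then ring0 e ω.1 else ∅, ?_⟩
  have hcnt : ∀ c (ω : Wsp × (V → Bool)),
      cnt (fun e (ω : Wsp × (V → Bool)) => if ω.1 ∈ G then ring0 e ω.1 else ∅) c ω =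
        cn c ω.1 := by
    intro c ω
    unfold cnt cn
    by_cases hω : ω.1 ∈ G
    · simp only [hω, if_true]
      exact encard_ring0 hω c
    · simp [hω]
  have hcnt' : ∀ c, cnt (fun e (ω : Wsp × (V → Bool)) => if ω.1 ∈ G then ring0 e ω.1 else ∅) c =
        fun ω => cn c ω.1 := fun c => funext (hcnt c)
  have hfair : iIndepFun (fun (v : V) (b : V → Bool) => b v) (fair V) :=
    iIndepFun_infinitePi (P := fun _ : V => (PMF.uniformOfFintype Bool).toMeasure)
      (X := fun _ b => b) fun _ => measurable_id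
  constructor
  · intro v
    exact (measurable_pi_apply v).comp measurable_snd
  · intro v
    have h0 : Measurable fun b : V → Bool => b v := measurable_pi_apply v
    have h1 : MeasurableSet {b : V → Bool | b v = true} := h0 (measurableSet_singleton true)
    have h2 : (clkM.prod (fair V)) {ω | ω.2 v = true} = fair V {b | b v = true} :=
      (measurePreserving_snd (μ := clkM) (ν := fair V)).measure_preimage h1.nullMeasurableSet
    rw [h2]
    have h3 : fair V {b | b v = true} = (PMF.uniformOfFintype Bool).toMeasure {true} :=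
      (measurePreserving_eval_infinitePi (fun _ : V => (PMF.uniformOfFintype Bool).toMeasure)
        v).measure_preimage (measurableSet_singleton true).nullMeasurableSet
    rw [h3, PMF.toMeasure_apply_singleton _ _ (measurableSet_singleton _)]
    simp
  · exact iIndepFun_snd (fun v => measurable_pi_apply v) hfair
  · intro c
    rw [hcnt']
    exact (cn_meas c).comp measurable_fst
  · intro e a b ha hab n
    simp only [hcnt]
    have h1 : MeasurableSet {w : Wsp | cn (e, a, b) w = n} :=
      (cn_meas _) (measurableSet_singleton _)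
    rw [← cn_poisson h e a b ha hab n]
    exact (measurePreserving_fst (μ := clkM) (ν := fair V)).measure_preimage h1.nullMeasurableSet
  · intro n c _ hd
    simp only [hcnt']
    exact iIndepFun_fst (fun i => cn_meas (c i)) (cn_indep h n c hd)
  · simp only [hcnt]
    exact (indepFun_prod (X := fun (w : Wsp) c => cn c w) (Y := fun (b : V → Bool) v => b v)
      (measurable_pi_lambda _ fun c => cn_meas c) (measurable_pi_lambda _ measurable_pi_apply)).symm

/-- There is a clock system. -/
theorem clock : S_clock := cs2 cs1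

end TriX
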