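import Pool.Agent.EX.All

/-! Project EX (MP_68260e): the final statement, with existence and uniqueness of the process. -/

open MeasureTheory ProbabilityTheory

namespace TriX

/-- For every clock system: almost surely there is exactly one exclusion process (for times
`t ≥ 0`) started from the fair bits, and it has an exceptional time. -/
def S_mainU : Prop := ∀ (Ω : Type) [MeasurableSpace Ω] (P : Measure Ω) [IsProbabilityMeasure P]
  (ξ : V → Ω → Bool) (ring : Edge → Ω → Set ℝ), IsClockSystem P ξ ring →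
  ∀ᵐ ω ∂P, (∃ η : ℝ → V → Bool, IsExclusion (fun e => ring e ω) η ∧ ∀ v, η 0 v = ξ v ω) ∧
    (∀ η η' : ℝ → V → Bool, IsExclusion (fun e => ring e ω) η →
      IsExclusion (fun e => ring e ω) η' → (∀ v, η 0 v = ξ v ω) → (∀ v, η' 0 v = ξ v ω) →
      ∀ t : ℝ, 0 ≤ t → η t = η' t) ∧
    ∀ η : ℝ → V → Bool, IsExclusion (fun e => ring e ω) η → (∀ v, η 0 v = ξ v ω) →
      ∃ t : ℝ, 0 ≤ t ∧ HasInfCluster {v | η t v = true}

theorem f_mainU : S_mainU := by
  intro Ω _ P _ ξ ring hc
  filter_upwards [f_main Ω P ξ ring hc, p_reg p_reachProb Ω P ξ ring hc] with ω hω hreg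
  refine ⟨hω.1, ?_, hω.2⟩
  intro η η' hη hη' h0 h0' t ht
  funext v
  exact u_unique hreg hη hη' (fun v => by rw [h0 v, h0' v]) t ht v

end TriX
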