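import Pool.Agent.EX.Spec2

/-! LB2, LB3: lower bound of the two-arm probability and its consequences. -/

open MeasureTheory

namespace TriX

theorem lb_union (hb : S_PrBasic) {ι : Type} (s : Finset ι) (f : ι → Set V → Prop) :
    Pr (fun B => ∃ i ∈ s, f i B) ≤ ∑ i ∈ s, Pr (f i) := by
  classical
  induction s using Finset.induction_on with
  | empty =>
    have h := hb V (fun _ => False) (fun _ => False)
    have h1 := hb V (fun _ => True) (fun _ => True)
    have hT : Pr (fun _ : Set V => True) = 1 := h.2.2.2.2.2.2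
    have hloc : Loc (fun _ : Set V => True) := ⟨∅, fun _ _ _ => rfl⟩
    have h2 := h1.2.2.2.2.1 hloc
    have e : (fun B : Set V => ∃ i ∈ (∅ : Finset ι), f i B) = (fun _ : Set V => ¬ True) := by
      funext B
      simp
    rw [e, h2, hT]
    simp
  | insert a s ha ih =>
    have h := (hb V (f a) (fun B => ∃ i ∈ s, f i B)).2.2.2.1
    have h2 := (hb V (fun B => ∃ i ∈ insert a s, f i B)
      (fun B => f a B ∨ ∃ i ∈ s, f i B)).2.2.1 (by
        rintro B ⟨i, hi, hfi⟩
        rcases Finset.mem_insert.mp hi with rfl | hi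
        · exact Or.inl hfi
        · exact Or.inr ⟨i, hi, hfi⟩)
    rw [Finset.sum_insert ha]
    linarith

theorem box_finite (x1 x2 y1 y2 : ℤ) : (Box x1 x2 y1 y2).Finite := by
  apply Set.Finite.subset ((Set.finite_Icc x1 x2).prod (Set.finite_Icc y1 y2))
  rintro ⟨a, b⟩ ⟨h1, h2, h3, h4⟩
  exact ⟨⟨h1, h2⟩, ⟨h3, h4⟩⟩

theorem lr_depOn (x1 x2 y1 y2 : ℤ) : DepOn (LR x1 x2 y1 y2) (Box x1 x2 y1 y2) := by
  intro B B' h
  unfold LR
  rw [h]

theorem lrc_depOn (x1 x2 y1 y2 : ℤ) :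
    DepOn (fun B => LR x1 x2 y1 y2 Bᶜ) (Box x1 x2 y1 y2) := by
  intro B B' h
  have e : Bᶜ ∩ Box x1 x2 y1 y2 = B'ᶜ ∩ Box x1 x2 y1 y2 := by
    ext v
    have hv : v ∈ B ∩ Box x1 x2 y1 y2 ↔ v ∈ B' ∩ Box x1 x2 y1 y2 := by rw [h]
    simp only [Set.mem_inter_iff, Set.mem_compl_iff] at hv ⊢
    tauto
  show LR x1 x2 y1 y2 Bᶜ = LR x1 x2 y1 y2 B'ᶜ
  unfold LR
  rw [e]

/-- Both crossings have probability at least `c ^ 2`. -/
theorem lb_two (hr : S_RSW) (hi : S_PrIndep) (hf : S_PrFlip) : ∃ c : ℝ, 0 < c ∧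
    ∀ p : ℕ, 1 ≤ p → c ≤ Pr (fun B => LR (-(3 * p)) (3 * p) (-(2 * p)) (-p) B ∧
      LR (-(3 * p)) (3 * p) p (2 * p) Bᶜ) := by
  classical
  obtain ⟨c, hc, H⟩ := hr 6
  refine ⟨c ^ 2, by positivity, ?_⟩
  intro p hp
  have h1 := (H p (6 * p) hp le_rfl (-(3 * p)) (-(2 * p))).1
  have h2 := (H p (6 * p) hp le_rfl (-(3 * p)) p).1
  have e1 : (-(3 * (p : ℤ)) + ((6 * p : ℕ) : ℤ)) = 3 * p := by push_cast; ring
  have e2 : (-(2 * (p : ℤ)) + (p : ℤ)) = -p := by ring
  have e3 : ((p : ℤ) + (p : ℤ)) = 2 * p := by ring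
  rw [e1, e2] at h1
  rw [e1, e3] at h2
  have h3 : Pr (fun B => LR (-(3 * (p : ℤ))) (3 * p) p (2 * p) Bᶜ) =
      Pr (LR (-(3 * (p : ℤ))) (3 * p) p (2 * p)) := by
    have := hf V Set.univ (LR (-(3 * (p : ℤ))) (3 * p) p (2 * p))
    rw [← this]
    congr 1
    funext B
    congr 1
    ext v
    simp [Set.mem_symmDiff]
  have h4 := hi V (LR (-(3 * (p : ℤ))) (3 * p) (-(2 * p)) (-p))
    (fun B => LR (-(3 * (p : ℤ))) (3 * p) p (2 * p) Bᶜ)
    (box_finite (-(3 * (p : ℤ))) (3 * p) (-(2 * p)) (-p)).toFinset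
    (box_finite (-(3 * (p : ℤ))) (3 * p) p (2 * p)).toFinset
    (by rw [Set.Finite.coe_toFinset]; exact lr_depOn _ _ _ _)
    (by rw [Set.Finite.coe_toFinset]; exact lrc_depOn _ _ _ _)
    (by
      rw [Finset.disjoint_left]
      intro v hv hv'
      rw [Set.Finite.mem_toFinset] at hv hv'
      obtain ⟨_, _, _, a⟩ := hv
      obtain ⟨_, _, b, _⟩ := hv'
      have : (1 : ℤ) ≤ p := by exact_mod_cast hp
      omega)
  rw [h4, h3, sq]
  exact mul_le_mul h1 h2 hc.le (hc.le.trans h1)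

theorem lb2 (h : S_interface) (hr : S_RSW) (hi : S_PrIndep) (hf : S_PrFlip) (hb : S_PrBasic)
    (h1 : S_armBasic) : S_wbLow := by
  classical
  obtain ⟨c, hc, H⟩ := lb_two hr hi hf
  obtain ⟨a1, a2, a3, a4, a5, a6⟩ := h1
  refine ⟨c / 13, by positivity, ?_⟩
  intro r R hr0 hrR
  have hR : 1 ≤ R := by omega
  obtain ⟨n, rfl⟩ : ∃ n : ℕ, R = n := ⟨R.toNat, (Int.toNat_of_nonneg (by omega)).symm⟩
  have hn : 1 ≤ n := by omega
  have hd : 0 < 2 * r + 1 := by omega
  set M : ℤ := (4 * n + r) / (2 * r + 1) with hM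
  have hM0 : 0 ≤ M := Int.ediv_nonneg (by omega) (by omega)
  have hM1 : (2 * r + 1) * M ≤ 4 * n + r := Int.mul_ediv_self_le (by omega)
  have key := H (2 * n) (by omega)
  have k2 := (hb V (fun B => LR (-(3 * ((2 * n : ℕ) : ℤ))) (3 * ((2 * n : ℕ) : ℤ))
      (-(2 * ((2 * n : ℕ) : ℤ))) (-((2 * n : ℕ) : ℤ)) B ∧
      LR (-(3 * ((2 * n : ℕ) : ℤ))) (3 * ((2 * n : ℕ) : ℤ)) ((2 * n : ℕ) : ℤ)
        (2 * ((2 * n : ℕ) : ℤ)) Bᶜ)
    (fun B => ∃ i ∈ Finset.Icc (-M) M, Arm2 (0, (2 * r + 1) * i) r n B)).2.2.1 (by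
      rintro B ⟨b1, b2⟩
      obtain ⟨j, hj1, hj2, ⟨v, hv, hV⟩, ⟨v', hv', hV'⟩⟩ :=
        h ((2 * n : ℕ) : ℤ) B (by push_cast; omega) b1 b2
      push_cast at hj1 hj2
      -- the index
      set i : ℤ := (j + r) / (2 * r + 1) with hi'
      have i1 : (2 * r + 1) * i ≤ j + r := Int.mul_ediv_self_le (by omega)
      have i2 : j + r < (2 * r + 1) * i + (2 * r + 1) := by
        have := Int.lt_mul_ediv_self_add (x := j + r) hd
        exact this
      have hiM : -M ≤ i ∧ i ≤ M := by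
        constructor
        · by_contra hcon
          push Not at hcon
          have : i + 1 ≤ -M := by omega
          have h3 : (2 * r + 1) * (i + 1) ≤ (2 * r + 1) * (-M) :=
            mul_le_mul_of_nonneg_left this hd.le
          have h4 : 4 * (n : ℤ) + r < (2 * r + 1) * M + (2 * r + 1) :=
            Int.lt_mul_ediv_self_add hd
          -- j + r < (2r+1)(i+1) ≤ -(2r+1) M
          have h5 : (2 * r + 1) * (i + 1) = (2 * r + 1) * i + (2 * r + 1) := by ring
          have h6 : (2 * r + 1) * (-M) = -((2 * r + 1) * M) := by ring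
          by_cases hM' : i + 1 = -M
          · -- then (2r+1) i ≥ -(4n+r): contradiction with the choice of i
            have h7 : (2 * r + 1) * i = -((2 * r + 1) * M) - (2 * r + 1) := by
              have : i = -M - 1 := by omega
              rw [this]
              ring
            omega
          · have h8 : i + 2 ≤ -M := by omega
            have h9 : (2 * r + 1) * (i + 2) ≤ (2 * r + 1) * (-M) :=
              mul_le_mul_of_nonneg_left h8 hd.le
            have h10 : (2 * r + 1) * (i + 2) = (2 * r + 1) * i + 2 * (2 * r + 1) := by ring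
            omega
        · by_contra hcon
          push Not at hcon
          have : M + 1 ≤ i := by omega
          have h3 : (2 * r + 1) * (M + 1) ≤ (2 * r + 1) * i :=
            mul_le_mul_of_nonneg_left this hd.le
          have h4 : 4 * (n : ℤ) + r < (2 * r + 1) * M + (2 * r + 1) :=
            Int.lt_mul_ediv_self_add hd
          have h5 : (2 * r + 1) * (M + 1) = (2 * r + 1) * M + (2 * r + 1) := by ring
          omega
      have hin : (0, j) ∈ Ball (0, (2 * r + 1) * i) r := by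
        constructor
        · simpa using hr0
        · show |j - (2 * r + 1) * i| ≤ r
          rw [abs_le]
          constructor <;> omega
      have hbound : |(2 * r + 1) * i| ≤ 4 * n + r := by
        rw [abs_le]
        have h3 : (2 * r + 1) * i ≤ (2 * r + 1) * M := mul_le_mul_of_nonneg_left hiM.2 hd.le
        have h4 : (2 * r + 1) * (-M) ≤ (2 * r + 1) * i := mul_le_mul_of_nonneg_left hiM.1 hd.le
        have h6 : (2 * r + 1) * (-M) = -((2 * r + 1) * M) := by ring
        constructor <;> omega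
      have hball : Ball (0, (2 * r + 1) * i) (n : ℤ) ⊆ Ball 0 (3 * ((2 * n : ℕ) : ℤ)) := by
        rintro ⟨x, y⟩ ⟨hx, hy⟩
        simp only [sub_zero] at hx hy
        refine ⟨?_, ?_⟩
        · show |x - 0| ≤ _
          rw [abs_le] at hx ⊢
          push_cast
          omega
        · show |y - 0| ≤ _
          rw [abs_le] at hy hbound ⊢
          push_cast
          omega
      refine ⟨i, Finset.mem_Icc.mpr hiM, ?_, ?_⟩
      · have := a3 (0, (2 * r + 1) * i) r n _ (0, j) v (by omega) hin (fun hh => hv (hball hh))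
          (Or.inr hV)
        exact (a1 (0, (2 * r + 1) * i) r n).1 _ _ Set.inter_subset_left this
      · have := a3 (0, (2 * r + 1) * i) r n _ (0, j) v' (by omega) hin (fun hh => hv' (hball hh))
          (Or.inr hV')
        exact (a1 (0, (2 * r + 1) * i) r n).1 _ _ Set.inter_subset_left this)
  have k3 := lb_union hb (Finset.Icc (-M) M) (fun i B => Arm2 (0, (2 * r + 1) * i) r n B)
  have k4 : ∑ i ∈ Finset.Icc (-M) M, Pr (fun B => Arm2 (0, (2 * r + 1) * i) r n B) =
      (2 * (M : ℝ) + 1) * wb r n := by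
    rw [Finset.sum_congr rfl (fun i _ => (a4 (0, (2 * r + 1) * i) r n).2.2)]
    rw [Finset.sum_const, Int.card_Icc, nsmul_eq_mul]
    congr 1
    have : (M + 1 - -M) = 2 * M + 1 := by ring
    rw [this]
    have h0 : 0 ≤ 2 * M + 1 := by omega
    have h1 : (((2 * M + 1).toNat : ℤ) : ℝ) = ((2 * M + 1 : ℤ) : ℝ) := by
      rw [Int.toNat_of_nonneg h0]
    rw [← Int.cast_natCast, h1]
    push_cast
    ring
  have k5 : c ≤ (2 * (M : ℝ) + 1) * wb r n := by
    rw [← k4]
    exact (key.trans k2).trans k3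
  have hwb : 0 ≤ wb r n := (hb V (Arm2 0 r n) (Arm2 0 r n)).1
  have hM2 : (2 * (M : ℝ) + 1) * ((r : ℝ) + 1) ≤ 13 * n := by
    have q1 : ((2 * r + 1) * M : ℤ) ≤ 4 * n + r := hM1
    have q2 : (2 * M + 1) * (r + 1) ≤ 13 * (n : ℤ) := by
      have e1 : (2 * M + 1) * (r + 1) ≤ (2 * M + 1) * (2 * r + 1) :=
        mul_le_mul_of_nonneg_left (by omega) (by omega)
      have e2 : (2 * M + 1) * (2 * r + 1) = 2 * ((2 * r + 1) * M) + (2 * r + 1) := by ring
      omega
    exact_mod_cast q2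
  have hnR : (0 : ℝ) < n := by exact_mod_cast hn
  have hr1 : (0 : ℝ) < (r : ℝ) + 1 := by
    have : (0 : ℝ) ≤ r := by exact_mod_cast hr0
    linarith
  have k6 : c * ((r : ℝ) + 1) ≤ 13 * n * wb r n := by
    calc c * ((r : ℝ) + 1) ≤ ((2 * (M : ℝ) + 1) * wb r n) * ((r : ℝ) + 1) :=
          mul_le_mul_of_nonneg_right k5 hr1.le
      _ = ((2 * (M : ℝ) + 1) * ((r : ℝ) + 1)) * wb r n := by ring
      _ ≤ 13 * n * wb r n := mul_le_mul_of_nonneg_right hM2 hwb
  have hcast : (((n : ℤ) : ℝ)) = (n : ℝ) := by simp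
  rw [hcast]
  have k7 : c / 13 * (((r : ℝ) + 1) / n) = (c * ((r : ℝ) + 1)) / (13 * n) := by
    field_simp
  rw [k7, div_le_iff₀ (by positivity)]
  linarith

theorem lb3 (h : S_strict) (h2 : S_wbLow) : S_arms := by
  obtain ⟨ε, C, hε, hε1, hC, H⟩ := h
  obtain ⟨c, hc, H2⟩ := h2
  have hCc : 0 < C / c := by positivity
  refine ⟨ε, C + C / c, hε, hε1, by positivity, ?_, ?_⟩
  · intro r R hr hR
    refine (H r R hr hR).trans ?_
    have hx : (0 : ℝ) ≤ (((r : ℝ) + 1) / R) ^ ε * al r R ^ 2 := by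
      have h1 : (0 : ℝ) ≤ r := by exact_mod_cast hr
      have h2 : (0 : ℝ) ≤ R := by exact_mod_cast (hr.trans hR.le)
      have : (0 : ℝ) ≤ (((r : ℝ) + 1) / R) ^ ε := Real.rpow_nonneg (by positivity) _
      positivity
    nlinarith
  · intro r R hr hR
    have h1 : (0 : ℝ) ≤ r := by exact_mod_cast hr
    have h2 : (0 : ℝ) < R := by exact_mod_cast (lt_of_le_of_lt hr hR)
    have hx : (0 : ℝ) < ((r : ℝ) + 1) / R := by positivity
    set x := ((r : ℝ) + 1) / R with hxd
    have e := (H2 r R hr hR).trans (H r R hr hR)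
    have hxe : 0 < x ^ ε := Real.rpow_pos_of_pos hx _
    have e2 : x ^ (1 - ε) * x ^ ε = x := by
      rw [← Real.rpow_add hx]
      simp
    have e3 : c * (x ^ (1 - ε) * x ^ ε) ≤ C * x ^ ε * al r R ^ 2 := by
      rw [e2]
      exact e
    have e4 : c * x ^ (1 - ε) ≤ C * al r R ^ 2 := by
      by_contra hcon
      push Not at hcon
      have := mul_lt_mul_of_pos_right hcon hxe
      nlinarith
    have e5 : x ^ (1 - ε) ≤ C / c * al r R ^ 2 := by
      rw [div_mul_eq_mul_div, le_div_iff₀ hc]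
      linarith
    have e6 : 0 ≤ C * al r R ^ 2 := by positivity
    nlinarith

end TriX
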