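import Mathlib

/-! Abstract noise theorem for functions on a finite product of blocks, each block carrying a
coin (project EX, problem MP_68260e). Definitions and statements. -/

namespace TriX.Noise

open Finset

variable {I X : Type} [Fintype I] [DecidableEq I] [Fintype X]

/-- Expectation on the finite product space (uniform measure). -/
noncomputable def E (f : (I → X) → ℝ) : ℝ := (∑ ω, f ω) / (Fintype.card (I → X) : ℝ)

/-- Square of the `L^2` norm. -/
noncomputable def sq (f : (I → X) → ℝ) : ℝ := E (fun ω => f ω ^ 2)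

/-- Apply the involution `ι` in the blocks of `U`. -/
def flipS (ι : X → X) (U : Finset I) (ω : I → X) : I → X :=
  fun B => if B ∈ U then ι (ω B) else ω B

/-- The noise operator: every coin is flipped with probability `(1-u)/2`. -/
noncomputable def T (ι : X → X) (u : ℝ) (f : (I → X) → ℝ) (ω : I → X) : ℝ :=
  ∑ U : Finset I, ((1 - u) / 2) ^ U.card * ((1 + u) / 2) ^ (Fintype.card I - U.card) *
    f (flipS ι U ω)

/-- Average over the coin of block `B`. -/
noncomputable def coinAvg (ι : X → X) (B : I) : Module.End ℝ ((I → X) → ℝ) where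
  toFun f ω := (f ω + f (flipS ι {B} ω)) / 2
  map_add' f g := by funext ω; simp only [Pi.add_apply]; ring
  map_smul' c f := by funext ω; simp only [Pi.smul_apply, smul_eq_mul, RingHom.id_apply]; ring

/-- Average over the whole block `B`. -/
noncomputable def blockAvg (B : I) : Module.End ℝ ((I → X) → ℝ) where
  toFun f ω := (∑ x : X, f (Function.update ω B x)) / (Fintype.card X : ℝ)
  map_add' f g := by
    funext ω; simp only [Pi.add_apply]; rw [Finset.sum_add_distrib, add_div]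
  map_smul' c f := by
    funext ω; simp only [Pi.smul_apply, smul_eq_mul, RingHom.id_apply]
    rw [← Finset.mul_sum, mul_div_assoc]

/-- The component of level set `S` for a commuting family of projections. -/
noncomputable def comp {Ω J : Type} [Fintype J] [DecidableEq J]
    (p : J → Module.End ℝ (Ω → ℝ)) (S : Finset J) : Module.End ℝ (Ω → ℝ) :=
  ((Finset.univ : Finset J).toList.map (fun B => if B ∈ S then 1 - p B else p B)).prod

/-- N1: orthogonal decomposition given by a commuting family of symmetric projections. -/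
def S_N1 : Prop := ∀ (Ω J : Type) [Fintype Ω] [Fintype J] [DecidableEq J]
  (p : J → Module.End ℝ (Ω → ℝ)),
  (∀ B f, p B (p B f) = p B f) → (∀ B B' f, p B (p B' f) = p B' (p B f)) →
  (∀ B f g, ∑ ω, p B f ω * g ω = ∑ ω, f ω * p B g ω) →
  (∀ f, ∑ S, comp p S f = f) ∧
  (∀ S S' f g, S ≠ S' → ∑ ω, comp p S f ω * comp p S' g ω = 0) ∧
  (∀ S S' f, comp p S (comp p S' f) = if S = S' then comp p S f else 0) ∧
  (∀ S B f, p B (comp p S f) = if B ∈ S then 0 else comp p S f) ∧
  (∀ A : Module.End ℝ (Ω → ℝ), (∀ B f, A (p B f) = p B (A f)) →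
    ∀ S f, A (comp p S f) = comp p S (A f))

/-- N1b: both families satisfy the hypotheses of N1, and they commute with each other. -/
def S_N1b : Prop := ∀ (I X : Type) [Fintype I] [DecidableEq I] [Fintype X] [Nonempty X]
  (ι : X → X), (∀ x, ι (ι x) = x) →
  (∀ (B : I) f, coinAvg ι B (coinAvg ι B f) = coinAvg ι B f) ∧
  (∀ (B B' : I) f, coinAvg ι B (coinAvg ι B' f) = coinAvg ι B' (coinAvg ι B f)) ∧
  (∀ (B : I) (f g : (I → X) → ℝ),
    ∑ ω, coinAvg ι B f ω * g ω = ∑ ω, f ω * coinAvg ι B g ω) ∧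
  (∀ (B : I) (f : (I → X) → ℝ), blockAvg B (blockAvg B f) = blockAvg B f) ∧
  (∀ (B B' : I) (f : (I → X) → ℝ), blockAvg B (blockAvg B' f) = blockAvg B' (blockAvg B f)) ∧
  (∀ (B : I) (f g : (I → X) → ℝ), ∑ ω, blockAvg B f ω * g ω = ∑ ω, f ω * blockAvg B g ω) ∧
  (∀ (B B' : I) (f : (I → X) → ℝ), coinAvg ι B (blockAvg B' f) = blockAvg B' (coinAvg ι B f))

/-- N2: spectral formula for the noise operator. -/
def S_N2 : Prop := ∀ (I X : Type) [Fintype I] [DecidableEq I] [Fintype X] [Nonempty X]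
  (ι : X → X), (∀ x, ι (ι x) = x) → ∀ (u : ℝ) (f : (I → X) → ℝ),
  T ι u f = ∑ S, u ^ S.card • comp (coinAvg ι) S f ∧
  E (fun ω => f ω * T ι u f ω) = ∑ S, u ^ S.card * sq (comp (coinAvg ι) S f) ∧
  sq (T ι u f) = ∑ S, (u ^ 2) ^ S.card * sq (comp (coinAvg ι) S f)

/-- The data of a coin structure on the block space. -/
structure Coin (X : Type) where
  ι : X → X
  χ : X → ℝ
  invol : ∀ x, ι (ι x) = x
  val : ∀ x, χ x = 0 ∨ χ x = 1 ∨ χ x = -1
  anti : ∀ x, χ (ι x) = -χ x
  fix : ∀ x, χ x = 0 → ι x = x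

/-- Monotonicity in the coins and finite energy with constant `K`. -/
def Good (c : Coin X) (K : ℝ) (h : (I → X) → ℝ) : Prop :=
  (∀ ω B, 0 ≤ c.χ (ω B) * (h ω - h (flipS c.ι {B} ω))) ∧
  (∀ ω B x y, h (Function.update ω B x) - h (Function.update ω B y) ≤
    K * ∑ z : X, c.χ z * (h (Function.update ω B z) -
      h (flipS c.ι {B} (Function.update ω B z))))

/-- N3: block influences of the noised function are bounded by coin influences. -/
def S_N3 : Prop := ∀ (I X : Type) [Fintype I] [DecidableEq I] [Fintype X] [Nonempty X]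
  (c : Coin X) (K : ℝ) (h : (I → X) → ℝ), 0 ≤ K → Good c K h → ∀ w : ℝ, 0 ≤ w → w ≤ 1 →
  ∑ B : I, sq (T c.ι w h - blockAvg B (T c.ι w h)) ≤
    (2 * K * Fintype.card X) ^ 2 *
      ∑ S : Finset I, (S.card : ℝ) * (w ^ 2) ^ (S.card - 1) * sq (comp (coinAvg c.ι) S h)

/-- N4: Schramm and Steif for blocks, for averages of functions determined by stopping sets. -/
def S_N4 : Prop := ∀ (I X P : Type) [Fintype I] [DecidableEq I] [Fintype X] [Nonempty X]
  [Fintype P] [Nonempty P] (f : P → (I → X) → ℝ) (J : P → (I → X) → Finset I) (δ M : ℝ),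
  0 ≤ δ →
  (∀ p ω ω', (∀ B ∈ J p ω, ω B = ω' B) → J p ω' = J p ω ∧ f p ω' = f p ω) →
  (∀ B, (∑ p, E (fun ω => if B ∈ J p ω then (1 : ℝ) else 0)) / Fintype.card P ≤ δ) →
  ((∑ p, sq (f p)) / Fintype.card P ≤ M) →
  ∀ k : ℕ, 1 ≤ k →
  ∑ S ∈ (Finset.univ : Finset (Finset I)).filter (fun S => S.card = k),
    sq (comp blockAvg S (fun ω => (∑ p, f p ω) / Fintype.card P)) ≤ k * δ * M

/-- N5: the differential inequality. -/
def S_N5 : Prop := ∃ C : ℝ, 0 < C ∧ ∀ (y : Polynomial ℝ) (a b : ℝ), 0 < a → 1 ≤ b →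
  (∀ u : ℝ, 0 ≤ u → u ≤ 1 → 0 ≤ y.derivative.eval u) →
  (∀ u : ℝ, 0 < u → u < 1 → ∀ K : ℕ, 1 ≤ K →
    y.eval u ≤ (K : ℝ) ^ 2 * a + b / K * y.derivative.eval u) →
  ∀ t : ℝ, 0 < t → t ≤ 1 → y.eval (1 - t) ≤ C * b ^ 2 * a / t ^ 2

/-- The noise theorem. -/
def S_noise : Prop := ∃ C : ℝ → ℝ, (∀ K, 0 < C K) ∧
  ∀ (I X P : Type) [Fintype I] [DecidableEq I] [Fintype X] [Nonempty X]
  [Fintype P] [Nonempty P] (c : Coin X) (K : ℝ) (f : P → (I → X) → ℝ)
  (J : P → (I → X) → Finset I) (δ M : ℝ), 0 < K → 0 < δ → 0 < M →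
  (∀ p, Good c K (f p)) →
  (∀ p ω ω', (∀ B ∈ J p ω, ω B = ω' B) → J p ω' = J p ω ∧ f p ω' = f p ω) →
  (∀ B, (∑ p, E (fun ω => if B ∈ J p ω then (1 : ℝ) else 0)) / Fintype.card P ≤ δ) →
  ((∑ p, sq (f p)) / Fintype.card P ≤ M) →
  ∀ t : ℝ, 0 < t → t ≤ 1 →
  E (fun ω => ((∑ p, f p ω) / Fintype.card P) *
    T c.ι (1 - t) (fun ω => (∑ p, f p ω) / Fintype.card P) ω) ≤
    E (fun ω => (∑ p, f p ω) / Fintype.card P) ^ 2 +
      C (K * Fintype.card X) * δ * M / t ^ 2

end TriX.Noise
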