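import Pool.Agent.EX.Base

/-! The exclusion process on the triangular lattice driven by Poisson clocks, and the
statement of the main theorem (problem MP_68260e). -/

open MeasureTheory ProbabilityTheory

namespace TriX

/-- The three directions; the edge `(v, i)` joins `v` and `v + dir i`, and every edge of the
triangular lattice is listed exactly once. -/
def dir : Fin 3 → V := ![(1, 0), (0, 1), (1, -1)]

abbrev Edge : Type := V × Fin 3

/-- The second endpoint of an edge (the first one is `e.1`). -/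
def tgt (e : Edge) : V := e.1 + dir e.2

/-- Number of rings in the time interval `(a, b]`. -/
noncomputable def cnt {Ω : Type} (ring : Edge → Ω → Set ℝ) (c : Edge × ℝ × ℝ) (ω : Ω) : ℕ∞ :=
  (ring c.1 ω ∩ Set.Ioc c.2.1 c.2.2).encard

/-- `ξ` is a family of independent fair bits (the initial configuration), and `ring e` are the
ring times of independent rate-one Poisson clocks on the edges, independent of `ξ`. -/
structure IsClockSystem {Ω : Type} [MeasurableSpace Ω] (P : Measure Ω) (ξ : V → Ω → Bool)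
    (ring : Edge → Ω → Set ℝ) : Prop where
  meas_init : ∀ v, Measurable (ξ v)
  fair_init : ∀ v, P {ω | ξ v ω = true} = 1 / 2
  indep_init : iIndepFun ξ P
  meas_cnt : ∀ c : Edge × ℝ × ℝ, Measurable (cnt ring c)
  poisson : ∀ (e : Edge) (a b : ℝ), 0 ≤ a → a < b → ∀ n : ℕ,
    P {ω | cnt ring (e, a, b) ω = n} =
      ENNReal.ofReal (Real.exp (-(b - a)) * (b - a) ^ n / n.factorial)
  indep_cells : ∀ (n : ℕ) (c : Fin n → Edge × ℝ × ℝ), (∀ i, 0 ≤ (c i).2.1) →
    (∀ i j, i ≠ j → (c i).1 ≠ (c j).1 ∨
      Disjoint (Set.Ioc (c i).2.1 (c i).2.2) (Set.Ioc (c j).2.1 (c j).2.2)) →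
    iIndepFun (fun i => cnt ring (c i)) P
  indep_both : IndepFun (fun ω v => ξ v ω) (fun ω (c : Edge × ℝ × ℝ) => cnt ring c ω) P

/-- `η` follows the nearest-neighbour exclusion dynamics with ring times `ring`: it is
right-continuous, when the clock of an edge rings the two values at its endpoints are
exchanged, and a site none of whose edges rings keeps its value. -/
structure IsExclusion (ring : Edge → Set ℝ) (η : ℝ → V → Bool) : Prop where
  right_cont : ∀ (x : V) (t : ℝ), 0 ≤ t → ∃ ε > 0, ∀ s ∈ Set.Ico t (t + ε), η s x = η t x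
  exchange : ∀ (e : Edge) (t : ℝ), 0 < t → t ∈ ring e → ∃ ε > 0, ∀ s ∈ Set.Ioo (t - ε) t,
    0 ≤ s → η t e.1 = η s (tgt e) ∧ η t (tgt e) = η s e.1
  keep : ∀ (x : V) (t : ℝ), 0 < t → (∀ e : Edge, x = e.1 ∨ x = tgt e → t ∉ ring e) →
    ∃ ε > 0, ∀ s ∈ Set.Ioo (t - ε) t, 0 ≤ s → η t x = η s x

/-- There is an infinite black cluster: an infinite connected set of black sites. -/
def HasInfCluster (B : Set V) : Prop := ∃ C : Set V, C ⊆ B ∧ C.Infinite ∧ PreConn C

/-- The main theorem: almost surely the exclusion process exists, and (every version of) it has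
an exceptional time. -/
def S_main : Prop := ∀ (Ω : Type) [MeasurableSpace Ω] (P : Measure Ω) [IsProbabilityMeasure P]
  (ξ : V → Ω → Bool) (ring : Edge → Ω → Set ℝ), IsClockSystem P ξ ring →
  ∀ᵐ ω ∂P, (∃ η : ℝ → V → Bool, IsExclusion (fun e => ring e ω) η ∧ ∀ v, η 0 v = ξ v ω) ∧
    ∀ η : ℝ → V → Bool, IsExclusion (fun e => ring e ω) η → (∀ v, η 0 v = ξ v ω) →
      ∃ t : ℝ, 0 ≤ t ∧ HasInfCluster {v | η t v = true}

end TriX
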