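import Pool.Agent.EX.Spec1

set_option autoImplicit false

open MeasureTheory

namespace TriX

namespace R3

lemma adj_symm {u v : V} (h : Adj u v) : Adj v u := by
  unfold Adj at *
  omega

lemma conn_refl {S : Set V} {u : V} (h : u ∈ S) : Conn S u u := ⟨h, Relation.ReflTransGen.refl⟩

lemma conn_right {S : Set V} {u v : V} (h : Conn S u v) : v ∈ S := by
  obtain ⟨h1, h2⟩ := h
  induction h2 with
  | refl => exact h1
  | tail _ h3 _ => exact h3.2

lemma conn_trans {S : Set V} {u v w : V} (h : Conn S u v) (h' : Conn S v w) : Conn S u w :=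
  ⟨h.1, h.2.trans h'.2⟩

lemma conn_tail {S : Set V} {u v w : V} (h : Conn S u v) (h' : Adj v w) (hw : w ∈ S) :
    Conn S u w := ⟨h.1, h.2.tail ⟨h', hw⟩⟩

lemma conn_symm {S : Set V} {u v : V} (h : Conn S u v) : Conn S v u := by
  obtain ⟨h1, h2⟩ := h
  induction h2 with
  | refl => exact conn_refl h1
  | tail h3 h4 ih =>
    exact conn_trans (conn_tail (conn_refl h4.2) (adj_symm h4.1) (conn_right ⟨h1, h3⟩)) ih

lemma conn_mono {S S' : Set V} (hS : S ⊆ S') {u v : V} (h : Conn S u v) : Conn S' u v :=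
  ⟨hS h.1, Relation.ReflTransGen.mono (fun _ _ h => ⟨h.1, hS h.2⟩) _ _ h.2⟩

/-- a path stays in its component -/
lemma conn_comp {S : Set V} {u v : V} (h : Conn S u v) : Conn {w | Conn S u w} u v := by
  obtain ⟨h1, h2⟩ := h
  induction h2 with
  | refl => exact conn_refl (conn_refl h1)
  | tail h3 h4 ih => exact conn_tail ih h4.1 ⟨h1, h3.tail h4⟩

lemma adj_rho (a : ℤ) {u v : V} (h : Adj u v) : Adj (rho a u) (rho a v) := by
  unfold Adj rho at *
  simp only
  omega

lemma rho_rho (a : ℤ) (v : V) : rho a (rho a v) = v := by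
  unfold rho
  ext
  · simp only
    ring
  · rfl

lemma hz_rho (a : ℤ) (v : V) : hz (rho a v) = 4 * a - hz v := by
  unfold rho hz
  simp only
  ring

/-- the reflection as a bijection -/
def rhoE (a : ℤ) : V ≃ V := ⟨rho a, rho a, rho_rho a, rho_rho a⟩

lemma conn_rho (a : ℤ) {S : Set V} {u v : V} (h : Conn S u v) :
    Conn (rho a '' S) (rho a u) (rho a v) := by
  obtain ⟨h1, h2⟩ := h
  induction h2 with
  | refl => exact conn_refl ⟨u, h1, rfl⟩
  | tail h3 h4 ih => exact conn_tail ih (adj_rho a h4.1) ⟨_, h4.2, rfl⟩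

lemma rho_image_rect (a b : ℤ) (B : Set V) :
    rho a '' B ∩ Rect 0 (4 * a) 0 b = rho a '' (B ∩ Rect 0 (4 * a) 0 b) := by
  ext v
  constructor
  · rintro ⟨⟨w, hw, rfl⟩, hv⟩
    refine ⟨w, ⟨hw, ?_⟩, rfl⟩
    obtain ⟨h1, h2, h3, h4⟩ := hv
    rw [hz_rho] at h1 h2
    exact ⟨by omega, by omega, h3, h4⟩
  · rintro ⟨w, ⟨hw, h1, h2, h3, h4⟩, rfl⟩
    refine ⟨⟨w, hw, rfl⟩, ?_, ?_, h3, h4⟩
    · rw [hz_rho]; omega
    · rw [hz_rho]; omega

lemma rect_finite (u1 u2 y1 y2 : ℤ) : (Rect u1 u2 y1 y2).Finite := by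
  refine Set.Finite.subset (((Finset.Icc (-(|u1| + |u2| + |y1| + |y2|))
    (|u1| + |u2| + |y1| + |y2|)) ×ˢ (Finset.Icc y1 y2)).finite_toSet) ?_
  rintro ⟨x, y⟩ ⟨h1, h2, h3, h4⟩
  simp only [hz] at h1 h2 h3 h4
  simp only [Finset.coe_product, Finset.coe_Icc, Set.mem_prod, Set.mem_Icc]
  have := neg_abs_le u1
  have := le_abs_self u2
  have := neg_abs_le y1
  have := le_abs_self y2
  have := abs_nonneg u1
  have := abs_nonneg u2
  have := abs_nonneg y1
  have := abs_nonneg y2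
  have := le_abs_self u1
  have := neg_abs_le u2
  have := le_abs_self y1
  have := neg_abs_le y2
  refine ⟨⟨by omega, by omega⟩, h3, h4⟩

/-- the topological part -/
lemma topo (hc : S_crossTopConn) {a b : ℤ} {B : Set V} (h1 : TopRight a b B)
    (h2 : TopRight a b (rho a '' B)) : HC 0 (4 * a) 0 b B := by
  obtain ⟨s, t, hs, ht, htb, hst⟩ := h1
  obtain ⟨s₁, t₁, hs₁, ht₁, htb₁, hst₁⟩ := h2
  set S := B ∩ Rect 0 (4 * a) 0 b with hS
  have hq : Conn S (rho a t₁) (rho a s₁) := by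
    have h3 := conn_rho a (conn_symm hst₁)
    rw [rho_image_rect, ← Set.image_comp] at h3
    have h4 : rho a ∘ rho a = id := by
      funext v
      exact rho_rho a v
    rwa [h4, Set.image_id] at h3
  set t' := rho a t₁ with ht'
  set s' := rho a s₁ with hs'
  have hzs' : 4 * a - 1 ≤ hz s' := by rw [hs', hz_rho]; omega
  have hzt' : hz t' ≤ 2 * a + 1 := by rw [ht', hz_rho]; omega
  have htb' : t'.2 = b := htb₁
  -- the two components
  have goal_of : Conn S s s' → HC 0 (4 * a) 0 b B := fun h => ⟨s, s', by omega, hzs', h⟩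
  by_cases hA : ∃ w, Conn S t' w ∧ hz w ≤ hz s
  · obtain ⟨w, hw, hws⟩ := hA
    exact ⟨w, s', by omega, hzs', conn_trans (conn_symm hw) hq⟩
  by_cases hB : ∃ w, Conn S s w ∧ hz s' ≤ hz w
  · obtain ⟨w, hw, hws⟩ := hB
    exact ⟨s, w, by omega, by omega, hw⟩
  push Not at hA hB
  by_cases hlt : hz t < hz t'
  · -- adjacent
    have h5 : t'.1 = t.1 + 1 := by
      unfold hz at hlt hzt' ht
      omega
    have h6 : Adj t t' := Or.inl ⟨h5, by omega⟩
    exact goal_of (conn_trans (conn_tail hst h6 hq.1) hq)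
  push Not at hlt
  have hlin : ∀ v : V, lin 2 1 v = hz v := by
    intro v
    unfold lin hz
    ring
  obtain ⟨w, hw1, hw2⟩ := hc 2 1 (by norm_num) {w | Conn S s w} {w | Conn S t' w} s t t' s'
    (conn_comp hst) (conn_comp hq)
    (fun w hw => by rw [hlin, hlin]; exact hA w hw)
    (fun w hw => by rw [hlin, hlin]; exact hB w hw)
    (fun w hw => by rw [htb]; exact (conn_right hw).2.2.2.2)
    (fun w hw => by rw [htb']; exact (conn_right hw).2.2.2.2)
    (by rw [hlin, hlin]; exact hlt)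
  exact goal_of (conn_trans hw1 (conn_trans (conn_symm hw2) hq))

end R3

open R3 in
theorem r_double (ht : S_halfTop) (hc : S_crossTopConn) (hh : S_PrHarris) (he : S_PrEquiv)
    (hb : S_PrBasic) : S_double := by
  intro a b ha hb'
  have hfin := rect_finite 0 (4 * (a : ℤ)) 0 (b : ℤ)
  have hU : ((hfin.toFinset : Finset V) : Set V) = Rect 0 (4 * (a : ℤ)) 0 (b : ℤ) :=
    hfin.coe_toFinset
  have hdep : DepOn (TopRight (a : ℤ) (b : ℤ)) ((hfin.toFinset : Finset V) : Set V) := by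
    intro B B' hBB
    rw [hU] at hBB
    unfold TopRight
    rw [hBB]
  have hdep' : DepOn (fun B => TopRight (a : ℤ) (b : ℤ) (rho a '' B))
      ((hfin.toFinset : Finset V) : Set V) := by
    intro B B' hBB
    rw [hU] at hBB
    unfold TopRight
    simp only
    rw [rho_image_rect, rho_image_rect, hBB]
  have hinc : Incr (TopRight (a : ℤ) (b : ℤ)) := by
    rintro B B' hBB ⟨s, t, h1, h2, h3, h4⟩
    exact ⟨s, t, h1, h2, h3, conn_mono (Set.inter_subset_inter_left _ hBB) h4⟩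
  have hinc' : Incr (fun B => TopRight (a : ℤ) (b : ℤ) (rho a '' B)) := by
    intro B B' hBB h
    exact hinc _ _ (Set.image_mono hBB) h
  have h1 := (hh V (TopRight (a : ℤ) (b : ℤ)) (fun B => TopRight (a : ℤ) (b : ℤ) (rho a '' B))
    hfin.toFinset ⟨hfin.toFinset, hdep⟩ hdep').1 (fun B B' _ hBB h => hinc B B' hBB h) hinc'
  have h2 : Pr (fun B : Set V => TopRight (a : ℤ) (b : ℤ) (rho a '' B)) =
      Pr (TopRight (a : ℤ) (b : ℤ)) := he V V (rhoE a) (TopRight (a : ℤ) (b : ℤ))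
  have h3 : Pr (fun B : Set V => TopRight (a : ℤ) (b : ℤ) B ∧
      TopRight (a : ℤ) (b : ℤ) (rho a '' B)) ≤ Pr (HC 0 (4 * (a : ℤ)) 0 (b : ℤ)) :=
    (hb V _ (HC 0 (4 * (a : ℤ)) 0 (b : ℤ))).2.2.1 (fun B h => topo hc h.1 h.2)
  have h4 := ht a b ha hb'
  have h5 := (hb V (HC 0 (2 * (a : ℤ)) 0 (b : ℤ)) (fun _ => True)).1
  rw [h2] at h1
  have h6 := h1.trans h3
  nlinarith

end TriX
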