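import Pool.Agent.EX.Spec2
import Pool.Agent.EX.K1

/-! Toolkit for the modules ST5a, ST5b, ST5c: domains of dependence of the local events,
marginals of `PrT`, independence. -/

set_option autoImplicit false

open MeasureTheory

namespace TriX

namespace Kit5

/-! ### Dependence -/

theorem dep_mono {W α : Type} {f : Set W → α} {S T : Set W} (h : DepOn f S) (hST : S ⊆ T) :
    DepOn f T := by
  intro B B' hB
  refine h B B' ?_
  have h1 : B ∩ S = (B ∩ T) ∩ S := by
    rw [Set.inter_assoc, Set.inter_eq_right.2 hST]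
  have h2 : B' ∩ S = (B' ∩ T) ∩ S := by
    rw [Set.inter_assoc, Set.inter_eq_right.2 hST]
  rw [h1, h2, hB]

theorem dep_and {W : Type} {f g : Set W → Prop} {S T : Set W} (hf : DepOn f S) (hg : DepOn g T) :
    DepOn (fun B => f B ∧ g B) (S ∪ T) := by
  intro B B' h
  have h1 := dep_mono hf (Set.subset_union_left (t := T)) B B' h
  have h2 := dep_mono hg (Set.subset_union_right (s := S)) B B' h
  show (f B ∧ g B) = (f B' ∧ g B')
  rw [h1, h2]

theorem dep_not {W : Type} {f : Set W → Prop} {S : Set W} (hf : DepOn f S) :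
    DepOn (fun B => ¬ f B) S := by
  intro B B' h
  show (¬ f B) = (¬ f B')
  rw [hf B B' h]

theorem inter_compl_eq {W : Type} {B B' S : Set W} (h : B ∩ S = B' ∩ S) : Bᶜ ∩ S = B'ᶜ ∩ S := by
  ext v
  have := Set.ext_iff.1 h v
  simp only [Set.mem_inter_iff, Set.mem_compl_iff] at this ⊢
  tauto

theorem dep_compl {W α : Type} {f : Set W → α} {S : Set W} (hf : DepOn f S) :
    DepOn (fun B => f Bᶜ) S := fun B B' h => hf Bᶜ B'ᶜ (inter_compl_eq h)

theorem dep_LR (x1 x2 y1 y2 : ℤ) : DepOn (LR x1 x2 y1 y2) (Box x1 x2 y1 y2) := by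
  intro B B' h
  unfold LR
  rw [h]

theorem dep_TB (x1 x2 y1 y2 : ℤ) : DepOn (TB x1 x2 y1 y2) (Box x1 x2 y1 y2) := by
  intro B B' h
  unfold TB
  rw [h]

theorem mir_eq (C : Set V) : mir C = (Prod.swap '' C)ᶜ := by
  ext v
  simp only [mir, Set.mem_ofPred_eq, Set.mem_compl_iff, Set.mem_image]
  constructor
  · rintro h ⟨w, hw, rfl⟩
    exact h (by simpa using hw)
  · intro h h'
    exact h ⟨_, h', Prod.swap_swap v⟩

theorem mir_inter {C C' S : Set V} (h : C ∩ Prod.swap ⁻¹' S = C' ∩ Prod.swap ⁻¹' S) :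
    mir C ∩ S = mir C' ∩ S := by
  ext v
  have := Set.ext_iff.1 h v.swap
  simp only [Set.mem_inter_iff, Set.mem_preimage, Prod.swap_swap] at this
  simp only [mir, Set.mem_inter_iff, Set.mem_ofPred_eq]
  tauto

theorem dep_mir {α : Type} {f : Set V → α} {S : Set V} (hf : DepOn f S) :
    DepOn (fun C => f (mir C)) (Prod.swap ⁻¹' S) := fun _ _ h => hf _ _ (mir_inter h)

theorem dep_pre {W W' α : Type} (ι : W → W') {f : Set W → α} {S : Set W} (hf : DepOn f S) :
    DepOn (fun C : Set W' => f (ι ⁻¹' C)) (ι '' S) := by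
  intro B B' h
  refine hf _ _ ?_
  ext v
  simp only [Set.mem_inter_iff, Set.mem_preimage]
  constructor
  · rintro ⟨h1, h2⟩
    exact ⟨(Set.ext_iff.1 h (ι v)).1 ⟨h1, v, h2, rfl⟩ |>.1, h2⟩
  · rintro ⟨h1, h2⟩
    exact ⟨(Set.ext_iff.1 h (ι v)).2 ⟨h1, v, h2, rfl⟩ |>.1, h2⟩

theorem loc_of {W α : Type} {f : Set W → α} {S : Set W} (hS : S.Finite) (hf : DepOn f S) :
    Loc f := ⟨hS.toFinset, by rwa [Set.Finite.coe_toFinset]⟩

/-! ### Marginals -/

theorem Pr_pre {W W' : Type} [Countable W] [Countable W'] (ι : W → W')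
    (hι : Function.Injective ι) (f : Set W → Prop) (hf : Loc f) :
    Pr (fun C : Set W' => f (ι ⁻¹' C)) = Pr f := by
  classical
  obtain ⟨S, hf⟩ := hf
  have h' : DepOn (fun C : Set W' => f (ι ⁻¹' C)) ((S.image ι : Finset W') : Set W') := by
    rw [Finset.coe_image]
    exact dep_pre ι hf
  rw [t_PrAvg W' _ (S.image ι) h', t_PrAvg W f S hf, Finset.card_image_of_injective S hι]
  congr 2
  refine Finset.card_nbij' (fun A' => S.filter (fun w => ι w ∈ A')) (fun A => A.image ι) ?_ ?_ ?_ ?_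
  · intro A' hA'
    simp only [Finset.coe_filter, Finset.mem_powerset, Set.mem_ofPred_eq] at hA' ⊢
    refine ⟨Finset.filter_subset _ _, ?_⟩
    have : f (ι ⁻¹' (A' : Set W')) = f {x | x ∈ S ∧ ι x ∈ A'} := by
      refine hf _ _ ?_
      ext w
      simp only [Set.mem_inter_iff, Set.mem_preimage, Finset.mem_coe, Set.mem_ofPred_eq]
      tauto
    rw [← this]
    exact hA'.2
  · intro A hA
    simp only [Finset.coe_filter, Finset.mem_powerset, Set.mem_ofPred_eq] at hA ⊢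
    refine ⟨Finset.image_subset_image hA.1, ?_⟩
    rw [Finset.coe_image, Set.preimage_image_eq _ hι]
    exact hA.2
  · intro A' hA'
    simp only [Finset.coe_filter, Finset.mem_powerset, Set.mem_ofPred_eq] at hA'
    ext w'
    simp only [Finset.mem_image, Finset.mem_filter]
    constructor
    · rintro ⟨w, hw, rfl⟩
      exact hw.2
    · intro hw
      obtain ⟨w, hw2, rfl⟩ := Finset.mem_image.1 (hA'.1 hw)
      exact ⟨w, ⟨hw2, hw⟩, rfl⟩
  · intro A hA
    simp only [Finset.coe_filter, Finset.mem_powerset, Set.mem_ofPred_eq] at hA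
    ext w
    simp only [Finset.mem_image, Finset.mem_filter]
    constructor
    · rintro ⟨_, w', hw', h⟩
      rwa [hι h] at hw'
    · intro hw
      exact ⟨hA.1 hw, w, hw, rfl⟩

/-- the coordinates of the first configuration -/
def jf (v : V) : V × Bool := (v, false)

open Classical in
/-- the coordinates of the second configuration -/
noncomputable def js (T : Set V) (v : V) : V × Bool := if v ∈ T then (v, false) else (v, true)

theorem jf_inj : Function.Injective jf := fun _ _ h => (Prod.mk.inj h).1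

theorem js_fst (T : Set V) (v : V) : (js T v).1 = v := by
  unfold js
  split <;> rfl

theorem js_inj (T : Set V) : Function.Injective (js T) := fun u v h => by
  rw [← js_fst T u, ← js_fst T v, h]

theorem jf_eq_js {T : Set V} {u v : V} (h : jf u = js T v) : u = v ∧ v ∈ T := by
  unfold jf js at h
  split at h
  · rename_i hv
    exact ⟨(Prod.mk.inj h).1, hv⟩
  · exact absurd (Prod.mk.inj h).2 (by decide)

theorem fstC_eq (C : Set (V × Bool)) : fstC C = jf ⁻¹' C := rfl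

theorem sndC_eq (T : Set V) (C : Set (V × Bool)) : sndC T C = js T ⁻¹' C := by
  ext v
  simp only [sndC, js, Set.mem_ofPred_eq, Set.mem_preimage]
  by_cases h : v ∈ T <;> simp [h]

theorem Pr_fst (f : Set V → Prop) (hf : Loc f) :
    Pr (fun C : Set (V × Bool) => f (fstC C)) = Pr f := Pr_pre jf jf_inj f hf

theorem Pr_snd (T : Set V) (f : Set V → Prop) (hf : Loc f) :
    Pr (fun C : Set (V × Bool) => f (sndC T C)) = Pr f := by
  simp only [sndC_eq]
  exact Pr_pre (js T) (js_inj T) f hf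

theorem Pr_mir (he : S_PrEquiv) (hf : S_PrFlip) (f : Set V → Prop) :
    Pr (fun C => f (mir C)) = Pr f := by
  have h1 : (fun C : Set V => f (mir C)) =
      fun C : Set V => (fun C' : Set V => f C'ᶜ) ((Equiv.prodComm ℤ ℤ : V ≃ V) '' C) := by
    funext C
    rw [mir_eq]
    rfl
  rw [h1, he V V (Equiv.prodComm ℤ ℤ) (fun C' : Set V => f C'ᶜ)]
  have h2 := hf V Set.univ f
  have h3 : (fun B : Set V => f (symmDiff B Set.univ)) = fun B => f Bᶜ := by
    funext B
    congr 1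
    ext v
    simp [Set.mem_symmDiff]
  rw [h3] at h2
  exact h2

/-- `h` depends on `E1` in the first and on `E2` in the second configuration -/
def Dep2 (h : Set V → Set V → Prop) (E1 E2 : Set V) : Prop :=
  ∀ B B' C C' : Set V, B ∩ E1 = B' ∩ E1 → C ∩ E2 = C' ∩ E2 → h B C = h B' C'

theorem dep2_dep {h : Set V → Set V → Prop} {E1 E2 : Set V} (T : Set V) (hh : Dep2 h E1 E2) :
    DepOn (fun C : Set (V × Bool) => h (fstC C) (sndC T C)) (jf '' E1 ∪ js T '' E2) := by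
  intro B B' hB
  have aux : ∀ x, x ∈ jf '' E1 ∪ js T '' E2 → (x ∈ B ↔ x ∈ B') := by
    intro x hx
    have := Set.ext_iff.1 hB x
    simp only [Set.mem_inter_iff] at this
    tauto
  refine hh _ _ _ _ ?_ ?_
  · ext v
    simp only [Set.mem_inter_iff, fstC_eq, Set.mem_preimage]
    refine and_congr_left fun hv => aux _ (Or.inl ⟨v, hv, rfl⟩)
  · ext v
    simp only [Set.mem_inter_iff, sndC_eq, Set.mem_preimage]
    refine and_congr_left fun hv => aux _ (Or.inr ⟨v, hv, rfl⟩)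

theorem finset_disj {W : Type} {S S' : Finset W} (h : ∀ x ∈ (S : Set W), x ∉ (S' : Set W)) :
    Disjoint S S' := Finset.disjoint_left.2 fun x hx => by simpa using h x (by simpa using hx)

/-- Independence of a first-configuration event, a second-configuration event and a joint
event. -/
theorem term (hi : S_PrIndep) (T : Set V) (f g : Set V → Prop) (h : Set V → Set V → Prop)
    (D1 D2 E1 E2 : Set V) (fD1 : D1.Finite) (fD2 : D2.Finite) (fE1 : E1.Finite) (fE2 : E2.Finite)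
    (hf : DepOn f D1) (hg : DepOn g D2) (hh : Dep2 h E1 E2)
    (d11 : ∀ v ∈ D1, v ∉ E1) (d22 : ∀ v ∈ D2, v ∉ E2) (d12 : ∀ v ∈ D1, v ∈ D2 → v ∉ T)
    (d1e : ∀ v ∈ D1, v ∈ E2 → v ∉ T) (d2e : ∀ v ∈ D2, v ∈ E1 → v ∉ T) :
    PrT T (fun B C => f B ∧ g C ∧ h B C) = Pr f * Pr g * PrT T h := by
  classical
  have fS1 : (jf '' D1).Finite := fD1.image _
  have fS2 : (js T '' D2).Finite := fD2.image _
  have fS3 : (jf '' E1 ∪ js T '' E2).Finite := (fE1.image _).union (fE2.image _)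
  have e1 : DepOn (fun C : Set (V × Bool) => f (fstC C)) ((fS1.toFinset : Finset (V × Bool)) :
      Set (V × Bool)) := by
    rw [Set.Finite.coe_toFinset]
    exact dep_pre jf hf
  have e2' : DepOn (fun C : Set (V × Bool) => g (sndC T C)) (js T '' D2) := by
    simp only [sndC_eq]
    exact dep_pre (js T) hg
  have e2 : DepOn (fun C : Set (V × Bool) => g (sndC T C)) ((fS2.toFinset : Finset (V × Bool)) :
      Set (V × Bool)) := by
    rw [Set.Finite.coe_toFinset]
    exact e2'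
  have e3 : DepOn (fun C : Set (V × Bool) => h (fstC C) (sndC T C))
      ((fS3.toFinset : Finset (V × Bool)) : Set (V × Bool)) := by
    rw [Set.Finite.coe_toFinset]
    exact dep2_dep T hh
  have e23 : DepOn (fun C : Set (V × Bool) => g (sndC T C) ∧ h (fstC C) (sndC T C))
      ((fS2.toFinset ∪ fS3.toFinset : Finset (V × Bool)) : Set (V × Bool)) := by
    rw [Finset.coe_union]
    exact dep_and e2 e3
  have i23 := hi (V × Bool) _ _ _ _ e2 e3 (finset_disj (by
    intro x hx hx'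
    rw [Set.Finite.coe_toFinset] at hx hx'
    obtain ⟨v, hv, rfl⟩ := hx
    rcases hx' with ⟨w, hw, hw'⟩ | ⟨w, hw, hw'⟩
    · obtain ⟨rfl, h2⟩ := jf_eq_js hw'
      exact d2e _ hv hw h2
    · rw [js_inj T hw'] at hw
      exact d22 v hv hw))
  have i1 := hi (V × Bool) _ _ _ _ e1 e23 (finset_disj (by
    intro x hx hx'
    rw [Finset.coe_union, Set.Finite.coe_toFinset, Set.Finite.coe_toFinset] at hx'
    rw [Set.Finite.coe_toFinset] at hx
    obtain ⟨v, hv, rfl⟩ := hx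
    rcases hx' with ⟨w, hw, hw'⟩ | ⟨w, hw, hw'⟩ | ⟨w, hw, hw'⟩
    · obtain ⟨rfl, h2⟩ := jf_eq_js hw'.symm
      exact d12 _ hv hw h2
    · rw [jf_inj hw'] at hw
      exact d11 v hv hw
    · obtain ⟨rfl, h2⟩ := jf_eq_js hw'.symm
      exact d1e _ hv hw h2))
  unfold PrT
  rw [i1, i23, Pr_fst f (loc_of fD1 hf), Pr_snd T g (loc_of fD2 hg)]
  ring

/-! ### Monotonicity -/

theorem conn_mono {S S' : Set V} (hS : S ⊆ S') {u v : V} (h : Conn S u v) : Conn S' u v :=
  ⟨hS h.1, Relation.ReflTransGen.mono (fun _ _ h => ⟨h.1, hS h.2⟩) _ _ h.2⟩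

theorem LR_mono {x1 x2 y1 y2 : ℤ} {B B' : Set V} (h : B ⊆ B') (hB : LR x1 x2 y1 y2 B) :
    LR x1 x2 y1 y2 B' := by
  obtain ⟨u, v, hu, hv, hc⟩ := hB
  exact ⟨u, v, hu, hv, conn_mono (Set.inter_subset_inter_left _ h) hc⟩

theorem TB_mono {x1 x2 y1 y2 : ℤ} {B B' : Set V} (h : B ⊆ B') (hB : TB x1 x2 y1 y2 B) :
    TB x1 x2 y1 y2 B' := by
  obtain ⟨u, v, hu, hv, hc⟩ := hB
  exact ⟨u, v, hu, hv, conn_mono (Set.inter_subset_inter_left _ h) hc⟩

theorem box_mono {x1 x2 y1 y2 x1' x2' y1' y2' : ℤ} (h1 : x1' ≤ x1) (h2 : x2 ≤ x2')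
    (h3 : y1' ≤ y1) (h4 : y2 ≤ y2') : Box x1 x2 y1 y2 ⊆ Box x1' x2' y1' y2' := by
  rintro v ⟨a, b, c, d⟩
  exact ⟨h1.trans a, b.trans h2, h3.trans c, d.trans h4⟩

theorem EQ_Ea {n t a b : ℤ} (ht : 0 ≤ t) {B : Set V} (h : EQ n a b B) : Ea n t a b B := by
  obtain ⟨u, v, hu, hv, hc⟩ := h
  exact ⟨u, v, hu, hv, conn_mono (Set.inter_subset_inter_right _
    (box_mono le_rfl le_rfl (by omega) (by omega))) hc⟩

theorem RW_decr (n t a b : ℤ) : Decr (RW n t a b) := by
  intro B B' h hB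
  have hc : B'ᶜ ⊆ Bᶜ := Set.compl_subset_compl.2 h
  obtain ⟨h1, h2, h3, h4, h5, h6, h7⟩ := hB
  exact ⟨LR_mono hc h1, LR_mono hc h2, TB_mono hc h3, TB_mono hc h4, LR_mono hc h5,
    LR_mono hc h6, TB_mono hc h7⟩

theorem box_finite (x1 x2 y1 y2 : ℤ) : (Box x1 x2 y1 y2).Finite := by
  refine ((Set.finite_Icc x1 x2).prod (Set.finite_Icc y1 y2)).subset ?_
  rintro v ⟨a, b, c, d⟩
  exact ⟨⟨a, b⟩, ⟨c, d⟩⟩

theorem ball_finite (r : ℤ) : (Ball 0 r).Finite := by
  refine (box_finite (-r) r (-r) r).subset ?_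
  rintro v ⟨h1, h2⟩
  simp only [Prod.fst_zero, Prod.snd_zero, sub_zero, abs_le] at h1 h2
  exact ⟨h1.1, h1.2, h2.1, h2.2⟩

theorem ann_finite (r R : ℤ) : (Ann 0 r R).Finite := (ball_finite R).subset Set.sdiff_subset

theorem mem_ann {r R : ℤ} {v : V} : v ∈ Ann 0 r R ↔
    ((-R ≤ v.1 ∧ v.1 ≤ R) ∧ (-R ≤ v.2 ∧ v.2 ≤ R)) ∧
      ¬ ((-r ≤ v.1 ∧ v.1 ≤ r) ∧ (-r ≤ v.2 ∧ v.2 ≤ r)) := by
  unfold Ann Ball
  simp only [Set.mem_sdiff, Set.mem_ofPred_eq, Prod.fst_zero, Prod.snd_zero, sub_zero, abs_le]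

/-! ### The domains -/

/-- the domain of the ring event `RW` -/
def RD (n t a b : ℤ) : Set V :=
  Box (4 * n) (4 * n + a) (4 * n + b + 1) (4 * n + b + t) ∪
  (Box (4 * n) (4 * n + a) (4 * n - t) (4 * n - 1) ∪
  (Box (4 * n) (4 * n + a) (4 * n + b + 1) (10 * n) ∪
  (Box (4 * n) (4 * n + a) (-(10 * n)) (4 * n - 1) ∪
  (Box (-(10 * n)) (10 * n) (8 * n) (10 * n) ∪
  (Box (-(10 * n)) (10 * n) (-(10 * n)) (-(8 * n)) ∪
  Box (-(10 * n)) (-(8 * n)) (-(10 * n)) (10 * n))))))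

theorem dep_RW (n t a b : ℤ) : DepOn (RW n t a b) (RD n t a b) := by
  refine dep_and (dep_compl (dep_LR _ _ _ _)) (dep_and (dep_compl (dep_LR _ _ _ _))
    (dep_and (dep_compl (dep_TB _ _ _ _)) (dep_and (dep_compl (dep_TB _ _ _ _))
    (dep_and (dep_compl (dep_LR _ _ _ _)) (dep_and (dep_compl (dep_LR _ _ _ _))
    (dep_compl (dep_TB _ _ _ _)))))))

theorem RD_finite (n t a b : ℤ) : (RD n t a b).Finite :=
  (box_finite _ _ _ _).union <| (box_finite _ _ _ _).union <| (box_finite _ _ _ _).union <|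
  (box_finite _ _ _ _).union <| (box_finite _ _ _ _).union <| (box_finite _ _ _ _).union <|
  (box_finite _ _ _ _)

/-- the domain of the corridors -/
def KD (n t a b : ℤ) : Set V :=
  Box (4 * n - t) (4 * n - 1) (4 * n) (4 * n + b) ∪
  (Box (4 * n + a + 1) (4 * n + a + t) (4 * n) (4 * n + b) ∪
  (Box 0 (4 * n - 1) (4 * n) (4 * n + b) ∪
  (Box 0 n (n + 1) (4 * n + b) ∪
  Box (4 * n + a + 1) (25 * n) (4 * n) (4 * n + b))))

theorem dep_KB (n t a b : ℤ) : DepOn (KB n t a b) (KD n t a b) :=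
  dep_and (dep_TB _ _ _ _) (dep_and (dep_TB _ _ _ _) (dep_and (dep_LR _ _ _ _)
    (dep_and (dep_TB _ _ _ _) (dep_LR _ _ _ _))))

theorem KD_finite (n t a b : ℤ) : (KD n t a b).Finite :=
  (box_finite _ _ _ _).union <| (box_finite _ _ _ _).union <| (box_finite _ _ _ _).union <|
  (box_finite _ _ _ _).union <| (box_finite _ _ _ _)

theorem dep_RB (h1 : S_armBasic) (n : ℤ) :
    DepOn (RB n) (Ann 0 n (2 * n) ∪ Ann 0 (12 * n) (24 * n)) :=
  dep_and (dep_not (dep_compl (h1.1 0 n (2 * n)).2.1))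
    (dep_not (dep_compl (h1.1 0 (12 * n) (24 * n)).2.1))

/-- corridors, rings and the two arms -/
def KRA (n t a b r R : ℤ) (B : Set V) : Prop :=
  KB n t a b B ∧ RB n B ∧ Arm 0 r (2 * n) B ∧ Arm 0 (12 * n) R B

/-- the domain of `KRA` -/
def DD (n t a b r R : ℤ) : Set V :=
  KD n t a b ∪ ((Ann 0 n (2 * n) ∪ Ann 0 (12 * n) (24 * n)) ∪
    (Ann 0 r (2 * n) ∪ Ann 0 (12 * n) R))

theorem dep_KRA (h1 : S_armBasic) (n t a b r R : ℤ) :
    DepOn (KRA n t a b r R) (DD n t a b r R) :=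
  dep_and (dep_KB n t a b) (dep_and (dep_RB h1 n) (dep_and (h1.1 0 r (2 * n)).2.1
    (h1.1 0 (12 * n) R).2.1))

theorem DD_finite (n t a b r R : ℤ) : (DD n t a b r R).Finite :=
  (KD_finite _ _ _ _).union (((ann_finite _ _).union (ann_finite _ _)).union
    ((ann_finite _ _).union (ann_finite _ _)))

/-- the joint event `G` outside of the white rings -/
def Grest (n t a b r R : ℤ) (B C : Set V) : Prop :=
  (KB n t a b B ∧ RB n B ∧ Arm 0 r (2 * n) B ∧ Arm 0 (12 * n) R B) ∧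
      KB n t b a (mir C) ∧ RB n (mir C) ∧ Arm 0 r (2 * n) (mir C) ∧ Arm 0 (12 * n) R (mir C)

theorem dep2_Grest (h1 : S_armBasic) (n t a b r R : ℤ) :
    Dep2 (Grest n t a b r R) (DD n t a b r R) (Prod.swap ⁻¹' DD n t b a r R) := by
  intro B B' C C' hB hC
  have e1 := dep_KRA h1 n t a b r R B B' hB
  have e2 := dep_mir (dep_KRA h1 n t b a r R) C C' hC
  show (KRA n t a b r R B ∧ KRA n t b a r R (mir C)) = (KRA n t a b r R B' ∧ KRA n t b a r R (mir C'))
  rw [e1]
  exact congrArg _ e2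

/-- `Q` with the strips below and above it and the ring -/
def RE (n t a b : ℤ) : Set V := RD n t a b ∪ Box (4 * n) (4 * n + a) (4 * n - t) (4 * n + b + t)

theorem RE_finite (n t a b : ℤ) : (RE n t a b).Finite := (RD_finite _ _ _ _).union (box_finite _ _ _ _)

theorem RE_ann {n t a b : ℤ} (h : Adm n t a b) {v : V} (hv : v ∈ RE n t a b) :
    v ∈ Ann 0 n (25 * n) := by
  obtain ⟨h1, h2, h3, h4, h5, h6⟩ := h
  rw [mem_ann]
  simp only [RE, RD, Box, Set.mem_union, Set.mem_ofPred_eq] at hv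
  omega

theorem RE_DD {n t a b r R : ℤ} (h : Adm n t a b) {v : V} (hv : v ∈ RE n t a b) :
    v ∉ DD n t a b r R := by
  obtain ⟨h1, h2, h3, h4, h5, h6⟩ := h
  simp only [DD, KD, Set.mem_union, mem_ann, Box, Set.mem_ofPred_eq]
  simp only [RE, RD, Box, Set.mem_union, Set.mem_ofPred_eq] at hv
  omega

theorem Q_DD {n t a b r R : ℤ} (h : Adm n t a b) {v : V}
    (hv : v ∈ Box (4 * n) (4 * n + a) (4 * n) (4 * n + b)) : v ∉ DD n t a b r R := by
  obtain ⟨h1, h2, h3, h4, h5, h6⟩ := h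
  simp only [DD, KD, Set.mem_union, mem_ann, Box, Set.mem_ofPred_eq]
  simp only [Box, Set.mem_ofPred_eq] at hv
  omega

theorem Q_RD {n t a b : ℤ} (h : Adm n t a b) {v : V}
    (hv : v ∈ Box (4 * n) (4 * n + a) (4 * n) (4 * n + b)) : v ∉ RD n t a b := by
  obtain ⟨h1, h2, h3, h4, h5, h6⟩ := h
  simp only [RD, Set.mem_union, Box, Set.mem_ofPred_eq]
  simp only [Box, Set.mem_ofPred_eq] at hv
  omega

theorem adm_swap {n t a b : ℤ} (h : Adm n t a b) : Adm n t b a := by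
  obtain ⟨h1, h2, h3, h4, h5, h6⟩ := h
  exact ⟨h1, h2, h5, h6, h3, h4⟩

end Kit5

end TriX
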