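import Pool.Agent.EX.Spec1

/-! Statements, part 2: arms, the strict inequality, the lower bound, the stopping set. -/

open MeasureTheory

namespace TriX

/-! ### Arms -/

/-- A1. Deterministic and invariance properties of arms. -/
def S_armBasic : Prop :=
  (∀ (c : V) (r R : ℤ), Incr (Arm c r R) ∧ DepOn (Arm c r R) (Ann c r R) ∧
    (Ann c r R).Finite ∧ Loc (Arm c r R)) ∧
  (∀ (c : V) (r R r' R' : ℤ) (B : Set V), r ≤ r' → r' ≤ R' → R' ≤ R → 0 ≤ r → Arm c r R B →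
    Arm c r' R' B) ∧
  (∀ (c : V) (r R : ℤ) (S : Set V) (u v : V), r ≤ R → u ∈ Ball c r → v ∉ Ball c R →
    (Conn S u v ∨ Via S u v) → Arm c r R S) ∧
  (∀ (c : V) (r R : ℤ), Pr (Arm c r R) = al r R ∧ Pr (fun B => Arm c r R Bᶜ) = al r R ∧
    Pr (Arm2 c r R) = wb r R) ∧
  (∀ (r R : ℤ) (B : Set V), Arm 0 r R (Prod.swap '' B) ↔ Arm 0 r R B) ∧
  (∀ (c : V) (r : ℤ) (B : Set V), 0 ≤ r → Arm c r r B)

/-- A2. Lower bound at comparable scales. -/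
def S_alLow : Prop := ∀ k : ℕ, ∃ c : ℝ, 0 < c ∧ ∀ r R : ℤ, 0 ≤ r → r ≤ R → R ≤ k * (r + 1) →
  c ≤ al r R

/-- A3. Rings have positive probability. -/
def S_ringProb : Prop := ∃ c : ℝ, 0 < c ∧ ∀ (c0 : V) (r R : ℤ), 0 ≤ r → 1 ≤ R → 2 * r ≤ R →
  c ≤ Pr (fun B => ¬ Arm c0 r R Bᶜ)

/-- A4. Gluing two arms through a ring. -/
def S_glue : Prop := ∀ (B : Set V) (c : V) (r r2 R2 R : ℤ), 0 ≤ r → r ≤ r2 → r2 < R2 → R2 ≤ R →
  Arm c r R2 B → ¬ Arm c r2 R2 Bᶜ → Arm c r2 R B → Arm c r R B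

/-- A5. Quasi-multiplicativity of the one-arm probability. -/
def S_QM : Prop := (∀ r R : ℤ, 0 ≤ r → r ≤ R → 0 < al r R ∧ al r R ≤ 1) ∧
  (∀ r1 r2 r3 : ℤ, 0 ≤ r1 → r1 ≤ r2 → r2 ≤ r3 → al r1 r3 ≤ al r1 r2 * al r2 r3) ∧
  (∃ c : ℝ, 0 < c ∧ ∀ r1 r2 r3 : ℤ, 0 ≤ r1 → r1 ≤ r2 → r2 ≤ r3 →
    c * (al r1 r2 * al r2 r3) ≤ al r1 r3)

/-! ### The strict inequality -/

/-- Reflection and colour flip. -/
def mir (B : Set V) : Set V := {v | Prod.swap v ∉ B}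

/-- Crossing of the box `Q = [4n,4n+a] x [4n,4n+b]`. -/
def EQ (n a b : ℤ) : Set V → Prop := LR (4 * n) (4 * n + a) (4 * n) (4 * n + b)

/-- Crossing of `Q` with the strips below and above it. -/
def Ea (n t a b : ℤ) : Set V → Prop := LR (4 * n) (4 * n + a) (4 * n - t) (4 * n + b + t)

/-- Crossing of `Q` with the strips on its left and on its right. -/
def Eb (n t a b : ℤ) : Set V → Prop := LR (4 * n - t) (4 * n + a + t) (4 * n) (4 * n + b)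

/-- White ring, closed up to the columns of `Q`, with white caps above and below `Q`. -/
def RW (n t a b : ℤ) (B : Set V) : Prop :=
  LR (4 * n) (4 * n + a) (4 * n + b + 1) (4 * n + b + t) Bᶜ ∧
  LR (4 * n) (4 * n + a) (4 * n - t) (4 * n - 1) Bᶜ ∧
  TB (4 * n) (4 * n + a) (4 * n + b + 1) (10 * n) Bᶜ ∧
  TB (4 * n) (4 * n + a) (-(10 * n)) (4 * n - 1) Bᶜ ∧
  LR (-(10 * n)) (10 * n) (8 * n) (10 * n) Bᶜ ∧
  LR (-(10 * n)) (10 * n) (-(10 * n)) (-(8 * n)) Bᶜ ∧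
  TB (-(10 * n)) (-(8 * n)) (-(10 * n)) (10 * n) Bᶜ

/-- Black corridors on the left and on the right of `Q`. -/
def KB (n t a b : ℤ) (B : Set V) : Prop :=
  TB (4 * n - t) (4 * n - 1) (4 * n) (4 * n + b) B ∧
  TB (4 * n + a + 1) (4 * n + a + t) (4 * n) (4 * n + b) B ∧
  LR 0 (4 * n - 1) (4 * n) (4 * n + b) B ∧
  TB 0 n (n + 1) (4 * n + b) B ∧
  LR (4 * n + a + 1) (25 * n) (4 * n) (4 * n + b) B

/-- Black rings inside and outside. -/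
def RB (n : ℤ) (B : Set V) : Prop := ¬ Arm 0 n (2 * n) Bᶜ ∧ ¬ Arm 0 (12 * n) (24 * n) Bᶜ

/-- The admissible sizes. -/
def Adm (n t a b : ℤ) : Prop := 1 ≤ t ∧ t ≤ n ∧ n ≤ a ∧ a ≤ 2 * n ∧ n ≤ b ∧ b ≤ 2 * n

/-- ST1. With the white ring, a black arm has to cross `Q` and its two strips. -/
def S_st1 : Prop := ∀ (n t a b : ℤ) (B : Set V), Adm n t a b → RW n t a b B →
  Arm 0 (3 * n) (10 * n) B → Ea n t a b B

/-- ST2. With the corridors and the rings, a crossing of `Q` and its side strips joins the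
two arms. -/
def S_st2 : Prop := ∀ (n t a b r R : ℤ) (B : Set V), Adm n t a b → 0 ≤ r → r ≤ n →
  25 * n ≤ R → KB n t a b B → RB n B → Eb n t a b B → Arm 0 r (2 * n) B →
  Arm 0 (12 * n) R B → Arm 0 r R B

/-- ST3. Lower bounds for the local events. -/
def S_st3 : Prop := (∃ c0 : ℝ, 0 < c0 ∧ ∀ n t a b : ℤ, Adm n t a b → c0 ≤ Pr (Eb n t a b)) ∧
  ∀ m : ℕ, ∃ c : ℝ, 0 < c ∧ ∀ n t a b : ℤ, Adm n t a b → n ≤ m * t →
    c ≤ Pr (RW n t a b) ∧ c ≤ Pr (fun B => KB n t a b B ∧ RB n B)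

/-- ST4. Pigeonhole: for suitable sizes the strips hardly matter. -/
def S_st4 : Prop := ∀ m : ℕ, 1 ≤ m → ∀ n : ℤ, 2 * m ≤ n → ∃ a b : ℤ,
  Adm n (n / (2 * m)) a b ∧
  (Pr (Ea n (n / (2 * m)) a b) - Pr (EQ n a b)) +
    (Pr (Ea n (n / (2 * m)) b a) - Pr (EQ n b a)) ≤ 2 / m

/-- The joint arm event: black arm in the first configuration, reflected white arm in the
second one. -/
noncomputable def F2 (r R : ℤ) (T : Set V) : ℝ := PrT T (fun B C => Arm 0 r R B ∧ Arm 0 r R (mir C))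

/-- ST5. One step: sharing one well chosen box decreases the joint probability by a factor. -/
def S_st5 : Prop := ∃ c : ℝ, 0 < c ∧ c < 1 ∧ ∃ n0 : ℤ, 1 ≤ n0 ∧ ∀ n r R : ℤ, n0 ≤ n → 0 ≤ r →
  r ≤ n → 25 * n ≤ R → ∀ T : Set V, Disjoint T (Ann 0 n (25 * n)) →
  ∃ Q : Finset V, (Q : Set V) ⊆ Ann 0 (3 * n) (10 * n) ∧
    F2 r R (T ∪ Q) ≤ (1 - c) * F2 r R T

/-- ST5a. Lower bound without sharing. -/
def S_st5a : Prop := ∀ (n t a b r R : ℤ) (T : Set V), Adm n t a b → 0 ≤ r → r ≤ n →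
  25 * n ≤ R → Disjoint T (Ann 0 n (25 * n)) →
  Pr (RW n t a b) * Pr (RW n t b a) * (Pr (Eb n t a b) * Pr (Eb n t b a)) *
    PrT T (fun B C => (KB n t a b B ∧ RB n B ∧ Arm 0 r (2 * n) B ∧ Arm 0 (12 * n) R B) ∧
      KB n t b a (mir C) ∧ RB n (mir C) ∧ Arm 0 r (2 * n) (mir C) ∧ Arm 0 (12 * n) R (mir C)) ≤
  PrT T (fun B C => Arm 0 r R B ∧ Arm 0 r R (mir C) ∧
    ((RW n t a b B ∧ KB n t a b B ∧ RB n B ∧ Arm 0 r (2 * n) B ∧ Arm 0 (12 * n) R B) ∧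
      RW n t b a (mir C) ∧ KB n t b a (mir C) ∧ RB n (mir C) ∧ Arm 0 r (2 * n) (mir C) ∧
      Arm 0 (12 * n) R (mir C)))

/-- ST5b. Upper bound when the box is shared. -/
def S_st5b : Prop := ∀ (n t a b r R : ℤ) (T : Set V) (Q : Finset V), Adm n t a b → 0 ≤ r →
  r ≤ n → 25 * n ≤ R → Disjoint T (Ann 0 n (25 * n)) →
  (Q : Set V) = Box (4 * n) (4 * n + a) (4 * n) (4 * n + b) →
  PrT (T ∪ Q) (fun B C => Arm 0 r R B ∧ Arm 0 r R (mir C) ∧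
    ((RW n t a b B ∧ KB n t a b B ∧ RB n B ∧ Arm 0 r (2 * n) B ∧ Arm 0 (12 * n) R B) ∧
      RW n t b a (mir C) ∧ KB n t b a (mir C) ∧ RB n (mir C) ∧ Arm 0 r (2 * n) (mir C) ∧
      Arm 0 (12 * n) R (mir C))) ≤
  Pr (RW n t a b) * Pr (RW n t b a) * ((Pr (Ea n t a b) - Pr (EQ n a b)) +
    (Pr (Ea n t b a) - Pr (EQ n b a))) *
    PrT T (fun B C => (KB n t a b B ∧ RB n B ∧ Arm 0 r (2 * n) B ∧ Arm 0 (12 * n) R B) ∧
      KB n t b a (mir C) ∧ RB n (mir C) ∧ Arm 0 r (2 * n) (mir C) ∧ Arm 0 (12 * n) R (mir C))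

/-- ST5c. The arms, rings and corridors together cost a constant factor. -/
def S_st5c : Prop := ∀ (n t a b r R : ℤ) (T : Set V), Adm n t a b → 0 ≤ r → r ≤ n →
  25 * n ≤ R → Disjoint T (Ann 0 n (25 * n)) →
  Pr (fun B => KB n t a b B ∧ RB n B) * Pr (fun B => KB n t b a B ∧ RB n B) * F2 r R T ≤
    PrT T (fun B C => (KB n t a b B ∧ RB n B ∧ Arm 0 r (2 * n) B ∧ Arm 0 (12 * n) R B) ∧
      KB n t b a (mir C) ∧ RB n (mir C) ∧ Arm 0 r (2 * n) (mir C) ∧ Arm 0 (12 * n) R (mir C))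

/-- ST6. The strict inequality. -/
def S_strict : Prop := ∃ ε C : ℝ, 0 < ε ∧ ε < 1 ∧ 0 < C ∧ ∀ r R : ℤ, 0 ≤ r → r < R →
  wb r R ≤ C * (((r : ℝ) + 1) / R) ^ ε * al r R ^ 2

/-! ### Lower bound for two arms -/

/-- LB1. An interface crosses the vertical axis. -/
def S_interface : Prop := ∀ (p : ℤ) (B : Set V), 1 ≤ p →
  LR (-(3 * p)) (3 * p) (-(2 * p)) (-p) B → LR (-(3 * p)) (3 * p) p (2 * p) Bᶜ →
  ∃ j : ℤ, -(2 * p) ≤ j ∧ j ≤ 2 * p ∧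
    (∃ v, v ∉ Ball 0 (3 * p) ∧ Via (B ∩ Ball 0 (3 * p)) (0, j) v) ∧
    (∃ v, v ∉ Ball 0 (3 * p) ∧ Via (Bᶜ ∩ Ball 0 (3 * p)) (0, j) v)

/-- LB2. -/
def S_wbLow : Prop := ∃ c : ℝ, 0 < c ∧ ∀ r R : ℤ, 0 ≤ r → r < R →
  c * (((r : ℝ) + 1) / R) ≤ wb r R

/-- LB3. All consequences for one arm and for the two-arm probability of a site. -/
def S_arms : Prop := ∃ ε C : ℝ, 0 < ε ∧ ε < 1 ∧ 0 < C ∧
  (∀ r R : ℤ, 0 ≤ r → r < R → wb r R ≤ C * (((r : ℝ) + 1) / R) ^ ε * al r R ^ 2) ∧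
  (∀ r R : ℤ, 0 ≤ r → r < R → (((r : ℝ) + 1) / R) ^ (1 - ε) ≤ C * al r R ^ 2)

/-! ### The stopping set -/

/-- The ray of slope `-s/N`. -/
def ray (s N k : ℕ) : V := ((k : ℤ), -((s * k / N : ℕ) : ℤ))

/-- The set explored from the part of the ray outside of `Ball 0 k`. -/
def Qk (s N : ℕ) (r R k : ℤ) (B : Set V) : Set V :=
  Expl (Ann 0 r R) {v | ∃ j : ℕ, k < (j : ℤ) ∧ (j : ℤ) ≤ R ∧ v = ray s N j} (Ball 0 R)ᶜ ∅ B

/-- The explored set used for the arm event in `Ann 0 r R`. -/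
def QQ (s N : ℕ) (r R : ℤ) (B : Set V) : Set V :=
  {v | ∃ k : ℤ, r ≤ k ∧ k < R ∧ (k + 1 = R ∨ Arm 0 (k + 1) R B) ∧ v ∈ Qk s N r R k B}

/-- X1. The exploration finds a white ring if there is one. -/
def S_loop : Prop := ∀ (s N : ℕ) (r R k : ℤ) (B B' : Set V), s < N → 0 ≤ r → r ≤ k → k < R →
  ¬ Arm 0 k R B → B ∩ Qk s N r R k B = B' ∩ Qk s N r R k B → ¬ Arm 0 k R B'

/-- X2. `QQ` is a stopping set which determines the arm event. -/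
def S_QQstop : Prop := ∀ (s N : ℕ) (r R : ℤ) (B B' : Set V), s < N → 0 ≤ r → r < R →
  QQ s N r R B ⊆ Ann 0 r R ∧
  (B ∩ QQ s N r R B = B' ∩ QQ s N r R B →
    QQ s N r R B' = QQ s N r R B ∧ (Arm 0 r R B ↔ Arm 0 r R B'))

/-- X3. Arms from an explored site. -/
def S_QQarms : Prop := ∀ (s N : ℕ) (r R : ℤ) (B : Set V) (x : V), s < N → 0 ≤ r → r < R →
  x ∈ QQ s N r R B →
  (∀ δ : ℤ, 0 ≤ δ → (∀ j : ℕ, ray s N j ∉ Ball x δ) → Ball x δ ⊆ Ball 0 R → Arm2 x 0 δ B) ∧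
  (∀ m : ℤ, 0 ≤ m → m < R → x ∈ Ball 0 m → Arm 0 m R B ∨
    ∃ k : ℤ, m ≤ k ∧ k < R ∧ Arm2 0 m k B ∧ (k + 1 = R ∨ Arm 0 (k + 1) R B))

/-- X4. Probability that a site is explored, for given `s, R`. -/
def S_revealPt : Prop := ∃ C : ℝ, 0 < C ∧ (∀ (s N : ℕ) (r R p δ : ℤ) (x : V), s < N → 0 ≤ r →
  r < R → 1 ≤ p → p ≤ R → x ∈ Ball 0 p → x ∉ Ball 0 (p - 1) → 0 ≤ δ → δ ≤ p →
  (∀ j : ℕ, ray s N j ∉ Ball x δ) → Ball x δ ⊆ Ball 0 R →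
  Pr (fun B => x ∈ QQ s N r R B) ≤ C * wb 0 δ * al p R) ∧
  (∀ (s N : ℕ) (r R p : ℤ) (x : V), s < N → 0 ≤ r → r < R → 1 ≤ p → p ≤ R → x ∈ Ball 0 p →
  Pr (fun B => x ∈ QQ s N r R B) ≤ C * al p R)

/-- X5. Few rays pass close to a given site. -/
def S_rayCount : Prop := ∃ C : ℝ, 0 < C ∧ ∀ (N : ℕ) (p δ : ℤ) (x : V), 1 ≤ p → p ≤ N →
  x ∉ Ball 0 (p - 1) → 0 ≤ δ →
  (({s : ℕ | s < N ∧ ∃ j : ℕ, ray s N j ∈ Ball x δ}.ncard : ℕ) : ℝ) ≤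
    C * N * (((δ : ℝ) + 1) / p)

/-- X6. The average probability that a site is explored. -/
def S_reveal : Prop := ∃ C ε : ℝ, 0 < C ∧ 0 < ε ∧ ∀ j J : ℕ, j < J → ∀ x : V,
  (∑ i ∈ Finset.Ioc J (2 * J), ∑ s ∈ Finset.range (20 * J),
    Pr (fun B => x ∈ QQ s (20 * J) (5 * j + 2) (5 * i + 2) B)) / ((J : ℝ) * (20 * J)) ≤
  C * ((5 * j + 2 : ℝ)) ^ (-ε) * al 0 (5 * j + 2) ^ 2 * al (5 * j + 2) (5 * J + 2)

end TriX
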