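import Pool.Agent.EX.Spec2
import Pool.Agent.EX.Noise
import Pool.Agent.EX.Process

/-! Statements, part 3: blocks and gadgets, resolvent comparison, second moment. -/

open MeasureTheory

namespace TriX

/-! ### Blocks -/

/-- The 25 cells of a block. -/
abbrev Cell : Type := Fin 5 × Fin 5

/-- A block configuration together with a label. -/
abbrev BX : Type := (Cell → Bool) × Cell

/-- The blocks of `Ball 0 (5N+2)`. -/
abbrev Ix (N : ℕ) : Type := Fin (2 * N + 1) × Fin (2 * N + 1)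

/-- Position of a cell in its block, the centre being the origin. -/
def posC (c : Cell) : V := ((c.1 : ℤ) - 2, (c.2 : ℤ) - 2)

/-- Position of a site. -/
def site (N : ℕ) (v : Ix N) (c : Cell) : V :=
  (5 * ((v.1 : ℤ) - N) + (posC c).1, 5 * ((v.2 : ℤ) - N) + (posC c).2)

/-- The set of black sites of a block configuration. -/
def cfg (N : ℕ) (ω : Ix N → BX) : Set V := {x | ∃ v c, x = site N v c ∧ (ω v).1 c = true}

/-- The centre of a block. -/
def cen : Cell := (2, 2)

/-- The gadget of the block is active: the label is on the boundary of the block, the six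
neighbours of the centre are white, and the label and the centre have different colours. -/
def Active (x : BX) : Prop :=
  (x.2.1 = 0 ∨ x.2.1 = 4 ∨ x.2.2 = 0 ∨ x.2.2 = 4) ∧
  (∀ c : Cell, Adj (posC c) (posC cen) → x.1 c = false) ∧ x.1 x.2 ≠ x.1 cen

open Classical in
/-- The involution of a block: exchange the label site and the centre if active. -/
noncomputable def iotaG (x : BX) : BX :=
  if Active x then (fun c => x.1 (Equiv.swap x.2 cen c), x.2) else x

open Classical in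
/-- The coin of a block. -/
noncomputable def chiG (x : BX) : ℝ := if Active x then (if x.1 x.2 = true then 1 else -1) else 0

open Classical in
/-- Indicator of an arm event as a function of the block configuration. -/
noncomputable def armI (N : ℕ) (r R : ℤ) (ω : Ix N → BX) : ℝ :=
  if Arm 0 r R (cfg N ω) then 1 else 0

/-- G1. The gadgets are coins for arm events, with finite energy. -/
def S_gadget : Prop := ∃ c : Noise.Coin BX, c.ι = iotaG ∧ c.χ = chiG ∧
  ∀ (N j i : ℕ), j < i → i ≤ N → Noise.Good c 1 (armI N (5 * j + 2) (5 * i + 2))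

/-- Exchange of the values of two sites in a block configuration. -/
def swapω (N : ℕ) (s s' : Ix N × Cell) (ω : Ix N → BX) : Ix N → BX :=
  fun v => (fun c => (ω (Equiv.swap s s' (v, c)).1).1 (Equiv.swap s s' (v, c)).2, (ω v).2)

open Classical in
/-- Ordered pairs of adjacent sites of the big box. -/
noncomputable def adjPairs (N : ℕ) : Finset ((Ix N × Cell) × (Ix N × Cell)) :=
  Finset.univ.filter (fun p => Adj (site N p.1.1 p.1.2) (site N p.2.1 p.2.2))

/-- G2. Comparison of the Dirichlet forms. -/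
def S_dirichlet : Prop := ∀ (N : ℕ) (h : (Ix N → BX) → ℝ),
  ∑ B : Ix N, ∑ ω, (h (Noise.flipS iotaG {B} ω) - h ω) ^ 2 ≤
    49 * ∑ p ∈ adjPairs N, ∑ ω, (h (swapω N p.1 p.2 ω) - h ω) ^ 2

/-- G3. Resolvent comparison. -/
def S_resolvent : Prop := ∀ (N : ℕ) (κ : ℝ) (F v : (Ix N → BX) → ℝ), 0 < κ → κ ≤ 1 →
  (∀ ω, v ω + κ * (1 / 2 * ∑ p ∈ adjPairs N, (v ω - v (swapω N p.1 p.2 ω))) = F ω) →
  Noise.E (fun ω => F ω * v ω) ≤
    49 / κ * ∫ u in (0 : ℝ)..1, Noise.E (fun ω => F ω * Noise.T iotaG u F ω)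

/-- One step of the lazy exclusion chain. -/
noncomputable def stepω (N : ℕ) (p : ℝ) (F : (Ix N → BX) → ℝ) : (Ix N → BX) → ℝ :=
  fun ω => F ω + p * (1 / 2 * ∑ q ∈ adjPairs N, (F (swapω N q.1 q.2 ω) - F ω))

/-- G4. Time average of correlations along the chain. -/
def S_chain : Prop := ∀ (N m : ℕ) (p : ℝ) (F : (Ix N → BX) → ℝ), 2 ≤ m → 0 ≤ p →
  p * (adjPairs N).card ≤ 1 → 1 / 2 ≤ ((m : ℝ) - 1) * p → ((m : ℝ) - 1) * p ≤ 1 →
  (∀ ω, 0 ≤ F ω) →
  (∑ k ∈ Finset.range m, Noise.E (fun ω => F ω * ((stepω N p)^[k] F) ω)) / m ≤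
    294 * ∫ u in (0 : ℝ)..1, Noise.E (fun ω => F ω * Noise.T iotaG u F ω)

/-! ### Correlations of the noised arm events -/

/-- Average of the arm events over the outer radius. -/
noncomputable def hAv (N j J : ℕ) (ω : Ix N → BX) : ℝ :=
  (∑ i ∈ Finset.Ioc J (2 * J), armI N (5 * j + 2) (5 * i + 2) ω) / J

/-- C1. Block configurations and the product measure. -/
def S_transfer : Prop := (∀ (N : ℕ) (F : Set V → ℝ), DepOn F (Ball 0 (5 * N + 2)) →
    Noise.E (fun ω : Ix N → BX => F (cfg N ω)) = Ex F) ∧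
  (∀ (N : ℕ) (r R : ℤ), 0 ≤ r → r ≤ R → R ≤ 5 * N + 2 → Noise.E (armI N r R) = al r R)

/-- C2. The noise estimate for arm events. -/
def S_corr : Prop := ∃ C ε : ℝ, 0 < C ∧ 0 < ε ∧ ∀ (N j J : ℕ), j < J → 2 * J ≤ N →
  ∀ t : ℝ, 0 < t → t ≤ 1 →
  Noise.E (fun ω => hAv N j J ω * Noise.T iotaG (1 - t) (hAv N j J) ω) ≤
    al (5 * j + 2) (5 * J + 2) ^ 2 *
      (1 + C * ((5 * j + 2 : ℝ)) ^ (-ε) * al 0 (5 * j + 2) ^ 2 / t ^ 2)

/-- C3. The one-arm event is dominated by a product. -/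
def S_prodBound : Prop := ∀ (N j J : ℕ), j < J → 2 * J ≤ N → ∀ u : ℝ, 0 ≤ u → u ≤ 1 →
  Noise.E (fun ω => armI N 0 (10 * J + 2) ω * Noise.T iotaG u (armI N 0 (10 * J + 2)) ω) ≤
    al 0 (5 * j + 2) * Noise.E (fun ω => hAv N j J ω * Noise.T iotaG u (hAv N j J) ω)

/-- C4. The integrated correlation. -/
def S_intBound : Prop := ∃ C : ℝ, 0 < C ∧ ∀ (N J : ℕ), 1 ≤ J → 2 * J ≤ N →
  ∫ u in (0 : ℝ)..1, Noise.E (fun ω =>
    armI N 0 (10 * J + 2) ω * Noise.T iotaG u (armI N 0 (10 * J + 2)) ω) ≤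
    C * al 0 (10 * J + 2) ^ 2

/-! ### The chain on sets -/

/-- Exchange the two endpoints of an edge. -/
def swapSet (e : Edge) (B : Set V) : Set V := {v | Equiv.swap e.1 (tgt e) v ∈ B}

/-- One step of the lazy chain on sets. -/
noncomputable def stepV (E : Finset Edge) (p : ℝ) (F : Set V → ℝ) : Set V → ℝ :=
  fun B => F B + p * ∑ e ∈ E, (F (swapSet e B) - F B)

open Classical in
/-- The edges inside of `Ball x (5N+2)`. -/
noncomputable def edgesIn (x : V) (N : ℕ) : Finset Edge :=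
  ((Finset.Icc (x.1 - (5 * N + 2)) (x.1 + (5 * N + 2)) ×ˢ
    Finset.Icc (x.2 - (5 * N + 2)) (x.2 + (5 * N + 2))) ×ˢ
      (Finset.univ : Finset (Fin 3))).filter (fun e => tgt e ∈ Ball x (5 * N + 2))

open Classical in
/-- Indicator of the one-arm event from `x`. -/
noncomputable def armV (x : V) (J : ℕ) (B : Set V) : ℝ := if Arm x 0 (10 * J + 2) B then 1 else 0

/-- C5. Time average of correlations for the chain on sets, centred at any site. -/
def S_chainSet : Prop := ∃ C : ℝ, 0 < C ∧ ∀ (x : V) (N J : ℕ), 1 ≤ J → 2 * J ≤ N →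
  ∃ m0 : ℕ, ∀ m : ℕ, m0 ≤ m →
  (∑ k ∈ Finset.range m, Ex (fun B => armV x J B *
    ((stepV (edgesIn x N) (Real.exp (-((edgesIn x N).card / m : ℝ)) / m))^[k] (armV x J)) B)) /
      (m : ℝ) ≤ C * al 0 (10 * J + 2) ^ 2

end TriX
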