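import Pool.Agent.EX.Spec3

/-! Statements, part 4: the infinite-volume process. -/

open MeasureTheory ProbabilityTheory

namespace TriX

/-- Exactly one ring in total, and it is a ring of `e`. -/
def OneRing (E : Finset Edge) (c : Edge → ℕ∞) (e : Edge) : Prop :=
  e ∈ E ∧ c e = 1 ∧ ∀ e' ∈ E, e' ≠ e → c e' = 0

/-- One time step of the discretised process. -/
def stepC (E : Finset Edge) (c : Edge → ℕ∞) (B : Set V) : Set V :=
  {v | (∃ e, OneRing E c e ∧ v ∈ swapSet e B) ∨ ((∀ e, ¬ OneRing E c e) ∧ v ∈ B)}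

/-- The discretised process for given ring times, with time step `1/m`. -/
noncomputable def discR (B0 : Set V) (ring : Edge → Set ℝ) (E : Finset Edge) (m : ℕ) :
    ℕ → Set V
  | 0 => B0
  | k + 1 => stepC E (fun e => (ring e ∩ Set.Ioc ((k : ℝ) / m) (((k : ℝ) + 1) / m)).encard)
      (discR B0 ring E m k)

/-- The discretised process. -/
noncomputable def disc {Ω : Type} (ξ : V → Ω → Bool) (ring : Edge → Ω → Set ℝ)
    (E : Finset Edge) (m k : ℕ) (ω : Ω) : Set V :=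
  discR {v | ξ v ω = true} (fun e => ring e ω) E m k

/-- P3. Two-time laws of the discretised process. -/
def S_disc : Prop := ∀ (Ω : Type) [MeasurableSpace Ω] (P : Measure Ω) [IsProbabilityMeasure P]
  (ξ : V → Ω → Bool) (ring : Edge → Ω → Set ℝ), IsClockSystem P ξ ring →
  ∀ (E : Finset Edge) (m : ℕ) (F G : Set V → ℝ), 1 ≤ m → Loc F → Loc G → ∀ j k : ℕ, j ≤ k →
    Integrable (fun ω => F (disc ξ ring E m j ω) * G (disc ξ ring E m k ω)) P ∧
    ∫ ω, F (disc ξ ring E m j ω) * G (disc ξ ring E m k ω) ∂P =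
      Ex (fun B => F B * ((stepV E (Real.exp (-(E.card / m : ℝ)) / m))^[k - j] G) B)

/-- The discretised one-arm event. -/
def evA {Ω : Type} (ξ : V → Ω → Bool) (ring : Edge → Ω → Set ℝ) (x : V) (J N m : ℕ) : Set Ω :=
  {ω | ∃ k : ℕ, k ≤ m ∧ Arm x 0 (10 * J + 2) (disc ξ ring (edgesIn x N) m k ω)}

/-- P3b. The events `evA` are measurable, have the same probability for all centres, and are
independent for distant centres. -/
def S_discEvents : Prop := ∀ (Ω : Type) [MeasurableSpace Ω] (P : Measure Ω)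
  [IsProbabilityMeasure P] (ξ : V → Ω → Bool) (ring : Edge → Ω → Set ℝ),
  IsClockSystem P ξ ring → ∀ J N m : ℕ, 1 ≤ J → 2 * J ≤ N → 1 ≤ m →
  (∀ x, MeasurableSet (evA ξ ring x J N m)) ∧
  (∀ x, P (evA ξ ring x J N m) = P (evA ξ ring 0 J N m)) ∧
  (∀ X : Finset V, (∀ x ∈ X, ∀ y ∈ X, x ≠ y → y ∉ Ball x (20 * N + 20)) →
    P (⋂ x ∈ X, (evA ξ ring x J N m)ᶜ) = ∏ x ∈ X, P (evA ξ ring x J N m)ᶜ)

/-- P3c. Paley and Zygmund. -/
def S_pz : Prop := ∃ c0 : ℝ, 0 < c0 ∧ ∀ (Ω : Type) [MeasurableSpace Ω] (P : Measure Ω)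
  [IsProbabilityMeasure P] (ξ : V → Ω → Bool) (ring : Edge → Ω → Set ℝ),
  IsClockSystem P ξ ring → ∀ J N : ℕ, 1 ≤ J → 2 * J ≤ N → ∃ m0 : ℕ, ∀ m : ℕ, m0 ≤ m →
    ENNReal.ofReal c0 ≤ P (evA ξ ring 0 J N m)

/-- `y` can influence the value at `x` just before time `T`: there is a chain of rings at
decreasing times in `(0,T)` leading from `x` to `y`. -/
inductive Reach (ring : Edge → Set ℝ) : ℝ → V → V → Prop
  | refl (T : ℝ) (x : V) : Reach ring T x x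
  | fwd (T t : ℝ) (e : Edge) (y : V) : t ∈ ring e → 0 < t → t < T →
      Reach ring t (tgt e) y → Reach ring T e.1 y
  | bwd (T t : ℝ) (e : Edge) (y : V) : t ∈ ring e → 0 < t → t < T →
      Reach ring t e.1 y → Reach ring T (tgt e) y

/-- Regular ring times. -/
structure Regular (ring : Edge → Set ℝ) : Prop where
  locFin : ∀ e T, (ring e ∩ Set.Ioc 0 T).Finite
  simple : ∀ e e' : Edge, ∀ t : ℝ, 0 < t → t ∈ ring e → t ∈ ring e' → e = e'
  reach : ∀ T x, {y | Reach ring T x y}.Finite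

/-- P1. Almost surely the ring times are regular. -/
def S_reg : Prop := ∀ (Ω : Type) [MeasurableSpace Ω] (P : Measure Ω) [IsProbabilityMeasure P]
  (ξ : V → Ω → Bool) (ring : Edge → Ω → Set ℝ), IsClockSystem P ξ ring →
  ∀ᵐ ω ∂P, Regular (fun e => ring e ω)

/-- P1b. Influences do not travel far. -/
def S_reachProb : Prop := ∀ (R : ℕ) (T ε : ℝ), 0 < ε → ∃ N0 : ℕ, ∀ (Ω : Type)
  [MeasurableSpace Ω] (P : Measure Ω) [IsProbabilityMeasure P]
  (ξ : V → Ω → Bool) (ring : Edge → Ω → Set ℝ), IsClockSystem P ξ ring →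
  ∀ (N : ℕ) (x : V), N0 ≤ N →
    P {ω | ∃ y ∈ Ball x R, ∃ z, z ∉ Ball x (5 * N) ∧ Reach (fun e => ring e ω) T y z} ≤
      ENNReal.ofReal ε

/-- P1c. For fine time steps there is at most one ring per step in a finite box. -/
def S_slices : Prop := ∀ (N : ℕ) (ε : ℝ), 0 < ε → ∃ m0 : ℕ, ∀ (Ω : Type)
  [MeasurableSpace Ω] (P : Measure Ω) [IsProbabilityMeasure P]
  (ξ : V → Ω → Bool) (ring : Edge → Ω → Set ℝ), IsClockSystem P ξ ring →
  ∀ (m : ℕ) (x : V), m0 ≤ m →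
    P {ω | ∃ k : ℕ, k < m ∧ 1 < ∑ e ∈ edgesIn x N,
      cnt ring (e, (k : ℝ) / m, ((k : ℝ) + 1) / m) ω} ≤ ENNReal.ofReal ε

/-- P2. On the good event the discretised process sees the same arms as the exclusion process. -/
def S_det : Prop := ∀ (ring : Edge → Set ℝ) (η : ℝ → V → Bool) (x : V) (N m : ℕ) (R : ℤ),
  IsExclusion ring η → 1 ≤ m → 0 ≤ R →
  (∀ k : ℕ, k < m → ∑ e ∈ edgesIn x N,
    (ring e ∩ Set.Ioc ((k : ℝ) / m) (((k : ℝ) + 1) / m)).encard ≤ 1) →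
  (∀ y ∈ Ball x R, ∀ z, Reach ring 2 y z → z ∈ Ball x (5 * N)) →
  ((∃ t ∈ Set.Icc (0 : ℝ) 1, Arm x 0 R {v | η t v = true}) ↔
    ∃ k : ℕ, k ≤ m ∧ Arm x 0 R (discR {v | η 0 v = true} ring (edgesIn x N) m k))

/-- P4. Existence of the exclusion process for regular ring times. -/
def S_exist : Prop := ∀ (ring : Edge → Set ℝ), Regular ring → ∀ B0 : V → Bool,
  ∃ η : ℝ → V → Bool, IsExclusion ring η ∧ ∀ v, η 0 v = B0 v

/-- P5. Closure: arms to all distances at times in `[0,1]` give an exceptional time. -/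
def S_closure : Prop := ∀ (ring : Edge → Set ℝ) (η : ℝ → V → Bool) (x : V), Regular ring →
  IsExclusion ring η →
  (∀ J : ℕ, ∃ t ∈ Set.Icc (0 : ℝ) 1, Arm x 0 (10 * (J + 1) + 2) {v | η t v = true}) →
  ∃ t : ℝ, 0 ≤ t ∧ HasInfCluster {v | η t v = true}

/-- P6. The zero-one law by approximation with independent events. -/
def S_zeroOne : Prop := ∀ (Ω : Type) [MeasurableSpace Ω] (P : Measure Ω)
  [IsProbabilityMeasure P] (D : V → ℕ → Set Ω) (c0 : ℝ), 0 < c0 →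
  (∀ x J, D x (J + 1) ⊆ D x J) →
  (∀ (J : ℕ) (ε : ℝ), 0 < ε → ∃ (A : V → Set Ω) (L : ℤ), (∀ x, MeasurableSet (A x)) ∧
    (∀ x, P (symmDiff (A x) (D x J)) ≤ ENNReal.ofReal ε) ∧ (∀ x, P (A x) = P (A 0)) ∧
    ENNReal.ofReal c0 ≤ P (A 0) ∧
    ∀ X : Finset V, (∀ x ∈ X, ∀ y ∈ X, x ≠ y → y ∉ Ball x L) →
      P (⋂ x ∈ X, (A x)ᶜ) = ∏ x ∈ X, P (A x)ᶜ) →
  ∀ᵐ ω ∂P, ∃ x, ∀ J, ω ∈ D x J

end TriX
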