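import Pool.Agent.EX.Process

/-! Project EX (MP_68260e): existence of a clock system, definitions and statements. -/

open MeasureTheory ProbabilityTheory

namespace TriX

/-- The uniform law on the unit interval. -/
noncomputable def unif : Measure ℝ := volume.restrict (Set.Ioc (0 : ℝ) 1)

instance : IsProbabilityMeasure unif := ⟨by simp [unif]⟩

/-- The points of one unit interval: their number, and a sequence of positions. -/
abbrev Cel : Type := ℕ × (ℕ → ℝ)

/-- A Poisson number of independent uniform points. -/
noncomputable def celM : Measure Cel :=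
  (poissonMeasure 1).prod (Measure.infinitePi (fun _ : ℕ => unif))

instance : IsProbabilityMeasure celM := by unfold celM; infer_instance

/-- CS1. The characteristic functional of the Poisson points in one unit interval. -/
def S_cs1 : Prop :=
  (∀ h : ℝ → ℝ, Measurable h →
    ∫ x : Cel, Complex.exp (Complex.I * ∑ j ∈ Finset.range x.1, (h (x.2 j) : ℂ)) ∂celM =
      Complex.exp (∫ u in Set.Ioc (0 : ℝ) 1, (Complex.exp (Complex.I * (h u : ℂ)) - 1))) ∧
  ∀ᵐ x ∂celM, (∀ j, x.2 j ∈ Set.Ioc (0 : ℝ) 1) ∧ ∀ i j, x.2 i = x.2 j → i = j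

/-- CS2. There is a clock system. -/
def S_clock : Prop := ∃ (Ω : Type) (_ : MeasurableSpace Ω) (P : Measure Ω)
  (_ : IsProbabilityMeasure P) (ξ : V → Ω → Bool) (ring : Edge → Ω → Set ℝ),
  IsClockSystem P ξ ring

end TriX
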